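import Pool.Agent.BSL.St2

/-!
# FUA: linear statistics of the four-point function of the limit field
-/

open Complex MeasureTheory Filter Topology Set
open UpperHalfPlane hiding I
open scoped ContDiff MatrixGroups ProbabilityTheory

namespace BSL

open QE QE.NC QJ U3 NFP

noncomputable section

namespace FUA

/-! ### Sums over four indices -/

section Sums

variable {r : ℕ} (c : Fin r → ℝ)

/-- the weighted sum over four indices -/
def S4 (F : Fin r → Fin r → Fin r → Fin r → ℝ) : ℝ :=
  ∑ i, ∑ j, ∑ k, ∑ l, c i * c j * c k * c l * F i j k l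

/-- the weight -/
def w4 (q : Fin r × Fin r × Fin r × Fin r) : ℝ := c q.1 * c q.2.1 * c q.2.2.1 * c q.2.2.2

lemma S4_eq (F : Fin r → Fin r → Fin r → Fin r → ℝ) : S4 c F =
    ∑ q : Fin r × Fin r × Fin r × Fin r, w4 c q * F q.1 q.2.1 q.2.2.1 q.2.2.2 := by
  unfold S4 w4
  simp only [Fintype.sum_prod_type]

lemma S4_add (F G : Fin r → Fin r → Fin r → Fin r → ℝ) :
    S4 c (fun i j k l => F i j k l + G i j k l) = S4 c F + S4 c G := by
  simp only [S4_eq, mul_add, Finset.sum_add_distrib]

lemma S4_smul (a : ℝ) (F : Fin r → Fin r → Fin r → Fin r → ℝ) :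
    S4 c (fun i j k l => a * F i j k l) = a * S4 c F := by
  simp only [S4_eq, Finset.mul_sum]
  exact Finset.sum_congr rfl fun q _ => by ring

lemma S4_a (A B : Fin r → Fin r → ℝ) : S4 c (fun i j k l => A i j * B k l) =
    (∑ i, ∑ j, c i * c j * A i j) * ∑ i, ∑ j, c i * c j * B i j := by
  unfold S4
  rw [Finset.sum_mul]
  refine Finset.sum_congr rfl fun i _ => ?_
  rw [Finset.sum_mul]
  refine Finset.sum_congr rfl fun j _ => ?_
  rw [Finset.mul_sum]
  refine Finset.sum_congr rfl fun k _ => ?_
  rw [Finset.mul_sum]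
  refine Finset.sum_congr rfl fun l _ => ?_
  ring

lemma S4_b (A B : Fin r → Fin r → ℝ) : S4 c (fun i j k l => A i k * B j l) =
    (∑ i, ∑ j, c i * c j * A i j) * ∑ i, ∑ j, c i * c j * B i j := by
  rw [← S4_a]
  unfold S4
  refine Finset.sum_congr rfl fun i _ => ?_
  rw [Finset.sum_comm]
  refine Finset.sum_congr rfl fun k _ => ?_
  refine Finset.sum_congr rfl fun j _ => ?_
  refine Finset.sum_congr rfl fun l _ => ?_
  ring

lemma S4_c (A B : Fin r → Fin r → ℝ) : S4 c (fun i j k l => A i l * B j k) =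
    (∑ i, ∑ j, c i * c j * A i j) * ∑ i, ∑ j, c i * c j * B i j := by
  rw [← S4_b]
  unfold S4
  refine Finset.sum_congr rfl fun i _ => ?_
  refine Finset.sum_congr rfl fun j _ => ?_
  rw [Finset.sum_comm]
  refine Finset.sum_congr rfl fun k _ => ?_
  refine Finset.sum_congr rfl fun l _ => ?_
  ring

lemma S4_int {a : ℝ} {G : Fin r → Fin r → Fin r → Fin r → ℝ → ℝ}
    (hG : ∀ i j k l, Continuous (G i j k l)) :
    S4 c (fun i j k l => a * ∫ θ in (0 : ℝ)..(2 * Real.pi), G i j k l θ) =
      a * ∫ θ in (0 : ℝ)..(2 * Real.pi), S4 c (fun i j k l => G i j k l θ) := by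
  simp only [S4_eq]
  rw [intervalIntegral.integral_finsetSum fun q _ =>
    (continuous_const.mul (hG q.1 q.2.1 q.2.2.1 q.2.2.2)).intervalIntegrable _ _,
    Finset.mul_sum]
  refine Finset.sum_congr rfl fun q _ => ?_
  rw [intervalIntegral.integral_const_mul]
  ring

lemma S4_cont {G : Fin r → Fin r → Fin r → Fin r → ℝ → ℝ}
    (hG : ∀ i j k l, Continuous (G i j k l)) :
    Continuous fun θ => S4 c (fun i j k l => G i j k l θ) := by
  simp only [S4_eq]
  exact continuous_finsetSum _ fun q _ => continuous_const.mul (hG _ _ _ _)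

lemma S4_integrable {α : Type*} [MeasurableSpace α] {μ : Measure α}
    {G : Fin r → Fin r → Fin r → Fin r → α → ℝ} (hG : ∀ i j k l, Integrable (G i j k l) μ) :
    Integrable (fun z => S4 c (fun i j k l => G i j k l z)) μ := by
  simp only [S4_eq]
  exact integrable_finsetSum _ fun q _ => (hG _ _ _ _).const_mul _

lemma S4_integral {α : Type*} [MeasurableSpace α] {μ : Measure α}
    {G : Fin r → Fin r → Fin r → Fin r → α → ℝ} (hG : ∀ i j k l, Integrable (G i j k l) μ) :
    S4 c (fun i j k l => ∫ z, G i j k l z ∂μ) = ∫ z, S4 c (fun i j k l => G i j k l z) ∂μ := by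
  simp only [S4_eq]
  rw [integral_finsetSum _ fun q _ => (hG _ _ _ _).const_mul _]
  refine Finset.sum_congr rfl fun q _ => ?_
  rw [integral_const_mul]

end Sums

/-! ### The resonant term -/

lemma cos_sum {r : ℕ} (c : Fin r → ℝ) (φ : Fin r → ℝ) :
    0 ≤ S4 c (fun i j k l => Real.cos (φ i + φ j - φ k - φ l)) ∧
      0 ≤ S4 c (fun i j k l => Real.cos (φ i + φ k - φ j - φ l)) ∧
      0 ≤ S4 c (fun i j k l => Real.cos (φ i + φ l - φ j - φ k)) := by
  have e : ∀ a b d e : ℝ, Real.cos (a + b - d - e) =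
      Real.cos (a + b) * Real.cos (d + e) + Real.sin (a + b) * Real.sin (d + e) := by
    intro a b d e
    rw [← Real.cos_sub]
    congr 1
    ring
  simp only [e]
  refine ⟨?_, ?_, ?_⟩
  · rw [S4_add, S4_a c (fun i j => Real.cos (φ i + φ j)) (fun i j => Real.cos (φ i + φ j)),
      S4_a c (fun i j => Real.sin (φ i + φ j)) (fun i j => Real.sin (φ i + φ j))]
    exact add_nonneg (mul_self_nonneg _) (mul_self_nonneg _)
  · rw [S4_add, S4_b c (fun i j => Real.cos (φ i + φ j)) (fun i j => Real.cos (φ i + φ j)),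
      S4_b c (fun i j => Real.sin (φ i + φ j)) (fun i j => Real.sin (φ i + φ j))]
    exact add_nonneg (mul_self_nonneg _) (mul_self_nonneg _)
  · rw [S4_add, S4_c c (fun i j => Real.cos (φ i + φ j)) (fun i j => Real.cos (φ i + φ j)),
      S4_c c (fun i j => Real.sin (φ i + φ j)) (fun i j => Real.sin (φ i + φ j))]
    exact add_nonneg (mul_self_nonneg _) (mul_self_nonneg _)

lemma waveK_four (a b d e : ℂ) : Berry.waveK (a + b - d - e) = (2 * Real.pi)⁻¹ *
    ∫ θ in (0 : ℝ)..(2 * Real.pi), Real.cos ((a.re * Real.cos θ + a.im * Real.sin θ) +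
      (b.re * Real.cos θ + b.im * Real.sin θ) - (d.re * Real.cos θ + d.im * Real.sin θ) -
      (e.re * Real.cos θ + e.im * Real.sin θ)) := by
  unfold Berry.waveK
  congr 1
  refine intervalIntegral.integral_congr fun θ _ => ?_
  simp only [Complex.sub_re, Complex.add_re, Complex.sub_im, Complex.add_im]
  congr 1
  ring

lemma res_nonneg {r : ℕ} (c : Fin r → ℝ) (x : Fin r → ℂ) :
    0 ≤ S4 c (fun i j k l => resK ![x i, x j, x k, x l]) := by
  have hpi := Real.pi_pos
  have e : ∀ i j k l, resK ![x i, x j, x k, x l] =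
      Berry.waveK (x i + x j - x k - x l) + Berry.waveK (x i + x k - x j - x l) +
        Berry.waveK (x i + x l - x j - x k) := fun i j k l => rfl
  simp only [e]
  rw [S4_add, S4_add]
  refine add_nonneg (add_nonneg ?_ ?_) ?_
  · simp only [waveK_four]
    rw [S4_int c fun i j k l => by fun_prop]
    refine mul_nonneg (by positivity) (intervalIntegral.integral_nonneg (by positivity) ?_)
    intro θ _
    exact (cos_sum c fun i => (x i).re * Real.cos θ + (x i).im * Real.sin θ).1
  · simp only [waveK_four]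
    rw [S4_int c fun i j k l => by fun_prop]
    refine mul_nonneg (by positivity) (intervalIntegral.integral_nonneg (by positivity) ?_)
    intro θ _
    exact (cos_sum c fun i => (x i).re * Real.cos θ + (x i).im * Real.sin θ).2.1
  · simp only [waveK_four]
    rw [S4_int c fun i j k l => by fun_prop]
    refine mul_nonneg (by positivity) (intervalIntegral.integral_nonneg (by positivity) ?_)
    intro θ _
    exact (cos_sum c fun i => (x i).re * Real.cos θ + (x i).im * Real.sin θ).2.2

/-! ### The average over the rotations -/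

lemma avg_angle (y : ℂ) : ∫ θ in (0 : ℝ)..(2 * Real.pi),
    Real.cos (Complex.exp (θ * Complex.I) * y).re = 2 * Real.pi * Berry.waveK y := by
  have hpi := Real.pi_pos
  have h1 : Berry.waveK y = Berry.waveK ((starRingEnd ℂ) y) := by
    rw [Berry.waveK_eq_norm, Berry.waveK_eq_norm ((starRingEnd ℂ) y), RCLike.norm_conj]
  rw [h1]
  unfold Berry.waveK
  rw [← mul_assoc, mul_inv_cancel₀ (by positivity), one_mul]
  refine intervalIntegral.integral_congr fun θ _ => ?_
  congr 1
  rw [Complex.mul_re, Complex.conj_re, Complex.conj_im, Complex.exp_ofReal_mul_I_re,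
    Complex.exp_ofReal_mul_I_im]
  ring

lemma cont_rot (s : Measure S1) [IsFiniteMeasure s] (x : ℂ) :
    Continuous fun θ : ℝ => dirK s (Complex.exp (θ * Complex.I) * x) :=
  (MODEL.continuous_dirK s).comp (by fun_prop)

lemma avg_dirK (s : Measure S1) [IsFiniteMeasure s] (x : ℂ) :
    ∫ θ in (0 : ℝ)..(2 * Real.pi), dirK s (Complex.exp (θ * Complex.I) * x) =
      2 * Real.pi * ((s univ).toReal * Berry.waveK x) := by
  have hpi := Real.pi_pos
  rw [intervalIntegral.integral_of_le (by positivity)]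
  unfold NFP.dirK
  rw [integral_integral_swap]
  · have e : ∀ w : S1, ∫ θ in Ioc (0 : ℝ) (2 * Real.pi),
        Real.cos (Complex.exp (θ * Complex.I) * x * (starRingEnd ℂ) (w : ℂ)).re =
        2 * Real.pi * Berry.waveK x := by
      intro w
      rw [← intervalIntegral.integral_of_le (by positivity)]
      have h1 : ∀ θ : ℝ, Complex.exp (θ * Complex.I) * x * (starRingEnd ℂ) (w : ℂ) =
          Complex.exp (θ * Complex.I) * (x * (starRingEnd ℂ) (w : ℂ)) := fun θ => mul_assoc _ _ _
      simp only [h1]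
      rw [avg_angle, Berry.waveK_eq_norm, Berry.waveK_eq_norm x, norm_mul, RCLike.norm_conj,
        MODEL.nrm, mul_one]
    simp only [e]
    rw [integral_const, smul_eq_mul, measureReal_def]
    ring
  · have hc : Continuous fun o : ℝ × S1 =>
        Real.cos (Complex.exp (o.1 * Complex.I) * x * (starRingEnd ℂ) (o.2 : ℂ)).re := by
      fun_prop
    refine Integrable.of_bound hc.aestronglyMeasurable 1 (Eventually.of_forall fun o => ?_)
    rw [Real.norm_eq_abs]
    exact Real.abs_cos_le_one _

/-- Cauchy-Schwarz -/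
lemma cs {V : ℝ → ℝ} (hV : Continuous V) :
    (1 / (2 * Real.pi) * ∫ θ in (0 : ℝ)..(2 * Real.pi), V θ) ^ 2 ≤
      1 / (2 * Real.pi) * ∫ θ in (0 : ℝ)..(2 * Real.pi), V θ ^ 2 := by
  have hpi := Real.pi_pos
  set m := 1 / (2 * Real.pi) * ∫ θ in (0 : ℝ)..(2 * Real.pi), V θ with hm
  have h1 : 0 ≤ 1 / (2 * Real.pi) * ∫ θ in (0 : ℝ)..(2 * Real.pi), (V θ - m) ^ 2 :=
    mul_nonneg (by positivity) (intervalIntegral.integral_nonneg (by positivity)
      fun θ _ => sq_nonneg _)
  have e : ∀ θ, (V θ - m) ^ 2 = V θ ^ 2 - 2 * m * V θ + m ^ 2 := fun θ => by ring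
  have i1 : IntervalIntegrable (fun θ => V θ ^ 2) volume 0 (2 * Real.pi) :=
    (hV.pow 2).intervalIntegrable _ _
  have i2 : IntervalIntegrable (fun θ => 2 * m * V θ) volume 0 (2 * Real.pi) :=
    (continuous_const.mul hV).intervalIntegrable _ _
  have h2 : ∫ θ in (0 : ℝ)..(2 * Real.pi), (V θ - m) ^ 2 =
      (∫ θ in (0 : ℝ)..(2 * Real.pi), V θ ^ 2) - 2 * m * (2 * Real.pi * m) +
        2 * Real.pi * m ^ 2 := by
    simp only [e]
    rw [intervalIntegral.integral_add (i1.sub i2) intervalIntegrable_const,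
      intervalIntegral.integral_sub i1 i2, intervalIntegral.integral_const_mul,
      intervalIntegral.integral_const, smul_eq_mul, sub_zero]
    have h3 : ∫ θ in (0 : ℝ)..(2 * Real.pi), V θ = 2 * Real.pi * m := by
      rw [hm]
      field_simp
    rw [h3]
  rw [h2] at h1
  have h4 : 1 / (2 * Real.pi) * ((∫ θ in (0 : ℝ)..(2 * Real.pi), V θ ^ 2) -
      2 * m * (2 * Real.pi * m) + 2 * Real.pi * m ^ 2) =
      1 / (2 * Real.pi) * (∫ θ in (0 : ℝ)..(2 * Real.pi), V θ ^ 2) - m ^ 2 := by
    field_simp
    ring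
  rw [h4] at h1
  linarith

lemma wick_ge {r : ℕ} (c : Fin r → ℝ) (x : Fin r → ℂ) (s : Measure S1) [IsFiniteMeasure s] :
    3 * ((s univ).toReal ^ 2 * (∑ i, ∑ j, c i * c j * Berry.waveK (x i - x j)) ^ 2) ≤
      S4 c (fun i j k l => dirWick s ![x i, x j, x k, x l]) := by
  have hpi := Real.pi_pos
  set V : ℝ → ℝ := fun θ => ∑ i, ∑ j, c i * c j *
    dirK s (Complex.exp (θ * Complex.I) * (x i - x j)) with hV
  have hVc : Continuous V := by
    refine continuous_finsetSum _ fun i _ => continuous_finsetSum _ fun j _ => ?_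
    exact continuous_const.mul (cont_rot s _)
  have h1 : S4 c (fun i j k l => dirWick s ![x i, x j, x k, x l]) =
      1 / (2 * Real.pi) * ∫ θ in (0 : ℝ)..(2 * Real.pi), 3 * V θ ^ 2 := by
    have e : ∀ i j k l, dirWick s ![x i, x j, x k, x l] = 1 / (2 * Real.pi) *
        ∫ θ in (0 : ℝ)..(2 * Real.pi),
        (dirK s (Complex.exp (θ * Complex.I) * (x i - x j))
          * dirK s (Complex.exp (θ * Complex.I) * (x k - x l))
        + dirK s (Complex.exp (θ * Complex.I) * (x i - x k))
          * dirK s (Complex.exp (θ * Complex.I) * (x j - x l))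
        + dirK s (Complex.exp (θ * Complex.I) * (x i - x l))
          * dirK s (Complex.exp (θ * Complex.I) * (x j - x k))) := fun i j k l => rfl
    simp only [e]
    have hG : ∀ i j k l, Continuous fun θ : ℝ =>
        dirK s (Complex.exp (θ * Complex.I) * (x i - x j))
          * dirK s (Complex.exp (θ * Complex.I) * (x k - x l))
        + dirK s (Complex.exp (θ * Complex.I) * (x i - x k))
          * dirK s (Complex.exp (θ * Complex.I) * (x j - x l))
        + dirK s (Complex.exp (θ * Complex.I) * (x i - x l))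
          * dirK s (Complex.exp (θ * Complex.I) * (x j - x k)) := fun i j k l =>
      (((cont_rot s _).mul (cont_rot s _)).add
      ((cont_rot s _).mul (cont_rot s _))).add ((cont_rot s _).mul (cont_rot s _))
    rw [S4_int c hG]
    congr 1
    refine intervalIntegral.integral_congr fun θ _ => ?_
    rw [S4_add, S4_add,
      S4_a c (fun i j => dirK s (Complex.exp (θ * Complex.I) * (x i - x j)))
        (fun i j => dirK s (Complex.exp (θ * Complex.I) * (x i - x j))),
      S4_b c (fun i j => dirK s (Complex.exp (θ * Complex.I) * (x i - x j)))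
        (fun i j => dirK s (Complex.exp (θ * Complex.I) * (x i - x j))),
      S4_c c (fun i j => dirK s (Complex.exp (θ * Complex.I) * (x i - x j)))
        (fun i j => dirK s (Complex.exp (θ * Complex.I) * (x i - x j)))]
    simp only [hV]
    ring
  have h2 : 1 / (2 * Real.pi) * ∫ θ in (0 : ℝ)..(2 * Real.pi), V θ =
      (s univ).toReal * ∑ i, ∑ j, c i * c j * Berry.waveK (x i - x j) := by
    have i2 : ∀ i j, IntervalIntegrable (fun θ : ℝ => c i * c j *
        dirK s (Complex.exp (θ * Complex.I) * (x i - x j))) volume 0 (2 * Real.pi) :=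
      fun i j => (continuous_const.mul (cont_rot s _)).intervalIntegrable _ _
    have e : ∫ θ in (0 : ℝ)..(2 * Real.pi), V θ = ∑ i, ∑ j, c i * c j *
        (2 * Real.pi * ((s univ).toReal * Berry.waveK (x i - x j))) := by
      simp only [hV]
      rw [intervalIntegral.integral_finsetSum fun i _ => by
        exact (continuous_finsetSum _ fun j _ =>
          continuous_const.mul (cont_rot s _)).intervalIntegrable _ _]
      refine Finset.sum_congr rfl fun i _ => ?_
      rw [intervalIntegral.integral_finsetSum fun j _ => i2 i j]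
      refine Finset.sum_congr rfl fun j _ => ?_
      rw [intervalIntegral.integral_const_mul, avg_dirK]
    rw [e, Finset.mul_sum, Finset.mul_sum]
    refine Finset.sum_congr rfl fun i _ => ?_
    rw [Finset.mul_sum, Finset.mul_sum]
    refine Finset.sum_congr rfl fun j _ => ?_
    field_simp
  have h3 := cs hVc
  rw [h2] at h3
  rw [h1, intervalIntegral.integral_const_mul]
  have h4 : 1 / (2 * Real.pi) * (3 * ∫ θ in (0 : ℝ)..(2 * Real.pi), V θ ^ 2) =
      3 * (1 / (2 * Real.pi) * ∫ θ in (0 : ℝ)..(2 * Real.pi), V θ ^ 2) := by ring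
  rw [h4, ← mul_pow]
  linarith

/-! ### Averages over the surface -/

lemma int_cond {Γ : Subgroup SL(2, ℝ)} {D : Set ℍ} {ρ : ℍ → ℝ} [Countable Γ]
    (hg : Berry.Geo Γ ρ D) {f : ℍ → ℝ} (hf : IntegrableOn f D (volume : Measure ℍ)) :
    Integrable f (ProbabilityTheory.cond (Berry.area ρ) D) := by
  obtain ⟨K, hK⟩ := hg.bdd
  have h1 : Berry.area ρ ≤ ENNReal.ofReal (Real.exp (2 * K)) • (volume : Measure ℍ) := by
    unfold Berry.area
    rw [← withDensity_const]
    refine withDensity_mono (Eventually.of_forall fun z => ?_)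
    refine ENNReal.ofReal_le_ofReal (Real.exp_le_exp.2 ?_)
    have := (abs_le.1 (hK z)).2
    linarith
  have h2 : (Berry.area ρ).restrict D ≤
      ENNReal.ofReal (Real.exp (2 * K)) • (volume : Measure ℍ).restrict D := by
    rw [← Measure.restrict_smul]
    exact Measure.restrict_mono_measure h1 D
  have h3 : Integrable f ((Berry.area ρ).restrict D) :=
    (Integrable.smul_measure hf ENNReal.ofReal_ne_top).mono_measure h2
  unfold ProbabilityTheory.cond
  exact h3.smul_measure (ENNReal.inv_ne_top.2 (Berry.area_ne_zero hg))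

end FUA

open FUA in
theorem t_FUA : StmtFua := by
  intro Γ _ D ρ s κ hDm hD hF hfin hp2 hp1 hW hκ r c x
  have hg : Berry.Geo Γ ρ D := geo_of hDm hD hF.cpt (continuous_of_smooth hF.smooth) hF.inv
  have hP := area_prob hg
  set p : ℍ → ℝ := fun z => ((s z) univ).toReal with hpdef
  set T : ℝ := ∑ i, ∑ j, c i * c j * Berry.waveK (x i - x j) with hT
  have i2 : Integrable (fun z => p z ^ 2) (ProbabilityTheory.cond (Berry.area ρ) D) :=
    int_cond hg hp2
  have hpm : Measurable p := (s.measurable_coe MeasurableSet.univ).ennreal_toReal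
  have i1 : Integrable p (ProbabilityTheory.cond (Berry.area ρ) D) := by
    refine Integrable.mono' ((integrable_const (1 : ℝ)).add i2) hpm.aestronglyMeasurable
      (Eventually.of_forall fun z => ?_)
    have h0 : 0 ≤ p z := ENNReal.toReal_nonneg
    rw [Real.norm_of_nonneg h0]
    show p z ≤ 1 + p z ^ 2
    nlinarith [sq_nonneg (p z - 1)]
  have hm2 : 1 ≤ Berry.rAvg ρ D (fun z => p z ^ 2) := by
    have h0 : 0 ≤ ∫ z, (p z - 1) ^ 2 ∂(ProbabilityTheory.cond (Berry.area ρ) D) :=
      integral_nonneg fun z => sq_nonneg _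
    have e : ∀ z, (p z - 1) ^ 2 = p z ^ 2 - 2 * p z + 1 := fun z => by ring
    simp only [e] at h0
    have i3 : Integrable (fun z => p z ^ 2 - 2 * p z)
        (ProbabilityTheory.cond (Berry.area ρ) D) := i2.sub (i1.const_mul 2)
    rw [integral_add i3 (integrable_const _),
      integral_sub i2 (i1.const_mul 2), integral_const_mul, integral_const] at h0
    have h1 : ∫ z, p z ∂(ProbabilityTheory.cond (Berry.area ρ) D) = 1 := hp1
    rw [h1] at h0
    simp only [probReal_univ, smul_eq_mul, mul_one] at h0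
    change 1 ≤ ∫ z, p z ^ 2 ∂(ProbabilityTheory.cond (Berry.area ρ) D)
    linarith
  have iW : ∀ i j k l, Integrable (fun z => dirWick (s z) ![x i, x j, x k, x l])
      (ProbabilityTheory.cond (Berry.area ρ) D) := fun i j k l => int_cond hg (hW _)
  have hmono : 3 * T ^ 2 * Berry.rAvg ρ D (fun z => p z ^ 2) ≤
      ∫ z, S4 c (fun i j k l => dirWick (s z) ![x i, x j, x k, x l])
        ∂(ProbabilityTheory.cond (Berry.area ρ) D) := by
    unfold Berry.rAvg
    rw [← integral_const_mul]
    refine integral_mono (i2.const_mul _) (S4_integrable c iW) fun z => ?_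
    have := hfin z
    have h1 := wick_ge c x (s z)
    refine le_trans (le_of_eq ?_) h1
    show 3 * T ^ 2 * p z ^ 2 = 3 * (p z ^ 2 * T ^ 2)
    ring
  have hsum : ∑ i, ∑ j, ∑ k, ∑ l, c i * c j * c k * c l *
      fourF ρ D s κ ![x i, x j, x k, x l] =
      (∫ z, S4 c (fun i j k l => dirWick (s z) ![x i, x j, x k, x l])
        ∂(ProbabilityTheory.cond (Berry.area ρ) D)) +
      (κ - 3 * Berry.rAvg ρ D (fun z => p z ^ 2)) / 3 *
        S4 c (fun i j k l => resK ![x i, x j, x k, x l]) := by
    rw [← S4_integral c iW, ← S4_smul, ← S4_add]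
    rfl
  rw [hsum]
  have hr := res_nonneg c x
  have hk : 0 ≤ (κ - 3 * Berry.rAvg ρ D (fun z => p z ^ 2)) / 3 := by
    have : 3 * Berry.rAvg ρ D (fun z => p z ^ 2) ≤ κ := hκ
    linarith
  have h5 := mul_nonneg hk hr
  have h6 : 3 * T ^ 2 ≤ 3 * T ^ 2 * Berry.rAvg ρ D (fun z => p z ^ 2) :=
    le_mul_of_one_le_right (by positivity) hm2
  linarith

end

end BSL
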