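import Pool.Agent.BSL.St5
import Pool.Agent.BSL.FUA

/-!
# ATM: the four-point function of a Gaussian wave and the atoms of the directional measure
-/

open Complex MeasureTheory Filter Topology Set
open scoped ProbabilityTheory ENNReal

namespace BSL

open QE QE.NC QJ U3 NFP

noncomputable section

namespace ATM

/-- the phase -/
def D (θ : ℝ) (u z : ℂ) : ℝ := (Complex.exp (θ * Complex.I) * u * (starRingEnd ℂ) z).re

lemma D_sub_r (θ : ℝ) (u z z' : ℂ) : D θ u (z - z') = D θ u z - D θ u z' := by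
  unfold D; rw [map_sub, mul_sub, Complex.sub_re]

lemma D_add_r (θ : ℝ) (u z z' : ℂ) : D θ u (z + z') = D θ u z + D θ u z' := by
  unfold D; rw [map_add, mul_add, Complex.add_re]

lemma D_sub_l (θ : ℝ) (u v z : ℂ) : D θ (u - v) z = D θ u z - D θ v z := by
  unfold D; rw [mul_sub, sub_mul, Complex.sub_re]

lemma D_add_l (θ : ℝ) (u v z : ℂ) : D θ (u + v) z = D θ u z + D θ v z := by
  unfold D; rw [mul_add, add_mul, Complex.add_re]

variable {r : ℕ} (c : Fin r → ℝ) (x : Fin r → ℂ) (a : ℂ)

/-- the quadratic form -/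
def Q (θ : ℝ) (z : ℂ) : ℝ := ∑ i, ∑ j, c i * c j * Real.cos (D θ (x i - x j) z)

lemma Q_nonneg (θ : ℝ) (z : ℂ) : 0 ≤ Q c x θ z := by
  have h : Q c x θ z = (∑ i, c i * Real.cos (D θ (x i) z)) * (∑ i, c i * Real.cos (D θ (x i) z)) +
      (∑ i, c i * Real.sin (D θ (x i) z)) * (∑ i, c i * Real.sin (D θ (x i) z)) := by
    unfold Q
    rw [Finset.sum_mul_sum, Finset.sum_mul_sum, ← Finset.sum_add_distrib]
    refine Finset.sum_congr rfl fun i _ => ?_
    rw [← Finset.sum_add_distrib]
    refine Finset.sum_congr rfl fun j _ => ?_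
    rw [D_sub_l, Real.cos_sub]
    ring
  rw [h]
  exact add_nonneg (mul_self_nonneg _) (mul_self_nonneg _)

lemma sin_zero (θ : ℝ) (z : ℂ) : ∑ i, ∑ j, c i * c j * Real.sin (D θ (x i - x j) z) = 0 := by
  have h : ∑ i, ∑ j, c i * c j * Real.sin (D θ (x i - x j) z) = - ∑ i, ∑ j, c i * c j * Real.sin (D θ (x i - x j) z) := by
    conv_lhs => rw [Finset.sum_comm]
    rw [← Finset.sum_neg_distrib]
    refine Finset.sum_congr rfl fun i _ => ?_
    rw [← Finset.sum_neg_distrib]
    refine Finset.sum_congr rfl fun j _ => ?_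
    rw [D_sub_l, D_sub_l, ← neg_sub (D θ (x i) z), Real.sin_neg]
    ring
  linarith

lemma sum_shift (θ β : ℝ) (z : ℂ) :
    ∑ i, ∑ j, c i * c j * Real.cos (D θ (x i - x j) z - β) = Real.cos β * Q c x θ z := by
  have h : ∀ i j, c i * c j * Real.cos (D θ (x i - x j) z - β) =
      Real.cos β * (c i * c j * Real.cos (D θ (x i - x j) z)) + Real.sin β * (c i * c j * Real.sin (D θ (x i - x j) z)) := by
    intro i j
    rw [Real.cos_sub]
    ring
  simp only [h, Finset.sum_add_distrib, ← Finset.mul_sum]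
  rw [sin_zero]
  unfold Q
  ring

/-- the nonnegative kernel -/
def G (θ : ℝ) (w w' : ℂ) : ℝ :=
  (1 + Real.cos (D θ a (w + w'))) * Q c x θ (w - w') + (1 + Real.cos (D θ a (w - w'))) * Q c x θ (w + w')

lemma G_nonneg (θ : ℝ) (w w' : ℂ) : 0 ≤ G c x a θ w w' := by
  unfold G
  have h1 := Real.neg_one_le_cos (D θ a (w + w'))
  have h2 := Real.neg_one_le_cos (D θ a (w - w'))
  exact add_nonneg (mul_nonneg (by linarith) (Q_nonneg c x θ _)) (mul_nonneg (by linarith) (Q_nonneg c x θ _))

/-- the trigonometric identity -/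
lemma key (θ : ℝ) (w w' : ℂ) :
    ∑ i, ∑ j, c i * c j * (Real.cos (D θ (x i - x j) w) * Real.cos (D θ (x i - x j) w') +
      Real.cos (D θ (x i - x j - a) w) * Real.cos (D θ (x i - x j + a) w')) = 1 / 2 * G c x a θ w w' := by
  have h : ∀ i j, c i * c j * (Real.cos (D θ (x i - x j) w) * Real.cos (D θ (x i - x j) w') +
      Real.cos (D θ (x i - x j - a) w) * Real.cos (D θ (x i - x j + a) w')) =
      1 / 2 * (c i * c j * Real.cos (D θ (x i - x j) (w - w') - 0) + c i * c j * Real.cos (D θ (x i - x j) (w + w') - 0) +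
        (c i * c j * Real.cos (D θ (x i - x j) (w - w') - D θ a (w + w')) +
          c i * c j * Real.cos (D θ (x i - x j) (w + w') - D θ a (w - w')))) := by
    intro i j
    have e1 : ∀ α β : ℝ, Real.cos α * Real.cos β = 1 / 2 * (Real.cos (α - β) + Real.cos (α + β)) := by
      intro α β
      rw [Real.cos_sub, Real.cos_add]
      ring
    rw [e1, e1]
    have e2 : D θ (x i - x j) w - D θ (x i - x j) w' = D θ (x i - x j) (w - w') - 0 := by rw [D_sub_r]; ring
    have e3 : D θ (x i - x j) w + D θ (x i - x j) w' = D θ (x i - x j) (w + w') - 0 := by rw [D_add_r]; ring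
    have e4 : D θ (x i - x j - a) w - D θ (x i - x j + a) w' = D θ (x i - x j) (w - w') - D θ a (w + w') := by
      rw [D_sub_r, D_add_r, D_sub_l θ (x i - x j) a, D_add_l]; ring
    have e5 : D θ (x i - x j - a) w + D θ (x i - x j + a) w' = D θ (x i - x j) (w + w') - D θ a (w - w') := by
      rw [D_add_r, D_sub_r, D_sub_l θ (x i - x j) a, D_add_l]; ring
    rw [e2, e3, e4, e5]
    ring
  simp only [h, ← Finset.mul_sum, Finset.sum_add_distrib]
  rw [sum_shift, sum_shift, sum_shift, sum_shift]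
  unfold G
  rw [Real.cos_zero]
  ring

lemma cont_D (u : ℂ) : Continuous fun p : ℝ × ℂ => D p.1 u p.2 := by
  unfold D
  fun_prop

lemma cont_Q : Continuous fun p : ℝ × ℂ => Q c x p.1 p.2 := by
  unfold Q
  refine continuous_finsetSum _ fun i _ => continuous_finsetSum _ fun j _ => ?_
  exact continuous_const.mul (Real.continuous_cos.comp (cont_D _))

lemma cont_G : Continuous fun p : ℝ × (S1 × S1) => G c x a p.1 (p.2.1 : ℂ) (p.2.2 : ℂ) := by
  unfold G
  have h1 : Continuous fun p : ℝ × (S1 × S1) => ((p.1, (p.2.1 : ℂ) + (p.2.2 : ℂ)) : ℝ × ℂ) := by fun_prop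
  have h2 : Continuous fun p : ℝ × (S1 × S1) => ((p.1, (p.2.1 : ℂ) - (p.2.2 : ℂ)) : ℝ × ℂ) := by fun_prop
  have a1 := (cont_D a).comp h1
  have a2 := (cont_D a).comp h2
  have a3 := (cont_Q c x).comp h1
  have a4 := (cont_Q c x).comp h2
  exact ((continuous_const.add (Real.continuous_cos.comp a1)).mul a4).add
    ((continuous_const.add (Real.continuous_cos.comp a2)).mul a3)

lemma Q_bound (θ : ℝ) (z : ℂ) : |Q c x θ z| ≤ ∑ i, ∑ j, |c i * c j| := by
  unfold Q
  refine le_trans (Finset.abs_sum_le_sum_abs _ _) (Finset.sum_le_sum fun i _ => ?_)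
  refine le_trans (Finset.abs_sum_le_sum_abs _ _) (Finset.sum_le_sum fun j _ => ?_)
  rw [abs_mul]
  exact mul_le_of_le_one_right (abs_nonneg _) (Real.abs_cos_le_one _)

lemma G_bound (θ : ℝ) (w w' : ℂ) : ‖G c x a θ w w'‖ ≤ 4 * ∑ i, ∑ j, |c i * c j| := by
  unfold G
  have hB : 0 ≤ ∑ i, ∑ j, |c i * c j| := Finset.sum_nonneg fun i _ => Finset.sum_nonneg fun j _ => abs_nonneg _
  have h : ∀ y : ℝ, |1 + Real.cos y| ≤ 2 := by
    intro y
    have h1 := Real.neg_one_le_cos y
    have h2 := Real.cos_le_one y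
    rw [abs_le]; constructor <;> linarith
  rw [Real.norm_eq_abs]
  refine le_trans (abs_add_le _ _) ?_
  rw [abs_mul, abs_mul]
  have h1 := mul_le_mul (h (D θ a (w + w'))) (Q_bound c x θ (w - w')) (abs_nonneg _) (by norm_num)
  have h2 := mul_le_mul (h (D θ a (w - w'))) (Q_bound c x θ (w + w')) (abs_nonneg _) (by norm_num)
  linarith

variable (s : Measure S1) [IsFiniteMeasure s]

lemma int_cc (θ : ℝ) (u v : ℂ) :
    Integrable (fun p : S1 × S1 => Real.cos (D θ u p.1) * Real.cos (D θ v p.2)) (s.prod s) := by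
  have hc : Continuous fun p : S1 × S1 => Real.cos (D θ u p.1) * Real.cos (D θ v p.2) := by
    unfold D
    fun_prop
  refine Integrable.of_bound hc.aestronglyMeasurable 1 (Eventually.of_forall fun p => ?_)
  rw [norm_mul, Real.norm_eq_abs, Real.norm_eq_abs]
  exact mul_le_one₀ (Real.abs_cos_le_one _) (abs_nonneg _) (Real.abs_cos_le_one _)

lemma prodK (θ : ℝ) (u v : ℂ) :
    dirK s (Complex.exp (θ * Complex.I) * u) * dirK s (Complex.exp (θ * Complex.I) * v) =
      ∫ p : S1 × S1, Real.cos (D θ u p.1) * Real.cos (D θ v p.2) ∂(s.prod s) :=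
  (integral_prod_mul (μ := s) (ν := s) (fun w : S1 => Real.cos (D θ u w)) (fun w : S1 => Real.cos (D θ v w))).symm

lemma form (θ : ℝ) :
    ∑ i, ∑ j, c i * c j * (dirK s (Complex.exp (θ * Complex.I) * (x i - x j)) * dirK s (Complex.exp (θ * Complex.I) * (x i - x j)) +
      dirK s (Complex.exp (θ * Complex.I) * (x i - x j - a)) * dirK s (Complex.exp (θ * Complex.I) * (x i - x j + a))) =
      1 / 2 * ∫ p : S1 × S1, G c x a θ p.1 p.2 ∂(s.prod s) := by
  have h : ∀ i j, c i * c j * (dirK s (Complex.exp (θ * Complex.I) * (x i - x j)) * dirK s (Complex.exp (θ * Complex.I) * (x i - x j)) +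
      dirK s (Complex.exp (θ * Complex.I) * (x i - x j - a)) * dirK s (Complex.exp (θ * Complex.I) * (x i - x j + a))) =
      ∫ p : S1 × S1, c i * c j * (Real.cos (D θ (x i - x j) p.1) * Real.cos (D θ (x i - x j) p.2) +
        Real.cos (D θ (x i - x j - a) p.1) * Real.cos (D θ (x i - x j + a) p.2)) ∂(s.prod s) := by
    intro i j
    rw [integral_const_mul, integral_add (int_cc s _ _ _) (int_cc s _ _ _), ← prodK, ← prodK]
  simp only [h]
  have hi : ∀ i j, Integrable (fun p : S1 × S1 => c i * c j * (Real.cos (D θ (x i - x j) p.1) * Real.cos (D θ (x i - x j) p.2) +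
        Real.cos (D θ (x i - x j - a) p.1) * Real.cos (D θ (x i - x j + a) p.2))) (s.prod s) :=
    fun i j => ((int_cc s _ _ _).add (int_cc s _ _ _)).const_mul _
  have h2 : ∀ i, ∑ j, ∫ p : S1 × S1, c i * c j * (Real.cos (D θ (x i - x j) p.1) * Real.cos (D θ (x i - x j) p.2) +
        Real.cos (D θ (x i - x j - a) p.1) * Real.cos (D θ (x i - x j + a) p.2)) ∂(s.prod s) =
      ∫ p : S1 × S1, ∑ j, c i * c j * (Real.cos (D θ (x i - x j) p.1) * Real.cos (D θ (x i - x j) p.2) +
        Real.cos (D θ (x i - x j - a) p.1) * Real.cos (D θ (x i - x j + a) p.2)) ∂(s.prod s) :=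
    fun i => (integral_finsetSum _ fun j _ => hi i j).symm
  simp only [h2]
  rw [← integral_finsetSum _ fun i _ => integrable_finsetSum _ fun j _ => hi i j]
  simp only [key]
  rw [integral_const_mul]

lemma swap : ∫ θ in (0 : ℝ)..(2 * Real.pi), ∫ p : S1 × S1, G c x a θ p.1 p.2 ∂(s.prod s) =
    ∫ p : S1 × S1, (∫ θ in (0 : ℝ)..(2 * Real.pi), G c x a θ p.1 p.2) ∂(s.prod s) := by
  have hpi := Real.pi_pos
  rw [intervalIntegral.integral_of_le (by positivity), integral_integral_swap]
  · refine integral_congr_ae (Eventually.of_forall fun p => ?_)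
    beta_reduce
    rw [intervalIntegral.integral_of_le (by positivity)]
  · exact Integrable.of_bound (cont_G c x a).aestronglyMeasurable _ (Eventually.of_forall fun p => G_bound c x a _ _ _)

lemma int_avg : Integrable (fun p : S1 × S1 => ∫ θ in (0 : ℝ)..(2 * Real.pi), G c x a θ p.1 p.2) (s.prod s) := by
  have hpi := Real.pi_pos
  have h : Integrable (fun q : ℝ × (S1 × S1) => G c x a q.1 q.2.1 q.2.2)
      ((volume.restrict (Ioc 0 (2 * Real.pi))).prod (s.prod s)) :=
    Integrable.of_bound (cont_G c x a).aestronglyMeasurable _ (Eventually.of_forall fun p => G_bound c x a _ _ _)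
  have h2 := h.integral_prod_right
  refine h2.congr (Eventually.of_forall fun p => ?_)
  beta_reduce
  rw [intervalIntegral.integral_of_le (by positivity)]

lemma cont_th (z z' : ℂ) : Continuous fun θ : ℝ => G c x a θ z z' := by
  unfold G Q D
  fun_prop

lemma avg_cos (u : ℂ) (w : S1) : ∫ θ in (0 : ℝ)..(2 * Real.pi), Real.cos (D θ u ((w : ℂ) + w)) = 2 * Real.pi * Berry.waveK (2 * u) := by
  have h1 : ∀ θ : ℝ, D θ u ((w : ℂ) + w) = (Complex.exp (θ * Complex.I) * (2 * u * (starRingEnd ℂ) (w : ℂ))).re := by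
    intro θ
    unfold D
    congr 1
    rw [map_add]
    ring
  simp only [h1]
  rw [FUA.avg_angle, Berry.waveK_eq_norm, Berry.waveK_eq_norm (2 * u), norm_mul, RCLike.norm_conj, ONE.norm_S1, mul_one]

lemma D_zero (θ : ℝ) (u : ℂ) : D θ u 0 = 0 := by
  unfold D
  simp

lemma Q_zero (hc : ∑ i, c i = 1) (θ : ℝ) : Q c x θ 0 = 1 := by
  unfold Q
  simp only [D_zero, Real.cos_zero, mul_one]
  rw [← Finset.sum_mul_sum, hc, one_mul]

lemma diag_value (hc : ∑ i, c i = 1) (w : S1) : ∫ θ in (0 : ℝ)..(2 * Real.pi), G c x a θ w w =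
    2 * Real.pi * (1 + Berry.waveK (2 * a) + 2 * ∑ i, ∑ j, c i * c j * Berry.waveK (2 * (x i - x j))) := by
  have h1 : ∀ θ : ℝ, G c x a θ w w = 1 + Real.cos (D θ a ((w : ℂ) + w)) +
      2 * ∑ i, ∑ j, c i * c j * Real.cos (D θ (x i - x j) ((w : ℂ) + w)) := by
    intro θ
    unfold G
    rw [sub_self, Q_zero c x hc, D_zero, Real.cos_zero]
    unfold Q
    ring
  simp only [h1]
  have hcD : ∀ u : ℂ, Continuous fun θ : ℝ => Real.cos (D θ u ((w : ℂ) + w)) := by
    intro u
    unfold D
    fun_prop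
  have hcs : Continuous fun θ : ℝ => ∑ i, ∑ j, c i * c j * Real.cos (D θ (x i - x j) ((w : ℂ) + w)) :=
    continuous_finsetSum _ fun i _ => continuous_finsetSum _ fun j _ => continuous_const.mul (hcD _)
  have i1 : IntervalIntegrable (fun θ : ℝ => 1 + Real.cos (D θ a ((w : ℂ) + w))) volume 0 (2 * Real.pi) :=
    (continuous_const.add (hcD a)).intervalIntegrable _ _
  have i2 : IntervalIntegrable (fun θ : ℝ => 2 * ∑ i, ∑ j, c i * c j * Real.cos (D θ (x i - x j) ((w : ℂ) + w))) volume 0 (2 * Real.pi) :=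
    (continuous_const.mul hcs).intervalIntegrable _ _
  have i3 : IntervalIntegrable (fun _ : ℝ => (1 : ℝ)) volume 0 (2 * Real.pi) := continuous_const.intervalIntegrable _ _
  have i4 : IntervalIntegrable (fun θ : ℝ => Real.cos (D θ a ((w : ℂ) + w))) volume 0 (2 * Real.pi) := (hcD a).intervalIntegrable _ _
  have i5 : ∀ i, IntervalIntegrable (fun θ : ℝ => ∑ j, c i * c j * Real.cos (D θ (x i - x j) ((w : ℂ) + w))) volume 0 (2 * Real.pi) :=
    fun i => (continuous_finsetSum _ fun j _ => continuous_const.mul (hcD _)).intervalIntegrable _ _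
  have i6 : ∀ i j, IntervalIntegrable (fun θ : ℝ => c i * c j * Real.cos (D θ (x i - x j) ((w : ℂ) + w))) volume 0 (2 * Real.pi) :=
    fun i j => (continuous_const.mul (hcD _)).intervalIntegrable _ _
  rw [intervalIntegral.integral_add i1 i2, intervalIntegral.integral_add i3 i4,
    intervalIntegral.integral_const_mul, intervalIntegral.integral_const, avg_cos,
    intervalIntegral.integral_finsetSum fun i _ => i5 i]
  have h2 : ∀ i, ∫ θ in (0 : ℝ)..(2 * Real.pi), ∑ j, c i * c j * Real.cos (D θ (x i - x j) ((w : ℂ) + w)) =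
      ∑ j, c i * c j * (2 * Real.pi * Berry.waveK (2 * (x i - x j))) := by
    intro i
    rw [intervalIntegral.integral_finsetSum fun j _ => i6 i j]
    refine Finset.sum_congr rfl fun j _ => ?_
    rw [intervalIntegral.integral_const_mul, avg_cos]
  simp only [h2]
  rw [smul_eq_mul, sub_zero, mul_one, mul_add, mul_add, mul_one, Finset.mul_sum, Finset.mul_sum, Finset.mul_sum]
  congr 1
  refine Finset.sum_congr rfl fun i _ => ?_
  rw [Finset.mul_sum, Finset.mul_sum, Finset.mul_sum]
  refine Finset.sum_congr rfl fun j _ => ?_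
  ring

lemma anti_value (hc : ∑ i, c i = 1) (w : S1) (z : ℂ) (hz : z = -(w : ℂ)) : ∫ θ in (0 : ℝ)..(2 * Real.pi), G c x a θ w z =
    2 * Real.pi * (1 + Berry.waveK (2 * a) + 2 * ∑ i, ∑ j, c i * c j * Berry.waveK (2 * (x i - x j))) := by
  rw [← diag_value c x a hc w]
  refine intervalIntegral.integral_congr fun θ _ => ?_
  beta_reduce
  subst hz
  unfold G
  rw [sub_self, ← sub_eq_add_neg, sub_self, sub_neg_eq_add]
  ring

lemma lower (hc : ∑ i, c i = 1) (hd : ((s.prod s) {p : S1 × S1 | p.1 = -p.2}).toReal = dia s) :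
    2 * dia s * (2 * Real.pi * (1 + Berry.waveK (2 * a) + 2 * ∑ i, ∑ j, c i * c j * Berry.waveK (2 * (x i - x j)))) ≤
      ∫ p : S1 × S1, (∫ θ in (0 : ℝ)..(2 * Real.pi), G c x a θ p.1 p.2) ∂(s.prod s) := by
  have hpi := Real.pi_pos
  set κ := 2 * Real.pi * (1 + Berry.waveK (2 * a) + 2 * ∑ i, ∑ j, c i * c j * Berry.waveK (2 * (x i - x j))) with hκ
  have hm1 : MeasurableSet {p : S1 × S1 | p.1 = p.2} := (isClosed_eq continuous_fst continuous_snd).measurableSet
  have hm2 : MeasurableSet {p : S1 × S1 | p.1 = -p.2} := (isClosed_eq continuous_fst continuous_snd.neg).measurableSet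
  have hdis : Disjoint {p : S1 × S1 | p.1 = p.2} {p : S1 × S1 | p.1 = -p.2} := by
    rw [Set.disjoint_left]
    rintro ⟨p, q⟩ h1 h2
    simp only [Set.mem_ofPred_eq] at h1 h2
    have h3 : ((q : ℂ)) = -(q : ℂ) := by
      have h5 : q = -q := h1.symm.trans h2
      exact congrArg (Subtype.val) h5
    have h4 : (q : ℂ) = 0 := by
      have : (2 : ℂ) * (q : ℂ) = 0 := by linear_combination h3
      simpa using this
    exact ONE.S1_ne q h4
  have h1 : ∫ p in {p : S1 × S1 | p.1 = p.2} ∪ {p : S1 × S1 | p.1 = -p.2}, (∫ θ in (0 : ℝ)..(2 * Real.pi), G c x a θ p.1 p.2) ∂(s.prod s) ≤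
      ∫ p : S1 × S1, (∫ θ in (0 : ℝ)..(2 * Real.pi), G c x a θ p.1 p.2) ∂(s.prod s) := by
    refine setIntegral_le_integral (int_avg c x a s) (Eventually.of_forall fun p => ?_)
    exact intervalIntegral.integral_nonneg (by positivity) fun θ _ => G_nonneg c x a θ _ _
  refine le_trans (le_of_eq ?_) h1
  have h2 : ∫ p in {p : S1 × S1 | p.1 = p.2} ∪ {p : S1 × S1 | p.1 = -p.2}, (∫ θ in (0 : ℝ)..(2 * Real.pi), G c x a θ p.1 p.2) ∂(s.prod s) =
      ∫ p in {p : S1 × S1 | p.1 = p.2} ∪ {p : S1 × S1 | p.1 = -p.2}, κ ∂(s.prod s) := by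
    refine setIntegral_congr_fun (hm1.union hm2) ?_
    rintro ⟨p, q⟩ hp
    beta_reduce
    rcases hp with hp | hp
    · simp only [Set.mem_ofPred_eq] at hp
      subst hp
      exact diag_value c x a hc p
    · simp only [Set.mem_ofPred_eq] at hp
      refine anti_value c x a hc p _ ?_
      rw [hp]
      simp
  rw [h2, setIntegral_const, smul_eq_mul, measureReal_union hdis hm2]
  have e1 : (s.prod s).real {p : S1 × S1 | p.1 = p.2} = dia s := rfl
  have e2 : (s.prod s).real {p : S1 × S1 | p.1 = -p.2} = dia s := hd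
  rw [e1, e2]
  ring

end ATM

open ATM in
theorem t_ATM (h : StmtWie) : StmtAtm := by
  intro s hs hodd r c x a hc
  haveI := hs
  have hpi := Real.pi_pos
  have hd := (h s hs).2 hodd
  have hlow := lower c x a s hc hd
  -- the four-point functions
  have hneg : ∀ y : ℂ, dirK s (-y) = dirK s y := by
    intro y
    unfold NFP.dirK
    refine integral_congr_ae (Eventually.of_forall fun w => ?_)
    beta_reduce
    rw [neg_mul, Complex.neg_re, Real.cos_neg]
  have hcK : ∀ y : ℂ, Continuous fun θ : ℝ => dirK s (Complex.exp (θ * Complex.I) * y) := by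
    intro y
    exact (ONE.cont_dirK s).comp (by fun_prop)
  have hW : ∀ i j, dirWick s ![x i, x i + a, x j, x j + a] = 1 / (2 * Real.pi) * ∫ θ in (0 : ℝ)..(2 * Real.pi),
      (dirK s (Complex.exp (θ * Complex.I) * a) ^ 2 +
        (dirK s (Complex.exp (θ * Complex.I) * (x i - x j)) * dirK s (Complex.exp (θ * Complex.I) * (x i - x j)) +
        dirK s (Complex.exp (θ * Complex.I) * (x i - x j - a)) * dirK s (Complex.exp (θ * Complex.I) * (x i - x j + a)))) := by
    intro i j
    unfold dirWick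
    congr 1
    refine intervalIntegral.integral_congr fun θ _ => ?_
    simp only [Matrix.cons_val_zero, Matrix.cons_val_one, Matrix.cons_val]
    have e1 : Complex.exp (θ * Complex.I) * (x i - (x i + a)) = -(Complex.exp (θ * Complex.I) * a) := by ring
    have e2 : Complex.exp (θ * Complex.I) * (x j - (x j + a)) = -(Complex.exp (θ * Complex.I) * a) := by ring
    have e3 : x i + a - (x j + a) = x i - x j := by ring
    have e4 : x i - (x j + a) = x i - x j - a := by ring
    have e5 : x i + a - x j = x i - x j + a := by ring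
    rw [e1, e2, e3, e4, e5, hneg]
    ring
  have hsum : ∑ i, ∑ j, c i * c j * dirWick s ![x i, x i + a, x j, x j + a] = 1 / (2 * Real.pi) *
      ∫ θ in (0 : ℝ)..(2 * Real.pi), (dirK s (Complex.exp (θ * Complex.I) * a) ^ 2 +
        1 / 2 * ∫ p : S1 × S1, G c x a θ p.1 p.2 ∂(s.prod s)) := by
    simp only [hW]
    have hcont : ∀ i j, Continuous fun θ : ℝ => (dirK s (Complex.exp (θ * Complex.I) * a) ^ 2 +
        (dirK s (Complex.exp (θ * Complex.I) * (x i - x j)) * dirK s (Complex.exp (θ * Complex.I) * (x i - x j)) +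
        dirK s (Complex.exp (θ * Complex.I) * (x i - x j - a)) * dirK s (Complex.exp (θ * Complex.I) * (x i - x j + a)))) :=
      fun i j => ((hcK a).pow 2).add (((hcK _).mul (hcK _)).add ((hcK _).mul (hcK _)))
    have h1 : ∀ θ : ℝ, dirK s (Complex.exp (θ * Complex.I) * a) ^ 2 + 1 / 2 * ∫ p : S1 × S1, G c x a θ p.1 p.2 ∂(s.prod s) =
        ∑ i, ∑ j, c i * c j * (dirK s (Complex.exp (θ * Complex.I) * a) ^ 2 +
        (dirK s (Complex.exp (θ * Complex.I) * (x i - x j)) * dirK s (Complex.exp (θ * Complex.I) * (x i - x j)) +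
        dirK s (Complex.exp (θ * Complex.I) * (x i - x j - a)) * dirK s (Complex.exp (θ * Complex.I) * (x i - x j + a)))) := by
      intro θ
      rw [← form]
      simp only [mul_add, Finset.sum_add_distrib]
      congr 1
      have : ∑ i, ∑ j, c i * c j * dirK s (Complex.exp (θ * Complex.I) * a) ^ 2 =
          (∑ i, c i) * (∑ j, c j) * dirK s (Complex.exp (θ * Complex.I) * a) ^ 2 := by
        rw [Finset.sum_mul_sum, Finset.sum_mul]
        exact Finset.sum_congr rfl fun i _ => (Finset.sum_mul _ _ _).symm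
      rw [this, hc]
      ring
    simp only [h1]
    have i6 : ∀ i j, IntervalIntegrable (fun θ : ℝ => c i * c j * (dirK s (Complex.exp (θ * Complex.I) * a) ^ 2 +
        (dirK s (Complex.exp (θ * Complex.I) * (x i - x j)) * dirK s (Complex.exp (θ * Complex.I) * (x i - x j)) +
        dirK s (Complex.exp (θ * Complex.I) * (x i - x j - a)) * dirK s (Complex.exp (θ * Complex.I) * (x i - x j + a)))))
        volume 0 (2 * Real.pi) := fun i j => (continuous_const.mul (hcont i j)).intervalIntegrable _ _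
    have i5 : ∀ i, IntervalIntegrable (fun θ : ℝ => ∑ j, c i * c j * (dirK s (Complex.exp (θ * Complex.I) * a) ^ 2 +
        (dirK s (Complex.exp (θ * Complex.I) * (x i - x j)) * dirK s (Complex.exp (θ * Complex.I) * (x i - x j)) +
        dirK s (Complex.exp (θ * Complex.I) * (x i - x j - a)) * dirK s (Complex.exp (θ * Complex.I) * (x i - x j + a)))))
        volume 0 (2 * Real.pi) :=
      fun i => (continuous_finsetSum _ fun j _ => continuous_const.mul (hcont i j)).intervalIntegrable _ _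
    rw [intervalIntegral.integral_finsetSum fun i _ => i5 i, Finset.mul_sum]
    refine Finset.sum_congr rfl fun i _ => ?_
    rw [intervalIntegral.integral_finsetSum fun j _ => i6 i j, Finset.mul_sum]
    refine Finset.sum_congr rfl fun j _ => ?_
    rw [intervalIntegral.integral_const_mul]
    ring
  have hcG : Continuous fun θ : ℝ => 1 / 2 * ∫ p : S1 × S1, G c x a θ p.1 p.2 ∂(s.prod s) := by
    have : (fun θ : ℝ => 1 / 2 * ∫ p : S1 × S1, G c x a θ p.1 p.2 ∂(s.prod s)) = fun θ : ℝ =>
        ∑ i, ∑ j, c i * c j * (dirK s (Complex.exp (θ * Complex.I) * (x i - x j)) * dirK s (Complex.exp (θ * Complex.I) * (x i - x j)) +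
        dirK s (Complex.exp (θ * Complex.I) * (x i - x j - a)) * dirK s (Complex.exp (θ * Complex.I) * (x i - x j + a))) := by
      funext θ
      exact (form c x a s θ).symm
    rw [this]
    exact continuous_finsetSum _ fun i _ => continuous_finsetSum _ fun j _ => continuous_const.mul
      (((hcK _).mul (hcK _)).add ((hcK _).mul (hcK _)))
  have j1 : IntervalIntegrable (fun θ : ℝ => dirK s (Complex.exp (θ * Complex.I) * a) ^ 2) volume 0 (2 * Real.pi) :=
    ((hcK a).pow 2).intervalIntegrable _ _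
  rw [hsum, intervalIntegral.integral_add j1 (hcG.intervalIntegrable _ _),
    intervalIntegral.integral_const_mul, swap]
  -- the mean of the square
  have hsq : 1 / (2 * Real.pi) * ∫ θ in (0 : ℝ)..(2 * Real.pi), dirK s (Complex.exp (θ * Complex.I) * a) ^ 2 =
      Berry.waveK a ^ 2 * (s univ).toReal ^ 2 + ONE.vark s a := by
    have hg : Continuous (ONE.gk s a) := ONE.cont_gk s a
    have e0 : ∀ θ : ℝ, dirK s (Complex.exp (θ * Complex.I) * a) = ONE.gk s a θ := fun θ => rfl
    simp only [e0]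
    unfold ONE.vark
    have e1 : ∀ θ, (ONE.gk s a θ - (s univ).toReal * Berry.waveK a) ^ 2 = ONE.gk s a θ ^ 2 -
        2 * ((s univ).toReal * Berry.waveK a) * ONE.gk s a θ + ((s univ).toReal * Berry.waveK a) ^ 2 := fun θ => by ring
    simp only [e1]
    have k1 : IntervalIntegrable (fun θ : ℝ => ONE.gk s a θ ^ 2 -
        2 * ((s univ).toReal * Berry.waveK a) * ONE.gk s a θ) volume 0 (2 * Real.pi) :=
      ((hg.pow 2).sub (continuous_const.mul hg)).intervalIntegrable _ _
    have k2 : IntervalIntegrable (fun _ : ℝ => ((s univ).toReal * Berry.waveK a) ^ 2) volume 0 (2 * Real.pi) :=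
      continuous_const.intervalIntegrable _ _
    have k3 : IntervalIntegrable (fun θ : ℝ => ONE.gk s a θ ^ 2) volume 0 (2 * Real.pi) := (hg.pow 2).intervalIntegrable _ _
    have k4 : IntervalIntegrable (fun θ : ℝ => 2 * ((s univ).toReal * Berry.waveK a) * ONE.gk s a θ) volume 0 (2 * Real.pi) :=
      (continuous_const.mul hg).intervalIntegrable _ _
    rw [intervalIntegral.integral_add k1 k2, intervalIntegral.integral_sub k3 k4, intervalIntegral.integral_const_mul, ONE.mean_gk,
      intervalIntegral.integral_const, smul_eq_mul, sub_zero]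
    field_simp
    ring
  have hfin : dia s * (1 + Berry.waveK (2 * a) + 2 * ∑ i, ∑ j, c i * c j * Berry.waveK (2 * (x i - x j))) ≤
      1 / (2 * Real.pi) * (1 / 2 * ∫ p : S1 × S1, (∫ θ in (0 : ℝ)..(2 * Real.pi), G c x a θ p.1 p.2) ∂(s.prod s)) := by
    have h5 := mul_le_mul_of_nonneg_left hlow (by positivity : 0 ≤ 1 / (2 * Real.pi) * (1 / 2))
    refine le_trans (le_of_eq ?_) (le_trans h5 (le_of_eq ?_))
    · field_simp
    · ring
  rw [mul_add (1 / (2 * Real.pi)), hsq]
  linarith

end

end BSL
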