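import Pool.Agent.BSL.St2

/-!
# The four- and three-point functions of the limit field (module FFL)
-/

set_option autoImplicit false

open Complex MeasureTheory Filter Topology Set
open UpperHalfPlane hiding I
open scoped ContDiff MatrixGroups ProbabilityTheory ENNReal

namespace BSL

open QE QE.NC QJ U3 NFP

noncomputable section

namespace FFL

lemma tru_agree {ρ : ℍ → ℝ} {φ : ℕ → ℍ → ℝ} {m R : ℕ → ℝ} {V : Set ℂ} {σ : ℂ → ℝ}
    {φ' : ℕ → ℂ → ℂ} (hT : Tru UH (ph φ) R) (hA : Agree V UH (gr ρ) (hh m) (ph φ) σ φ') :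
    Tru V φ' R := by
  refine ⟨hT.one, hT.lim, fun K hK hKV c hc => ?_, fun K hK hKV ε hε => ?_⟩
  · refine (hT.cut K hK (hKV.trans hA.sub) c hc).congr fun n => ?_
    congr 1
    refine setIntegral_congr_fun hK.measurableSet fun z hz => ?_
    beta_reduce
    rw [hA.eφ n z (hKV hz)]
  · obtain ⟨k, hk, h1⟩ := hT.uni K hK (hKV.trans hA.sub) ε hε
    refine ⟨k, hk, ?_⟩
    filter_upwards [h1] with n hn
    refine le_trans (le_of_eq ?_) hn
    refine setIntegral_congr_fun hK.measurableSet fun z hz => ?_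
    beta_reduce
    rw [hA.eφ n z (hKV hz)]

lemma angProd_zero (ρ : ℍ → ℝ) (f : ℍ → ℝ) (c : ℝ) (z : ℍ) :
    angProd ρ f c (fun _ : Fin 4 => (0 : ℂ)) z = f z ^ 4 := by
  unfold angProd
  have e : ∀ t : ℝ, ∏ _i : Fin 4, Berry.rWave ρ f c 0 (z, t) = f z ^ 4 := by
    intro t
    rw [NC.rWave_origin]
    simp
  simp only [e]
  simp

lemma um_zero (s : ProbabilityTheory.Kernel ℍ S1) (z : ℂ) : um s 0 z = ((ma s z : ℝ) : ℂ) := by
  unfold um ma cof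
  rw [zpow_zero, one_mul]
  simp only [neg_zero, zpow_zero]
  rw [integral_const, Complex.real_smul, mul_one]
  rfl

end FFL

open FFL in
/-- **FFL**: the four- and three-point functions of the limit field. -/
theorem t_FFL (h1 : StmtWts) (h2 : StmtCut) (h3 : StmtTrg) (h4 : StmtStr) (h5 : StmtJlg)
    (h6 : StmtMsd) (h7 : StmtDom) (h8 : StmtUif) (h9 : StmtF4w) (h10 : StmtF3w) (h11 : StmtWtR)
    (h12 : StmtPosW) : StmtFfl := by
  intro Γ _ D ρ φ m hS Ω _ P _ F hFm hF hF2 hF4 μ hμ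
  obtain ⟨R, hT, -⟩ := h3 Γ D ρ φ m hS Ω P F hFm hF hF2 hF4
  obtain ⟨s, hSem, hμs⟩ := h4 ρ φ m μ R hS.fac.smooth hS.loc hT hμ
  obtain ⟨ζ, hζ⟩ := h2 Γ D ρ hS.mD hS.fd hS.fac
  set K : Set ℂ := tsupport (fun z => (ζ z : ℂ)) with hKdef
  have hK : IsCompact K := hζ.test.supp
  obtain ⟨V, F', σ, φ', hKV, -, -, -, hA⟩ := stmtLcz UH (gr ρ) (hh m) (ph φ) isOpen_UH
    (U3.WGA.contDiffOn_gr hS.fac.smooth) (fun z hz => U3.WGA.gr_pos hz) hS.loc K hK hζ.test.sub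
  obtain ⟨hJ, hodd⟩ := h5 ρ φ m s hS.fac.smooth hS.loc hSem
  have hJV := hJ V σ φ' hA
  obtain ⟨m1, m2, m3, m4⟩ := h6 Γ D ρ φ m s hS hSem ζ hζ
  have hTV : Tru V φ' R := tru_agree hT hA
  have hζV : Test V (fun z => (ζ z : ℂ)) := ⟨hζ.test.smooth, hζ.test.supp, hKV⟩
  have hζ0 : ∀ z, z ∉ V → ζ z = 0 := by
    intro z hz
    have h1 : ((ζ z : ℝ) : ℂ) = 0 := by
      by_contra hne
      exact hz (hKV (subset_tsupport (fun z => (ζ z : ℂ)) hne))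
    exact_mod_cast h1
  set κ : ℝ := ∫ o, F 0 o ^ 4 ∂P with hκ
  -- the weighted fourth moments
  have four : ∀ (L : ℝ) (θ : ℕ → ℂ → ℝ), (∃ L₀ : ℝ, L₀ ≤ L ∧ 1 ≤ L₀ ∧ ∀ L, L₀ ≤ L →
      ∃ C : ℝ, ∀ᶠ n in atTop, ∀ z ∈ K, ∀ (t : ℝ) (_i : Fin 4),
        Berry.rWave ρ (φ n) (m n) 0 (ofComplex z, t) ^ 2 ≤ C * Mn L (hh m) φ' n z) →
      Wt V σ (hh m) φ' L θ →
      Tendsto (fun n => ∫ z, ζ z * (θ n z ^ 2 * φ n (ofComplex z) ^ 4)) atTop (𝓝 κ) := by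
    intro L θ hd W
    obtain ⟨L₀, hL₀, hL1, hd⟩ := hd
    have hL : 0 < L := lt_of_lt_of_le one_pos (hL1.trans hL₀)
    have u := (h8 Γ D ρ φ m hS Ω P F hFm hF ζ hζ V σ φ' hA hKV 2 (Or.inr rfl)
      (fun _ : Fin 4 => (0 : ℂ)) L θ hL W (hd L hL₀)).2
    have e1 : ∫ o, ∏ _i : Fin (2 + 2), F 0 o ∂P = κ := by
      rw [hκ]
      refine integral_congr_ae (Eventually.of_forall fun o => ?_)
      simp
    rw [e1] at u
    refine u.congr fun n => ?_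
    refine integral_congr_ae (Eventually.of_forall fun z => ?_)
    beta_reduce
    rw [← angProd_zero ρ (φ n) (m n) (ofComplex z)]
  refine ⟨s, hSem, hμs, m1, m2, fun x => (m4 x).1, fun x => ?_, fun hN => ⟨?_, fun x => ?_⟩⟩
  · -- four points
    obtain ⟨L₁, hL₁, hf⟩ := h9 Γ D ρ φ m s hS hSem.fin V σ φ' hA hJV hodd ζ hζV x
    obtain ⟨L₂, hL₂, hd⟩ := h7 Γ D ρ φ m hS V σ φ' hA K hK hKV 4 x
    obtain ⟨L₃, hL₃, hd0⟩ := h7 Γ D ρ φ m hS V σ φ' hA K hK hKV 4 (fun _ => 0)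
    set L := max L₁ (max L₂ L₃) with hLdef
    have l1 : L₁ ≤ L := le_max_left _ _
    have l2 : L₂ ≤ L := (le_max_left _ _).trans (le_max_right _ _)
    have l3 : L₃ ≤ L := (le_max_right _ _).trans (le_max_right _ _)
    obtain ⟨θ, C, W, -⟩ := h1 V σ (hh m) φ' R hA.loc hTV L (hL₁.trans l1)
    have u1 : Integrable (fun o => ∏ i : Fin 4, F (x i) o) P ∧
        Tendsto (fun n => ∫ z, ζ z * (θ n z ^ 2 * angProd ρ (φ n) (m n) x (ofComplex z))) atTop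
          (𝓝 (∫ o, ∏ i : Fin 4, F (x i) o ∂P)) :=
      h8 Γ D ρ φ m hS Ω P F hFm hF ζ hζ V σ φ' hA hKV 2 (Or.inr rfl) x L θ
        (lt_of_lt_of_le one_pos (hL₁.trans l1)) W (hd L l2)
    have u0 := four L θ ⟨L₃, l3, hL₃, hd0⟩ W
    have u2 := hf L l1 θ W
    have u3 := u1.2.sub (((u0.sub_const (3 * ∫ z, ζ z * ma s z ^ 2)).div_const 3).mul_const (resK x)
      |>.const_add (∫ z, ζ z * dirWick (s (ofComplex z)) x))
    have u4 := tendsto_nhds_unique u2 u3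
    refine ⟨u1.1, ?_⟩
    unfold fourF
    rw [← (m4 x).2, ← m3]
    linarith
  · -- the lower bound
    obtain ⟨L₃, hL₃, hd0⟩ := h7 Γ D ρ φ m hS V σ φ' hA K hK hKV 4 (fun _ => 0)
    obtain ⟨θ, C, W, -⟩ := h1 V σ (hh m) φ' R hA.loc hTV L₃ hL₃
    have u0 := four L₃ θ ⟨L₃, le_rfl, hL₃, hd0⟩ W
    have hNV : NoAt V (um s) := fun η hη h0 => hN η ⟨hη.smooth, hη.supp, hη.sub.trans hA.sub⟩ h0
    refine le_of_forall_pos_le_add fun ε hε => ?_
    have u1 := h12 V σ (hh m) φ' θ (um s)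
      (h11 V σ (hh m) φ' L₃ θ (lt_of_lt_of_le one_pos hL₃) W) hJV hNV ζ hζV hζ.nonneg ε hε
    have e1 : ∫ z, ζ z * ‖um s 0 z‖ ^ 2 = Berry.rAvg ρ D (fun z => ((s z) univ).toReal ^ 2) := by
      rw [← m3]
      refine integral_congr_ae (Eventually.of_forall fun z => ?_)
      beta_reduce
      rw [um_zero, Complex.norm_real, Real.norm_eq_abs, sq_abs]
    rw [e1] at u1
    have e2 : ∀ n, ∫ z, ζ z * (θ n z ^ 2 * (φ' n z).re ^ 4)
        = ∫ z, ζ z * (θ n z ^ 2 * φ n (ofComplex z) ^ 4) := by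
      intro n
      refine integral_congr_ae (Eventually.of_forall fun z => ?_)
      beta_reduce
      by_cases hz : z ∈ V
      · rw [hA.eφ n z hz]
        rfl
      · rw [hζ0 z hz, zero_mul, zero_mul]
    simp only [e2] at u1
    have := ge_of_tendsto u0 u1
    linarith
  · -- three points
    have hNV : NoAt V (um s) := fun η hη h0 => hN η ⟨hη.smooth, hη.supp, hη.sub.trans hA.sub⟩ h0
    obtain ⟨L₁, hL₁, hf⟩ := h10 Γ D ρ φ m s hS hSem.fin V σ φ' hA hJV hNV ζ hζV x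
    obtain ⟨L₂, hL₂, hd⟩ := h7 Γ D ρ φ m hS V σ φ' hA K hK hKV 3 x
    set L := max L₁ L₂ with hLdef
    have l1 : L₁ ≤ L := le_max_left _ _
    have l2 : L₂ ≤ L := le_max_right _ _
    obtain ⟨θ, C, W, -⟩ := h1 V σ (hh m) φ' R hA.loc hTV L (hL₁.trans l1)
    have u1 : Integrable (fun o => ∏ i : Fin 3, F (x i) o) P ∧
        Tendsto (fun n => ∫ z, ζ z * (θ n z ^ 1 * angProd ρ (φ n) (m n) x (ofComplex z))) atTop
          (𝓝 (∫ o, ∏ i : Fin 3, F (x i) o ∂P)) :=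
      h8 Γ D ρ φ m hS Ω P F hFm hF ζ hζ V σ φ' hA hKV 1 (Or.inl rfl) x L θ
        (lt_of_lt_of_le one_pos (hL₁.trans l1)) W (hd L l2)
    simp only [pow_one] at u1
    exact ⟨u1.1, tendsto_nhds_unique u1.2 (hf L l1 θ W)⟩

end

end BSL
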