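import Pool.Agent.BSL.St3

/-!
# Statements, part 4: the cases of equality, and the final theorem in negative curvature

`s`: the directional measures; `κ = E F(0)⁴`. See `St2.lean` for the definitions.
-/

open Complex MeasureTheory Filter Topology Set
open UpperHalfPlane hiding I
open scoped ContDiff MatrixGroups ProbabilityTheory ENNReal

namespace BSL

open QE QE.NC QJ U3 NFP

noncomputable section

/-- the directional measures are the uniform probability measure up to odd moments (almost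
everywhere) -/
def Unif (D : Set ℍ) (s : ProbabilityTheory.Kernel ℍ S1) : Prop :=
  ∀ᵐ z ∂((volume : Measure ℍ).restrict D), (s z) univ = 1 ∧
    ∀ k : ℤ, Even k → k ≠ 0 → cof (s z) k = 0

/-- the hypotheses on the directional measures and `κ = E F(0)⁴` -/
structure Dir (Γ : Subgroup SL(2, ℝ)) (D : Set ℍ) (ρ : ℍ → ℝ)
    (s : ProbabilityTheory.Kernel ℍ S1) (κ : ℝ) : Prop where
  mD : MeasurableSet D
  fd : IsFundamentalDomain Γ D (volume : Measure ℍ)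
  fac : Fac Γ ρ
  fin : ∀ z, IsFiniteMeasure (s z)
  fam : LimFamR Γ ρ (fun k z => cof (s (ofComplex z)) k)
  sq : IntegrableOn (fun z => ((s z) univ).toReal ^ 2) D (volume : Measure ℍ)
  one : Berry.rAvg ρ D (fun z => ((s z) univ).toReal) = 1
  dw : ∀ x : Fin 4 → ℂ, IntegrableOn (fun z => dirWick (s z) x) D (volume : Measure ℍ)
  kap : 3 * Berry.rAvg ρ D (fun z => ((s z) univ).toReal ^ 2) ≤ κ

/-- PSQ (helper78: `ONE.even_zero`, `BSL.t_FUB`): equality for one pair of squares. The condition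
`vark (s z) a = 0` is invariant almost everywhere (`LimFamR.equiv`), so it holds almost everywhere
on the half plane if it holds almost everywhere on `D`. -/
def StmtPsq : Prop :=
  ∀ (Γ : Subgroup SL(2, ℝ)) [Countable Γ] (D : Set ℍ) (ρ : ℍ → ℝ)
    (s : ProbabilityTheory.Kernel ℍ S1) (κ : ℝ), Dir Γ D ρ s κ → (∀ z, 0 < lapR ρ z) →
    ∀ a : ℂ, a ≠ 0 → fourF ρ D s κ ![0, 0, a, a] = 1 + 2 * Berry.waveK a ^ 2 → Unif D s

/-- TST (helper78): equality for one linear statistic with at least two points. -/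
def StmtTst : Prop :=
  ∀ (Γ : Subgroup SL(2, ℝ)) [Countable Γ] (D : Set ℍ) (ρ : ℍ → ℝ)
    (s : ProbabilityTheory.Kernel ℍ S1) (κ : ℝ), Dir Γ D ρ s κ →
    ∀ (r : ℕ) (c : Fin r → ℝ) (x : Fin r → ℂ), Function.Injective x →
      (∃ i j, i ≠ j ∧ c i ≠ 0 ∧ c j ≠ 0) →
      ∑ i, ∑ j, ∑ k, ∑ l, c i * c j * c k * c l * fourF ρ D s κ ![x i, x j, x k, x l]
        = 3 * (∑ i, ∑ j, c i * c j * Berry.waveK (x i - x j)) ^ 2 → κ = 3 ∧ Unif D s

/-- ORD (helper55): orders one and two. No sign of the curvature. -/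
def StmtOrd : Prop :=
  ∀ (Γ : Subgroup SL(2, ℝ)) [Countable Γ] (D : Set ℍ) (ρ : ℍ → ℝ) (φ : ℕ → ℍ → ℝ) (m : ℕ → ℝ),
    Sur Γ D ρ φ m → ∀ (Ω : Type) [MeasurableSpace Ω] (P : Measure Ω) [IsProbabilityMeasure P]
    (F : ℂ → Ω → ℝ), (∀ x, Measurable (F x)) → FLim ρ D φ m P F → ∫ o, F 0 o ^ 2 ∂P = 1 →
    Integrable (fun o => F 0 o ^ 4) P →
    (∀ x : ℂ, Integrable (F x) P ∧ ∫ o, F x o ∂P = 0) ∧
    ∀ x y : ℂ, Integrable (fun o => F x o * F y o) P ∧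
      ∫ o, F x o * F y o ∂P = Berry.waveK (x - y)

/-- FLM: **Theorem B**, negative curvature. `F` is the limit in law (finite-dimensional
distributions) of the local waves of the eigenfunctions, without loss of mass. -/
def StmtFlm : Prop :=
  ∀ (Γ : Subgroup SL(2, ℝ)) [Countable Γ] (ρ : ℍ → ℝ),
    ContDiffOn ℝ ∞ (fun w : ℂ => ρ (ofComplex w)) {w | 0 < w.im} →
    (∀ γ ∈ Γ, ∀ z, ρ (γ • z) = ρ z) →
    (∀ z : ℍ, 0 < 1 + z.im ^ 2 * Laplacian.laplacian (fun w : ℂ => ρ (ofComplex w)) z) →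
    ∀ D : Set ℍ, MeasurableSet D → IsFundamentalDomain Γ D (volume : Measure ℍ) →
    (∃ K : Set ℍ, IsCompact K ∧ ∀ z, ∃ γ ∈ Γ, γ • z ∈ K) →
    ∀ (φ : ℕ → ℍ → ℝ) (m : ℕ → ℝ), Berry.REigenSeq Γ ρ φ m →
    (∀ n, ContDiffOn ℝ ∞ (fun w : ℂ => φ n (ofComplex w)) {w | 0 < w.im}) →
    (∀ n, Berry.rAvg ρ D (fun z => φ n z ^ 2) = 1) →
    ∀ (Ω : Type) [MeasurableSpace Ω] (P : Measure Ω) [IsProbabilityMeasure P] (F : ℂ → Ω → ℝ),
    (∀ x, Measurable (F x)) → FLim ρ D φ m P F → ∫ o, F 0 o ^ 2 ∂P = 1 →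
    3 ≤ ∫⁻ o, ENNReal.ofReal (F 0 o ^ 4) ∂P ∧
    (Integrable (fun o => F 0 o ^ 4) P →
      (∀ x : ℂ, Integrable (F x) P ∧ ∫ o, F x o ∂P = 0) ∧
      (∀ x y : ℂ, Integrable (fun o => F x o * F y o) P ∧
        ∫ o, F x o * F y o ∂P = Berry.waveK (x - y)) ∧
      (∀ x y z : ℂ, Integrable (fun o => F x o * F y o * F z o) P ∧
        ∫ o, F x o * F y o * F z o ∂P = 0) ∧
      (∀ (r : ℕ) (c : Fin r → ℝ) (x : Fin r → ℂ),
        Integrable (fun o => (∑ i, c i * F (x i) o) ^ 4) P ∧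
        3 * (∑ i, ∑ j, c i * c j * Berry.waveK (x i - x j)) ^ 2
          ≤ ∫ o, (∑ i, c i * F (x i) o) ^ 4 ∂P) ∧
      (∀ x y : ℂ, Integrable (fun o => F x o ^ 2 * F y o ^ 2) P ∧
        1 + 2 * Berry.waveK (x - y) ^ 2 ≤ ∫ o, F x o ^ 2 * F y o ^ 2 ∂P) ∧
      (∀ w : ℍ → ℝ, Continuous w → (∀ γ ∈ Γ, ∀ z, w (γ • z) = w z) → ∀ ε > 0, ∀ᶠ n in atTop,
        (Berry.rAvg ρ D (fun z => w z * φ n z ^ 2) - Berry.rAvg ρ D w) ^ 2
          ≤ ((∫ o, F 0 o ^ 4 ∂P) - 3) / 3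
            * (Berry.rAvg ρ D (fun z => w z ^ 2) - Berry.rAvg ρ D w ^ 2) + ε) ∧
      ((∃ x y : ℂ, x ≠ y ∧ ∫ o, F x o ^ 2 * F y o ^ 2 ∂P = 1 + 2 * Berry.waveK (x - y) ^ 2) ∨
        (∃ (r : ℕ) (c : Fin r → ℝ) (x : Fin r → ℂ), Function.Injective x ∧
          (∃ i j, i ≠ j ∧ c i ≠ 0 ∧ c j ≠ 0) ∧ ∫ o, (∑ i, c i * F (x i) o) ^ 4 ∂P
            = 3 * (∑ i, ∑ j, c i * c j * Berry.waveK (x i - x j)) ^ 2) →
        QE.QuantumErgodic ρ φ m ∧
        ∀ x₁ x₂ x₃ x₄ : ℂ, ∫ o, F x₁ o * F x₂ o * F x₃ o * F x₄ o ∂P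
          = Berry.waveK (x₁ - x₂) * Berry.waveK (x₃ - x₄)
            + Berry.waveK (x₁ - x₃) * Berry.waveK (x₂ - x₄)
            + Berry.waveK (x₁ - x₄) * Berry.waveK (x₂ - x₃)))

end

end BSL
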