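import Pool.Agent.BSL.CORE
import Pool.Agent.BSL.St4
import Pool.Agent.BSL.FFL
import Pool.Agent.ONE.Avg

/-!
# Theorem B: the limit fields in negative curvature (module FLM)
-/

set_option autoImplicit false

open Complex MeasureTheory Filter Topology Set
open UpperHalfPlane hiding I
open scoped ContDiff MatrixGroups ProbabilityTheory ENNReal

namespace BSL

open QE QE.NC QJ U3 NFP

noncomputable section

namespace FLM

lemma fourF_shift {ρ : ℍ → ℝ} {D : Set ℍ} {s : ProbabilityTheory.Kernel ℍ S1} {κ : ℝ}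
    (x : Fin 4 → ℂ) (a : ℂ) : fourF ρ D s κ (fun i => x i - a) = fourF ρ D s κ x := by
  have e : ∀ i j, x i - a - (x j - a) = x i - x j := fun i j => by ring
  have e1 : x 0 - a + (x 1 - a) - (x 2 - a) - (x 3 - a) = x 0 + x 1 - x 2 - x 3 := by ring
  have e2 : x 0 - a + (x 2 - a) - (x 1 - a) - (x 3 - a) = x 0 + x 2 - x 1 - x 3 := by ring
  have e3 : x 0 - a + (x 3 - a) - (x 1 - a) - (x 2 - a) = x 0 + x 3 - x 1 - x 2 := by ring
  unfold fourF dirWick resK
  simp only [e]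
  rw [e1, e2, e3]

lemma expand {r : ℕ} (c f : Fin r → ℝ) : (∑ i, c i * f i) ^ 4
    = ∑ i, ∑ j, ∑ k, ∑ l, c i * c j * c k * c l * (f i * f j * f k * f l) := by
  calc (∑ i, c i * f i) ^ 4 = (∑ i, c i * f i) * ((∑ j, c j * f j) * ((∑ k, c k * f k)
      * (∑ l, c l * f l))) := by ring
    _ = ∑ i, (c i * f i) * (∑ j, (c j * f j) * (∑ k, (c k * f k) * (∑ l, c l * f l))) := by
      simp only [Finset.sum_mul]
    _ = _ := by
      refine Finset.sum_congr rfl fun i _ => ?_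
      rw [Finset.mul_sum]
      refine Finset.sum_congr rfl fun j _ => ?_
      rw [Finset.mul_sum, Finset.mul_sum]
      refine Finset.sum_congr rfl fun k _ => ?_
      rw [Finset.mul_sum, Finset.mul_sum, Finset.mul_sum]
      refine Finset.sum_congr rfl fun l _ => by ring

/-- from the fundamental domain to the half plane -/
lemma ae_of_D {Γ : Subgroup SL(2, ℝ)} [Countable Γ] {D : Set ℍ} (hDm : MeasurableSet D)
    (hD : IsFundamentalDomain Γ D (volume : Measure ℍ)) {f : ℍ → ℝ} {c : ℝ}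
    (hinv : ∀ γ ∈ Γ, ∀ᵐ z : ℍ, f (γ • z) = f z)
    (h : ∀ᵐ z ∂((volume : Measure ℍ).restrict D), f z = c) : ∀ᵐ z : ℍ, f z = c := by
  rw [ae_restrict_iff' hDm] at h
  have h1 : ∀ γ : Γ, ∀ᵐ z : ℍ, γ • z ∈ D → f (γ • z) = c := fun γ =>
    (measurePreserving_smul γ (volume : Measure ℍ)).quasiMeasurePreserving.ae h
  have h2 : ∀ γ : Γ, ∀ᵐ z : ℍ, f (γ • z) = f z := fun γ => hinv γ γ.2
  filter_upwards [hD.ae_covers, ae_all_iff.2 h1, ae_all_iff.2 h2] with z ⟨γ, hγ⟩ z1 z2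
  rw [← z2 γ]
  exact z1 γ hγ

/-- the squares of the eigenfunctions against test functions -/
lemma test_lim (h : StmtJlg) {ρ : ℍ → ℝ} {φ : ℕ → ℍ → ℝ} {m : ℕ → ℝ}
    {s : ProbabilityTheory.Kernel ℍ S1} (hρ : ContDiffOn ℝ ∞ (ro ρ) UH)
    (hL : LocU UH (gr ρ) (hh m) (ph φ)) (hS : Sem ρ φ m s) {ψ : ℂ → ℝ} (h1 : ContDiff ℝ ∞ ψ)
    (h2 : HasCompactSupport ψ) (h3 : tsupport ψ ⊆ UH) :
    Tendsto (fun n => ∫ z, ψ z * φ n (ofComplex z) ^ 2) atTop (𝓝 (∫ z, ψ z * ma s z)) := by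
  have hs : tsupport (fun z : ℂ => (ψ z : ℂ)) = tsupport ψ := by
    unfold tsupport
    congr 1
    ext z
    simp
  obtain ⟨V, F', σ, φ', hKV, -, -, -, hA⟩ := stmtLcz UH (gr ρ) (hh m) (ph φ) isOpen_UH
    (U3.WGA.contDiffOn_gr hρ) (fun z hz => U3.WGA.gr_pos hz) hL (tsupport ψ) h2 h3
  have hT : Test V (fun z => (ψ z : ℂ)) := ⟨Complex.ofRealCLM.contDiff.comp h1,
    by unfold HasCompactSupport; rw [hs]; exact h2, by rw [hs]; exact hKV⟩
  have hl := ((h ρ φ m s hρ hL hS).1 V σ φ' hA).lim 0 0 _ hT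
  have hψ0 : ∀ z, z ∉ V → ψ z = 0 := fun z hz =>
    image_eq_zero_of_notMem_tsupport fun hh => hz (hKV hh)
  have hr := (Complex.continuous_re.tendsto _).comp hl
  have e1 : ∫ z, (ψ z : ℂ) * ((-1) ^ (0 : ℤ) * um s (0 + 0) z)
      = ((∫ z, ψ z * ma s z : ℝ) : ℂ) := by
    refine Eq.trans ?_ (integral_ofReal (𝕜 := ℂ) (μ := volume) (f := fun z : ℂ => ψ z * ma s z))
    refine integral_congr_ae (Eventually.of_forall fun z => ?_)
    show _ = ((ψ z * ma s z : ℝ) : ℂ)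
    beta_reduce
    rw [zpow_zero, one_mul, add_zero, FFL.um_zero]
    push_cast
    rfl
  rw [e1, Complex.ofReal_re] at hr
  refine hr.congr fun n => ?_
  have e2 : ∫ z, (ψ z : ℂ) * (E σ (hh m) φ' 0 n z * E σ (hh m) φ' 0 n z)
      = ((∫ z, ψ z * φ n (ofComplex z) ^ 2 : ℝ) : ℂ) := by
    refine Eq.trans ?_ (integral_ofReal (𝕜 := ℂ) (μ := volume)
      (f := fun z : ℂ => ψ z * φ n (ofComplex z) ^ 2))
    refine integral_congr_ae (Eventually.of_forall fun z => ?_)
    show _ = ((ψ z * φ n (ofComplex z) ^ 2 : ℝ) : ℂ)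
    beta_reduce
    by_cases hz : z ∈ V
    · have e3 : E σ (hh m) φ' 0 n z = (φ n (ofComplex z) : ℂ) := hA.eφ n z hz
      rw [e3]
      push_cast
      ring
    · rw [hψ0 z hz]
      simp
  show (∫ z, (ψ z : ℂ) * (E σ (hh m) φ' 0 n z * E σ (hh m) φ' 0 n z)).re = _
  rw [e2, Complex.ofReal_re]

/-- Cauchy-Schwarz for the deviation from the mean -/
lemma dev {X : Type*} [MeasurableSpace X] {μ : Measure X} [IsProbabilityMeasure μ] {p w : X → ℝ}
    (hp : Integrable p μ) (hp2 : Integrable (fun z => p z ^ 2) μ) (h1 : ∫ z, p z ∂μ = 1)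
    (hw : AEStronglyMeasurable w μ) {B : ℝ} (hB : ∀ z, |w z| ≤ B) :
    (∫ z, w z * p z ∂μ - ∫ z, w z ∂μ) ^ 2
      ≤ (∫ z, p z ^ 2 ∂μ - 1) * (∫ z, w z ^ 2 ∂μ - (∫ z, w z ∂μ) ^ 2) ∧
    0 ≤ ∫ z, w z ^ 2 ∂μ - (∫ z, w z ∂μ) ^ 2 := by
  have iw : Integrable w μ := Integrable.of_bound hw B (Eventually.of_forall fun z => hB z)
  have iw2 : Integrable (fun z => w z ^ 2) μ :=
    Integrable.of_bound (hw.pow 2) (B ^ 2) (Eventually.of_forall fun z => by
      rw [Real.norm_eq_abs, abs_pow]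
      exact pow_le_pow_left₀ (abs_nonneg _) (hB z) 2)
  have iwp : Integrable (fun z => w z * p z) μ := hp.bdd_mul hw (Eventually.of_forall fun z => hB z)
  set a := ∫ z, w z ∂μ with ha
  set b := ∫ z, w z * p z ∂μ with hb
  set S := ∫ z, p z ^ 2 ∂μ with hS
  set W := ∫ z, w z ^ 2 ∂μ with hW
  have key : ∀ t u : ℝ, ∫ z, (u * (p z - 1) - t * (w z - a)) ^ 2 ∂μ
      = u ^ 2 * (S - 1) - 2 * t * u * (b - a) + t ^ 2 * (W - a ^ 2) := by
    intro t u
    have e : (fun z => (u * (p z - 1) - t * (w z - a)) ^ 2)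
        = fun z => u ^ 2 * p z ^ 2 + t ^ 2 * w z ^ 2 + (-2 * t * u) * (w z * p z)
          + (2 * t * u * a - 2 * u ^ 2) * p z + (2 * t * u - 2 * t ^ 2 * a) * w z
          + (u ^ 2 - 2 * t * u * a + t ^ 2 * a ^ 2) := by
      funext z
      ring
    have j1 : Integrable (fun z => u ^ 2 * p z ^ 2) μ := hp2.const_mul _
    have j2 : Integrable (fun z => t ^ 2 * w z ^ 2) μ := iw2.const_mul _
    have j3 : Integrable (fun z => (-2 * t * u) * (w z * p z)) μ := iwp.const_mul _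
    have j4 : Integrable (fun z => (2 * t * u * a - 2 * u ^ 2) * p z) μ := hp.const_mul _
    have j5 : Integrable (fun z => (2 * t * u - 2 * t ^ 2 * a) * w z) μ := iw.const_mul _
    have k2 : Integrable (fun z => u ^ 2 * p z ^ 2 + t ^ 2 * w z ^ 2) μ := j1.add j2
    have k3 : Integrable (fun z => u ^ 2 * p z ^ 2 + t ^ 2 * w z ^ 2
      + (-2 * t * u) * (w z * p z)) μ := k2.add j3
    have k4 : Integrable (fun z => u ^ 2 * p z ^ 2 + t ^ 2 * w z ^ 2
      + (-2 * t * u) * (w z * p z) + (2 * t * u * a - 2 * u ^ 2) * p z) μ := k3.add j4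
    have k5 : Integrable (fun z => u ^ 2 * p z ^ 2 + t ^ 2 * w z ^ 2
      + (-2 * t * u) * (w z * p z) + (2 * t * u * a - 2 * u ^ 2) * p z
      + (2 * t * u - 2 * t ^ 2 * a) * w z) μ := k4.add j5
    rw [e, integral_add k5 (integrable_const _), integral_add k4 j5, integral_add k3 j4,
      integral_add k2 j3, integral_add j1 j2, integral_const_mul, integral_const_mul,
      integral_const_mul, integral_const_mul, integral_const_mul, h1]
    simp only [integral_const, probReal_univ, smul_eq_mul, one_mul]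
    rw [← hS, ← hW, ← hb, ← ha]
    ring
  have pos : ∀ t u : ℝ, 0 ≤ u ^ 2 * (S - 1) - 2 * t * u * (b - a) + t ^ 2 * (W - a ^ 2) := by
    intro t u
    rw [← key]
    exact integral_nonneg fun z => sq_nonneg _
  refine ⟨?_, by have := pos 1 0; linarith⟩
  have h := discrim_le_zero (K := ℝ) (a := W - a ^ 2) (b := -2 * (b - a)) (c := S - 1)
    (fun x => by have := pos x 1; linarith)
  unfold discrim at h
  linarith

end FLM

open CORE FLM in
/-- **FLM**: Theorem B. -/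
theorem t_FLM (h1 : StmtFfl) (h2 : StmtLfr) (h3 : StmtNoa) (h4 : StmtFua) (h5 : StmtFub)
    (h6 : StmtPsq) (h7 : StmtTst) (h8 : StmtQeu) (h9 : StmtJlg)
    (h10 : StmtOrd) : StmtFlm := by
  intro Γ _ ρ hρ hρΓ hK0 D hDm hD hK φ m hφ hs hnorm Ω _ P _ F hFm hF hF2
  have hfac : Fac Γ ρ := ⟨hρ, hρΓ, hK⟩
  have hgeo : Berry.Geo Γ ρ D := geo_of hDm hD hK (continuous_of_smooth hρ) hρΓ
  -- the data
  have dat : Integrable (fun o => F 0 o ^ 4) P → ∀ k : ℕ → ℕ, Tendsto k atTop atTop →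
      ∃ (l : ℕ → ℕ) (s : ProbabilityTheory.Kernel ℍ S1), Tendsto l atTop atTop ∧
        Dat Γ D ρ (fun n => φ (k (l n))) (fun n => m (k (l n))) P F s ∧
        Dir Γ D ρ s (∫ o, F 0 o ^ 4 ∂P) ∧
        ∀ x : Fin 3 → ℂ, Integrable (fun o => ∏ i, F (x i) o) P ∧ ∫ o, ∏ i, F (x i) o ∂P = 0 := by
    intro hF4 k hk
    obtain ⟨l, s, hl, T⟩ := exists_dat h1 hρ hρΓ hDm hD hK hφ hs hnorm hFm hF hF2 hF4 hk
    obtain ⟨g1, g2⟩ := T.noat (h3 Γ D ρ _ _ s T.sur hK0 T.sem UH subset_rfl)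
    exact ⟨l, s, hl, T, ⟨hDm, hD, hfac, T.sem.fin, h2 Γ ρ _ _ s hfac T.sur.loc T.sem
      (fun n => T.sur.eig.invariant n), T.sq, T.one, T.dw, g1⟩, g2⟩
  have key3 : Integrable (fun o => F 0 o ^ 4) P → 3 ≤ ∫ o, F 0 o ^ 4 ∂P := by
    intro hF4
    obtain ⟨l, s, hl, T, d, -⟩ := dat hF4 (fun n => n) tendsto_id
    have a1 := (h5 Γ D ρ s _ hDm hD hfac d.fin d.sq d.one d.dw d.kap).1 0
    have a2 := (T.four ![0, 0, 0, 0]).2
    rw [← a2, Berry.waveK_zero] at a1
    have e : ∫ o, ∏ i, F ((![0, 0, 0, 0] : Fin 4 → ℂ) i) o ∂P = ∫ o, F 0 o ^ 4 ∂P := by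
      refine integral_congr_ae (Eventually.of_forall fun o => ?_)
      simp only [Fin.prod_univ_four, Matrix.cons_val_zero, Matrix.cons_val_one, Matrix.cons_val]
      ring
    rw [e] at a1
    linarith
  refine ⟨?_, fun hF4 => ?_⟩
  · have := le_lint (P := P) ((hFm 0).pow_const 4) (fun o => by positivity) (c := 3) key3
    simpa using this
  set κ := ∫ o, F 0 o ^ 4 ∂P with hκ
  obtain ⟨l₀, s₀, hl₀, T₀, d₀, g₀⟩ := dat hF4 (fun n => n) tendsto_id
  have hg₀ : Integrable (fun o => F 0 o ^ 4) P := hF4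
  -- products of four values
  have f4i : ∀ a b c d : ℂ, Integrable (fun o => F a o * F b o * F c o * F d o) P := by
    intro a b c d
    have := (T₀.four ![a, b, c, d]).1
    simpa [Fin.prod_univ_four] using this
  have f4 : ∀ {k : ℕ → ℕ} {s : ProbabilityTheory.Kernel ℍ S1},
      Dat Γ D ρ (fun n => φ (k n)) (fun n => m (k n)) P F s → ∀ a b c d : ℂ,
      ∫ o, F a o * F b o * F c o * F d o ∂P = fourF ρ D s κ ![a, b, c, d] := by
    intro k s T a b c d
    have := (T.four ![a, b, c, d]).2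
    simpa [Fin.prod_univ_four] using this
  -- linear statistics
  have lin_i : ∀ (r : ℕ) (c : Fin r → ℝ) (x : Fin r → ℂ),
      Integrable (fun o => (∑ i, c i * F (x i) o) ^ 4) P := by
    intro r c x
    have e : (fun o => (∑ i, c i * F (x i) o) ^ 4) = fun o => ∑ i, ∑ j, ∑ k, ∑ l,
        c i * c j * c k * c l * (F (x i) o * F (x j) o * F (x k) o * F (x l) o) := by
      funext o
      exact expand c fun i => F (x i) o
    rw [e]
    exact integrable_finsetSum _ fun i _ => integrable_finsetSum _ fun j _ =>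
      integrable_finsetSum _ fun k _ => integrable_finsetSum _ fun l _ =>
        (f4i _ _ _ _).const_mul _
  have lin : ∀ {k : ℕ → ℕ} {s : ProbabilityTheory.Kernel ℍ S1},
      Dat Γ D ρ (fun n => φ (k n)) (fun n => m (k n)) P F s →
      ∀ (r : ℕ) (c : Fin r → ℝ) (x : Fin r → ℂ), ∫ o, (∑ i, c i * F (x i) o) ^ 4 ∂P
        = ∑ i, ∑ j, ∑ k, ∑ l, c i * c j * c k * c l * fourF ρ D s κ ![x i, x j, x k, x l] := by
    intro k s T r c x
    have e : (fun o => (∑ i, c i * F (x i) o) ^ 4) = fun o => ∑ i, ∑ j, ∑ k, ∑ l,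
        c i * c j * c k * c l * (F (x i) o * F (x j) o * F (x k) o * F (x l) o) := by
      funext o
      exact expand c fun i => F (x i) o
    rw [e]
    rw [integral_finsetSum _ fun i _ => integrable_finsetSum _ fun j _ =>
      integrable_finsetSum _ fun k _ => integrable_finsetSum _ fun l _ =>
        (f4i _ _ _ _).const_mul _]
    refine Finset.sum_congr rfl fun i _ => ?_
    rw [integral_finsetSum _ fun j _ =>
      integrable_finsetSum _ fun k _ => integrable_finsetSum _ fun l _ =>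
        (f4i _ _ _ _).const_mul _]
    refine Finset.sum_congr rfl fun j _ => ?_
    rw [integral_finsetSum _ fun k _ => integrable_finsetSum _ fun l _ =>
        (f4i _ _ _ _).const_mul _]
    refine Finset.sum_congr rfl fun k _ => ?_
    rw [integral_finsetSum _ fun l _ => (f4i _ _ _ _).const_mul _]
    refine Finset.sum_congr rfl fun l _ => ?_
    rw [integral_const_mul, f4 T]
  -- pairs of squares
  have sq_eq : ∀ x y : ℂ, (fun o => F x o ^ 2 * F y o ^ 2)
      = fun o => F x o * F x o * F y o * F y o := fun x y => by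
    funext o
    ring
  have sq : ∀ {k : ℕ → ℕ} {s : ProbabilityTheory.Kernel ℍ S1},
      Dat Γ D ρ (fun n => φ (k n)) (fun n => m (k n)) P F s → ∀ x y : ℂ,
      ∫ o, F x o ^ 2 * F y o ^ 2 ∂P = fourF ρ D s κ ![0, 0, y - x, y - x] := by
    intro k s T x y
    rw [sq_eq, f4 T, ← fourF_shift _ x]
    congr 1
    funext i
    fin_cases i <;> simp
  obtain ⟨o1, o2⟩ := h10 Γ D ρ _ _ T₀.sur Ω P F hFm (FLA.fLim_comp hF hl₀) hF2 hF4
  refine ⟨o1, o2, fun x y z => ?_, fun r c x => ⟨lin_i r c x, ?_⟩, fun x y => ⟨?_, ?_⟩, ?_,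
    fun h => ?_⟩
  · have := g₀ ![x, y, z]
    simpa [Fin.prod_univ_three] using this
  · rw [lin (k := fun n => l₀ n) T₀]
    exact h4 Γ D ρ s₀ κ hDm hD hfac d₀.fin d₀.sq d₀.one d₀.dw d₀.kap r c x
  · rw [sq_eq]
    exact f4i _ _ _ _
  · rw [sq (k := fun n => l₀ n) T₀, ← Berry.waveK_neg, neg_sub]
    exact (h5 Γ D ρ s₀ κ hDm hD hfac d₀.fin d₀.sq d₀.one d₀.dw d₀.kap).1 (y - x)
  · -- equidistribution
    intro w hwc hwi ε hε
    have hP := ONE.prob_nu hgeo
    obtain ⟨B, hB⟩ := Berry.bdd_of_cocompact hwc hwi hK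
    by_contra hcon
    rw [not_eventually] at hcon
    obtain ⟨ns, hns, hbad⟩ := extraction_of_frequently_atTop hcon
    obtain ⟨l, s, hl, T, d, -⟩ := dat hF4 ns hns.tendsto_atTop
    have js2 := ONE.int_nu hgeo d.sq
    have js1 := ONE.int_mass js2
    obtain ⟨c1, c2⟩ := dev js1 js2 d.one (w := w) hwc.aestronglyMeasurable hB
    have hlim := (NFP.glob Γ ρ D (fun n z => φ (ns (l n)) z ^ 2) (fun z => ((s z) univ).toReal)
      inferInstance hgeo (continuous_of_smooth hρ) hK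
      (Eventually.of_forall fun n => (continuous_of_smooth (hs _)).pow 2)
      (fun n γ hγ z => by rw [hφ.invariant _ γ hγ z])
      (fun K hKc hKU => ?_) (fun K hKc hKU => ?_)
      (fun ψ a1 a2 a3 => test_lim h9 hρ T.sur.loc T.sem a1 a2 a3)).2 w hwc hwi
    · have h2 := (hlim.2.sub_const (Berry.rAvg ρ D w)).pow 2
      have h3 : (Berry.rAvg ρ D (fun z => w z * ((s z) univ).toReal) - Berry.rAvg ρ D w) ^ 2
          ≤ (κ - 3) / 3 * (Berry.rAvg ρ D (fun z => w z ^ 2) - Berry.rAvg ρ D w ^ 2) := by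
        refine le_trans c1 (mul_le_mul_of_nonneg_right ?_ c2)
        have := d.kap
        unfold Berry.rAvg at this
        linarith
      have h4 := h2.eventually_lt_const (lt_of_le_of_lt h3 (lt_add_of_pos_right _ hε))
      obtain ⟨n, hn⟩ := h4.exists
      exact hbad (l n) hn.le
    · obtain ⟨C, hC⟩ := T.sur.loc.bdd K hKc hKU
      refine ⟨C, ?_⟩
      filter_upwards [hC] with n hn
      refine le_trans (le_of_eq ?_) hn
      refine integral_congr_ae (Eventually.of_forall fun z => ?_)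
      show |φ (ns (l n)) (ofComplex z) ^ 2| = ‖(φ (ns (l n)) (ofComplex z) : ℂ)‖ ^ 2
      rw [Complex.norm_real, Real.norm_eq_abs, sq_abs, abs_of_nonneg (sq_nonneg _)]
    · have : IsFiniteMeasure ((volume : Measure ℂ).restrict K) := ⟨by
        rw [Measure.restrict_apply_univ]; exact hKc.measure_lt_top⟩
      exact ((T.sem.loc K hKc hKU).integrable one_le_two).re
  · -- equality
    have uni : ∀ {k : ℕ → ℕ} {s : ProbabilityTheory.Kernel ℍ S1},
        Dat Γ D ρ (fun n => φ (k n)) (fun n => m (k n)) P F s → Dir Γ D ρ s κ →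
        κ = 3 ∧ Unif D s := by
      intro k s T d
      rcases h with ⟨x, y, hxy, he⟩ | ⟨r, c, x, hx, hc, he⟩
      · rw [sq T, ← Berry.waveK_neg, neg_sub] at he
        have hne : y - x ≠ 0 := sub_ne_zero.2 (Ne.symm hxy)
        exact ⟨((h5 Γ D ρ s κ hDm hD hfac d.fin d.sq d.one d.dw d.kap).2 _ he).1,
          h6 Γ D ρ s κ d hK0 _ hne he⟩
      · rw [lin T] at he
        exact h7 Γ D ρ s κ d r c x hx hc he
    refine ⟨fun i j ζ a1 a2 a3 => tendsto_of_subseq_tendsto fun ns hns => ?_,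
      fun x₁ x₂ x₃ x₄ => ?_⟩
    · obtain ⟨l, s, hl, T, d, -⟩ := dat hF4 ns hns
      exact ⟨l, (T.uni h8 (uni (k := fun n => ns (l n)) T d).2).1 i j ζ a1 a2 a3⟩
    · obtain ⟨u1, u2⟩ := uni (k := fun n => l₀ n) T₀ d₀
      have := (T₀.uni h8 u2).2.2 ![x₁, x₂, x₃, x₄]
      rw [← hκ, u1] at this
      simpa [Fin.prod_univ_four] using this

end

end BSL
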