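import Pool.Agent.BSL.St2
import Pool.Agent.ONE.Avg

/-!
FUB: the pairs of squares, and the case of equality.
-/

open Complex MeasureTheory Filter Topology Set
open UpperHalfPlane hiding I
open scoped ContDiff MatrixGroups ProbabilityTheory

namespace BSL

open QE QE.NC QJ U3 NFP

noncomputable section

namespace FUB

lemma resK_ge (x y : ℂ) : 1 ≤ resK ![x, x, y, y] := by
  have h1 : resK ![x, x, y, y] = 2 + Berry.waveK (x + x - y - y) := by
    unfold resK
    simp only [Matrix.cons_val_zero, Matrix.cons_val_one, Matrix.cons_val]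
    have e1 : x + y - x - y = 0 := by ring
    rw [e1, Berry.waveK_zero]
    ring
  have h2 := (abs_le.1 (Berry.waveK_abs_le (x + x - y - y))).1
  rw [h1]
  linarith

end FUB

theorem t_FUB : StmtFub := by
  intro Γ _ D ρ s κ hDm hD hF hfin hp2 hone hdir hκ
  have hg : Berry.Geo Γ ρ D :=
    geo_of hDm hD hF.cpt (continuous_of_smooth hF.smooth) hF.inv
  have hP := ONE.prob_nu hg
  have js2 := ONE.int_nu hg hp2
  have js1 := ONE.int_mass js2
  have key : ∀ a : ℂ, (1 + 2 * Berry.waveK a ^ 2 ≤ fourF ρ D s κ ![0, 0, a, a]) ∧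
      (fourF ρ D s κ ![0, 0, a, a] = 1 + 2 * Berry.waveK a ^ 2 →
        κ = 3 ∧ ∀ᵐ z ∂((volume : Measure ℍ).restrict D), ((s z) univ).toReal = 1 ∧
          ONE.vark (s z) (-a) = 0) := by
    intro a
    have hR := FUB.resK_ge 0 a
    have hK : Berry.waveK (0 - a) = Berry.waveK a := by rw [zero_sub, Berry.waveK_neg]
    have jwi := ONE.int_nu hg (hdir ![0, 0, a, a])
    have hW : ∀ z, dirWick (s z) ![0, 0, a, a] = (1 + 2 * Berry.waveK a ^ 2)
        * ((s z) univ).toReal ^ 2 + 2 * ONE.vark (s z) (-a) := by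
      intro z
      have := hfin z
      rw [ONE.dirWick_two, hK, zero_sub]
    have hvark : Integrable (fun z => ONE.vark (s z) (-a))
        (ProbabilityTheory.cond (Berry.area ρ) D) := by
      have h1 := (jwi.sub (js2.const_mul (1 + 2 * Berry.waveK a ^ 2))).div_const 2
      refine h1.congr (Eventually.of_forall fun z => ?_)
      simp only [Pi.sub_apply]
      rw [hW]
      ring
    have hGe : Berry.rAvg ρ D (fun z => dirWick (s z) ![0, 0, a, a])
        = (1 + 2 * Berry.waveK a ^ 2) * Berry.rAvg ρ D (fun z => ((s z) univ).toReal ^ 2)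
          + 2 * Berry.rAvg ρ D (fun z => ONE.vark (s z) (-a)) := by
      unfold Berry.rAvg
      rw [← integral_const_mul, ← integral_const_mul, ← integral_add (js2.const_mul _)
        (hvark.const_mul _)]
      exact integral_congr_ae (Eventually.of_forall fun z => hW z)
    obtain ⟨c1, c2⟩ := ONE.eq_case (A := 1 + 2 * Berry.waveK a ^ 2) (B := 2)
      (R := resK ![0, 0, a, a]) (κ := κ) js1 js2 hone hvark (fun z => ONE.vark_nonneg _ _)
      (by positivity) (by norm_num) (by linarith) hκ
    have e : fourF ρ D s κ ![0, 0, a, a] = (1 + 2 * Berry.waveK a ^ 2)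
        * (∫ z, ((s z) univ).toReal ^ 2 ∂(ProbabilityTheory.cond (Berry.area ρ) D))
        + 2 * (∫ z, ONE.vark (s z) (-a) ∂(ProbabilityTheory.cond (Berry.area ρ) D))
        + (κ - 3 * ∫ z, ((s z) univ).toReal ^ 2 ∂(ProbabilityTheory.cond (Berry.area ρ) D)) / 3
          * resK ![0, 0, a, a] := by
      unfold fourF
      rw [hGe]
      rfl
    rw [e]
    refine ⟨c1, fun h => ?_⟩
    obtain ⟨d1, -, d2⟩ := c2 h (by positivity)
    exact ⟨d1, ONE.ae_nu hg d2⟩
  refine ⟨fun a => (key a).1, fun a h => ?_⟩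
  obtain ⟨h1, h2⟩ := (key a).2 h
  refine ⟨h1, ?_⟩
  filter_upwards [h2] with z hz
  obtain ⟨z1, z2⟩ := hz
  have hfz := hfin z
  have hu : (s z) univ = 1 := by
    have h3 := ENNReal.ofReal_toReal (measure_ne_top (s z) univ)
    rw [z1, ENNReal.ofReal_one] at h3
    exact h3.symm
  refine ⟨hu, fun t => ?_⟩
  have h4 := ONE.gk_of_vark z2 (t + Real.pi)
  rw [z1, one_mul, Berry.waveK_neg] at h4
  rw [← h4]
  unfold ONE.gk
  congr 1
  have e : Complex.exp (((t + Real.pi : ℝ) : ℂ) * Complex.I)
      = -Complex.exp (t * Complex.I) := by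
    push_cast
    rw [add_mul, Complex.exp_add, Complex.exp_pi_mul_I]
    ring
  rw [e]
  ring

end

end BSL
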