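import Pool.Agent.BSL.UIF

/-!
# One and two points: the means of the products converge without weights (module ORD, part 1)
-/

set_option autoImplicit false

open Complex MeasureTheory Filter Topology Set
open UpperHalfPlane hiding I
open scoped ContDiff MatrixGroups ProbabilityTheory ENNReal

namespace BSL

open QE QE.NC QJ U3 NFP

noncomputable section

open UIF in
/-- the means of the products of at most two values converge to the moments of `F` -/
theorem t_UIK (h : StmtUia) {Γ : Subgroup SL(2, ℝ)} [Countable Γ] {D : Set ℍ} {ρ : ℍ → ℝ}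
    {φ : ℕ → ℍ → ℝ} {m : ℕ → ℝ} (hS : Sur Γ D ρ φ m) {Ω : Type} [MeasurableSpace Ω]
    {P : Measure Ω} [IsProbabilityMeasure P] {F : ℂ → Ω → ℝ} (hFm : ∀ x, Measurable (F x))
    (hF : FLim ρ D φ m P F) {ζ : ℂ → ℝ} (hζ : CutF Γ D ρ ζ)
    {V : Set ℂ} {σ : ℂ → ℝ} {φ' : ℕ → ℂ → ℂ} (hA : Agree V UH (gr ρ) (hh m) (ph φ) σ φ')
    (hζV : tsupport (fun z => (ζ z : ℂ)) ⊆ V) {k : ℕ} (hk : k ≤ 2) (x : Fin k → ℂ)
    {L : ℝ} {θ : ℕ → ℂ → ℝ} (W : Wt V σ (hh m) φ' L θ)
    (hdom : ∃ C : ℝ, ∀ᶠ n in atTop, ∀ z ∈ tsupport (fun z => (ζ z : ℂ)), ∀ (t : ℝ) (i : Fin k),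
      Berry.rWave ρ (φ n) (m n) (x i) (ofComplex z, t) ^ 2 ≤ C * Mn L (hh m) φ' n z) :
    Integrable (fun o => ∏ i, F (x i) o) P ∧
    Tendsto (fun n => ∫ z, ζ z * angProd ρ (φ n) (m n) x (ofComplex z)) atTop
      (𝓝 (∫ o, ∏ i, F (x i) o ∂P)) := by
  obtain ⟨C₀, hC₀⟩ := hdom
  set C₁ : ℝ := max C₀ 1 with hC₁
  have hC1 : 1 ≤ C₁ := le_max_right _ _
  have hρc := rho_cont hS
  set K : Set ℂ := tsupport (fun z => (ζ z : ℂ)) with hKdef
  have hK : IsCompact K := hζ.test.supp
  have hKU : K ⊆ UH := hζ.test.sub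
  have hKm : MeasurableSet K := hK.measurableSet
  have hζc : Continuous ζ := by
    have := Complex.continuous_re.comp hζ.test.smooth.continuous
    exact this
  have hζ0 : ∀ z, z ∉ K → ζ z = 0 := by
    intro z hz
    have h1 : ((ζ z : ℝ) : ℂ) = 0 := by
      by_contra hne
      exact hz (subset_tsupport (fun z => (ζ z : ℂ)) hne)
    exact_mod_cast h1
  obtain ⟨B, hB⟩ := hK.exists_bound_of_continuousOn hζc.continuousOn
  have hBz : ∀ z, ζ z ≤ max B 0 := by
    intro z
    by_cases hz : z ∈ K
    · exact ((le_abs_self _).trans (hB z hz)).trans (le_max_left _ _)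
    · rw [hζ0 z hz]
      exact le_max_right _ _
  have hfinK : IsFiniteMeasure ((volume : Measure ℂ).restrict K) :=
    ⟨by rw [Measure.restrict_apply_univ]; exact hK.measure_lt_top⟩
  set ν : Measure (ℂ × ℝ) := (volume.restrict K).prod ang with hν
  have hMc : ∀ n, Continuous (Mn L (hh m) φ' n) :=
    continuous_Mn (fun n => (hA.loc.smφ n).continuous) L
  -- membership
  have hmemK : ∀ᵐ p ∂ν, p.1 ∈ K := by
    have h1 : ∀ᵐ z ∂((volume : Measure ℂ).restrict K), z ∈ K := ae_restrict_mem hKm
    exact Measure.quasiMeasurePreserving_fst.ae h1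
  obtain ⟨N, hN⟩ := ((wc hS x).and hC₀).exists_forall_of_atTop
  -- the products
  set Q0 : ℕ → ℂ × ℝ → ℝ := fun n p => ∏ i, Berry.rWave ρ (φ n) (m n) (x i) (ofComplex p.1, p.2)
    with hQ0
  set Q : ℕ → ℂ × ℝ → ℝ := fun n p => if N ≤ n then Q0 n p else 0 with hQ
  have hpm : Measurable fun p : ℂ × ℝ => ((ofComplex p.1 : ℍ), p.2) :=
    (QE.Surf.measurable_ofComplex.comp measurable_fst).prodMk measurable_snd
  have hQ0m : ∀ n, N ≤ n → Measurable (Q0 n) := by
    intro n hn
    exact Finset.measurable_prod _ fun i _ => (((hN n hn).1 i).measurable.comp hpm)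
  have hQm : ∀ n, Measurable (Q n) := by
    intro n
    by_cases hn : N ≤ n
    · simp only [hQ, if_pos hn]
      exact hQ0m n hn
    · simp only [hQ, if_neg hn]
      exact measurable_const
  have hqm : Measurable fun o => ∏ i, F (x i) o := Finset.measurable_prod _ fun i _ => hFm _
  -- the bound
  have hQb : ∀ n, N ≤ n → ∀ p : ℂ × ℝ, p.1 ∈ K →
      Q0 n p ^ 2 ≤ (C₁ * Mn L (hh m) φ' n p.1) ^ 2 := by
    intro n hn p hp
    have h1 := (hN n hn).2 p.1 hp p.2
    have hM1 := one_le_Mn (h := hh m) (φ := φ') L n p.1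
    calc Q0 n p ^ 2 = ∏ i, Berry.rWave ρ (φ n) (m n) (x i) (ofComplex p.1, p.2) ^ 2 := by
          simp only [hQ0]
          rw [Finset.prod_pow]
      _ ≤ ∏ _i : Fin k, (C₁ * Mn L (hh m) φ' n p.1) := by
          refine Finset.prod_le_prod (fun i _ => sq_nonneg _) fun i _ => ?_
          refine (h1 i).trans ?_
          exact mul_le_mul_of_nonneg_right (le_max_left _ _) (by linarith)
      _ = (C₁ * Mn L (hh m) φ' n p.1) ^ k := by
          rw [Finset.prod_const, Finset.card_univ, Fintype.card_fin]
      _ ≤ _ := pow_le_pow_right₀ (by nlinarith) hk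
  have hQa : ∀ n, N ≤ n → ∀ p : ℂ × ℝ, p.1 ∈ K →
      |Q0 n p| ≤ C₁ * Mn L (hh m) φ' n p.1 := by
    intro n hn p hp
    have hM1 := one_le_Mn (h := hh m) (φ := φ') L n p.1
    exact abs_le_of_sq_le_sq (hQb n hn p hp) (by nlinarith)
  -- boundedness for each `n`
  have hMb : ∀ n, ∃ b : ℝ, ∀ z ∈ K, Mn L (hh m) φ' n z ≤ b := by
    intro n
    obtain ⟨b, hb⟩ := hK.exists_bound_of_continuousOn (hMc n).continuousOn
    exact ⟨b, fun z hz => (le_abs_self _).trans (hb z hz)⟩
  -- the mass of the local means
  have hKV' : K ⊆ V := hζV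
  obtain ⟨T, hT⟩ := W.ui K hK hKV' 1 one_pos
  have hbig := W.big K hK hKV'
  have hmass : ∃ C' : ℝ, ∀ᶠ n in atTop, ∫ p, Mn L (hh m) φ' n p.1 ∂ν ≤ C' := by
    refine ⟨1 + (max T 1 * (volume K).toReal + 1), ?_⟩
    have h1 : ∀ᶠ n in atTop, ∫ z in K, (1 - θ n z) * Mn L (hh m) φ' n z < 1 :=
      hbig.eventually_lt_const one_pos
    filter_upwards [h1, hT] with n hn1 hn2
    rw [hν, prod_fst (fun z => Mn L (hh m) φ' n z)]
    have hθc : Continuous (θ n) := (W.smθ n).continuous
    have i1 : IntegrableOn (fun z => (1 - θ n z) * Mn L (hh m) φ' n z) K :=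
      ((continuous_const.sub hθc).mul (hMc n)).continuousOn.integrableOn_compact hK
    have i2 : IntegrableOn (fun z => θ n z * Mn L (hh m) φ' n z) K :=
      (hθc.mul (hMc n)).continuousOn.integrableOn_compact hK
    have hc2 : Continuous fun z => θ n z * Mn L (hh m) φ' n z := hθc.mul (hMc n)
    have i3 : IntegrableOn (fun z => (if T < θ n z * Mn L (hh m) φ' n z
        then (θ n z * Mn L (hh m) φ' n z) ^ 2 else 0)) K := by
      refine Integrable.mono' (g := fun z => (θ n z * Mn L (hh m) φ' n z) ^ 2)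
        ((hc2.pow 2).continuousOn.integrableOn_compact hK) ?_ ?_
      · refine (Measurable.ite ?_ (hc2.pow 2).measurable measurable_const).aestronglyMeasurable
        exact measurableSet_lt measurable_const hc2.measurable
      · refine Eventually.of_forall fun z => ?_
        beta_reduce
        split_ifs
        · rw [Real.norm_of_nonneg (sq_nonneg _)]
        · rw [norm_zero]
          exact sq_nonneg _
    have e1 : ∀ z, Mn L (hh m) φ' n z
        = (1 - θ n z) * Mn L (hh m) φ' n z + θ n z * Mn L (hh m) φ' n z := fun z => by ring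
    have e2 : ∫ z in K, Mn L (hh m) φ' n z = (∫ z in K, (1 - θ n z) * Mn L (hh m) φ' n z)
        + ∫ z in K, θ n z * Mn L (hh m) φ' n z := by
      rw [← integral_add i1 i2]
      exact integral_congr_ae (Eventually.of_forall fun z => e1 z)
    rw [e2]
    have h3 : ∫ z in K, θ n z * Mn L (hh m) φ' n z
        ≤ max T 1 * (volume K).toReal + 1 := by
      have hci : IntegrableOn (fun _ : ℂ => max T 1) K := by
        rw [integrableOn_const_iff]
        exact Or.inr hK.measure_lt_top
      calc ∫ z in K, θ n z * Mn L (hh m) φ' n z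
          ≤ ∫ z in K, (max T 1 + (if T < θ n z * Mn L (hh m) φ' n z
              then (θ n z * Mn L (hh m) φ' n z) ^ 2 else 0)) := by
            refine setIntegral_mono_on i2 (hci.add i3) hKm fun z _ => ?_
            split_ifs with h4
            · rcases le_total (θ n z * Mn L (hh m) φ' n z) 1 with h5 | h5
              · have := le_max_right T 1
                have := sq_nonneg (θ n z * Mn L (hh m) φ' n z)
                linarith
              · have := le_max_right T 1
                nlinarith
            · have := le_max_left T 1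
              linarith
        _ = (∫ _ in K, max T 1) + ∫ z in K, (if T < θ n z * Mn L (hh m) φ' n z
              then (θ n z * Mn L (hh m) φ' n z) ^ 2 else 0) := integral_add hci i3
        _ ≤ max T 1 * (volume K).toReal + 1 := by
            have i4 : ∫ _ in K, (max T 1 : ℝ) = max T 1 * (volume K).toReal := by
              rw [setIntegral_const, smul_eq_mul, mul_comm]
              rfl
            rw [i4]
            linarith
    linarith
  obtain ⟨C', hC'⟩ := hmass
  have key := h (ℂ × ℝ) ν Ω P (fun p => ζ p.1) (fun n p => θ n p.1)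
    (fun n p => Mn L (hh m) φ' n p.1) Q (fun o => ∏ i, F (x i) o) (max B 0) (C₁ ^ 3) C' 1
    (Or.inl rfl) (hζc.measurable.comp measurable_fst)
    (fun n => (W.smθ n).continuous.measurable.comp measurable_fst)
    (fun n => (hMc n).measurable.comp measurable_fst) hQm hqm
    (fun p => ⟨hζ.nonneg _, hBz _⟩) (fun n p => ⟨W.nonneg n _, W.le_one n _⟩)
    (fun n p => one_le_Mn L n p.1)
    (fun n => by
      obtain ⟨b, hb⟩ := hMb n
      refine ⟨b, ?_⟩
      filter_upwards [hmemK] with p hp
      exact hb p.1 hp) hC'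
    (by
      filter_upwards [eventually_ge_atTop N] with n hn
      filter_upwards [hmemK] with p hp _
      simp only [hQ, if_pos hn]
      refine (hQb n hn p hp).trans ?_
      have hM1 := one_le_Mn (h := hh m) (φ := φ') L n p.1
      have h1 : 1 ≤ C₁ * Mn L (hh m) φ' n p.1 := by nlinarith
      rw [← mul_pow]
      exact pow_le_pow_right₀ h1 (by norm_num))
    (by
      refine hbig.congr fun n => ?_
      rw [hν, prod_fst (fun z => (1 - θ n z) * Mn L (hh m) φ' n z)])
    (by
      intro ε hε
      obtain ⟨T', hT'⟩ := W.ui K hK hKV' ε hε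
      refine ⟨T', ?_⟩
      filter_upwards [hT'] with n hn
      rw [hν, prod_fst (fun z => if T' < θ n z * Mn L (hh m) φ' n z
        then (θ n z * Mn L (hh m) φ' n z) ^ 2 else 0)]
      exact hn)
    (by
      intro G hG hGb
      obtain ⟨b, hb⟩ := hGb
      have h1 := hF k x (fun t => G (∏ i, t i))
        (hG.comp (continuous_finsetProd _ fun i _ => continuous_apply i)) ⟨b, fun t => hb _⟩
      refine h1.congr' ?_
      filter_upwards [eventually_ge_atTop N] with n hn
      -- the function on the surface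
      set f : ℍ → ℝ := fun z => ∫ t, G (∏ i, Berry.rWave ρ (φ n) (m n) (x i) (z, t)) ∂ang with hf
      have hGm : Measurable fun p : ℍ × ℝ => G (∏ i, Berry.rWave ρ (φ n) (m n) (x i) p) :=
        hG.measurable.comp (Finset.measurable_prod _ fun i _ => ((hN n hn).1 i).measurable)
      have hfm : Measurable f := (hGm.stronglyMeasurable.integral_prod_right').measurable
      have hfb : ∀ z, |f z| ≤ b := by
        intro z
        have h2 : ‖f z‖ ≤ b * ang.real univ :=
          norm_integral_le_of_norm_le_const (Eventually.of_forall fun t => hb _)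
        simpa using h2
      have hg := geo hS
      have hfD : IntegrableOn f D (volume : Measure ℍ) := by
        have : IsFiniteMeasure ((volume : Measure ℍ).restrict D) :=
          ⟨by rw [Measure.restrict_apply_univ]; exact hg.fin.lt_top⟩
        exact Integrable.of_bound hfm.aestronglyMeasurable b (Eventually.of_forall hfb)
      have hfi := ang_inv (Γ := Γ) (f := φ n) (fun γ hγ z => hS.eig.invariant n γ hγ z) hS.fac.inv
        (m n) x G
      obtain ⟨h3, h4⟩ := hζ.int f hfm hfD hfi
      have e1 : ∫ p, G (∏ i, Berry.rWave ρ (φ n) (m n) (x i) p) ∂(Berry.rFrameProb ρ D)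
          = Berry.rAvg ρ D f := by
        have : IsProbabilityMeasure (ProbabilityTheory.cond (Berry.area ρ) D) := area_prob hg
        unfold Berry.rFrameProb Berry.rAvg
        rw [integral_prod]
        exact Integrable.of_bound hGm.aestronglyMeasurable b (Eventually.of_forall fun p => hb _)
      rw [e1, ← h4]
      -- the left side
      have hQi : Integrable (fun p : ℂ × ℝ => ζ p.1 * G (Q n p)) ν := by
        refine Integrable.of_bound ((hζc.measurable.comp measurable_fst).mul
          (hG.measurable.comp (hQm n))).aestronglyMeasurable (max B 0 * b)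
          (Eventually.of_forall fun p => ?_)
        rw [norm_mul, Real.norm_of_nonneg (hζ.nonneg _)]
        exact mul_le_mul (hBz _) (hb _) (norm_nonneg _) (le_max_right _ _)
      rw [hν, integral_prod _ hQi]
      have e2 : ∫ z, ζ z * f (ofComplex z) = ∫ z in K, ζ z * f (ofComplex z) := by
        rw [setIntegral_eq_integral_of_forall_compl_eq_zero]
        intro z hz
        rw [hζ0 z hz, zero_mul]
      rw [e2]
      refine integral_congr_ae (Eventually.of_forall fun z => ?_)
      show ζ z * f (ofComplex z) = ∫ y, ζ z * G (Q n (z, y)) ∂ang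
      rw [integral_const_mul]
      simp only [hQ, if_pos hn, hQ0, hf])
  refine ⟨key.1, ?_⟩
  -- the rest
  have rest : Tendsto (fun n => ∫ p, ζ p.1 * ((1 - θ n p.1) * Q n p) ∂ν) atTop (𝓝 0) := by
    have h0 : Tendsto (fun n => max B 0 * C₁ * ∫ z in K, (1 - θ n z) * Mn L (hh m) φ' n z) atTop
        (𝓝 0) := by
      have := hbig.const_mul (max B 0 * C₁)
      rwa [mul_zero] at this
    refine squeeze_zero_norm' ?_ h0
    filter_upwards [eventually_ge_atTop N] with n hn
    rw [← prod_fst (fun z => (1 - θ n z) * Mn L (hh m) φ' n z), ← hν, ← integral_const_mul]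
    have hθc : Continuous (θ n) := (W.smθ n).continuous
    obtain ⟨b, hb⟩ := hMb n
    refine norm_integral_le_of_norm_le ?_ ?_
    · refine Integrable.of_bound (C := max B 0 * C₁ * b) ?_ ?_
      · exact (measurable_const.mul (((continuous_const.sub hθc).mul
          (hMc n)).measurable.comp measurable_fst)).aestronglyMeasurable
      · filter_upwards [hmemK] with p hp
        have hM1 := one_le_Mn (h := hh m) (φ := φ') L n p.1
        have t1 := W.nonneg n p.1
        have t2 := W.le_one n p.1
        rw [Real.norm_of_nonneg (mul_nonneg (mul_nonneg (le_max_right _ _) (by linarith))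
          (mul_nonneg (by linarith) (by linarith)))]
        refine mul_le_mul_of_nonneg_left ?_ (mul_nonneg (le_max_right _ _) (by linarith))
        calc (1 - θ n p.1) * Mn L (hh m) φ' n p.1 ≤ 1 * b :=
              mul_le_mul (by linarith) (hb _ hp) (by linarith) zero_le_one
          _ = b := one_mul b
    · filter_upwards [hmemK] with p hp
      have hM1 := one_le_Mn (h := hh m) (φ := φ') L n p.1
      have t1 := W.nonneg n p.1
      have t2 := W.le_one n p.1
      have h3 := hQa n hn p hp
      simp only [hQ, if_pos hn]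
      rw [norm_mul, norm_mul, Real.norm_of_nonneg (hζ.nonneg _),
        Real.norm_of_nonneg (by linarith : (0 : ℝ) ≤ 1 - θ n p.1)]
      calc ζ p.1 * ((1 - θ n p.1) * ‖Q0 n p‖)
          ≤ max B 0 * ((1 - θ n p.1) * (C₁ * Mn L (hh m) φ' n p.1)) := by
            refine mul_le_mul (hBz _) (mul_le_mul_of_nonneg_left h3 (by linarith))
              (mul_nonneg (by linarith) (norm_nonneg _)) (le_max_right _ _)
        _ = max B 0 * C₁ * ((1 - θ n p.1) * Mn L (hh m) φ' n p.1) := by ring
  have tot := key.2.add rest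
  rw [add_zero] at tot
  refine tot.congr' ?_
  filter_upwards [eventually_ge_atTop N] with n hn
  obtain ⟨b, hb⟩ := hMb n
  have hθm : Measurable fun p : ℂ × ℝ => θ n p.1 :=
    (W.smθ n).continuous.measurable.comp measurable_fst
  have hζm : Measurable fun p : ℂ × ℝ => ζ p.1 := hζc.measurable.comp measurable_fst
  have hQ3 : ∀ᵐ p ∂ν, ‖Q n p‖ ≤ C₁ * b := by
    filter_upwards [hmemK] with p hp
    simp only [hQ, if_pos hn]
    refine (hQa n hn p hp).trans ?_
    exact mul_le_mul_of_nonneg_left (hb _ hp) (by linarith)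
  have gen : ∀ w : ℂ × ℝ → ℝ, Measurable w → (∀ p, ‖w p‖ ≤ 1) →
      Integrable (fun p : ℂ × ℝ => ζ p.1 * (w p * Q n p)) ν := by
    intro w hw hw1
    refine Integrable.of_bound (C := max B 0 * (C₁ * b))
      (hζm.mul (hw.mul (hQm n))).aestronglyMeasurable ?_
    filter_upwards [hQ3] with p hp
    rw [norm_mul, Real.norm_of_nonneg (hζ.nonneg _)]
    refine mul_le_mul (hBz _) ?_ (norm_nonneg _) (le_max_right _ _)
    rw [norm_mul]
    calc ‖w p‖ * ‖Q n p‖ ≤ 1 * ‖Q n p‖ := mul_le_mul_of_nonneg_right (hw1 p) (norm_nonneg _)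
      _ = ‖Q n p‖ := one_mul _
      _ ≤ _ := hp
  have g1 := gen (fun p => θ n p.1 ^ 1) (hθm.pow_const 1) (fun p => by
    rw [pow_one, Real.norm_of_nonneg (W.nonneg n _)]
    exact W.le_one n _)
  have g2 := gen (fun p => 1 - θ n p.1) (measurable_const.sub hθm) (fun p => by
    rw [Real.norm_of_nonneg (by linarith [W.le_one n p.1])]
    linarith [W.nonneg n p.1])
  have g3 : Integrable (fun p : ℂ × ℝ => ζ p.1 * Q n p) ν := by
    have := gen (fun _ => 1) measurable_const (fun p => by simp)
    simpa only [one_mul] using this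
  rw [← integral_add g1 g2]
  have e1 : ∀ p : ℂ × ℝ, ζ p.1 * (θ n p.1 ^ 1 * Q n p) + ζ p.1 * ((1 - θ n p.1) * Q n p)
      = ζ p.1 * Q n p := fun p => by ring
  simp only [e1]
  rw [hν, integral_prod _ g3]
  have e2 : ∫ z, ζ z * angProd ρ (φ n) (m n) x (ofComplex z)
      = ∫ z in K, ζ z * angProd ρ (φ n) (m n) x (ofComplex z) := by
    rw [setIntegral_eq_integral_of_forall_compl_eq_zero]
    intro z hz
    rw [hζ0 z hz, zero_mul]
  rw [e2]
  refine integral_congr_ae (Eventually.of_forall fun z => ?_)
  show ∫ y, ζ z * Q n (z, y) ∂ang = ζ z * angProd ρ (φ n) (m n) x (ofComplex z)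
  rw [integral_const_mul]
  simp only [hQ, if_pos hn, hQ0, angProd]

end

end BSL
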