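import Pool.Agent.BSL.St4
import Pool.Agent.BSL.UIK
import Pool.Agent.BSL.FFL

/-!
# The moments of order one and two of the limit field (module ORD)
-/

set_option autoImplicit false

open Complex MeasureTheory Filter Topology Set
open UpperHalfPlane hiding I
open scoped ContDiff MatrixGroups ProbabilityTheory ENNReal

namespace BSL

open QE QE.NC QJ U3 NFP

noncomputable section

namespace ORD

variable {Γ : Subgroup SL(2, ℝ)} {D : Set ℍ} {ρ : ℍ → ℝ} {φ : ℕ → ℍ → ℝ} {m : ℕ → ℝ}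

lemma tsup (ψ : ℂ → ℝ) : tsupport (fun z : ℂ => (ψ z : ℂ)) = tsupport ψ := by
  unfold tsupport
  congr 1
  ext z
  simp

/-- the local theorem for one and two points; no hypothesis on the three-jet integrals -/
lemma pts (hS : Sur Γ D ρ φ m) {ψ : ℂ → ℝ} (hψ : Test UH (fun z => (ψ z : ℂ))) :
    (∀ x : Fin 1 → ℂ,
      Tendsto (fun n => ∫ z, ψ z * angProd ρ (φ n) (m n) x (ofComplex z)) atTop (𝓝 0)) ∧
    ∀ x : Fin 2 → ℂ,
      Tendsto (fun n => (∫ z, ψ z * angProd ρ (φ n) (m n) x (ofComplex z))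
        - Berry.waveK (x 0 - x 1) * ∫ z, ψ z * φ n (ofComplex z) ^ 2) atTop (𝓝 0) := by
  have hψ1 : ContDiff ℝ ∞ ψ := by
    have := Complex.reCLM.contDiff.comp hψ.smooth
    simpa [Function.comp_def] using this
  have hψ2 : HasCompactSupport ψ := by
    have := hψ.supp
    unfold HasCompactSupport at this ⊢
    rwa [tsup] at this
  have hψ3 : tsupport ψ ⊆ UH := by
    have := hψ.sub
    rwa [tsup] at this
  obtain ⟨t1, t2, -⟩ := tlU UH (gr ρ) (hh m) (ph φ) isOpen_UH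
    (U3.WGA.contDiffOn_gr hS.fac.smooth) (fun z hz => U3.WGA.gr_pos hz) hS.loc _ hψ
  have key : ∀ {r : ℕ} (_ : r ≤ 3) (x : Fin r → ℂ) (c : ℕ → ℝ),
      Tendsto (fun n => (∫ θ, (∫ z, (ψ z : ℂ) * PD (gr ρ) (hh m)
        (ph φ) x n θ z) ∂angle) - (c n : ℂ)) atTop (𝓝 0) →
      Tendsto (fun n => (∫ z, ψ z * angProd ρ (φ n) (m n) x (ofComplex z)) - c n) atTop (𝓝 0) := by
    intro r hr x c hc
    have h1 := PTSU.compare dsuU hS.fac.smooth hS.loc hψ1 hψ2 hψ3 hr x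
    have h2 := h1.add hc
    have h3 := (Complex.continuous_re.tendsto _).comp h2
    simp only [add_zero, Complex.zero_re] at h3
    refine h3.congr fun n => ?_
    show (((∫ z, ψ z * angProd ρ (φ n) (m n) x (ofComplex z) : ℝ) : ℂ)
      - (∫ θ, (∫ z, (ψ z : ℂ) * PD (gr ρ) (hh m) (ph φ) x n θ z) ∂angle)
      + ((∫ θ, (∫ z, (ψ z : ℂ) * PD (gr ρ) (hh m) (ph φ) x n θ z) ∂angle) - (c n : ℂ))).re = _
    rw [sub_add_sub_cancel, ← Complex.ofReal_sub, Complex.ofReal_re]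
  refine ⟨fun x => ?_, fun x => ?_⟩
  · simpa using key (by norm_num) x (fun _ => 0) (by simpa using t1 x)
  · refine key (by norm_num) x _ ?_
    refine (t2 x).congr fun n => ?_
    congr 1
    have hint : ∫ z, (ψ z : ℂ) * ph φ n z ^ 2
        = ((∫ z, ψ z * φ n (ofComplex z) ^ 2 : ℝ) : ℂ) := by
      refine Eq.trans ?_ (integral_ofReal (𝕜 := ℂ) (μ := volume)
        (f := fun z : ℂ => ψ z * φ n (ofComplex z) ^ 2))
      refine integral_congr_ae (Eventually.of_forall fun z => ?_)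
      simp [ph]
    rw [hint]
    push_cast
    rfl

/-- the mass -/
lemma mass [Countable Γ] (hS : Sur Γ D ρ φ m) {ζ : ℂ → ℝ} (hζ : CutF Γ D ρ ζ) (n : ℕ) :
    ∫ z, ζ z * φ n (ofComplex z) ^ 2 = 1 := by
  have hc : Continuous fun z => φ n z ^ 2 := (UIF.phi_cont hS n).pow 2
  have hi : ∀ γ ∈ Γ, ∀ z, φ n (γ • z) ^ 2 = φ n z ^ 2 := fun γ hγ z => by
    rw [hS.eig.invariant n γ hγ z]
  obtain ⟨b, hb⟩ := Berry.bdd_of_cocompact hc hi hS.fac.cpt
  have hfD : IntegrableOn (fun z => φ n z ^ 2) D (volume : Measure ℍ) := by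
    have : IsFiniteMeasure ((volume : Measure ℍ).restrict D) :=
      ⟨by rw [Measure.restrict_apply_univ]; exact (UIF.geo hS).fin.lt_top⟩
    exact Integrable.of_bound hc.measurable.aestronglyMeasurable b (Eventually.of_forall hb)
  rw [(hζ.int _ hc.measurable hfD hi).2, hS.nrm n]

end ORD

open ORD in
/-- **ORD**: the moments of order one and two of the limit field are those of the random wave. -/
theorem t_ORD (h1 : StmtWts) (h2 : StmtCut) (h3 : StmtTrg) (h4 : StmtDom) (h5 : StmtUia) :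
    StmtOrd := by
  intro Γ _ D ρ φ m hS Ω _ P _ F hFm hF hF2 hF4
  obtain ⟨R, hT, -⟩ := h3 Γ D ρ φ m hS Ω P F hFm hF hF2 hF4
  obtain ⟨ζ, hζ⟩ := h2 Γ D ρ hS.mD hS.fd hS.fac
  set K : Set ℂ := tsupport (fun z => (ζ z : ℂ)) with hKdef
  have hK : IsCompact K := hζ.test.supp
  obtain ⟨V, F', σ, φ', hKV, -, -, -, hA⟩ := stmtLcz UH (gr ρ) (hh m) (ph φ) isOpen_UH
    (U3.WGA.contDiffOn_gr hS.fac.smooth) (fun z hz => U3.WGA.gr_pos hz) hS.loc K hK hζ.test.sub
  have hTV : Tru V φ' R := FFL.tru_agree hT hA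
  have lim : ∀ {k : ℕ} (_ : k ≤ 2) (x : Fin k → ℂ), Integrable (fun o => ∏ i, F (x i) o) P ∧
      Tendsto (fun n => ∫ z, ζ z * angProd ρ (φ n) (m n) x (ofComplex z)) atTop
        (𝓝 (∫ o, ∏ i, F (x i) o ∂P)) := by
    intro k hk x
    obtain ⟨L, hL, hd⟩ := h4 Γ D ρ φ m hS V σ φ' hA K hK hKV k x
    obtain ⟨θ, C, W, -⟩ := h1 V σ (hh m) φ' R hA.loc hTV L hL
    exact t_UIK h5 hS hFm hF hζ hA hKV hk x W (hd L le_rfl)
  obtain ⟨p1, p2⟩ := pts hS hζ.test
  refine ⟨fun x => ?_, fun x y => ?_⟩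
  · obtain ⟨a1, a2⟩ := lim (by norm_num) ![x]
    have a3 := tendsto_nhds_unique a2 (p1 ![x])
    simp only [Fin.prod_univ_one, Matrix.cons_val_zero] at a1 a3
    exact ⟨a1, a3⟩
  · obtain ⟨a1, a2⟩ := lim le_rfl ![x, y]
    have b := p2 ![x, y]
    simp only [mass hS hζ, mul_one, Matrix.cons_val_zero, Matrix.cons_val_one] at b
    have b2 := b.add_const (Berry.waveK (x - y))
    simp only [sub_add_cancel, zero_add] at b2
    have a3 := tendsto_nhds_unique a2 b2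
    simp only [Fin.prod_univ_two, Matrix.cons_val_zero, Matrix.cons_val_one] at a1 a3
    exact ⟨a1, a3⟩

end

end BSL
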