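import Pool.Agent.BSL.St4
import Pool.Agent.ONE.Avg
import Pool.Agent.ONE.Fin

/-!
TST, PSQ: the cases of equality in the lower bounds for the limit field.
-/

open Complex MeasureTheory Filter Topology Set
open UpperHalfPlane hiding I
open scoped ContDiff MatrixGroups ProbabilityTheory

namespace BSL

open QE QE.NC QJ U3 NFP

noncomputable section

namespace TST

variable {Γ : Subgroup SL(2, ℝ)} {D : Set ℍ} {ρ : ℍ → ℝ} {s : ProbabilityTheory.Kernel ℍ S1}
  {κ : ℝ}

/-- moments which vanish on the fundamental domain vanish on the half plane -/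
lemma ae_all [Countable Γ] (H : Dir Γ D ρ s κ) (k : ℤ)
    (h : ∀ᵐ z ∂((volume : Measure ℍ).restrict D), cof (s z) k = 0) : ∀ᵐ z : ℍ, cof (s z) k = 0 := by
  refine ONE.ae_of_D H.fd (fun γ hγ => ?_) ((ae_restrict_iff' H.mD).1 h)
  have h1 := QE.FM.ae_H (H.fam.equiv γ hγ k)
  filter_upwards [h1] with z hz h2
  rw [mob_coe, ofComplex_apply, ofComplex_apply, h2, mul_zero] at hz
  exact hz

/-- the moments vanish if infinitely many of them vanish -/
lemma all_even [Countable Γ] (H : Dir Γ D ρ s κ)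
    (hinf : ∀ N : ℕ, ∃ k : ℕ, N ≤ k ∧
      ∀ᵐ z ∂((volume : Measure ℍ).restrict D), cof (s z) ((2 * k : ℕ) : ℤ) = 0) :
    ∀ᵐ z : ℍ, ∀ k : ℤ, Even k → k ≠ 0 → cof (s z) k = 0 := by
  have all : ∀ n : ℕ, 1 ≤ n → ∀ᵐ z ∂((volume : Measure ℂ).restrict UH),
      cof (s (ofComplex z)) ((2 * n : ℕ) : ℤ) = 0 := by
    intro n hn
    obtain ⟨K, hK, hKz⟩ := hinf n
    have h0 : ∀ᵐ z ∂((volume : Measure ℂ).restrict UH),
        cof (s (ofComplex z)) ((2 * K : ℕ) : ℤ) = 0 := by
      refine ae_UH ?_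
      filter_upwards [ae_all H _ hKz] with z hz
      rw [ofComplex_apply]
      exact hz
    have h1 : ∀ d : ℕ, n + d ≤ K → d ≤ K - n → ∀ᵐ z ∂((volume : Measure ℂ).restrict UH),
        cof (s (ofComplex z)) ((2 * (K - d) : ℕ) : ℤ) = 0 := by
      intro d
      induction d with
      | zero => intro _ _; exact h0
      | succ d ih =>
        intro hd1 hd2
        have h2 := ih (by omega) (by omega)
        refine ONE.down (u := fun k z => cof (s (ofComplex z)) k) H.fac H.fam.loc
          H.fam.transport H.fam.equiv (l := 2 * (K - (d + 1))) (by omega) ?_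
        have e : ((2 * (K - (d + 1)) : ℕ) : ℤ) + 2 = ((2 * (K - d) : ℕ) : ℤ) := by omega
        beta_reduce
        rw [e]
        exact h2
    have h3 := h1 (K - n) (by omega) le_rfl
    have e : K - (K - n) = n := by omega
    rwa [e] at h3
  filter_upwards [ae_all_iff.2 fun n : ℕ => ((ae_all_iff.2 fun hn : 1 ≤ n =>
    QE.FM.ae_H (all n hn)))] with z hz k hk hk0
  obtain ⟨m, -, hm1, hm2⟩ := ONE.cof_nat (s z) hk
  refine hm2 ?_
  have := hz m (hm1 hk0)
  rwa [ofComplex_apply] at this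

/-- **the case of equality for a statistic of degree four** -/
theorem eq_stat [Countable Γ] (H : Dir Γ D ρ s κ) {ι : Type} [Fintype ι] {q : ι → ℝ}
    {X : ι → Fin 4 → ℂ} {A B : ℝ} {v : Measure S1 → ℝ} (S : ONE.Stat q X A B v)
    (he : ∑ a, q a * fourF ρ D s κ (X a) = A) : κ = 3 ∧ Unif D s := by
  have hg : Berry.Geo Γ ρ D :=
    geo_of H.mD H.fd H.fac.cpt (continuous_of_smooth H.fac.smooth) H.fac.inv
  have hP := ONE.prob_nu hg
  have js2 := ONE.int_nu hg H.sq
  have js1 := ONE.int_mass js2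
  have jwi := fun x => ONE.int_nu hg (H.dw x)
  have jsum : Integrable (fun z => ∑ a, q a * dirWick (s z) (X a))
      (ProbabilityTheory.cond (Berry.area ρ) D) :=
    integrable_finsetSum _ fun a _ => (jwi (X a)).const_mul _
  have hB0 := S.B0
  have hv : Integrable (fun z => v (s z)) (ProbabilityTheory.cond (Berry.area ρ) D) := by
    have h1 := (jsum.sub (js2.const_mul A)).div_const B
    refine h1.congr (Eventually.of_forall fun z => ?_)
    simp only [Pi.sub_apply]
    rw [S.dir (s z) (H.fin z)]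
    field_simp
    ring
  have e1 : ∑ a, q a * fourF ρ D s κ (X a)
      = A * (∫ z, ((s z) univ).toReal ^ 2 ∂(ProbabilityTheory.cond (Berry.area ρ) D))
        + B * (∫ z, v (s z) ∂(ProbabilityTheory.cond (Berry.area ρ) D))
        + (κ - 3 * ∫ z, ((s z) univ).toReal ^ 2 ∂(ProbabilityTheory.cond (Berry.area ρ) D)) / 3
          * ∑ a, q a * resK (X a) := by
    have e2 : A * (∫ z, ((s z) univ).toReal ^ 2 ∂(ProbabilityTheory.cond (Berry.area ρ) D))
        + B * (∫ z, v (s z) ∂(ProbabilityTheory.cond (Berry.area ρ) D))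
        = ∑ a, q a * Berry.rAvg ρ D (fun z => dirWick (s z) (X a)) := by
      rw [← integral_const_mul, ← integral_const_mul, ← integral_add (js2.const_mul _)
        (hv.const_mul _)]
      have e3 : ∑ a, q a * Berry.rAvg ρ D (fun z => dirWick (s z) (X a))
          = ∫ z, ∑ a, q a * dirWick (s z) (X a) ∂(ProbabilityTheory.cond (Berry.area ρ) D) := by
        rw [integral_finsetSum _ fun a _ => (jwi (X a)).const_mul _]
        refine Finset.sum_congr rfl fun a _ => ?_
        rw [integral_const_mul]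
        rfl
      rw [e3]
      exact integral_congr_ae (Eventually.of_forall fun z => (S.dir (s z) (H.fin z)).symm)
    rw [e2, Finset.mul_sum, ← Finset.sum_add_distrib]
    refine Finset.sum_congr rfl fun a _ => ?_
    unfold fourF Berry.rAvg
    ring
  rw [e1] at he
  obtain ⟨h1, -, h2⟩ := (ONE.eq_case js1 js2 H.one hv (fun z => S.v0 _) S.A0.le hB0 S.res
    H.kap).2 he S.A0
  refine ⟨h1, ?_⟩
  have h3 := ONE.ae_nu hg h2
  have h4 := all_even H fun N => by
    obtain ⟨k, hk, hkv⟩ := S.inf N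
    refine ⟨k, hk, ?_⟩
    filter_upwards [h3] with z hz
    exact hkv (s z) (H.fin z) hz.2
  filter_upwards [h3, ae_restrict_of_ae h4] with z hz1 hz2
  refine ⟨?_, hz2⟩
  have hfz := H.fin z
  have h5 := ENNReal.ofReal_toReal (measure_ne_top (s z) univ)
  rw [hz1.1, ENNReal.ofReal_one] at h5
  exact h5.symm

end TST

theorem t_TST : StmtTst := by
  intro Γ _ D ρ s κ H r c x hx hc he
  refine TST.eq_stat H (ONE.stat_lin hx hc) ?_
  have e : ∑ a : ONE.I4 r, ONE.q4 c a * fourF ρ D s κ (ONE.X4 x a)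
      = ∑ i, ∑ j, ∑ k, ∑ l, c i * c j * c k * c l * fourF ρ D s κ ![x i, x j, x k, x l] :=
    ONE.sum_I4 (fun i j k l => c i * c j * c k * c l * fourF ρ D s κ ![x i, x j, x k, x l])
  rw [e, he]
  rfl

/-- equality for one pair of squares, without a condition on the curvature -/
theorem psq (Γ : Subgroup SL(2, ℝ)) [Countable Γ] (D : Set ℍ) (ρ : ℍ → ℝ)
    (s : ProbabilityTheory.Kernel ℍ S1) (κ : ℝ) (H : Dir Γ D ρ s κ) (a : ℂ) (ha : a ≠ 0)
    (he : fourF ρ D s κ ![0, 0, a, a] = 1 + 2 * Berry.waveK a ^ 2) : κ = 3 ∧ Unif D s := by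
  refine TST.eq_stat H (ONE.stat_two (x := 0) (y := a) (Ne.symm ha)) ?_
  simp only [Finset.univ_unique, Finset.sum_singleton, one_mul]
  rw [he, zero_sub, Berry.waveK_neg]

theorem t_PSQ : StmtPsq := fun Γ _ D ρ s κ H _ a ha he => (psq Γ D ρ s κ H a ha he).2

end

end BSL
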