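import Pool.Agent.BSL.All1
import Pool.Agent.BSL.ORD
import Pool.Agent.BSL.FUA
import Pool.Agent.BSL.FUB
import Pool.Agent.BSL.TST
import Pool.Agent.BSL.FLM

/-!
# Theorem B
-/

open Complex MeasureTheory Filter Topology Set

namespace BSL

theorem ord_closed : StmtOrd := t_ORD t_WTS t_CUT trg_closed t_DOM t_UIA

/-- **Theorem B** -/
theorem flm_closed : StmtFlm :=
  t_FLM ffl_closed lfr_closed noa_closed t_FUA t_FUB t_PSQ t_TST qeu_closed t_JLG ord_closed

end BSL
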