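import Pool.Agent.BSL.St1

/-!
# BLK: the Beurling transform of a function of mean zero is integrable away from its support
-/

open Complex MeasureTheory Filter Topology Set
open scoped ContDiff Real

namespace BSL

open QE QJ U3

noncomputable section

namespace BLK

/-- the derivative of the kernel -/
def k' (z u : ℂ) : ℂ := (π : ℂ)⁻¹ * ((z - u) ^ 2)⁻¹

theorem measurable_k' (z : ℂ) : Measurable (k' z) := by
  unfold k'
  fun_prop

theorem dz_ker {z u : ℂ} (h : z - u ≠ 0) : dz (fun u => ck (z - u)) u = k' z u := by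
  have hp : (π : ℂ) ≠ 0 := by exact_mod_cast Real.pi_ne_zero
  have h1 : HasDerivAt (fun u : ℂ => (π : ℂ) * (z - u)) ((π : ℂ) * (0 - 1)) u :=
    ((hasDerivAt_const u z).sub (hasDerivAt_id u)).const_mul _
  have h2 : HasDerivAt (fun u : ℂ => ck (z - u)) (-((π : ℂ) * (0 - 1)) / ((π : ℂ) * (z - u)) ^ 2)
      u := h1.inv (mul_ne_zero hp h)
  have h3 := (h2.hasFDerivAt.restrictScalars ℝ).fderiv
  unfold dz
  rw [h3]
  simp only [ContinuousLinearMap.coe_restrictScalars', ContinuousLinearMap.toSpanSingleton_apply,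
    smul_eq_mul, one_mul]
  unfold k'
  have h4 : (z - u) ^ 2 ≠ 0 := pow_ne_zero 2 h
  have hI : I * (I * (-((π : ℂ) * (0 - 1)) / ((π : ℂ) * (z - u)) ^ 2)) =
      -(-((π : ℂ) * (0 - 1)) / ((π : ℂ) * (z - u)) ^ 2) := by
    rw [← mul_assoc, I_mul_I]; ring
  rw [hI]
  field_simp
  ring

theorem contDiffOn_ker (z : ℂ) : ContDiffOn ℝ ∞ (fun u => ck (z - u)) {u | u ≠ z} := by
  have hp : (π : ℂ) ≠ 0 := by exact_mod_cast Real.pi_ne_zero
  intro u hu
  have h : z - u ≠ 0 := sub_ne_zero.2 (Ne.symm hu)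
  refine ContDiffAt.contDiffWithinAt ?_
  unfold ck
  refine ContDiffAt.inv ?_ (mul_ne_zero hp h)
  exact contDiffAt_const.mul (contDiffAt_const.sub contDiffAt_id)

theorem beu_eq {f : ℂ → ℂ} {c z : ℂ} {r : ℝ} (hf : ContDiff ℝ ∞ f) (hr : 0 < r)
    (hs : tsupport f ⊆ Metric.closedBall c r) (hz : 2 * r ≤ ‖z - c‖) :
    beu f z = - ∫ u, f u * k' z u := by
  have hc : HasCompactSupport f :=
    IsCompact.of_isClosed_subset (isCompact_closedBall c r) (isClosed_tsupport f) hs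
  have hne : ∀ u ∈ Metric.closedBall c r, u ≠ z := by
    intro u hu h
    rw [h, Metric.mem_closedBall, dist_eq_norm] at hu
    linarith
  unfold beu
  rw [dz_cauchy hf hc]
  unfold cauchy
  have e1 : ∫ w, ck w * dz f (z - w) = ∫ u, ck (z - u) * dz f u := by
    rw [← integral_sub_left_eq_self (fun u => ck (z - u) * dz f u) volume z]
    refine integral_congr_ae (Eventually.of_forall fun w => ?_)
    simp only [sub_sub_cancel]
  rw [e1]
  have hU : IsOpen {u : ℂ | u ≠ z} := isOpen_ne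
  have ht : Test {u : ℂ | u ≠ z} f := ⟨hf, hc, fun u hu => hne u (hs hu)⟩
  have e2 := integral_mul_dz hU ht (contDiffOn_ker z)
  have e3 : ∫ u, ck (z - u) * dz f u = ∫ u, dz f u * ck (z - u) :=
    integral_congr_ae (Eventually.of_forall fun w => mul_comm _ _)
  have e4 : ∫ u, f u * dz (fun u => ck (z - u)) u = ∫ u, f u * k' z u := by
    refine integral_congr_ae (Eventually.of_forall fun u => ?_)
    by_cases hu : u ∈ Metric.closedBall c r
    · simp only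
      rw [dz_ker (sub_ne_zero.2 (Ne.symm (hne u hu)))]
    · have : f u = 0 := image_eq_zero_of_notMem_tsupport fun h => hu (hs h)
      simp only [this, zero_mul]
  rw [e3, ← e4, e2, neg_neg]

theorem ker_bound {a b : ℂ} {r : ℝ} (hr : 0 < r) (hb : ‖b‖ ≤ r) (ha : 2 * r ≤ ‖a‖) :
    ‖((a - b) ^ 2)⁻¹ - (a ^ 2)⁻¹‖ ≤ 10 * r / ‖a‖ ^ 3 := by
  have ha0 : 0 < ‖a‖ := by linarith
  have ha1 : a ≠ 0 := norm_pos_iff.1 ha0
  have hab : ‖a‖ / 2 ≤ ‖a - b‖ := by
    have := norm_sub_norm_le a b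
    linarith
  have hab0 : 0 < ‖a - b‖ := by linarith
  have hab1 : a - b ≠ 0 := norm_pos_iff.1 hab0
  have e : ((a - b) ^ 2)⁻¹ - (a ^ 2)⁻¹ = b * (a + (a - b)) * (((a - b) ^ 2)⁻¹ * (a ^ 2)⁻¹) := by
    field_simp
    ring
  rw [e, norm_mul, norm_mul, norm_mul, norm_inv, norm_inv, norm_pow, norm_pow]
  have h1 : ‖a + (a - b)‖ ≤ 5 / 2 * ‖a‖ := by
    have h2 := norm_add_le a (a - b)
    have h3 := norm_sub_le a b
    linarith
  have h4 : (‖a - b‖ ^ 2)⁻¹ ≤ ((‖a‖ / 2) ^ 2)⁻¹ := by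
    gcongr
  calc ‖b‖ * ‖a + (a - b)‖ * ((‖a - b‖ ^ 2)⁻¹ * (‖a‖ ^ 2)⁻¹)
      ≤ r * (5 / 2 * ‖a‖) * (((‖a‖ / 2) ^ 2)⁻¹ * (‖a‖ ^ 2)⁻¹) := by gcongr
    _ = 10 * r / ‖a‖ ^ 3 := by
        field_simp
        ring

theorem norm_beu_le {f : ℂ → ℂ} {c z : ℂ} {r : ℝ} (hf : ContDiff ℝ ∞ f) (hr : 0 < r)
    (hs : tsupport f ⊆ Metric.closedBall c r) (h0 : ∫ z, f z = 0) (hz : 2 * r ≤ ‖z - c‖) :
    ‖beu f z‖ ≤ 10 * r / (π * ‖z - c‖ ^ 3) * ∫ u, ‖f u‖ := by
  have hc : HasCompactSupport f :=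
    IsCompact.of_isClosed_subset (isCompact_closedBall c r) (isClosed_tsupport f) hs
  have hfi : Integrable f := hf.continuous.integrable_of_hasCompactSupport hc
  have hz0 : 0 < ‖z - c‖ := by linarith
  have hb : ∀ u, ‖f u * (k' z u - k' z c)‖ ≤ 10 * r / (π * ‖z - c‖ ^ 3) * ‖f u‖ := by
    intro u
    by_cases hu : u ∈ Metric.closedBall c r
    · rw [norm_mul, mul_comm]
      refine mul_le_mul_of_nonneg_right ?_ (norm_nonneg _)
      have e : k' z u - k' z c = (π : ℂ)⁻¹ * ((((z - c) - (u - c)) ^ 2)⁻¹ - ((z - c) ^ 2)⁻¹) := by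
        unfold k'
        rw [mul_sub]
        congr 3
        ring
      rw [e, norm_mul, norm_inv, Complex.norm_real, Real.norm_of_nonneg Real.pi_pos.le]
      have h1 := ker_bound (a := z - c) (b := u - c) hr
        (by rwa [Metric.mem_closedBall, dist_eq_norm] at hu) hz
      calc π⁻¹ * ‖(((z - c) - (u - c)) ^ 2)⁻¹ - ((z - c) ^ 2)⁻¹‖
          ≤ π⁻¹ * (10 * r / ‖z - c‖ ^ 3) := by
            have := Real.pi_pos
            gcongr
        _ = 10 * r / (π * ‖z - c‖ ^ 3) := by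
            have := Real.pi_pos
            field_simp
    · have : f u = 0 := image_eq_zero_of_notMem_tsupport fun h => hu (hs h)
      rw [this]
      simp
  have hgi : Integrable (fun u => 10 * r / (π * ‖z - c‖ ^ 3) * ‖f u‖) := hfi.norm.const_mul _
  have hm : AEStronglyMeasurable (fun u => f u * (k' z u - k' z c)) volume :=
    (hf.continuous.measurable.mul ((measurable_k' z).sub measurable_const)).aestronglyMeasurable
  have hhi : Integrable (fun u => f u * (k' z u - k' z c)) :=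
    hgi.mono' hm (Eventually.of_forall hb)
  have e1 : ∫ u, f u * k' z u = ∫ u, f u * (k' z u - k' z c) := by
    have e2 : ∀ u, f u * k' z u = f u * (k' z u - k' z c) + f u * k' z c := fun u => by ring
    simp_rw [e2]
    rw [integral_add hhi (hfi.mul_const _), integral_mul_const, h0, zero_mul, add_zero]
  rw [beu_eq hf hr hs hz, norm_neg, e1, ← integral_const_mul]
  exact norm_integral_le_of_norm_le hgi (Eventually.of_forall hb)

/-- a majorant -/
def Gmaj (w : ℂ) : ℝ := 4 * (1 + ‖w‖) ^ (-(3 : ℝ))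

theorem Gmaj_nonneg (w : ℂ) : 0 ≤ Gmaj w := by
  unfold Gmaj
  positivity

theorem Gmaj_int : Integrable Gmaj := by
  unfold Gmaj
  refine Integrable.const_mul (integrable_one_add_norm ?_) 4
  rw [Complex.finrank_real_complex]
  norm_num

theorem Gmaj_ge {w : ℂ} (h : 2 ≤ ‖w‖) : (‖w‖ ^ 3)⁻¹ ≤ Gmaj w := by
  unfold Gmaj
  have h0 : 0 < ‖w‖ := by linarith
  have h1 : (0 : ℝ) < 1 + ‖w‖ := by linarith
  have e : (1 + ‖w‖) ^ (-(3 : ℝ)) = ((1 + ‖w‖) ^ 3)⁻¹ := by
    rw [Real.rpow_neg h1.le]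
    congr 1
    exact_mod_cast Real.rpow_natCast (1 + ‖w‖) 3
  rw [e, ← div_eq_mul_inv, inv_eq_one_div, div_le_div_iff₀ (by positivity) (by positivity)]
  have h2 : (1 + ‖w‖) ^ 3 ≤ (3 / 2 * ‖w‖) ^ 3 := by
    gcongr
    linarith
  have h3 : 0 < ‖w‖ ^ 3 := by positivity
  nlinarith

end BLK

open BLK in
theorem bLK : StmtBLK := by
  have hJ : 0 ≤ ∫ w, Gmaj w := integral_nonneg Gmaj_nonneg
  have hpi := Real.pi_pos
  refine ⟨10 / π * (∫ w, Gmaj w) + 1, by positivity, ?_⟩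
  intro f c r hf hr hs h0
  set F : ℝ := ∫ u, ‖f u‖ with hF
  have hF0 : 0 ≤ F := integral_nonneg fun _ => norm_nonneg _
  set K : ℝ := 10 / (π * r ^ 2) * F with hK
  have hK0 : 0 ≤ K := by positivity
  have hpt : ∀ z ∈ {z : ℂ | 2 * r ≤ ‖z - c‖}, ‖beu f z‖ ≤ K * Gmaj (r⁻¹ • (z - c)) := by
    intro z hz
    have hz' : 2 * r ≤ ‖z - c‖ := hz
    have h1 := norm_beu_le hf hr hs h0 hz'
    have hz0 : 0 < ‖z - c‖ := by linarith
    have hw : ‖r⁻¹ • (z - c)‖ = ‖z - c‖ / r := by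
      rw [norm_smul, norm_inv, Real.norm_of_nonneg hr.le]
      ring
    have h2 : 2 ≤ ‖r⁻¹ • (z - c)‖ := by
      rw [hw, le_div_iff₀ hr]
      exact hz'
    have h3 := Gmaj_ge h2
    refine h1.trans ?_
    have e : 10 * r / (π * ‖z - c‖ ^ 3) * ∫ u, ‖f u‖ = K * (‖r⁻¹ • (z - c)‖ ^ 3)⁻¹ := by
      rw [hw, hK, ← hF]
      field_simp
    rw [e]
    exact mul_le_mul_of_nonneg_left h3 hK0
  have hGi : Integrable (fun z => K * Gmaj (r⁻¹ • (z - c))) :=
    ((Gmaj_int.comp_smul (inv_ne_zero hr.ne')).comp_sub_right c).const_mul K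
  have hmeas : MeasurableSet {z : ℂ | 2 * r ≤ ‖z - c‖} :=
    (isClosed_le continuous_const (by fun_prop)).measurableSet
  have hval : ∫ z, K * Gmaj (r⁻¹ • (z - c)) = K * (r ^ 2 * ∫ w, Gmaj w) := by
    rw [integral_const_mul]
    congr 1
    rw [integral_sub_right_eq_self (fun z => Gmaj (r⁻¹ • z)) c,
      Measure.integral_comp_inv_smul_of_nonneg volume Gmaj hr.le, Complex.finrank_real_complex,
      smul_eq_mul]
  calc ∫⁻ z in {z | 2 * r ≤ ‖z - c‖}, ENNReal.ofReal ‖beu f z‖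
      ≤ ∫⁻ z in {z | 2 * r ≤ ‖z - c‖}, ENNReal.ofReal (K * Gmaj (r⁻¹ • (z - c))) :=
        setLIntegral_mono' hmeas fun z hz => ENNReal.ofReal_le_ofReal (hpt z hz)
    _ ≤ ∫⁻ z, ENNReal.ofReal (K * Gmaj (r⁻¹ • (z - c))) := setLIntegral_le_lintegral _ _
    _ = ENNReal.ofReal (∫ z, K * Gmaj (r⁻¹ • (z - c))) :=
        (ofReal_integral_eq_lintegral_ofReal hGi
          (Eventually.of_forall fun z => mul_nonneg hK0 (Gmaj_nonneg _))).symm
    _ ≤ ENNReal.ofReal ((10 / π * (∫ w, Gmaj w) + 1) * ∫ z, ‖f z‖) := by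
        refine ENNReal.ofReal_le_ofReal ?_
        rw [hval, ← hF, hK]
        have e : 10 / (π * r ^ 2) * F * (r ^ 2 * ∫ w, Gmaj w) = 10 / π * (∫ w, Gmaj w) * F := by
          field_simp
        rw [e, add_mul]
        linarith

end

end BSL
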