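import Pool.Agent.BSL.POSW

/-!
# Theorem B, local theory: the three-jet integrals with weights (helper67)
-/

open Complex MeasureTheory Filter Topology Set
open scoped ContDiff

namespace BSL

open QE hiding E jet P
open QJ U3

noncomputable section

variable {V : Set ℂ} {σ : ℂ → ℝ} {h : ℕ → ℝ} {φ : ℕ → ℂ → ℂ} {θ : ℕ → ℂ → ℝ} {u : ℤ → ℂ → ℂ}

/-- the Wick sums in the third order argument -/
theorem norm_gam_third (L : LocB V σ h φ) (J : JL V σ h φ u) {ρ : ℂ → ℝ}
    (hρ : Test V (fun z => (ρ z : ℂ))) (hρ0 : ∀ z, 0 ≤ ρ z) (t s : ℤ) :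
    ‖Gam u (fun z => (ρ z : ℂ)) t (-3 - t) (-s) (3 + s)‖ ≤ UU u ρ (t - s) + UU u ρ (t + s + 3) := by
  have hc := J.conj_all L
  have h3 := J.odd L.op (-3) (by decide)
  have hb : ∀ᵐ z ∂((volume : Measure ℂ).restrict V), ‖GW u t (-3 - t) (-s) (3 + s) z‖
      ≤ ‖u (t - s) z‖ ^ 2 + ‖u (t + s + 3) z‖ ^ 2 := by
    filter_upwards [hc, h3] with z hz h3z
    unfold GW WW
    have e1 : t + (-3 - t) = -3 := by ring
    have e2 : t + -s = t - s := by ring
    have e3 : -3 - t + (3 + s) = -(t - s) := by ring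
    have e4 : t + (3 + s) = t + s + 3 := by ring
    have e5 : -3 - t + -s = -(t + s + 3) := by ring
    rw [e1, e2, e3, e4, e5, h3z, hz, hz]
    have hn : ∀ k : ℤ, ‖(-1 : ℂ) ^ k‖ = 1 := fun k => by rw [norm_zpow, norm_neg, norm_one, one_zpow]
    refine (norm_add_le _ _).trans ?_
    rw [mul_zero, zero_mul, zero_add]
    simp only [norm_mul, hn, RCLike.norm_conj, one_mul]
    rw [← pow_two, ← pow_two]
  have i1 := hρ.int_sq (J.loc (t - s))
  have i2 := hρ.int_sq (J.loc (t + s + 3))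
  unfold Gam UU
  rw [← integral_add i1 i2]
  refine norm_integral_le_of_norm_le (i1.add i2) ?_
  rw [ae_restrict_iff' L.op.measurableSet] at hb
  filter_upwards [hb] with z hz
  rw [norm_mul, Complex.norm_real, Real.norm_of_nonneg (hρ0 z)]
  by_cases hzU : z ∈ V
  · have := mul_le_mul_of_nonneg_left (hz hzU) (hρ0 z)
    linarith
  · simp [off_real hρ hzU]

/-- CUBW: **the three-jet integrals with weights tend to zero** -/
theorem cubW (hM : StmtMacW) : StmtCubW := by
  intro V σ h φ θ u W J hNA ζ hζ j m k hs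
  have L := W.toLocB
  have s3 : ∀ (n : ℕ) (j m k : ℤ), ContDiff ℝ ∞ (fun z => (θ n z : ℂ) * (E σ h φ j n z
      * E σ h φ m n z * E σ h φ k n z)) := fun n j m k =>
    (contDiff_ofR (W.smθ n)).mul (((smE L j n).mul (smE L m n)).mul (smE L k n))
  refine Test.induct_nonneg L.op (F := fun n ζ => E3w σ h φ θ ζ n j m k) ?_ ?_ ?_ hζ
  · intro n ζ ξ hζ hξ
    unfold E3w
    rw [Test.int_add L.op (s3 n j m k).contDiffOn hζ hξ]
  · intro n c ζ _
    unfold E3w
    rw [Test.int_smul]
  · intro ρ hρ hρ0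
    have hρc : Continuous ρ := by
      have := Complex.continuous_re.comp hρ.smooth.continuous
      simpa [Function.comp_def] using this
    have hρi : ∀ (f : ℂ → ℝ), Continuous f → Integrable (fun z => ρ z * f z) := by
      intro f hf
      exact integrable_mul_of_tsupport L.op hρc (by
        unfold HasCompactSupport; rw [← Test.tsupport_eq]; exact hρ.supp) (by
          rw [← Test.tsupport_eq]; exact hρ.sub) hf.continuousOn
    -- the second moments of `E 3` are bounded
    have hV3 := J.lim 3 (-3) (fun z => (ρ z : ℂ)) hρ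
    obtain ⟨C, hC⟩ : ∃ C : ℝ, ∀ᶠ n in atTop,
        ‖∫ z, (ρ z : ℂ) * (E σ h φ 3 n z * E σ h φ (-3) n z)‖ ≤ C := by
      refine ⟨‖∫ z, (ρ z : ℂ) * ((-1) ^ (-3 : ℤ) * u (3 + -3) z)‖ + 1, ?_⟩
      have h1 := (Metric.tendsto_nhds.mp hV3) 1 one_pos
      filter_upwards [h1] with n hn
      rw [dist_eq_norm] at hn
      have h2 := norm_sub_norm_le (∫ z, (ρ z : ℂ) * (E σ h φ 3 n z * E σ h φ (-3) n z))
        (∫ z, (ρ z : ℂ) * ((-1) ^ (-3 : ℤ) * u (3 + -3) z))
      linarith
    have key := alg_third_var (C := |C|) (V := fun n => ∫ z, ρ z * ‖E σ h φ 3 n z‖ ^ 2)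
      (X := E4w σ h φ θ (fun z => (ρ z : ℂ)))
      (W := Yw σ h φ θ u (fun z => (ρ z : ℂ))) (Γ := Gam u (fun z => (ρ z : ℂ)))
      (Y := E3w σ h φ θ (fun z => (ρ z : ℂ)))
      (abs_nonneg C) ?_ (yw_12 W.op J hρ) (yw_23 W.op J hρ) (yw_mac hM W J hρ) ?_ ?_ ?_ ?_ ?_ ?_ ?_
      ?_ j m k hs
    · exact key
    · intro n j m k l
      unfold Yw
      ring
    · have h4 := yw_ibp W J hρ 0 0 0 (-1)
      refine h4.congr fun n => ?_
      simp only [zero_add, neg_add_cancel]
    · intro n j m k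
      exact e3w_12 _ n j m k
    · intro n j m k
      exact e3w_23 _ n j m k
    · intro j m k
      exact (ibpW V σ h φ θ W _ hρ).2.1 j m k
    · intro j m k
      exact (ibpW V σ h φ θ W _ hρ).2.2 j m k
    · filter_upwards [hC] with n hn
      have e1 : ((∫ z, ρ z * ‖E σ h φ 3 n z‖ ^ 2 : ℝ) : ℂ)
          = - ∫ z, (ρ z : ℂ) * (E σ h φ 3 n z * E σ h φ (-3) n z) := by
        rw [← integral_neg]
        have e0 : ((∫ z, ρ z * ‖E σ h φ 3 n z‖ ^ 2 : ℝ) : ℂ)
            = ∫ z, ((ρ z * ‖E σ h φ 3 n z‖ ^ 2 : ℝ) : ℂ) := integral_ofReal.symm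
        rw [e0]
        refine integral_congr_ae (Filter.Eventually.of_forall fun z => ?_)
        have h1 := conj_EB L 3 n z
        rw [show ((-1 : ℂ) ^ (3 : ℤ)) = -1 by norm_num] at h1
        have h2 : ((‖E σ h φ 3 n z‖ ^ 2 : ℝ) : ℂ) = -(E σ h φ 3 n z * E σ h φ (-3) n z) := by
          rw [← Complex.normSq_eq_norm_sq, ← mul_conj, h1]
          ring
        beta_reduce
        rw [ofReal_mul, h2]
        ring
      have e3 : |∫ z, ρ z * ‖E σ h φ 3 n z‖ ^ 2| ≤ C := by
        rw [← Real.norm_eq_abs, ← Complex.norm_real, e1, norm_neg]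
        exact hn
      exact (le_abs_self _).trans (e3.trans (le_abs_self C))
    · intro N n w l hl
      set T : ℂ → ℂ := fun z => ∑ t ∈ Finset.range N, (w t : ℂ) * (E σ h φ t n z
        * E σ h φ (-3 - t) n z) with hT
      have hTs : Continuous T :=
        continuous_finsetSum _ fun t _ => continuous_const.mul
          ((smE L t n).continuous.mul (smE L (-3 - t) n).continuous)
      have hθc : Continuous fun z => (θ n z : ℂ) := (contDiff_ofR (W.smθ n)).continuous
      have e1 : ∑ t ∈ Finset.range N, (w t : ℂ) * E3w σ h φ θ (fun z => (ρ z : ℂ)) n t (-3 - t) 3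
          = ∫ z, (ρ z : ℂ) * (((θ n z : ℂ) * T z) * E σ h φ 3 n z) := by
        unfold E3w
        simp only [← integral_const_mul]
        rw [← integral_finsetSum _ (fun t _ => (int3w W hρ n _ _ _).const_mul _)]
        refine MeasureTheory.integral_congr_ae (Filter.Eventually.of_forall fun z => ?_)
        beta_reduce
        rw [hT]
        beta_reduce
        rw [Finset.mul_sum, Finset.sum_mul, Finset.mul_sum]
        refine Finset.sum_congr rfl fun t _ => ?_
        ring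
      have e2 : ((∫ z, ρ z * ‖(θ n z : ℂ) * T z‖ ^ 2 : ℝ) : ℂ) = -∑ t ∈ Finset.range N,
          ∑ u ∈ Finset.range N, (w t : ℂ) * (w u : ℂ)
            * E4w σ h φ θ (fun z => (ρ z : ℂ)) n t (-3 - t) (-u) (3 + u) := by
        unfold E4w
        have e0 : ((∫ z, ρ z * ‖(θ n z : ℂ) * T z‖ ^ 2 : ℝ) : ℂ)
            = ∫ z, ((ρ z * ‖(θ n z : ℂ) * T z‖ ^ 2 : ℝ) : ℂ) := integral_ofReal.symm
        rw [e0]
        have e3 : ∀ z, ((ρ z * ‖(θ n z : ℂ) * T z‖ ^ 2 : ℝ) : ℂ)
            = (ρ z : ℂ) * -∑ t ∈ Finset.range N, ∑ u ∈ Finset.range N, (w t : ℂ) * (w u : ℂ)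
            * ((θ n z : ℂ) ^ 2 * (E σ h φ t n z * E σ h φ (-3 - t) n z
              * (E σ h φ (-u) n z * E σ h φ (3 + u) n z))) := by
          intro z
          rw [ofReal_mul]
          congr 1
          rw [← Complex.normSq_eq_norm_sq, ← mul_conj, hT]
          beta_reduce
          rw [map_mul, conj_ofReal, map_sum]
          have e5 : (θ n z : ℂ) * (∑ t ∈ Finset.range N, (w t : ℂ) * (E σ h φ t n z
              * E σ h φ (-3 - t) n z)) * ((θ n z : ℂ) * ∑ x ∈ Finset.range N,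
              (starRingEnd ℂ) ((w x : ℂ) * (E σ h φ x n z * E σ h φ (-3 - x) n z)))
              = (θ n z : ℂ) ^ 2 * ((∑ t ∈ Finset.range N, (w t : ℂ) * (E σ h φ t n z
              * E σ h φ (-3 - t) n z)) * ∑ x ∈ Finset.range N,
              (starRingEnd ℂ) ((w x : ℂ) * (E σ h φ x n z * E σ h φ (-3 - x) n z))) := by ring
          rw [e5, Finset.sum_mul_sum, ← Finset.sum_neg_distrib, Finset.mul_sum]
          refine Finset.sum_congr rfl fun t _ => ?_
          rw [← Finset.sum_neg_distrib, Finset.mul_sum]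
          refine Finset.sum_congr rfl fun u _ => ?_
          rw [map_mul, map_mul, conj_EB L, conj_EB L, conj_ofReal]
          have h1 : (-1 : ℂ) ^ ((u : ℕ) : ℤ) * (-1 : ℂ) ^ (-3 - (u : ℤ)) = -1 := by
            rw [← zpow_add₀ (by norm_num)]
            have : ((u : ℕ) : ℤ) + (-3 - (u : ℤ)) = -3 := by ring
            rw [this]; norm_num
          have h2 : -(-3 - (u : ℤ)) = 3 + u := by ring
          rw [h2]
          linear_combination ((θ n z : ℂ) ^ 2 * (w t : ℂ) * (w u : ℂ) * (E σ h φ t n z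
            * E σ h φ (-3 - t) n z) * (E σ h φ (-u) n z * E σ h φ (3 + u) n z)) * h1
        simp only [e3]
        simp only [← integral_const_mul]
        rw [← Finset.sum_neg_distrib]
        have e4 : ∀ t ∈ Finset.range N, -∑ u ∈ Finset.range N, ∫ z, (w t : ℂ) * (w u : ℂ)
            * ((ρ z : ℂ) * ((θ n z : ℂ) ^ 2 * (E σ h φ t n z * E σ h φ (-3 - t) n z
            * (E σ h φ (-u) n z * E σ h φ (3 + u) n z))))
            = ∫ z, -∑ u ∈ Finset.range N, (w t : ℂ) * (w u : ℂ)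
            * ((ρ z : ℂ) * ((θ n z : ℂ) ^ 2 * (E σ h φ t n z * E σ h φ (-3 - t) n z
            * (E σ h φ (-u) n z * E σ h φ (3 + u) n z)))) := by
          intro t _
          rw [integral_neg, integral_finsetSum _ (fun u _ => (int4w W hρ n _ _ _ _).const_mul _)]
        have i5 : ∀ t ∈ Finset.range N, Integrable (fun z => -∑ u ∈ Finset.range N,
            (w t : ℂ) * (w u : ℂ) * ((ρ z : ℂ) * ((θ n z : ℂ) ^ 2 * (E σ h φ t n z
            * E σ h φ (-3 - t) n z * (E σ h φ (-u) n z * E σ h φ (3 + u) n z))))) := fun t _ =>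
          (integrable_finsetSum _ (fun u _ => (int4w W hρ n _ _ _ _).const_mul _)).neg
        rw [Finset.sum_congr rfl e4, ← integral_finsetSum _ i5]
        refine MeasureTheory.integral_congr_ae (Filter.Eventually.of_forall fun z => ?_)
        beta_reduce
        rw [Finset.sum_neg_distrib, mul_neg, Finset.mul_sum]
        congr 1
        refine Finset.sum_congr rfl fun t _ => ?_
        rw [Finset.mul_sum]
        refine Finset.sum_congr rfl fun u _ => ?_
        ring
      have e2' : (-∑ t ∈ Finset.range N, ∑ u ∈ Finset.range N, (w t : ℂ) * (w u : ℂ)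
            * E4w σ h φ θ (fun z => (ρ z : ℂ)) n t (-3 - t) (-u) (3 + u)).re
          = ∫ z, ρ z * ‖(θ n z : ℂ) * T z‖ ^ 2 := by
        rw [← e2, ofReal_re]
      rw [e1, e2']
      have i1 : Integrable (fun z => ρ z * ‖E σ h φ 3 n z‖ ^ 2) :=
        hρi _ ((smE L 3 n).continuous.norm.pow 2)
      have i2 : Integrable (fun z => ρ z * ‖(θ n z : ℂ) * T z‖ ^ 2) :=
        hρi _ ((hθc.mul hTs).norm.pow 2)
      calc ‖∫ z, (ρ z : ℂ) * (((θ n z : ℂ) * T z) * E σ h φ 3 n z)‖
          ≤ ∫ z, ‖(ρ z : ℂ) * (((θ n z : ℂ) * T z) * E σ h φ 3 n z)‖ :=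
            norm_integral_le_integral_norm _
        _ ≤ ∫ z, (l * (ρ z * ‖E σ h φ 3 n z‖ ^ 2) + l⁻¹ * (ρ z * ‖(θ n z : ℂ) * T z‖ ^ 2)) / 2 := by
            refine integral_mono_of_nonneg (Filter.Eventually.of_forall fun z => norm_nonneg _)
              (((i1.const_mul l).add (i2.const_mul l⁻¹)).div_const 2)
              (Filter.Eventually.of_forall fun z => ?_)
            beta_reduce
            rw [norm_mul, norm_mul ((θ n z : ℂ) * T z), Complex.norm_real,
              Real.norm_of_nonneg (hρ0 z)]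
            have h1 : ‖(θ n z : ℂ) * T z‖ * ‖E σ h φ 3 n z‖
                ≤ (l * ‖E σ h φ 3 n z‖ ^ 2 + l⁻¹ * ‖(θ n z : ℂ) * T z‖ ^ 2) / 2 := by
              have h2 : 0 ≤ l⁻¹ * (l * ‖E σ h φ 3 n z‖ - ‖(θ n z : ℂ) * T z‖) ^ 2 := by positivity
              have h3 : l⁻¹ * (l * ‖E σ h φ 3 n z‖ - ‖(θ n z : ℂ) * T z‖) ^ 2
                  = l * ‖E σ h φ 3 n z‖ ^ 2 - 2 * (‖(θ n z : ℂ) * T z‖ * ‖E σ h φ 3 n z‖)
                    + l⁻¹ * ‖(θ n z : ℂ) * T z‖ ^ 2 := by
                field_simp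
                ring
              rw [h3] at h2
              linarith
            have := mul_le_mul_of_nonneg_left h1 (hρ0 z)
            linarith
        _ = (l * (∫ z, ρ z * ‖E σ h φ 3 n z‖ ^ 2)
              + l⁻¹ * ∫ z, ρ z * ‖(θ n z : ℂ) * T z‖ ^ 2) / 2 := by
            rw [integral_div, integral_add (i1.const_mul l) (i2.const_mul l⁻¹),
              integral_const_mul, integral_const_mul]
    · -- the Wick sums
      intro η hη
      obtain ⟨N₀, hN₀⟩ := (Metric.tendsto_atTop.1 (hNA ρ hρ hρ0)) (η / 8) (by positivity)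
      refine ⟨N₀ + 1, fun N hNN w hw => ?_⟩
      have hN1 : (1 : ℝ) ≤ N := by exact_mod_cast (by omega : 1 ≤ N)
      have hwn : ∀ t, ‖(w t : ℂ)‖ ≤ 1 := fun t => by
        rw [Complex.norm_real, Real.norm_eq_abs]; exact hw t
      have b1 : ‖∑ t ∈ Finset.range N, ∑ s ∈ Finset.range N,
          (w t : ℂ) * (w s : ℂ) * Gam u (fun z => (ρ z : ℂ)) t (-3 - t) (-s) (3 + s)‖
          ≤ ∑ t ∈ Finset.range N, ∑ s ∈ Finset.range N, (UU u ρ ((t : ℤ) - s)
            + UU u ρ ((t : ℤ) + s + 3)) := by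
        refine (norm_sum_le _ _).trans (Finset.sum_le_sum fun t _ => ?_)
        refine (norm_sum_le _ _).trans (Finset.sum_le_sum fun s _ => ?_)
        rw [norm_mul, norm_mul]
        calc ‖(w t : ℂ)‖ * ‖(w s : ℂ)‖ * ‖Gam u (fun z => (ρ z : ℂ)) t (-3 - t) (-s) (3 + s)‖
            ≤ 1 * 1 * (UU u ρ ((t : ℤ) - s) + UU u ρ ((t : ℤ) + s + 3)) := by
              gcongr
              · exact hwn t
              · exact hwn s
              · exact norm_gam_third L J hρ hρ0 t s
          _ = _ := by ring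
      refine b1.trans ((sum_diff_le (fun k => UU_nonneg hρ0 k) N).trans ?_)
      set Tot := ∑ k ∈ Finset.Ioo (-((2 * N + 2 : ℕ) : ℤ)) ((2 * N + 2 : ℕ) : ℤ), UU u ρ k with hTot
      have h1 := hN₀ (2 * N + 2) (by omega)
      rw [dist_zero_right, Real.norm_eq_abs] at h1
      have h2 := (le_abs_self _).trans h1.le
      have hpos : (0 : ℝ) < ((2 * N + 2 : ℕ) : ℝ) := by positivity
      have h3 : Tot ≤ η / 8 * ((2 * N + 2 : ℕ) : ℝ) := by
        have h4 : (1 / ((2 * N + 2 : ℕ) : ℝ)) * Tot ≤ η / 8 := h2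
        rw [one_div, inv_mul_le_iff₀ hpos] at h4
        linarith
      calc 2 * (N : ℝ) * Tot ≤ 2 * N * (η / 8 * ((2 * N + 2 : ℕ) : ℝ)) := by gcongr
        _ ≤ 2 * N * (η / 8 * (4 * N)) := by
            gcongr
            push_cast
            linarith
        _ = η * (N : ℝ) ^ 2 := by ring

end

end BSL
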