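import Pool.Agent.BSL.St1

/-!
# CZD: finite dyadic Calderon-Zygmund decomposition of a smooth function
-/

open Complex MeasureTheory Filter Topology Set
open scoped ContDiff

namespace BSL

namespace CZD

noncomputable section

theorem mem_Sq {c : ℂ} {l : ℝ} {z : ℂ} :
    z ∈ Sq c l ↔ c.re ≤ z.re ∧ z.re < c.re + l ∧ c.im ≤ z.im ∧ z.im < c.im + l := Iff.rfl

theorem Sq_eq (c : ℂ) (l : ℝ) :
    Sq c l = Complex.measurableEquivRealProd ⁻¹'
      (Ico c.re (c.re + l) ×ˢ Ico c.im (c.im + l)) := by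
  ext z
  rw [mem_Sq, mem_preimage, mem_prod, mem_Ico, mem_Ico]
  simp only [Complex.measurableEquivRealProd_apply]
  tauto

theorem meas_Sq (c : ℂ) (l : ℝ) : MeasurableSet (Sq c l) := by
  rw [Sq_eq]
  exact Complex.measurableEquivRealProd.measurable (measurableSet_Ico.prod measurableSet_Ico)

theorem vol_Sq (c : ℂ) (l : ℝ) :
    (volume : Measure ℂ) (Sq c l) = ENNReal.ofReal l * ENNReal.ofReal l := by
  rw [Sq_eq, Complex.volume_preserving_equiv_real_prod.measure_preimage
    (measurableSet_Ico.prod measurableSet_Ico).nullMeasurableSet, Measure.volume_eq_prod,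
    Measure.prod_prod, Real.volume_Ico, Real.volume_Ico]
  congr 2 <;> ring

theorem fin_Sq (c : ℂ) (l : ℝ) : (volume : Measure ℂ) (Sq c l) ≠ ⊤ := by
  rw [vol_Sq]
  exact ENNReal.mul_ne_top ENNReal.ofReal_ne_top ENNReal.ofReal_ne_top

theorem const_Sq (c : ℂ) {l : ℝ} (hl : 0 < l) (a : ℝ) : ∫ _z in Sq c l, a = a * l ^ 2 := by
  rw [setIntegral_const, measureReal_def, vol_Sq, ENNReal.toReal_mul, ENNReal.toReal_ofReal hl.le,
    smul_eq_mul]
  ring

/-- the corner of a child -/
def ch (c : ℂ) (l : ℝ) (p : Bool × Bool) : ℂ :=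
  ⟨c.re + (if p.1 then l / 2 else 0), c.im + (if p.2 then l / 2 else 0)⟩

theorem ch_sub (c : ℂ) {l : ℝ} (hl : 0 < l) (p : Bool × Bool) : Sq (ch c l p) (l / 2) ⊆ Sq c l := by
  intro z hz
  rw [mem_Sq] at hz ⊢
  obtain ⟨a, b⟩ := p
  cases a <;> cases b <;> simp only [ch, if_true, if_false, Bool.false_eq_true] at hz <;>
    refine ⟨?_, ?_, ?_, ?_⟩ <;> linarith [hz.1, hz.2.1, hz.2.2.1, hz.2.2.2]

theorem ch_disj (c : ℂ) {l : ℝ} (hl : 0 < l) {p q : Bool × Bool} (hpq : p ≠ q) :
    Disjoint (Sq (ch c l p) (l / 2)) (Sq (ch c l q) (l / 2)) := by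
  rw [Set.disjoint_left]
  intro z hz hz'
  rw [mem_Sq] at hz hz'
  apply hpq
  obtain ⟨a, b⟩ := p
  obtain ⟨a', b'⟩ := q
  cases a <;> cases b <;> cases a' <;> cases b' <;>
    simp only [ch, if_true, if_false, Bool.false_eq_true] at hz hz' <;> first
    | rfl
    | (exfalso; linarith [hz.1, hz.2.1, hz.2.2.1, hz.2.2.2, hz'.1, hz'.2.1, hz'.2.2.1, hz'.2.2.2])

theorem ch_cov (c : ℂ) {l : ℝ} {z : ℂ} (hz : z ∈ Sq c l) :
    ∃ p : Bool × Bool, z ∈ Sq (ch c l p) (l / 2) := by
  rw [mem_Sq] at hz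
  by_cases h1 : z.re < c.re + l / 2 <;> by_cases h2 : z.im < c.im + l / 2
  · refine ⟨(false, false), ?_⟩
    rw [mem_Sq]
    simp only [ch, if_true, if_false, Bool.false_eq_true]
    refine ⟨?_, ?_, ?_, ?_⟩ <;> linarith [hz.1, hz.2.1, hz.2.2.1, hz.2.2.2]
  · refine ⟨(false, true), ?_⟩
    rw [mem_Sq]
    simp only [ch, if_true, if_false, Bool.false_eq_true]
    rw [not_lt] at h2
    refine ⟨?_, ?_, ?_, ?_⟩ <;> linarith [hz.1, hz.2.1, hz.2.2.1, hz.2.2.2]
  · refine ⟨(true, false), ?_⟩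
    rw [mem_Sq]
    simp only [ch, if_true, if_false, Bool.false_eq_true]
    rw [not_lt] at h1
    refine ⟨?_, ?_, ?_, ?_⟩ <;> linarith [hz.1, hz.2.1, hz.2.2.1, hz.2.2.2]
  · refine ⟨(true, true), ?_⟩
    rw [mem_Sq]
    simp only [ch, if_true, if_false, Bool.false_eq_true]
    rw [not_lt] at h1 h2
    refine ⟨?_, ?_, ?_, ?_⟩ <;> linarith [hz.1, hz.2.1, hz.2.2.1, hz.2.2.2]

/-- a selected family of squares inside `Sq c l` -/
structure Fam (f : ℂ → ℂ) (α : ℝ) (c : ℂ) (l : ℝ) (S : Finset (ℂ × ℝ)) : Prop where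
  pos : ∀ p ∈ S, 0 < p.2
  sub : ∀ p ∈ S, Sq p.1 p.2 ⊆ Sq c l
  low : ∀ p ∈ S, α * p.2 ^ 2 ≤ ∫ z in Sq p.1 p.2, ‖f z‖
  up : ∀ p ∈ S, ∫ z in Sq p.1 p.2, ‖f z‖ ≤ 4 * α * p.2 ^ 2
  dis : ∀ p ∈ S, ∀ q ∈ S, p ≠ q → Disjoint (Sq p.1 p.2) (Sq q.1 q.2)
  out : ∀ z ∈ Sq c l, (∀ p ∈ S, z ∉ Sq p.1 p.2) → ‖f z‖ ≤ 2 * α

theorem step {f : ℂ → ℂ} {α : ℝ} (hi : Integrable fun z => ‖f z‖) (hα : 0 < α) (J : ℕ) :
    ∀ (c : ℂ) (l : ℝ), 0 < l → ∫ z in Sq c l, ‖f z‖ ≤ α * l ^ 2 →
      (∀ z w : ℂ, |z.re - w.re| ≤ l / 2 ^ J → |z.im - w.im| ≤ l / 2 ^ J → ‖f z - f w‖ ≤ α) →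
      ∃ S : Finset (ℂ × ℝ), Fam f α c l S := by
  induction J with
  | zero =>
    intro c l hl hm hu
    refine ⟨∅, ?_, ?_, ?_, ?_, ?_, ?_⟩
    · intro p hp
      exact absurd hp (Finset.notMem_empty p)
    · intro p hp
      exact absurd hp (Finset.notMem_empty p)
    · intro p hp
      exact absurd hp (Finset.notMem_empty p)
    · intro p hp
      exact absurd hp (Finset.notMem_empty p)
    · intro p hp
      exact absurd hp (Finset.notMem_empty p)
    · intro z hz _
      by_contra hcon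
      rw [not_le] at hcon
      have h1 : ∀ w ∈ Sq c l, ‖f z‖ - α ≤ ‖f w‖ := by
        intro w hw
        rw [mem_Sq] at hz hw
        have h2 := hu z w (by
          rw [pow_zero, div_one, abs_le]
          constructor <;> linarith [hz.1, hz.2.1, hw.1, hw.2.1]) (by
          rw [pow_zero, div_one, abs_le]
          constructor <;> linarith [hz.2.2.1, hz.2.2.2, hw.2.2.1, hw.2.2.2])
        have h3 := norm_sub_norm_le (f z) (f w)
        linarith
      have h4 : ∫ _w in Sq c l, (‖f z‖ - α) ≤ ∫ w in Sq c l, ‖f w‖ :=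
        setIntegral_mono_on (integrableOn_const (fin_Sq c l)) hi.integrableOn (meas_Sq c l) h1
      rw [const_Sq c hl] at h4
      have h5 : α * l ^ 2 < (‖f z‖ - α) * l ^ 2 :=
        mul_lt_mul_of_pos_right (by linarith) (by positivity)
      linarith
  | succ J ih =>
    intro c l hl hm hu
    have hl2 : 0 < l / 2 := by linarith
    have key : ∀ p : Bool × Bool, ∃ S : Finset (ℂ × ℝ), Fam f α (ch c l p) (l / 2) S := by
      intro p
      by_cases hb : ∫ z in Sq (ch c l p) (l / 2), ‖f z‖ ≤ α * (l / 2) ^ 2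
      · refine ih _ _ hl2 hb fun z w h1 h2 => hu z w ?_ ?_
        · rw [pow_succ', ← div_div]
          exact h1
        · rw [pow_succ', ← div_div]
          exact h2
      · rw [not_le] at hb
        refine ⟨{(ch c l p, l / 2)}, ?_, ?_, ?_, ?_, ?_, ?_⟩
        · intro q hq
          rw [Finset.mem_singleton.1 hq]
          exact hl2
        · intro q hq
          rw [Finset.mem_singleton.1 hq]
        · intro q hq
          rw [Finset.mem_singleton.1 hq]
          exact hb.le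
        · intro q hq
          rw [Finset.mem_singleton.1 hq]
          have h1 : ∫ z in Sq (ch c l p) (l / 2), ‖f z‖ ≤ ∫ z in Sq c l, ‖f z‖ :=
            setIntegral_mono_set hi.integrableOn (Eventually.of_forall fun z => norm_nonneg _)
              (ch_sub c hl p).eventuallyLE
          show ∫ z in Sq (ch c l p) (l / 2), ‖f z‖ ≤ 4 * α * (l / 2) ^ 2
          have h2 : 4 * α * (l / 2) ^ 2 = α * l ^ 2 := by ring
          linarith
        · intro q hq q' hq' hne
          exact absurd ((Finset.mem_singleton.1 hq).trans (Finset.mem_singleton.1 hq').symm) hne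
        · intro z hz h1
          exact absurd hz (h1 _ (Finset.mem_singleton_self _))
    choose S hS using key
    classical
    refine ⟨Finset.univ.biUnion S, ?_, ?_, ?_, ?_, ?_, ?_⟩
    · intro q hq
      obtain ⟨p, -, hp⟩ := Finset.mem_biUnion.1 hq
      exact (hS p).pos q hp
    · intro q hq
      obtain ⟨p, -, hp⟩ := Finset.mem_biUnion.1 hq
      exact ((hS p).sub q hp).trans (ch_sub c hl p)
    · intro q hq
      obtain ⟨p, -, hp⟩ := Finset.mem_biUnion.1 hq
      exact (hS p).low q hp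
    · intro q hq
      obtain ⟨p, -, hp⟩ := Finset.mem_biUnion.1 hq
      exact (hS p).up q hp
    · intro q hq q' hq' hne
      obtain ⟨p, -, hp⟩ := Finset.mem_biUnion.1 hq
      obtain ⟨p', -, hp'⟩ := Finset.mem_biUnion.1 hq'
      by_cases hpp : p = p'
      · subst hpp
        exact (hS p).dis q hp q' hp' hne
      · exact (ch_disj c hl hpp).mono ((hS p).sub q hp) ((hS p').sub q' hp')
    · intro z hz h1
      obtain ⟨p, hp⟩ := ch_cov c hz
      exact (hS p).out z hp fun q hq => h1 q (Finset.mem_biUnion.2 ⟨p, Finset.mem_univ _, hq⟩)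

end

end CZD

open CZD in
theorem cZD : StmtCZD := by
  intro f α hf hfc hα
  have hcont : Continuous f := hf.continuous
  have hi : Integrable f := hcont.integrable_of_hasCompactSupport hfc
  have hin : Integrable fun z => ‖f z‖ := hi.norm
  obtain ⟨r, hr⟩ := hfc.isCompact.isBounded.subset_closedBall (0 : ℂ)
  set I : ℝ := ∫ z, ‖f z‖ with hI
  have hI0 : 0 ≤ I := integral_nonneg fun z => norm_nonneg _
  set L : ℝ := |r| + 1 + I / α with hL
  have hq : 0 ≤ I / α := div_nonneg hI0 hα.le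
  have hL1 : 1 ≤ L := by
    have := abs_nonneg r
    linarith
  have hLr : r < L := by
    have := le_abs_self r
    linarith
  have hLI : I ≤ α * (2 * L) ^ 2 := by
    have h1 : I = α * (I / α) := by field_simp
    have h2 : I / α ≤ (2 * L) ^ 2 := by
      have h3 : I / α ≤ L := by
        have := abs_nonneg r
        linarith
      nlinarith
    rw [h1]
    exact mul_le_mul_of_nonneg_left h2 hα.le
  have hL0 : 0 < 2 * L := by linarith
  obtain ⟨δ, hδ, hu⟩ := Metric.uniformContinuous_iff.1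
    (hfc.uniformContinuous_of_continuous hcont) α hα
  obtain ⟨J, hJ⟩ := pow_unbounded_of_one_lt (2 * (2 * L) / δ) (one_lt_two : (1 : ℝ) < 2)
  have hJ' : 2 * (2 * L / 2 ^ J) < δ := by
    rw [div_lt_iff₀ hδ] at hJ
    have h2 : (0 : ℝ) < 2 ^ J := by positivity
    rw [← mul_div_assoc, div_lt_iff₀ h2]
    linarith
  set c0 : ℂ := ⟨-L, -L⟩ with hc0
  have hm : ∫ z in Sq c0 (2 * L), ‖f z‖ ≤ α * (2 * L) ^ 2 :=
    (setIntegral_le_integral hin (Eventually.of_forall fun z => norm_nonneg _)).trans hLI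
  obtain ⟨S, hS⟩ := step hin hα J c0 (2 * L) hL0 hm (by
    intro z w h1 h2
    have h3 : dist z w < δ := by
      rw [dist_eq_norm]
      have h4 := Complex.norm_le_abs_re_add_abs_im (z - w)
      rw [Complex.sub_re, Complex.sub_im] at h4
      linarith
    have h5 := hu h3
    rw [dist_eq_norm] at h5
    exact h5.le)
  let e := S.equivFin
  refine ⟨S.card, fun i => (e.symm i : ℂ × ℝ).1, fun i => (e.symm i : ℂ × ℝ).2, ?_, ?_, ?_, ?_, ?_⟩
  · intro i
    exact hS.pos _ (e.symm i).2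
  · intro i j hij
    refine hS.dis _ (e.symm i).2 _ (e.symm j).2 fun h => hij ?_
    exact e.symm.injective (Subtype.ext h)
  · intro i
    exact hS.low _ (e.symm i).2
  · intro i
    exact hS.up _ (e.symm i).2
  · intro z hz
    by_cases hzQ : z ∈ Sq c0 (2 * L)
    · refine hS.out z hzQ fun p hp => ?_
      have h1 : z ∉ Sq (e.symm (e ⟨p, hp⟩) : ℂ × ℝ).1 (e.symm (e ⟨p, hp⟩) : ℂ × ℝ).2 :=
        hz (e ⟨p, hp⟩)
      rw [e.symm_apply_apply] at h1
      exact h1
    · have h1 : z ∉ tsupport f := by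
        intro h2
        apply hzQ
        have h3 := hr h2
        rw [mem_closedBall_zero_iff] at h3
        have h4 := (Complex.abs_re_le_norm z).trans (h3.trans hLr.le)
        have h5 := (Complex.abs_im_le_norm z).trans (h3.trans hLr.le)
        have h6 := (Complex.abs_re_le_norm z).trans_lt (h3.trans_lt hLr)
        have h7 := (Complex.abs_im_le_norm z).trans_lt (h3.trans_lt hLr)
        rw [abs_lt] at h6 h7
        rw [mem_Sq]
        refine ⟨?_, ?_, ?_, ?_⟩
        · show -L ≤ z.re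
          linarith [h6.1]
        · show z.re < -L + 2 * L
          linarith [h6.2]
        · show -L ≤ z.im
          linarith [h7.1]
        · show z.im < -L + 2 * L
          linarith [h7.2]
      rw [image_eq_zero_of_notMem_tsupport h1, norm_zero]
      linarith

end BSL
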