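import Pool.Agent.BSL.St1

/-!
# Module ERR: the error field is bounded in `L²_loc` and tends to zero in measure
-/

set_option autoImplicit false

open Complex MeasureTheory Filter Topology Set
open scoped ContDiff

namespace BSL

open QE QJ U3

noncomputable section

namespace ERR

/-- smooth with support in `K` -/
def Sm (K : Set ℂ) (f : ℂ → ℂ) : Prop := ContDiff ℝ ∞ f ∧ tsupport f ⊆ K

theorem Sm.hcs {K : Set ℂ} {f : ℂ → ℂ} (h : Sm K f) (hK : IsCompact K) : HasCompactSupport f :=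
  hK.of_isClosed_subset (isClosed_tsupport _) h.2

theorem Sm.mulL {K : Set ℂ} {θ : ℂ → ℝ} (hθ : ContDiff ℝ ∞ θ) {f : ℂ → ℂ} (hf : Sm K f) :
    Sm K (fun w => (θ w : ℂ) * f w) :=
  ⟨(Complex.ofRealCLM.contDiff.comp hθ).mul hf.1, tsupport_mul_subset_right.trans hf.2⟩

theorem cauchy_add' {K : Set ℂ} (hK : IsCompact K) {f g : ℂ → ℂ} (hf : Sm K f) (hg : Sm K g)
    (z : ℂ) : cauchy (fun w => f w + g w) z = cauchy f z + cauchy g z :=
  cauchy_add hf.1.continuous (hf.hcs hK) hg.1.continuous (hg.hcs hK) z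

theorem beu_add {K : Set ℂ} (hK : IsCompact K) {f g : ℂ → ℂ} (hf : Sm K f) (hg : Sm K g) (z : ℂ) :
    beu (fun w => f w + g w) z = beu f z + beu g z := by
  have h1 : cauchy (fun w => f w + g w) = fun w => cauchy f w + cauchy g w := by
    funext w
    exact cauchy_add' hK hf hg w
  unfold beu
  rw [h1]
  exact dz_add ((contDiff_cauchy hf.1 (hf.hcs hK)).differentiable (by simp) z)
    ((contDiff_cauchy hg.1 (hg.hcs hK)).differentiable (by simp) z)

theorem main_eq {K : Set ℂ} (hK : IsCompact K) {A B G : ℂ → ℂ} (hA : Sm K A) (hB : Sm K B)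
    (heq : ∀ z, dzb A z + dz B z = G z) (z : ℂ) : A z + beu B z = cauchy G z := by
  have h1 : beu B z = cauchy (dz B) z := dz_cauchy hB.1 (hB.hcs hK) z
  have h2 : cauchy (dzb A) z = A z := cauchy_dzb hA.1 (hA.hcs hK) z
  have h3 : Sm K (dzb A) := ⟨contDiff_dzb hA.1, (tsupport_dzb_subset A).trans hA.2⟩
  have h4 : Sm K (dz B) := ⟨contDiff_dz hB.1, (tsupport_dz_subset B).trans hB.2⟩
  rw [h1, ← h2, ← cauchy_add' hK h3 h4 z]
  congr 1
  funext w
  exact heq w

theorem split {θ : ℂ → ℝ} (f : ℂ → ℂ) :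
    (fun w => (θ w : ℂ) * f w + ((1 - θ w : ℝ) : ℂ) * f w) = f := by
  funext w
  push_cast
  ring

theorem err_eq {K : Set ℂ} (hK : IsCompact K) {θ : ℂ → ℝ} (hθ : ContDiff ℝ ∞ θ)
    {A B G : ℂ → ℂ} (hA : Sm K A) (hB : Sm K B) (hG : Sm K G)
    (heq : ∀ z, dzb A z + dz B z = G z) (z : ℂ) :
    (θ z : ℂ) * A z - cauchy (fun w => (θ w : ℂ) * G w) z + beu (fun w => (θ w : ℂ) * B w) z =
      -(((1 - θ z : ℝ) : ℂ) * A z) + cauchy (fun w => ((1 - θ w : ℝ) : ℂ) * G w) z
        - beu (fun w => ((1 - θ w : ℝ) : ℂ) * B w) z := by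
  have hθ' : ContDiff ℝ ∞ (fun w => 1 - θ w) := contDiff_const.sub hθ
  have h1 := main_eq hK hA hB heq z
  have h2 := cauchy_add' hK (hG.mulL hθ) (hG.mulL hθ') z
  have h3 := beu_add hK (hB.mulL hθ) (hB.mulL hθ') z
  rw [split] at h2 h3
  have h4 : ((1 - θ z : ℝ) : ℂ) * A z = A z - (θ z : ℂ) * A z := by
    push_cast
    ring
  rw [h4]
  rw [h2, h3] at h1
  linear_combination h1

theorem int_sq {f : ℂ → ℂ} (hf : Continuous f) (hc : HasCompactSupport f) :
    Integrable (fun z => ‖f z‖ ^ 2) := by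
  have : Continuous (fun z => ‖f z‖ ^ 2) := by fun_prop
  exact this.integrable_of_hasCompactSupport (hc.comp_left (g := fun w => ‖w‖ ^ 2) (by simp))

theorem sq_bound {K : Set ℂ} (hK : IsCompact K) {f : ℂ → ℂ} (hf : Continuous f)
    (hs : tsupport f ⊆ K) {T ε : ℝ}
    (h : ∫ z, (if T < ‖f z‖ then ‖f z‖ ^ 2 else 0) ≤ ε) :
    ∫ z, ‖f z‖ ^ 2 ≤ ε + T ^ 2 * (volume : Measure ℂ).real K := by
  have hc : HasCompactSupport f := hK.of_isClosed_subset (isClosed_tsupport _) hs
  have h2 := int_sq hf hc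
  have e : (fun z => if T < ‖f z‖ then ‖f z‖ ^ 2 else 0) =
      Set.indicator {z | T < ‖f z‖} (fun z => ‖f z‖ ^ 2) := by
    funext z
    by_cases hz : T < ‖f z‖
    · rw [if_pos hz, Set.indicator_of_mem (by exact hz)]
    · rw [if_neg hz, Set.indicator_of_notMem (by exact hz)]
  have h3 : Integrable (fun z => if T < ‖f z‖ then ‖f z‖ ^ 2 else 0) := by
    rw [e]
    exact h2.indicator (measurableSet_lt measurable_const hf.norm.measurable)
  have h4 : Integrable (K.indicator fun _ => (T ^ 2 : ℝ)) :=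
    (integrable_indicator_iff hK.measurableSet).mpr (integrableOn_const hK.measure_lt_top.ne)
  calc ∫ z, ‖f z‖ ^ 2
      ≤ ∫ z, ((if T < ‖f z‖ then ‖f z‖ ^ 2 else 0) + K.indicator (fun _ => (T ^ 2 : ℝ)) z) := by
        refine integral_mono h2 (h3.add h4) fun z => ?_
        simp only []
        by_cases hz : z ∈ K
        · rw [Set.indicator_of_mem hz]
          split_ifs with ht
          · nlinarith [sq_nonneg T]
          · rw [zero_add]
            exact pow_le_pow_left₀ (norm_nonneg _) (not_lt.1 ht) 2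
        · have : f z = 0 := image_eq_zero_of_notMem_tsupport fun hh => hz (hs hh)
          rw [Set.indicator_of_notMem hz, this]
          simp
    _ = (∫ z, (if T < ‖f z‖ then ‖f z‖ ^ 2 else 0)) + T ^ 2 * (volume : Measure ℂ).real K := by
        rw [integral_add h3 h4, integral_indicator hK.measurableSet]
        simp [mul_comm]
    _ ≤ _ := by gcongr

/-- the truncated kernel -/
def kR (R : ℝ) (w : ℂ) : ℂ := (Metric.closedBall (0 : ℂ) R).indicator ck w

theorem kR_int (R : ℝ) : Integrable (kR R) :=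
  (integrable_indicator_iff measurableSet_closedBall).2
    (locInt_ck.integrableOn_isCompact (isCompact_closedBall 0 R))

theorem cauchy_kR {K K' : Set ℂ} {R : ℝ} (h : ∀ z ∈ K', ∀ w ∈ K, ‖z - w‖ ≤ R) {f : ℂ → ℂ}
    (hs : tsupport f ⊆ K) {z : ℂ} (hz : z ∈ K') :
    cauchy f z = ∫ w, kR R w * f (z - w) := by
  unfold cauchy
  refine integral_congr_ae (Filter.Eventually.of_forall fun w => ?_)
  simp only []
  by_cases hw : w ∈ Metric.closedBall (0 : ℂ) R
  · rw [kR, Set.indicator_of_mem hw]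
  · have : f (z - w) = 0 := by
      refine image_eq_zero_of_notMem_tsupport fun hh => hw ?_
      have := h z hz (z - w) (hs hh)
      simpa using this
    rw [this, mul_zero, mul_zero]

theorem exists_R {K K' : Set ℂ} (hK : IsCompact K) (hK' : IsCompact K') :
    ∃ R : ℝ, ∀ z ∈ K', ∀ w ∈ K, ‖z - w‖ ≤ R := by
  obtain ⟨R1, h1⟩ := hK.isBounded.exists_norm_le
  obtain ⟨R2, h2⟩ := hK'.isBounded.exists_norm_le
  exact ⟨R2 + R1, fun z hz w hw => (norm_sub_le _ _).trans (add_le_add (h2 z hz) (h1 w hw))⟩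

/-- Young's inequality for the `L¹` norm -/
theorem young_one {k f : ℂ → ℂ} (hk : Integrable k) (hf : Continuous f)
    (hc : HasCompactSupport f) :
    Integrable (fun z => ‖∫ w, k w * f (z - w)‖) ∧
    ∫ z, ‖∫ w, k w * f (z - w)‖ ≤ (∫ w, ‖k w‖) * ∫ z, ‖f z‖ := by
  have hf2 : Integrable (fun z => ‖f z‖) := (hf.integrable_of_hasCompactSupport hc).norm
  have hkn : Integrable (fun w => ‖k w‖) := hk.norm
  have hpt : ∀ z, ‖∫ w, k w * f (z - w)‖ ≤ ∫ w, ‖k w‖ * ‖f (z - w)‖ := by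
    intro z
    refine (norm_integral_le_integral_norm _).trans_eq ?_
    exact integral_congr_ae (Filter.Eventually.of_forall fun w => norm_mul _ _)
  have hconv : Integrable (convolution (fun w => ‖k w‖) (fun w => ‖f w‖)
      (ContinuousLinearMap.mul ℝ ℝ) volume) :=
    hkn.integrable_convolution _ hf2
  have hconvi : ∫ z, convolution (fun w => ‖k w‖) (fun w => ‖f w‖)
      (ContinuousLinearMap.mul ℝ ℝ) volume z = (∫ w, ‖k w‖) * ∫ z, ‖f z‖ := by
    rw [integral_convolution _ hkn hf2]; rfl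
  have hmeas : AEStronglyMeasurable (fun z => ‖∫ w, k w * f (z - w)‖) volume := by
    have h1 : Continuous (convolution k f (ContinuousLinearMap.mul ℝ ℂ) volume) :=
      hc.continuous_convolution_right _ hk.locallyIntegrable hf
    have h2 : (fun z => ‖∫ w, k w * f (z - w)‖)
        = fun z => ‖convolution k f (ContinuousLinearMap.mul ℝ ℂ) volume z‖ := by
      funext z; rw [convolution_def]; rfl
    rw [h2]
    exact h1.norm.aestronglyMeasurable
  have hdom : Integrable (fun z => ∫ w, ‖k w‖ * ‖f (z - w)‖) := hconv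
  have hint : Integrable (fun z => ‖∫ w, k w * f (z - w)‖) :=
    hdom.mono' hmeas (Filter.Eventually.of_forall fun z => by
      rw [norm_norm]; exact hpt z)
  refine ⟨hint, ?_⟩
  calc ∫ z, ‖∫ w, k w * f (z - w)‖
      ≤ ∫ z, ∫ w, ‖k w‖ * ‖f (z - w)‖ := integral_mono hint hdom hpt
    _ = ∫ z, convolution (fun w => ‖k w‖) (fun w => ‖f w‖)
      (ContinuousLinearMap.mul ℝ ℝ) volume z := rfl
    _ = _ := hconvi

theorem markov {μ : Measure ℂ} {g : ℂ → ℝ} (hg : ∀ z, 0 ≤ g z) (hi : Integrable g μ) {t : ℝ}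
    (ht : 0 < t) : μ {z | t < g z} ≤ ENNReal.ofReal ((∫ z, g z ∂μ) / t) := by
  have h1 : ENNReal.ofReal t * μ {z | ENNReal.ofReal t ≤ ENNReal.ofReal (g z)} ≤
      ∫⁻ z, ENNReal.ofReal (g z) ∂μ :=
    mul_meas_ge_le_lintegral₀ hi.aestronglyMeasurable.aemeasurable.ennreal_ofReal _
  rw [← ofReal_integral_eq_lintegral_ofReal hi (Filter.Eventually.of_forall hg)] at h1
  have ht' : ENNReal.ofReal t ≠ 0 := by
    rw [Ne, ENNReal.ofReal_eq_zero]
    linarith
  rw [ENNReal.ofReal_div_of_pos ht, ENNReal.le_div_iff_mul_le (Or.inl ht')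
    (Or.inl ENNReal.ofReal_ne_top), mul_comm]
  exact le_trans (mul_le_mul' le_rfl
    (measure_mono fun z hz => ENNReal.ofReal_le_ofReal (le_of_lt hz))) h1

theorem tendsto_ofReal_zero {u : ℕ → ℝ} (h : Tendsto u atTop (𝓝 0)) :
    Tendsto (fun n => ENNReal.ofReal (u n)) atTop (𝓝 0) := by
  have h1 := (ENNReal.continuous_ofReal.tendsto 0).comp h
  rw [ENNReal.ofReal_zero] at h1
  exact h1

end ERR

open ERR in
/-- MODULE ERR -/
theorem eRR (h1 : StmtBL2) (h2 : StmtWKT) : StmtERR := by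
  intro K K' θ A B G a b hK hK' hθ hθ01 hC
  have sA : ∀ n, Sm K (A n) := fun n => ⟨hC.sA n, hC.kA n⟩
  have sB : ∀ n, Sm K (B n) := fun n => ⟨hC.sB n, hC.kB n⟩
  have sG : ∀ n, Sm K (G n) := fun n => ⟨hC.sG n, hC.kG n⟩
  have hθ' : ∀ n, ContDiff ℝ ∞ (fun w => 1 - θ n w) := fun n => contDiff_const.sub (hθ n)
  obtain ⟨R, hR⟩ := exists_R hK hK'
  constructor
  · obtain ⟨TA, hTA⟩ := hC.uA 1 one_pos
    obtain ⟨TB, hTB⟩ := hC.uB 1 one_pos
    obtain ⟨TG, hTG⟩ := hC.uG 1 one_pos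
    refine ⟨3 * ((1 + TA ^ 2 * (volume : Measure ℂ).real K) +
      (∫ w, ‖kR R w‖) ^ 2 * (1 + TG ^ 2 * (volume : Measure ℂ).real K) +
      (1 + TB ^ 2 * (volume : Measure ℂ).real K)), ?_⟩
    filter_upwards [hTA, hTB, hTG] with n fA fB fG
    have mA := (sA n).mulL (hθ n)
    have mB := (sB n).mulL (hθ n)
    have mG := (sG n).mulL (hθ n)
    have gA := sq_bound hK mA.1.continuous mA.2 fA
    have gB := sq_bound hK mB.1.continuous mB.2 fB
    have gG := sq_bound hK mG.1.continuous mG.2 fG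
    obtain ⟨b1, b2⟩ := h1 _ mB.1 (mB.hcs hK)
    obtain ⟨y1, y2⟩ := young_sq (kR_int R) mG.1.continuous (mG.hcs hK)
    have i1 : Integrable (fun z => ‖(θ n z : ℂ) * A n z‖ ^ 2) := int_sq mA.1.continuous (mA.hcs hK)
    have cc : Continuous (cauchy (fun w => (θ n w : ℂ) * G n w)) :=
      (contDiff_cauchy mG.1 (mG.hcs hK)).continuous
    have cb : Continuous (beu (fun w => (θ n w : ℂ) * B n w)) :=
      (contDiff_dz (contDiff_cauchy mB.1 (mB.hcs hK))).continuous
    have ca : Continuous (fun z => (θ n z : ℂ) * A n z) := mA.1.continuous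
    have hi : IntegrableOn (fun z => ‖(θ n z : ℂ) * A n z
      - cauchy (fun w => (θ n w : ℂ) * G n w) z + beu (fun w => (θ n w : ℂ) * B n w) z‖ ^ 2) K' :=
      (((ca.sub cc).add cb).norm.pow 2).continuousOn.integrableOn_compact hK'
    calc ∫ z in K', ‖(θ n z : ℂ) * A n z
      - cauchy (fun w => (θ n w : ℂ) * G n w) z + beu (fun w => (θ n w : ℂ) * B n w) z‖ ^ 2
        ≤ ∫ z in K', (3 * ‖(θ n z : ℂ) * A n z‖ ^ 2 +
          3 * ‖∫ w, kR R w * ((θ n (z - w) : ℂ) * G n (z - w))‖ ^ 2 +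
          3 * ‖beu (fun w => (θ n w : ℂ) * B n w) z‖ ^ 2) := by
          refine setIntegral_mono_on hi (((i1.const_mul 3).add (y1.const_mul 3)).add
            (b1.const_mul 3)).integrableOn hK'.measurableSet fun z hz => ?_
          rw [cauchy_kR hR mG.2 hz]
          generalize (θ n z : ℂ) * A n z = p
          generalize beu (fun w => (θ n w : ℂ) * B n w) z = r
          generalize (∫ w, kR R w * ((θ n (z - w) : ℂ) * G n (z - w))) = q
          have e1 : ‖p - q + r‖ ≤ ‖p‖ + ‖q‖ + ‖r‖ :=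
            (norm_add_le _ _).trans (add_le_add (norm_sub_le _ _) le_rfl)
          have e2 := norm_nonneg (p - q + r)
          nlinarith [sq_nonneg (‖p‖ - ‖q‖), sq_nonneg (‖q‖ - ‖r‖), sq_nonneg (‖p‖ - ‖r‖),
            norm_nonneg p, norm_nonneg q, norm_nonneg r]
      _ ≤ ∫ z, (3 * ‖(θ n z : ℂ) * A n z‖ ^ 2 +
          3 * ‖∫ w, kR R w * ((θ n (z - w) : ℂ) * G n (z - w))‖ ^ 2 +
          3 * ‖beu (fun w => (θ n w : ℂ) * B n w) z‖ ^ 2) :=
          setIntegral_le_integral (((i1.const_mul 3).add (y1.const_mul 3)).add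
            (b1.const_mul 3)) (Filter.Eventually.of_forall fun z => by positivity)
      _ = 3 * (∫ z, ‖(θ n z : ℂ) * A n z‖ ^ 2) +
          3 * (∫ z, ‖∫ w, kR R w * ((θ n (z - w) : ℂ) * G n (z - w))‖ ^ 2) +
          3 * ∫ z, ‖beu (fun w => (θ n w : ℂ) * B n w) z‖ ^ 2 := by
          have i12 : Integrable (fun z => 3 * ‖(θ n z : ℂ) * A n z‖ ^ 2 +
            3 * ‖∫ w, kR R w * ((θ n (z - w) : ℂ) * G n (z - w))‖ ^ 2) :=
            (i1.const_mul 3).add (y1.const_mul 3)
          rw [integral_add i12 (b1.const_mul 3),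
            integral_add (i1.const_mul 3) (y1.const_mul 3), integral_const_mul,
            integral_const_mul, integral_const_mul]
      _ ≤ _ := by
          have y3 : (∫ w, ‖kR R w‖) ^ 2 * ∫ z, ‖(θ n z : ℂ) * G n z‖ ^ 2 ≤
              (∫ w, ‖kR R w‖) ^ 2 * (1 + TG ^ 2 * (volume : Measure ℂ).real K) :=
            mul_le_mul_of_nonneg_left gG (by positivity)
          linarith [y2.trans y3, b2.trans gB]
  · intro s hs
    obtain ⟨C, hC0, hW⟩ := h2
    have ht : 0 < s / 3 := by positivity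
    -- the three error integrals
    have nrm : ∀ (H : ℕ → ℂ → ℂ) n, (∫ z, ‖((1 - θ n z : ℝ) : ℂ) * H n z‖) =
        ∫ z, (1 - θ n z) * ‖H n z‖ := by
      intro H n
      refine integral_congr_ae (Filter.Eventually.of_forall fun z => ?_)
      simp only []
      rw [norm_mul, Complex.norm_real, Real.norm_of_nonneg (by linarith [(hθ01 n z).2])]
    have lA : Tendsto (fun n => ENNReal.ofReal ((∫ z, ‖((1 - θ n z : ℝ) : ℂ) * A n z‖) / (s / 3)))
        atTop (𝓝 0) := by
      refine tendsto_ofReal_zero ?_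
      simp only [nrm A]
      simpa using hC.tA.div_const (s / 3)
    have lG : Tendsto (fun n => ENNReal.ofReal (((∫ w, ‖kR R w‖) *
        ∫ z, ‖((1 - θ n z : ℝ) : ℂ) * G n z‖) / (s / 3))) atTop (𝓝 0) := by
      refine tendsto_ofReal_zero ?_
      simp only [nrm G]
      simpa using (hC.tG.const_mul (∫ w, ‖kR R w‖)).div_const (s / 3)
    have lB : Tendsto (fun n => ENNReal.ofReal (C / (s / 3) *
        ∫ z, ‖((1 - θ n z : ℝ) : ℂ) * B n z‖)) atTop (𝓝 0) := by
      refine tendsto_ofReal_zero ?_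
      simp only [nrm B]
      simpa using hC.tB.const_mul (C / (s / 3))
    have lT := (lA.add lG).add lB
    simp only [add_zero] at lT
    refine tendsto_of_tendsto_of_tendsto_of_le_of_le tendsto_const_nhds lT
      (fun n => bot_le) fun n => ?_
    have mA := (sA n).mulL (hθ' n)
    have mB := (sB n).mulL (hθ' n)
    have mG := (sG n).mulL (hθ' n)
    have qA := markov (μ := volume) (g := fun z => ‖((1 - θ n z : ℝ) : ℂ) * A n z‖)
      (fun z => norm_nonneg _)
      (mA.1.continuous.integrable_of_hasCompactSupport (mA.hcs hK)).norm ht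
    have qB := hW _ (s / 3) mB.1 (mB.hcs hK) ht
    obtain ⟨y1, y2⟩ := young_one (kR_int R) mG.1.continuous (mG.hcs hK)
    have qG : (volume : Measure ℂ) {z | z ∈ K' ∧
        s / 3 < ‖cauchy (fun w => ((1 - θ n w : ℝ) : ℂ) * G n w) z‖} ≤
        ENNReal.ofReal (((∫ w, ‖kR R w‖) *
        ∫ z, ‖((1 - θ n z : ℝ) : ℂ) * G n z‖) / (s / 3)) := by
      have e1 := markov (μ := volume)
        (g := fun z => ‖∫ w, kR R w * (((1 - θ n (z - w) : ℝ) : ℂ) * G n (z - w))‖)
        (fun z => norm_nonneg _) y1 ht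
      refine (measure_mono ?_).trans (e1.trans (ENNReal.ofReal_le_ofReal ?_))
      · rintro z ⟨hz, hz2⟩
        rw [cauchy_kR hR mG.2 hz] at hz2
        exact hz2
      · exact div_le_div_of_nonneg_right y2 ht.le
    refine le_trans ?_ (add_le_add (add_le_add qA qG) qB)
    refine (measure_mono ?_).trans ((measure_union_le _ _).trans
      (add_le_add (measure_union_le _ _) le_rfl))
    rintro z ⟨hz, hz2⟩
    rw [err_eq hK (hθ n) (sA n) (sB n) (sG n) (hC.eq n) z] at hz2
    by_contra hcon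
    rw [Set.mem_union, Set.mem_union, not_or, not_or] at hcon
    obtain ⟨⟨c1, c2⟩, c3⟩ := hcon
    have d1 : ‖((1 - θ n z : ℝ) : ℂ) * A n z‖ ≤ s / 3 := not_lt.1 c1
    have d2 : ‖cauchy (fun w => ((1 - θ n w : ℝ) : ℂ) * G n w) z‖ ≤ s / 3 :=
      not_lt.1 fun h => c2 ⟨hz, h⟩
    have d3 : ‖beu (fun w => ((1 - θ n w : ℝ) : ℂ) * B n w) z‖ ≤ s / 3 := not_lt.1 c3
    generalize ((1 - θ n z : ℝ) : ℂ) * A n z = p at hz2 d1
    generalize cauchy (fun w => ((1 - θ n w : ℝ) : ℂ) * G n w) z = q at hz2 d2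
    generalize beu (fun w => ((1 - θ n w : ℝ) : ℂ) * B n w) z = r at hz2 d3
    have e1 : ‖-p + q - r‖ ≤ ‖p‖ + ‖q‖ + ‖r‖ := by
      refine (norm_sub_le _ _).trans (add_le_add ((norm_add_le _ _).trans ?_) le_rfl)
      rw [norm_neg]
    linarith

end

end BSL
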