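import Pool.Agent.BSL.PTF

/-!
# The local three-point formula with weights (module F3W)
-/

open Complex MeasureTheory Filter Topology Set
open UpperHalfPlane hiding I
open scoped ContDiff MatrixGroups ProbabilityTheory

namespace BSL

open QE QE.NC QJ U3 NFP

noncomputable section

/-- F3W: the local three-point formula with weights -/
theorem f3W (hT : StmtTcub) : StmtF3w := by
  intro Γ D ρ φ m s S _ V σ φ' A J hN ζ hζ x
  have hρ := S.fac.smooth
  set K := tsupport (fun z => (ζ z : ℂ)) with hKdef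
  have hKc : IsCompact K := hζ.supp
  have hKV : K ⊆ V := hζ.sub
  set R := ∑ i, ‖x i‖ with hRdef
  have hxR : ∀ i, ‖x i‖ ≤ R := fun i =>
    Finset.single_le_sum (f := fun i => ‖x i‖) (fun _ _ => norm_nonneg _) (Finset.mem_univ i)
  obtain ⟨L₀, hL₀, hL⟩ := hT V σ (hh m) φ' A.loc K hKc hKV R
  refine ⟨max L₀ 1, le_max_right _ _, fun L hLL θ Wθ => ?_⟩
  set ξ : Fin 3 → ℕ → ℝ → ℂ → ℂ := fun i => frXi (hh m) (QE.em ρ) (x i) with hξ
  have hdis : ∀ i, Dis K (x i) (ξ i) := fun i => PTF.dis hρ A hKc hKV (x i)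
  have key := hL L ((le_max_left _ _).trans hLL) θ Wθ (um s) J hN x ξ hxR hdis
    (fun z => (ζ z : ℂ)) hζ le_rfl
  have k2 := (Complex.continuous_re.tendsto 0).comp key
  rw [Complex.zero_re] at k2
  refine k2.congr' ?_
  filter_upwards [PTF.ang_eq hρ A hKc hKV x] with n hn
  have hz0 : ∀ z, z ∉ K → ζ z = 0 := by
    intro z hz
    have := image_eq_zero_of_notMem_tsupport hz
    exact_mod_cast this
  have hζc : Continuous ζ := by
    have := Complex.continuous_re.comp hζ.smooth.continuous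
    simpa [Function.comp_def] using this
  have h1 := hn (fun z => ζ z * θ n z) (hζc.mul (Wθ.smθ n).continuous)
    (fun z hz => by rw [hz0 z hz, zero_mul])
  have h2 : ∫ z, ζ z * (θ n z * angProd ρ (φ n) (m n) x (ofComplex z))
      = ∫ z, (ζ z * θ n z) * angProd ρ (φ n) (m n) x (ofComplex z) := by
    congr 1
    funext z
    ring
  have h3 : ∫ t, (∫ z, (ζ z : ℂ) * ((θ n z : ℂ)
      * ∏ i, φ' n (dp σ (hh m) n z (ξ i n t z)))) ∂ang
      = ∫ t, (∫ z, ((ζ z * θ n z : ℝ) : ℂ) * ∏ i, φ' n (dp σ (hh m) n z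
            (frXi (hh m) (QE.em ρ) (x i) n t z))) ∂ang := by
    congr 1
    funext t
    congr 1
    funext z
    simp only [hξ]
    push_cast
    ring
  simp only [Function.comp_apply]
  rw [h2, h3, ← h1, Complex.ofReal_re]

end

end BSL
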