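import Pool.Agent.BSL.JLW
import Pool.Agent.BWM.C43

/-!
# Theorem B, local theory: the lower bound for the fourth moments with weights (helper67)
-/

open Complex MeasureTheory Filter Topology Set
open scoped ContDiff

namespace BSL

open QE hiding E jet P
open QJ U3

noncomputable section

variable {V : Set ℂ} {σ : ℂ → ℝ} {h : ℕ → ℝ} {φ : ℕ → ℂ → ℂ} {θ : ℕ → ℂ → ℝ} {u : ℤ → ℂ → ℂ}

lemma cont_w2 (W : WtR V σ h φ θ) (n : ℕ) : Continuous fun z => (θ n z : ℂ) ^ 2 :=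
  (contDiff_ofR (W.smθ n)).continuous.pow 2

/-- integrability of the four-jet products -/
lemma int4w (W : WtR V σ h φ θ) {ζ : ℂ → ℂ} (hζ : Test V ζ) (n : ℕ) (j m k l : ℤ) :
    Integrable (fun z => ζ z * ((θ n z : ℂ) ^ 2 * (E σ h φ j n z * E σ h φ m n z
      * (E σ h φ k n z * E σ h φ l n z)))) :=
  test_int hζ ((cont_w2 W n).mul (((smE W.toLocB j n).continuous.mul
    (smE W.toLocB m n).continuous).mul ((smE W.toLocB k n).continuous.mul
    (smE W.toLocB l n).continuous)))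

lemma int3w (W : WtR V σ h φ θ) {ζ : ℂ → ℂ} (hζ : Test V ζ) (n : ℕ) (j m k : ℤ) :
    Integrable (fun z => ζ z * ((θ n z : ℂ) * (E σ h φ j n z * E σ h φ m n z * E σ h φ k n z))) :=
  test_int hζ ((contDiff_ofR (W.smθ n)).continuous.mul (((smE W.toLocB j n).continuous.mul
    (smE W.toLocB m n).continuous).mul (smE W.toLocB k n).continuous))

lemma off_real {ζ : ℂ → ℝ} (hT : Test V (fun z => (ζ z : ℂ))) {z : ℂ} (hz : z ∉ V) : ζ z = 0 := by
  have h0 : (ζ z : ℂ) = 0 := image_eq_zero_of_notMem_tsupport (f := fun z => (ζ z : ℂ))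
    fun hh => hz (hT.sub hh)
  exact_mod_cast h0

/-- positivity over the quadruples -/
theorem quads_nonneg_w (W : WtR V σ h φ θ) {ζ : ℂ → ℝ} (hT : Test V (fun z => (ζ z : ℂ)))
    (hζ0 : ∀ z, 0 ≤ ζ z) (M n : ℕ) :
    0 ≤ (∑ p ∈ quads M, E4w σ h φ θ (fun z => (ζ z : ℂ)) n (2 * p.1.1) (2 * p.1.2)
      (-(2 * p.2.1)) (-(2 * p.2.2))).re := by
  unfold E4w
  rw [← integral_finsetSum _ (fun p _ => int4w W hT n _ _ _ _)]
  have hre : (∫ z, ∑ p ∈ quads M, (ζ z : ℂ) * ((θ n z : ℂ) ^ 2 * (E σ h φ (2 * p.1.1) n z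
      * E σ h φ (2 * p.1.2) n z * (E σ h φ (-(2 * p.2.1)) n z * E σ h φ (-(2 * p.2.2)) n z)))).re
      = ∫ z, (∑ p ∈ quads M, (ζ z : ℂ) * ((θ n z : ℂ) ^ 2 * (E σ h φ (2 * p.1.1) n z
      * E σ h φ (2 * p.1.2) n z * (E σ h φ (-(2 * p.2.1)) n z * E σ h φ (-(2 * p.2.2)) n z)))).re := by
    have hi : Integrable (fun z => ∑ p ∈ quads M, (ζ z : ℂ) * ((θ n z : ℂ) ^ 2
      * (E σ h φ (2 * p.1.1) n z * E σ h φ (2 * p.1.2) n z
      * (E σ h φ (-(2 * p.2.1)) n z * E σ h φ (-(2 * p.2.2)) n z)))) :=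
      integrable_finsetSum _ (fun p _ => int4w W hT n _ _ _ _)
    exact (integral_re hi).symm
  rw [hre]
  refine integral_nonneg fun z => ?_
  have hcj : ∀ c : ℕ, E σ h φ (-(2 * (c : ℤ))) n z
      = (starRingEnd ℂ) (E σ h φ (2 * (c : ℤ)) n z) := by
    intro c
    have h1 := conj_EB W.toLocB (2 * (c : ℤ)) n z
    rw [h1, zpow_mul]
    norm_num
  have e2 : ∑ p ∈ quads M, (ζ z : ℂ) * ((θ n z : ℂ) ^ 2 * (E σ h φ (2 * p.1.1) n z
      * E σ h φ (2 * p.1.2) n z * (E σ h φ (-(2 * p.2.1)) n z * E σ h φ (-(2 * p.2.2)) n z)))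
      = ((ζ z * θ n z ^ 2 : ℝ) : ℂ) * ∑ p ∈ quads M, ((fun q : ℕ × ℕ => E σ h φ (2 * q.1) n z
        * E σ h φ (2 * q.2) n z) p.1) * (starRingEnd ℂ) ((fun q : ℕ × ℕ => E σ h φ (2 * q.1) n z
        * E σ h φ (2 * q.2) n z) p.2) := by
    rw [Finset.mul_sum]
    refine Finset.sum_congr rfl fun p _ => ?_
    rw [hcj, hcj, map_mul]
    push_cast
    ring
  show 0 ≤ (∑ p ∈ quads M, (ζ z : ℂ) * ((θ n z : ℂ) ^ 2 * (E σ h φ (2 * p.1.1) n z
      * E σ h φ (2 * p.1.2) n z * (E σ h φ (-(2 * p.2.1)) n z * E σ h φ (-(2 * p.2.2)) n z)))).re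
  rw [e2, re_ofReal_mul]
  exact mul_nonneg (mul_nonneg (hζ0 z) (sq_nonneg _))
    (sum_pairs_nonneg (Finset.range (M + 1) ×ˢ Finset.range (M + 1))
      (fun q : ℕ × ℕ => E σ h φ (2 * q.1) n z * E σ h φ (2 * q.2) n z)
      (fun q : ℕ × ℕ => q.1 + q.2))

theorem fourth_eq_w (W : WtR V σ h φ θ) {ζ : ℂ → ℝ}
    (n : ℕ) : E4w σ h φ θ (fun z => (ζ z : ℂ)) n 0 0 0 0
      = ((∫ z, ζ z * (θ n z ^ 2 * (φ n z).re ^ 4) : ℝ) : ℂ) := by
  have e0 : ((∫ z, ζ z * (θ n z ^ 2 * (φ n z).re ^ 4) : ℝ) : ℂ)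
      = ∫ z, ((ζ z * (θ n z ^ 2 * (φ n z).re ^ 4) : ℝ) : ℂ) := integral_ofReal.symm
  rw [e0]
  unfold E4w
  refine integral_congr_ae (Filter.Eventually.of_forall fun z => ?_)
  have h1 : (((φ n z).re : ℝ) : ℂ) = φ n z := conj_eq_iff_re.1 (W.real n z)
  have h2 : E σ h φ 0 n z = φ n z := rfl
  beta_reduce
  push_cast
  rw [h1, h2]
  ring

/-- POSW: **the lower bound for the fourth moments with weights** -/
theorem posW (hM : StmtMacW) : StmtPosW := by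
  intro V σ h φ θ u W J hNA ζ hT hζ0 ε hε
  have hc' := J.conj_all W.toLocB
  have hN := hNA ζ hT hζ0
  -- the number of jets
  obtain ⟨N₀, hN₀⟩ := (Metric.tendsto_atTop.1 hN) (ε / 192) (by positivity)
  set K : ℕ := N₀ with hK
  set M : ℕ := 2 * K with hM'
  set Tot : ℝ := ∑ k ∈ Finset.Ioo (-((4 * M + 1 : ℕ) : ℤ)) ((4 * M + 1 : ℕ) : ℤ), UU u ζ k with hTot
  have hTotle : Tot ≤ ε / 192 * (8 * ((K : ℝ) + 1)) := by
    have h1 := hN₀ (4 * M + 1) (by omega)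
    rw [dist_zero_right, Real.norm_eq_abs] at h1
    have h2 := (le_abs_self _).trans h1.le
    have hpos : (0 : ℝ) < ((4 * M + 1 : ℕ) : ℝ) := by positivity
    have h3 : Tot ≤ ε / 192 * ((4 * M + 1 : ℕ) : ℝ) := by
      have h4 : (1 / ((4 * M + 1 : ℕ) : ℝ)) * Tot ≤ ε / 192 := h2
      rw [one_div, inv_mul_le_iff₀ hpos] at h4
      linarith
    refine h3.trans ?_
    have h5 : ((4 * M + 1 : ℕ) : ℝ) ≤ 8 * ((K : ℝ) + 1) := by
      rw [hM']; push_cast; linarith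
    gcongr
  set T : ℝ := ((quads M).card : ℝ) with hTdef
  have hTK : ((K : ℝ) + 1) ^ 3 ≤ T := by
    have := card_quads K
    rw [← hM'] at this
    rw [hTdef]
    exact_mod_cast this
  have hT1 : 1 ≤ T := by
    have : (1 : ℝ) ≤ ((K : ℝ) + 1) ^ 3 := by
      apply one_le_pow₀
      have : (0 : ℝ) ≤ K := by positivity
      linarith
    linarith
  -- the Wick sums
  have hGsum : ∑ p ∈ quads M, Gam u (fun z => (ζ z : ℂ)) (2 * p.1.1) (2 * p.1.2) (-(2 * p.2.1))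
      (-(2 * p.2.2)) = ((∑ p ∈ quads M, (UU u ζ (2 * ((p.1.1 : ℤ) + p.1.2))
        + UU u ζ (2 * ((p.1.1 : ℤ) - p.2.1)) + UU u ζ (2 * ((p.1.1 : ℤ) - p.2.2))) : ℝ) : ℂ) := by
    rw [ofReal_sum]
    refine Finset.sum_congr rfl fun p hp => ?_
    exact Gam_quads W.op J.loc hc' hT _ _ _ _ (by exact_mod_cast (mem_quads.1 hp).2)
  have hGle : (∑ p ∈ quads M, Gam u (fun z => (ζ z : ℂ)) (2 * p.1.1) (2 * p.1.2) (-(2 * p.2.1))
      (-(2 * p.2.2))).re ≤ ε / 2 * T := by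
    rw [hGsum, ofReal_re]
    refine (sum_quads_le (V := fun k => UU u ζ k) (fun k => UU_nonneg hζ0 k) M).trans ?_
    have hMc : (M : ℝ) = 2 * K := by rw [hM']; push_cast; ring
    have hK0 : (0 : ℝ) ≤ K := by positivity
    calc 3 * ((M : ℝ) + 1) ^ 2 * Tot ≤ 3 * ((M : ℝ) + 1) ^ 2 * (ε / 192 * (8 * ((K : ℝ) + 1))) := by
          gcongr
      _ ≤ 3 * (4 * ((K : ℝ) + 1) ^ 2) * (ε / 192 * (8 * ((K : ℝ) + 1))) := by
          gcongr
          rw [hMc]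
          nlinarith
      _ = ε / 2 * ((K : ℝ) + 1) ^ 3 := by ring
      _ ≤ ε / 2 * T := by gcongr
  -- the errors
  have hlim : Tendsto (fun n => ∑ p ∈ quads M, (Yw σ h φ θ u (fun z => (ζ z : ℂ)) n
      (2 * p.1.1) (2 * p.1.2) (-(2 * p.2.1)) (-(2 * p.2.2))
      - Yw σ h φ θ u (fun z => (ζ z : ℂ)) n 0 0 0 0)) atTop (𝓝 0) := by
    have h0 : (0 : ℂ) = ∑ p ∈ quads M, (0 : ℂ) := by simp
    rw [h0]
    apply tendsto_finsetSum
    intro p hp
    have h1 := Err_zero (Z := 0) (yw_12 (θ := θ) W.op J hT) (yw_23 W.op J hT) (yw_34 W.op J hT)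
      (yw_mac hM W J hT) p.1.1 p.1.2 p.2.1 p.2.2 (mem_quads.mp hp).2
    unfold Asy Err at h1
    simpa using h1
  have hev := (Metric.tendsto_nhds.mp hlim) (ε / 2) (by positivity)
  filter_upwards [hev] with n hn
  rw [dist_zero_right] at hn
  have hre := (Complex.abs_re_le_norm _).trans hn.le
  rw [Finset.sum_sub_distrib, Finset.sum_const, nsmul_eq_mul, Complex.sub_re] at hre
  have hcast : (((quads M).card : ℂ) * Yw σ h φ θ u (fun z => (ζ z : ℂ)) n 0 0 0 0).re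
      = T * (Yw σ h φ θ u (fun z => (ζ z : ℂ)) n 0 0 0 0).re := by
    rw [hTdef]
    have : ((quads M).card : ℂ) = (((quads M).card : ℝ) : ℂ) := by push_cast; rfl
    rw [this, Complex.re_ofReal_mul]
  rw [hcast] at hre
  have h0 := (abs_le.mp hre).2
  have h1 := quads_nonneg_w W hT hζ0 M n
  have h2 : (∑ p ∈ quads M, Yw σ h φ θ u (fun z => (ζ z : ℂ)) n (2 * p.1.1) (2 * p.1.2)
      (-(2 * p.2.1)) (-(2 * p.2.2))).re
      = (∑ p ∈ quads M, E4w σ h φ θ (fun z => (ζ z : ℂ)) n (2 * p.1.1) (2 * p.1.2)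
      (-(2 * p.2.1)) (-(2 * p.2.2))).re
        - (∑ p ∈ quads M, Gam u (fun z => (ζ z : ℂ)) (2 * p.1.1) (2 * p.1.2) (-(2 * p.2.1))
      (-(2 * p.2.2))).re := by
    rw [← Complex.sub_re, ← Finset.sum_sub_distrib]
    rfl
  have h3 : T * (-ε) ≤ T * (Yw σ h φ θ u (fun z => (ζ z : ℂ)) n 0 0 0 0).re := by
    have : ε / 2 ≤ ε / 2 * T := by nlinarith
    nlinarith
  have h4 : -ε ≤ (Yw σ h φ θ u (fun z => (ζ z : ℂ)) n 0 0 0 0).re :=
    le_of_mul_le_mul_left h3 (by linarith)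
  have h5 : Yw σ h φ θ u (fun z => (ζ z : ℂ)) n 0 0 0 0
      = ((((∫ z, ζ z * (θ n z ^ 2 * (φ n z).re ^ 4)) - 3 * UU u ζ 0 : ℝ)) : ℂ) := by
    unfold Yw
    rw [fourth_eq_w W, Gam_zero W.op J.loc hc' hT, ofReal_sub]
  rw [h5, ofReal_re] at h4
  unfold UU at h4
  linarith

/-- the integrals of the Wick sums of total index zero -/
theorem gam_total (L : LocB V σ h φ) (J : JL V σ h φ u) {ρ : ℂ → ℝ}
    (hρ : Test V (fun z => (ρ z : ℂ))) (j m k l : ℤ) (hs : j + m + k + l = 0) :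
    Gam u (fun z => (ρ z : ℂ)) j m k l
      = (-1) ^ j * (-1) ^ k * (UU u ρ (j + m) : ℂ) + (-1) ^ j * (-1) ^ m * (UU u ρ (j + k) : ℂ)
        + (-1) ^ j * (-1) ^ m * (UU u ρ (j + l) : ℂ) := by
  have hc := J.conj_all L
  have hG : ∀ᵐ z ∂((volume : Measure ℂ).restrict V), GW u j m k l z
      = (-1) ^ j * (-1) ^ k * ((‖u (j + m) z‖ ^ 2 : ℝ) : ℂ)
        + (-1) ^ j * (-1) ^ m * ((‖u (j + k) z‖ ^ 2 : ℝ) : ℂ)
        + (-1) ^ j * (-1) ^ m * ((‖u (j + l) z‖ ^ 2 : ℝ) : ℂ) := by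
    filter_upwards [hc] with z hz
    have hn : ∀ k, u k z * u (-k) z = ((‖u k z‖ ^ 2 : ℝ) : ℂ) := by
      intro k
      rw [hz, mul_conj, Complex.normSq_eq_norm_sq]
    rw [← hn, ← hn, ← hn]
    unfold GW WW
    have e1 : k + l = -(j + m) := by omega
    have e2 : m + l = -(j + k) := by omega
    have e3 : m + k = -(j + l) := by omega
    rw [e1, e2, e3]
    ring
  unfold Gam
  rw [hρ.congr_ae L.op hG]
  have i1 : Integrable (fun z => ((ρ z * ‖u (j + m) z‖ ^ 2 : ℝ) : ℂ)) volume :=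
    (hρ.int_sq (J.loc (j + m))).ofReal
  have i2 : Integrable (fun z => ((ρ z * ‖u (j + k) z‖ ^ 2 : ℝ) : ℂ)) volume :=
    (hρ.int_sq (J.loc (j + k))).ofReal
  have i3 : Integrable (fun z => ((ρ z * ‖u (j + l) z‖ ^ 2 : ℝ) : ℂ)) volume :=
    (hρ.int_sq (J.loc (j + l))).ofReal
  have eU : ∀ s : ℤ, (UU u ρ s : ℂ) = ∫ z, ((ρ z * ‖u s z‖ ^ 2 : ℝ) : ℂ) := fun s =>
    integral_ofReal.symm
  rw [eU, eU, eU, ← integral_const_mul, ← integral_const_mul, ← integral_const_mul,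
    ← integral_add_three' (i1.const_mul _) (i2.const_mul _) (i3.const_mul _)]
  refine integral_congr_ae (Filter.Eventually.of_forall fun z => ?_)
  beta_reduce
  push_cast
  ring

/-- **the fourth moments of linear combinations of jets** -/
theorem lin_jets_w (hM : StmtMacW) (W : WtR V σ h φ θ) (L : JL V σ h φ u) {ρ : ℂ → ℝ}
    (hρ : Test V (fun z => (ρ z : ℂ))) (I J : Finset ℤ) (hJ : ∀ a ∈ I, ∀ b ∈ I, a + b ∈ J)
    (t : ℤ → ℂ) :
    Tendsto (fun n => Sum4 σ h φ θ (fun z => (ρ z : ℂ)) I t n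
      - ∑ s ∈ J, cS I t s * cS I t (-s) * ((3 * UU u ρ s
        + ((∫ z, ρ z * (θ n z ^ 2 * (φ n z).re ^ 4)) - 3 * UU u ρ 0) : ℝ) : ℂ)) atTop (𝓝 0) := by
  have hc := L.conj_all W.toLocB
  have h1 : ∀ j m k l : ℤ, Tendsto (fun n => if j + m + k + l = 0 then
      (t j * t m * t k * t l) * (Yw σ h φ θ u (fun z => (ρ z : ℂ)) n j m k l
        - pat j m k l * Yw σ h φ θ u (fun z => (ρ z : ℂ)) n 0 0 0 0) else 0) atTop (𝓝 0) := by
    intro j m k l
    by_cases hs : j + m + k + l = 0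
    · simp only [if_pos hs]
      have := (patW hM V σ h φ θ u W L _ hρ j m k l hs).const_mul (t j * t m * t k * t l)
      rwa [mul_zero] at this
    · simp only [if_neg hs]
      exact tendsto_const_nhds
  have h2 : Tendsto (fun n => ∑ j ∈ I, ∑ m ∈ I, ∑ k ∈ I, ∑ l ∈ I, if j + m + k + l = 0 then
      (t j * t m * t k * t l) * (Yw σ h φ θ u (fun z => (ρ z : ℂ)) n j m k l
        - pat j m k l * Yw σ h φ θ u (fun z => (ρ z : ℂ)) n 0 0 0 0) else 0) atTop (𝓝 0) := by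
    have h3 := tendsto_finsetSum I fun j (_ : j ∈ I) => tendsto_finsetSum I fun m (_ : m ∈ I) =>
      tendsto_finsetSum I fun k (_ : k ∈ I) => tendsto_finsetSum I fun l (_ : l ∈ I) => h1 j m k l
    have e0 : ∑ j ∈ I, ∑ m ∈ I, ∑ k ∈ I, ∑ l ∈ I, (0 : ℂ) = 0 := by simp
    rw [e0] at h3
    exact h3
  refine h2.congr fun n => ?_
  set e : ℝ := (∫ z, ρ z * (θ n z ^ 2 * (φ n z).re ^ 4)) - 3 * UU u ρ 0 with he
  have hY0 : Yw σ h φ θ u (fun z => (ρ z : ℂ)) n 0 0 0 0 = (e : ℂ) := by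
    unfold Yw
    rw [fourth_eq_w W, Gam_zero W.op L.loc hc hρ, he, ofReal_sub]
  -- the Wick part
  have p1 := sum_three I t (fun s => (UU u ρ s : ℂ))
  rw [pairing I J hJ t (fun s => (UU u ρ s : ℂ))] at p1
  have p2 := sum_pat I t
  rw [pairing I J hJ t (fun _ => 1)] at p2
  have e1 : ∀ j m k l : ℤ, (if j + m + k + l = 0 then
      (t j * t m * t k * t l) * (Yw σ h φ θ u (fun z => (ρ z : ℂ)) n j m k l
        - pat j m k l * Yw σ h φ θ u (fun z => (ρ z : ℂ)) n 0 0 0 0) else 0)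
      = (if j + m + k + l = 0 then
        (t j * t m * t k * t l) * E4w σ h φ θ (fun z => (ρ z : ℂ)) n j m k l else 0)
        - (if j + m + k + l = 0 then
      (t j * t m * t k * t l) * ((-1) ^ j * (-1) ^ k * (UU u ρ (j + m) : ℂ)
        + (-1) ^ j * (-1) ^ m * (UU u ρ (j + k) : ℂ)
        + (-1) ^ j * (-1) ^ m * (UU u ρ (j + l) : ℂ)) else 0)
        - (if j + m + k + l = 0 then (t j * t m * t k * t l) * pat j m k l else 0) * (e : ℂ) := by
    intro j m k l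
    by_cases hs : j + m + k + l = 0
    · simp only [if_pos hs]
      rw [hY0]
      unfold Yw
      rw [gam_total W.toLocB L hρ j m k l hs]
      ring
    · simp only [if_neg hs]
      ring
  unfold Sum4
  simp only [e1, Finset.sum_sub_distrib, ← Finset.sum_mul]
  rw [p1, p2, sub_sub]
  congr 1
  rw [Finset.mul_sum, Finset.sum_mul, ← Finset.sum_add_distrib]
  refine Finset.sum_congr rfl fun s _ => ?_
  push_cast
  ring

/-- LINW: **the lower bound for linear combinations of jets** -/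
theorem linW (hM : StmtMacW) : StmtLinW := by
  intro V σ h φ θ u W L hNA ρ hT hρ0 N t ht ε hε
  set I := Finset.Icc (-(N : ℤ)) (N : ℤ) with hI
  set J := Finset.Icc (-(2 * N : ℤ)) (2 * N : ℤ) with hJdef
  have htau : tau I t = cS I t 0 := rfl
  rw [htau]
  have hJ : ∀ a ∈ I, ∀ b ∈ I, a + b ∈ J := by
    intro a ha b hb
    rw [hI, Finset.mem_Icc] at ha hb
    rw [hJdef, Finset.mem_Icc]
    constructor <;> omega
  have h0J : (0 : ℤ) ∈ J := by
    rw [hJdef, Finset.mem_Icc]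
    constructor <;> omega
  have hIneg : ∀ a, a ∈ I ↔ -a ∈ I := by
    intro a
    rw [hI, Finset.mem_Icc, Finset.mem_Icc]
    constructor <;> intro h <;> constructor <;> omega
  have hcc : ∀ s, cS I t s * cS I t (-s) = ((‖cS I t s‖ ^ 2 : ℝ) : ℂ) := by
    intro s
    rw [cS_neg hIneg ht, mul_conj, Complex.normSq_eq_norm_sq]
  set F : ℝ := ∑ s ∈ J, ‖cS I t s‖ ^ 2 with hF
  have hF0 : 0 ≤ F := Finset.sum_nonneg fun s _ => by positivity
  set η : ℝ := ε / (2 * (F + 1)) with hη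
  have hη0 : 0 < η := by positivity
  have hηF : η * F ≤ ε / 2 := by
    have e : η * F = ε / 2 * (F / (F + 1)) := by rw [hη]; field_simp
    have h1 : F / (F + 1) ≤ 1 := (div_le_one (by positivity)).mpr (by linarith)
    rw [e]
    nlinarith
  have h1 := posW hM V σ h φ θ u W L hNA ρ hT hρ0 η hη0
  have h2 := (Metric.tendsto_nhds.mp (lin_jets_w hM W L hT I J hJ t)) (ε / 2) (by positivity)
  filter_upwards [h1, h2] with n h3 h4
  set e : ℝ := (∫ z, ρ z * (θ n z ^ 2 * (φ n z).re ^ 4)) - 3 * UU u ρ 0 with he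
  have he0 : -η ≤ e := by
    rw [he]; unfold UU; linarith
  rw [dist_zero_right] at h4
  set Z : ℂ := Sum4 σ h φ θ (fun z => (ρ z : ℂ)) I t n with hZ
  have hre : ∑ s ∈ J, cS I t s * cS I t (-s) * ((3 * UU u ρ s + e : ℝ) : ℂ)
      = ((∑ s ∈ J, ‖cS I t s‖ ^ 2 * (3 * UU u ρ s + e) : ℝ) : ℂ) := by
    rw [ofReal_sum]
    refine Finset.sum_congr rfl fun s _ => ?_
    rw [hcc, ofReal_mul]
  rw [hre] at h4
  have h5 := (abs_le.1 ((Complex.abs_re_le_norm _).trans h4.le)).1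
  rw [Complex.sub_re, ofReal_re] at h5
  -- the lower bound for the limit
  have h6 : ‖cS I t 0‖ ^ 2 * (∫ z, ρ z * (θ n z ^ 2 * (φ n z).re ^ 4)) - η * F
      ≤ ∑ s ∈ J, ‖cS I t s‖ ^ 2 * (3 * UU u ρ s + e) := by
    have h7 : ∑ s ∈ J, ‖cS I t s‖ ^ 2 * (3 * UU u ρ s + e) + η * F
        = ∑ s ∈ J, ‖cS I t s‖ ^ 2 * (3 * UU u ρ s + e + η) := by
      rw [hF, Finset.mul_sum, ← Finset.sum_add_distrib]
      refine Finset.sum_congr rfl fun s _ => ?_
      ring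
    have h8 : ‖cS I t 0‖ ^ 2 * (3 * UU u ρ 0 + e + η)
        ≤ ∑ s ∈ J, ‖cS I t s‖ ^ 2 * (3 * UU u ρ s + e + η) := by
      refine Finset.single_le_sum (f := fun s => ‖cS I t s‖ ^ 2 * (3 * UU u ρ s + e + η))
        (fun s _ => ?_) h0J
      have := UU_nonneg (u := u) hρ0 s
      exact mul_nonneg (by positivity) (by linarith)
    have h9 : 3 * UU u ρ 0 + e = ∫ z, ρ z * (θ n z ^ 2 * (φ n z).re ^ 4) := by rw [he]; ring
    rw [h9] at h8
    have h10 : 0 ≤ ‖cS I t 0‖ ^ 2 * η := by positivity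
    nlinarith
  linarith

end

end BSL
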