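import Pool.Agent.BWM.C17

/-!
PTWC: the jets are bounded by the local `L²` norm of `φ` on the balls of radius `c h`, for every
`c > 0` (helper67).
-/

open Complex MeasureTheory Filter Topology Set
open scoped ContDiff

namespace BSL

open U3 QJ QE QE.EllAux

noncomputable section

namespace PTW

/-- the local `L²` norm at scale `h` -/
def SS (h : ℕ → ℝ) (φ : ℕ → ℂ → ℂ) (c : ℝ) (n : ℕ) (z : ℂ) : ℝ :=
  1 / h n ^ 2 * ∫ w in Metric.closedBall z (c * h n), ‖φ n w‖ ^ 2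

/-- pointwise bounds by the local `L²` norm at scale `h` -/
def PB (V : Set ℂ) (h : ℕ → ℝ) (φ : ℕ → ℂ → ℂ) (u : ℕ → ℂ → ℂ) : Prop :=
  ∀ K, IsCompact K → K ⊆ V → ∀ c : ℝ, 0 < c → ∃ C : ℝ, 0 ≤ C ∧
    ∀ᶠ n in atTop, ∀ z ∈ K, ‖u n z‖ ≤ C * √(SS h φ c n z)

/-- the same for all the rescaled derivatives of order at most `k` -/
def PK (V : Set ℂ) (h : ℕ → ℝ) (φ : ℕ → ℂ → ℂ) : ℕ → (ℕ → ℂ → ℂ) → Prop
  | 0, u => PB V h φ u
  | k + 1, u => PB V h φ u ∧ PK V h φ k (fun n z => (h n : ℂ) * dz (u n) z)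
      ∧ PK V h φ k (fun n z => (h n : ℂ) * dzb (u n) z)

variable {V : Set ℂ} {h : ℕ → ℝ} {φ : ℕ → ℂ → ℂ}

lemma SS_nonneg (c : ℝ) (n : ℕ) (z : ℂ) : 0 ≤ SS h φ c n z := by
  unfold SS
  exact mul_nonneg (by positivity) (integral_nonneg fun w => by positivity)

lemma SS_le {n : ℕ} (hφ : Continuous (φ n)) {c c' : ℝ} {z z' : ℂ}
    (hs : Metric.closedBall z (c * h n) ⊆ Metric.closedBall z' (c' * h n)) :
    SS h φ c n z ≤ SS h φ c' n z' := by
  unfold SS
  refine mul_le_mul_of_nonneg_left ?_ (by positivity)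
  refine setIntegral_mono_set ?_ (Filter.Eventually.of_forall fun w => ?_) hs.eventuallyLE
  · exact (hφ.norm.pow 2).continuousOn.integrableOn_compact (isCompact_closedBall _ _)
  · show 0 ≤ ‖φ n w‖ ^ 2
    positivity

lemma SS_mono {n : ℕ} (hh : 0 < h n) (hφ : Continuous (φ n)) {c c' : ℝ} (hc : c ≤ c') (z : ℂ) :
    SS h φ c n z ≤ SS h φ c' n z :=
  SS_le hφ (Metric.closedBall_subset_closedBall (by gcongr))

lemma SS_shift {n : ℕ} (hφ : Continuous (φ n)) (c d : ℝ) {z z' : ℂ}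
    (hz : dist z z' ≤ d * h n) : SS h φ c n z ≤ SS h φ (c + d) n z' := by
  refine SS_le hφ fun w hw => ?_
  rw [Metric.mem_closedBall] at hw ⊢
  calc dist w z' ≤ dist w z + dist z z' := dist_triangle _ _ _
    _ ≤ c * h n + d * h n := add_le_add hw hz
    _ = _ := by ring

lemma PB.congr {u v : ℕ → ℂ → ℂ} (hu : PB V h φ u) (he : ∀ n, ∀ z ∈ V, u n z = v n z) :
    PB V h φ v := by
  intro K hK hKV c hc
  obtain ⟨C, hC, h1⟩ := hu K hK hKV c hc
  refine ⟨C, hC, ?_⟩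
  filter_upwards [h1] with n hn z hz
  rw [← he n z (hKV hz)]
  exact hn z hz

lemma PB.add {u v : ℕ → ℂ → ℂ}
    (hu : PB V h φ u) (hv : PB V h φ v) : PB V h φ (fun n z => u n z + v n z) := by
  intro K hK hKV c hc
  obtain ⟨C, hC, h1⟩ := hu K hK hKV c hc
  obtain ⟨C', hC', h2⟩ := hv K hK hKV c hc
  refine ⟨C + C', add_nonneg hC hC', ?_⟩
  filter_upwards [h1, h2] with n hn hn' z hz
  calc ‖u n z + v n z‖ ≤ ‖u n z‖ + ‖v n z‖ := norm_add_le _ _
    _ ≤ C * √(SS h φ c n z) + C' * √(SS h φ c n z) := add_le_add (hn z hz) (hn' z hz)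
    _ = _ := by ring

lemma PB.const_mul {u : ℕ → ℂ → ℂ} (hu : PB V h φ u) {c : ℕ → ℂ} {B : ℝ}
    (hc : ∀ᶠ n in atTop, ‖c n‖ ≤ B) : PB V h φ (fun n z => c n * u n z) := by
  intro K hK hKV c' hc'
  obtain ⟨C, hC, h1⟩ := hu K hK hKV c' hc'
  refine ⟨max B 0 * C, mul_nonneg (le_max_right _ _) hC, ?_⟩
  filter_upwards [h1, hc] with n hn hcn z hz
  rw [norm_mul, mul_assoc]
  exact mul_le_mul (hcn.trans (le_max_left _ _)) (hn z hz) (norm_nonneg _) (le_max_right _ _)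

lemma PB.fn_mul {u : ℕ → ℂ → ℂ} (hu : PB V h φ u) {b : ℂ → ℂ} (hb : ContinuousOn b V) :
    PB V h φ (fun n z => b z * u n z) := by
  intro K hK hKV c' hc'
  obtain ⟨C, hC, h1⟩ := hu K hK hKV c' hc'
  obtain ⟨B, hB⟩ := hK.exists_bound_of_continuousOn (hb.mono hKV)
  refine ⟨max B 0 * C, mul_nonneg (le_max_right _ _) hC, ?_⟩
  filter_upwards [h1] with n hn z hz
  rw [norm_mul, mul_assoc]
  exact mul_le_mul ((hB z hz).trans (le_max_left _ _)) (hn z hz) (norm_nonneg _) (le_max_right _ _)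

lemma PB.conj {u : ℕ → ℂ → ℂ} (hu : PB V h φ u) :
    PB V h φ (fun n z => (starRingEnd ℂ) (u n z)) := by
  intro K hK hKV c hc
  obtain ⟨C, hC, h1⟩ := hu K hK hKV c hc
  refine ⟨C, hC, ?_⟩
  filter_upwards [h1] with n hn z hz
  rw [RCLike.norm_conj]
  exact hn z hz

/-- the interior estimate at scale `h` -/
lemma PB.ell (hV : IsOpen V) (hh : ∀ n, 0 < h n) (hh0 : Tendsto h atTop (𝓝 0))
    (hφ : ∀ n, Continuous (φ n)) {v : ℕ → ℂ → ℂ} (hv : SmoothSeq V v) (h1 : PB V h φ v)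
    (h2 : PB V h φ (hLap h v)) : PB V h φ (fun n z => (h n : ℂ) * dz (v n) z) := by
  intro K hK hKV c hc
  obtain ⟨δ, hδ, hδV⟩ := hK.exists_cthickening_subset_open hV hKV
  obtain ⟨C1, hC1, e1⟩ := h1 _ hK.cthickening hδV (c / 2) (by positivity)
  obtain ⟨C2, hC2, e2⟩ := h2 _ hK.cthickening hδV (c / 2) (by positivity)
  have hκ : 0 ≤ ∫ u, kap u := integral_nonneg kap_nonneg
  set d : ℝ := c / 2 with hd
  have hd0 : 0 < d := by positivity
  refine ⟨d⁻¹ * ((∫ u, kap u) * (C1 + d ^ 2 * C2)), by positivity, ?_⟩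
  have hsmall : ∀ᶠ n in atTop, d * h n ≤ δ := by
    have h0 := hh0.const_mul d
    rw [mul_zero] at h0
    exact (h0.eventually_lt_const hδ).mono fun n hn => hn.le
  filter_upwards [e1, e2, hsmall] with n hn1 hn2 hn3 z hz
  have hh' : 0 < d * h n := mul_pos hd0 (hh n)
  have hsub : ∀ w, dist w z ≤ d * h n → w ∈ Metric.cthickening δ K := fun w hw =>
    Metric.mem_cthickening_of_dist_le w z δ K hz (hw.trans hn3)
  have hb := scale_bound hV (hv n) hh' (z := z) fun w hw =>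
    hδV (hsub w (Metric.mem_closedBall.1 hw))
  have hS0 : 0 ≤ √(SS h φ c n z) := Real.sqrt_nonneg _
  have hkey : ∀ w : ℂ, kap w * (‖v n (z + ((d * h n : ℝ) : ℂ) * w)‖
      + ‖((d * h n : ℝ) : ℂ) ^ 2 * dz (dzb (v n)) (z + ((d * h n : ℝ) : ℂ) * w)‖)
      ≤ kap w * ((C1 + d ^ 2 * C2) * √(SS h φ c n z)) := by
    intro w
    by_cases hw : 1 < ‖w‖
    · rw [kap_eq_zero hw, zero_mul, zero_mul]
    · refine mul_le_mul_of_nonneg_left ?_ (kap_nonneg w)
      rw [not_lt] at hw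
      have hdd : dist (z + ((d * h n : ℝ) : ℂ) * w) z ≤ d * h n := by
        rw [dist_eq_norm, add_sub_cancel_left, norm_mul, Complex.norm_real,
          Real.norm_of_nonneg hh'.le]
        calc d * h n * ‖w‖ ≤ d * h n * 1 := mul_le_mul_of_nonneg_left hw hh'.le
          _ = d * h n := mul_one _
      have a1 := hn1 _ (hsub _ hdd)
      have a2 := hn2 _ (hsub _ hdd)
      have b1 : √(SS h φ d n (z + ((d * h n : ℝ) : ℂ) * w)) ≤ √(SS h φ c n z) := by
        refine Real.sqrt_le_sqrt ?_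
        have := SS_shift (h := h) (hφ n) d d hdd
        rwa [show d + d = c by rw [hd]; ring] at this
      have a3 : ‖((d * h n : ℝ) : ℂ) ^ 2 * dz (dzb (v n)) (z + ((d * h n : ℝ) : ℂ) * w)‖
          = d ^ 2 * ‖(h n : ℂ) ^ 2 * dz (dzb (v n)) (z + ((d * h n : ℝ) : ℂ) * w)‖ := by
        rw [norm_mul, norm_mul, norm_pow, norm_pow, Complex.norm_real, Complex.norm_real,
          Real.norm_of_nonneg hh'.le, Real.norm_of_nonneg (hh n).le]
        ring
      rw [a3]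
      calc ‖v n (z + ((d * h n : ℝ) : ℂ) * w)‖
            + d ^ 2 * ‖(h n : ℂ) ^ 2 * dz (dzb (v n)) (z + ((d * h n : ℝ) : ℂ) * w)‖
          ≤ C1 * √(SS h φ d n (z + ((d * h n : ℝ) : ℂ) * w))
            + d ^ 2 * (C2 * √(SS h φ d n (z + ((d * h n : ℝ) : ℂ) * w))) :=
            add_le_add a1 (mul_le_mul_of_nonneg_left a2 (by positivity))
        _ ≤ C1 * √(SS h φ c n z) + d ^ 2 * (C2 * √(SS h φ c n z)) := by
            gcongr
        _ = _ := by ring
  have hfin : ‖((d * h n : ℝ) : ℂ) * dz (v n) z‖ ≤ (∫ u, kap u) * ((C1 + d ^ 2 * C2)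
      * √(SS h φ c n z)) := by
    refine hb.trans ?_
    calc ∫ u, kap u * (‖v n (z + ((d * h n : ℝ) : ℂ) * u)‖
          + ‖((d * h n : ℝ) : ℂ) ^ 2 * dz (dzb (v n)) (z + ((d * h n : ℝ) : ℂ) * u)‖)
        ≤ ∫ u, kap u * ((C1 + d ^ 2 * C2) * √(SS h φ c n z)) :=
          integral_mono_of_nonneg
            (Filter.Eventually.of_forall fun w => mul_nonneg (kap_nonneg w) (by positivity))
            (kap_integrable.mul_const _) (Filter.Eventually.of_forall hkey)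
      _ = _ := by rw [integral_mul_const]
  have e3 : ‖(h n : ℂ) * dz (v n) z‖ = d⁻¹ * ‖((d * h n : ℝ) : ℂ) * dz (v n) z‖ := by
    rw [norm_mul, norm_mul, Complex.norm_real, Complex.norm_real,
      Real.norm_of_nonneg hh'.le, Real.norm_of_nonneg (hh n).le]
    field_simp
  rw [e3]
  calc d⁻¹ * ‖((d * h n : ℝ) : ℂ) * dz (v n) z‖
      ≤ d⁻¹ * ((∫ u, kap u) * ((C1 + d ^ 2 * C2) * √(SS h φ c n z))) :=
        mul_le_mul_of_nonneg_left hfin (by positivity)
    _ = _ := by ring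

lemma PB.ellb (hV : IsOpen V) (hh : ∀ n, 0 < h n) (hh0 : Tendsto h atTop (𝓝 0))
    (hφ : ∀ n, Continuous (φ n)) {v : ℕ → ℂ → ℂ} (hv : SmoothSeq V v) (h1 : PB V h φ v)
    (h2 : PB V h φ (hLap h v)) : PB V h φ (fun n z => (h n : ℂ) * dzb (v n) z) := by
  have h3 : PB V h φ (hLap h (fun n z => (starRingEnd ℂ) (v n z))) := by
    refine h2.conj.congr fun n z hz => ?_
    unfold hLap
    rw [dz_congr_on hV (f := dzb fun w => (starRingEnd ℂ) (v n w))
      (g := fun w => (starRingEnd ℂ) (dz (v n) w)) (fun w hw => dzb_conj (hv.dAt hV n hw)) hz,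
      dz_conj ((SmoothSeq.dz hV hv).dAt hV n hz), map_mul, map_pow, conj_ofReal,
      dz_dzb_comm (((hv n).contDiffAt (hV.mem_nhds hz)).of_le (WithTop.coe_le_coe.2 le_top))]
  have h4 := (PB.ell hV hh hh0 hφ hv.conj h1.conj h3).conj
  refine h4.congr fun n z hz => ?_
  rw [dz_conj (hv.dAt hV n hz)]; simp

lemma PK.congr (hV : IsOpen V) {k : ℕ} : ∀ {u v : ℕ → ℂ → ℂ}, PK V h φ k u →
    (∀ n, ∀ z ∈ V, u n z = v n z) → PK V h φ k v := by
  induction k with
  | zero => intro u v hu he; exact PB.congr hu he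
  | succ k ih =>
    intro u v hu he
    refine ⟨hu.1.congr he, ih hu.2.1 fun n z hz => ?_, ih hu.2.2 fun n z hz => ?_⟩
    · rw [dz_congr_on hV (he n) hz]
    · rw [dzb_congr_on hV (he n) hz]

lemma PK.pb {k : ℕ} {u : ℕ → ℂ → ℂ} (hu : PK V h φ k u) : PB V h φ u := by
  cases k with
  | zero => exact hu
  | succ k => exact hu.1

lemma PK.mono {k : ℕ} : ∀ {u : ℕ → ℂ → ℂ}, PK V h φ (k + 1) u → PK V h φ k u := by
  induction k with
  | zero => intro u hu; exact hu.1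
  | succ k ih => intro u hu; exact ⟨hu.1, ih hu.2.1, ih hu.2.2⟩

lemma PK.add (hV : IsOpen V) (hh : ∀ n, 0 < h n) (hφ : ∀ n, Continuous (φ n)) {k : ℕ} :
    ∀ {u v : ℕ → ℂ → ℂ}, PK V h φ k u → SmoothSeq V u →
    PK V h φ k v → SmoothSeq V v → PK V h φ k (fun n z => u n z + v n z) := by
  induction k with
  | zero => intro u v hu su hv sv; exact PB.add hu hv
  | succ k ih =>
    intro u v hu su hv sv
    refine ⟨hu.1.add hv.1, ?_, ?_⟩
    · refine (ih hu.2.1 (su.hdz hV) hv.2.1 (sv.hdz hV)).congr hV fun n z hz => ?_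
      rw [dz_add (su.dAt hV n hz) (sv.dAt hV n hz)]; ring
    · refine (ih hu.2.2 (su.hdzb hV) hv.2.2 (sv.hdzb hV)).congr hV fun n z hz => ?_
      rw [dzb_add (su.dAt hV n hz) (sv.dAt hV n hz)]; ring

lemma PK.const_mul (hV : IsOpen V) {c : ℕ → ℂ} {B : ℝ} (hc : ∀ᶠ n in atTop, ‖c n‖ ≤ B)
    {k : ℕ} : ∀ {u : ℕ → ℂ → ℂ}, PK V h φ k u → SmoothSeq V u →
    PK V h φ k (fun n z => c n * u n z) := by
  induction k with
  | zero => intro u hu su; exact PB.const_mul hu hc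
  | succ k ih =>
    intro u hu su
    refine ⟨hu.1.const_mul hc, ?_, ?_⟩
    · refine (ih hu.2.1 (su.hdz hV)).congr hV fun n z hz => ?_
      rw [dz_const_mul _ (su.dAt hV n hz)]; ring
    · refine (ih hu.2.2 (su.hdzb hV)).congr hV fun n z hz => ?_
      rw [dzb_const_mul _ (su.dAt hV n hz)]; ring

lemma PK.fn_mul (hV : IsOpen V) (hh : ∀ n, 0 < h n) (hh0 : Tendsto h atTop (𝓝 0))
    (hφ : ∀ n, Continuous (φ n)) {k : ℕ} :
    ∀ {u : ℕ → ℂ → ℂ} {b : ℂ → ℂ}, PK V h φ k u → SmoothSeq V u →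
    ContDiffOn ℝ ∞ b V → PK V h φ k (fun n z => b z * u n z) := by
  induction k with
  | zero => intro u b hu su hb; exact PB.fn_mul hu hb.continuousOn
  | succ k ih =>
    intro u b hu su hb
    have hbz := contDiffOn_dz hV hb
    have hbzb := contDiffOn_dzb hV hb
    have hbd' : ∀ z ∈ V, DifferentiableAt ℝ b z := fun z hz =>
      (hb.contDiffAt (hV.mem_nhds hz)).differentiableAt (by simp)
    refine ⟨hu.1.fn_mul hb.continuousOn, ?_, ?_⟩
    · have t1 := ih hu.2.1 (su.hdz hV) hb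
      have t2 := (ih hu.mono su hbz).const_mul hV (hbd hh0) (su.fn_mul hbz)
      refine (t1.add hV hh hφ ((su.hdz hV).fn_mul hb) t2 ((su.fn_mul hbz).const_mul _)).congr hV
        fun n z hz => ?_
      rw [dz_mul (hbd' z hz) (su.dAt hV n hz)]; ring
    · have t1 := ih hu.2.2 (su.hdzb hV) hb
      have t2 := (ih hu.mono su hbzb).const_mul hV (hbd hh0) (su.fn_mul hbzb)
      refine (t1.add hV hh hφ ((su.hdzb hV).fn_mul hb) t2 ((su.fn_mul hbzb).const_mul _)).congr hV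
        fun n z hz => ?_
      rw [dzb_mul (hbd' z hz) (su.dAt hV n hz)]; ring

lemma PK.step (hV : IsOpen V) (hh : ∀ n, 0 < h n) (hh0 : Tendsto h atTop (𝓝 0))
    (hφ : ∀ n, Continuous (φ n)) {k : ℕ} :
    ∀ {v : ℕ → ℂ → ℂ}, SmoothSeq V v → PK V h φ k v → PK V h φ k (hLap h v) →
      PK V h φ (k + 1) v := by
  have hc : ∀ (v : ℕ → ℂ → ℂ), SmoothSeq V v → ∀ n, ∀ z ∈ V, dz (dzb (v n)) z
      = dzb (dz (v n)) z := fun v hv n z hz =>
    dz_dzb_comm (((hv n).contDiffAt (hV.mem_nhds hz)).of_le (WithTop.coe_le_coe.2 le_top))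
  induction k with
  | zero =>
    intro v hv h1 h2
    exact ⟨h1, PB.ell hV hh hh0 hφ hv h1 h2, PB.ellb hV hh hh0 hφ hv h1 h2⟩
  | succ k ih =>
    intro v hv h1 h2
    refine ⟨h1.1, ih (hv.hdz hV) h1.2.1 ?_, ih (hv.hdzb hV) h1.2.2 ?_⟩
    · refine h2.2.1.congr hV fun n z hz => ?_
      have e1 : ∀ w ∈ V, dzb (fun w => (h n : ℂ) * dz (v n) w) w
          = (h n : ℂ) * dz (dzb (v n)) w := by
        intro w hw
        rw [dzb_const_mul _ ((SmoothSeq.dz hV hv).dAt hV n hw), hc v hv n w hw]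
      unfold hLap
      rw [dz_congr_on hV e1 hz, dz_const_mul _ ((SmoothSeq.dz hV (SmoothSeq.dzb hV hv)).dAt hV n hz),
        dz_const_mul _ ((SmoothSeq.dz hV (SmoothSeq.dzb hV hv)).dAt hV n hz)]
      ring
    · refine h2.2.2.congr hV fun n z hz => ?_
      have e1 : ∀ w ∈ V, dzb (fun w => (h n : ℂ) * dzb (v n) w) w
          = (h n : ℂ) * dzb (dzb (v n)) w := by
        intro w hw
        rw [dzb_const_mul _ ((SmoothSeq.dzb hV hv).dAt hV n hw)]
      have e2 := hc (fun n => dzb (v n)) (SmoothSeq.dzb hV hv) n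
      unfold hLap
      rw [dz_congr_on hV e1 hz,
        dz_const_mul _ ((SmoothSeq.dzb hV (SmoothSeq.dzb hV hv)).dAt hV n hz), e2 z hz,
        dzb_const_mul _ ((SmoothSeq.dz hV (SmoothSeq.dzb hV hv)).dAt hV n hz)]
      ring

/-- all the rescaled derivatives of a solution -/
lemma PK.all (hV : IsOpen V) (hh : ∀ n, 0 < h n) (hh0 : Tendsto h atTop (𝓝 0))
    (hφ : ∀ n, Continuous (φ n)) {v : ℕ → ℂ → ℂ} (hv : SmoothSeq V v) (h1 : PB V h φ v)
    {b : ℂ → ℂ} (hb : ContDiffOn ℝ ∞ b V) (he : ∀ n, ∀ z ∈ V, hLap h v n z = b z * v n z)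
    (k : ℕ) : PK V h φ k v := by
  induction k with
  | zero => exact h1
  | succ k ih =>
    exact PK.step hV hh hh0 hφ hv ih ((ih.fn_mul hV hh hh0 hφ hv hb).congr hV
      fun n z hz => (he n z hz).symm)

/-- the function itself -/
lemma PB.base (hSup : StmtSup) {σ : ℂ → ℝ} (L : LocB V σ h φ) : PB V h φ φ := by
  obtain ⟨C0, hC0, hS⟩ := hSup
  intro K hK hKV c hc
  obtain ⟨δ, hδ, hδV⟩ := hK.exists_cthickening_subset_open L.op hKV
  obtain ⟨B, hB⟩ := hK.cthickening.exists_bound_of_continuousOn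
    ((contDiff_ex L.sm 2).continuous.continuousOn (s := Metric.cthickening δ K))
  set d : ℝ := c / 3 with hd
  have hd0 : 0 < d := by positivity
  refine ⟨√(C0 / d ^ 2 * (1 + (d ^ 2 * B) ^ 2)), Real.sqrt_nonneg _, ?_⟩
  have hsmall : ∀ᶠ n in atTop, h n < δ / c := L.hlim.eventually_lt_const (by positivity)
  filter_upwards [hsmall] with n hn z hz
  have hh := L.hpos n
  have hh' : 0 < d * h n := mul_pos hd0 hh
  have h3d : 3 * (d * h n) = c * h n := by rw [hd]; ring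
  have hcn : c * h n ≤ δ := by
    rw [lt_div_iff₀ hc] at hn
    linarith
  have hφ : Continuous (φ n) := (L.smφ n).continuous
  have hsub : ∀ w ∈ Metric.closedBall z (c * h n), w ∈ Metric.cthickening δ K := fun w hw =>
    Metric.mem_cthickening_of_dist_le w z δ K hz ((Metric.mem_closedBall.1 hw).trans hcn)
  have h1 := hS (φ n) z (d * h n) (L.smφ n) hh'
  rw [h3d] at h1
  have h2 : ∫ w in Metric.closedBall z (c * h n),
      (‖φ n w‖ ^ 2 + ‖((d * h n : ℝ) : ℂ) ^ 2 * dz (dzb (φ n)) w‖ ^ 2) ≤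
      (1 + (d ^ 2 * B) ^ 2) * ∫ w in Metric.closedBall z (c * h n), ‖φ n w‖ ^ 2 := by
    rw [← integral_const_mul]
    have i1 : Continuous fun w => ‖φ n w‖ ^ 2 + ‖((d * h n : ℝ) : ℂ) ^ 2 * dz (dzb (φ n)) w‖ ^ 2 :=
      (hφ.norm.pow 2).add ((continuous_const.mul
        (contDiff_dz (contDiff_dzb (L.smφ n))).continuous).norm.pow 2)
    have i2 : Continuous fun w => (1 + (d ^ 2 * B) ^ 2) * ‖φ n w‖ ^ 2 :=
      continuous_const.mul (hφ.norm.pow 2)
    refine setIntegral_mono_on (i1.continuousOn.integrableOn_compact (isCompact_closedBall _ _))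
      (i2.continuousOn.integrableOn_compact (isCompact_closedBall _ _))
      measurableSet_closedBall fun w hw => ?_
    have e1 := L.eig n w (hδV (hsub w hw))
    have e2 : ((d * h n : ℝ) : ℂ) ^ 2 * dz (dzb (φ n)) w
        = (d : ℂ) ^ 2 * (-(1 / 4) * (ex σ 2 w * φ n w)) := by
      push_cast
      linear_combination ((d : ℂ) ^ 2 * (1 / 4)) * e1
    have e3 : ‖((d * h n : ℝ) : ℂ) ^ 2 * dz (dzb (φ n)) w‖ ≤ d ^ 2 * B * ‖φ n w‖ := by
      rw [e2, norm_mul, norm_mul, norm_mul, norm_pow, Complex.norm_real,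
        Real.norm_of_nonneg hd0.le]
      have e4 : ‖(-(1 / 4) : ℂ)‖ ≤ 1 := by norm_num
      have e5 := hB w (hsub w hw)
      calc d ^ 2 * (‖(-(1 / 4) : ℂ)‖ * (‖ex σ 2 w‖ * ‖φ n w‖))
          ≤ d ^ 2 * (1 * (B * ‖φ n w‖)) := by gcongr
        _ = _ := by ring
    have e6 : ‖((d * h n : ℝ) : ℂ) ^ 2 * dz (dzb (φ n)) w‖ ^ 2 ≤ (d ^ 2 * B * ‖φ n w‖) ^ 2 :=
      pow_le_pow_left₀ (norm_nonneg _) e3 2
    nlinarith [e6]
  have h3 : ‖φ n z‖ ^ 2 ≤ C0 / d ^ 2 * (1 + (d ^ 2 * B) ^ 2) * SS h φ c n z := by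
    refine h1.trans ?_
    unfold SS
    calc C0 / (d * h n) ^ 2 * _ ≤ C0 / (d * h n) ^ 2 * ((1 + (d ^ 2 * B) ^ 2) *
          ∫ w in Metric.closedBall z (c * h n), ‖φ n w‖ ^ 2) :=
          mul_le_mul_of_nonneg_left h2 (by positivity)
      _ = _ := by
          field_simp
  rw [← Real.sqrt_mul (by positivity)]
  exact Real.le_sqrt_of_sq_le h3

/-- bounds by one plus the local `L²` norm -/
def QB (h : ℕ → ℝ) (φ : ℕ → ℂ → ℂ) (K : Set ℂ) (F : ℕ → ℂ → ℝ) : Prop :=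
  ∀ c : ℝ, 0 < c → ∃ C : ℝ, 0 ≤ C ∧ ∀ᶠ n in atTop, ∀ z ∈ K, F n z ≤ C * (1 + SS h φ c n z)

lemma QB.one (K : Set ℂ) : QB h φ K (fun _ _ => 1) := by
  intro c _
  refine ⟨1, zero_le_one, Filter.Eventually.of_forall fun n z _ => ?_⟩
  have := SS_nonneg (h := h) (φ := φ) c n z
  simp only []
  linarith

lemma QB.zero (K : Set ℂ) : QB h φ K (fun _ _ => 0) := by
  intro c _
  refine ⟨1, zero_le_one, Filter.Eventually.of_forall fun n z _ => ?_⟩
  have := SS_nonneg (h := h) (φ := φ) c n z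
  simp only []
  linarith

lemma QB.add {K : Set ℂ} {F G : ℕ → ℂ → ℝ}
    (hF : QB h φ K F) (hG : QB h φ K G) : QB h φ K (fun n z => F n z + G n z) := by
  intro c hc
  obtain ⟨C, hC, h1⟩ := hF c hc
  obtain ⟨C', hC', h2⟩ := hG c hc
  refine ⟨C + C', add_nonneg hC hC', ?_⟩
  filter_upwards [h1, h2] with n hn hn' z hz
  calc F n z + G n z ≤ C * (1 + SS h φ c n z) + C' * (1 + SS h φ c n z) :=
        add_le_add (hn z hz) (hn' z hz)
    _ = _ := by ring

lemma QB.sum {K : Set ℂ}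
    (F : ℕ → ℕ → ℂ → ℝ) (hF : ∀ a, QB h φ K (F a)) (N : ℕ) :
    QB h φ K (fun n z => ∑ a ∈ Finset.range N, F a n z) := by
  induction N with
  | zero => simpa using QB.zero (h := h) (φ := φ) K
  | succ N ih =>
    simp only [Finset.sum_range_succ]
    exact ih.add (hF N)

lemma PB.qb {K : Set ℂ} (hK : IsCompact K) (hKV : K ⊆ V) {u : ℕ → ℂ → ℂ} (hu : PB V h φ u) :
    QB h φ K (fun n z => ‖u n z‖ ^ 2) := by
  intro c hc
  obtain ⟨C, hC, h1⟩ := hu K hK hKV c hc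
  refine ⟨C ^ 2, sq_nonneg C, ?_⟩
  filter_upwards [h1] with n hn z hz
  have e0 := SS_nonneg (h := h) (φ := φ) c n z
  calc ‖u n z‖ ^ 2 ≤ (C * √(SS h φ c n z)) ^ 2 := pow_le_pow_left₀ (norm_nonneg _) (hn z hz) 2
    _ = C ^ 2 * SS h φ c n z := by rw [mul_pow, Real.sq_sqrt e0]
    _ ≤ C ^ 2 * (1 + SS h φ c n z) := by gcongr; linarith

lemma it_smooth (hφ : ∀ n, ContDiff ℝ ∞ (φ n)) (b a n : ℕ) :
    ContDiff ℝ ∞ (dz^[a] (dzb^[b] (φ n))) := by
  have h1 : ContDiff ℝ ∞ (dzb^[b] (φ n)) := by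
    induction b with
    | zero => exact hφ n
    | succ b ih => rw [Function.iterate_succ_apply']; exact contDiff_dzb ih
  induction a with
  | zero => exact h1
  | succ a ih => rw [Function.iterate_succ_apply']; exact contDiff_dz ih

lemma pk_W (hV : IsOpen V) (hφ : ∀ n, ContDiff ℝ ∞ (φ n)) (h1 : ∀ k, PK V h φ k φ) (a b : ℕ) :
    ∀ k, PK V h φ k (W h φ a b) := by
  have hb : ∀ b k, PK V h φ k (W h φ 0 b) := by
    intro b
    induction b with
    | zero =>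
      intro k
      refine (h1 k).congr hV fun n z _ => ?_
      simp [W]
    | succ b ih =>
      intro k
      refine (ih (k + 1)).2.2.congr hV fun n z _ => ?_
      have e : W h φ 0 b n = fun w => (h n : ℂ) ^ b * dzb^[b] (φ n) w := by
        funext w
        simp [W]
      have hd : DifferentiableAt ℝ (dzb^[b] (φ n)) z := by
        have := it_smooth hφ b 0 n
        exact (this.differentiable (by simp)) z
      rw [e, dzb_const_mul _ hd]
      unfold W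
      rw [Function.iterate_zero, id_eq, Function.iterate_succ_apply', zero_add, pow_succ]
      ring
  induction a with
  | zero => exact hb b
  | succ a ih =>
    intro k
    refine (ih (k + 1)).2.1.congr hV fun n z _ => ?_
    have e : W h φ a b n = fun w => (h n : ℂ) ^ (a + b) * dz^[a] (dzb^[b] (φ n)) w := rfl
    have hd : DifferentiableAt ℝ (dz^[a] (dzb^[b] (φ n))) z :=
      ((it_smooth hφ b a n).differentiable (by simp)) z
    rw [e, dz_const_mul _ hd]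
    unfold W
    rw [Function.iterate_succ_apply', show a + 1 + b = a + b + 1 by ring, pow_succ]
    ring

end PTW

/-- the jets are bounded by the local `L²` norm of `φ` on balls of radius `c h`, for every `c > 0` -/
theorem ptwC (hSup : StmtSup) {V : Set ℂ} {σ : ℂ → ℝ} {h : ℕ → ℝ} {φ : ℕ → ℂ → ℂ}
    (L : LocB V σ h φ) {K : Set ℂ} (hK : IsCompact K) (hKV : K ⊆ V) (N : ℕ) {c : ℝ} (hc : 0 < c) :
    ∃ C : ℝ, 0 ≤ C ∧ ∀ᶠ n in atTop, ∀ z ∈ K, RR h φ N n z
      ≤ C * (1 + 1 / h n ^ 2 * ∫ w in Metric.closedBall z (c * h n), ‖φ n w‖ ^ 2) := by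
  have hφ : ∀ n, Continuous (φ n) := fun n => (L.smφ n).continuous
  have hsm : SmoothSeq V φ := fun n => (L.smφ n).contDiffOn
  have hbase := PTW.PB.base hSup L
  have hb : ContDiffOn ℝ ∞ (fun z => -(1 / 4) * ex σ 2 z) V :=
    (contDiff_const.mul (contDiff_ex L.sm 2)).contDiffOn
  have hall := PTW.PK.all L.op L.hpos L.hlim hφ hsm hbase hb (fun n z hz => by
    have e1 := L.eig n z hz
    unfold hLap
    linear_combination (1 / 4) * e1)
  have hW : ∀ a b, PTW.PB V h φ (W h φ a b) := fun a b =>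
    (PTW.pk_W L.op L.smφ hall a b 0).pb
  have hR : PTW.QB h φ K (fun n z => 1 + ∑ a ∈ Finset.range (N + 1), ∑ b ∈ Finset.range (N + 1),
      ‖W h φ a b n z‖ ^ 2) := by
    refine (PTW.QB.one K).add ?_
    exact PTW.QB.sum _ (fun a => PTW.QB.sum _ (fun b => (hW a b).qb hK hKV) (N + 1)) (N + 1)
  exact hR c hc

end

end BSL
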