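import Pool.Agent.BSL.IBPW
import Pool.Agent.BSL.PTWC

/-!
# Theorem B, local theory: from local means to jets (helper67)
-/

open Complex MeasureTheory Filter Topology Set
open scoped ContDiff

namespace BSL

open QE QJ U3

noncomputable section

variable {V : Set ℂ} {σ : ℂ → ℝ} {h : ℕ → ℝ} {φ : ℕ → ℂ → ℂ} {θ : ℕ → ℂ → ℝ}

/-- the integral over balls depends continuously on the centre -/
lemma continuous_ball {f : ℂ → ℝ} (hf : Continuous f) (r : ℝ) :
    Continuous fun z => ∫ w in Metric.closedBall z r, f w := by
  have e : ∀ z : ℂ, ∫ w in Metric.closedBall z r, f w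
      = ∫ w in Metric.closedBall (0 : ℂ) r, f (z + w) := by
    intro z
    have h1 := (measurePreserving_add_left (volume : Measure ℂ) z).setIntegral_preimage_emb
      (measurableEmbedding_addLeft z) f (Metric.closedBall z r)
    rw [← h1]
    congr 2
    ext w
    simp [Metric.mem_closedBall, dist_eq_norm]
  simp only [e]
  refine continuous_parametric_integral_of_continuous ?_ (isCompact_closedBall _ _)
  exact hf.comp (continuous_fst.add continuous_snd)

lemma continuous_Mn (hφ : ∀ n, Continuous (φ n)) (L : ℝ) (n : ℕ) : Continuous (Mn L h φ n) := by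
  unfold Mn
  exact continuous_const.add (continuous_const.mul (continuous_ball ((hφ n).norm.pow 2) _))

lemma one_le_Mn (L : ℝ) (n : ℕ) (z : ℂ) : 1 ≤ Mn L h φ n z := by
  unfold Mn
  have : 0 ≤ 1 / h n ^ 2 * ∫ w in Metric.closedBall z (L * h n), ‖φ n w‖ ^ 2 :=
    mul_nonneg (by positivity) (integral_nonneg fun w => by positivity)
  linarith

/-- WTR: from local means to jets -/
theorem wtR : StmtWtR := by
  intro V σ h φ L θ hL W
  have hφc : ∀ n, Continuous (φ n) := fun n => (W.smφ n).continuous
  have hM := fun n => continuous_Mn (h := h) hφc L n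
  have hR := fun N n => continuous_RR (h := h) W.smφ N n
  refine ⟨W.toLocB, W.smθ, W.nonneg, W.le_one, ?_, ?_, ?_⟩
  · intro K hK hKV N
    obtain ⟨C, hC, hn⟩ := ptwC QJ.stmtSup W.toLocB hK hKV N hL
    have h1 := (W.big K hK hKV).const_mul C
    rw [mul_zero] at h1
    refine squeeze_zero' (Filter.Eventually.of_forall fun n => integral_nonneg fun z => ?_) ?_ h1
    · exact mul_nonneg (by have := W.le_one n z; linarith) (RR_pos h φ N n z).le
    · filter_upwards [hn] with n hn
      rw [← integral_const_mul]
      refine setIntegral_mono_on ?_ ?_ hK.measurableSet fun z hz => ?_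
      · exact ((continuous_const.sub (W.smθ n).continuous).mul
          (hR N n)).continuousOn.integrableOn_compact hK
      · exact (continuous_const.mul ((continuous_const.sub (W.smθ n).continuous).mul
          (hM n))).continuousOn.integrableOn_compact hK
      · have h2 := hn z hz
        have h3 : 0 ≤ 1 - θ n z := by have := W.le_one n z; linarith
        calc (1 - θ n z) * RR h φ N n z ≤ (1 - θ n z) * (C * Mn L h φ n z) :=
              mul_le_mul_of_nonneg_left h2 h3
          _ = _ := by ring
  · intro K hK hKV N ε hε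
    obtain ⟨C, hC, hn⟩ := ptwC QJ.stmtSup W.toLocB hK hKV N hL
    obtain ⟨T, hT⟩ := W.ui K hK hKV (ε / (C ^ 2 + 1)) (by positivity)
    refine ⟨C * |T|, ?_⟩
    filter_upwards [hn, hT] with n hn hT
    have hbm : ∀ (f : ℂ → ℝ) (c : ℝ), Continuous f →
        IntegrableOn (fun z => if c < f z then f z ^ 2 else 0) K := by
      intro f c hf
      have h1 : IntegrableOn (fun z => f z ^ 2) K := (hf.pow 2).continuousOn.integrableOn_compact hK
      refine Integrable.mono h1 ?_ (Filter.Eventually.of_forall fun z => ?_)
      · exact (Measurable.ite (measurableSet_lt measurable_const hf.measurable)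
          (hf.measurable.pow_const 2) measurable_const).aestronglyMeasurable
      · split_ifs
        · exact le_rfl
        · rw [norm_zero]; exact norm_nonneg _
    have hc1 : Continuous fun z => θ n z * RR h φ N n z := (W.smθ n).continuous.mul (hR N n)
    have hc2 : Continuous fun z => θ n z * Mn L h φ n z := (W.smθ n).continuous.mul (hM n)
    have hle : ∫ z in K, (if C * |T| < θ n z * RR h φ N n z then (θ n z * RR h φ N n z) ^ 2 else 0)
        ≤ ∫ z in K, C ^ 2 * (if T < θ n z * Mn L h φ n z then (θ n z * Mn L h φ n z) ^ 2 else 0) := by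
      refine setIntegral_mono_on (hbm _ _ hc1) ((hbm _ _ hc2).const_mul _) hK.measurableSet
        fun z hz => ?_
      have h2 : RR h φ N n z ≤ C * Mn L h φ n z := hn z hz
      have h3 := W.nonneg n z
      have h4 : θ n z * RR h φ N n z ≤ C * (θ n z * Mn L h φ n z) := by
        calc θ n z * RR h φ N n z ≤ θ n z * (C * Mn L h φ n z) := mul_le_mul_of_nonneg_left h2 h3
          _ = _ := by ring
      have h5 : 0 ≤ θ n z * RR h φ N n z := mul_nonneg h3 (RR_pos h φ N n z).le
      by_cases hc : C * |T| < θ n z * RR h φ N n z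
      · rw [if_pos hc]
        have h6 : T < θ n z * Mn L h φ n z := by
          by_contra hcon
          rw [not_lt] at hcon
          have h7 : C * (θ n z * Mn L h φ n z) ≤ C * |T| :=
            mul_le_mul_of_nonneg_left (hcon.trans (le_abs_self T)) hC
          linarith
        rw [if_pos h6, ← mul_pow]
        exact pow_le_pow_left₀ h5 h4 2
      · rw [if_neg hc]
        refine mul_nonneg (sq_nonneg _) ?_
        split_ifs
        · positivity
        · exact le_rfl
    refine hle.trans ?_
    rw [integral_const_mul]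
    calc C ^ 2 * ∫ z in K, (if T < θ n z * Mn L h φ n z then (θ n z * Mn L h φ n z) ^ 2 else 0)
        ≤ C ^ 2 * (ε / (C ^ 2 + 1)) := mul_le_mul_of_nonneg_left hT (sq_nonneg _)
      _ ≤ ε := by
          rw [mul_div_assoc', div_le_iff₀ (by positivity)]
          nlinarith [sq_nonneg C]
  · intro K hK hKV N
    obtain ⟨C, hC, hn⟩ := ptwC QJ.stmtSup W.toLocB hK hKV N hL
    have h1 := (W.grad K hK hKV).const_mul (C ^ 2)
    rw [mul_zero] at h1
    have hdθ : ∀ n, Continuous fun z => ‖dz (fun w => (θ n w : ℂ)) z‖ := fun n =>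
      (contDiff_dz (contDiff_ofR (W.smθ n))).continuous.norm
    refine squeeze_zero' (Filter.Eventually.of_forall fun n => mul_nonneg (W.hpos n).le
      (integral_nonneg fun z => by positivity)) ?_ h1
    filter_upwards [hn] with n hn
    have hle : ∫ z in K, ‖dz (fun w => (θ n w : ℂ)) z‖ * RR h φ N n z ^ 2
        ≤ ∫ z in K, C ^ 2 * (‖dz (fun w => (θ n w : ℂ)) z‖ * Mn L h φ n z ^ 2) := by
      refine setIntegral_mono_on ?_ ?_ hK.measurableSet fun z hz => ?_
      · exact ((hdθ n).mul ((hR N n).pow 2)).continuousOn.integrableOn_compact hK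
      · exact (continuous_const.mul
          ((hdθ n).mul ((hM n).pow 2))).continuousOn.integrableOn_compact hK
      · have h2 : RR h φ N n z ≤ C * Mn L h φ n z := hn z hz
        have h3 : RR h φ N n z ^ 2 ≤ (C * Mn L h φ n z) ^ 2 :=
          pow_le_pow_left₀ (RR_pos h φ N n z).le h2 2
        calc ‖dz (fun w => (θ n w : ℂ)) z‖ * RR h φ N n z ^ 2
            ≤ ‖dz (fun w => (θ n w : ℂ)) z‖ * (C * Mn L h φ n z) ^ 2 :=
              mul_le_mul_of_nonneg_left h3 (norm_nonneg _)
          _ = _ := by ring
    calc h n * ∫ z in K, ‖dz (fun w => (θ n w : ℂ)) z‖ * RR h φ N n z ^ 2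
        ≤ h n * ∫ z in K, C ^ 2 * (‖dz (fun w => (θ n w : ℂ)) z‖ * Mn L h φ n z ^ 2) :=
          mul_le_mul_of_nonneg_left hle (W.hpos n).le
      _ = _ := by rw [integral_const_mul]; ring

end

end BSL
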