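import Pool.Agent.BSL.PTF
import Pool.Agent.BSL.WTR
import Pool.Agent.BSL.POSW

/-!
# The local four-point formula with weights (module F4W)
-/

open Complex MeasureTheory Filter Topology Set
open UpperHalfPlane hiding I
open scoped ContDiff MatrixGroups ProbabilityTheory

namespace BSL

open QE QE.NC QJ U3 NFP

noncomputable section

namespace F4

variable {V : Set ℂ} {σ : ℂ → ℝ} {h : ℕ → ℝ} {φ : ℕ → ℂ → ℂ} {θ : ℕ → ℂ → ℝ}

/-- the Wick sums of total index zero do not change when the moments are multiplied by `I ^ k` -/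
lemma GW_um (s : ProbabilityTheory.Kernel ℍ S1) {a b c d : ℤ} (h : a + b + c + d = 0) (z : ℂ) :
    GW (um s) a b c d z = GW (fun k z => cof (s (ofComplex z)) k) a b c d z := by
  have key : ∀ x y : ℤ, x + y = 0 → (Complex.I : ℂ) ^ x * Complex.I ^ y = 1 := by
    intro x y hxy
    rw [← zpow_add₀ Complex.I_ne_zero, hxy, zpow_zero]
  have e1 := key (a + b) (c + d) (by omega)
  have e2 := key (a + c) (b + d) (by omega)
  have e3 := key (a + d) (b + c) (by omega)
  unfold GW WW um
  linear_combination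
    ((-1) ^ a * (-1) ^ c * cof (s (ofComplex z)) (a + b) * cof (s (ofComplex z)) (c + d)) * e1
    + ((-1) ^ a * (-1) ^ b * cof (s (ofComplex z)) (a + c) * cof (s (ofComplex z)) (b + d)) * e2
    + ((-1) ^ a * (-1) ^ b * cof (s (ofComplex z)) (a + d) * cof (s (ofComplex z)) (b + c)) * e3

/-- the squares of the weighted jets have bounded integrals -/
lemma bdd_sq (W : WtR V σ h φ θ) {K : Set ℂ} (hK : IsCompact K) (hKV : K ⊆ V) (N : ℕ) :
    ∃ C : ℝ, ∀ᶠ n in atTop, ∫ z in K, (θ n z * RR h φ N n z) ^ 2 ≤ C := by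
  obtain ⟨T, hT⟩ := W.ui K hK hKV N 1 one_pos
  refine ⟨T ^ 2 * (volume K).toReal + 1, ?_⟩
  filter_upwards [hT] with n hn
  have hc : Continuous fun z => θ n z * RR h φ N n z :=
    (W.smθ n).continuous.mul (continuous_RR W.smφ N n)
  have i1 : IntegrableOn (fun z => (θ n z * RR h φ N n z) ^ 2) K :=
    (hc.pow 2).continuousOn.integrableOn_compact hK
  have i2 : IntegrableOn (fun z => if T < θ n z * RR h φ N n z
      then (θ n z * RR h φ N n z) ^ 2 else 0) K := by
    have hm : MeasurableSet {z | T < θ n z * RR h φ N n z} :=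
      (isOpen_lt continuous_const hc).measurableSet
    exact (i1.indicator hm).congr (Eventually.of_forall fun z => by
      simp only [Set.indicator, Set.mem_ofPred_eq])
  have i3 : IntegrableOn (fun _ : ℂ => T ^ 2) K :=
    integrableOn_const (hs := hK.measure_lt_top.ne)
  calc ∫ z in K, (θ n z * RR h φ N n z) ^ 2
      ≤ ∫ z in K, (T ^ 2 + (if T < θ n z * RR h φ N n z
          then (θ n z * RR h φ N n z) ^ 2 else 0)) := by
        refine integral_mono i1 (i3.add i2) fun z => ?_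
        have h0 : 0 ≤ θ n z * RR h φ N n z := mul_nonneg (W.nonneg n z) (RR_pos h φ N n z).le
        beta_reduce
        split_ifs with h1
        · have := sq_nonneg T
          linarith
        · push Not at h1
          have := pow_le_pow_left₀ h0 h1 2
          linarith
    _ = T ^ 2 * (volume K).toReal + ∫ z in K, (if T < θ n z * RR h φ N n z
          then (θ n z * RR h φ N n z) ^ 2 else 0) := by
        rw [integral_add i3 i2, setIntegral_const, smul_eq_mul, mul_comm]
        rfl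
    _ ≤ T ^ 2 * (volume K).toReal + 1 := by linarith

/-- the weighted fourth moments are bounded -/
lemma bdd_four (W : WtR V σ h φ θ) {ζ : ℂ → ℂ} (hζ : Test V ζ) :
    ∃ C : ℝ, ∀ᶠ n in atTop, ‖E4w σ h φ θ ζ n 0 0 0 0‖ ≤ C := by
  obtain ⟨C, hC⟩ := bdd_sq W hζ.supp hζ.sub 0
  obtain ⟨B, hB⟩ := hζ.smooth.continuous.bounded_above_of_compact_support hζ.supp
  have hB0 : 0 ≤ B := (norm_nonneg _).trans (hB 0)
  refine ⟨B * C, ?_⟩
  filter_upwards [hC] with n hn
  have hc : Continuous fun z => θ n z * RR h φ 0 n z :=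
    (W.smθ n).continuous.mul (continuous_RR W.smφ 0 n)
  unfold E4w
  rw [← hζ.setIntegral]
  have h1 : ‖∫ z in tsupport ζ, ζ z * ((θ n z : ℂ) ^ 2 * (E σ h φ 0 n z * E σ h φ 0 n z
      * (E σ h φ 0 n z * E σ h φ 0 n z)))‖
      ≤ ∫ z in tsupport ζ, B * (θ n z * RR h φ 0 n z) ^ 2 := by
    refine norm_integral_le_of_norm_le ?_ ?_
    · exact (continuous_const.mul (hc.pow 2)).continuousOn.integrableOn_compact hζ.supp
    · refine Eventually.of_forall fun z => ?_
      have e0 : E σ h φ 0 n z = φ n z := rfl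
      rw [e0]
      have h2 : ‖φ n z‖ ^ 2 ≤ RR h φ 0 n z := by
        have := W_sq_le (h := h) (φ := φ) (le_refl 0) (le_refl 0) n z
        rwa [W_zero] at this
      have h3 : ‖φ n z‖ ^ 4 ≤ RR h φ 0 n z ^ 2 := by
        calc ‖φ n z‖ ^ 4 = (‖φ n z‖ ^ 2) ^ 2 := by ring
          _ ≤ _ := pow_le_pow_left₀ (by positivity) h2 2
      have h4 : 0 ≤ θ n z ^ 2 := sq_nonneg _
      rw [norm_mul, norm_mul, norm_pow, Complex.norm_real, Real.norm_eq_abs, sq_abs, norm_mul,
        norm_mul]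
      calc ‖ζ z‖ * (θ n z ^ 2 * (‖φ n z‖ * ‖φ n z‖ * (‖φ n z‖ * ‖φ n z‖)))
          = ‖ζ z‖ * (θ n z ^ 2 * ‖φ n z‖ ^ 4) := by ring
        _ ≤ B * (θ n z ^ 2 * RR h φ 0 n z ^ 2) := by
            have := hB z
            gcongr
        _ = _ := by ring
  refine h1.trans ?_
  rw [integral_const_mul]
  exact mul_le_mul_of_nonneg_left hn hB0

lemma prod_kap (N : ℕ) (p : Fin 4 → ℤ) (x : Fin 4 → ℂ) (hp : ∑ i, p i = 0) :
    ∏ i, kap1 N (p i) (x i) = ∏ i, CN N (p i) (x i) := by
  have h0 : (-Complex.I : ℂ) ≠ 0 := neg_ne_zero.2 Complex.I_ne_zero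
  unfold kap1
  rw [Finset.prod_mul_distrib]
  have e : ∏ i, (-Complex.I) ^ (p i) = (-Complex.I : ℂ) ^ (∑ i, p i) := by
    rw [Fin.prod_univ_four, Fin.sum_univ_four, zpow_add₀ h0, zpow_add₀ h0, zpow_add₀ h0]
  rw [e, hp, zpow_zero, one_mul]

end F4

open F4 in
/-- F4W: the local four-point formula with weights -/
theorem f4W (hR : StmtRotp) (hP : StmtPatW) : StmtF4w := by
  intro Γ D ρ φ m s S hs V σ φ' A J ho ζ hζ x
  have hρ := S.fac.smooth
  set K := tsupport (fun z => (ζ z : ℂ)) with hKdef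
  have hKc : IsCompact K := hζ.supp
  have hKV : K ⊆ V := hζ.sub
  set R := ∑ i, ‖x i‖ with hRdef
  have hxR : ∀ i, ‖x i‖ ≤ R := fun i =>
    Finset.single_le_sum (f := fun i => ‖x i‖) (fun _ _ => norm_nonneg _) (Finset.mem_univ i)
  obtain ⟨L₀, hL₀, hL⟩ := hR V σ (hh m) φ' A.loc K hKc hKV R
  refine ⟨max L₀ 1, le_max_right _ _, fun L hLL θ Wθ => ?_⟩
  have hL1 : 0 < L := lt_of_lt_of_le one_pos ((le_max_right _ _).trans hLL)
  have hW := wtR V σ (hh m) φ' L θ hL1 Wθ
  set ξ : Fin 4 → ℕ → ℝ → ℂ → ℂ := fun i => frXi (hh m) (QE.em ρ) (x i) with hξ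
  have hdis : ∀ i, Dis K (x i) (ξ i) := fun i => PTF.dis hρ A hKc hKV (x i)
  have hrot := hL L ((le_max_left _ _).trans hLL) θ Wθ x ξ hxR hdis (fun z => (ζ z : ℂ)) hζ le_rfl
  set u : ℤ → ℂ → ℂ := fun k z => cof (s (ofComplex z)) k with hu
  have hloc : ∀ k, LocL2 V (u k) := by
    intro k
    have h1 := (J.loc k).const_mul (Complex.I ^ (-k))
    have e : (fun z => (Complex.I : ℂ) ^ (-k) * um s k z) = u k := by
      funext z
      unfold um
      rw [← mul_assoc, ← zpow_add₀ Complex.I_ne_zero, neg_add_cancel, zpow_zero, one_mul]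
    rwa [e] at h1
  obtain ⟨C, hC0, hae⟩ := FOURVAR.ae_facts (U := V) (u := u) (σ := fun z => s (ofComplex z))
    model (fun z => hs (ofComplex z)) (fun k => Eventually.of_forall fun z => rfl)
    (fun k hk => ae_restrict_of_ae_restrict_of_subset A.sub (ho k hk)) x
  have hsqI : ∀ K : Set ℂ, IsCompact K → K ⊆ V → IntegrableOn (fun z => ‖u 0 z‖ ^ 2) K :=
    fun K hK hKU => MemLp.sqInt (hloc 0 K hK hKU)
  have hu0 : ∀ z, u 0 z = (ma s z : ℂ) := fun z => FOURVAR.cof_zero _
  -- the Wick sum at the origin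
  have hG0 : Gam u (fun z => (ζ z : ℂ)) 0 0 0 0 = ((3 * ∫ z, ζ z * ma s z ^ 2 : ℝ) : ℂ) := by
    have e0 : ((∫ z, ζ z * ma s z ^ 2 : ℝ) : ℂ) = ∫ z, ((ζ z * ma s z ^ 2 : ℝ) : ℂ) :=
      integral_ofReal.symm
    rw [Complex.ofReal_mul, e0, ← integral_const_mul]
    unfold Gam
    refine integral_congr_ae (Eventually.of_forall fun z => ?_)
    unfold GW WW
    simp only [zpow_zero, one_mul, add_zero]
    rw [hu0]
    push_cast
    ring
  -- the limit of the truncated Wick sums
  have hW1 : Tendsto (fun N : ℕ => ∑ p ∈ Fintype.piFinset (fun _ : Fin 4 =>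
      Finset.Icc (-(N : ℤ)) N), (∏ i, CN N (p i) (x i)) * ((if ∑ i, p i = 0 then 1 else 0)
        * Gam u (fun z => (ζ z : ℂ)) (p 0) (p 1) (p 2) (p 3))) atTop
      (𝓝 (∫ z, (ζ z : ℂ) * (dirWick (s (ofComplex z)) x : ℂ))) := by
    simp only [FOURVAR.sum_Gam A.op hloc hζ x]
    rw [← hζ.setIntegral (fun z => (dirWick (s (ofComplex z)) x : ℂ))]
    simp only [← hζ.setIntegral (fun z => modN (fun k => u k z) x _)]
    obtain ⟨B, hB⟩ := hζ.smooth.continuous.bounded_above_of_compact_support hζ.supp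
    refine tendsto_integral_of_dominated_convergence (fun z => B * (C * ‖u 0 z‖ ^ 2)) ?_ ?_ ?_ ?_
    · intro N
      exact hζ.smooth.continuous.aestronglyMeasurable.mul
        (FOURVAR.modN_aesm (fun k => (hloc k _ hζ.supp hζ.sub).1) x N)
    · exact ((hsqI _ hζ.supp hζ.sub).const_mul C).const_mul B
    · intro N
      filter_upwards [ae_restrict_of_ae_restrict_of_subset hζ.sub hae] with z hz
      rw [norm_mul]
      exact mul_le_mul (hB z) (hz.1 N) (norm_nonneg _) ((norm_nonneg _).trans (hB z))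
    · filter_upwards [ae_restrict_of_ae_restrict_of_subset hζ.sub hae] with z hz
      exact hz.2.2.2.2.const_mul _
  set β : ℕ → ℂ := fun n => E4w σ (hh m) φ' θ (fun z => (ζ z : ℂ)) n 0 0 0 0
    - Gam u (fun z => (ζ z : ℂ)) 0 0 0 0 with hβ
  obtain ⟨C₁, hC₁⟩ := bdd_four hW hζ
  have hβb : ∀ᶠ n in atTop, ‖β n‖ ≤ C₁ + ‖Gam u (fun z => (ζ z : ℂ)) 0 0 0 0‖ := by
    filter_upwards [hC₁] with n hn
    exact (norm_sub_le _ _).trans (add_le_add hn le_rfl)
  have key := lim_combine
    (X := fun n => rotW σ (hh m) φ' θ (fun z => (ζ z : ℂ)) ξ id n)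
    (T := fun N n => ∑ p ∈ Fintype.piFinset (fun _ : Fin 4 => Finset.Icc (-(N : ℤ)) N),
        (∏ i, kap1 N (p i) (x i)) * ((if ∑ i, p i = 0 then 1 else 0)
          * E4w σ (hh m) φ' θ (fun z => (ζ z : ℂ)) n (p 0) (p 1) (p 2) (p 3)))
    (α := fun _ => 1) (β := β)
    (W₁ := fun N : ℕ => ∑ p ∈ Fintype.piFinset (fun _ : Fin 4 =>
      Finset.Icc (-(N : ℤ)) N), (∏ i, CN N (p i) (x i)) * ((if ∑ i, p i = 0 then 1 else 0)
        * Gam u (fun z => (ζ z : ℂ)) (p 0) (p 1) (p 2) (p 3)))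
    (C := max 1 (C₁ + ‖Gam u (fun z => (ζ z : ℂ)) 0 0 0 0‖))
    (fun ε hε => hrot ε hε) ?_ hW1 (model_defc x)
    (Eventually.of_forall fun n => by simp)
    (hβb.mono fun n hn => hn.trans (le_max_right _ _))
  · -- back to the real sequence
    have k2 := (Complex.continuous_re.tendsto 0).comp key
    rw [Complex.zero_re] at k2
    refine k2.congr' ?_
    filter_upwards [PTF.ang_eq hρ A hKc hKV x] with n hn
    have hz0 : ∀ z, z ∉ K → ζ z = 0 := by
      intro z hz
      have := image_eq_zero_of_notMem_tsupport hz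
      exact_mod_cast this
    have hζc : Continuous ζ := by
      have := Complex.continuous_re.comp hζ.smooth.continuous
      simpa [Function.comp_def] using this
    have e1 : rotW σ (hh m) φ' θ (fun z => (ζ z : ℂ)) ξ id n
        = ((∫ z, ζ z * (θ n z ^ 2 * angProd ρ (φ n) (m n) x (ofComplex z)) : ℝ) : ℂ) := by
      have h1 := hn (fun z => ζ z * θ n z ^ 2) (hζc.mul ((Wθ.smθ n).continuous.pow 2))
        (fun z hz => by rw [hz0 z hz, zero_mul])
      have h2 : ∫ z, ζ z * (θ n z ^ 2 * angProd ρ (φ n) (m n) x (ofComplex z))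
          = ∫ z, (ζ z * θ n z ^ 2) * angProd ρ (φ n) (m n) x (ofComplex z) := by
        congr 1
        funext z
        ring
      rw [h2, h1]
      unfold rotW
      congr 1
      funext t
      congr 1
      funext z
      simp only [id_eq, hξ]
      push_cast
      ring
    have e2 : β n = (((∫ z, ζ z * (θ n z ^ 2 * φ n (ofComplex z) ^ 4))
        - 3 * ∫ z, ζ z * ma s z ^ 2 : ℝ) : ℂ) := by
      rw [hβ]
      simp only
      rw [hG0, fourth_eq_w hW, Complex.ofReal_sub]
      congr 2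
      congr 1
      funext z
      by_cases hz : z ∈ V
      · rw [A.eφ n z hz]
        unfold ph
        rw [Complex.ofReal_re]
      · rw [hz0 z (fun h => hz (hKV h)), zero_mul, zero_mul]
    have e3 : (∫ z, (ζ z : ℂ) * (dirWick (s (ofComplex z)) x : ℂ))
        = ((∫ z, ζ z * dirWick (s (ofComplex z)) x : ℝ) : ℂ) := by
      have e0 : ((∫ z, ζ z * dirWick (s (ofComplex z)) x : ℝ) : ℂ)
          = ∫ z, ((ζ z * dirWick (s (ofComplex z)) x : ℝ) : ℂ) := integral_ofReal.symm
      rw [e0]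
      congr 1
      funext z
      push_cast
      ring
    have e4 : defc x = resK x / 3 := by
      unfold defc resK
      ring
    simp only [Function.comp_apply]
    rw [e1, e2, e3, e4, one_mul, ← Complex.ofReal_mul, ← Complex.ofReal_add, ← Complex.ofReal_sub,
      Complex.ofReal_re]
    ring
  -- the jets
  intro N
  have h1 : ∀ p : Fin 4 → ℤ, Tendsto (fun n => (if ∑ i, p i = 0 then 1 else 0)
      * E4w σ (hh m) φ' θ (fun z => (ζ z : ℂ)) n (p 0) (p 1) (p 2) (p 3)
      - ((if ∑ i, p i = 0 then 1 else 0) * Gam u (fun z => (ζ z : ℂ)) (p 0) (p 1) (p 2) (p 3)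
        + β n * ((if ∑ i, p i = 0 then 1 else 0) * pat (p 0) (p 1) (p 2) (p 3)))) atTop (𝓝 0) := by
    intro p
    by_cases hp : ∑ i, p i = 0
    · simp only [if_pos hp, one_mul]
      rw [Fin.sum_univ_four] at hp
      refine (hP V σ (hh m) φ' θ (um s) hW J (fun z => (ζ z : ℂ)) hζ (p 0) (p 1) (p 2) (p 3)
        hp).congr fun n => ?_
      have g1 : ∀ a b c d : ℤ, a + b + c + d = 0 →
          Gam (um s) (fun z => (ζ z : ℂ)) a b c d = Gam u (fun z => (ζ z : ℂ)) a b c d := by
        intro a b c d h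
        unfold Gam
        congr 1
        funext z
        rw [GW_um s h z]
      unfold Yw
      rw [g1 _ _ _ _ hp, g1 0 0 0 0 (by norm_num), hβ]
      ring
    · simp only [if_neg hp, zero_mul, mul_zero, add_zero, sub_zero]
      exact tendsto_const_nhds
  have h2 := tendsto_finsetSum (Fintype.piFinset (fun _ : Fin 4 => Finset.Icc (-(N : ℤ)) N))
    fun p _ => (h1 p).const_mul (∏ i, CN N (p i) (x i))
  simp only [mul_zero, Finset.sum_const_zero] at h2
  refine h2.congr fun n => ?_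
  rw [one_mul, Finset.mul_sum, ← Finset.sum_add_distrib, ← Finset.sum_sub_distrib]
  refine Finset.sum_congr rfl fun p _ => ?_
  by_cases hp : ∑ i, p i = 0
  · rw [prod_kap N p x hp]
    ring
  · simp only [if_neg hp, zero_mul, mul_zero, add_zero, sub_zero]

end

end BSL
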