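import Pool.Agent.BSL.St2

/-!
# The limits of the products of two jets (module JLG)
-/

set_option autoImplicit false

open Complex MeasureTheory Filter Topology Set
open UpperHalfPlane hiding I
open scoped ContDiff MatrixGroups ProbabilityTheory ENNReal

namespace BSL

open QE QE.NC QJ U3 NFP

noncomputable section

namespace JLG

variable {s : ProbabilityTheory.Kernel ℍ S1}

lemma meas_cof (s : ProbabilityTheory.Kernel ℍ S1) (k : ℤ) :
    Measurable (fun z : ℂ => cof (s (ofComplex z)) k) :=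
  (NFP.STRUCT.meas_cof s k).comp QE.Surf.measurable_ofComplex

lemma meas_um (s : ProbabilityTheory.Kernel ℍ S1) (k : ℤ) : Measurable (um s k) :=
  measurable_const.mul (meas_cof s k)

lemma norm_I_zpow (k : ℤ) : ‖(Complex.I : ℂ) ^ k‖ = 1 := by
  rw [norm_zpow, Complex.norm_I, one_zpow]

lemma norm_um (s : ProbabilityTheory.Kernel ℍ S1) (k : ℤ) (z : ℂ) :
    ‖um s k z‖ = ‖cof (s (ofComplex z)) k‖ := by
  unfold um
  rw [norm_mul, norm_I_zpow, one_mul]

lemma norm_cof_le (s : ProbabilityTheory.Kernel ℍ S1) (k : ℤ) (z : ℂ) :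
    ‖cof (s (ofComplex z)) k‖ ≤ ‖((ma s z : ℝ) : ℂ)‖ := by
  refine (NFP.STRUCT.norm_cof _ k).trans ?_
  rw [Complex.norm_real, Real.norm_eq_abs]
  exact le_abs_self _

lemma loc_cof {U : Set ℂ} (h : LocL2 U (fun z => (ma s z : ℂ))) (k : ℤ) :
    LocL2 U (fun z => cof (s (ofComplex z)) k) := by
  intro K hK hKU
  exact (h K hK hKU).mono (meas_cof s k).aestronglyMeasurable
    (Eventually.of_forall fun z => norm_cof_le s k z)

lemma loc_um {U : Set ℂ} (h : LocL2 U (fun z => (ma s z : ℂ))) (k : ℤ) : LocL2 U (um s k) := by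
  intro K hK hKU
  exact (h K hK hKU).mono (meas_um s k).aestronglyMeasurable
    (Eventually.of_forall fun z => by rw [norm_um]; exact norm_cof_le s k z)

/-- the moments of the semiclassical measure on a chart -/
lemma moments {ρ : ℍ → ℝ} {φ : ℕ → ℍ → ℝ} {m : ℕ → ℝ} (hρ : ContDiffOn ℝ ∞ (ro ρ) UH)
    (hS : Sem ρ φ m s) {V : Set ℂ} {σ : ℂ → ℝ} (hVU : V ⊆ UH)
    (hg : ∀ z ∈ V, Real.exp (2 * σ z) = gr ρ z) {ζ : ℂ → ℂ} (hζ : Test V ζ) (k : ℤ) :
    ∫ p : ℍ × S1, ζ p.1 * ((Real.exp (-(2 * σ p.1)) : ℝ) : ℂ)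
        * (Complex.I * (starRingEnd ℂ) (p.2 : ℂ)) ^ k ∂((Berry.area ρ) ⊗ₘ s)
      = ∫ z, ζ z * um s k z := by
  have hz0 : ∀ z : ℂ, z ∉ V → ζ z = 0 := by
    intro z hz
    by_contra hne
    exact hz (hζ.sub (subset_tsupport _ hne))
  have hc := NFP.STRUCT.cont_rho hρ
  have hf : ∀ z, s z univ < ⊤ := fun z => (hS.fin z).measure_univ_lt_top
  have hζU : Test UH ζ := ⟨hζ.smooth, hζ.supp, hζ.sub.trans hVU⟩
  have e1 := NFP.STRUCT.cof_comp hc hS.sem.fin hf rfl hζU k
  have e2 : ∫ z, ζ z * um s k z = Complex.I ^ k * ∫ z, ζ z * cof (s (ofComplex z)) k := by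
    rw [← integral_const_mul]
    refine integral_congr_ae (Eventually.of_forall fun z => ?_)
    beta_reduce
    unfold um
    ring
  rw [e2, e1, ← integral_const_mul]
  refine integral_congr_ae (Eventually.of_forall fun p => ?_)
  beta_reduce
  unfold NFP.STRUCT.Gf
  by_cases hz : (p.1 : ℂ) ∈ V
  · have h2 := hg p.1 hz
    unfold gr at h2
    rw [ofComplex_apply] at h2
    have h3 : Real.exp (-(2 * σ p.1)) = p.1.im ^ 2 * Real.exp (-(2 * ρ p.1)) := by
      rw [Real.exp_neg, h2, Real.exp_neg]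
      have : (p.1 : ℂ).im = p.1.im := rfl
      rw [this]
      field_simp
    have h4 : (starRingEnd ℂ) (p.2 : ℂ) = (p.2 : ℂ)⁻¹ := by
      have h5 : ‖(p.2 : ℂ)‖ = 1 := mem_sphere_zero_iff_norm.mp p.2.2
      rw [Complex.inv_def, Complex.normSq_eq_norm_sq, h5]
      simp
    rw [h3, h4, mul_zpow, inv_zpow, zpow_neg]
    ring
  · rw [hz0 _ hz]
    ring

end JLG

open JLG in
/-- **JLG**: the limits of the products of two jets. -/
theorem t_JLG : StmtJlg := by
  intro ρ φ m s hρ hL hS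
  have main : ∀ (V : Set ℂ) (σ : ℂ → ℝ) (φ' : ℕ → ℂ → ℂ),
      Agree V UH (gr ρ) (hh m) (ph φ) σ φ' → JL V σ (hh m) φ' (um s) := by
    intro V σ φ' hA
    refine ⟨fun k => ?_, fun j l ζ hζ => ?_⟩
    · intro K hK hKV
      exact loc_um hS.loc k K hK (hKV.trans hA.sub)
    · have h1 := semU ρ φ m ((Berry.area ρ) ⊗ₘ s) hρ hL hS.sem V σ φ' hA j l ζ hζ
      rw [moments hρ hS hA.sub hA.eg hζ (j + l)] at h1
      have e : ∫ z, ζ z * ((-1) ^ l * um s (j + l) z) = (-1) ^ l * ∫ z, ζ z * um s (j + l) z := by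
        rw [← integral_const_mul]
        refine integral_congr_ae (Eventually.of_forall fun z => ?_)
        beta_reduce
        ring
      rw [e]
      exact h1
  refine ⟨main, fun k hk => ?_⟩
  have key := ae_zero_of_test isOpen_UH (loc_um hS.loc k) fun ζ hζ => ?_
  · filter_upwards [key] with z hz
    unfold um at hz
    rcases mul_eq_zero.1 hz with h | h
    · have := norm_I_zpow k
      rw [h, norm_zero] at this
      exact absurd this zero_ne_one
    · exact h
  · obtain ⟨V, F, σ, φ', hKV, hVF, hFU, hF, hA⟩ := stmtLcz UH (gr ρ) (hh m) (ph φ) isOpen_UH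
      (U3.WGA.contDiffOn_gr hρ) (fun z hz => U3.WGA.gr_pos hz) hL (tsupport ζ) hζ.supp hζ.sub
    have hJ := main V σ φ' hA
    have hζV : Test V ζ := ⟨hζ.smooth, hζ.supp, hKV⟩
    have t1 := hJ.lim k 0 ζ hζV
    have t2 := hJ.lim 0 k ζ hζV
    have e : ∀ n, ∫ z, ζ z * (QJ.E σ (hh m) φ' 0 n z * QJ.E σ (hh m) φ' k n z)
        = ∫ z, ζ z * (QJ.E σ (hh m) φ' k n z * QJ.E σ (hh m) φ' 0 n z) := fun n => by
      refine integral_congr_ae (Eventually.of_forall fun z => ?_)
      beta_reduce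
      ring
    simp only [e] at t2
    have h3 := tendsto_nhds_unique t1 t2
    have e1 : ∫ z, ζ z * ((-1) ^ (0 : ℤ) * um s (k + 0) z) = ∫ z, ζ z * um s k z := by
      simp only [zpow_zero, one_mul, add_zero]
    have e2 : ∫ z, ζ z * ((-1) ^ k * um s (0 + k) z) = - ∫ z, ζ z * um s k z := by
      rw [← integral_neg]
      refine integral_congr_ae (Eventually.of_forall fun z => ?_)
      beta_reduce
      rw [hk.neg_one_zpow, zero_add]
      ring
    rw [e1, e2] at h3
    have h4 : (2 : ℂ) * ∫ z, ζ z * um s k z = 0 := by linear_combination h3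
    exact (mul_eq_zero.1 h4).resolve_left two_ne_zero

end

end BSL
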