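import Pool.Agent.BSL.IBPW

/-!
# Theorem B, local theory: the limits of the products of two jets, symmetry, positivity (helper67)
-/

open Complex MeasureTheory Filter Topology Set
open scoped ContDiff

namespace BSL

open QE hiding E jet P
open QJ U3

noncomputable section

variable {V : Set ℂ} {σ : ℂ → ℝ} {h : ℕ → ℝ} {φ : ℕ → ℂ → ℂ} {θ : ℕ → ℂ → ℝ} {u : ℤ → ℂ → ℂ}

lemma conj_EB (L : LocB V σ h φ) (j : ℤ) (n : ℕ) (z : ℂ) :
    (starRingEnd ℂ) (E σ h φ j n z) = (-1 : ℂ) ^ j * E σ h φ (-j) n z := by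
  obtain ⟨m, rfl | rfl⟩ := j.eq_nat_or_neg
  · have e1 := congrFun (congrFun (U3.JETA.E_neg L m) n) z
    have e2 : E σ h φ (m : ℤ) n z = jet σ h φ m n z := rfl
    rw [e1, e2, zpow_natCast, ← mul_assoc, ← mul_pow]
    norm_num
  · have e1 := congrFun (congrFun (U3.JETA.E_neg L m) n) z
    have e2 : E σ h φ (m : ℤ) n z = jet σ h φ m n z := rfl
    rw [e1, neg_neg, e2, map_mul, Complex.conj_conj, map_pow, map_neg, map_one, zpow_neg,
      zpow_natCast, ← inv_pow, inv_neg, inv_one]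

lemma smE (L : LocB V σ h φ) (j : ℤ) (n : ℕ) : ContDiff ℝ ∞ (E σ h φ j n) :=
  (stmtJetC V σ h φ L j).1.smooth n

/-- the weak limits of the products of jets -/
theorem JL.tlim (J : JL V σ h φ u) (j m : ℤ) :
    TLim V (fun n z => E σ h φ j n z * E σ h φ m n z) (WW u j m) := by
  refine ⟨(J.loc _).const_mul _, fun ζ hζ => ?_⟩
  have h1 := J.lim m j ζ hζ
  have e1 : (fun z => ζ z * ((-1) ^ j * u (m + j) z)) = fun z => ζ z * WW u j m z := by
    funext z
    unfold WW
    rw [add_comm m j]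
  rw [e1] at h1
  refine h1.congr fun n => integral_congr_ae (Filter.Eventually.of_forall fun z => ?_)
  beta_reduce
  ring

theorem JL.sym (hV : IsOpen V) (J : JL V σ h φ u) :
    ∀ᵐ z ∂((volume : Measure ℂ).restrict V), ∀ j m : ℤ, WW u j m z = WW u m j z := by
  rw [ae_all_iff]
  intro j
  rw [ae_all_iff]
  intro m
  rw [ae_restrict_iff' hV.measurableSet]
  have h2 : TLim V (fun n z => E σ h φ j n z * E σ h φ m n z) (WW u m j) := by
    have h3 := J.tlim m j
    refine ⟨h3.loc, fun ζ hζ => (h3.lim ζ hζ).congr fun n => ?_⟩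
    refine integral_congr_ae (Filter.Eventually.of_forall fun z => ?_)
    beta_reduce
    ring
  exact TLim.unique hV (J.tlim j m) h2

/-- the odd coefficients vanish -/
theorem JL.odd (hV : IsOpen V) (J : JL V σ h φ u) (k : ℤ) (hk : Odd k) :
    ∀ᵐ z ∂((volume : Measure ℂ).restrict V), u k z = 0 := by
  filter_upwards [J.sym hV] with z hz
  have h1 := hz 0 k
  unfold WW at h1
  rw [zpow_zero, one_mul, zero_add, add_zero, hk.neg_one_zpow] at h1
  linear_combination (1 / 2) * h1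

/-- the coefficients of a real measure -/
theorem JL.conj (L : LocB V σ h φ) (J : JL V σ h φ u) (k : ℤ) :
    ∀ᵐ z ∂((volume : Measure ℂ).restrict V), u (-k) z = (starRingEnd ℂ) (u k z) := by
  rcases Int.even_or_odd k with hk | hk
  · have h1 : TLim V (fun n z => E σ h φ 0 n z * E σ h φ (-k) n z)
        (fun z => (starRingEnd ℂ) (u k z)) := by
      refine ⟨(J.loc k).conj, fun ζ hζ => ?_⟩
      have hζc : Test V (fun z => (starRingEnd ℂ) (ζ z)) := by
        refine ⟨?_, ?_, ?_⟩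
        · exact Complex.conjCLE.contDiff.comp hζ.smooth
        · exact hζ.supp.comp_left (g := (starRingEnd ℂ)) (map_zero _)
        · refine (closure_mono fun z hz => ?_).trans hζ.sub
          rw [Function.mem_support] at hz ⊢
          intro h0
          exact hz (by rw [h0, map_zero])
      have h2 := (J.tlim 0 k).lim _ hζc
      have h3 := (Complex.continuous_conj.tendsto _).comp h2
      have e1 : (starRingEnd ℂ) (∫ z, (starRingEnd ℂ) (ζ z) * WW u 0 k z)
          = ∫ z, ζ z * (starRingEnd ℂ) (u k z) := by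
        rw [← integral_conj]
        refine integral_congr_ae (Filter.Eventually.of_forall fun z => ?_)
        beta_reduce
        unfold WW
        rw [map_mul, starRingEnd_self_apply, zpow_zero, one_mul, zero_add]
      rw [e1] at h3
      refine h3.congr fun n => ?_
      simp only [Function.comp_apply]
      rw [← integral_conj]
      refine integral_congr_ae (Filter.Eventually.of_forall fun z => ?_)
      beta_reduce
      rw [map_mul, starRingEnd_self_apply, map_mul, conj_EB L, conj_EB L, hk.neg_one_zpow]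
      simp
    have h2 := TLim.unique L.op (J.tlim 0 (-k)) h1
    rw [← ae_restrict_iff' L.op.measurableSet] at h2
    filter_upwards [h2] with z hz
    unfold WW at hz
    simpa using hz
  · filter_upwards [J.odd L.op k hk, J.odd L.op (-k) hk.neg] with z h1 h2
    rw [h1, h2, map_zero]

theorem JL.conj_all (L : LocB V σ h φ) (J : JL V σ h φ u) :
    ∀ᵐ z ∂((volume : Measure ℂ).restrict V), ∀ k, u (-k) z = (starRingEnd ℂ) (u k z) :=
  ae_all_iff.2 fun k => J.conj L k

theorem gam_12 (hV : IsOpen V) (J : JL V σ h φ u) {ζ : ℂ → ℂ} (hζ : Test V ζ) (j m k l : ℤ) :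
    Gam u ζ j m k l = Gam u ζ m j k l := by
  refine hζ.congr_ae hV ?_
  filter_upwards [J.sym hV] with z hz
  unfold GW
  rw [hz j m]
  ring

theorem gam_23 (hV : IsOpen V) (J : JL V σ h φ u) {ζ : ℂ → ℂ} (hζ : Test V ζ) (j m k l : ℤ) :
    Gam u ζ j m k l = Gam u ζ j k m l := by
  refine hζ.congr_ae hV ?_
  filter_upwards [J.sym hV] with z hz
  unfold GW
  rw [hz m k]
  ring

theorem gam_34 (hV : IsOpen V) (J : JL V σ h φ u) {ζ : ℂ → ℂ} (hζ : Test V ζ) (j m k l : ℤ) :
    Gam u ζ j m k l = Gam u ζ j m l k := by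
  refine hζ.congr_ae hV ?_
  filter_upwards [J.sym hV] with z hz
  unfold GW
  rw [hz k l]
  ring

theorem e4w_12 (ζ : ℂ → ℂ) (n : ℕ) (j m k l : ℤ) :
    E4w σ h φ θ ζ n j m k l = E4w σ h φ θ ζ n m j k l := by
  unfold E4w
  refine integral_congr_ae (Filter.Eventually.of_forall fun z => ?_)
  beta_reduce; ring

theorem e4w_23 (ζ : ℂ → ℂ) (n : ℕ) (j m k l : ℤ) :
    E4w σ h φ θ ζ n j m k l = E4w σ h φ θ ζ n j k m l := by
  unfold E4w
  refine integral_congr_ae (Filter.Eventually.of_forall fun z => ?_)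
  beta_reduce; ring

theorem e4w_34 (ζ : ℂ → ℂ) (n : ℕ) (j m k l : ℤ) :
    E4w σ h φ θ ζ n j m k l = E4w σ h φ θ ζ n j m l k := by
  unfold E4w
  refine integral_congr_ae (Filter.Eventually.of_forall fun z => ?_)
  beta_reduce; ring

theorem e3w_12 (ζ : ℂ → ℂ) (n : ℕ) (j m k : ℤ) :
    E3w σ h φ θ ζ n j m k = E3w σ h φ θ ζ n m j k := by
  unfold E3w
  refine integral_congr_ae (Filter.Eventually.of_forall fun z => ?_)
  beta_reduce; ring

theorem e3w_23 (ζ : ℂ → ℂ) (n : ℕ) (j m k : ℤ) :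
    E3w σ h φ θ ζ n j m k = E3w σ h φ θ ζ n j k m := by
  unfold E3w
  refine integral_congr_ae (Filter.Eventually.of_forall fun z => ?_)
  beta_reduce; ring

theorem yw_12 (hV : IsOpen V) (J : JL V σ h φ u) {ζ : ℂ → ℂ} (hζ : Test V ζ) (n : ℕ) (j m k l : ℤ) :
    Yw σ h φ θ u ζ n j m k l = Yw σ h φ θ u ζ n m j k l := by
  unfold Yw
  rw [gam_12 hV J hζ, e4w_12]

theorem yw_23 (hV : IsOpen V) (J : JL V σ h φ u) {ζ : ℂ → ℂ} (hζ : Test V ζ) (n : ℕ) (j m k l : ℤ) :
    Yw σ h φ θ u ζ n j m k l = Yw σ h φ θ u ζ n j k m l := by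
  unfold Yw
  rw [gam_23 hV J hζ, e4w_23]

theorem yw_34 (hV : IsOpen V) (J : JL V σ h φ u) {ζ : ℂ → ℂ} (hζ : Test V ζ) (n : ℕ) (j m k l : ℤ) :
    Yw σ h φ θ u ζ n j m k l = Yw σ h φ θ u ζ n j m l k := by
  unfold Yw
  rw [gam_34 hV J hζ, e4w_34]

theorem yw_mac (hM : StmtMacW) (W : WtR V σ h φ θ) (J : JL V σ h φ u) {ζ : ℂ → ℂ} (hζ : Test V ζ)
    (j m k l : ℤ) : Tendsto (fun n => Yw σ h φ θ u ζ n (j + 1) (m + 1) k l
    - Yw σ h φ θ u ζ n j m (k + 1) (l + 1)) atTop
      (𝓝 ((QE.P (j + 1) (m + 1) * QE.P k l - QE.P j m * QE.P (k + 1) (l + 1)) * ((0 : ℝ) : ℂ))) := by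
  rw [ofReal_zero, mul_zero]
  exact hM V σ h φ θ u W J ζ hζ j m k l

theorem yw_ibp (W : WtR V σ h φ θ) (J : JL V σ h φ u) {ζ : ℂ → ℂ} (hζ : Test V ζ) (j m k l : ℤ) :
    Tendsto (fun n => Yw σ h φ θ u ζ n (j + 1) m k l + Yw σ h φ θ u ζ n j (m + 1) k l
      + Yw σ h φ θ u ζ n j m (k + 1) l + Yw σ h φ θ u ζ n j m k (l + 1)) atTop (𝓝 0) := by
  refine ((ibpW V σ h φ θ W ζ hζ).1 j m k l).congr fun n => ?_
  have e : Gam u ζ (j + 1) m k l + Gam u ζ j (m + 1) k l + Gam u ζ j m (k + 1) l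
      + Gam u ζ j m k (l + 1) = 0 := by
    unfold Gam
    rw [← integral_add_four (hζ.int_GW J.loc _ _ _ _) (hζ.int_GW J.loc _ _ _ _)
      (hζ.int_GW J.loc _ _ _ _) (hζ.int_GW J.loc _ _ _ _)]
    have : ∀ z, ζ z * GW u (j + 1) m k l z + ζ z * GW u j (m + 1) k l z
        + ζ z * GW u j m (k + 1) l z + ζ z * GW u j m k (l + 1) z = 0 := by
      intro z
      rw [← mul_add, ← mul_add, ← mul_add, GW_ibp, mul_zero]
    simp [this]
  unfold Yw
  linear_combination e

/-- PATW: the four-jet integrals of total index zero -/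
theorem patW (hM : StmtMacW) : StmtPatW := by
  intro V σ h φ θ u W J ζ hζ a b c d hs
  have hibp := yw_ibp W J hζ 0 0 0 (-1)
  simp only [zero_add, neg_add_cancel] at hibp
  have key := alg_pattern (X := Yw σ h φ θ u ζ) (Z := 0) (yw_12 W.op J hζ) (yw_23 W.op J hζ)
    (yw_mac hM W J hζ) hibp a b c d hs
  simpa using key

end

end BSL
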