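import Pool.Agent.BSL.Defs

/-!
# Statements, part 1: the truncated div-curl lemma

Each step is a `Prop`; a module proves one of them, possibly from others taken as hypotheses. The
proofs are given in the doc strings. `C` are constants.
-/

open Complex MeasureTheory Filter Topology Set
open scoped ContDiff

namespace BSL

open QE QJ U3

noncomputable section

/-- CZD: the finite Calderon-Zygmund decomposition of a smooth function.
Proof. Let `L > 0` be so large that the support of `f` is contained in the square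
`Q₀ = Sq (-L - L I) (2 L)` and that `∫ ‖f‖ ≤ α (2 L)²`. By uniform continuity there is `J` such that
`‖f z - f w‖ ≤ α` whenever `‖z - w‖ ≤ 2 · 2 L / 2 ^ J`. Dyadic squares of generation `j ≤ J`: the `4 ^ j`
squares of side `2 L / 2 ^ j` which partition `Q₀`; each square of generation `j + 1` lies in exactly
one of generation `j` (its parent). Call a dyadic square bad if the mean of `‖f‖` over it is larger than
`α`. `Q₀` is not bad. Take the squares of generation `1, …, J` which are bad while none of their proper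
ancestors is bad. They are pairwise disjoint; for each of them `∫_Q ‖f‖ > α l²` and
`∫_Q ‖f‖ ≤ ∫_{parent} ‖f‖ ≤ α (2 l)² = 4 α l²`. If `z ∈ Q₀` is in none of them, then the square of
generation `J` which contains `z` is not bad (otherwise the largest bad square of its chain of
ancestors would be selected), so some value of `‖f‖` on it is at most `α` (the mean is), hence
`‖f z‖ ≤ 2 α`. Outside `Q₀`, `f = 0`. (Recursion on `J` is convenient: for a square `Q` which is not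
bad, the list of the selected subsquares of `Q` is the concatenation over the four children of: the
child itself if it is bad, otherwise its list.) -/
def StmtCZD : Prop :=
  ∀ (f : ℂ → ℂ) (α : ℝ), ContDiff ℝ ∞ f → HasCompactSupport f → 0 < α →
    ∃ (k : ℕ) (c : Fin k → ℂ) (l : Fin k → ℝ), (∀ i, 0 < l i) ∧
      (∀ i j, i ≠ j → Disjoint (Sq (c i) (l i)) (Sq (c j) (l j))) ∧
      (∀ i, α * l i ^ 2 ≤ ∫ z in Sq (c i) (l i), ‖f z‖) ∧
      (∀ i, ∫ z in Sq (c i) (l i), ‖f z‖ ≤ 4 * α * l i ^ 2) ∧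
      ∀ z, (∀ i, z ∉ Sq (c i) (l i)) → ‖f z‖ ≤ 2 * α

/-- BL2: the Beurling transform is a contraction of `L²`.
Proof. Let `u = cauchy f` (`dzb u = f`, `contDiff_cauchy`, `dzb_cauchy`), supp `f ⊆ closedBall 0 r`. For
`‖z‖ ≥ 2 r`: `‖u z‖ ≤ C / ‖z‖` and `‖fderiv u z‖ ≤ C / ‖z‖²` (kernel formula, or
`dz (cauchy f) = cauchy (dz f)` (`dz_cauchy`) and, since `∫ dz f = 0`, the bound
`‖cauchy g z‖ ≤ C / ‖z‖²` for `∫ g = 0`). Let `χ_R` be a smooth cut-off, `1` on the ball of radius `R`,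
`0` outside the ball of radius `2 R`, `‖∇χ_R‖ ≤ C / R`. For `v = χ_R u`, smooth with compact support,
`∫ ‖dz v‖² = ∫ ‖dzb v‖²` (integrate by parts twice:
`∫ dz v · conj (dz v) = ∫ dz v · dzb (conj v) = - ∫ (dzb (dz v)) conj v
= - ∫ dz (dzb v) conj v = ∫ dzb v · dz (conj v) = ∫ dzb v · conj (dzb v)`). As `R → ∞`,
`dz v = χ_R dz u + (dz χ_R) u` and the second term has `L²` norm at most `C / R · 1 / R · R → 0`. So
`∫_{‖z‖ < R₀} ‖dz u‖² ≤ ∫ ‖dzb u‖² = ∫ ‖f‖²` for each `R₀`; let `R₀ → ∞`. Integrability of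
`‖beu f‖²`: continuous and `O(‖z‖⁻⁴)`. -/
def StmtBL2 : Prop :=
  ∀ f : ℂ → ℂ, ContDiff ℝ ∞ f → HasCompactSupport f →
    Integrable (fun z => ‖beu f z‖ ^ 2) ∧ ∫ z, ‖beu f z‖ ^ 2 ≤ ∫ z, ‖f z‖ ^ 2

/-- BLK: the Beurling transform of a function with mean zero, away from its support.
Proof. For `z` outside `closedBall c r`, `cauchy f` is near `z` the function
`z ↦ ∫ f(w) / (π (z - w)) dw` (change of variables in `cauchy`), so
`beu f z = - (1/π) ∫ f(w) (z - w)⁻² dw` (differentiation under the integral; or `dz (cauchy f) =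
cauchy (dz f)` and integration by parts). Since `∫ f = 0`,
`beu f z = - (1/π) ∫ f(w) ((z - w)⁻² - (z - c)⁻²) dw`, and for `‖w - c‖ ≤ r`, `‖z - c‖ ≥ 2 r`:
`‖(z - w)⁻² - (z - c)⁻²‖ = ‖w - c‖ ‖2 (z - c) - (w - c)‖ / (‖z - w‖² ‖z - c‖²) ≤ 10 r / ‖z - c‖³`.
Integrate over `‖z - c‖ ≥ 2 r` (Tonelli, polar coordinates:
`∫_{‖z‖ ≥ 2 r} ‖z‖⁻³ = 2 π / (2 r) = π / r`). -/
def StmtBLK : Prop :=
  ∃ C : ℝ, 0 < C ∧ ∀ (f : ℂ → ℂ) (c : ℂ) (r : ℝ), ContDiff ℝ ∞ f → 0 < r →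
    tsupport f ⊆ Metric.closedBall c r → ∫ z, f z = 0 →
    ∫⁻ z in {z | 2 * r ≤ ‖z - c‖}, ENNReal.ofReal ‖beu f z‖ ≤ ENNReal.ofReal (C * ∫ z, ‖f z‖)

/-- WKT: the weak type estimate of the Beurling transform.
Proof (from CZD, BL2, BLK). Let `s > 0`; take CZD with `α = s` (if `f = 0` nothing to do). Let
`gd = f` off the squares and `gd = (mean of f over Qᵢ)` on `Qᵢ = Sq (c i) (l i)`, `bᵢ = (f - gd) 1_{Qᵢ}`:
bounded measurable functions with compact support, `‖gd‖ ≤ 4 s`, `∫ ‖gd‖ ≤ ∫ ‖f‖`,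
`∑ ∫ ‖bᵢ‖ ≤ 2 ∫ ‖f‖`, `∫ bᵢ = 0`. Let `ρ_δ ≥ 0` be a smooth mollifier (support in the ball of radius `δ`,
integral one), `δ` less than all `l i`. `f ⋆ ρ_δ = gd ⋆ ρ_δ + ∑ bᵢ ⋆ ρ_δ`, all smooth with compact
support; `beu` is additive; `‖gd ⋆ ρ_δ‖ ≤ 4 s`, `∫ ‖gd ⋆ ρ_δ‖ ≤ ∫ ‖f‖`, so by BL2
`∫ ‖beu (gd ⋆ ρ_δ)‖² ≤ 4 s ∫ ‖f‖` and, by Chebyshev, the area of `{‖beu (gd ⋆ ρ_δ)‖ > s / 2}` is at most
`16 / s ∫ ‖f‖`. `bᵢ ⋆ ρ_δ` has integral zero and support in the ball of radius `2 l i` around the centre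
`cᵢ'` of `Qᵢ`; let `Ω` be the union of the balls of radius `4 l i` around `cᵢ'`; its area is at most
`16 π ∑ l i ² ≤ 16 π / s ∫ ‖f‖`; by BLK and Chebyshev the area of
`{z ∉ Ω : ‖∑ beu (bᵢ ⋆ ρ_δ) z‖ > s / 2}` is at most `(2 / s) C ∑ ∫ ‖bᵢ‖ ≤ (4 C / s) ∫ ‖f‖`. Hence the
area of `{‖beu (f ⋆ ρ_δ)‖ > s}` is at most `C' / s ∫ ‖f‖`. Finally
`beu (f ⋆ ρ_δ) z → beu f z` for each `z` as `δ → 0` (`beu (f ⋆ ρ_δ) = (beu f) ⋆ ρ_δ`, or
`beu g = cauchy (dz g)` and `dz (f ⋆ ρ_δ) = (dz f) ⋆ ρ_δ → dz f` uniformly, with supports in a fixed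
compact set), so `{‖beu f‖ > s} ⊆ liminf` of the sets `{‖beu (f ⋆ ρ_δ)‖ > s}`, `δ = 1 / m`
(`measure_liminf_le` or Fatou). -/
def StmtWKT : Prop :=
  ∃ C : ℝ, 0 < C ∧ ∀ (f : ℂ → ℂ) (s : ℝ), ContDiff ℝ ∞ f → HasCompactSupport f → 0 < s →
    (volume : Measure ℂ) {z | s < ‖beu f z‖} ≤ ENNReal.ofReal (C / s * ∫ z, ‖f z‖)

/-- ERR: the error field is bounded in `L²_loc` and tends to zero in measure.
Proof (from BL2, WKT). `a = θ A`, `b = θ B`, `g = θ G`. From `eq`, `cauchy (dzb A) = A` (`cauchy_dzb`) and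
`dz (cauchy B) = cauchy (dz B)` (`dz_cauchy`): `beu B = cauchy (dz B) = cauchy G - A`. Hence
`e = a - cauchy g + beu b = -(1 - θ) A + cauchy ((1 - θ) G) - beu ((1 - θ) B)`. The `L²(K')` norm: the
squares of `a`, `b`, `g` have bounded integrals (`UIs` and compact support:
`∫ ‖a‖² ≤ ε + T² |K|`), BL2 for `beu b`, and `young_sq` or `cauchy` bounded from `L²` with support in `K`
to `L²(K')` for `cauchy g`. In measure on `K'`: `∫ ‖(1 - θ) A‖ → 0`, `∫_{K'} ‖cauchy ((1 - θ) G)‖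
≤ C ∫ ‖(1 - θ) G‖ → 0` (Tonelli, `∫_{K'} ‖z - w‖⁻¹ dz ≤ C` for all `w`), and WKT with
`∫ ‖(1 - θ) B‖ → 0`. -/
def StmtERR : Prop :=
  ∀ (K K' : Set ℂ) (θ : ℕ → ℂ → ℝ) (A B G : ℕ → ℂ → ℂ) (a b : ℂ → ℂ), IsCompact K →
    IsCompact K' → (∀ n, ContDiff ℝ ∞ (θ n)) → (∀ n z, 0 ≤ θ n z ∧ θ n z ≤ 1) →
    Cur K θ A B G a b →
    (∃ C : ℝ, ∀ᶠ n in atTop, ∫ z in K', ‖(θ n z : ℂ) * A n z
      - cauchy (fun w => (θ n w : ℂ) * G n w) z + beu (fun w => (θ n w : ℂ) * B n w) z‖ ^ 2 ≤ C) ∧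
    ∀ s > 0, Tendsto (fun n => (volume : Measure ℂ) {z | z ∈ K' ∧ s < ‖(θ n z : ℂ) * A n z
      - cauchy (fun w => (θ n w : ℂ) * G n w) z + beu (fun w => (θ n w : ℂ) * B n w) z‖})
      atTop (𝓝 0)

/-- TDC: **the truncated div-curl lemma**.
Proof (from ERR, BL2, `div_curl_gen`, `cauchy_compact`). Let `ψ` be a test function on the plane, `K'`
its support. `aₙ = θ A`, `bₙ = θ B`, `gₙ = θ G`, `cₙ = cauchy gₙ`, `âₙ = - beu bₙ = dz (- cauchy bₙ)`,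
`eₙ = aₙ - cₙ - âₙ`, and the same with primes. All are smooth.
`aₙ b'ₙ - bₙ a'ₙ = (âₙ b'ₙ - bₙ â'ₙ) + (cₙ b'ₙ - bₙ c'ₙ) + (eₙ b'ₙ - bₙ e'ₙ)`.
(1) `∫ ‖ψ‖ ‖eₙ‖ ‖b'ₙ‖ → 0`: over `{‖eₙ‖ ≤ s}` it is at most `C s ∫ ‖b'ₙ‖ ≤ C' s`, over
`{z ∈ K' : ‖eₙ‖ > s}` at most `C (∫_{K'} ‖eₙ‖²)^{1/2} (∫_{‖eₙ‖ > s} ‖b'ₙ‖²)^{1/2}`, which tends to zero
by ERR and `uB` (over a set `E` of small area `∫_E ‖b‖² ≤ ε + T² |E|`). The same proof gives `∫_{K'} η eₙ → 0` for every `η ∈ L²(K')`.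
(2) `θ A → a` weakly: `∫ η aₙ → ∫ η a` for test functions (`wA`, `tA`), and then for all `η ∈ L²`
(bounded `L²` norms and density). Same for `b`, and for `g` (the limit of `gₙ` is a function of `L²`
because the functional `η ↦ lim ∫ η Gₙ = ∫ η g` is bounded by `C ‖η‖₂`; or avoid this: only the
differences are needed, pass to a subsequence along which `gₙ` converges weakly in `L²`).
(3) `cₙ → c` strongly in `L²(K')`, where `c` is the Cauchy transform of the weak limit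
(`cauchy_compact` applied to the differences `gₙ - g_m`, as in the proof of `div_curl_gen`), so
`∫ ψ (cₙ b'ₙ - bₙ c'ₙ) → ∫ ψ (c b' - b c')`.
(4) `dzb âₙ + dz bₙ = - dz bₙ + dz bₙ = 0` (`dzb (dz u) = dz (dzb u)`), and `âₙ = aₙ - cₙ - eₙ → a - c`
weakly in `L²(K')`; `div_curl_gen` (with the roles `A := bₙ`, `B := âₙ`; there the condition is
`dz A + dzb B` bounded in `L²`) gives `∫ ψ (âₙ b'ₙ - bₙ â'ₙ) → ∫ ψ ((a - c) b' - b (a' - c'))`.
The sum of the limits is `∫ ψ (a b' - b a')`. If `c` is only defined along subsequences use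
`tendsto_of_subseq_tendsto`. -/
def StmtTDC : Prop :=
  ∀ (K : Set ℂ) (θ : ℕ → ℂ → ℝ) (A B G A' B' G' : ℕ → ℂ → ℂ) (a b a' b' : ℂ → ℂ), IsCompact K →
    (∀ n, ContDiff ℝ ∞ (θ n)) → (∀ n z, 0 ≤ θ n z ∧ θ n z ≤ 1) →
    Cur K θ A B G a b → Cur K θ A' B' G' a' b' →
    ∀ ψ : ℂ → ℂ, ContDiff ℝ ∞ ψ → HasCompactSupport ψ →
    Tendsto (fun n => ∫ z, ψ z * ((θ n z : ℂ) ^ 2 * (A n z * B' n z - B n z * A' n z))) atTop
      (𝓝 (∫ z, ψ z * (a z * b' z - b z * a' z)))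

end

end BSL
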