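import Pool.Agent.BSL.JLW
import Pool.Agent.BSL.St1

/-!
# Theorem B, local theory: the currents (helper67)
-/

open Complex MeasureTheory Filter Topology Set
open scoped ContDiff

namespace BSL

open QE hiding E jet P
open QJ U3

noncomputable section

variable {V : Set ℂ} {σ : ℂ → ℝ} {h : ℕ → ℝ} {φ : ℕ → ℂ → ℂ} {θ : ℕ → ℂ → ℝ} {u : ℤ → ℂ → ℂ}

namespace MACW

/-- a square root bound from `Bq` -/
lemma bq_le {u : ℕ → ℂ → ℂ} (hu : Bq V h φ 2 u) {K : Set ℂ} (hK : IsCompact K) (hKV : K ⊆ V) :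
    ∃ (N : ℕ) (C : ℝ), 0 ≤ C ∧ ∀ᶠ n in atTop, ∀ z ∈ K, ‖u n z‖ ≤ C * RR h φ N n z := by
  obtain ⟨N, C, hC⟩ := hu K hK hKV
  refine ⟨N, √|C|, Real.sqrt_nonneg _, ?_⟩
  filter_upwards [hC] with n hn z hz
  have hR1 := one_le_RR h φ N n z
  have e1 : ‖u n z‖ ^ 2 ≤ |C| * RR h φ N n z ^ 2 :=
    (hn z hz).trans (mul_le_mul_of_nonneg_right (le_abs_self C) (by positivity))
  have e2 : ‖u n z‖ ≤ √(|C| * RR h φ N n z ^ 2) := Real.le_sqrt_of_sq_le e1
  refine e2.trans (le_of_eq ?_)
  rw [Real.sqrt_mul (abs_nonneg C), Real.sqrt_sq (by positivity)]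

/-- integrals over the plane of functions which vanish outside a set -/
lemma int_eq_set {E : Type*} [NormedAddCommGroup E] [NormedSpace ℝ E] {K : Set ℂ} {f : ℂ → E}
    (hf : ∀ z, z ∉ K → f z = 0) : ∫ z, f z = ∫ z in K, f z :=
  (setIntegral_eq_integral_of_forall_compl_eq_zero fun z hz => hf z hz).symm

/-- the weights cut off a negligible part -/
lemma cut (W : WtR V σ h φ θ) {A : ℕ → ℂ → ℂ} (sA : ∀ n, ContDiff ℝ ∞ (A n))
    (bA : Bq V h φ 2 A) {χ : ℂ → ℂ} (hχ : Test V χ) :
    Tendsto (fun n => ∫ z, (1 - θ n z) * ‖χ z * A n z‖) atTop (𝓝 0) := by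
  have hK : IsCompact (tsupport χ) := hχ.supp
  obtain ⟨M, hM⟩ := hχ.smooth.continuous.bounded_above_of_compact_support hχ.supp
  obtain ⟨N, C, hC, hn⟩ := bq_le bA hK hχ.sub
  have h1 := (W.big (tsupport χ) hK hχ.sub N).const_mul (M * C)
  rw [mul_zero] at h1
  have hM0 : 0 ≤ M := (norm_nonneg _).trans (hM 0)
  refine squeeze_zero' (Filter.Eventually.of_forall fun n => integral_nonneg fun z =>
    mul_nonneg (by have := W.le_one n z; linarith) (norm_nonneg _)) ?_ h1
  filter_upwards [hn] with n hn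
  rw [int_eq_set (K := tsupport χ) (fun z hz => by
    rw [image_eq_zero_of_notMem_tsupport hz, zero_mul, norm_zero, mul_zero]), ← integral_const_mul]
  have hθc := (W.smθ n).continuous
  refine setIntegral_mono_on ?_ ?_ hK.measurableSet fun z hz => ?_
  · exact ((continuous_const.sub hθc).mul
      (hχ.smooth.continuous.mul (sA n).continuous).norm).continuousOn.integrableOn_compact hK
  · exact (continuous_const.mul ((continuous_const.sub hθc).mul
      (continuous_RR (h := h) W.smφ N n))).continuousOn.integrableOn_compact hK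
  · have h2 : 0 ≤ 1 - θ n z := by have := W.le_one n z; linarith
    have h3 : ‖χ z * A n z‖ ≤ M * (C * RR h φ N n z) := by
      rw [norm_mul]
      exact mul_le_mul (hM z) (hn z hz) (norm_nonneg _) hM0
    calc (1 - θ n z) * ‖χ z * A n z‖ ≤ (1 - θ n z) * (M * (C * RR h φ N n z)) :=
          mul_le_mul_of_nonneg_left h3 h2
      _ = _ := by ring

/-- uniform integrability -/
lemma uis (W : WtR V σ h φ θ) {A : ℕ → ℂ → ℂ} (sA : ∀ n, ContDiff ℝ ∞ (A n))
    (bA : Bq V h φ 2 A) {χ : ℂ → ℂ} (hχ : Test V χ) :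
    UIs fun n z => (θ n z : ℂ) * (χ z * A n z) := by
  intro ε hε
  have hK : IsCompact (tsupport χ) := hχ.supp
  obtain ⟨M, hM⟩ := hχ.smooth.continuous.bounded_above_of_compact_support hχ.supp
  have hM0 : 0 ≤ M := (norm_nonneg _).trans (hM 0)
  obtain ⟨N, C, hC, hn⟩ := bq_le bA hK hχ.sub
  set D : ℝ := M * C with hD
  have hD0 : 0 ≤ D := mul_nonneg hM0 hC
  obtain ⟨T, hT⟩ := W.ui (tsupport χ) hK hχ.sub N (ε / (D ^ 2 + 1)) (by positivity)
  refine ⟨D * |T|, ?_⟩
  filter_upwards [hn, hT] with n hn hT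
  have hR := continuous_RR (h := h) W.smφ N n
  have hθc := (W.smθ n).continuous
  have hbm : ∀ (f : ℂ → ℝ) (c : ℝ), Continuous f →
      IntegrableOn (fun z => if c < f z then f z ^ 2 else 0) (tsupport χ) := by
    intro f c hf
    have h1 : IntegrableOn (fun z => f z ^ 2) (tsupport χ) :=
      (hf.pow 2).continuousOn.integrableOn_compact hK
    refine Integrable.mono h1 ?_ (Filter.Eventually.of_forall fun z => ?_)
    · exact (Measurable.ite (measurableSet_lt measurable_const hf.measurable)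
        (hf.measurable.pow_const 2) measurable_const).aestronglyMeasurable
    · split_ifs
      · exact le_rfl
      · rw [norm_zero]; exact norm_nonneg _
  have hc1 : Continuous fun z => ‖(θ n z : ℂ) * (χ z * A n z)‖ :=
    ((contDiff_ofR (W.smθ n)).continuous.mul
      (hχ.smooth.continuous.mul (sA n).continuous)).norm
  have hc2 : Continuous fun z => θ n z * RR h φ N n z := hθc.mul hR
  rw [int_eq_set (K := tsupport χ) (fun z hz => by
    simp [image_eq_zero_of_notMem_tsupport hz])]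
  have hle : ∫ z in tsupport χ, (if D * |T| < ‖(θ n z : ℂ) * (χ z * A n z)‖
        then ‖(θ n z : ℂ) * (χ z * A n z)‖ ^ 2 else 0)
      ≤ ∫ z in tsupport χ, D ^ 2 * (if T < θ n z * RR h φ N n z
        then (θ n z * RR h φ N n z) ^ 2 else 0) := by
    refine setIntegral_mono_on (hbm _ _ hc1) ((hbm _ _ hc2).const_mul _) hK.measurableSet
      fun z hz => ?_
    have h3 := W.nonneg n z
    have h4 : ‖(θ n z : ℂ) * (χ z * A n z)‖ ≤ D * (θ n z * RR h φ N n z) := by
      rw [norm_mul, norm_mul, Complex.norm_real, Real.norm_of_nonneg h3]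
      have h5 : ‖χ z‖ * ‖A n z‖ ≤ M * (C * RR h φ N n z) :=
        mul_le_mul (hM z) (hn z hz) (norm_nonneg _) hM0
      calc θ n z * (‖χ z‖ * ‖A n z‖) ≤ θ n z * (M * (C * RR h φ N n z)) :=
            mul_le_mul_of_nonneg_left h5 h3
        _ = _ := by rw [hD]; ring
    by_cases hc : D * |T| < ‖(θ n z : ℂ) * (χ z * A n z)‖
    · rw [if_pos hc]
      have h6 : T < θ n z * RR h φ N n z := by
        by_contra hcon
        rw [not_lt] at hcon
        have h7 : D * (θ n z * RR h φ N n z) ≤ D * |T| :=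
          mul_le_mul_of_nonneg_left (hcon.trans (le_abs_self T)) hD0
        linarith
      rw [if_pos h6, ← mul_pow]
      exact pow_le_pow_left₀ (norm_nonneg _) h4 2
    · rw [if_neg hc]
      refine mul_nonneg (sq_nonneg _) ?_
      split_ifs
      · positivity
      · exact le_rfl
  refine hle.trans ?_
  rw [integral_const_mul]
  calc D ^ 2 * ∫ z in tsupport χ, (if T < θ n z * RR h φ N n z
        then (θ n z * RR h φ N n z) ^ 2 else 0)
      ≤ D ^ 2 * (ε / (D ^ 2 + 1)) := mul_le_mul_of_nonneg_left hT (sq_nonneg _)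
    _ ≤ ε := by
        rw [mul_div_assoc', div_le_iff₀ (by positivity)]
        nlinarith [sq_nonneg D]

lemma memLp_test {χ a : ℂ → ℂ} (hχ : Test V χ) (la : LocL2 V a) :
    MemLp (fun z => χ z * a z) 2 (volume : Measure ℂ) := by
  have h1 := hχ.memLp la
  have h2 : (tsupport χ).indicator (fun z => χ z * a z) = fun z => χ z * a z := by
    funext z
    by_cases hz : z ∈ tsupport χ
    · rw [indicator_of_mem hz]
    · rw [indicator_of_notMem hz, image_eq_zero_of_notMem_tsupport hz, zero_mul]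
  rw [← h2]
  exact (memLp_indicator_iff_restrict (isClosed_tsupport χ).measurableSet).2 h1

lemma test_mul' {χ η : ℂ → ℂ} (hχ : Test V χ) (hη : ContDiff ℝ ∞ η) :
    Test V (fun z => η z * χ z) := by
  have := test_mul hχ hη
  have e : (fun z => η z * χ z) = fun z => χ z * η z := by funext z; ring
  rw [e]
  exact this

/-- a local current, cut off -/
lemma cur_of (W : WtR V σ h φ θ) {A B G : ℕ → ℂ → ℂ} (sA : ∀ n, ContDiff ℝ ∞ (A n))
    (sB : ∀ n, ContDiff ℝ ∞ (B n)) (sG : ∀ n, ContDiff ℝ ∞ (G n)) (bA : Bq V h φ 2 A)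
    (bB : Bq V h φ 2 B) (bG : Bq V h φ 2 G)
    (hE : ∀ n, ∀ z ∈ V, dzb (A n) z + dz (B n) z = G n z) {a b g : ℂ → ℂ} (la : LocL2 V a)
    (lb : LocL2 V b) (lg : LocL2 V g)
    (wA : ∀ η : ℂ → ℂ, Test V η → Tendsto (fun n => ∫ z, η z * A n z) atTop (𝓝 (∫ z, η z * a z)))
    (wB : ∀ η : ℂ → ℂ, Test V η → Tendsto (fun n => ∫ z, η z * B n z) atTop (𝓝 (∫ z, η z * b z)))
    (wG : ∀ η : ℂ → ℂ, Test V η → Tendsto (fun n => ∫ z, η z * G n z) atTop (𝓝 (∫ z, η z * g z)))
    {χ : ℂ → ℂ} (hχ : Test V χ) :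
    Cur (tsupport χ) θ (fun n z => χ z * A n z) (fun n z => χ z * B n z)
      (fun n z => χ z * G n z + (dzb χ z * A n z + dz χ z * B n z))
      (fun z => χ z * a z) (fun z => χ z * b z) := by
  have hsub : ∀ {f g : ℂ → ℂ}, tsupport f ⊆ tsupport χ → tsupport (fun z => f z * g z)
      ⊆ tsupport χ := fun {f g} hf => (closure_mono fun z hz => left_ne_zero_of_mul hz).trans hf
  have hz1 := tsupport_dzb_subset χ
  have hz2 := tsupport_dz_subset χ
  have hzero : ∀ {f : ℂ → ℂ}, tsupport f ⊆ tsupport χ → ∀ z, z ∉ tsupport χ → f z = 0 :=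
    fun {f} hf z hz => image_eq_zero_of_notMem_tsupport fun hh => hz (hf hh)
  have hθn : ∀ n z, 0 ≤ 1 - θ n z := fun n z => by have := W.le_one n z; linarith
  refine ⟨fun n => hχ.smooth.mul (sA n), fun n => hχ.smooth.mul (sB n), fun n => ?_,
    fun n => hsub Subset.rfl, fun n => hsub Subset.rfl, fun n => ?_, fun n z => ?_, cut W sA bA hχ,
    cut W sB bB hχ, ?_, uis W sA bA hχ, uis W sB bB hχ, ?_, memLp_test hχ la, memLp_test hχ lb,
    ?_, ?_, ?_⟩
  · exact (hχ.smooth.mul (sG n)).add (((contDiff_dzb hχ.smooth).mul (sA n)).add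
      ((contDiff_dz hχ.smooth).mul (sB n)))
  · refine closure_minimal (fun z hz => ?_) (isClosed_tsupport χ)
    by_contra hcon
    apply hz
    beta_reduce
    rw [hzero Subset.rfl z hcon, hzero hz1 z hcon, hzero hz2 z hcon]
    ring
  · rw [dzb_mul (cd_at hχ.smooth z) (cd_at (sA n) z), dz_mul (cd_at hχ.smooth z) (cd_at (sB n) z)]
    by_cases hz : z ∈ V
    · linear_combination (χ z) * hE n z hz
    · rw [show χ z = 0 from image_eq_zero_of_notMem_tsupport fun hh => hz (hχ.sub hh)]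
      ring
  · -- the cut off of `G`
    have h1 := cut W sG bG hχ
    have h2 := cut W sA bA hχ.dzb
    have h3 := cut W sB bB hχ.dz
    have h4 := h1.add (h2.add h3)
    rw [add_zero, add_zero] at h4
    refine squeeze_zero (fun n => integral_nonneg fun z => mul_nonneg (hθn n z) (norm_nonneg _))
      (fun n => ?_) h4
    have hθc := (W.smθ n).continuous
    have ii : ∀ {f : ℂ → ℂ}, Continuous f → HasCompactSupport f →
        Integrable (fun z => (1 - θ n z) * ‖f z‖) := fun hf hc =>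
      ((continuous_const.sub hθc).mul hf.norm).integrable_of_hasCompactSupport hc.norm.mul_left
    have j1 := ii (hχ.smooth.continuous.mul (sG n).continuous) (f := fun z => χ z * G n z)
      hχ.supp.mul_right
    have j2 := ii (hχ.dzb.smooth.continuous.mul (sA n).continuous) (f := fun z => dzb χ z * A n z)
      hχ.dzb.supp.mul_right
    have j3 := ii (hχ.dz.smooth.continuous.mul (sB n).continuous) (f := fun z => dz χ z * B n z)
      hχ.dz.supp.mul_right
    have j4 : Integrable (fun z => (1 - θ n z) * ‖dzb χ z * A n z‖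
        + (1 - θ n z) * ‖dz χ z * B n z‖) := j2.add j3
    rw [← integral_add j2 j3, ← integral_add j1 j4]
    refine integral_mono_of_nonneg (Filter.Eventually.of_forall fun z => mul_nonneg (hθn n z)
      (norm_nonneg _)) (j1.add j4) (Filter.Eventually.of_forall fun z => ?_)
    beta_reduce
    have h5 : ‖χ z * G n z + (dzb χ z * A n z + dz χ z * B n z)‖
        ≤ ‖χ z * G n z‖ + (‖dzb χ z * A n z‖ + ‖dz χ z * B n z‖) :=
      (norm_add_le _ _).trans (add_le_add le_rfl (norm_add_le _ _))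
    have h6 := mul_le_mul_of_nonneg_left h5 (hθn n z)
    linarith
  · -- uniform integrability of `G`: one dominated function times a cutoff
    obtain ⟨χ', hχ', h1, -⟩ := exists_cutoff W.op (hχ.supp : IsCompact (tsupport χ)) hχ.sub
    have sH : ∀ n, ContDiff ℝ ∞ (fun z => χ z * G n z + (dzb χ z * A n z + dz χ z * B n z)) :=
      fun n => (hχ.smooth.mul (sG n)).add (((contDiff_dzb hχ.smooth).mul (sA n)).add
      ((contDiff_dz hχ.smooth).mul (sB n)))
    have bH : Bq V h φ 2 (fun n z => χ z * G n z + (dzb χ z * A n z + dz χ z * B n z)) :=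
      (bG.fn_mul hχ.smooth.continuous.continuousOn).add
        ((bA.fn_mul hχ.dzb.smooth.continuous.continuousOn).add
          (bB.fn_mul hχ.dz.smooth.continuous.continuousOn))
    have h2 := uis W sH bH hχ'
    have e : ∀ n z, (θ n z : ℂ) * (χ z * G n z + (dzb χ z * A n z + dz χ z * B n z))
        = (θ n z : ℂ) * (χ' z * (χ z * G n z + (dzb χ z * A n z + dz χ z * B n z))) := by
      intro n z
      by_cases hz : z ∈ tsupport χ
      · rw [(h1 z hz).self_of_nhds, one_mul]
      · rw [hzero Subset.rfl z hz, hzero hz1 z hz, hzero hz2 z hz]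
        ring
    simp only [e]
    exact h2
  · intro η hη _
    have := wA _ (test_mul' hχ hη)
    have e1 : ∀ f : ℂ → ℂ, (fun z => η z * χ z * f z) = fun z => η z * (χ z * f z) := by
      intro f; funext z; ring
    simpa only [e1] using this
  · intro η hη _
    have := wB _ (test_mul' hχ hη)
    have e1 : ∀ f : ℂ → ℂ, (fun z => η z * χ z * f z) = fun z => η z * (χ z * f z) := by
      intro f; funext z; ring
    simpa only [e1] using this
  · refine ⟨fun z => χ z * g z + (dzb χ z * a z + dz χ z * b z), fun η hη _ => ?_⟩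
    have t1 := test_mul' hχ hη
    have t2 := test_mul' hχ.dzb hη
    have t3 := test_mul' hχ.dz hη
    have h4 := (wG _ t1).add ((wA _ t2).add (wB _ t3))
    have e0 : ∀ {f f' f'' : ℂ → ℂ}, Integrable (fun z => η z * χ z * f z) →
        Integrable (fun z => η z * dzb χ z * f' z) → Integrable (fun z => η z * dz χ z * f'' z) →
        ∫ z, η z * (χ z * f z + (dzb χ z * f' z + dz χ z * f'' z))
          = (∫ z, η z * χ z * f z) + ((∫ z, η z * dzb χ z * f' z) + ∫ z, η z * dz χ z * f'' z) := by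
      intro f f' f'' i1 i2 i3
      have i4 : Integrable (fun z => η z * dzb χ z * f' z + η z * dz χ z * f'' z) := i2.add i3
      rw [← integral_add i2 i3, ← integral_add i1 i4]
      refine integral_congr_ae (Filter.Eventually.of_forall fun z => ?_)
      ring
    rw [e0 (t1.int_LocL2 lg) (t2.int_LocL2 la) (t3.int_LocL2 lb)]
    refine h4.congr fun n => ?_
    rw [e0 (test_int t1 (sG n).continuous) (test_int t2 (sA n).continuous)
      (test_int t3 (sB n).continuous)]

/-- the truncated div-curl lemma on an open set -/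
theorem tdc_loc (hT : StmtTDC) (W : WtR V σ h φ θ) {A B G A' B' G' : ℕ → ℂ → ℂ}
    (sA : ∀ n, ContDiff ℝ ∞ (A n)) (sB : ∀ n, ContDiff ℝ ∞ (B n)) (sG : ∀ n, ContDiff ℝ ∞ (G n))
    (sA' : ∀ n, ContDiff ℝ ∞ (A' n)) (sB' : ∀ n, ContDiff ℝ ∞ (B' n))
    (sG' : ∀ n, ContDiff ℝ ∞ (G' n))
    (bA : Bq V h φ 2 A) (bB : Bq V h φ 2 B) (bG : Bq V h φ 2 G)
    (bA' : Bq V h φ 2 A') (bB' : Bq V h φ 2 B') (bG' : Bq V h φ 2 G')
    (hE : ∀ n, ∀ z ∈ V, dzb (A n) z + dz (B n) z = G n z)
    (hE' : ∀ n, ∀ z ∈ V, dzb (A' n) z + dz (B' n) z = G' n z)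
    {a b g a' b' g' : ℂ → ℂ} (la : LocL2 V a) (lb : LocL2 V b) (lg : LocL2 V g)
    (la' : LocL2 V a') (lb' : LocL2 V b') (lg' : LocL2 V g')
    (wA : ∀ η : ℂ → ℂ, Test V η → Tendsto (fun n => ∫ z, η z * A n z) atTop (𝓝 (∫ z, η z * a z)))
    (wB : ∀ η : ℂ → ℂ, Test V η → Tendsto (fun n => ∫ z, η z * B n z) atTop (𝓝 (∫ z, η z * b z)))
    (wG : ∀ η : ℂ → ℂ, Test V η → Tendsto (fun n => ∫ z, η z * G n z) atTop (𝓝 (∫ z, η z * g z)))
    (wA' : ∀ η : ℂ → ℂ, Test V η → Tendsto (fun n => ∫ z, η z * A' n z) atTop (𝓝 (∫ z, η z * a' z)))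
    (wB' : ∀ η : ℂ → ℂ, Test V η → Tendsto (fun n => ∫ z, η z * B' n z) atTop (𝓝 (∫ z, η z * b' z)))
    (wG' : ∀ η : ℂ → ℂ, Test V η → Tendsto (fun n => ∫ z, η z * G' n z) atTop (𝓝 (∫ z, η z * g' z)))
    {ζ : ℂ → ℂ} (hζ : Test V ζ) :
    Tendsto (fun n => ∫ z, ζ z * ((θ n z : ℂ) ^ 2 * (A n z * B' n z - B n z * A' n z))) atTop
      (𝓝 (∫ z, ζ z * (a z * b' z - b z * a' z))) := by
  obtain ⟨χ, hχ, h1, -⟩ := exists_cutoff W.op (hζ.supp : IsCompact (tsupport ζ)) hζ.sub
  have c1 := cur_of W sA sB sG bA bB bG hE la lb lg wA wB wG hχ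
  have c2 := cur_of W sA' sB' sG' bA' bB' bG' hE' la' lb' lg' wA' wB' wG' hχ
  have h2 := hT (tsupport χ) θ _ _ _ _ _ _ _ _ _ _ hχ.supp W.smθ
    (fun n z => ⟨W.nonneg n z, W.le_one n z⟩) c1 c2 ζ hζ.smooth hζ.supp
  have hcut : ∀ (w x y x' y' : ℂ) (z : ℂ), ζ z * (w * (χ z * x * (χ z * y') - χ z * y * (χ z * x')))
      = ζ z * (w * (x * y' - y * x')) := by
    intro w x y x' y' z
    by_cases hz : z ∈ tsupport ζ
    · rw [(h1 z hz).self_of_nhds]
      ring
    · rw [image_eq_zero_of_notMem_tsupport hz]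
      ring
  have e1 : ∫ z, ζ z * (χ z * a z * (χ z * b' z) - χ z * b z * (χ z * a' z))
      = ∫ z, ζ z * (a z * b' z - b z * a' z) := by
    refine integral_congr_ae (Filter.Eventually.of_forall fun z => ?_)
    have := hcut 1 (a z) (b z) (a' z) (b' z) z
    simpa only [one_mul] using this
  rw [e1] at h2
  refine h2.congr fun n => ?_
  refine integral_congr_ae (Filter.Eventually.of_forall fun z => ?_)
  exact hcut _ _ _ _ _ z

end MACW

open MACW in
/-- MACW: the currents -/
theorem macW (hT : StmtTDC) : StmtMacW := by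
  intro V σ h φ θ u W J ζ hζ a b c d
  have L := W.toLocB
  have hσ := L.sm
  have hex := fun k => contDiff_ex hσ k
  have hsg : ContDiff ℝ ∞ (fun z => dz (fun w => (σ w : ℂ)) z) := contDiff_dz (contDiff_sig hσ)
  -- the currents
  have key : ∀ j m : ℤ, ∃ G : ℕ → ℂ → ℂ, (∀ n, ContDiff ℝ ∞ (G n)) ∧ Bq V h φ 2 G ∧
      (∀ n, ∀ z ∈ V, dzb (fun z => ex σ (j + m + 2) z * (E σ h φ (j + 1) n z
        * E σ h φ (m + 1) n z)) z + dz (fun z => ex σ (j + m + 2) z * (E σ h φ j n z
        * E σ h φ m n z)) z = G n z) ∧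
      ∀ η : ℂ → ℂ, Test V η → Tendsto (fun n => ∫ z, η z * G n z) atTop
        (𝓝 (∫ z, η z * ((2 * ((j + m : ℤ) : ℂ) + 2) * dz (fun w => (σ w : ℂ)) z
          * (ex σ (j + m + 2) z * WW u j m z)))) := by
    intro j m
    obtain ⟨dj, ⟨A3, hA3, h3⟩, -⟩ := stmtJetC V σ h φ L j
    obtain ⟨dm, ⟨A4, hA4, h4⟩, -⟩ := stmtJetC V σ h φ L m
    obtain ⟨dj1, -, ⟨A1, hA1, h1⟩⟩ := stmtJetC V σ h φ L (j + 1)
    obtain ⟨dm1, -, ⟨A2, hA2, h2⟩⟩ := stmtJetC V σ h φ L (m + 1)
    rw [add_sub_cancel_right] at h1 h2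
    set s : ℤ := j + m with hs
    have hV := L.op
    have dR : Dom V h φ 2 (fun n z => (A1 n z * E σ h φ (m + 1) n z
        + E σ h φ (j + 1) n z * A2 n z) + (A3 n z * E σ h φ m n z + E σ h φ j n z * A4 n z)) :=
      ((hA1.mul hV dm1).add hV (dj1.mul hV hA2)).add hV ((hA3.mul hV dm).add hV (dj.mul hV hA4))
    set R : ℕ → ℂ → ℂ := fun n z => (A1 n z * E σ h φ (m + 1) n z
        + E σ h φ (j + 1) n z * A2 n z) + (A3 n z * E σ h φ m n z + E σ h φ j n z * A4 n z) with hR
    have dB : Dom V h φ 2 (fun n z => E σ h φ j n z * E σ h φ m n z) := dj.mul hV dm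
    have hg1 : ContDiff ℝ ∞ (fun z => (2 * (s : ℂ) + 2) * dz (fun w => (σ w : ℂ)) z
        * ex σ (s + 2) z) := (contDiff_const.mul hsg).mul (hex _)
    have hg2 : ContDiff ℝ ∞ (fun z => 1 / 2 * ex σ (s + 3) z) := contDiff_const.mul (hex _)
    refine ⟨fun n z => (2 * (s : ℂ) + 2) * dz (fun w => (σ w : ℂ)) z * ex σ (s + 2) z
        * (E σ h φ j n z * E σ h φ m n z) + 1 / 2 * ex σ (s + 3) z * ((h n : ℂ) * R n z),
      fun n => ?_, ?_, fun n z hz => ?_, fun η hη => ?_⟩
    · exact (hg1.mul (dB.smooth n)).add (hg2.mul (contDiff_const.mul (dR.smooth n)))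
    · exact (dB.bq.fn_mul hg1.continuous.continuousOn).add
        ((dR.hmul hV L.hlim).bq.fn_mul hg2.continuous.continuousOn)
    · have hn : (h n : ℂ) ≠ 0 := by
        have := (L.hpos n).ne'
        exact_mod_cast this
      have sj := cd_at (dj.smooth n) z
      have sm := cd_at (dm.smooth n) z
      have sj1 := cd_at (dj1.smooth n) z
      have sm1 := cd_at (dm1.smooth n) z
      have m1 := Db_mul hσ (j + 1) (m + 1) sj1 sm1
      have m2 := D_mul hσ j m sj sm
      have x1 := Db_eq hσ (j + 1 + (m + 1)) (sj1.fun_mul sm1)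
      have x2 := D_eq hσ (j + m) (sj.fun_mul sm)
      rw [dzb_mul (cd_at (hex _) z) (sj1.fun_mul sm1), dz_mul (cd_at (hex _) z) (sj.fun_mul sm),
        dzb_ex hσ, dz_ex hσ]
      have hc : ex σ (s + 2) z = ex σ (s + 3) z * ex σ (-1) z := by
        rw [ex_mul]; congr 1; ring
      rw [m1] at x1
      rw [m2] at x2
      have y1 := h1 n z hz
      have y2 := h2 n z hz
      have y3 := h3 n z hz
      have y4 := h4 n z hz
      apply mul_left_cancel₀ hn
      rw [hR]
      beta_reduce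
      rw [hc]
      have hsc : (s : ℂ) = (j : ℂ) + (m : ℂ) := by rw [hs]; push_cast; ring
      push_cast at x1 x2 ⊢
      rw [hsc]
      linear_combination (1 / 2 * ex σ (s + 3) z * E σ h φ (m + 1) n z) * y1
        + (1 / 2 * ex σ (s + 3) z * E σ h φ (j + 1) n z) * y2
        + (1 / 2 * ex σ (s + 3) z * E σ h φ m n z) * y3
        + (1 / 2 * ex σ (s + 3) z * E σ h φ j n z) * y4
        - ((h n : ℂ) / 2 * ex σ (s + 3) z) * x1 - ((h n : ℂ) / 2 * ex σ (s + 3) z) * x2
    · have t1 := test_mul hη hg1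
      have t2 := test_mul hη hg2
      have i1 := (J.tlim j m).lim _ t1
      have hG := groA V σ h φ L
      have hz3 := (stmtIntA V h φ R L.hpos L.hlim L.smφ hG dR.smooth).2.2.1 (dR.mono (by norm_num)).bq
      have i2 := IFOB.lim_test L.hpos dR.smooth hz3 t2
      have i3 := i1.add i2
      rw [add_zero] at i3
      have e1 : ∫ z, η z * ((2 * (s : ℂ) + 2) * dz (fun w => (σ w : ℂ)) z
          * (ex σ (s + 2) z * WW u j m z))
          = ∫ z, (η z * ((2 * (s : ℂ) + 2) * dz (fun w => (σ w : ℂ)) z * ex σ (s + 2) z))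
            * WW u j m z := by
        refine integral_congr_ae (Filter.Eventually.of_forall fun z => ?_)
        beta_reduce
        ring
      rw [e1]
      refine i3.congr fun n => ?_
      have k1 : Integrable (fun z => (η z * ((2 * (s : ℂ) + 2) * dz (fun w => (σ w : ℂ)) z
          * ex σ (s + 2) z)) * (E σ h φ j n z * E σ h φ m n z)) :=
        test_int t1 (dB.smooth n).continuous
      have k2 : Integrable (fun z => (h n : ℂ) * ((η z * (1 / 2 * ex σ (s + 3) z)) * R n z)) :=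
        (test_int t2 (dR.smooth n).continuous).const_mul _
      rw [← integral_const_mul, ← integral_add k1 k2]
      refine integral_congr_ae (Filter.Eventually.of_forall fun z => ?_)
      beta_reduce
      ring
  obtain ⟨G, sG, bG, hE, wG⟩ := key a b
  obtain ⟨G', sG', bG', hE', wG'⟩ := key c d
  have dE := fun j => (stmtJetC V σ h φ L j).1
  have hV := L.op
  have sP : ∀ (k j m : ℤ) (n : ℕ), ContDiff ℝ ∞ (fun z => ex σ k z * (E σ h φ j n z
      * E σ h φ m n z)) := fun k j m n => (hex k).mul (((dE j).mul hV (dE m)).smooth n)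
  have bP : ∀ k j m : ℤ, Bq V h φ 2 (fun n z => ex σ k z * (E σ h φ j n z * E σ h φ m n z)) :=
    fun k j m => ((dE j).mul hV (dE m)).bq.fn_mul (hex k).continuous.continuousOn
  have lP : ∀ k j m : ℤ, LocL2 V (fun z => ex σ k z * WW u j m z) := by
    intro k j m K hK hKV
    obtain ⟨B, hB⟩ := hK.exists_bound_of_continuousOn (hex k).continuous.continuousOn
    have h1 : MemLp (ex σ k) ⊤ (volume.restrict K) :=
      memLp_top_of_bound (hex k).continuous.aestronglyMeasurable B
        ((ae_restrict_iff' hK.measurableSet).2 (Filter.Eventually.of_forall fun z hz => hB z hz))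
    exact ((J.tlim j m).loc K hK hKV).mul' h1
  have wP : ∀ (k j m : ℤ) (η : ℂ → ℂ), Test V η →
      Tendsto (fun n => ∫ z, η z * (ex σ k z * (E σ h φ j n z * E σ h φ m n z))) atTop
        (𝓝 (∫ z, η z * (ex σ k z * WW u j m z))) := by
    intro k j m η hη
    have h1 := (J.tlim j m).lim _ (test_mul hη (hex k))
    have e1 : ∀ f : ℂ → ℂ, (fun z => η z * ex σ k z * f z) = fun z => η z * (ex σ k z * f z) := by
      intro f; funext z; ring
    simpa only [e1] using h1
  have lg : ∀ j m : ℤ, LocL2 V (fun z => (2 * ((j + m : ℤ) : ℂ) + 2) * dz (fun w => (σ w : ℂ)) z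
      * (ex σ (j + m + 2) z * WW u j m z)) := by
    intro j m K hK hKV
    have hc : Continuous fun z => (2 * ((j + m : ℤ) : ℂ) + 2) * dz (fun w => (σ w : ℂ)) z :=
      continuous_const.mul hsg.continuous
    obtain ⟨B, hB⟩ := hK.exists_bound_of_continuousOn hc.continuousOn
    have h1 : MemLp (fun z => (2 * ((j + m : ℤ) : ℂ) + 2) * dz (fun w => (σ w : ℂ)) z) ⊤
        (volume.restrict K) := memLp_top_of_bound hc.aestronglyMeasurable B
        ((ae_restrict_iff' hK.measurableSet).2 (Filter.Eventually.of_forall fun z hz => hB z hz))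
    exact (lP (j + m + 2) j m K hK hKV).mul' h1
  set K : ℤ := -(a + b + 2) + -(c + d + 2) with hK
  have hfin := tdc_loc hT W (sP (a + b + 2) (a + 1) (b + 1)) (sP (a + b + 2) a b) sG
    (sP (c + d + 2) (c + 1) (d + 1)) (sP (c + d + 2) c d) sG'
    (bP (a + b + 2) (a + 1) (b + 1)) (bP (a + b + 2) a b) bG
    (bP (c + d + 2) (c + 1) (d + 1)) (bP (c + d + 2) c d) bG' hE hE'
    (lP (a + b + 2) (a + 1) (b + 1)) (lP (a + b + 2) a b) (lg a b)
    (lP (c + d + 2) (c + 1) (d + 1)) (lP (c + d + 2) c d) (lg c d)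
    (wP (a + b + 2) (a + 1) (b + 1)) (wP (a + b + 2) a b) wG
    (wP (c + d + 2) (c + 1) (d + 1)) (wP (c + d + 2) c d) wG' (test_mul hζ (hex K))
  have hexx : ∀ z, ex σ K z * (ex σ (a + b + 2) z * ex σ (c + d + 2) z) = 1 := by
    intro z
    rw [ex_mul, ex_mul, hK]
    have : -(a + b + 2) + -(c + d + 2) + (a + b + 2 + (c + d + 2)) = 0 := by ring
    rw [this, ex_zero]
  have e1 : ∫ z, ζ z * ex σ K z * (ex σ (a + b + 2) z * WW u (a + 1) (b + 1) z
      * (ex σ (c + d + 2) z * WW u c d z) - ex σ (a + b + 2) z * WW u a b z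
      * (ex σ (c + d + 2) z * WW u (c + 1) (d + 1) z))
      = Gam u ζ (a + 1) (b + 1) c d - Gam u ζ a b (c + 1) (d + 1) := by
    unfold Gam
    rw [← integral_sub (hζ.int_GW J.loc _ _ _ _) (hζ.int_GW J.loc _ _ _ _)]
    refine MeasureTheory.integral_congr_ae (Filter.Eventually.of_forall fun z => ?_)
    beta_reduce
    rw [← mul_sub, GW_step]
    linear_combination (ζ z * (WW u (a + 1) (b + 1) z * WW u c d z
      - WW u a b z * WW u (c + 1) (d + 1) z)) * hexx z
  rw [e1] at hfin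
  have h4 := hfin.sub_const (Gam u ζ (a + 1) (b + 1) c d - Gam u ζ a b (c + 1) (d + 1))
  rw [sub_self] at h4
  refine h4.congr fun n => ?_
  have e2 : ∫ z, ζ z * ex σ K z * ((θ n z : ℂ) ^ 2 * (ex σ (a + b + 2) z * (E σ h φ (a + 1) n z
      * E σ h φ (b + 1) n z) * (ex σ (c + d + 2) z * (E σ h φ c n z * E σ h φ d n z))
      - ex σ (a + b + 2) z * (E σ h φ a n z * E σ h φ b n z)
      * (ex σ (c + d + 2) z * (E σ h φ (c + 1) n z * E σ h φ (d + 1) n z))))
      = E4w σ h φ θ ζ n (a + 1) (b + 1) c d - E4w σ h φ θ ζ n a b (c + 1) (d + 1) := by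
    unfold E4w
    have i4 : ∀ j m k l : ℤ, Integrable (fun z => ζ z * ((θ n z : ℂ) ^ 2 * (E σ h φ j n z
        * E σ h φ m n z * (E σ h φ k n z * E σ h φ l n z)))) := fun j m k l =>
      test_int hζ (((contDiff_ofR (W.smθ n)).continuous.pow 2).mul (((smE L j n).continuous.mul
        (smE L m n).continuous).mul ((smE L k n).continuous.mul (smE L l n).continuous)))
    rw [← integral_sub (i4 _ _ _ _) (i4 _ _ _ _)]
    refine MeasureTheory.integral_congr_ae (Filter.Eventually.of_forall fun z => ?_)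
    beta_reduce
    linear_combination (ζ z * ((θ n z : ℂ) ^ 2 * (E σ h φ (a + 1) n z * E σ h φ (b + 1) n z
      * (E σ h φ c n z * E σ h φ d n z) - E σ h φ a n z * E σ h φ b n z
      * (E σ h φ (c + 1) n z * E σ h φ (d + 1) n z)))) * hexx z
  rw [e2]
  unfold Yw
  ring

end

end BSL
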