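import Pool.Agent.BSL.StmtsT
import Pool.Agent.BSL.WTR
import Pool.Agent.BWM.C27

/-!
# Theorem B: rotation averages of the products of the values at four points (module ROTP)
-/

open Complex MeasureTheory Filter Topology Set
open scoped ContDiff

namespace BSL

open QE QJ U3

noncomputable section

namespace ROTP

variable {V K : Set ℂ} {σ : ℂ → ℝ} {h : ℕ → ℝ} {φ : ℕ → ℂ → ℂ} {θ : ℕ → ℂ → ℝ}

/-! ### The local mean squares -/

lemma Mn_mono (hφ : ∀ n, Continuous (φ n)) (hpos : ∀ n, 0 < h n) {L₁ L : ℝ} (hL : L₁ ≤ L)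
    (n : ℕ) (z : ℂ) : Mn L₁ h φ n z ≤ Mn L h φ n z := by
  unfold Mn
  have h1 : ∫ w in Metric.closedBall z (L₁ * h n), ‖φ n w‖ ^ 2
      ≤ ∫ w in Metric.closedBall z (L * h n), ‖φ n w‖ ^ 2 := by
    refine setIntegral_mono_set ?_ (Filter.Eventually.of_forall fun w => by positivity) ?_
    · exact ((hφ n).norm.pow 2).continuousOn.integrableOn_compact (isCompact_closedBall _ _)
    · exact (Metric.closedBall_subset_closedBall
        (mul_le_mul_of_nonneg_right hL (hpos n).le)).eventuallyLE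
  have h2 : 0 ≤ 1 / h n ^ 2 := by positivity
  have := mul_le_mul_of_nonneg_left h1 h2
  linarith

lemma one_le_sqrt (L : ℝ) (n : ℕ) (z : ℂ) : 1 ≤ √(Mn L h φ n z) := by
  rw [Real.one_le_sqrt]
  exact one_le_Mn L n z

lemma sqrt_pow_four (L : ℝ) (n : ℕ) (z : ℂ) : √(Mn L h φ n z) ^ 4 = Mn L h φ n z ^ 2 := by
  have h0 : 0 ≤ Mn L h φ n z := zero_le_one.trans (one_le_Mn L n z)
  calc √(Mn L h φ n z) ^ 4 = (√(Mn L h φ n z) ^ 2) ^ 2 := by ring
    _ = _ := by rw [Real.sq_sqrt h0]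

/-- the jets are bounded by the local mean squares -/
lemma E_bd (H : LocB V σ h φ) (hK : IsCompact K) (hKV : K ⊆ V) {L : ℝ} (hL : 0 < L) (j : ℤ) :
    ∃ C : ℝ, 0 ≤ C ∧ ∀ᶠ n in atTop, ∀ z ∈ K, ‖E σ h φ j n z‖ ≤ C * √(Mn L h φ n z) := by
  obtain ⟨N, C, hC⟩ := (stmtJetC V σ h φ H j).1.bq K hK hKV
  obtain ⟨C', hC'0, hC'⟩ := ptwC QJ.stmtSup H hK hKV N hL
  refine ⟨√(|C| * C'), Real.sqrt_nonneg _, ?_⟩
  filter_upwards [hC, hC'] with n h1 h2 z hz
  have h3 : ‖E σ h φ j n z‖ ^ 2 ≤ |C| * C' * Mn L h φ n z := by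
    calc ‖E σ h φ j n z‖ ^ 2 ≤ C * RR h φ N n z ^ 1 := h1 z hz
      _ ≤ |C| * RR h φ N n z := by
        rw [pow_one]
        exact mul_le_mul_of_nonneg_right (le_abs_self C) (RR_pos h φ N n z).le
      _ ≤ |C| * (C' * Mn L h φ n z) := mul_le_mul_of_nonneg_left (h2 z hz) (abs_nonneg C)
      _ = _ := by ring
  rw [← Real.sqrt_mul (by positivity)]
  exact Real.le_sqrt_of_sq_le h3

/-- a common bound for finitely many jets -/
lemma E_bds (H : LocB V σ h φ) (hK : IsCompact K) (hKV : K ⊆ V) {L : ℝ} (hL : 0 < L)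
    (s : Finset ℤ) :
    ∃ C : ℝ, 0 ≤ C ∧ ∀ᶠ n in atTop, ∀ z ∈ K, ∀ j ∈ s, ‖E σ h φ j n z‖ ≤ C * √(Mn L h φ n z) := by
  choose C hC0 hC using fun j => E_bd H hK hKV hL j
  refine ⟨∑ j ∈ s, C j, Finset.sum_nonneg fun j _ => hC0 j, ?_⟩
  have h1 : ∀ᶠ n in atTop, ∀ j ∈ s, ∀ z ∈ K, ‖E σ h φ j n z‖ ≤ C j * √(Mn L h φ n z) :=
    (Filter.eventually_all_finset s).2 fun j _ => hC j
  filter_upwards [h1] with n hn z hz j hj
  refine (hn j hj z hz).trans (mul_le_mul_of_nonneg_right ?_ (Real.sqrt_nonneg _))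
  exact Finset.single_le_sum (fun j _ => hC0 j) hj

lemma continuous_kap1 (N : ℕ) (j : ℤ) : Continuous (kap1 N j) :=
  continuous_const.mul (continuous_CN N j)

/-- the Taylor polynomials are bounded by the local mean squares -/
lemma Tay_bd (H : LocB V σ h φ) (hK : IsCompact K) (hKV : K ⊆ V) {L : ℝ} (hL : 0 < L) (N : ℕ)
    (R : ℝ) : ∃ C : ℝ, 0 ≤ C ∧ ∀ᶠ n in atTop, ∀ z ∈ K, ∀ y : ℂ, ‖y‖ ≤ R →
      ‖TayE σ h φ N n z y‖ ≤ C * √(Mn L h φ n z) := by
  obtain ⟨C, hC0, hC⟩ := E_bds H hK hKV hL (Finset.Icc (-(N : ℤ)) N)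
  have hc : Continuous fun y => ∑ j ∈ Finset.Icc (-(N : ℤ)) N, ‖kap1 N j y‖ :=
    continuous_finset_sum _ fun j _ => (continuous_kap1 N j).norm
  obtain ⟨B, hB⟩ := (isCompact_closedBall (0 : ℂ) R).exists_bound_of_continuousOn hc.continuousOn
  refine ⟨|B| * C, by positivity, ?_⟩
  filter_upwards [hC] with n hn z hz y hy
  have h1 := hB y (by simpa using hy)
  rw [Real.norm_of_nonneg (Finset.sum_nonneg fun j _ => norm_nonneg _)] at h1
  unfold TayE
  calc ‖∑ j ∈ Finset.Icc (-(N : ℤ)) N, kap1 N j y * E σ h φ j n z‖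
      ≤ ∑ j ∈ Finset.Icc (-(N : ℤ)) N, ‖kap1 N j y‖ * (C * √(Mn L h φ n z)) := by
        refine norm_sum_le_of_le _ fun j hj => ?_
        rw [norm_mul]
        exact mul_le_mul_of_nonneg_left (hn z hz j hj) (norm_nonneg _)
    _ = (∑ j ∈ Finset.Icc (-(N : ℤ)) N, ‖kap1 N j y‖) * (C * √(Mn L h φ n z)) := by
        rw [Finset.sum_mul]
    _ ≤ |B| * (C * √(Mn L h φ n z)) := by
        refine mul_le_mul_of_nonneg_right (h1.trans (le_abs_self B)) ?_
        positivity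
    _ = _ := by ring

/-- the modulus of continuity of the Taylor polynomials -/
lemma Tay_mod (H : LocB V σ h φ) (hK : IsCompact K) (hKV : K ⊆ V) {L : ℝ} (hL : 0 < L) (N : ℕ)
    (R : ℝ) {ε : ℝ} (hε : 0 < ε) : ∃ δ : ℝ, 0 < δ ∧ ∀ᶠ n in atTop, ∀ z ∈ K, ∀ y y' : ℂ,
      ‖y‖ ≤ R → ‖y'‖ ≤ R → ‖y - y'‖ ≤ δ →
      ‖TayE σ h φ N n z y - TayE σ h φ N n z y'‖ ≤ ε * √(Mn L h φ n z) := by
  obtain ⟨C, hC0, hC⟩ := E_bds H hK hKV hL (Finset.Icc (-(N : ℤ)) N)
  set g : ℂ × ℂ → ℝ := fun p => ∑ j ∈ Finset.Icc (-(N : ℤ)) N, ‖kap1 N j p.1 - kap1 N j p.2‖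
    with hg
  have hgc : Continuous g := continuous_finset_sum _ fun j _ =>
    (((continuous_kap1 N j).comp continuous_fst).sub
      ((continuous_kap1 N j).comp continuous_snd)).norm
  have hgu := ((isCompact_closedBall (0 : ℂ) R).prod
    (isCompact_closedBall (0 : ℂ) R)).uniformContinuousOn_of_continuous hgc.continuousOn
  rw [Metric.uniformContinuousOn_iff] at hgu
  obtain ⟨δ, hδ, h1⟩ := hgu (ε / (C + 1)) (by positivity)
  refine ⟨δ / 2, by positivity, ?_⟩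
  filter_upwards [hC] with n hn z hz y y' hy hy' hyy
  have m1 : y ∈ Metric.closedBall (0 : ℂ) R := by simpa using hy
  have m2 : y' ∈ Metric.closedBall (0 : ℂ) R := by simpa using hy'
  have h2 := h1 (y, y') ⟨m1, m2⟩ (y, y) ⟨m1, m1⟩ (by
    rw [Prod.dist_eq, dist_self, dist_eq_norm, norm_sub_rev]
    refine max_lt hδ ?_
    linarith)
  have h3 : g (y, y) = 0 := by simp [hg]
  rw [h3, Real.dist_0_eq_abs] at h2
  have h4 : g (y, y') ≤ ε / (C + 1) := (le_abs_self _).trans h2.le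
  have h5 : TayE σ h φ N n z y - TayE σ h φ N n z y'
      = ∑ j ∈ Finset.Icc (-(N : ℤ)) N, (kap1 N j y - kap1 N j y') * E σ h φ j n z := by
    unfold TayE
    rw [← Finset.sum_sub_distrib]
    exact Finset.sum_congr rfl fun j _ => by ring
  rw [h5]
  calc ‖∑ j ∈ Finset.Icc (-(N : ℤ)) N, (kap1 N j y - kap1 N j y') * E σ h φ j n z‖
      ≤ ∑ j ∈ Finset.Icc (-(N : ℤ)) N, ‖kap1 N j y - kap1 N j y'‖ * (C * √(Mn L h φ n z)) := by
        refine norm_sum_le_of_le _ fun j hj => ?_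
        rw [norm_mul]
        exact mul_le_mul_of_nonneg_left (hn z hz j hj) (norm_nonneg _)
    _ = g (y, y') * (C * √(Mn L h φ n z)) := by
        rw [hg, Finset.sum_mul]
    _ ≤ ε / (C + 1) * (C * √(Mn L h φ n z)) := mul_le_mul_of_nonneg_right h4 (by positivity)
    _ = C / (C + 1) * (ε * √(Mn L h φ n z)) := by field_simp
    _ ≤ 1 * (ε * √(Mn L h φ n z)) := by
        refine mul_le_mul_of_nonneg_right ?_ (by positivity)
        rw [div_le_one (by positivity)]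
        linarith
    _ = _ := one_mul _

/-- the squares of the weighted local means are bounded in the mean -/
lemma sq_bd {L : ℝ} (W : Wt V σ h φ L θ) (hK : IsCompact K) (hKV : K ⊆ V) :
    ∃ B : ℝ, 0 ≤ B ∧ ∀ᶠ n in atTop, ∫ z in K, (θ n z * Mn L h φ n z) ^ 2 ≤ B := by
  obtain ⟨T, hT⟩ := W.ui K hK hKV 1 one_pos
  refine ⟨T ^ 2 * volume.real K + 1, by positivity, ?_⟩
  filter_upwards [hT] with n hn
  have hc : Continuous fun z => θ n z * Mn L h φ n z :=
    (W.smθ n).continuous.mul (continuous_Mn (fun n => (W.smφ n).continuous) L n)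
  have i1 : IntegrableOn (fun z => (θ n z * Mn L h φ n z) ^ 2) K :=
    (hc.pow 2).continuousOn.integrableOn_compact hK
  have i2 : IntegrableOn (fun z => if T < θ n z * Mn L h φ n z then
      (θ n z * Mn L h φ n z) ^ 2 else 0) K := by
    refine Integrable.mono i1 ?_ (Filter.Eventually.of_forall fun z => ?_)
    · exact (Measurable.ite (measurableSet_lt measurable_const hc.measurable)
        (hc.measurable.pow_const 2) measurable_const).aestronglyMeasurable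
    · split_ifs
      · exact le_rfl
      · rw [norm_zero]; exact norm_nonneg _
  have i3 : IntegrableOn (fun _ : ℂ => T ^ 2) K := by
    rw [integrableOn_const_iff]
    exact Or.inr hK.measure_lt_top
  calc ∫ z in K, (θ n z * Mn L h φ n z) ^ 2
      ≤ ∫ z in K, (T ^ 2 + if T < θ n z * Mn L h φ n z then
          (θ n z * Mn L h φ n z) ^ 2 else 0) := by
        refine setIntegral_mono_on i1 (i3.add i2) hK.measurableSet fun z hz => ?_
        have h1 : 0 ≤ θ n z * Mn L h φ n z :=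
          mul_nonneg (W.nonneg n z) (zero_le_one.trans (one_le_Mn L n z))
        split_ifs with h2
        · have := sq_nonneg T
          linarith
        · rw [not_lt] at h2
          rw [add_zero]
          exact pow_le_pow_left₀ h1 h2 2
    _ = T ^ 2 * volume.real K + ∫ z in K, (if T < θ n z * Mn L h φ n z then
          (θ n z * Mn L h φ n z) ^ 2 else 0) := by
        rw [integral_add i3 i2, setIntegral_const, smul_eq_mul, mul_comm]
    _ ≤ _ := by linarith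

/-! ### The expansion -/

lemma Tay_rot {u : ℂ} (hu : ‖u‖ = 1) (N n : ℕ) (z x : ℂ) :
    TayE σ h φ N n z (u * x)
      = ∑ j ∈ Finset.Icc (-(N : ℤ)) N, u ^ j * kap1 N j x * E σ h φ j n z := by
  unfold TayE kap1
  refine Finset.sum_congr rfl fun j _ => ?_
  rw [CN_rot N hu]
  ring

/-- the rotation average of the products of the Taylor polynomials -/
lemma expand (hσ : ContDiff ℝ ∞ σ) (hφ : ∀ n, ContDiff ℝ ∞ (φ n)) {w : ℂ → ℝ}
    (hw : Continuous w) {ζ : ℂ → ℂ} (hζ : Test V ζ) {r : ℕ} (x : Fin r → ℂ) (N n : ℕ) :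
    ∫ t, (∫ z, ζ z * ((w z : ℂ) * ∏ i, TayE σ h φ N n z (uu t ^ 2 * x i))) ∂ang
      = ∑ p ∈ Fintype.piFinset (fun _ : Fin r => Finset.Icc (-(N : ℤ)) N),
        (∏ i, kap1 N (p i) (x i)) * ((if ∑ i, p i = 0 then 1 else 0)
          * ∫ z, ζ z * ((w z : ℂ) * ∏ i, E σ h φ (p i) n z)) := by
  set s := Fintype.piFinset (fun _ : Fin r => Finset.Icc (-(N : ℤ)) N) with hs
  have hEc : ∀ j, Continuous (E σ h φ j n) := fun j => (E3Z.contDiff_E hσ hφ j n).continuous
  have hint : ∀ p : Fin r → ℤ, Integrable (fun z => ζ z * ((w z : ℂ)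
      * ∏ i, E σ h φ (p i) n z)) := by
    intro p
    refine test_int hζ ?_
    exact (Complex.continuous_ofReal.comp hw).mul (continuous_finset_prod _ fun i _ => hEc (p i))
  have e1 : ∀ t : ℝ, ∫ z, ζ z * ((w z : ℂ) * ∏ i, TayE σ h φ N n z (uu t ^ 2 * x i))
      = ∑ p ∈ s, ((uu t ^ 2) ^ (∑ i, p i)) * ((∏ i, kap1 N (p i) (x i))
          * ∫ z, ζ z * ((w z : ℂ) * ∏ i, E σ h φ (p i) n z)) := by
    intro t
    have hu : ‖uu t ^ 2‖ = 1 := by rw [norm_pow, norm_uu, one_pow]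
    have hu0 : uu t ^ 2 ≠ 0 := pow_ne_zero _ (uu_ne t)
    have e2 : ∀ z, ζ z * ((w z : ℂ) * ∏ i, TayE σ h φ N n z (uu t ^ 2 * x i))
        = ∑ p ∈ s, ((uu t ^ 2) ^ (∑ i, p i) * ∏ i, kap1 N (p i) (x i))
          * (ζ z * ((w z : ℂ) * ∏ i, E σ h φ (p i) n z)) := by
      intro z
      have e3 : ∏ i, TayE σ h φ N n z (uu t ^ 2 * x i) = ∑ p ∈ s,
          ∏ i, ((uu t ^ 2) ^ (p i) * kap1 N (p i) (x i) * E σ h φ (p i) n z) := by
        rw [hs, ← Finset.prod_univ_sum (fun _ : Fin r => Finset.Icc (-(N : ℤ)) N)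
          (fun i j => (uu t ^ 2) ^ j * kap1 N j (x i) * E σ h φ j n z)]
        refine Finset.prod_congr rfl fun i _ => ?_
        rw [Tay_rot hu]
      rw [e3, Finset.mul_sum, Finset.mul_sum]
      refine Finset.sum_congr rfl fun p _ => ?_
      rw [Finset.prod_mul_distrib, Finset.prod_mul_distrib]
      have e4 : ∏ i, (uu t ^ 2) ^ (p i) = (uu t ^ 2) ^ (∑ i, p i) := by
        induction (Finset.univ : Finset (Fin r)) using Finset.induction_on with
        | empty => simp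
        | insert i t hi ih => rw [Finset.prod_insert hi, Finset.sum_insert hi, zpow_add₀ hu0, ih]
      rw [e4]
      ring
    simp only [e2]
    rw [integral_finset_sum _ fun p _ => (hint p).const_mul _]
    refine Finset.sum_congr rfl fun p _ => ?_
    rw [integral_const_mul]
    ring
  simp only [e1]
  rw [integral_finset_sum]
  · refine Finset.sum_congr rfl fun p _ => ?_
    rw [integral_mul_const]
    have e5 : ∫ t, (uu t ^ 2) ^ (∑ i, p i) ∂ang = if ∑ i, p i = 0 then 1 else 0 := by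
      have := ang_zpow_mul (q := 2) (by norm_num) (∑ i, p i)
      simpa only [zpow_ofNat] using this
    rw [e5]
    ring
  · intro p _
    refine Integrable.mul_const ?_ _
    have e6 : (fun t => (uu t ^ 2) ^ (∑ i, p i)) = fun t => uu t ^ (2 * ∑ i, p i) := by
      funext t
      rw [zpow_mul, zpow_ofNat]
    rw [e6]
    refine Integrable.of_bound (continuous_uu_zpow _).aestronglyMeasurable 1
      (Eventually.of_forall fun t => ?_)
    rw [norm_zpow, norm_uu, one_zpow]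

/-! ### Continuity -/

lemma dp_cont (hσ : ContDiff ℝ ∞ σ) {ξ : ℕ → ℝ → ℂ → ℂ} {n : ℕ}
    (hc : ContinuousOn (fun p : ℝ × ℂ => ξ n p.1 p.2) (univ ×ˢ K)) :
    ContinuousOn (fun p : ℝ × ℂ => dp σ h n p.2 (ξ n p.1 p.2)) (univ ×ˢ K) := by
  unfold dp
  have h1 : Continuous (ex σ (-1)) := (contDiff_ex hσ (-1)).continuous
  exact continuousOn_snd.add (continuousOn_const.mul
    ((h1.comp continuous_snd).continuousOn.mul hc))

lemma Tay_cont (hσ : ContDiff ℝ ∞ σ) (hφ : ∀ n, ContDiff ℝ ∞ (φ n)) (N n : ℕ) (x : ℂ) :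
    Continuous (fun p : ℝ × ℂ => TayE σ h φ N n p.2 (uu p.1 ^ 2 * x)) := by
  unfold TayE
  refine continuous_finset_sum _ fun j _ => Continuous.mul ?_ ?_
  · exact (continuous_kap1 N j).comp
      (((continuous_uu.comp continuous_fst).pow 2).mul continuous_const)
  · exact (E3Z.contDiff_E hσ hφ j n).continuous.comp continuous_snd

/-- from the plane to a compact set which contains the support -/
lemma int_eq {ζ : ℂ → ℂ} (hζK : tsupport ζ ⊆ K) (G : ℂ → ℂ) :
    ∫ z, ζ z * G z = ∫ z in K, ζ z * G z := by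
  refine (setIntegral_eq_integral_of_forall_compl_eq_zero fun z hz => ?_).symm
  rw [image_eq_zero_of_notMem_tsupport fun h => hz (hζK h), zero_mul]

/-- **The rotation averages of the products of the values at `r` points, with a weight.** The weight
is arbitrary, with a bound for the integral of `w √Mn ^ r`. -/
theorem gen (h1 : StmtTay) (H : LocB V σ h φ) (hK : IsCompact K) (hKV : K ⊆ V) (R : ℝ) :
    ∃ L₀ : ℝ, 0 < L₀ ∧ ∀ L ≥ L₀, ∀ (r : ℕ) (w : ℕ → ℂ → ℝ), (∀ n, Continuous (w n)) →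
      (∀ n z, 0 ≤ w n z) →
      (∃ B : ℝ, ∀ᶠ n in atTop, ∫ z in K, w n z * √(Mn L h φ n z) ^ r ≤ B) →
      ∀ (x : Fin r → ℂ) (ξ : Fin r → ℕ → ℝ → ℂ → ℂ), (∀ i, ‖x i‖ ≤ R) → (∀ i, Dis K (x i) (ξ i)) →
      ∀ ζ : ℂ → ℂ, Test V ζ → tsupport ζ ⊆ K → ∀ ε > 0, ∃ N₀ : ℕ, ∀ N ≥ N₀, ∀ᶠ n in atTop,
        ‖(∫ t, (∫ z, ζ z * ((w n z : ℂ) * ∏ i, φ n (dp σ h n z (ξ i n t z)))) ∂ang)
          - ∑ p ∈ Fintype.piFinset (fun _ : Fin r => Finset.Icc (-(N : ℤ)) N),
            (∏ i, kap1 N (p i) (x i)) * ((if ∑ i, p i = 0 then 1 else 0)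
              * ∫ z, ζ z * ((w n z : ℂ) * ∏ i, E σ h φ (p i) n z))‖ ≤ ε := by
  obtain ⟨L₁, hL₁, hTay⟩ := h1 V σ h φ H K hK hKV (R + 1)
  refine ⟨max L₁ 1, by positivity, fun L hL r w hwc hw0 hwB x ξ hx hξ ζ hζ hζK ε hε => ?_⟩
  have hLL : L₁ ≤ L := (le_max_left _ _).trans hL
  have hL0 : 0 < L := hL₁.trans_le hLL
  have hφc : ∀ n, Continuous (φ n) := fun n => (H.smφ n).continuous
  have hmono : ∀ n z, √(Mn L₁ h φ n z) ≤ √(Mn L h φ n z) := fun n z =>
    Real.sqrt_le_sqrt (Mn_mono hφc H.hpos hLL n z)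
  -- the values
  obtain ⟨N₁, hN₁⟩ := hTay 1 one_pos
  obtain ⟨C₁, hC₁0, hC₁⟩ := Tay_bd H hK hKV hL0 N₁ (R + 1)
  obtain ⟨B, hB⟩ := hwB
  obtain ⟨Z, hZ⟩ := hK.exists_bound_of_continuousOn hζ.smooth.continuous.continuousOn
  set M : ℝ := C₁ + 2 with hM
  have hM1 : 1 ≤ M := by linarith
  have hM0 : 0 < M := by linarith
  set ε₁ : ℝ := min 1 (ε / (|Z| * (r * M ^ r) * |B| + 1)) with hε₁
  have hε₁0 : 0 < ε₁ := lt_min one_pos (by positivity)
  have hε₁1 : ε₁ ≤ 1 := min_le_left _ _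
  have hε₁2 : |Z| * (r * (ε₁ * M ^ r)) * |B| ≤ ε := by
    have h2 : ε₁ ≤ ε / (|Z| * (r * M ^ r) * |B| + 1) := min_le_right _ _
    have h3 : 0 ≤ |Z| * (r * M ^ r) * |B| := by positivity
    rw [le_div_iff₀ (by positivity)] at h2
    calc |Z| * (r * (ε₁ * M ^ r)) * |B| = ε₁ * (|Z| * (r * M ^ r) * |B|) := by ring
      _ ≤ ε₁ * (|Z| * (r * M ^ r) * |B| + 1) := by
        refine mul_le_mul_of_nonneg_left (by linarith) hε₁0.le
      _ ≤ ε := h2
  obtain ⟨N₀, hN₀⟩ := hTay (ε₁ / 2) (by positivity)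
  refine ⟨N₀, fun N hN => ?_⟩
  obtain ⟨δ, hδ, hmod⟩ := Tay_mod H hK hKV hL0 N (R + 1) (ε := ε₁ / 2) (by positivity)
  have hlim : ∀ᶠ n in atTop, ∀ i, ∀ t, ∀ z ∈ K, ‖ξ i n t z - uu t ^ 2 * x i‖ ≤ min δ 1 :=
    Filter.eventually_all.2 fun i => (hξ i).lim _ (lt_min hδ one_pos)
  have hcont : ∀ᶠ n in atTop, ∀ i, ContinuousOn (fun p : ℝ × ℂ => ξ i n p.1 p.2) (univ ×ˢ K) :=
    Filter.eventually_all.2 fun i => (hξ i).cont
  filter_upwards [hN₁ N₁ le_rfl, hC₁, hB, hN₀ N hN, hmod, hlim, hcont] with n n1 n2 n3 n4 n5 n6 n7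
  have hux : ∀ i t, ‖uu t ^ 2 * x i‖ ≤ R := fun i t => by
    rw [norm_mul, norm_pow, norm_uu, one_pow, one_mul]
    exact hx i
  have hξR : ∀ i t, ∀ z ∈ K, ‖ξ i n t z‖ ≤ R + 1 := by
    intro i t z hz
    have h2 := (n6 i t z hz).trans (min_le_right _ _)
    have h3 := norm_le_norm_add_norm_sub' (ξ i n t z) (uu t ^ 2 * x i)
    have h4 := hux i t
    linarith
  have hcl : ∀ i t, ∀ z ∈ K, ‖φ n (dp σ h n z (ξ i n t z)) - TayE σ h φ N n z (uu t ^ 2 * x i)‖
      ≤ ε₁ * √(Mn L h φ n z) := by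
    intro i t z hz
    have h2 := (n4 z hz (ξ i n t z) (hξR i t z hz)).2
    have h3 := n5 z hz (ξ i n t z) (uu t ^ 2 * x i) (hξR i t z hz) ((hux i t).trans (by linarith))
      ((n6 i t z hz).trans (min_le_left _ _))
    have h4 := mul_le_mul_of_nonneg_left (hmono n z) (show 0 ≤ ε₁ / 2 by positivity)
    calc _ = ‖(φ n (dp σ h n z (ξ i n t z)) - TayE σ h φ N n z (ξ i n t z))
          + (TayE σ h φ N n z (ξ i n t z) - TayE σ h φ N n z (uu t ^ 2 * x i))‖ := by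
          congr 1; ring
      _ ≤ _ := norm_add_le _ _
      _ ≤ ε₁ * √(Mn L h φ n z) := by linarith
  have hv : ∀ i t, ∀ z ∈ K, ‖φ n (dp σ h n z (ξ i n t z))‖ ≤ (C₁ + 1) * √(Mn L h φ n z) := by
    intro i t z hz
    have h2 := (n1 z hz (ξ i n t z) (hξR i t z hz)).2
    have h3 := n2 z hz (ξ i n t z) (hξR i t z hz)
    have h4 := norm_le_norm_add_norm_sub' (φ n (dp σ h n z (ξ i n t z)))
      (TayE σ h φ N₁ n z (ξ i n t z))
    have h5 := hmono n z
    linarith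
  have hb : ∀ i t, ∀ z ∈ K, ‖TayE σ h φ N n z (uu t ^ 2 * x i)‖ ≤ M * √(Mn L h φ n z) := by
    intro i t z hz
    have h2 := hcl i t z hz
    have h3 := hv i t z hz
    have h4 := norm_le_norm_add_norm_sub (φ n (dp σ h n z (ξ i n t z)))
      (TayE σ h φ N n z (uu t ^ 2 * x i))
    have h5 := Real.sqrt_nonneg (Mn L h φ n z)
    have h6 := mul_le_mul_of_nonneg_right hε₁1 h5
    rw [hM]
    linarith
  have hprod : ∀ t, ∀ z ∈ K, ‖∏ i, φ n (dp σ h n z (ξ i n t z))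
      - ∏ i, TayE σ h φ N n z (uu t ^ 2 * x i)‖
        ≤ r * (ε₁ * M ^ r) * √(Mn L h φ n z) ^ r := by
    intro t z hz
    set S := √(Mn L h φ n z) with hS
    have hS1 : 1 ≤ S := one_le_sqrt L n z
    have hS0 : 0 < S := by linarith
    have hdiv : ∀ (w : ℂ) (c : ℝ), ‖w‖ ≤ c * S → ‖w / S‖ ≤ c := by
      intro w c hw
      rw [norm_div, Complex.norm_real, Real.norm_of_nonneg hS0.le, div_le_iff₀ hS0]
      exact hw
    have h2 := (PTS.prod_diff (Finset.univ : Finset (Fin r))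
      (fun i => φ n (dp σ h n z (ξ i n t z)) / S)
      (fun i => TayE σ h φ N n z (uu t ^ 2 * x i) / S) hM1 hε₁0.le
      (fun i => hdiv _ _ ((hv i t z hz).trans
        (mul_le_mul_of_nonneg_right (by rw [hM]; linarith) hS0.le)))
      (fun i => hdiv _ _ (hb i t z hz))
      (fun i => by
        rw [← sub_div]
        exact hdiv _ _ (hcl i t z hz))).1
    rw [Finset.card_univ, Fintype.card_fin, Finset.prod_div_distrib, Finset.prod_div_distrib,
      Finset.prod_const, Finset.card_univ, Fintype.card_fin, ← sub_div, norm_div, norm_pow,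
      Complex.norm_real, Real.norm_of_nonneg hS0.le, div_le_iff₀ (by positivity)] at h2
    exact h2
  -- the integrals
  have hwcc : Continuous fun z => (w n z : ℂ) := Complex.continuous_ofReal.comp (hwc n)
  have hζc := hζ.smooth.continuous
  have cF : ContinuousOn (fun p : ℝ × ℂ => ζ p.2 * ((w n p.2 : ℂ)
      * ∏ i, φ n (dp σ h n p.2 (ξ i n p.1 p.2)))) (univ ×ˢ K) := by
    refine (hζc.comp continuous_snd).continuousOn.mul
      ((hwcc.comp continuous_snd).continuousOn.mul ?_)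
    exact continuousOn_finset_prod _ fun i _ =>
      (hφc n).comp_continuousOn (dp_cont H.sm (n7 i))
  have cG : ContinuousOn (fun p : ℝ × ℂ => ζ p.2 * ((w n p.2 : ℂ)
      * ∏ i, TayE σ h φ N n p.2 (uu p.1 ^ 2 * x i))) (univ ×ˢ K) := by
    refine (hζc.comp continuous_snd).continuousOn.mul
      ((hwcc.comp continuous_snd).continuousOn.mul ?_)
    exact (continuous_finset_prod _ fun i _ => Tay_cont H.sm H.smφ N n (x i)).continuousOn
  have sec : ∀ (G : ℝ × ℂ → ℂ), ContinuousOn G (univ ×ˢ K) → ∀ t : ℝ,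
      IntegrableOn (fun z => G (t, z)) K := fun G hG t =>
    ContinuousOn.integrableOn_compact hK
      (hG.comp (Continuous.prodMk_right t).continuousOn fun z hz => ⟨mem_univ _, hz⟩)
  have iF := int_ang_left hK cF
  have iG := int_ang_left hK cG
  have main : ∀ t : ℝ, ‖(∫ z in K, ζ z * ((w n z : ℂ)
        * ∏ i, φ n (dp σ h n z (ξ i n t z))))
      - ∫ z in K, ζ z * ((w n z : ℂ) * ∏ i, TayE σ h φ N n z (uu t ^ 2 * x i))‖ ≤ ε := by
    intro t
    rw [← integral_sub (sec _ cF t) (sec _ cG t)]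
    have hMc : Continuous fun z => |Z| * (r * (ε₁ * M ^ r)) * (w n z * √(Mn L h φ n z) ^ r) :=
      continuous_const.mul ((hwc n).mul ((continuous_Mn hφc L n).sqrt.pow r))
    refine (norm_integral_le_of_norm_le (hMc.continuousOn.integrableOn_compact hK)
      ((ae_restrict_iff' hK.measurableSet).2 (Filter.Eventually.of_forall fun z hz => ?_))).trans ?_
    · rw [← mul_sub, ← mul_sub, norm_mul, norm_mul, Complex.norm_real,
        Real.norm_of_nonneg (hw0 n z)]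
      calc ‖ζ z‖ * (w n z * ‖∏ i, φ n (dp σ h n z (ξ i n t z))
            - ∏ i, TayE σ h φ N n z (uu t ^ 2 * x i)‖)
          ≤ |Z| * (w n z * (r * (ε₁ * M ^ r) * √(Mn L h φ n z) ^ r)) := by
            refine mul_le_mul ((hZ z hz).trans (le_abs_self Z)) ?_
              (mul_nonneg (hw0 n z) (norm_nonneg _)) (abs_nonneg _)
            exact mul_le_mul_of_nonneg_left (hprod t z hz) (hw0 n z)
        _ = |Z| * (r * (ε₁ * M ^ r)) * (w n z * √(Mn L h φ n z) ^ r) := by ring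
    · rw [integral_const_mul]
      calc |Z| * (r * (ε₁ * M ^ r)) * ∫ z in K, w n z * √(Mn L h φ n z) ^ r
          ≤ |Z| * (r * (ε₁ * M ^ r)) * |B| :=
            mul_le_mul_of_nonneg_left (n3.trans (le_abs_self B)) (by positivity)
        _ ≤ ε := hε₁2
  rw [← expand H.sm H.smφ (hwc n) hζ x N n]
  have eF : ∫ t, (∫ z, ζ z * ((w n z : ℂ) * ∏ i, φ n (dp σ h n z (ξ i n t z)))) ∂ang
      = ∫ t, (∫ z in K, ζ z * ((w n z : ℂ) * ∏ i, φ n (dp σ h n z (ξ i n t z)))) ∂ang := by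
    refine integral_congr_ae (Filter.Eventually.of_forall fun t => ?_)
    exact int_eq hζK _
  have eG : ∫ t, (∫ z, ζ z * ((w n z : ℂ)
      * ∏ i, TayE σ h φ N n z (uu t ^ 2 * x i))) ∂ang = ∫ t, (∫ z in K, ζ z * ((w n z : ℂ)
      * ∏ i, TayE σ h φ N n z (uu t ^ 2 * x i))) ∂ang := by
    refine integral_congr_ae (Filter.Eventually.of_forall fun t => ?_)
    exact int_eq hζK _
  rw [eF, eG, ← integral_sub iF iG]
  calc _ ≤ ∫ t : ℝ, ε ∂ang := norm_integral_le_of_norm_le (integrable_const _)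
        (Eventually.of_forall fun t => main t)
    _ = ε := by simp

end ROTP

open ROTP in
/-- ROTP: the rotation averages of the products of the values at four points, in terms of the jets -/
theorem rOTP (h1 : StmtTay) : StmtRotp := by
  intro V σ h φ H K hK hKV R
  obtain ⟨L₀, hL₀, hgen⟩ := gen h1 H hK hKV R
  refine ⟨L₀, hL₀, fun L hL θ W x ξ hx hξ ζ hζ hζK ε hε => ?_⟩
  have hw : ∃ B : ℝ, ∀ᶠ n in atTop, ∫ z in K, θ n z ^ 2 * √(Mn L h φ n z) ^ 4 ≤ B := by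
    obtain ⟨B, -, hB⟩ := sq_bd W hK hKV
    refine ⟨B, hB.mono fun n hn => le_of_eq_of_le ?_ hn⟩
    refine setIntegral_congr_fun hK.measurableSet fun z _ => ?_
    simp only [sqrt_pow_four, mul_pow]
  obtain ⟨N₀, hN₀⟩ := hgen L hL 4 (fun n z => θ n z ^ 2) (fun n => (W.smθ n).continuous.pow 2)
    (fun n z => sq_nonneg _) hw x ξ hx hξ ζ hζ hζK ε hε
  refine ⟨N₀, fun N hN => (hN₀ N hN).mono fun n hn => ?_⟩
  have e1 : ∀ p : Fin 4 → ℤ, E4w σ h φ θ ζ n (p 0) (p 1) (p 2) (p 3)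
      = ∫ z, ζ z * (((θ n z ^ 2 : ℝ) : ℂ) * ∏ i, E σ h φ (p i) n z) := by
    intro p
    unfold E4w
    refine integral_congr_ae (Filter.Eventually.of_forall fun z => ?_)
    beta_reduce
    rw [Fin.prod_univ_four]
    push_cast
    ring
  have e2 : rotW σ h φ θ ζ ξ id n = ∫ t, (∫ z, ζ z * (((θ n z ^ 2 : ℝ) : ℂ)
      * ∏ i, φ n (dp σ h n z (ξ i n t z)))) ∂ang := by
    unfold rotW
    simp only [id_eq, Complex.ofReal_pow]
  simp only [e1, e2]
  exact hn

end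

end BSL
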