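import Pool.Agent.BSL.St2

/-!
# The semiclassical measure of a truncated sequence has a density (module STR)
-/

set_option autoImplicit false

open Complex MeasureTheory Filter Topology Set
open UpperHalfPlane hiding I
open scoped ContDiff MatrixGroups ProbabilityTheory ENNReal

namespace BSL

open QE QE.NC QJ U3 NFP

noncomputable section

namespace STR

/-- the smooth truncation -/
def tr (R t : ℝ) : ℝ := t * Real.smoothTransition (2 - t / R)

lemma tr_nonneg {R t : ℝ} (ht : 0 ≤ t) : 0 ≤ tr R t :=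
  mul_nonneg ht (Real.smoothTransition.nonneg _)

lemma tr_le {R t : ℝ} (ht : 0 ≤ t) : tr R t ≤ t :=
  mul_le_of_le_one_right ht (Real.smoothTransition.le_one _)

lemma tr_le_min {R t : ℝ} (hR : 0 < R) (ht : 0 ≤ t) : tr R t ≤ 2 * min t R := by
  rcases le_total t R with h | h
  · rw [min_eq_left h]
    have := tr_le (R := R) ht
    linarith
  · rw [min_eq_right h]
    rcases le_total t (2 * R) with h2 | h2
    · exact (tr_le ht).trans h2
    · have h3 : 2 - t / R ≤ 0 := by
        rw [sub_nonpos, le_div_iff₀ hR]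
        exact h2
      unfold tr
      rw [Real.smoothTransition.zero_of_nonpos h3, mul_zero]
      linarith

lemma sub_tr_le {R t : ℝ} (hR : 0 < R) (ht : 0 ≤ t) : t - tr R t ≤ 2 * max (t - 1 / 2 * R) 0 := by
  rcases le_total t R with h | h
  · have h3 : 1 ≤ 2 - t / R := by
      have : t / R ≤ 1 := (div_le_one hR).2 h
      linarith
    unfold tr
    rw [Real.smoothTransition.one_of_one_le h3, mul_one, sub_self]
    have := le_max_right (t - 1 / 2 * R) 0
    linarith
  · have h1 := tr_nonneg (R := R) ht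
    have := le_max_left (t - 1 / 2 * R) 0
    linarith

lemma sq_le {R k t : ℝ} (hR : 0 < R) (ht : 0 ≤ t) (hk : 0 ≤ k) :
    tr R t ^ 2 ≤ 8 * k ^ 2 + 8 * max (min t R - k) 0 ^ 2 := by
  have h0 := tr_nonneg (R := R) ht
  have h1 := tr_le_min hR ht
  have h2 : 0 ≤ min t R := le_min ht hR.le
  have h3 : tr R t ^ 2 ≤ 4 * min t R ^ 2 := by nlinarith
  have h4 : min t R ^ 2 ≤ 2 * k ^ 2 + 2 * max (min t R - k) 0 ^ 2 := by
    rcases le_total (min t R) k with h | h
    · rw [max_eq_right (by linarith)]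
      nlinarith
    · rw [max_eq_left (by linarith)]
      nlinarith [sq_nonneg (min t R - 2 * k)]
  linarith

lemma smooth_tr (R : ℝ) : ContDiff ℝ ∞ (tr R) := by
  unfold tr
  exact contDiff_id.mul (Real.smoothTransition.contDiff.comp
    (contDiff_const.sub (contDiff_id.div_const R)))

variable {φ : ℕ → ℍ → ℝ} {R : ℕ → ℝ}

/-- the truncated squares -/
def ff (φ : ℕ → ℍ → ℝ) (R : ℕ → ℝ) (n : ℕ) (z : ℂ) : ℂ :=
  ((tr (R n) (φ n (ofComplex z) ^ 2) : ℝ) : ℂ)

lemma norm_ph (n : ℕ) (z : ℂ) : ‖ph φ n z‖ ^ 2 = φ n (ofComplex z) ^ 2 := by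
  unfold ph
  rw [Complex.norm_real, Real.norm_eq_abs, sq_abs]

lemma smooth_re (hs : SmoothSeq UH (ph φ)) (n : ℕ) :
    ContDiffOn ℝ ∞ (fun z => φ n (ofComplex z)) UH :=
  Complex.reCLM.contDiff.comp_contDiffOn (hs n)

lemma smooth_ff (hs : SmoothSeq UH (ph φ)) (R : ℕ → ℝ) : SmoothSeq UH (ff φ R) := fun n =>
  Complex.ofRealCLM.contDiff.comp_contDiffOn
    ((smooth_tr (R n)).comp_contDiffOn ((smooth_re hs n).pow 2))

lemma bdd_ff (hs : SmoothSeq UH (ph φ)) (hT : Tru UH (ph φ) R) : LBdd 2 UH (ff φ R) := by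
  intro K hK hKU
  obtain ⟨k, hk, hk1⟩ := hT.uni K hK hKU 1 one_pos
  refine ⟨8 * k ^ 2 * (volume K).toReal + 8, ?_⟩
  filter_upwards [hk1] with n hn
  have hR : 0 < R n := lt_of_lt_of_le one_pos (hT.one n)
  have hc : ContinuousOn (fun z => φ n (ofComplex z)) K := (smooth_re hs n).continuousOn.mono hKU
  have hfin : volume K ≠ ⊤ := hK.measure_lt_top.ne
  have hci : IntegrableOn (fun z => max (min (‖ph φ n z‖ ^ 2) (R n) - k) 0 ^ 2) K := by
    refine ContinuousOn.integrableOn_compact hK ?_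
    have h1 : ContinuousOn (fun z => ‖ph φ n z‖ ^ 2) K := by
      refine (hc.pow 2).congr fun z _ => norm_ph n z
    have h2 : Continuous fun t : ℝ => max (min t (R n) - k) 0 ^ 2 := by fun_prop
    exact h2.comp_continuousOn h1
  have hcc : IntegrableOn (fun _ : ℂ => 8 * k ^ 2) K := by
    rw [integrableOn_const_iff]
    exact Or.inr hK.measure_lt_top
  calc ∫ z in K, ‖ff φ R n z‖ ^ 2
      ≤ ∫ z in K, (8 * k ^ 2 + 8 * max (min (‖ph φ n z‖ ^ 2) (R n) - k) 0 ^ 2) := by
        refine setIntegral_mono_on ?_ (hcc.add (hci.const_mul 8)) hK.measurableSet fun z _ => ?_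
        · exact (((smooth_ff hs R n).continuousOn.mono hKU).norm.pow 2).integrableOn_compact hK
        · rw [norm_ph]
          unfold ff
          rw [Complex.norm_real, Real.norm_eq_abs, sq_abs]
          exact sq_le hR (sq_nonneg _) hk
    _ = 8 * k ^ 2 * (volume K).toReal
        + 8 * ∫ z in K, max (min (‖ph φ n z‖ ^ 2) (R n) - k) 0 ^ 2 := by
        have i1 : ∫ _ in K, (8 * k ^ 2 : ℝ) = 8 * k ^ 2 * (volume K).toReal := by
          rw [setIntegral_const, smul_eq_mul, mul_comm]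
          rfl
        have i2 : ∫ z in K, 8 * max (min (‖ph φ n z‖ ^ 2) (R n) - k) 0 ^ 2
            = 8 * ∫ z in K, max (min (‖ph φ n z‖ ^ 2) (R n) - k) 0 ^ 2 := integral_const_mul _ _
        rw [integral_add hcc (hci.const_mul 8), i1, i2]
    _ ≤ 8 * k ^ 2 * (volume K).toReal + 8 := by linarith

/-- the truncated part of the mass tends to zero -/
lemma tail (hs : SmoothSeq UH (ph φ)) (hT : Tru UH (ph φ) R) {ζ : ℂ → ℂ} (hζ : Test UH ζ) :
    Tendsto (fun n => (∫ z, ζ z * (ph φ n z * ph φ n z)) - ∫ z, ζ z * ff φ R n z) atTop (𝓝 0) := by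
  obtain ⟨B, hB⟩ := hζ.supp.exists_bound_of_continuousOn hζ.smooth.continuous.continuousOn
  set K := tsupport ζ with hKdef
  have hK : IsCompact K := hζ.supp
  have hKU : K ⊆ UH := hζ.sub
  have hcut := hT.cut K hK hKU (1 / 2) (by norm_num)
  have hc : ∀ n, ContinuousOn (fun z => φ n (ofComplex z)) K := fun n =>
    (smooth_re hs n).continuousOn.mono hKU
  have hci : ∀ n, IntegrableOn (fun z => max (‖ph φ n z‖ ^ 2 - 1 / 2 * R n) 0) K := fun n => by
    refine ContinuousOn.integrableOn_compact hK ?_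
    have h1 : ContinuousOn (fun z => ‖ph φ n z‖ ^ 2) K :=
      ((hc n).pow 2).congr fun z _ => norm_ph n z
    have h2 : Continuous fun t : ℝ => max (t - 1 / 2 * R n) 0 := by fun_prop
    exact h2.comp_continuousOn h1
  have hB0 : 0 ≤ max B 0 := le_max_right _ _
  have hlim : Tendsto (fun n => max B 0 * (2 * (R n * ∫ z in K, max (‖ph φ n z‖ ^ 2 - 1 / 2 * R n) 0)))
      atTop (𝓝 0) := by
    have := (hcut.const_mul 2).const_mul (max B 0)
    simpa using this
  have hUm : MeasurableSet UH := isOpen_UH.measurableSet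
  have e0 : ∀ (v : ℂ → ℂ), ∫ z, ζ z * v z = ∫ z in K, ζ z * v z := by
    intro v
    rw [setIntegral_eq_integral_of_forall_compl_eq_zero]
    intro z hz
    rw [image_eq_zero_of_notMem_tsupport hz, zero_mul]
  refine squeeze_zero_norm (fun n => ?_) hlim
  have hR1 := hT.one n
  have hR : 0 < R n := lt_of_lt_of_le one_pos hR1
  have c1 : ContinuousOn (fun z => ζ z * (ph φ n z * ph φ n z)) K := by
    refine (hζ.smooth.continuous.continuousOn).mul (ContinuousOn.mul ?_ ?_)
    · exact (hs n).continuousOn.mono hKU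
    · exact (hs n).continuousOn.mono hKU
  have c2 : ContinuousOn (fun z => ζ z * ff φ R n z) K :=
    (hζ.smooth.continuous.continuousOn).mul ((smooth_ff hs R n).continuousOn.mono hKU)
  rw [e0, e0, ← integral_sub (c1.integrableOn_compact hK) (c2.integrableOn_compact hK)]
  have hle : ∀ z ∈ K, ‖ζ z * (ph φ n z * ph φ n z) - ζ z * ff φ R n z‖
      ≤ max B 0 * (2 * max (‖ph φ n z‖ ^ 2 - 1 / 2 * R n) 0) := by
    intro z hz
    have e1 : ζ z * (ph φ n z * ph φ n z) - ζ z * ff φ R n z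
        = ζ z * ((φ n (ofComplex z) ^ 2 - tr (R n) (φ n (ofComplex z) ^ 2) : ℝ) : ℂ) := by
      unfold ph ff
      push_cast
      ring
    rw [e1, norm_mul, Complex.norm_real, Real.norm_eq_abs, norm_ph]
    have h1 : 0 ≤ φ n (ofComplex z) ^ 2 - tr (R n) (φ n (ofComplex z) ^ 2) :=
      sub_nonneg.2 (tr_le (sq_nonneg _))
    rw [abs_of_nonneg h1]
    exact mul_le_mul ((hB z hz).trans (le_max_left _ _)) (sub_tr_le hR (sq_nonneg _)) h1 hB0
  calc ‖∫ z in K, (ζ z * (ph φ n z * ph φ n z) - ζ z * ff φ R n z)‖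
      ≤ ∫ z in K, ‖ζ z * (ph φ n z * ph φ n z) - ζ z * ff φ R n z‖ :=
        norm_integral_le_integral_norm _
    _ ≤ ∫ z in K, max B 0 * (2 * max (‖ph φ n z‖ ^ 2 - 1 / 2 * R n) 0) := by
        refine setIntegral_mono_on ((c1.sub c2).norm.integrableOn_compact hK)
          (((hci n).const_mul 2).const_mul _) hK.measurableSet hle
    _ = max B 0 * (2 * ∫ z in K, max (‖ph φ n z‖ ^ 2 - 1 / 2 * R n) 0) := by
        rw [integral_const_mul, integral_const_mul]
    _ ≤ max B 0 * (2 * (R n * ∫ z in K, max (‖ph φ n z‖ ^ 2 - 1 / 2 * R n) 0)) := by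
        have h0 : 0 ≤ ∫ z in K, max (‖ph φ n z‖ ^ 2 - 1 / 2 * R n) 0 :=
          integral_nonneg fun z => le_max_right _ _
        have h2 : (∫ z in K, max (‖ph φ n z‖ ^ 2 - 1 / 2 * R n) 0)
            ≤ R n * ∫ z in K, max (‖ph φ n z‖ ^ 2 - 1 / 2 * R n) 0 :=
          le_mul_of_one_le_left h0 hR1
        exact mul_le_mul_of_nonneg_left (mul_le_mul_of_nonneg_left h2 (by norm_num)) hB0

/-- the mass of the semiclassical measure -/
lemma mass {ρ : ℍ → ℝ} {m : ℕ → ℝ} {μ : Measure (ℍ × S1)} (hρ : ContDiffOn ℝ ∞ (ro ρ) UH)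
    (hL : LocU UH (gr ρ) (hh m) (ph φ)) (hμ : Semiclassical ρ φ m μ) {ζ : ℂ → ℂ}
    (hζ : Test UH ζ) : Tendsto (fun n => ∫ z, ζ z * (ph φ n z * ph φ n z)) atTop
      (𝓝 (∫ p : ℍ × S1, ζ p.1 * ((p.1.im ^ 2 * Real.exp (-(2 * ρ p.1)) : ℝ) : ℂ) ∂μ)) := by
  obtain ⟨V, F, σ, φ', hKV, hVF, hFU, hF, hA⟩ := stmtLcz UH (gr ρ) (hh m) (ph φ) isOpen_UH
    (U3.WGA.contDiffOn_gr hρ) (fun z hz => U3.WGA.gr_pos hz) hL (tsupport ζ) hζ.supp hζ.sub
  have h1 := semU ρ φ m μ hρ hL hμ V σ φ' hA 0 0 ζ ⟨hζ.smooth, hζ.supp, hKV⟩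
  have hz0 : ∀ z : ℂ, z ∉ V → ζ z = 0 := by
    intro z hz
    by_contra hne
    exact hz (hKV (subset_tsupport _ hne))
  have e1 : ∀ n, ∫ z, ζ z * (QJ.E σ (fun n => 1 / m n) φ' 0 n z * QJ.E σ (fun n => 1 / m n) φ' 0 n z)
      = ∫ z, ζ z * (ph φ n z * ph φ n z) := by
    intro n
    refine integral_congr_ae (Eventually.of_forall fun z => ?_)
    beta_reduce
    by_cases hz : z ∈ V
    · have : QJ.E σ (fun n => 1 / m n) φ' 0 n z = ph φ n z := hA.eφ n z hz
      rw [this]
    · rw [hz0 z hz, zero_mul, zero_mul]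
  have e2 : ((-1 : ℂ)) ^ (0 : ℤ) * ∫ p : ℍ × S1, ζ p.1 * ((Real.exp (-(2 * σ p.1)) : ℝ) : ℂ)
        * (Complex.I * (starRingEnd ℂ) (p.2 : ℂ)) ^ ((0 : ℤ) + 0) ∂μ
      = ∫ p : ℍ × S1, ζ p.1 * ((p.1.im ^ 2 * Real.exp (-(2 * ρ p.1)) : ℝ) : ℂ) ∂μ := by
    rw [zpow_zero, one_mul]
    refine integral_congr_ae (Eventually.of_forall fun p => ?_)
    beta_reduce
    rw [add_zero, zpow_zero, mul_one]
    by_cases hz : (p.1 : ℂ) ∈ V
    · have h2 := hA.eg p.1 hz
      unfold gr at h2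
      rw [ofComplex_apply] at h2
      have h3 : Real.exp (-(2 * σ p.1)) = p.1.im ^ 2 * Real.exp (-(2 * ρ p.1)) := by
        rw [Real.exp_neg, h2, Real.exp_neg]
        have : (p.1 : ℂ).im = p.1.im := rfl
        rw [this]
        field_simp
      rw [h3]
    · rw [hz0 _ hz, zero_mul, zero_mul]
  rw [e2] at h1
  exact h1.congr e1

end STR

open STR in
/-- **STR**: the semiclassical measure has a density. -/
theorem t_STR : StmtStr := by
  intro ρ φ m μ R hρ hL hT hμ
  have hc := NFP.STRUCT.cont_rho hρ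
  have hsm := hL.smooth
  obtain ⟨s, hs, w, hwm, hwl, hww⟩ := wlim_extract (ι := Unit) isOpen_UH (fun _ => ff φ R)
    (fun _ => smooth_ff hsm R) (fun _ => bdd_ff hsm hT)
  set u := w () with hu
  have hum : Measurable u := hwm ()
  have hul : LocL2 UH u := hwl ()
  have huw : WLim UH (fun n => ff φ R (s n)) u := hww ()
  -- the identity for test functions
  have hid : ∀ ζ : ℂ → ℂ, Test UH ζ → ∫ z, ζ z * u z
      = ∫ p : ℍ × S1, ζ p.1 * ((p.1.im ^ 2 * Real.exp (-(2 * ρ p.1)) : ℝ) : ℂ) ∂μ := by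
    intro ζ hζ
    have t1 := huw.testVL hζ
    have t2 := (tail hsm hT hζ).comp hs.tendsto_atTop
    have t3 := (STR.mass hρ hL hμ hζ).comp hs.tendsto_atTop
    have t4 := t2.add t1
    rw [zero_add] at t4
    refine tendsto_nhds_unique t4 (t3.congr fun n => ?_)
    simp only [Function.comp_apply, sub_add_cancel]
  -- real and nonnegative
  have hsf : SmoothSeq UH (fun n => ff φ R (s n)) := fun n => smooth_ff hsm R (s n)
  have hre : ∀ᵐ z ∂((volume : Measure ℂ).restrict UH), 0 ≤ (u z).re :=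
    huw.nonneg isOpen_UH hul (fun n z _ => by
      show 0 ≤ (ff φ R (s n) z).re
      unfold ff
      rw [Complex.ofReal_re]
      exact tr_nonneg (sq_nonneg _)) hsf
  have him : ∀ᵐ z ∂((volume : Measure ℂ).restrict UH), u z = (starRingEnd ℂ) (u z) := by
    refine huw.unique isOpen_UH (huw.conj.congr fun n z _ => ?_) hul hul.conj
    unfold ff
    exact Complex.conj_ofReal _
  have hreal : ∀ᵐ z ∂((volume : Measure ℂ).restrict UH), 0 ≤ (u z).re ∧ (u z).im = 0 := by
    filter_upwards [hre, him] with z h1 h2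
    exact ⟨h1, Complex.conj_eq_iff_im.1 h2.symm⟩
  -- the marginal
  have hfst : ∀ K : Set ℍ, IsCompact K → μ.map Prod.fst K < ⊤ := by
    intro K hK
    rw [Measure.map_apply measurable_fst hK.measurableSet]
    have e : (Prod.fst ⁻¹' K : Set (ℍ × S1)) = K ×ˢ univ := by
      ext p
      simp
    rw [e]
    exact hμ.fin K hK
  have hmarg := marg ρ (μ.map Prod.fst) u hc hfst hum hul hreal (by
    intro ζ hζ
    rw [hid ζ hζ, integral_map measurable_fst.aemeasurable]
    refine Continuous.aestronglyMeasurable ?_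
    refine Continuous.mul (hζ.smooth.continuous.comp UpperHalfPlane.continuous_coe) ?_
    refine continuous_ofReal.comp (Continuous.mul ?_ ?_)
    · exact UpperHalfPlane.continuous_im.pow 2
    · exact Real.continuous_exp.comp (continuous_const.mul hc).neg)
  -- the kernel
  obtain ⟨κ, hκ, hκμ⟩ := ker ρ μ (fun z => max (u z).re 0) hc hμ.fin
    ((Complex.measurable_re.comp (hum.comp measurable_coe)).max measurable_const)
    (fun z => le_max_right _ _) hmarg
  have hκf : ∀ z, κ z univ < ⊤ := fun z => by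
    rw [hκ z]
    exact ENNReal.ofReal_lt_top
  have hbd : ∀ z : ℂ, z ∈ UH → ‖((ma κ z : ℝ) : ℂ)‖ ≤ ‖u z‖ := by
    intro z hz
    unfold ma
    rw [hκ, ENNReal.toReal_ofReal (le_max_right _ _)]
    have e : ((ofComplex z : ℍ) : ℂ) = z := by
      rw [ofComplex_apply_of_im_pos hz]
    rw [e, Complex.norm_real, Real.norm_eq_abs, abs_of_nonneg (le_max_right _ _)]
    exact max_le ((le_abs_self _).trans (abs_re_le_norm _)) (norm_nonneg _)
  have hmeas : Measurable (fun z => ((ma κ z : ℝ) : ℂ)) := by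
    have h1 : Measurable fun z : ℍ => ((κ z) univ).toReal :=
      (κ.measurable_coe MeasurableSet.univ).ennreal_toReal
    exact Complex.measurable_ofReal.comp (h1.comp QE.Surf.measurable_ofComplex)
  refine ⟨κ, ⟨fun z => ⟨hκf z⟩, fun K hK hKU => ?_, ?_⟩, hκμ⟩
  · refine (hul K hK hKU).mono hmeas.aestronglyMeasurable ?_
    refine (ae_restrict_iff' hK.measurableSet).2 (Eventually.of_forall fun z hz => ?_)
    exact hbd z (hKU hz)
  · rw [← hκμ]
    exact hμ

end

end BSL
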