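import Pool.Agent.BSL.StmtsT
import Pool.Agent.BSL.PTWC
import Pool.Agent.BWM.C33

/-!
# GRW: the growth of the rescaled derivatives (helper70)
-/

open Complex MeasureTheory Filter Topology Set
open scoped ContDiff

namespace BSL

open U3 QJ QE QE.EllAux

noncomputable section

namespace GRW

variable {V : Set ℂ} {σ : ℂ → ℝ} {h : ℕ → ℝ} {φ : ℕ → ℂ → ℂ}

lemma Mn_one_le {L : ℝ} {n : ℕ} (z : ℂ) : 1 ≤ Mn L h φ n z := by
  unfold Mn
  have : 0 ≤ 1 / h n ^ 2 * ∫ w in Metric.closedBall z (L * h n), ‖φ n w‖ ^ 2 :=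
    mul_nonneg (by positivity) (integral_nonneg fun w => by positivity)
  linarith

lemma sqrt_Mn_one_le {L : ℝ} {n : ℕ} (z : ℂ) : 1 ≤ √(Mn L h φ n z) :=
  Real.one_le_sqrt.2 (Mn_one_le z)

lemma ball_le {L s c : ℝ} {n : ℕ} (hh : 0 < h n) (hφ : Continuous (φ n)) (hL : s + c ≤ L) {z w : ℂ}
    (hw : ‖w - z‖ ≤ s * h n) : 1 + 1 / h n ^ 2 * ∫ x in Metric.closedBall w (c * h n), ‖φ n x‖ ^ 2
      ≤ Mn L h φ n z := by
  unfold Mn
  have hs : Metric.closedBall w (c * h n) ⊆ Metric.closedBall z (L * h n) := by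
    refine Metric.closedBall_subset_closedBall' ?_
    rw [dist_eq_norm]
    calc c * h n + ‖w - z‖ ≤ c * h n + s * h n := by linarith
      _ = (s + c) * h n := by ring
      _ ≤ L * h n := mul_le_mul_of_nonneg_right hL hh.le
  have h1 : ∫ x in Metric.closedBall w (c * h n), ‖φ n x‖ ^ 2
      ≤ ∫ x in Metric.closedBall z (L * h n), ‖φ n x‖ ^ 2 :=
    setIntegral_mono_set ((hφ.norm.pow 2).continuousOn.integrableOn_compact
      (isCompact_closedBall _ _)) (Eventually.of_forall fun x => by positivity)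
      (Eventually.of_forall fun x hx => hs hx)
  have h2 := mul_le_mul_of_nonneg_left h1 (show 0 ≤ 1 / h n ^ 2 by positivity)
  linarith

lemma eventually_small (L : LocB V σ h φ) (s : ℝ) {δ : ℝ} (hδ : 0 < δ) :
    ∀ᶠ n in atTop, s * h n ≤ δ := by
  have h0 := L.hlim.const_mul s
  rw [mul_zero] at h0
  exact (h0.eventually_lt_const hδ).mono fun n hn => hn.le

/-- the jets near `z` are bounded by the local mean square at `z` -/
lemma RR_le (L : LocB V σ h φ) {K : Set ℂ} (hK : IsCompact K) (hKV : K ⊆ V) (N : ℕ) :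
    ∃ C : ℝ, 0 < C ∧ ∀ s l : ℝ, s + 1 ≤ l → ∀ᶠ n in atTop, ∀ z ∈ K, ∀ w, ‖w - z‖ ≤ s * h n →
      w ∈ V ∧ RR h φ N n w ≤ C * Mn l h φ n z := by
  obtain ⟨δ, hδ, hδV⟩ := hK.exists_cthickening_subset_open L.op hKV
  obtain ⟨C, hC, h1⟩ := ptwC stmtSup L hK.cthickening hδV N one_pos
  refine ⟨C + 1, by linarith, fun s l hl => ?_⟩
  filter_upwards [h1, eventually_small L s hδ] with n hn hn2 z hz w hw
  have hwK : w ∈ Metric.cthickening δ K := by
    refine Metric.mem_cthickening_of_dist_le w z δ K hz ?_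
    rw [dist_eq_norm]; exact hw.trans hn2
  refine ⟨hδV hwK, (hn w hwK).trans ?_⟩
  have h2 := ball_le (c := 1) (L.hpos n) (L.smφ n).continuous hl hw
  have h3 := Mn_one_le (L := l) (h := h) (φ := φ) (n := n) z
  calc C * (1 + 1 / h n ^ 2 * ∫ x in Metric.closedBall w (1 * h n), ‖φ n x‖ ^ 2)
      ≤ C * Mn l h φ n z := mul_le_mul_of_nonneg_left h2 hC
    _ ≤ (C + 1) * Mn l h φ n z := by nlinarith

/-- dominated functions near `z` are bounded by the local mean square at `z` -/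
lemma dom_le (L : LocB V σ h φ) {A : ℕ → ℂ → ℂ} (hA : Bq V h φ 1 A) {K : Set ℂ} (hK : IsCompact K)
    (hKV : K ⊆ V) : ∃ C : ℝ, 0 < C ∧ ∀ s l : ℝ, s + 1 ≤ l → ∀ᶠ n in atTop, ∀ z ∈ K, ∀ w,
      ‖w - z‖ ≤ s * h n → ‖A n w‖ ≤ C * √(Mn l h φ n z) := by
  obtain ⟨δ, hδ, hδV⟩ := hK.exists_cthickening_subset_open L.op hKV
  obtain ⟨N, C, hC, h1⟩ := hA.pos hK.cthickening hδV
  obtain ⟨C', hC', h2⟩ := RR_le L hK hKV N
  refine ⟨√(C * C'), Real.sqrt_pos.2 (by positivity), fun s l hl => ?_⟩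
  filter_upwards [h1 N le_rfl, h2 s l hl, eventually_small L s hδ] with n n1 n2 n3 z hz w hw
  have hwK : w ∈ Metric.cthickening δ K := by
    refine Metric.mem_cthickening_of_dist_le w z δ K hz ?_
    rw [dist_eq_norm]; exact hw.trans n3
  have e1 := n1 w hwK
  rw [pow_one] at e1
  have e2 := (n2 z hz w hw).2
  have e3 : ‖A n w‖ ^ 2 ≤ C * C' * Mn l h φ n z := by
    calc ‖A n w‖ ^ 2 ≤ C * RR h φ N n w := e1
      _ ≤ C * (C' * Mn l h φ n z) := mul_le_mul_of_nonneg_left e2 hC.le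
      _ = _ := by ring
  rw [← Real.sqrt_mul (by positivity)]
  exact Real.le_sqrt_of_sq_le e3

/-- the factor in the equation -/
def bb (σ : ℂ → ℝ) (z : ℂ) : ℂ := -(1 / 4) * ex σ 2 z

lemma contDiff_bb (hσ : ContDiff ℝ ∞ σ) : ContDiff ℝ ∞ (bb σ) := contDiff_const.mul (contDiff_ex hσ 2)

/-- approximate solutions -/
structure Gd (V : Set ℂ) (σ : ℂ → ℝ) (h : ℕ → ℝ) (φ : ℕ → ℂ → ℂ) (v : ℕ → ℂ → ℂ) : Prop where
  dom : Dom V h φ 1 v
  eq : ∃ A, Dom V h φ 1 A ∧ ∀ n, ∀ z ∈ V, hLap h v n z = bb σ z * v n z + (h n : ℂ) * A n z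

lemma Gd.phi (L : LocB V σ h φ) : Gd V σ h φ φ := by
  refine ⟨Dom.phi L.smφ L.op, fun _ _ => 0, ?_, fun n z hz => ?_⟩
  · have := (Dom.phi (h := h) L.smφ L.op).smul L.op 0
    simpa using this
  · have e1 := L.eig n z hz
    unfold hLap bb
    rw [mul_zero, add_zero]
    linear_combination (1 / 4) * e1

lemma Gd.hdz (L : LocB V σ h φ) {v : ℕ → ℂ → ℂ} (hv : Gd V σ h φ v) :
    Gd V σ h φ (fun n z => (h n : ℂ) * dz (v n) z) := by
  obtain ⟨A, hA, he⟩ := hv.eq
  have sv := hv.dom.smooth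
  have sb := contDiff_bb L.sm
  refine ⟨hv.dom.hdz, fun n z => dz (bb σ) z * v n z + (h n : ℂ) * dz (A n) z,
    (hv.dom.fn_mul L.op L.hlim (contDiff_dz sb)).add L.op hA.hdz, fun n z hz => ?_⟩
  have e1 : dzb (fun w => (h n : ℂ) * dz (v n) w) = fun w => (h n : ℂ) * dz (dzb (v n)) w := by
    funext w
    rw [dzb_const_mul _ (cd_at (contDiff_dz (sv n)) w), dz_dzb_comm (cd_at2 (sv n) w)]
  have e2 : ∀ w ∈ V, (h n : ℂ) ^ 2 * dz (dzb (v n)) w
      = bb σ w * v n w + (h n : ℂ) * A n w := fun w hw => he n w hw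
  have s1 := contDiff_dz (contDiff_dzb (sv n))
  have e3 : dz (fun w => (h n : ℂ) ^ 2 * dz (dzb (v n)) w) z
      = dz (fun w => bb σ w * v n w + (h n : ℂ) * A n w) z := dz_congr_on L.op e2 hz
  rw [dz_const_mul _ (cd_at s1 z), dz_add (f := fun w => bb σ w * v n w)
    (g := fun w => (h n : ℂ) * A n w) ((cd_at sb z).mul (cd_at (sv n) z))
    ((cd_at (hA.smooth n) z).const_mul _), dz_mul (cd_at sb z) (cd_at (sv n) z),
    dz_const_mul _ (cd_at (hA.smooth n) z)] at e3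
  show (h n : ℂ) ^ 2 * dz (dzb fun w => (h n : ℂ) * dz (v n) w) z = _
  rw [e1, dz_const_mul _ (cd_at s1 z)]
  linear_combination (h n : ℂ) * e3

lemma conj_bb (z : ℂ) : (starRingEnd ℂ) (bb σ z) = bb σ z := by
  unfold bb ex
  simp only [map_mul, map_neg, map_div₀, map_one, conj_ofReal, map_ofNat]

lemma Gd.conj (L : LocB V σ h φ) {v : ℕ → ℂ → ℂ} (hv : Gd V σ h φ v) :
    Gd V σ h φ (fun n z => (starRingEnd ℂ) (v n z)) := by
  obtain ⟨A, hA, he⟩ := hv.eq
  have sv := hv.dom.smooth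
  refine ⟨hv.dom.conj L.op, fun n z => (starRingEnd ℂ) (A n z), hA.conj L.op, fun n z hz => ?_⟩
  have e1 : dzb (fun w => (starRingEnd ℂ) (v n w)) = fun w => (starRingEnd ℂ) (dz (v n) w) := by
    funext w
    exact dzb_conj (cd_at (sv n) w)
  show (h n : ℂ) ^ 2 * dz (dzb fun w => (starRingEnd ℂ) (v n w)) z = _
  rw [e1, dz_conj (cd_at (contDiff_dz (sv n)) z), ← dz_dzb_comm (cd_at2 (sv n) z)]
  have e2 := congrArg (starRingEnd ℂ) (he n z hz)
  unfold hLap at e2
  rw [map_mul, map_pow, conj_ofReal, map_add, map_mul, map_mul, conj_ofReal, conj_bb] at e2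
  exact e2

/-- bounds near the points of `K` by the local mean square -/
def BB (K : Set ℂ) (h : ℕ → ℝ) (φ : ℕ → ℂ → ℂ) (l r M : ℝ) (v : ℕ → ℂ → ℂ) : Prop :=
  ∀ᶠ n in atTop, ∀ z ∈ K, ∀ w, ‖w - z‖ ≤ r * h n → ‖v n w‖ ≤ M * √(Mn l h φ n z)

/-- one step: the interior estimate at the scale `d h` -/
lemma step (L : LocB V σ h φ) {K : Set ℂ} (hK : IsCompact K) (hKV : K ⊆ V) {δ B : ℝ} (hδ : 0 < δ)
    (hδV : Metric.cthickening δ K ⊆ V) (hB : ∀ z ∈ Metric.cthickening δ K, ‖bb σ z‖ ≤ B) (hB0 : 0 ≤ B)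
    {r d l M : ℝ} (hd : 0 < d) (hd1 : d ≤ 1) (hl : r + d + 1 ≤ l) (hM : 0 < M)
    {v : ℕ → ℂ → ℂ} (hv : Gd V σ h φ v) (hb : BB K h φ l (r + d) M v) :
    BB K h φ l r (((∫ u, kap u) * (2 + B)) / d * M) (fun n z => (h n : ℂ) * dz (v n) z) := by
  obtain ⟨A, hA, he⟩ := hv.eq
  obtain ⟨C, hC, hAb⟩ := dom_le L hA.bq hK hKV
  have hκ : 0 ≤ ∫ u, kap u := integral_nonneg kap_nonneg
  filter_upwards [hb, hAb (r + d) l hl, eventually_small L (r + d) hδ, eventually_small L C hM]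
    with n n1 n2 n3 n4 z hz w hw
  have hh := L.hpos n
  have hdh : 0 < d * h n := mul_pos hd hh
  set S := √(Mn l h φ n z) with hS
  have hS1 : 1 ≤ S := sqrt_Mn_one_le z
  have hS0 : 0 ≤ S := by linarith
  have hin : ∀ x : ℂ, ‖x - z‖ ≤ (r + d) * h n → x ∈ Metric.cthickening δ K := fun x hx => by
    refine Metric.mem_cthickening_of_dist_le x z δ K hz ?_
    rw [dist_eq_norm]; exact hx.trans n3
  have hnear : ∀ x : ℂ, ‖x - w‖ ≤ d * h n → ‖x - z‖ ≤ (r + d) * h n := fun x hx => by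
    calc ‖x - z‖ = ‖(x - w) + (w - z)‖ := by ring_nf
      _ ≤ ‖x - w‖ + ‖w - z‖ := norm_add_le _ _
      _ ≤ d * h n + r * h n := add_le_add hx hw
      _ = _ := by ring
  have hbd := scale_bound L.op ((hv.dom.smooth n).contDiffOn (s := V)) hdh (z := w) fun x hx =>
    hδV (hin x (hnear x (by rwa [← dist_eq_norm, ← Metric.mem_closedBall])))
  have hkey : ∀ u : ℂ, kap u * (‖v n (w + ((d * h n : ℝ) : ℂ) * u)‖
      + ‖((d * h n : ℝ) : ℂ) ^ 2 * dz (dzb (v n)) (w + ((d * h n : ℝ) : ℂ) * u)‖)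
      ≤ kap u * ((2 + B) * M * S) := by
    intro u
    by_cases hu : 1 < ‖u‖
    · rw [kap_eq_zero hu, zero_mul, zero_mul]
    · refine mul_le_mul_of_nonneg_left ?_ (kap_nonneg u)
      rw [not_lt] at hu
      set x := w + ((d * h n : ℝ) : ℂ) * u with hx
      have hxw : ‖x - w‖ ≤ d * h n := by
        rw [hx, add_sub_cancel_left, norm_mul, Complex.norm_real, Real.norm_of_nonneg hdh.le]
        calc d * h n * ‖u‖ ≤ d * h n * 1 := mul_le_mul_of_nonneg_left hu hdh.le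
          _ = d * h n := mul_one _
      have hxz := hnear x hxw
      have hxK := hin x hxz
      have a1 := n1 z hz x hxz
      have a2 := n2 z hz x hxz
      have a3 : ‖hLap h v n x‖ ≤ (B + 1) * M * S := by
        rw [he n x (hδV hxK)]
        calc ‖bb σ x * v n x + (h n : ℂ) * A n x‖ ≤ ‖bb σ x * v n x‖ + ‖(h n : ℂ) * A n x‖ :=
              norm_add_le _ _
          _ ≤ B * (M * S) + h n * (C * S) := by
              rw [norm_mul, norm_mul, Complex.norm_real, Real.norm_of_nonneg hh.le]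
              exact add_le_add (mul_le_mul (hB x hxK) a1 (norm_nonneg _) hB0)
                (mul_le_mul_of_nonneg_left a2 hh.le)
          _ = B * (M * S) + (C * h n) * S := by ring
          _ ≤ B * (M * S) + M * S := by
              have := mul_le_mul_of_nonneg_right n4 hS0
              linarith
          _ = _ := by ring
      have a4 : ‖((d * h n : ℝ) : ℂ) ^ 2 * dz (dzb (v n)) x‖ = d ^ 2 * ‖hLap h v n x‖ := by
        unfold hLap
        rw [norm_mul, norm_mul, norm_pow, norm_pow, Complex.norm_real, Complex.norm_real,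
          Real.norm_of_nonneg hdh.le, Real.norm_of_nonneg hh.le]
        ring
      rw [a4]
      have hd2 : d ^ 2 ≤ 1 := pow_le_one₀ hd.le hd1
      have h5 : 0 ≤ (B + 1) * M * S := by positivity
      calc ‖v n x‖ + d ^ 2 * ‖hLap h v n x‖ ≤ M * S + 1 * ((B + 1) * M * S) :=
            add_le_add a1 (mul_le_mul hd2 a3 (norm_nonneg _) zero_le_one)
        _ = (2 + B) * M * S := by ring
  have hfin : ‖((d * h n : ℝ) : ℂ) * dz (v n) w‖ ≤ (∫ u, kap u) * ((2 + B) * M * S) := by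
    refine hbd.trans ?_
    calc ∫ u, kap u * (‖v n (w + ((d * h n : ℝ) : ℂ) * u)‖
          + ‖((d * h n : ℝ) : ℂ) ^ 2 * dz (dzb (v n)) (w + ((d * h n : ℝ) : ℂ) * u)‖)
        ≤ ∫ u, kap u * ((2 + B) * M * S) :=
          integral_mono_of_nonneg
            (Eventually.of_forall fun w => mul_nonneg (kap_nonneg w) (by positivity))
            (kap_integrable.mul_const _) (Eventually.of_forall hkey)
      _ = _ := by rw [integral_mul_const]
  have e3 : ‖(h n : ℂ) * dz (v n) w‖ = d⁻¹ * ‖((d * h n : ℝ) : ℂ) * dz (v n) w‖ := by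
    rw [norm_mul, norm_mul, Complex.norm_real, Complex.norm_real,
      Real.norm_of_nonneg hdh.le, Real.norm_of_nonneg hh.le]
    field_simp
  show ‖(h n : ℂ) * dz (v n) w‖ ≤ _
  rw [e3]
  calc d⁻¹ * ‖((d * h n : ℝ) : ℂ) * dz (v n) w‖
      ≤ d⁻¹ * ((∫ u, kap u) * ((2 + B) * M * S)) := mul_le_mul_of_nonneg_left hfin (by positivity)
    _ = _ := by ring

lemma BB.conj {K : Set ℂ} {l r M : ℝ} {v : ℕ → ℂ → ℂ} (hv : BB K h φ l r M v) :
    BB K h φ l r M (fun n z => (starRingEnd ℂ) (v n z)) := by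
  filter_upwards [hv] with n hn z hz w hw
  rw [RCLike.norm_conj]; exact hn z hz w hw

lemma BB.congr {K : Set ℂ} {l r M : ℝ} {u v : ℕ → ℂ → ℂ} (hu : BB K h φ l r M u)
    (he : ∀ n z, u n z = v n z) : BB K h φ l r M v := by
  filter_upwards [hu] with n hn z hz w hw
  rw [← he]; exact hn z hz w hw

lemma BB.mono {K : Set ℂ} {l r M M' : ℝ} {u : ℕ → ℂ → ℂ} (hu : BB K h φ l r M u)
    (hM : M ≤ M') : BB K h φ l r M' u := by
  filter_upwards [hu] with n hn z hz w hw
  exact (hn z hz w hw).trans (mul_le_mul_of_nonneg_right hM (Real.sqrt_nonneg _))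

lemma step' (L : LocB V σ h φ) {K : Set ℂ} (hK : IsCompact K) (hKV : K ⊆ V) {δ B : ℝ} (hδ : 0 < δ)
    (hδV : Metric.cthickening δ K ⊆ V) (hB : ∀ z ∈ Metric.cthickening δ K, ‖bb σ z‖ ≤ B) (hB0 : 0 ≤ B)
    {r d l M : ℝ} (hd : 0 < d) (hd1 : d ≤ 1) (hl : r + d + 1 ≤ l) (hM : 0 < M)
    {v : ℕ → ℂ → ℂ} (hv : Gd V σ h φ v) (hb : BB K h φ l (r + d) M v) :
    BB K h φ l r (((∫ u, kap u) * (2 + B)) / d * M) (fun n z => (h n : ℂ) * dzb (v n) z) := by
  have h1 := (step L hK hKV hδ hδV hB hB0 hd hd1 hl hM (hv.conj L) hb.conj).conj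
  refine h1.congr fun n z => ?_
  rw [dz_conj (cd_at (hv.dom.smooth n) z)]; simp

lemma Gd.W (L : LocB V σ h φ) : ∀ a b : ℕ, Gd V σ h φ (W h φ a b) := by
  have hb : ∀ b, Gd V σ h φ (QJ.W h φ 0 b) := by
    intro b
    induction b with
    | zero => rw [W_zero]; exact Gd.phi L
    | succ b ih =>
      have h1 := ((ih.conj L).hdz L).conj L
      have e : (fun n z => (starRingEnd ℂ) ((h n : ℂ) * dz (fun w => (starRingEnd ℂ)
          (QJ.W h φ 0 b n w)) z)) = QJ.W h φ 0 (b + 1) := by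
        funext n z
        rw [dz_conj (cd_at (contDiff_W L.smφ 0 b n) z), map_mul, conj_ofReal,
          Complex.conj_conj, hdzb_W L.smφ]
      rwa [e] at h1
  intro a
  induction a with
  | zero => exact hb
  | succ a ih =>
    intro b
    have h1 := (ih b).hdz L
    have e : (fun n z => (h n : ℂ) * dz (QJ.W h φ a b n) z) = QJ.W h φ (a + 1) b := by
      funext n z
      exact hdz_W L.smφ a b n z
    rwa [e] at h1

end GRW

open GRW in
/-- GRW: the growth of the rescaled derivatives in terms of their order -/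
theorem gRW : StmtGrw := by
  intro V σ h φ L K hK hKV
  obtain ⟨δ, hδ, hδV⟩ := hK.exists_cthickening_subset_open L.op hKV
  obtain ⟨B₀, hB₀⟩ := hK.cthickening.exists_bound_of_continuousOn
    ((contDiff_bb L.sm).continuous.continuousOn (s := Metric.cthickening δ K))
  set B := max B₀ 0 with hBdef
  have hB0 : 0 ≤ B := le_max_right _ _
  have hB : ∀ z ∈ Metric.cthickening δ K, ‖bb σ z‖ ≤ B := fun z hz =>
    (hB₀ z hz).trans (le_max_left _ _)
  have hκ0 : 0 ≤ ∫ u, kap u := integral_nonneg kap_nonneg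
  obtain ⟨C, hC, hφ⟩ := dom_le L (Dom.phi (h := h) L.smφ L.op).bq hK hKV
  set κ := 1 + C + (∫ u, kap u) * (2 + B) with hκ
  have hκ1 : 1 ≤ κ := by
    have : 0 ≤ (∫ u, kap u) * (2 + B) := by positivity
    rw [hκ]; linarith
  have hκC : C ≤ κ := by
    have : 0 ≤ (∫ u, kap u) * (2 + B) := by positivity
    rw [hκ]; linarith
  have hκκ : (∫ u, kap u) * (2 + B) ≤ κ := by rw [hκ]; linarith
  refine ⟨κ, hκ1, ?_⟩
  intro r d l hr hd hd1 k
  have main : ∀ k : ℕ, ∀ r : ℝ, r + k * d + 1 ≤ l → ∀ a b : ℕ, a + b = k →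
      BB K h φ l r (κ * (κ / d) ^ k) (W h φ a b) := by
    intro k
    induction k with
    | zero =>
      intro r hrl a b hab
      have ha : a = 0 := by omega
      have hb : b = 0 := by omega
      subst ha hb
      rw [W_zero, pow_zero, mul_one]
      have h1 : BB K h φ l r C φ := hφ r l (by simpa using hrl)
      exact h1.mono hκC
    | succ k ih =>
      intro r hrl a b hab
      have hrl' : (r + d) + k * d + 1 ≤ l := by push_cast at hrl; linarith
      have hrl2 : r + d + 1 ≤ l := by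
        have : 0 ≤ (k : ℝ) * d := by positivity
        linarith
      have hM : 0 < κ * (κ / d) ^ k := by positivity
      have hmono : (∫ u, kap u) * (2 + B) / d * (κ * (κ / d) ^ k) ≤ κ * (κ / d) ^ (k + 1) := by
        calc (∫ u, kap u) * (2 + B) / d * (κ * (κ / d) ^ k) ≤ κ / d * (κ * (κ / d) ^ k) := by
              gcongr
          _ = _ := by ring
      rcases Nat.eq_zero_or_pos a with ha | ha
      · subst ha
        obtain ⟨b', rfl⟩ : ∃ b', b = b' + 1 := ⟨b - 1, by omega⟩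
        have h1 := step' L hK hKV hδ hδV hB hB0 hd hd1 hrl2 hM (Gd.W L 0 b')
          (ih (r + d) hrl' 0 b' (by omega))
        exact (h1.congr fun n z => hdzb_W L.smφ 0 b' n z).mono hmono
      · obtain ⟨a', rfl⟩ : ∃ a', a = a' + 1 := ⟨a - 1, by omega⟩
        have h1 := step L hK hKV hδ hδV hB hB0 hd hd1 hrl2 hM (Gd.W L a' b)
          (ih (r + d) hrl' a' b (by omega))
        exact (h1.congr fun n z => hdz_W L.smφ a' b n z).mono hmono
  intro hrl
  have h1 : ∀ᶠ n in atTop, ∀ a ∈ Finset.range (k + 1), ∀ z ∈ K, ∀ w, ‖w - z‖ ≤ r * h n →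
      ‖W h φ a (k - a) n w‖ ≤ κ * (κ / d) ^ k * √(Mn l h φ n z) := by
    rw [eventually_all_finset]
    intro a ha
    exact main k r hrl a (k - a) (by rw [Finset.mem_range] at ha; omega)
  filter_upwards [h1] with n hn z hz w hw a b hab
  have h2 := hn a (Finset.mem_range.2 (by omega)) z hz w hw
  have h3 : k - a = b := by omega
  rwa [h3] at h2

end

end BSL
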