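import Pool.Agent.BSL.StmtsT
import Pool.Agent.BSL.PTWC
import Pool.Agent.BWM.C33

/-!
# TAC: the Taylor polynomials in terms of the covariant jets (helper70)
-/

open Complex MeasureTheory Filter Topology Set
open scoped ContDiff

namespace BSL

open U3 QJ QE

noncomputable section

namespace TAC

variable {V : Set ℂ} {σ : ℂ → ℝ} {h : ℕ → ℝ} {φ : ℕ → ℂ → ℂ}

/-- the sums with the coefficients `cc` -/
lemma sum_cc (y : ℂ) (k : ℕ) : ∀ (F : ℤ → ℂ) (s : Finset ℤ), Finset.Icc (-(k : ℤ)) k ⊆ s →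
    ∑ j ∈ s, (-I) ^ j * cc k j y * F j = ∑ a ∈ Finset.range (k + 1), (k.choose a : ℂ)
      * ((y / 2) ^ a * (-((starRingEnd ℂ) y) / 2) ^ (k - a) * F ((a : ℤ) - (k - a : ℕ))) := by
  have hI : (-I : ℂ) ≠ 0 := neg_ne_zero.2 I_ne_zero
  induction k with
  | zero =>
    intro F s hs
    have h0 : (0 : ℤ) ∈ s := hs (by simp)
    rw [Finset.sum_eq_single_of_mem 0 h0 (fun j _ hj => by simp [cc, hj])]
    simp [cc]
  | succ k ih =>
    intro F s hs
    have m1 : Finset.Icc (-(k : ℤ)) k ⊆ s.map (Equiv.subRight (1 : ℤ)).toEmbedding := by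
      intro j hj
      rw [Finset.mem_map]
      rw [Finset.mem_Icc] at hj
      refine ⟨j + 1, hs ?_, by simp⟩
      rw [Finset.mem_Icc]; push_cast; omega
    have m2 : Finset.Icc (-(k : ℤ)) k ⊆ s.map (Equiv.addRight (1 : ℤ)).toEmbedding := by
      intro j hj
      rw [Finset.mem_map]
      rw [Finset.mem_Icc] at hj
      refine ⟨j - 1, hs ?_, by simp⟩
      rw [Finset.mem_Icc]; push_cast; omega
    have e1 := ih (fun j => F (j + 1)) _ m1
    have e2 := ih (fun j => F (j - 1)) _ m2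
    rw [Finset.sum_map] at e1 e2
    have e3 : ∑ j ∈ s, (-I) ^ j * cc (k + 1) j y * F j
        = (y / 2) * (∑ j ∈ s, (-I) ^ ((Equiv.subRight (1 : ℤ)).toEmbedding j)
            * cc k ((Equiv.subRight (1 : ℤ)).toEmbedding j) y
            * F ((Equiv.subRight (1 : ℤ)).toEmbedding j + 1))
          + (-((starRingEnd ℂ) y) / 2) * ∑ j ∈ s, (-I) ^ ((Equiv.addRight (1 : ℤ)).toEmbedding j)
            * cc k ((Equiv.addRight (1 : ℤ)).toEmbedding j) y
            * F ((Equiv.addRight (1 : ℤ)).toEmbedding j - 1) := by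
      rw [Finset.mul_sum, Finset.mul_sum, ← Finset.sum_add_distrib]
      refine Finset.sum_congr rfl fun j _ => ?_
      have i1 : (Equiv.subRight (1 : ℤ)).toEmbedding j = j - 1 := rfl
      have i2 : (Equiv.addRight (1 : ℤ)).toEmbedding j = j + 1 := rfl
      rw [i1, i2, cc_succ, zpow_sub_one₀ hI, zpow_add_one₀ hI]
      have i3 : (-I : ℂ)⁻¹ = I := by rw [inv_neg, inv_I, neg_neg]
      rw [i3]
      have i4 : j - 1 + 1 = j := by ring
      have i5 : j + 1 - 1 = j := by ring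
      rw [i4, i5]
      ring
    rw [e3, e1, e2]
    have e4 := Finset.sum_choose_succ_mul (fun a b => (y / 2) ^ a
      * (-((starRingEnd ℂ) y) / 2) ^ b * F ((a : ℤ) - (b : ℕ))) k
    rw [e4, Finset.mul_sum, Finset.mul_sum, add_comm]
    congr 1
    · refine Finset.sum_congr rfl fun a ha => ?_
      have ha' : a ≤ k := by rw [Finset.mem_range] at ha; omega
      have i1 : k + 1 - a = (k - a) + 1 := by omega
      have i2 : (a : ℤ) - (k - a : ℕ) - 1 = (a : ℤ) - ((k - a) + 1 : ℕ) := by push_cast; ring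
      rw [i1, i2]
      ring
    · refine Finset.sum_congr rfl fun a ha => ?_
      have i2 : (a : ℤ) - (k - a : ℕ) + 1 = ((a + 1 : ℕ) : ℤ) - (k - a : ℕ) := by push_cast; ring
      rw [i2]
      ring

lemma ex_pow (z : ℂ) (k : ℕ) : ex σ (-1) z ^ k = ex σ (-(k : ℤ)) z := by
  unfold ex
  rw [← ofReal_pow, ← Real.exp_nat_mul]
  congr 2
  push_cast
  ring

lemma conj_ex (k : ℤ) (z : ℂ) : (starRingEnd ℂ) (ex σ k z) = ex σ k z := by
  unfold ex; exact conj_ofReal _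

lemma dom_le (L : LocB V σ h φ) {A : ℕ → ℂ → ℂ} (hA : Bq V h φ 1 A) {K : Set ℂ} (hK : IsCompact K)
    (hKV : K ⊆ V) {l : ℝ} (hl : 0 < l) : ∃ C : ℝ, 0 ≤ C ∧ ∀ᶠ n in atTop, ∀ z ∈ K,
      ‖A n z‖ ≤ C * √(Mn l h φ n z) := by
  obtain ⟨N, C, hC, h1⟩ := hA.pos hK hKV
  obtain ⟨C', hC', h2⟩ := ptwC stmtSup L hK hKV N hl
  refine ⟨√(C * C'), Real.sqrt_nonneg _, ?_⟩
  filter_upwards [h1 N le_rfl, h2] with n n1 n2 z hz
  have e1 := n1 z hz
  rw [pow_one] at e1
  have e3 : ‖A n z‖ ^ 2 ≤ C * C' * Mn l h φ n z := by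
    calc ‖A n z‖ ^ 2 ≤ C * RR h φ N n z := e1
      _ ≤ C * (C' * Mn l h φ n z) := mul_le_mul_of_nonneg_left (n2 z hz) hC.le
      _ = _ := by ring
  rw [← Real.sqrt_mul (by positivity)]
  exact Real.le_sqrt_of_sq_le e3

/-- the error of one term -/
lemma term (L : LocB V σ h φ) {K : Set ℂ} (hK : IsCompact K) (hKV : K ⊆ V) {l : ℝ} (hl : 0 < l)
    (a b : ℕ) {η : ℝ} (hη : 0 < η) : ∀ᶠ n in atTop, ∀ z ∈ K,
      ‖ex σ (-((a : ℤ) + b)) z * W h φ a b n z
        - (2 : ℂ)⁻¹ ^ (a + b) * (-1) ^ b * E σ h φ ((a : ℤ) - b) n z‖ ≤ η * √(Mn l h φ n z) := by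
  obtain ⟨A, hA, he⟩ := stmtJetW stmtJetC V σ h φ L a b
  obtain ⟨C, hC, h1⟩ := dom_le L hA.bq hK hKV hl
  have h0 := L.hlim.const_mul C
  rw [mul_zero] at h0
  filter_upwards [h1, h0.eventually_lt_const hη] with n n1 n2 z hz
  rw [he n z (hKV hz), add_sub_cancel_left, norm_mul, Complex.norm_real,
    Real.norm_of_nonneg (L.hpos n).le]
  calc h n * ‖A n z‖ ≤ h n * (C * √(Mn l h φ n z)) :=
        mul_le_mul_of_nonneg_left (n1 z hz) (L.hpos n).le
    _ = (C * h n) * √(Mn l h φ n z) := by ring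
    _ ≤ η * √(Mn l h φ n z) := mul_le_mul_of_nonneg_right n2.le (Real.sqrt_nonneg _)

lemma tayE_eq (N n : ℕ) (z y : ℂ) : TayE σ h φ N n z y
    = ∑ k ∈ Finset.range (N + 1), (k.factorial : ℂ)⁻¹ * ∑ a ∈ Finset.range (k + 1),
      (k.choose a : ℂ) * ((y / 2) ^ a * (-((starRingEnd ℂ) y) / 2) ^ (k - a)
        * E σ h φ ((a : ℤ) - (k - a : ℕ)) n z) := by
  unfold TayE kap1 CN
  have e1 : ∀ j ∈ Finset.Icc (-(N : ℤ)) N, (-I) ^ j * (∑ k ∈ Finset.range (N + 1),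
      ((k.factorial : ℝ)⁻¹ : ℝ) • cc k j y) * E σ h φ j n z
      = ∑ k ∈ Finset.range (N + 1), (k.factorial : ℂ)⁻¹ * ((-I) ^ j * cc k j y * E σ h φ j n z) := by
    intro j _
    rw [Finset.mul_sum, Finset.sum_mul]
    refine Finset.sum_congr rfl fun k _ => ?_
    rw [Complex.real_smul]
    push_cast
    ring
  rw [Finset.sum_congr rfl e1, Finset.sum_comm]
  refine Finset.sum_congr rfl fun k hk => ?_
  rw [← Finset.mul_sum, sum_cc y k (fun j => E σ h φ j n z)]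
  intro j hj
  rw [Finset.mem_range] at hk
  rw [Finset.mem_Icc] at hj ⊢
  omega

lemma tayW_ex (N n : ℕ) (z y : ℂ) : TayW h φ N n z (ex σ (-1) z * y)
    = ∑ k ∈ Finset.range (N + 1), (k.factorial : ℂ)⁻¹ * ∑ a ∈ Finset.range (k + 1),
      (k.choose a : ℂ) * (y ^ a * (starRingEnd ℂ) y ^ (k - a)
        * (ex σ (-((a : ℤ) + (k - a : ℕ))) z * W h φ a (k - a) n z)) := by
  unfold TayW
  refine Finset.sum_congr rfl fun k _ => ?_
  congr 1
  refine Finset.sum_congr rfl fun a ha => ?_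
  have ha' : a ≤ k := by rw [Finset.mem_range] at ha; omega
  have e1 : -((a : ℤ) + (k - a : ℕ)) = -(k : ℤ) := by omega
  rw [e1, ← ex_pow z k, map_mul, conj_ex, mul_pow, mul_pow]
  have e2 : ex σ (-1) z ^ k = ex σ (-1) z ^ a * ex σ (-1) z ^ (k - a) := by
    rw [← pow_add]; congr 1; omega
  rw [e2]
  ring

end TAC

open TAC in
/-- TAC: the Taylor polynomials in terms of the covariant jets -/
theorem tAC : StmtTac := by
  intro V σ h φ L K hK hKV R₀ l hl N ε hε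
  set R := max R₀ 0 with hR
  have hR0 : 0 ≤ R := le_max_right _ _
  set Q : ℝ := ∑ k ∈ Finset.range (N + 1), ∑ a ∈ Finset.range (k + 1), (k.choose a : ℝ) * R ^ k
    with hQ
  have hQ0 : 0 ≤ Q := Finset.sum_nonneg fun k _ => Finset.sum_nonneg fun a _ => by positivity
  have hη : 0 < ε / (Q + 1) := by positivity
  have h1 : ∀ᶠ n in atTop, ∀ k ∈ Finset.range (N + 1), ∀ a ∈ Finset.range (k + 1), ∀ z ∈ K,
      ‖ex σ (-((a : ℤ) + (k - a : ℕ))) z * W h φ a (k - a) n z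
        - (2 : ℂ)⁻¹ ^ (a + (k - a)) * (-1) ^ (k - a) * E σ h φ ((a : ℤ) - (k - a : ℕ)) n z‖
        ≤ ε / (Q + 1) * √(Mn l h φ n z) := by
    rw [eventually_all_finset]
    intro k _
    rw [eventually_all_finset]
    intro a _
    exact term L hK hKV hl a (k - a) hη
  filter_upwards [h1] with n hn z hz y hy
  have hy' : ‖y‖ ≤ R := hy.trans (le_max_left _ _)
  rw [tayW_ex, tayE_eq, ← Finset.sum_sub_distrib]
  set M := √(Mn l h φ n z) with hM
  have hM0 : 0 ≤ M := Real.sqrt_nonneg _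
  have h2 : ∀ k ∈ Finset.range (N + 1), ‖(k.factorial : ℂ)⁻¹ * (∑ a ∈ Finset.range (k + 1),
      (k.choose a : ℂ) * (y ^ a * (starRingEnd ℂ) y ^ (k - a)
        * (ex σ (-((a : ℤ) + (k - a : ℕ))) z * W h φ a (k - a) n z)))
      - (k.factorial : ℂ)⁻¹ * ∑ a ∈ Finset.range (k + 1),
      (k.choose a : ℂ) * ((y / 2) ^ a * (-((starRingEnd ℂ) y) / 2) ^ (k - a)
        * E σ h φ ((a : ℤ) - (k - a : ℕ)) n z)‖
      ≤ (∑ a ∈ Finset.range (k + 1), (k.choose a : ℝ) * R ^ k) * (ε / (Q + 1) * M) := by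
    intro k hk
    rw [← mul_sub, ← Finset.sum_sub_distrib, norm_mul, norm_inv, Complex.norm_natCast]
    have hf : ((k.factorial : ℝ))⁻¹ ≤ 1 := by
      apply inv_le_one_of_one_le₀
      exact_mod_cast Nat.one_le_iff_ne_zero.2 (Nat.factorial_ne_zero k)
    rw [Finset.sum_mul]
    refine le_trans (mul_le_of_le_one_left (norm_nonneg _) hf) ?_
    refine (norm_sum_le _ _).trans (Finset.sum_le_sum fun a ha => ?_)
    have ha' : a ≤ k := by rw [Finset.mem_range] at ha; omega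
    have e1 : a + (k - a) = k := by omega
    have h3 := hn k hk a ha z hz
    have e2 : (k.choose a : ℂ) * (y ^ a * (starRingEnd ℂ) y ^ (k - a)
        * (ex σ (-((a : ℤ) + (k - a : ℕ))) z * W h φ a (k - a) n z))
        - (k.choose a : ℂ) * ((y / 2) ^ a * (-((starRingEnd ℂ) y) / 2) ^ (k - a)
        * E σ h φ ((a : ℤ) - (k - a : ℕ)) n z)
        = (k.choose a : ℂ) * ((y ^ a * (starRingEnd ℂ) y ^ (k - a))
        * (ex σ (-((a : ℤ) + (k - a : ℕ))) z * W h φ a (k - a) n z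
        - (2 : ℂ)⁻¹ ^ (a + (k - a)) * (-1) ^ (k - a) * E σ h φ ((a : ℤ) - (k - a : ℕ)) n z)) := by
      have e3 : (y / 2) ^ a * (-((starRingEnd ℂ) y) / 2) ^ (k - a)
          = (y ^ a * (starRingEnd ℂ) y ^ (k - a)) * ((2 : ℂ)⁻¹ ^ (a + (k - a)) * (-1) ^ (k - a)) := by
        rw [pow_add, div_pow, div_pow, neg_pow, inv_pow, inv_pow]
        ring
      rw [e3]; ring
    rw [e2, norm_mul, norm_mul, norm_mul, norm_pow, norm_pow, RCLike.norm_conj, ← pow_add, e1,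
      Complex.norm_natCast]
    rw [e1] at h3
    have h4 : ‖y‖ ^ k ≤ R ^ k := pow_le_pow_left₀ (norm_nonneg _) hy' k
    calc (k.choose a : ℝ) * (‖y‖ ^ k * ‖ex σ (-((a : ℤ) + (k - a : ℕ))) z * W h φ a (k - a) n z
        - (2 : ℂ)⁻¹ ^ k * (-1) ^ (k - a) * E σ h φ ((a : ℤ) - (k - a : ℕ)) n z‖)
        ≤ (k.choose a : ℝ) * (R ^ k * (ε / (Q + 1) * M)) := by gcongr
      _ = _ := by ring
  calc _ ≤ ∑ k ∈ Finset.range (N + 1),
        (∑ a ∈ Finset.range (k + 1), (k.choose a : ℝ) * R ^ k) * (ε / (Q + 1) * M) :=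
        (norm_sum_le _ _).trans (Finset.sum_le_sum h2)
    _ = Q * (ε / (Q + 1) * M) := by rw [← Finset.sum_mul, ← hQ]
    _ = Q / (Q + 1) * (ε * M) := by ring
    _ ≤ 1 * (ε * M) := by
        gcongr
        exact (div_le_one (by positivity)).2 (by linarith)
    _ = ε * M := one_mul _

end

end BSL
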