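import Pool.Agent.BSL.TAW
import Pool.Agent.BSL.TAC
import Pool.Agent.BSL.GRW

/-!
# TAY: Taylor's formula in terms of the covariant jets (helper70)
-/

open Complex MeasureTheory Filter Topology Set
open scoped ContDiff

namespace BSL

open U3 QJ QE

noncomputable section

/-- TAY: Taylor's formula in terms of the covariant jets -/
theorem tAY : StmtTay := by
  intro V σ h φ L K hK hKV R₀
  obtain ⟨B, hB⟩ := hK.exists_bound_of_continuousOn
    ((contDiff_ex L.sm (-1)).continuous.continuousOn (s := K))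
  obtain ⟨l, hl, h1⟩ := tAW gRW V σ h φ L K hK hKV (|B| * |R₀|)
  refine ⟨l, hl, fun ε hε => ?_⟩
  obtain ⟨N₀, hN₀⟩ := h1 (ε / 2) (by positivity)
  refine ⟨N₀, fun N hN => ?_⟩
  have h2 := tAC V σ h φ L K hK hKV R₀ l hl N (ε / 2) (by positivity)
  filter_upwards [hN₀ N hN, h2] with n n1 n2 z hz y hy
  have hv : ‖ex σ (-1) z * y‖ ≤ |B| * |R₀| := by
    rw [norm_mul]
    exact mul_le_mul ((hB z hz).trans (le_abs_self B)) (hy.trans (le_abs_self R₀))
      (norm_nonneg _) (abs_nonneg _)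
  obtain ⟨m1, m2⟩ := n1 z hz _ hv
  refine ⟨m1, ?_⟩
  have m3 := n2 z hz y hy
  have e : φ n (dp σ h n z y) - TayE σ h φ N n z y
      = (φ n (z + h n * (ex σ (-1) z * y)) - TayW h φ N n z (ex σ (-1) z * y))
        + (TayW h φ N n z (ex σ (-1) z * y) - TayE σ h φ N n z y) := by
    unfold dp; ring
  rw [e]
  calc _ ≤ ε / 2 * √(Mn l h φ n z) + ε / 2 * √(Mn l h φ n z) :=
        (norm_add_le _ _).trans (add_le_add m2 m3)
    _ = _ := by ring

end

end BSL
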