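import Pool.Agent.BSL.ROTG

/-!
# TCUB: rotation averages of products of values at three points, with weights (helper67)
-/

open Complex MeasureTheory Filter Topology Set
open scoped ContDiff

namespace BSL

open QE QJ U3

noncomputable section

/-- TCUB -/
theorem tCUB (h1 : StmtTay) (h2 : StmtCubW) : StmtTcub := by
  intro V σ h φ L K hK hKV R
  obtain ⟨L₀, hL₀, hG⟩ := rotg h1 L hK hKV R
  refine ⟨L₀, hL₀, fun Lr hLr θ W u J hN x ξ hx hξ ζ hζ hζK => ?_⟩
  have hLr0 : 0 < Lr := hL₀.trans_le hLr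
  have WR : WtR V σ h φ θ := wtR V σ h φ Lr θ hLr0 W
  have hφc : ∀ n, Continuous (φ n) := fun n => (L.smφ n).continuous
  have hb : ∃ C : ℝ, ∀ᶠ n in atTop, ∫ z in K, θ n z * √(Mn Lr h φ n z) ^ 3 ≤ C := by
    obtain ⟨C1, hC1⟩ := ROTG.ui_bdd W hK hKV
    obtain ⟨C2, hC2⟩ := ROTG.Mn_bdd L hK hKV hLr0.le
    refine ⟨1 / 2 * (C1 + C2), ?_⟩
    filter_upwards [hC1, hC2] with n n1 n2
    have hM : Continuous (Mn Lr h φ n) := continuous_Mn hφc Lr n
    have hθ := (W.smθ n).continuous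
    have i1 : IntegrableOn (fun z => (θ n z * Mn Lr h φ n z) ^ 2) K :=
      ((hθ.mul hM).pow 2).continuousOn.integrableOn_compact hK
    have i2 : IntegrableOn (fun z => Mn Lr h φ n z) K := hM.continuousOn.integrableOn_compact hK
    have i0 : IntegrableOn (fun z => θ n z * √(Mn Lr h φ n z) ^ 3) K :=
      (hθ.mul (hM.sqrt.pow 3)).continuousOn.integrableOn_compact hK
    have h3 : ∫ z in K, θ n z * √(Mn Lr h φ n z) ^ 3
        ≤ ∫ z in K, 1 / 2 * ((θ n z * Mn Lr h φ n z) ^ 2 + Mn Lr h φ n z) := by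
      refine integral_mono i0 ((i1.add i2).const_mul _) fun z => ?_
      beta_reduce
      have hM1 : 1 ≤ Mn Lr h φ n z := one_le_Mn Lr n z
      set Q := √(Mn Lr h φ n z) with hQ
      have hQ2 : Q ^ 2 = Mn Lr h φ n z := Real.sq_sqrt (by linarith)
      rw [← hQ2]
      nlinarith [sq_nonneg (θ n z * Q ^ 2 - Q)]
    rw [integral_const_mul, integral_add i1 i2] at h3
    linarith
  have hmain := hG Lr hLr 3 θ (fun n => (W.smθ n).continuous) W.nonneg hb x ξ hx hξ ζ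
    hζ.smooth.continuous hζK
  rw [Metric.tendsto_nhds]
  intro ε hε
  obtain ⟨N₀, hN₀⟩ := hmain (ε / 2) (by positivity)
  have hS : Tendsto (fun n => ∑ p ∈ Fintype.piFinset (fun _ : Fin 3 => Finset.Icc (-(N₀ : ℤ)) N₀),
      (∏ i, kap1 N₀ (p i) (x i)) * ((if ∑ i, p i = 0 then 1 else 0)
        * ∫ z, ζ z * ((θ n z : ℂ) * ∏ i, E σ h φ (p i) n z))) atTop (𝓝 0) := by
    have h3 : ∀ p ∈ Fintype.piFinset (fun _ : Fin 3 => Finset.Icc (-(N₀ : ℤ)) N₀),
        Tendsto (fun n => (∏ i, kap1 N₀ (p i) (x i)) * ((if ∑ i, p i = 0 then 1 else 0)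
          * ∫ z, ζ z * ((θ n z : ℂ) * ∏ i, E σ h φ (p i) n z))) atTop (𝓝 0) := by
      intro p _
      by_cases hp : ∑ i, p i = 0
      · have h4 : p 0 + p 1 + p 2 = 0 := by rw [← hp, Fin.sum_univ_three]
        have h5 := (h2 V σ h φ θ u WR J hN ζ hζ (p 0) (p 1) (p 2) h4).const_mul
          (∏ i, kap1 N₀ (p i) (x i))
        rw [mul_zero] at h5
        refine h5.congr fun n => ?_
        rw [if_pos hp, one_mul]
        unfold E3w
        simp only [Fin.prod_univ_three]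
      · rw [if_neg hp]
        simp
    have h6 := tendsto_finsetSum _ h3
    simpa using h6
  filter_upwards [hN₀ N₀ le_rfl, (tendsto_iff_norm_sub_tendsto_zero.1 hS).eventually_lt_const
    (show 0 < ε / 2 by positivity)] with n n1 n2
  rw [dist_zero_right]
  rw [sub_zero] at n2
  set X := ∫ t, (∫ z, ζ z * ((θ n z : ℂ) * ∏ i, φ n (dp σ h n z (ξ i n t z)))) ∂ang
  set S := ∑ p ∈ Fintype.piFinset (fun _ : Fin 3 => Finset.Icc (-(N₀ : ℤ)) N₀),
      (∏ i, kap1 N₀ (p i) (x i)) * ((if ∑ i, p i = 0 then 1 else 0)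
        * ∫ z, ζ z * ((θ n z : ℂ) * ∏ i, E σ h φ (p i) n z))
  have h7 : X = (X - S) + S := by ring
  rw [h7]
  refine (norm_add_le _ _).trans_lt ?_
  linarith

end

end BSL
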