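import Pool.Agent.BSL.St1

/-!
# The truncated div-curl lemma
-/

open Complex MeasureTheory Filter Topology Set
open scoped ContDiff

namespace BSL

open QE QJ U3

noncomputable section

namespace TDC

lemma int_sq {v : ℂ → ℂ} (cv : Continuous v) (vc : HasCompactSupport v) :
    Integrable (fun z => ‖v z‖ ^ 2) := by
  have : Continuous (fun z => ‖v z‖ ^ 2) := by fun_prop
  exact this.integrable_of_hasCompactSupport (vc.comp_left (g := fun w => ‖w‖ ^ 2) (by simp))

lemma int_trunc {v : ℂ → ℂ} (cv : Continuous v) (vc : HasCompactSupport v) (T : ℝ) :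
    Integrable (fun z => if T < ‖v z‖ then ‖v z‖ ^ 2 else 0) := by
  have hm : MeasurableSet {z | T < ‖v z‖} := (isOpen_lt continuous_const cv.norm).measurableSet
  have h := (int_sq cv vc).indicator hm
  refine h.congr (Eventually.of_forall fun z => ?_)
  simp only [Set.indicator_apply, Set.mem_ofPred_eq]

lemma trunc_nonneg (v : ℂ → ℂ) (T : ℝ) (z : ℂ) : 0 ≤ (if T < ‖v z‖ then ‖v z‖ ^ 2 else 0) := by
  split_ifs
  · positivity
  · exact le_rfl

lemma sq_le_trunc (v : ℂ → ℂ) (T : ℝ) (z : ℂ) :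
    ‖v z‖ ^ 2 ≤ T ^ 2 + (if T < ‖v z‖ then ‖v z‖ ^ 2 else 0) := by
  split_ifs with h
  · nlinarith [sq_nonneg T]
  · push Not at h
    have h1 := norm_nonneg (v z)
    nlinarith

/-- the squares of a uniformly integrable sequence are bounded in `L¹(K)` -/
lemma bddU {K : Set ℂ} (hK : IsCompact K) {v : ℕ → ℂ → ℂ} (cv : ∀ n, Continuous (v n))
    (vc : ∀ n, HasCompactSupport (v n)) (uv : UIs v) :
    ∃ C : ℝ, 0 ≤ C ∧ ∀ᶠ n in atTop, ∫ z in K, ‖v n z‖ ^ 2 ≤ C := by
  obtain ⟨T, hT⟩ := uv 1 one_pos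
  refine ⟨T ^ 2 * volume.real K + 1, by positivity, ?_⟩
  filter_upwards [hT] with n hn
  have i1 : IntegrableOn (fun z => ‖v n z‖ ^ 2) K := (int_sq (cv n) (vc n)).integrableOn
  have i2 : IntegrableOn (fun z => if T < ‖v n z‖ then ‖v n z‖ ^ 2 else 0) K :=
    (int_trunc (cv n) (vc n) T).integrableOn
  have i3 : IntegrableOn (fun _ : ℂ => T ^ 2) K := integrableOn_const hK.measure_lt_top.ne
  have i32 : IntegrableOn (fun z => T ^ 2 + (if T < ‖v n z‖ then ‖v n z‖ ^ 2 else 0)) K :=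
    i3.add i2
  calc ∫ z in K, ‖v n z‖ ^ 2 ≤ ∫ z in K, (T ^ 2 + (if T < ‖v n z‖ then ‖v n z‖ ^ 2 else 0)) :=
        integral_mono i1 i32 fun z => sq_le_trunc (v n) T z
    _ = T ^ 2 * volume.real K + ∫ z in K, (if T < ‖v n z‖ then ‖v n z‖ ^ 2 else 0) := by
        rw [integral_add i3 i2, setIntegral_const, smul_eq_mul, mul_comm]
    _ ≤ T ^ 2 * volume.real K + ∫ z, (if T < ‖v n z‖ then ‖v n z‖ ^ 2 else 0) := by
        gcongr
        · exact Eventually.of_forall fun z => trunc_nonneg (v n) T z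
        · exact int_trunc (cv n) (vc n) T
        · exact Measure.restrict_le_self
    _ ≤ _ := by linarith

/-- the product of a sequence which is bounded in `L²(K)` and tends to zero in measure and of a
sequence with uniformly integrable squares tends to zero in `L¹(K)` -/
lemma pairE {K : Set ℂ} (hK : IsCompact K) {e v : ℕ → ℂ → ℂ} (ce : ∀ n, Continuous (e n))
    (cv : ∀ n, Continuous (v n)) (vc : ∀ n, HasCompactSupport (v n))
    (bE : ∃ C : ℝ, ∀ᶠ n in atTop, ∫ z in K, ‖e n z‖ ^ 2 ≤ C)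
    (mE : ∀ s > 0, Tendsto (fun n => (volume : Measure ℂ) {z | z ∈ K ∧ s < ‖e n z‖}) atTop (𝓝 0))
    (uv : UIs v) : Tendsto (fun n => ∫ z in K, ‖e n z‖ * ‖v n z‖) atTop (𝓝 0) := by
  obtain ⟨C, hC⟩ := bE
  obtain ⟨D, hD0, hD⟩ := bddU hK cv vc uv
  set V : ℝ := volume.real K with hV
  have hV0 : 0 ≤ V := measureReal_nonneg
  rw [Metric.tendsto_atTop]
  intro ε hε
  obtain ⟨δ, hδ, hδe⟩ : ∃ δ : ℝ, 0 < δ ∧ δ * |C| < ε / 4 := by
    refine ⟨ε / (8 * (|C| + 1)), by positivity, ?_⟩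
    have h1 : ε / (8 * (|C| + 1)) * |C| = ε / 8 * (|C| / (|C| + 1)) := by field_simp
    rw [h1]
    have h2 : |C| / (|C| + 1) ≤ 1 := by
      rw [div_le_one (by positivity)]
      linarith
    nlinarith
  obtain ⟨s, hs, hse⟩ : ∃ s : ℝ, 0 < s ∧ s * (V + D) < ε / 4 := by
    refine ⟨ε / (8 * (V + D + 1)), by positivity, ?_⟩
    have h1 : ε / (8 * (V + D + 1)) * (V + D) = ε / 8 * ((V + D) / (V + D + 1)) := by field_simp
    rw [h1]
    have h2 : (V + D) / (V + D + 1) ≤ 1 := by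
      rw [div_le_one (by positivity)]
      linarith
    nlinarith
  obtain ⟨T, hT⟩ := uv (δ * ε / 2) (by positivity)
  have hm : ∀ᶠ n in atTop, (4 * δ)⁻¹ * (T ^ 2 * volume.real {z | z ∈ K ∧ s < ‖e n z‖}) < ε / 4 := by
    have h1 : Tendsto (fun n => volume.real {z | z ∈ K ∧ s < ‖e n z‖}) atTop (𝓝 0) := by
      have := (ENNReal.tendsto_toReal (ENNReal.zero_ne_top)).comp (mE s hs)
      rw [ENNReal.toReal_zero] at this
      exact this
    have h2 : Tendsto (fun n => (4 * δ)⁻¹ * (T ^ 2 * volume.real {z | z ∈ K ∧ s < ‖e n z‖})) atTop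
        (𝓝 ((4 * δ)⁻¹ * (T ^ 2 * 0))) := (h1.const_mul _).const_mul _
    rw [mul_zero, mul_zero] at h2
    exact h2.eventually (gt_mem_nhds (by positivity))
  have hmain : ∀ᶠ n in atTop, ∫ z in K, ‖e n z‖ * ‖v n z‖ < ε := by
    filter_upwards [hC, hD, hT, hm] with n hCn hDn hTn hmn
    have hmes : MeasurableSet {z | s < ‖e n z‖} :=
      (isOpen_lt continuous_const (ce n).norm).measurableSet
    have i0 : IntegrableOn (fun z => ‖e n z‖ * ‖v n z‖) K :=
      ((ce n).norm.mul (cv n).norm).continuousOn.integrableOn_compact hK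
    have i1 : IntegrableOn (fun z => ‖v n z‖) K := (cv n).norm.continuousOn.integrableOn_compact hK
    have i2 : IntegrableOn (fun z => ‖e n z‖ ^ 2) K :=
      ((ce n).norm.pow 2).continuousOn.integrableOn_compact hK
    have i3 : IntegrableOn (fun z => if s < ‖e n z‖ then T ^ 2 else 0) K := by
      have h3 : IntegrableOn (fun _ : ℂ => T ^ 2) K := integrableOn_const hK.measure_lt_top.ne
      refine (h3.indicator hmes).congr (Eventually.of_forall fun z => ?_)
      simp only [Set.indicator_apply, Set.mem_ofPred_eq]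
    have i4 : IntegrableOn (fun z => if T < ‖v n z‖ then ‖v n z‖ ^ 2 else 0) K :=
      (int_trunc (cv n) (vc n) T).integrableOn
    have i5 : IntegrableOn (fun z => ‖v n z‖ ^ 2) K := (int_sq (cv n) (vc n)).integrableOn
    have i6 : IntegrableOn (fun _ : ℂ => (1 : ℝ)) K := integrableOn_const hK.measure_lt_top.ne
    have i65 : IntegrableOn (fun z => (1 : ℝ) + ‖v n z‖ ^ 2) K := i6.add i5
    have i12 : IntegrableOn (fun z => s * ‖v n z‖ + δ * ‖e n z‖ ^ 2) K :=
      (i1.const_mul s).add (i2.const_mul δ)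
    have i34 : IntegrableOn (fun z => (if s < ‖e n z‖ then T ^ 2 else 0) +
        (if T < ‖v n z‖ then ‖v n z‖ ^ 2 else 0)) K := i3.add i4
    have i34c : IntegrableOn (fun z => (4 * δ)⁻¹ * ((if s < ‖e n z‖ then T ^ 2 else 0) +
        (if T < ‖v n z‖ then ‖v n z‖ ^ 2 else 0))) K := i34.const_mul _
    have i1234 : IntegrableOn (fun z => (s * ‖v n z‖ + δ * ‖e n z‖ ^ 2) +
        (4 * δ)⁻¹ * ((if s < ‖e n z‖ then T ^ 2 else 0) +
          (if T < ‖v n z‖ then ‖v n z‖ ^ 2 else 0))) K := i12.add i34c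
    have hpt : ∀ z, ‖e n z‖ * ‖v n z‖ ≤ (s * ‖v n z‖ + δ * ‖e n z‖ ^ 2) +
        (4 * δ)⁻¹ * ((if s < ‖e n z‖ then T ^ 2 else 0) +
          (if T < ‖v n z‖ then ‖v n z‖ ^ 2 else 0)) := by
      intro z
      have h1 := norm_nonneg (e n z)
      have h2 := norm_nonneg (v n z)
      have h3 := trunc_nonneg (v n) T z
      by_cases h : s < ‖e n z‖
      · rw [if_pos h]
        have h4 := sq_le_trunc (v n) T z
        have h5 : ‖e n z‖ * ‖v n z‖ ≤ δ * ‖e n z‖ ^ 2 + (4 * δ)⁻¹ * ‖v n z‖ ^ 2 := by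
          have h6 : δ * ‖e n z‖ ^ 2 + (4 * δ)⁻¹ * ‖v n z‖ ^ 2 - ‖e n z‖ * ‖v n z‖ =
              (4 * δ)⁻¹ * (2 * δ * ‖e n z‖ - ‖v n z‖) ^ 2 := by
            field_simp
            ring
          have h7 : 0 ≤ (4 * δ)⁻¹ * (2 * δ * ‖e n z‖ - ‖v n z‖) ^ 2 := by positivity
          linarith
        have h6 : (4 * δ)⁻¹ * ‖v n z‖ ^ 2 ≤
            (4 * δ)⁻¹ * (T ^ 2 + (if T < ‖v n z‖ then ‖v n z‖ ^ 2 else 0)) :=
          mul_le_mul_of_nonneg_left h4 (by positivity)
        have h7 : 0 ≤ s * ‖v n z‖ := by positivity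
        linarith
      · rw [if_neg h, zero_add]
        push Not at h
        have h4 : ‖e n z‖ * ‖v n z‖ ≤ s * ‖v n z‖ := mul_le_mul_of_nonneg_right h h2
        have h5 : 0 ≤ δ * ‖e n z‖ ^ 2 := by positivity
        have h6 : 0 ≤ (4 * δ)⁻¹ * (if T < ‖v n z‖ then ‖v n z‖ ^ 2 else 0) :=
          mul_nonneg (by positivity) h3
        linarith
    have hv1 : ∫ z in K, ‖v n z‖ ≤ V + D := by
      calc ∫ z in K, ‖v n z‖ ≤ ∫ z in K, ((1 : ℝ) + ‖v n z‖ ^ 2) :=
            integral_mono i1 i65 fun z => by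
              have := sq_nonneg (‖v n z‖ - 1)
              have h2 := norm_nonneg (v n z)
              simp only
              nlinarith
        _ = V + ∫ z in K, ‖v n z‖ ^ 2 := by
            rw [integral_add i6 i5, setIntegral_const, smul_eq_mul, mul_one]
        _ ≤ V + D := by linarith
    have hset : ∫ z in K, (if s < ‖e n z‖ then T ^ 2 else 0) =
        T ^ 2 * volume.real {z | z ∈ K ∧ s < ‖e n z‖} := by
      have h1 : ∫ z in K, (if s < ‖e n z‖ then T ^ 2 else 0) =
          ∫ z in K, Set.indicator {z | s < ‖e n z‖} (fun _ => T ^ 2) z := by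
        refine integral_congr_ae (Eventually.of_forall fun z => ?_)
        simp only [Set.indicator_apply, Set.mem_ofPred_eq]
      have h2 : K ∩ {z | s < ‖e n z‖} = {z | z ∈ K ∧ s < ‖e n z‖} := rfl
      rw [h1, setIntegral_indicator hmes, h2, setIntegral_const, smul_eq_mul, mul_comm]
    calc ∫ z in K, ‖e n z‖ * ‖v n z‖
        ≤ ∫ z in K, ((s * ‖v n z‖ + δ * ‖e n z‖ ^ 2) +
          (4 * δ)⁻¹ * ((if s < ‖e n z‖ then T ^ 2 else 0) +
            (if T < ‖v n z‖ then ‖v n z‖ ^ 2 else 0))) :=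
          integral_mono i0 i1234 hpt
      _ = (s * (∫ z in K, ‖v n z‖) + δ * ∫ z in K, ‖e n z‖ ^ 2) +
          (4 * δ)⁻¹ * (T ^ 2 * volume.real {z | z ∈ K ∧ s < ‖e n z‖} +
            ∫ z in K, (if T < ‖v n z‖ then ‖v n z‖ ^ 2 else 0)) := by
          rw [integral_add i12 i34c,
            integral_add (i1.const_mul s) (i2.const_mul δ), integral_const_mul,
            integral_const_mul, integral_const_mul, integral_add i3 i4, hset]
      _ < ε := by
          have h1 : s * (∫ z in K, ‖v n z‖) ≤ s * (V + D) := mul_le_mul_of_nonneg_left hv1 hs.le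
          have h2 : δ * (∫ z in K, ‖e n z‖ ^ 2) ≤ δ * |C| :=
            mul_le_mul_of_nonneg_left (hCn.trans (le_abs_self C)) hδ.le
          have h3 : ∫ z in K, (if T < ‖v n z‖ then ‖v n z‖ ^ 2 else 0) ≤ δ * ε / 2 := by
            refine le_trans ?_ hTn
            exact integral_mono_measure Measure.restrict_le_self
              (Eventually.of_forall fun z => trunc_nonneg (v n) T z) (int_trunc (cv n) (vc n) T)
          have h4 : (4 * δ)⁻¹ * (∫ z in K, (if T < ‖v n z‖ then ‖v n z‖ ^ 2 else 0)) ≤ ε / 8 := by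
            calc _ ≤ (4 * δ)⁻¹ * (δ * ε / 2) := mul_le_mul_of_nonneg_left h3 (by positivity)
              _ = ε / 8 := by field_simp; ring
          rw [mul_add (4 * δ)⁻¹]
          linarith
  obtain ⟨N, hN⟩ := eventually_atTop.mp hmain
  refine ⟨N, fun n hn => ?_⟩
  rw [dist_zero_right, Real.norm_of_nonneg (integral_nonneg fun z => by positivity)]
  exact hN n hn

/-- pairing with a test function -/
lemma pairT {K : Set ℂ} {ψ : ℂ → ℂ} (hψ : Continuous ψ) (hψc : HasCompactSupport ψ)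
    (hK : K = tsupport ψ) {e v : ℕ → ℂ → ℂ} (ce : ∀ n, Continuous (e n))
    (cv : ∀ n, Continuous (v n)) (vc : ∀ n, HasCompactSupport (v n))
    (bE : ∃ C : ℝ, ∀ᶠ n in atTop, ∫ z in K, ‖e n z‖ ^ 2 ≤ C)
    (mE : ∀ s > 0, Tendsto (fun n => (volume : Measure ℂ) {z | z ∈ K ∧ s < ‖e n z‖}) atTop (𝓝 0))
    (uv : UIs v) : Tendsto (fun n => ∫ z, ψ z * (e n z * v n z)) atTop (𝓝 0) := by
  have hKc : IsCompact K := by rw [hK]; exact hψc
  have h1 := pairE hKc ce cv vc bE mE uv
  obtain ⟨B, hB⟩ := hψ.bounded_above_of_compact_support hψc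
  have hB0 : 0 ≤ B := (norm_nonneg _).trans (hB 0)
  have h2 : Tendsto (fun n => B * ∫ z in K, ‖e n z‖ * ‖v n z‖) atTop (𝓝 0) := by
    have := h1.const_mul B
    rwa [mul_zero] at this
  refine squeeze_zero_norm (fun n => ?_) h2
  have e1 : ∫ z, ψ z * (e n z * v n z) = ∫ z in K, ψ z * (e n z * v n z) := by
    rw [setIntegral_eq_integral_of_forall_compl_eq_zero]
    intro z hz
    rw [hK] at hz
    rw [image_eq_zero_of_notMem_tsupport hz, zero_mul]
  rw [e1, ← integral_const_mul]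
  refine norm_integral_le_of_norm_le
    (((ce n).norm.mul (cv n).norm).const_smul B |>.continuousOn.integrableOn_compact hKc)
    (Eventually.of_forall fun z => ?_)
  rw [norm_mul, norm_mul]
  exact mul_le_mul_of_nonneg_right (hB z) (by positivity)

lemma uis_const {ψ : ℂ → ℂ} (hψ : Continuous ψ) (hψc : HasCompactSupport ψ) :
    UIs (fun _ => ψ) := by
  intro ε hε
  obtain ⟨B, hB⟩ := hψ.bounded_above_of_compact_support hψc
  refine ⟨B, Eventually.of_forall fun n => ?_⟩
  have : ∀ z, (if B < ‖ψ z‖ then ‖ψ z‖ ^ 2 else 0) = 0 := fun z => if_neg (not_lt.2 (hB z))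
  simp only [this, integral_zero]
  exact hε.le

/-- everything about one current -/
lemma half (h2 : StmtERR) {K : Set ℂ} {θ : ℕ → ℂ → ℝ} {A B G : ℕ → ℂ → ℂ} {a b : ℂ → ℂ}
    (hK : IsCompact K) (hθ : ∀ n, ContDiff ℝ ∞ (θ n)) (hθ1 : ∀ n z, 0 ≤ θ n z ∧ θ n z ≤ 1)
    (hc : Cur K θ A B G a b) :
    ∃ X : ℕ → ℂ → ℂ, (∀ n, ContDiff ℝ ∞ (X n)) ∧
      LBdd 2 univ X ∧ LBdd 2 univ (fun n z => (θ n z : ℂ) * B n z) ∧
      LBdd 2 univ (fun n z => dz (fun z => (θ n z : ℂ) * B n z) z + dzb (X n) z) ∧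
      WLim univ X a ∧ WLim univ (fun n z => (θ n z : ℂ) * B n z) b ∧
      ∀ ψ : ℂ → ℂ, ContDiff ℝ ∞ ψ → HasCompactSupport ψ → ∀ v : ℕ → ℂ → ℂ,
        (∀ n, Continuous (v n)) → (∀ n, HasCompactSupport (v n)) → UIs v →
        Tendsto (fun n => ∫ z, ψ z * (((θ n z : ℂ) * A n z - X n z) * v n z)) atTop (𝓝 0) := by
  have sθ : ∀ n, ContDiff ℝ ∞ (fun z => (θ n z : ℂ)) := fun n =>
    Complex.ofRealCLM.contDiff.comp (hθ n)
  have sa : ∀ n, ContDiff ℝ ∞ (fun z => (θ n z : ℂ) * A n z) := fun n => (sθ n).mul (hc.sA n)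
  have sb : ∀ n, ContDiff ℝ ∞ (fun z => (θ n z : ℂ) * B n z) := fun n => (sθ n).mul (hc.sB n)
  have sg : ∀ n, ContDiff ℝ ∞ (fun z => (θ n z : ℂ) * G n z) := fun n => (sθ n).mul (hc.sG n)
  have kc : ∀ {Y : ℂ → ℂ}, tsupport Y ⊆ K → HasCompactSupport Y := fun h =>
    hK.of_isClosed_subset (isClosed_tsupport _) h
  have ca : ∀ n, HasCompactSupport (fun z => (θ n z : ℂ) * A n z) := fun n =>
    (kc (hc.kA n)).mul_left
  have cb : ∀ n, HasCompactSupport (fun z => (θ n z : ℂ) * B n z) := fun n =>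
    (kc (hc.kB n)).mul_left
  have cg : ∀ n, HasCompactSupport (fun z => (θ n z : ℂ) * G n z) := fun n =>
    (kc (hc.kG n)).mul_left
  set X : ℕ → ℂ → ℂ := fun n z => cauchy (fun w => (θ n w : ℂ) * G n w) z -
    beu (fun w => (θ n w : ℂ) * B n w) z with hX
  have sbeu : ∀ n, ContDiff ℝ ∞ (beu (fun w => (θ n w : ℂ) * B n w)) := fun n =>
    contDiff_dz (contDiff_cauchy (sb n) (cb n))
  have sX : ∀ n, ContDiff ℝ ∞ (X n) := fun n =>
    (contDiff_cauchy (sg n) (cg n)).sub (sbeu n)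
  -- the error
  have herr : ∀ n z, (θ n z : ℂ) * A n z - X n z = (θ n z : ℂ) * A n z
      - cauchy (fun w => (θ n w : ℂ) * G n w) z + beu (fun w => (θ n w : ℂ) * B n w) z := by
    intro n z
    simp only [hX]
    ring
  have sE : ∀ n, ContDiff ℝ ∞ (fun z => (θ n z : ℂ) * A n z - X n z) := fun n =>
    (sa n).sub (sX n)
  have hE1 : ∀ K' : Set ℂ, IsCompact K' → ∃ C : ℝ, ∀ᶠ n in atTop,
      ∫ z in K', ‖(θ n z : ℂ) * A n z - X n z‖ ^ 2 ≤ C := by
    intro K' hK'
    obtain ⟨C, hC⟩ := (h2 K K' θ A B G a b hK hK' hθ hθ1 hc).1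
    refine ⟨C, ?_⟩
    filter_upwards [hC] with n hn
    simp only [herr]
    exact hn
  have hE2 : ∀ K' : Set ℂ, IsCompact K' → ∀ s > 0, Tendsto (fun n => (volume : Measure ℂ)
      {z | z ∈ K' ∧ s < ‖(θ n z : ℂ) * A n z - X n z‖}) atTop (𝓝 0) := by
    intro K' hK' s hs
    simp only [herr]
    exact (h2 K K' θ A B G a b hK hK' hθ hθ1 hc).2 s hs
  have hpair : ∀ ψ : ℂ → ℂ, ContDiff ℝ ∞ ψ → HasCompactSupport ψ → ∀ v : ℕ → ℂ → ℂ,
        (∀ n, Continuous (v n)) → (∀ n, HasCompactSupport (v n)) → UIs v →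
        Tendsto (fun n => ∫ z, ψ z * (((θ n z : ℂ) * A n z - X n z) * v n z)) atTop (𝓝 0) := by
    intro ψ hψ hψc v cv vc uv
    exact pairT hψ.continuous hψc rfl (fun n => (sE n).continuous) cv vc (hE1 _ hψc) (hE2 _ hψc) uv
  -- bounds
  have ba : LBdd 2 univ (fun n z => (θ n z : ℂ) * A n z) := fun K' hK' _ => by
    obtain ⟨C, -, hC⟩ := bddU hK' (fun n => (sa n).continuous) ca hc.uA
    exact ⟨C, hC⟩
  have bb : LBdd 2 univ (fun n z => (θ n z : ℂ) * B n z) := fun K' hK' _ => by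
    obtain ⟨C, -, hC⟩ := bddU hK' (fun n => (sb n).continuous) cb hc.uB
    exact ⟨C, hC⟩
  have bg : LBdd 2 univ (fun n z => (θ n z : ℂ) * G n z) := fun K' hK' _ => by
    obtain ⟨C, -, hC⟩ := bddU hK' (fun n => (sg n).continuous) cg hc.uG
    exact ⟨C, hC⟩
  have be : LBdd 2 univ (fun n z => (θ n z : ℂ) * A n z - X n z) := fun K' hK' _ => hE1 K' hK'
  have bX : LBdd 2 univ X := by
    refine (ba.sub (fun n => (sa n).contDiffOn) be (fun n => (sE n).contDiffOn)).congr ?_
    intro n z _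
    ring
  have hR : ∀ n z, dz (fun z => (θ n z : ℂ) * B n z) z + dzb (X n) z = (θ n z : ℂ) * G n z := by
    intro n z
    have e1 : dzb (X n) z = dzb (cauchy (fun w => (θ n w : ℂ) * G n w)) z -
        dzb (beu (fun w => (θ n w : ℂ) * B n w)) z :=
      dzb_sub ((contDiff_cauchy (sg n) (cg n)).differentiable (by simp) z)
        ((sbeu n).differentiable (by simp) z)
    have e2 : dzb (beu (fun w => (θ n w : ℂ) * B n w)) z =
        dz (fun z => (θ n z : ℂ) * B n z) z := by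
      have e3 : dz (dzb (cauchy (fun w => (θ n w : ℂ) * B n w))) z =
          dzb (dz (cauchy (fun w => (θ n w : ℂ) * B n w))) z :=
        dz_dzb_comm ((contDiff_cauchy (sb n) (cb n)).contDiffAt.of_le (by norm_cast))
      have e4 : dzb (cauchy (fun w => (θ n w : ℂ) * B n w)) = fun w => (θ n w : ℂ) * B n w :=
        funext fun w => dzb_cauchy (sb n) (cb n) w
      rw [e4] at e3
      exact e3.symm
    rw [e1, e2, dzb_cauchy (sg n) (cg n)]
    ring
  have bR : LBdd 2 univ (fun n z => dz (fun z => (θ n z : ℂ) * B n z) z + dzb (X n) z) :=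
    bg.congr fun n z _ => (hR n z).symm
  -- weak limits
  have hcut : ∀ {Y : ℕ → ℂ → ℂ} {y : ℂ → ℂ}, (∀ n, ContDiff ℝ ∞ (Y n)) →
      (∀ n, tsupport (Y n) ⊆ K) →
      Tendsto (fun n => ∫ z, (1 - θ n z) * ‖Y n z‖) atTop (𝓝 0) →
      (∀ η : ℂ → ℂ, ContDiff ℝ ∞ η → HasCompactSupport η →
        Tendsto (fun n => ∫ z, η z * Y n z) atTop (𝓝 (∫ z, η z * y z))) →
      ∀ η : ℂ → ℂ, ContDiff ℝ ∞ η → HasCompactSupport η →
        Tendsto (fun n => ∫ z, η z * ((θ n z : ℂ) * Y n z)) atTop (𝓝 (∫ z, η z * y z)) := by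
    intro Y y sY kY tY wY η hη hηc
    obtain ⟨M, hM⟩ := hη.continuous.bounded_above_of_compact_support hηc
    have hM0 : 0 ≤ M := (norm_nonneg _).trans (hM 0)
    have h3 : Tendsto (fun n => ∫ z, η z * (((1 - θ n z : ℝ) : ℂ) * Y n z)) atTop (𝓝 0) := by
      have h4 : Tendsto (fun n => M * ∫ z, (1 - θ n z) * ‖Y n z‖) atTop (𝓝 0) := by
        have := tY.const_mul M
        rwa [mul_zero] at this
      refine squeeze_zero_norm (fun n => ?_) h4
      rw [← integral_const_mul]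
      have hint : Integrable (fun z => M * ((1 - θ n z) * ‖Y n z‖)) := by
        have hcont : Continuous (fun z => M * ((1 - θ n z) * ‖Y n z‖)) :=
          continuous_const.mul ((continuous_const.sub (hθ n).continuous).mul
            (sY n).continuous.norm)
        refine hcont.integrable_of_hasCompactSupport ?_
        have h5 : HasCompactSupport (fun z => ‖Y n z‖) := (kc (kY n)).norm
        exact (h5.mul_left).mul_left
      refine norm_integral_le_of_norm_le hint (Eventually.of_forall fun z => ?_)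
      have h5 : 0 ≤ 1 - θ n z := by linarith [(hθ1 n z).2]
      rw [norm_mul, norm_mul, Complex.norm_real, Real.norm_of_nonneg h5]
      exact mul_le_mul_of_nonneg_right (hM z) (mul_nonneg h5 (norm_nonneg _))
    have h4 := (wY η hη hηc).sub h3
    rw [sub_zero] at h4
    refine h4.congr fun n => ?_
    have i1 : Integrable (fun z => η z * Y n z) :=
      (hη.continuous.mul (sY n).continuous).integrable_of_hasCompactSupport hηc.mul_right
    have i2 : Integrable (fun z => η z * (((1 - θ n z : ℝ) : ℂ) * Y n z)) := by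
      have hcont : Continuous (fun z => η z * (((1 - θ n z : ℝ) : ℂ) * Y n z)) :=
        hη.continuous.mul ((Complex.continuous_ofReal.comp
          (continuous_const.sub (hθ n).continuous)).mul (sY n).continuous)
      exact hcont.integrable_of_hasCompactSupport hηc.mul_right
    rw [← integral_sub i1 i2]
    refine integral_congr_ae (Eventually.of_forall fun z => ?_)
    simp only
    push_cast
    ring
  have loc : ∀ {y : ℂ → ℂ}, MemLp y 2 (volume : Measure ℂ) → LocL2 univ y := fun h _ _ _ =>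
    h.restrict _
  have tb : TLim univ (fun n z => (θ n z : ℂ) * B n z) b :=
    ⟨loc hc.lb, fun η hη => hcut hc.sB hc.kB hc.tB hc.wB η hη.smooth hη.supp⟩
  have tX : TLim univ X a := by
    refine ⟨loc hc.la, fun η hη => ?_⟩
    have h3 := hcut hc.sA hc.kA hc.tA hc.wA η hη.smooth hη.supp
    obtain ⟨χ, hχ, hχ1, -⟩ := exists_cutoff isOpen_univ (hη.supp : IsCompact (tsupport η)) hη.sub
    have h4 := hpair η hη.smooth hη.supp (fun _ => χ) (fun _ => hχ.smooth.continuous)
      (fun _ => hχ.supp) (uis_const hχ.smooth.continuous hχ.supp)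
    have h5 := h3.sub h4
    rw [sub_zero] at h5
    refine h5.congr fun n => ?_
    have i1 : Integrable (fun z => η z * ((θ n z : ℂ) * A n z)) :=
      (hη.smooth.continuous.mul (sa n).continuous).integrable_of_hasCompactSupport
        hη.supp.mul_right
    have i2 : Integrable (fun z => η z * (((θ n z : ℂ) * A n z - X n z) * χ z)) :=
      (hη.smooth.continuous.mul ((sE n).continuous.mul
        hχ.smooth.continuous)).integrable_of_hasCompactSupport hη.supp.mul_right
    rw [← integral_sub i1 i2]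
    refine integral_congr_ae (Eventually.of_forall fun z => ?_)
    simp only
    by_cases hz : z ∈ tsupport η
    · have h6 : χ z = 1 := (hχ1 z hz).self_of_nhds
      rw [h6]
      ring
    · rw [image_eq_zero_of_notMem_tsupport hz]
      ring
  exact ⟨X, sX, bX, bb, bR, tX.wlim isOpen_univ (fun n => (sX n).contDiffOn) bX,
    tb.wlim isOpen_univ (fun n => (sb n).contDiffOn) bb, hpair⟩

end TDC

open TDC in
theorem tDC (_h1 : StmtBL2) (h2 : StmtERR) : StmtTDC := by
  intro K θ A B G A' B' G' a b a' b' hK hθ hθ1 hc hc' ψ hψ hψc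
  obtain ⟨X, sX, bX, bb, bR, wX, wb, hE⟩ := half h2 hK hθ hθ1 hc
  obtain ⟨X', sX', bX', bb', bR', wX', wb', hE'⟩ := half h2 hK hθ hθ1 hc'
  have sθ : ∀ n, ContDiff ℝ ∞ (fun z => (θ n z : ℂ)) := fun n =>
    Complex.ofRealCLM.contDiff.comp (hθ n)
  have sa : ∀ n, ContDiff ℝ ∞ (fun z => (θ n z : ℂ) * A n z) := fun n => (sθ n).mul (hc.sA n)
  have sb : ∀ n, ContDiff ℝ ∞ (fun z => (θ n z : ℂ) * B n z) := fun n => (sθ n).mul (hc.sB n)
  have sa' : ∀ n, ContDiff ℝ ∞ (fun z => (θ n z : ℂ) * A' n z) := fun n => (sθ n).mul (hc'.sA n)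
  have sb' : ∀ n, ContDiff ℝ ∞ (fun z => (θ n z : ℂ) * B' n z) := fun n => (sθ n).mul (hc'.sB n)
  have kc : ∀ {Y : ℂ → ℂ}, tsupport Y ⊆ K → HasCompactSupport Y := fun h =>
    hK.of_isClosed_subset (isClosed_tsupport _) h
  have cb : ∀ n, HasCompactSupport (fun z => (θ n z : ℂ) * B n z) := fun n =>
    (kc (hc.kB n)).mul_left
  have cb' : ∀ n, HasCompactSupport (fun z => (θ n z : ℂ) * B' n z) := fun n =>
    (kc (hc'.kB n)).mul_left
  have tψ : Test univ ψ := ⟨hψ, hψc, subset_univ _⟩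
  have loc : ∀ {y : ℂ → ℂ}, MemLp y 2 (volume : Measure ℂ) → LocL2 univ y := fun h _ _ _ =>
    h.restrict _
  have main := div_curl_gen isOpen_univ (fun n => (sb n).contDiffOn) (fun n => (sX n).contDiffOn)
    (fun n => (sb' n).contDiffOn) (fun n => (sX' n).contDiffOn) bb bX bb' bX' bR bR'
    (loc hc.lb) (loc hc.la) (loc hc'.lb) (loc hc'.la) wb wX wb' wX' tψ
  have e1 := hE ψ hψ hψc (fun n z => (θ n z : ℂ) * B' n z) (fun n => (sb' n).continuous) cb' hc'.uB
  have e2 := hE' ψ hψ hψc (fun n z => (θ n z : ℂ) * B n z) (fun n => (sb n).continuous) cb hc.uB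
  have hlim := (main.neg.add e1).sub e2
  rw [add_zero, sub_zero] at hlim
  have hval : -(∫ w, ψ w * (b w * a' w - a w * b' w)) = ∫ z, ψ z * (a z * b' z - b z * a' z) := by
    rw [← integral_neg]
    refine integral_congr_ae (Eventually.of_forall fun z => ?_)
    simp only
    ring
  rw [hval] at hlim
  refine hlim.congr fun n => ?_
  have i1 : Integrable (fun w => ψ w * ((θ n w : ℂ) * B n w * X' n w -
      X n w * ((θ n w : ℂ) * B' n w))) :=
    (hψ.continuous.mul (((sb n).continuous.mul (sX' n).continuous).sub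
      ((sX n).continuous.mul (sb' n).continuous))).integrable_of_hasCompactSupport hψc.mul_right
  have i2 : Integrable (fun z => ψ z * (((θ n z : ℂ) * A n z - X n z) *
      ((θ n z : ℂ) * B' n z))) :=
    (hψ.continuous.mul (((sa n).continuous.sub (sX n).continuous).mul
      (sb' n).continuous)).integrable_of_hasCompactSupport hψc.mul_right
  have i3 : Integrable (fun z => ψ z * (((θ n z : ℂ) * A' n z - X' n z) *
      ((θ n z : ℂ) * B n z))) :=
    (hψ.continuous.mul (((sa' n).continuous.sub (sX' n).continuous).mul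
      (sb n).continuous)).integrable_of_hasCompactSupport hψc.mul_right
  have i1n : Integrable (fun w => -(ψ w * ((θ n w : ℂ) * B n w * X' n w -
      X n w * ((θ n w : ℂ) * B' n w)))) := i1.neg
  have i12 : Integrable (fun w => -(ψ w * ((θ n w : ℂ) * B n w * X' n w -
      X n w * ((θ n w : ℂ) * B' n w))) + ψ w * (((θ n w : ℂ) * A n w - X n w) *
      ((θ n w : ℂ) * B' n w))) := i1n.add i2
  rw [← integral_neg, ← integral_add i1n i2, ← integral_sub i12 i3]
  refine integral_congr_ae (Eventually.of_forall fun z => ?_)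
  simp only
  ring

end

end BSL
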