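import Pool.Agent.BSL.St2

/-!
# UIA: uniform integrability and convergence in law
-/

open MeasureTheory Filter Topology Set

namespace BSL.UIA

noncomputable section

/-- truncation -/
def chi (k t : ℝ) : ℝ := max (-k) (min t k)

lemma chi_cont (k : ℝ) : Continuous (chi k) :=
  continuous_const.max (continuous_id.min continuous_const)

lemma abs_chi_le {k : ℝ} (hk : 0 ≤ k) (t : ℝ) : |chi k t| ≤ k := by
  unfold chi
  rw [abs_le]
  exact ⟨le_max_left _ _, max_le (by linarith) (min_le_right _ _)⟩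

lemma chi_eq {k t : ℝ} (h : |t| ≤ k) : chi k t = t := by
  unfold chi
  rw [abs_le] at h
  rw [min_eq_left h.2, max_eq_right h.1]

lemma abs_sub_chi_le {k : ℝ} (hk : 0 ≤ k) (t : ℝ) : |t - chi k t| ≤ |t| := by
  rcases le_total |t| k with h | h
  · rw [chi_eq h]
    simp
  · unfold chi
    rcases le_total 0 t with ht | ht
    · rw [abs_of_nonneg ht] at h ⊢
      rw [min_eq_right h, max_eq_right (by linarith), abs_of_nonneg (by linarith)]
      linarith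
    · rw [abs_of_nonpos ht] at h ⊢
      rw [min_eq_left (by linarith), max_eq_left (by linarith), abs_of_nonpos (by linarith)]
      linarith

lemma abs_chi_le_abs {k : ℝ} (hk : 0 ≤ k) (t : ℝ) : |chi k t| ≤ |t| := by
  rcases le_total |t| k with h | h
  · rw [chi_eq h]
  · exact (abs_chi_le hk t).trans h

lemma pw1 {A l θ M Q : ℝ} {e : ℕ} (he : e = 1 ∨ e = 2) (hA : 1 ≤ A) (hl : 1 ≤ l) (hθ0 : 0 ≤ θ)
    (hM : 1 ≤ M) (hQ : Q ^ 2 ≤ A * M ^ (e + 2)) :
    θ ^ e * |Q| ≤ A * (l * (θ * M) ^ 2 + M / l) := by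
  have hl0 : 0 < l := by linarith
  have hx : 0 ≤ l * (θ * M) ^ 2 := by positivity
  have hy : 0 ≤ M / l := by positivity
  have hv : 0 ≤ A * (l * (θ * M) ^ 2 + M / l) := by positivity
  have hu : 0 ≤ θ ^ e * |Q| := by positivity
  have key : (θ ^ e * |Q|) ^ 2 ≤ (A * (l * (θ * M) ^ 2 + M / l)) ^ 2 := by
    rcases he with rfl | rfl
    · have h1 : (l * (θ * M) ^ 2) * (M / l) = θ ^ 2 * M ^ 3 := by
        field_simp
      have h2 : 4 * (θ ^ 2 * M ^ 3) ≤ (l * (θ * M) ^ 2 + M / l) ^ 2 := by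
        rw [← h1]
        nlinarith [sq_nonneg (l * (θ * M) ^ 2 - M / l)]
      have h3 : (θ ^ 1 * |Q|) ^ 2 = θ ^ 2 * Q ^ 2 := by
        rw [mul_pow, sq_abs, pow_one]
      rw [h3, mul_pow]
      have h4 : θ ^ 2 * Q ^ 2 ≤ θ ^ 2 * (A * M ^ 3) :=
        mul_le_mul_of_nonneg_left hQ (by positivity)
      have h5 : 0 ≤ θ ^ 2 * M ^ 3 := by positivity
      have h6 : A * (θ ^ 2 * M ^ 3) ≤ A ^ 2 * (θ ^ 2 * M ^ 3) :=
        mul_le_mul_of_nonneg_right (by nlinarith) h5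
      have h7 : A ^ 2 * (θ ^ 2 * M ^ 3) ≤ A ^ 2 * (l * (θ * M) ^ 2 + M / l) ^ 2 :=
        mul_le_mul_of_nonneg_left (by linarith) (by positivity)
      calc θ ^ 2 * Q ^ 2 ≤ θ ^ 2 * (A * M ^ 3) := h4
        _ = A * (θ ^ 2 * M ^ 3) := by ring
        _ ≤ A ^ 2 * (θ ^ 2 * M ^ 3) := h6
        _ ≤ _ := h7
    · have h3 : (θ ^ 2 * |Q|) ^ 2 = θ ^ 4 * Q ^ 2 := by
        rw [mul_pow, sq_abs, ← pow_mul]
      have h4 : θ ^ 4 * Q ^ 2 ≤ θ ^ 4 * (A * M ^ 4) :=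
        mul_le_mul_of_nonneg_left hQ (by positivity)
      have h5 : A * (θ * M) ^ 2 ≤ A * (l * (θ * M) ^ 2 + M / l) := by
        apply mul_le_mul_of_nonneg_left _ (by linarith)
        have : (θ * M) ^ 2 ≤ l * (θ * M) ^ 2 := by
          nlinarith [sq_nonneg (θ * M)]
        linarith
      have h6 : (A * (θ * M) ^ 2) ^ 2 ≤ (A * (l * (θ * M) ^ 2 + M / l)) ^ 2 :=
        pow_le_pow_left₀ (by positivity) h5 2
      have h7 : θ ^ 4 * (A * M ^ 4) ≤ (A * (θ * M) ^ 2) ^ 2 := by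
        have h8 : 0 ≤ θ ^ 4 * M ^ 4 := by positivity
        have h9 : A * (θ ^ 4 * M ^ 4) ≤ A ^ 2 * (θ ^ 4 * M ^ 4) :=
          mul_le_mul_of_nonneg_right (by nlinarith) h8
        calc θ ^ 4 * (A * M ^ 4) = A * (θ ^ 4 * M ^ 4) := by ring
          _ ≤ A ^ 2 * (θ ^ 4 * M ^ 4) := h9
          _ = (A * (θ * M) ^ 2) ^ 2 := by ring
      rw [h3]
      linarith
  exact (pow_le_pow_iff_left₀ hu hv two_ne_zero).mp key

lemma pw2 {A M Q c k : ℝ} {e : ℕ} (he : e = 1 ∨ e = 2) (hA : 1 ≤ A) (hM : 1 ≤ M) (hc : 1 ≤ c)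
    (hk : A * c ^ 2 ≤ k) (hQ : Q ^ 2 ≤ A * M ^ (e + 2)) (hQk : k < |Q|) : c ≤ M := by
  by_contra h
  push Not at h
  have h1 : M ^ (e + 2) ≤ M ^ 4 := by
    apply pow_le_pow_right₀ hM
    rcases he with rfl | rfl <;> norm_num
  have h2 : M ^ 4 ≤ c ^ 4 := pow_le_pow_left₀ (by linarith) h.le 4
  have h3 : A * M ^ (e + 2) ≤ A * c ^ 4 :=
    mul_le_mul_of_nonneg_left (h1.trans h2) (by linarith)
  have h4 : A * c ^ 4 ≤ (A * c ^ 2) ^ 2 := by
    have h5 : 0 ≤ c ^ 4 := by positivity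
    nlinarith [mul_le_mul_of_nonneg_right (show A ≤ A ^ 2 by nlinarith) h5]
  have h5 : (A * c ^ 2) ^ 2 ≤ k ^ 2 := pow_le_pow_left₀ (by positivity) hk 2
  have hk0 : 0 ≤ k := le_trans (by positivity) hk
  have h6 : k ^ 2 < |Q| ^ 2 := pow_lt_pow_left₀ hQk hk0 two_ne_zero
  rw [sq_abs] at h6
  linarith

lemma pw3 {θ : ℝ} {e : ℕ} (he : e = 1 ∨ e = 2) (h0 : 0 ≤ θ) (h1 : θ ≤ 1) :
    0 ≤ θ ^ e ∧ θ ^ e ≤ 1 ∧ 1 - θ ^ e ≤ 2 * (1 - θ) := by
  refine ⟨by positivity, pow_le_one₀ h0 h1, ?_⟩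
  rcases he with rfl | rfl
  · rw [pow_one]
    linarith
  · nlinarith [sq_nonneg (1 - θ)]

/-- the pointwise inequality for the tails -/
lemma pw4 {A B l T c k ζ θ M Q : ℝ} {e : ℕ} (he : e = 1 ∨ e = 2) (hA : 1 ≤ A) (hB : 0 ≤ B)
    (hl : 1 ≤ l) (hc : 1 ≤ c) (hk : A * c ^ 2 ≤ k) (hζ0 : 0 ≤ ζ) (hζ1 : ζ ≤ B) (hθ0 : 0 ≤ θ)
    (hθ1 : θ ≤ 1) (hM : 1 ≤ M) (hQ : ζ ≠ 0 → Q ^ 2 ≤ A * M ^ (e + 2)) :
    |ζ * (θ ^ e * Q) - ζ * chi k Q| ≤
      B * A * (l * (T ^ 2 * (M / c) + (if T < θ * M then (θ * M) ^ 2 else 0)) + M / l) +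
        2 * B * k * ((1 - θ) * M) := by
  have hk0 : 0 ≤ k := le_trans (by positivity) hk
  have hl0 : 0 < l := by linarith
  have hc0 : 0 < c := by linarith
  obtain ⟨h1, h2, h3⟩ := pw3 he hθ0 hθ1
  set g := (if T < θ * M then (θ * M) ^ 2 else 0) with hg
  have hg0 : 0 ≤ g := by
    rw [hg]
    split_ifs
    · positivity
    · exact le_rfl
  have hR1 : 0 ≤ B * A * (l * (T ^ 2 * (M / c) + g) + M / l) := by positivity
  have hR2 : 0 ≤ 2 * B * k * ((1 - θ) * M) := by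
    have : 0 ≤ 1 - θ := by linarith
    positivity
  have e1 : ζ * (θ ^ e * Q) - ζ * chi k Q =
      ζ * θ ^ e * (Q - chi k Q) - ζ * (1 - θ ^ e) * chi k Q := by ring
  have e2 : |ζ * (1 - θ ^ e) * chi k Q| ≤ 2 * B * k * ((1 - θ) * M) := by
    rw [abs_mul, abs_of_nonneg (mul_nonneg hζ0 (by linarith))]
    have h4 : ζ * (1 - θ ^ e) ≤ B * (2 * (1 - θ)) :=
      mul_le_mul hζ1 h3 (by linarith) hB
    have h5 : B * (2 * (1 - θ)) ≤ B * (2 * (1 - θ)) * M := by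
      have h6 : 0 ≤ B * (2 * (1 - θ)) := mul_nonneg hB (by linarith)
      nlinarith
    have h7 : 0 ≤ B * (2 * (1 - θ)) * M :=
      mul_nonneg (mul_nonneg hB (by linarith)) (by linarith)
    calc ζ * (1 - θ ^ e) * |chi k Q| ≤ (B * (2 * (1 - θ)) * M) * k :=
          mul_le_mul (h4.trans h5) (abs_chi_le hk0 Q) (abs_nonneg _) h7
      _ = 2 * B * k * ((1 - θ) * M) := by ring
  have e3 : |ζ * θ ^ e * (Q - chi k Q)| ≤ B * A * (l * (T ^ 2 * (M / c) + g) + M / l) := by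
    rcases eq_or_ne ζ 0 with hz | hz
    · rw [hz]
      simpa using hR1
    · rcases le_or_gt |Q| k with hQk | hQk
      · rw [chi_eq hQk]
        simpa using hR1
      · have hcM := pw2 he hA hM hc hk (hQ hz) hQk
        have h4 := pw1 he hA hl hθ0 hM (hQ hz)
        have h5 : (θ * M) ^ 2 ≤ T ^ 2 * (M / c) + g := by
          have h6 : 1 ≤ M / c := by rw [le_div_iff₀ hc0]; linarith
          rw [hg]
          split_ifs with hT
          · have : 0 ≤ T ^ 2 * (M / c) := by positivity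
            linarith
          · have h7 : (θ * M) ^ 2 ≤ T ^ 2 :=
              pow_le_pow_left₀ (by positivity) (not_lt.mp hT) 2
            nlinarith [sq_nonneg T]
        rw [abs_mul, abs_of_nonneg (mul_nonneg hζ0 h1)]
        calc ζ * θ ^ e * |Q - chi k Q| ≤ ζ * θ ^ e * |Q| :=
              mul_le_mul_of_nonneg_left (abs_sub_chi_le hk0 Q) (mul_nonneg hζ0 h1)
          _ = ζ * (θ ^ e * |Q|) := by ring
          _ ≤ B * (A * (l * (θ * M) ^ 2 + M / l)) :=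
              mul_le_mul hζ1 h4 (by positivity) hB
          _ = B * A * (l * (θ * M) ^ 2 + M / l) := by ring
          _ ≤ B * A * (l * (T ^ 2 * (M / c) + g) + M / l) := by
              apply mul_le_mul_of_nonneg_left _ (by positivity)
              have := mul_le_mul_of_nonneg_left h5 hl0.le
              linarith
  rw [e1]
  calc |ζ * θ ^ e * (Q - chi k Q) - ζ * (1 - θ ^ e) * chi k Q|
      ≤ |ζ * θ ^ e * (Q - chi k Q)| + |ζ * (1 - θ ^ e) * chi k Q| := abs_sub _ _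
    _ ≤ _ := add_le_add e3 e2

/-- the pointwise inequality for the absolute values -/
lemma pw5 {A B T k ζ θ M Q : ℝ} {e : ℕ} (he : e = 1 ∨ e = 2) (hA : 1 ≤ A) (hB : 0 ≤ B)
    (hk : 0 ≤ k) (hζ0 : 0 ≤ ζ) (hζ1 : ζ ≤ B) (hθ0 : 0 ≤ θ)
    (hθ1 : θ ≤ 1) (hM : 1 ≤ M) (hQ : ζ ≠ 0 → Q ^ 2 ≤ A * M ^ (e + 2)) :
    ζ * |chi k Q| ≤
      B * A * ((T ^ 2 + (if T < θ * M then (θ * M) ^ 2 else 0)) + M) +
        2 * B * k * ((1 - θ) * M) := by
  obtain ⟨h1, h2, h3⟩ := pw3 he hθ0 hθ1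
  set g := (if T < θ * M then (θ * M) ^ 2 else 0) with hg
  have hg0 : 0 ≤ g := by
    rw [hg]
    split_ifs
    · positivity
    · exact le_rfl
  have hR1 : 0 ≤ B * A * ((T ^ 2 + g) + M) := by positivity
  have e1 : ζ * |chi k Q| = ζ * (θ ^ e * |chi k Q|) + ζ * (1 - θ ^ e) * |chi k Q| := by ring
  have e2 : ζ * (1 - θ ^ e) * |chi k Q| ≤ 2 * B * k * ((1 - θ) * M) := by
    have h4 : ζ * (1 - θ ^ e) ≤ B * (2 * (1 - θ)) :=
      mul_le_mul hζ1 h3 (by linarith) hB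
    have h5 : B * (2 * (1 - θ)) ≤ B * (2 * (1 - θ)) * M := by
      have h6 : 0 ≤ B * (2 * (1 - θ)) := mul_nonneg hB (by linarith)
      nlinarith
    have h7 : 0 ≤ B * (2 * (1 - θ)) * M :=
      mul_nonneg (mul_nonneg hB (by linarith)) (by linarith)
    calc ζ * (1 - θ ^ e) * |chi k Q| ≤ (B * (2 * (1 - θ)) * M) * k :=
          mul_le_mul (h4.trans h5) (abs_chi_le hk Q) (abs_nonneg _) h7
      _ = 2 * B * k * ((1 - θ) * M) := by ring
  have e3 : ζ * (θ ^ e * |chi k Q|) ≤ B * A * ((T ^ 2 + g) + M) := by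
    rcases eq_or_ne ζ 0 with hz | hz
    · rw [hz]
      simpa using hR1
    · have h4 := pw1 he hA le_rfl hθ0 hM (hQ hz)
      rw [one_mul, div_one] at h4
      have h5 : (θ * M) ^ 2 ≤ T ^ 2 + g := by
        rw [hg]
        split_ifs with hT
        · nlinarith [sq_nonneg T]
        · have h7 : (θ * M) ^ 2 ≤ T ^ 2 :=
            pow_le_pow_left₀ (by positivity) (not_lt.mp hT) 2
          linarith
      calc ζ * (θ ^ e * |chi k Q|) ≤ ζ * (θ ^ e * |Q|) := by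
            apply mul_le_mul_of_nonneg_left _ hζ0
            exact mul_le_mul_of_nonneg_left (abs_chi_le_abs hk Q) h1
        _ ≤ B * (A * ((θ * M) ^ 2 + M)) := mul_le_mul hζ1 h4 (by positivity) hB
        _ = B * A * ((θ * M) ^ 2 + M) := by ring
        _ ≤ B * A * ((T ^ 2 + g) + M) := by
            apply mul_le_mul_of_nonneg_left _ (by positivity)
            linarith
  rw [e1]
  exact add_le_add e3 e2


section Main

variable {X : Type} [MeasurableSpace X] {ν : Measure X} [IsFiniteMeasure ν]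

lemma int_bdd {f : X → ℝ} (hf : Measurable f) {b : ℝ} (hb : ∀ᵐ x ∂ν, |f x| ≤ b) :
    Integrable f ν :=
  Integrable.of_bound hf.aestronglyMeasurable b (by simpa [Real.norm_eq_abs] using hb)

/-- the data for one index -/
structure Dat (ν : Measure X) (A B C' : ℝ) (e : ℕ) (ζ θ M Q : X → ℝ) : Prop where
  he : e = 1 ∨ e = 2
  hA : 1 ≤ A
  hB : 0 ≤ B
  mζ : Measurable ζ
  mθ : Measurable θ
  mM : Measurable M
  mQ : Measurable Q
  ζ0 : ∀ x, 0 ≤ ζ x
  ζ1 : ∀ x, ζ x ≤ B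
  θ0 : ∀ x, 0 ≤ θ x
  θ1 : ∀ x, θ x ≤ 1
  M1 : ∀ x, 1 ≤ M x
  Mb : ∃ b : ℝ, ∀ᵐ x ∂ν, M x ≤ b
  MC : ∫ x, M x ∂ν ≤ C'
  dom : ∀ᵐ x ∂ν, ζ x ≠ 0 → Q x ^ 2 ≤ A * M x ^ (e + 2)

variable {A B C' : ℝ} {e : ℕ} {ζ θ M Q : X → ℝ}

lemma Dat.intM (D : Dat ν A B C' e ζ θ M Q) : Integrable M ν := by
  obtain ⟨b, hb⟩ := D.Mb
  refine int_bdd D.mM (b := b) ?_
  filter_upwards [hb] with x hx
  rw [abs_of_nonneg (by linarith [D.M1 x])]
  exact hx

lemma Dat.intd (D : Dat ν A B C' e ζ θ M Q) : Integrable (fun x => (1 - θ x) * M x) ν := by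
  obtain ⟨b, hb⟩ := D.Mb
  refine int_bdd ((measurable_const.sub D.mθ).mul D.mM) (b := b) ?_
  filter_upwards [hb] with x hx
  have h1 := D.θ0 x
  have h2 := D.θ1 x
  have h3 := D.M1 x
  rw [abs_of_nonneg (mul_nonneg (by linarith) (by linarith))]
  nlinarith

omit [IsFiniteMeasure ν] in
lemma Dat.mg (D : Dat ν A B C' e ζ θ M Q) (T : ℝ) :
    Measurable (fun x => if T < θ x * M x then (θ x * M x) ^ 2 else 0) :=
  Measurable.ite (measurableSet_lt measurable_const (D.mθ.mul D.mM))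
    ((D.mθ.mul D.mM).pow_const 2) measurable_const

lemma Dat.intg (D : Dat ν A B C' e ζ θ M Q) (T : ℝ) :
    Integrable (fun x => if T < θ x * M x then (θ x * M x) ^ 2 else 0) ν := by
  obtain ⟨b, hb⟩ := D.Mb
  refine int_bdd (D.mg T) (b := b ^ 2) ?_
  filter_upwards [hb] with x hx
  have h1 := D.θ0 x
  have h2 := D.θ1 x
  have h3 := D.M1 x
  have h4 : θ x * M x ≤ b := by nlinarith
  have h5 : 0 ≤ θ x * M x := mul_nonneg h1 (by linarith)
  split_ifs
  · rw [abs_of_nonneg (by positivity)]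
    exact pow_le_pow_left₀ h5 h4 2
  · rw [abs_zero]
    positivity

lemma Dat.intQ (D : Dat ν A B C' e ζ θ M Q) :
    Integrable (fun x => ζ x * (θ x ^ e * Q x)) ν := by
  obtain ⟨b, hb⟩ := D.Mb
  refine int_bdd (D.mζ.mul ((D.mθ.pow_const e).mul D.mQ)) (b := B * (A * (b ^ 2 + b))) ?_
  filter_upwards [hb, D.dom] with x hx hd
  have h1 := D.θ0 x
  have h2 := D.θ1 x
  have h3 := D.M1 x
  have hA := D.hA
  have hB := D.hB
  have hb0 : 0 ≤ b := by linarith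
  rcases eq_or_ne (ζ x) 0 with hz | hz
  · rw [hz]
    simp only [zero_mul, abs_zero]
    positivity
  · have h4 := pw1 D.he D.hA le_rfl h1 h3 (hd hz)
    rw [one_mul, div_one] at h4
    have h5 : θ x * M x ≤ b := by nlinarith
    have h6 : (θ x * M x) ^ 2 ≤ b ^ 2 :=
      pow_le_pow_left₀ (mul_nonneg h1 (by linarith)) h5 2
    rw [abs_mul, abs_of_nonneg (D.ζ0 x), abs_mul, abs_of_nonneg (by positivity : 0 ≤ θ x ^ e)]
    apply mul_le_mul (D.ζ1 x) _ (by positivity) hB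
    refine h4.trans (mul_le_mul_of_nonneg_left (by linarith) (by linarith))

lemma Dat.intchi (D : Dat ν A B C' e ζ θ M Q) {k : ℝ} (hk : 0 ≤ k) :
    Integrable (fun x => ζ x * chi k (Q x)) ν := by
  refine int_bdd (D.mζ.mul ((chi_cont k).measurable.comp D.mQ)) (b := B * k) ?_
  refine Eventually.of_forall fun x => ?_
  have hB := D.hB
  rw [abs_mul, abs_of_nonneg (D.ζ0 x)]
  exact mul_le_mul (D.ζ1 x) (abs_chi_le hk _) (abs_nonneg _) hB

lemma Dat.intachi (D : Dat ν A B C' e ζ θ M Q) {k : ℝ} (hk : 0 ≤ k) :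
    Integrable (fun x => ζ x * |chi k (Q x)|) ν := by
  refine int_bdd (D.mζ.mul (((chi_cont k).abs).measurable.comp D.mQ)) (b := B * k) ?_
  refine Eventually.of_forall fun x => ?_
  have hB := D.hB
  rw [abs_mul, abs_of_nonneg (D.ζ0 x), abs_abs]
  exact mul_le_mul (D.ζ1 x) (abs_chi_le hk _) (abs_nonneg _) hB

/-- the tail for one index -/
lemma Dat.tail (D : Dat ν A B C' e ζ θ M Q) {l T c k ε₁ : ℝ} (hl : 1 ≤ l) (hc : 1 ≤ c)
    (hk : A * c ^ 2 ≤ k)
    (hT : ∫ x, (if T < θ x * M x then (θ x * M x) ^ 2 else 0) ∂ν ≤ ε₁) :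
    |(∫ x, ζ x * (θ x ^ e * Q x) ∂ν) - ∫ x, ζ x * chi k (Q x) ∂ν| ≤
      B * A * (l * (T ^ 2 * (C' / c) + ε₁) + C' / l) +
        2 * B * k * ∫ x, (1 - θ x) * M x ∂ν := by
  have hA := D.hA
  have hB := D.hB
  have hk0 : 0 ≤ k := le_trans (by positivity) hk
  have hl0 : 0 < l := by linarith
  have hc0 : 0 < c := by linarith
  rw [← integral_sub D.intQ (D.intchi hk0)]
  have hI1 : Integrable (fun x => B * A * (l * (T ^ 2 * (M x / c) +
      (if T < θ x * M x then (θ x * M x) ^ 2 else 0)) + M x / l)) ν :=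
    ((((D.intM.div_const c).const_mul (T ^ 2)).add (D.intg T)).const_mul l).add
      (D.intM.div_const l) |>.const_mul (B * A)
  have hI2 : Integrable (fun x => 2 * B * k * ((1 - θ x) * M x)) ν := D.intd.const_mul _
  have h1 : |∫ x, (ζ x * (θ x ^ e * Q x) - ζ x * chi k (Q x)) ∂ν| ≤
      ∫ x, (B * A * (l * (T ^ 2 * (M x / c) +
        (if T < θ x * M x then (θ x * M x) ^ 2 else 0)) + M x / l) +
          2 * B * k * ((1 - θ x) * M x)) ∂ν := by
    rw [← Real.norm_eq_abs]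
    refine norm_integral_le_of_norm_le (hI1.add hI2) ?_
    filter_upwards [D.dom] with x hx
    rw [Real.norm_eq_abs]
    exact pw4 D.he hA hB hl hc hk (D.ζ0 x) (D.ζ1 x) (D.θ0 x) (D.θ1 x) (D.M1 x) hx
  refine h1.trans ?_
  rw [integral_add hI1 hI2, integral_const_mul, integral_const_mul]
  have h2 : ∫ x, (l * (T ^ 2 * (M x / c) +
        (if T < θ x * M x then (θ x * M x) ^ 2 else 0)) + M x / l) ∂ν =
      l * (T ^ 2 * ((∫ x, M x ∂ν) / c) +
        ∫ x, (if T < θ x * M x then (θ x * M x) ^ 2 else 0) ∂ν) + (∫ x, M x ∂ν) / l := by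
    have hJ0 : Integrable (fun x => T ^ 2 * (M x / c)) ν :=
      (D.intM.div_const c).const_mul (T ^ 2)
    have hJ1 : Integrable (fun x => T ^ 2 * (M x / c) +
        (if T < θ x * M x then (θ x * M x) ^ 2 else 0)) ν := hJ0.add (D.intg T)
    have hJ2 : Integrable (fun x => l * (T ^ 2 * (M x / c) +
        (if T < θ x * M x then (θ x * M x) ^ 2 else 0))) ν := hJ1.const_mul l
    rw [integral_add hJ2 (D.intM.div_const l), integral_const_mul,
      integral_add hJ0 (D.intg T), integral_const_mul, integral_div, integral_div]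
  rw [h2]
  have h3 : l * (T ^ 2 * ((∫ x, M x ∂ν) / c) +
        ∫ x, (if T < θ x * M x then (θ x * M x) ^ 2 else 0) ∂ν) + (∫ x, M x ∂ν) / l ≤
      l * (T ^ 2 * (C' / c) + ε₁) + C' / l := by
    have h4 : (∫ x, M x ∂ν) / c ≤ C' / c := div_le_div_of_nonneg_right D.MC hc0.le
    have h5 : (∫ x, M x ∂ν) / l ≤ C' / l := div_le_div_of_nonneg_right D.MC hl0.le
    have h6 : T ^ 2 * ((∫ x, M x ∂ν) / c) ≤ T ^ 2 * (C' / c) :=
      mul_le_mul_of_nonneg_left h4 (sq_nonneg T)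
    have h7 := mul_le_mul_of_nonneg_left (add_le_add h6 hT) hl0.le
    linarith
  have h8 := mul_le_mul_of_nonneg_left h3 (mul_nonneg hB (by linarith : (0 : ℝ) ≤ A))
  linarith

/-- the absolute values for one index -/
lemma Dat.absb (D : Dat ν A B C' e ζ θ M Q) {T k ε₁ : ℝ} (hk : 0 ≤ k)
    (hT : ∫ x, (if T < θ x * M x then (θ x * M x) ^ 2 else 0) ∂ν ≤ ε₁) :
    ∫ x, ζ x * |chi k (Q x)| ∂ν ≤
      B * A * ((T ^ 2 * ν.real univ + ε₁) + C') + 2 * B * k * ∫ x, (1 - θ x) * M x ∂ν := by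
  have hA := D.hA
  have hB := D.hB
  have hI0 : Integrable (fun x => T ^ 2 + (if T < θ x * M x then (θ x * M x) ^ 2 else 0)) ν :=
    (integrable_const (T ^ 2)).add (D.intg T)
  have hI1 : Integrable (fun x => B * A * ((T ^ 2 +
      (if T < θ x * M x then (θ x * M x) ^ 2 else 0)) + M x)) ν :=
    (hI0.add D.intM).const_mul (B * A)
  have hI2 : Integrable (fun x => 2 * B * k * ((1 - θ x) * M x)) ν := D.intd.const_mul _
  have h1 : ∫ x, ζ x * |chi k (Q x)| ∂ν ≤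
      ∫ x, (B * A * ((T ^ 2 + (if T < θ x * M x then (θ x * M x) ^ 2 else 0)) + M x) +
          2 * B * k * ((1 - θ x) * M x)) ∂ν := by
    refine integral_mono_ae (D.intachi hk) (hI1.add hI2) ?_
    filter_upwards [D.dom] with x hx
    exact pw5 D.he hA hB hk (D.ζ0 x) (D.ζ1 x) (D.θ0 x) (D.θ1 x) (D.M1 x) hx
  refine h1.trans ?_
  rw [integral_add hI1 hI2, integral_const_mul, integral_const_mul, integral_add hI0 D.intM,
    integral_add (integrable_const _) (D.intg T), integral_const, smul_eq_mul]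
  have h3 : ν.real univ * T ^ 2 +
        (∫ x, (if T < θ x * M x then (θ x * M x) ^ 2 else 0) ∂ν) + ∫ x, M x ∂ν ≤
      (T ^ 2 * ν.real univ + ε₁) + C' := by
    have := D.MC
    linarith [mul_comm (ν.real univ) (T ^ 2)]
  have h8 := mul_le_mul_of_nonneg_left h3 (mul_nonneg hB (by linarith : (0 : ℝ) ≤ A))
  linarith

end Main

section Omega

variable {Ω : Type} [MeasurableSpace Ω] {P : Measure Ω} [IsProbabilityMeasure P]

lemma int_of_trunc {q : Ω → ℝ} (hq : Measurable q) {K : ℝ}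
    (h : ∀ k : ℕ, ∫ o, |chi k (q o)| ∂P ≤ K) : Integrable q P := by
  refine ⟨hq.aestronglyMeasurable, ?_⟩
  have h1 : ∀ k : ℕ, ∫⁻ o, ENNReal.ofReal |chi k (q o)| ∂P ≤ ENNReal.ofReal K := by
    intro k
    have hm : Measurable fun o => |chi k (q o)| := ((chi_cont k).abs).measurable.comp hq
    have hi : Integrable (fun o => |chi k (q o)|) P := by
      refine int_bdd hm (b := k) (Eventually.of_forall fun o => ?_)
      rw [abs_abs]
      exact abs_chi_le (Nat.cast_nonneg k) _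
    rw [← ofReal_integral_eq_lintegral_ofReal hi (Eventually.of_forall fun o => abs_nonneg _)]
    exact ENNReal.ofReal_le_ofReal (h k)
  have h2 : ∫⁻ o, liminf (fun k : ℕ => ENNReal.ofReal |chi k (q o)|) atTop ∂P ≤
      liminf (fun k : ℕ => ∫⁻ o, ENNReal.ofReal |chi k (q o)| ∂P) atTop :=
    lintegral_liminf_le fun k => (((chi_cont k).abs).measurable.comp hq).ennreal_ofReal
  have h3 : ∀ o, liminf (fun k : ℕ => ENNReal.ofReal |chi k (q o)|) atTop = ‖q o‖ₑ := by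
    intro o
    have h4 : Tendsto (fun k : ℕ => ENNReal.ofReal |chi k (q o)|) atTop (𝓝 ‖q o‖ₑ) := by
      apply tendsto_const_nhds.congr'
      obtain ⟨N, hN⟩ := exists_nat_ge |q o|
      filter_upwards [eventually_ge_atTop N] with k hk
      have h5 : |q o| ≤ (k : ℝ) := hN.trans (by exact_mod_cast hk)
      rw [chi_eq h5, ← Real.enorm_abs, Real.enorm_eq_ofReal (abs_nonneg _)]
    exact h4.liminf_eq
  have h4 : ∫⁻ o, ‖q o‖ₑ ∂P ≤ ENNReal.ofReal K := by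
    calc ∫⁻ o, ‖q o‖ₑ ∂P = ∫⁻ o, liminf (fun k : ℕ => ENNReal.ofReal |chi k (q o)|) atTop ∂P := by
          simp only [h3]
      _ ≤ _ := h2
      _ ≤ ENNReal.ofReal K := by
          refine Filter.liminf_le_of_frequently_le' ?_
          exact Frequently.of_forall h1
  exact lt_of_le_of_lt h4 ENNReal.ofReal_lt_top

omit [IsProbabilityMeasure P] in
lemma tendsto_chi {q : Ω → ℝ} (hq : Measurable q) (hi : Integrable q P) :
    Tendsto (fun k : ℕ => ∫ o, chi k (q o) ∂P) atTop (𝓝 (∫ o, q o ∂P)) := by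
  refine tendsto_integral_of_dominated_convergence (fun o => |q o|) ?_ hi.abs ?_ ?_
  · intro k
    exact ((chi_cont k).measurable.comp hq).aestronglyMeasurable
  · intro k
    refine Eventually.of_forall fun o => ?_
    rw [Real.norm_eq_abs]
    exact abs_chi_le_abs (Nat.cast_nonneg k) _
  · refine Eventually.of_forall fun o => ?_
    apply tendsto_const_nhds.congr'
    obtain ⟨N, hN⟩ := exists_nat_ge |q o|
    filter_upwards [eventually_ge_atTop N] with k hk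
    have h5 : |q o| ≤ (k : ℝ) := hN.trans (by exact_mod_cast hk)
    rw [chi_eq h5]

end Omega

theorem core (X : Type) [MeasurableSpace X] (ν : Measure X) [IsFiniteMeasure ν] (Ω : Type)
    [MeasurableSpace Ω] (P : Measure Ω) [IsProbabilityMeasure P] (ζ : X → ℝ) (θ M Q : ℕ → X → ℝ)
    (q : Ω → ℝ) (B C C' : ℝ) (e : ℕ) (he : e = 1 ∨ e = 2) (mζ : Measurable ζ)
    (mθ : ∀ n, Measurable (θ n)) (mM : ∀ n, Measurable (M n)) (mQ : ∀ n, Measurable (Q n))
    (mq : Measurable q) (hζ : ∀ x, 0 ≤ ζ x ∧ ζ x ≤ B) (hθ : ∀ n x, 0 ≤ θ n x ∧ θ n x ≤ 1)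
    (hM : ∀ n x, 1 ≤ M n x) (hMb : ∀ n, ∃ b : ℝ, ∀ᵐ x ∂ν, M n x ≤ b)
    (hMC : ∀ᶠ n in atTop, ∫ x, M n x ∂ν ≤ C')
    (hd : ∀ᶠ n in atTop, ∀ᵐ x ∂ν, ζ x ≠ 0 → Q n x ^ 2 ≤ C * M n x ^ (e + 2))
    (hδ : Tendsto (fun n => ∫ x, (1 - θ n x) * M n x ∂ν) atTop (𝓝 0))
    (hUI : ∀ ε > 0, ∃ T : ℝ, ∀ᶠ n in atTop,
      ∫ x, (if T < θ n x * M n x then (θ n x * M n x) ^ 2 else 0) ∂ν ≤ ε)
    (hlaw : ∀ G : ℝ → ℝ, Continuous G → (∃ b, ∀ t, |G t| ≤ b) →
      Tendsto (fun n => ∫ x, ζ x * G (Q n x) ∂ν) atTop (𝓝 (∫ o, G (q o) ∂P))) :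
    Integrable q P ∧
      Tendsto (fun n => ∫ x, ζ x * (θ n x ^ e * Q n x) ∂ν) atTop (𝓝 (∫ o, q o ∂P)) := by
  set A : ℝ := max C 1 with hAd
  set B' : ℝ := max B 0 with hBd
  set C'' : ℝ := max C' 0 with hCd
  have hA : 1 ≤ A := le_max_right _ _
  have hB : 0 ≤ B' := le_max_right _ _
  have hC : 0 ≤ C'' := le_max_right _ _
  have hD : ∀ᶠ n in atTop, Dat ν A B' C'' e ζ (θ n) (M n) (Q n) := by
    filter_upwards [hMC, hd] with n h1 h2
    refine ⟨he, hA, hB, mζ, mθ n, mM n, mQ n, fun x => (hζ x).1,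
      fun x => (hζ x).2.trans (le_max_left _ _), fun x => (hθ n x).1, fun x => (hθ n x).2, hM n,
      hMb n, h1.trans (le_max_left _ _), ?_⟩
    filter_upwards [h2] with x hx hz
    refine (hx hz).trans (mul_le_mul_of_nonneg_right (le_max_left _ _) ?_)
    have := hM n x
    positivity
  have hδk : ∀ (k ε : ℝ), 0 < ε → ∀ᶠ n in atTop,
      2 * B' * k * (∫ x, (1 - θ n x) * M n x ∂ν) ≤ ε := by
    intro k ε hε
    have h1 : Tendsto (fun n => 2 * B' * k * (∫ x, (1 - θ n x) * M n x ∂ν)) atTop (𝓝 0) := by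
      simpa using hδ.const_mul (2 * B' * k)
    filter_upwards [h1.eventually (gt_mem_nhds hε)] with n hn
    exact hn.le
  -- integrability
  have hq : Integrable q P := by
    obtain ⟨T, hT⟩ := hUI 1 one_pos
    refine int_of_trunc mq (K := B' * A * ((T ^ 2 * ν.real univ + 1) + C'') + 1) fun k => ?_
    have hk : (0 : ℝ) ≤ (k : ℝ) := Nat.cast_nonneg k
    have h1 := hlaw (fun t => |chi k t|) (chi_cont k).abs
      ⟨k, fun t => by rw [abs_abs]; exact abs_chi_le hk t⟩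
    refine le_of_tendsto h1 ?_
    filter_upwards [hD, hT, hδk k 1 one_pos] with n h2 h3 h4
    have h5 := h2.absb hk h3
    linarith
  refine ⟨hq, ?_⟩
  rw [Metric.tendsto_atTop']
  intro ε hε
  -- the constants
  set l : ℝ := 1 + 8 * (B' * A * C'') / ε with hld
  have hl : 1 ≤ l := by
    have : 0 ≤ 8 * (B' * A * C'') / ε := by positivity
    linarith
  have hl0 : 0 < l := by linarith
  have hl2 : B' * A * (C'' / l) ≤ ε / 8 := by
    have h1 : B' * A * (C'' / l) = (B' * A * C'') / l := by ring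
    rw [h1, div_le_iff₀ hl0, hld]
    have h2 : ε / 8 * (1 + 8 * (B' * A * C'') / ε) = ε / 8 + B' * A * C'' := by
      field_simp
    rw [h2]
    linarith
  set ε₁ : ℝ := ε / (8 * (B' * A * l + 1)) with hεd
  have hBAl : 0 ≤ B' * A * l := by positivity
  have hε₁ : 0 < ε₁ := by positivity
  have hε2 : B' * A * l * ε₁ ≤ ε / 8 := by
    rw [hεd]
    have h1 : B' * A * l * (ε / (8 * (B' * A * l + 1))) =
        ε / 8 * ((B' * A * l) / (B' * A * l + 1)) := by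
      field_simp
    rw [h1]
    have h2 : (B' * A * l) / (B' * A * l + 1) ≤ 1 := by
      rw [div_le_one (by linarith)]
      linarith
    have h3 : 0 ≤ ε / 8 := by positivity
    nlinarith
  obtain ⟨T, hT⟩ := hUI ε₁ hε₁
  set c : ℝ := 1 + 8 * (B' * A * l * T ^ 2 * C'') / ε with hcd
  have hc : 1 ≤ c := by
    have : 0 ≤ 8 * (B' * A * l * T ^ 2 * C'') / ε := by positivity
    linarith
  have hc0 : 0 < c := by linarith
  have hc2 : B' * A * l * T ^ 2 * (C'' / c) ≤ ε / 8 := by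
    have h1 : B' * A * l * T ^ 2 * (C'' / c) = (B' * A * l * T ^ 2 * C'') / c := by ring
    rw [h1, div_le_iff₀ hc0, hcd]
    have h2 : ε / 8 * (1 + 8 * (B' * A * l * T ^ 2 * C'') / ε) =
        ε / 8 + B' * A * l * T ^ 2 * C'' := by
      field_simp
    rw [h2]
    linarith
  -- choose `k`
  have hchi := tendsto_chi mq hq
  have h8 : (0 : ℝ) < ε / 8 := by positivity
  obtain ⟨k, hk1, hk2⟩ : ∃ k : ℕ, A * c ^ 2 ≤ (k : ℝ) ∧
      |(∫ o, chi k (q o) ∂P) - ∫ o, q o ∂P| < ε / 8 := by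
    obtain ⟨N, hN⟩ := exists_nat_ge (A * c ^ 2)
    have h1 := (Metric.tendsto_atTop'.mp hchi) (ε / 8) h8
    obtain ⟨N', hN'⟩ := h1
    refine ⟨max N (N' + 1), hN.trans (by exact_mod_cast le_max_left _ _), ?_⟩
    have h2 := hN' (max N (N' + 1)) (lt_of_lt_of_le (Nat.lt_succ_self N') (le_max_right _ _))
    rwa [Real.dist_eq] at h2
  have hk0 : (0 : ℝ) ≤ (k : ℝ) := Nat.cast_nonneg k
  have h1 := hlaw (chi k) (chi_cont k) ⟨k, fun t => abs_chi_le hk0 t⟩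
  have h2 : ∀ᶠ n in atTop, |(∫ x, ζ x * chi k (Q n x) ∂ν) - ∫ o, chi k (q o) ∂P| < ε / 8 := by
    have h3 := h1.eventually (Metric.ball_mem_nhds _ h8)
    filter_upwards [h3] with n hn
    rw [← Real.dist_eq]
    exact hn
  have hfin : ∀ᶠ n in atTop,
      dist (∫ x, ζ x * (θ n x ^ e * Q n x) ∂ν) (∫ o, q o ∂P) < ε := by
    filter_upwards [hD, hT, hδk k (ε / 8) h8, h2] with n g1 g2 g3 g4
    have g5 := g1.tail hl hc hk1 g2
    rw [Real.dist_eq]
    have g6 : B' * A * (l * (T ^ 2 * (C'' / c) + ε₁) + C'' / l) =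
        B' * A * l * T ^ 2 * (C'' / c) + B' * A * l * ε₁ + B' * A * (C'' / l) := by ring
    rw [g6] at g5
    have g7 : |(∫ x, ζ x * (θ n x ^ e * Q n x) ∂ν) - ∫ x, ζ x * chi k (Q n x) ∂ν| ≤ ε / 2 := by
      linarith
    have g8 : (∫ x, ζ x * (θ n x ^ e * Q n x) ∂ν) - ∫ o, q o ∂P =
        ((∫ x, ζ x * (θ n x ^ e * Q n x) ∂ν) - ∫ x, ζ x * chi k (Q n x) ∂ν) +
        ((∫ x, ζ x * chi k (Q n x) ∂ν) - ∫ o, chi k (q o) ∂P) +
        ((∫ o, chi k (q o) ∂P) - ∫ o, q o ∂P) := by ring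
    rw [g8]
    calc |_| ≤ _ := abs_add_three _ _ _
      _ < ε := by linarith
  rw [eventually_atTop] at hfin
  obtain ⟨N, hN⟩ := hfin
  exact ⟨N, fun n hn => hN n (le_of_lt hn)⟩

end

end BSL.UIA

namespace BSL

theorem t_UIA : StmtUia := by
  intro X _ ν _ Ω _ P _ ζ θ M Q q B C C' e he mζ mθ mM mQ mq hζ hθ hM hMb hMC hd hδ hUI hlaw
  exact UIA.core X ν Ω P ζ θ M Q q B C C' e he mζ mθ mM mQ mq hζ hθ hM hMb hMC hd hδ hUI hlaw

end BSL
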