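import Pool.Agent.BSL.St2
import Pool.Agent.BSL.WTR

/-!
# Convergence of the weighted means of products of values to the moments of `F` (module UIF)
-/

set_option autoImplicit false

open Complex MeasureTheory Filter Topology Set
open UpperHalfPlane hiding I
open scoped ContDiff MatrixGroups ProbabilityTheory ENNReal

namespace BSL

open QE QE.NC QJ U3 NFP

noncomputable section

namespace UIF

variable {Γ : Subgroup SL(2, ℝ)} {D : Set ℍ} {ρ : ℍ → ℝ} {φ : ℕ → ℍ → ℝ} {m : ℕ → ℝ}

lemma rho_cont (hS : Sur Γ D ρ φ m) : Continuous ρ := NFP.STRUCT.cont_rho hS.fac.smooth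

lemma phi_cont (hS : Sur Γ D ρ φ m) (n : ℕ) : Continuous (φ n) := QE.continuous_of_smooth (hS.sm n)

lemma geo (hS : Sur Γ D ρ φ m) [Countable Γ] : Berry.Geo Γ ρ D :=
  ⟨hS.fd, hS.mD, Berry.finite_of_cocompact hS.fd hS.fac.cpt, hS.fac.inv,
    Berry.bdd_of_cocompact (rho_cont hS) hS.fac.inv hS.fac.cpt,
    Berry.unif_of_cocompact (rho_cont hS) hS.fac.inv hS.fac.cpt⟩

/-- the points stay in the upper half plane -/
lemma pt (hS : Sur Γ D ρ φ m) {k : ℕ} (x : Fin k → ℂ) : ∀ᶠ n in atTop, ∀ i, ∀ z : ℍ,
    ‖x i / ((m n * Real.exp (ρ z) : ℝ) : ℂ)‖ < 1 := by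
  obtain ⟨R, hR⟩ := Berry.bdd_of_cocompact (rho_cont hS) hS.fac.inv hS.fac.cpt
  rw [eventually_all]
  intro i
  filter_upwards [hS.eig.tendsto.eventually_gt_atTop (‖x i‖ * Real.exp R)] with n hn z
  have hm : 0 < m n := lt_of_lt_of_le one_pos (hS.one n)
  rw [norm_div, Complex.norm_real, Real.norm_of_nonneg (by positivity),
    div_lt_one (mul_pos hm (Real.exp_pos _))]
  have h1 : Real.exp (-R) ≤ Real.exp (ρ z) := Real.exp_le_exp.2 (abs_le.1 (hR z)).1
  calc ‖x i‖ = ‖x i‖ * Real.exp R * Real.exp (-R) := by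
        rw [mul_assoc, ← Real.exp_add, add_neg_cancel, Real.exp_zero, mul_one]
    _ < m n * Real.exp (-R) := by gcongr
    _ ≤ m n * Real.exp (ρ z) := by gcongr

lemma wc (hS : Sur Γ D ρ φ m) {k : ℕ} (x : Fin k → ℂ) :
    ∀ᶠ n in atTop, ∀ i, Continuous (Berry.rWave ρ (φ n) (m n) (x i)) := by
  filter_upwards [pt hS x] with n hn i
  exact rWave_continuous (phi_cont hS n) (rho_cont hS) (hn i) (lt_of_lt_of_le one_pos (hS.one n)).ne'

/-- the average over the angle of a function of the product of the waves is invariant -/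
lemma ang_inv {f : ℍ → ℝ} (hf : ∀ γ ∈ Γ, ∀ z, f (γ • z) = f z) (hρ : ∀ γ ∈ Γ, ∀ z, ρ (γ • z) = ρ z)
    (c : ℝ) {k : ℕ} (x : Fin k → ℂ) (G : ℝ → ℝ) : ∀ γ ∈ Γ, ∀ z,
    ∫ t, G (∏ i, Berry.rWave ρ f c (x i) (γ • z, t)) ∂ang
      = ∫ t, G (∏ i, Berry.rWave ρ f c (x i) (z, t)) ∂ang := by
  intro γ hγ z
  obtain ⟨α, hα⟩ := Berry.mul_frame γ z
  have hper : Function.Periodic (fun θ => G (∏ i, Berry.rWave ρ f c (x i) (γ • z, θ)))
      (2 * Real.pi) := by
    intro θ
    unfold Berry.rWave
    simp only [Berry.frame_periodic]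
  rw [← ang_shift hper α]
  congr 1; funext θ
  congr 1
  refine Finset.prod_congr rfl fun i _ => ?_
  unfold Berry.rWave
  simp only
  rw [← hα θ, mul_smul, hf γ hγ, hρ γ hγ]

/-- the base space of the pairs (point, angle) -/
lemma prod_fst {K : Set ℂ} (f : ℂ → ℝ) :
    ∫ x, f x.1 ∂((volume.restrict K).prod ang) = ∫ z in K, f z := by
  rw [integral_fun_fst]
  simp

end UIF

open UIF in
/-- **UIF** -/
theorem t_UIF (h : StmtUia) : StmtUif := by
  intro Γ _ D ρ φ m hS Ω _ P _ F hFm hF ζ hζ V σ φ' hA hζV e he x L θ hL W hdom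
  obtain ⟨C₀, hC₀⟩ := hdom
  have hρc := rho_cont hS
  set K : Set ℂ := tsupport (fun z => (ζ z : ℂ)) with hKdef
  have hK : IsCompact K := hζ.test.supp
  have hKU : K ⊆ UH := hζ.test.sub
  have hKm : MeasurableSet K := hK.measurableSet
  have hζc : Continuous ζ := by
    have := Complex.continuous_re.comp hζ.test.smooth.continuous
    exact this
  have hζ0 : ∀ z, z ∉ K → ζ z = 0 := by
    intro z hz
    have h1 : ((ζ z : ℝ) : ℂ) = 0 := by
      by_contra hne
      exact hz (subset_tsupport (fun z => (ζ z : ℂ)) hne)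
    exact_mod_cast h1
  obtain ⟨B, hB⟩ := hK.exists_bound_of_continuousOn hζc.continuousOn
  have hBz : ∀ z, ζ z ≤ max B 0 := by
    intro z
    by_cases hz : z ∈ K
    · exact ((le_abs_self _).trans (hB z hz)).trans (le_max_left _ _)
    · rw [hζ0 z hz]
      exact le_max_right _ _
  have hfinK : IsFiniteMeasure ((volume : Measure ℂ).restrict K) :=
    ⟨by rw [Measure.restrict_apply_univ]; exact hK.measure_lt_top⟩
  set ν : Measure (ℂ × ℝ) := (volume.restrict K).prod ang with hν
  have hMc : ∀ n, Continuous (Mn L (hh m) φ' n) :=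
    continuous_Mn (fun n => (hA.loc.smφ n).continuous) L
  -- membership
  have hmemK : ∀ᵐ p ∂ν, p.1 ∈ K := by
    have h1 : ∀ᵐ z ∂((volume : Measure ℂ).restrict K), z ∈ K := ae_restrict_mem hKm
    exact Measure.quasiMeasurePreserving_fst.ae h1
  obtain ⟨N, hN⟩ := ((wc hS x).and hC₀).exists_forall_of_atTop
  -- the products
  set Q0 : ℕ → ℂ × ℝ → ℝ := fun n p => ∏ i, Berry.rWave ρ (φ n) (m n) (x i) (ofComplex p.1, p.2)
    with hQ0
  set Q : ℕ → ℂ × ℝ → ℝ := fun n p => if N ≤ n then Q0 n p else 0 with hQ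
  have hpm : Measurable fun p : ℂ × ℝ => ((ofComplex p.1 : ℍ), p.2) :=
    (QE.Surf.measurable_ofComplex.comp measurable_fst).prodMk measurable_snd
  have hQ0m : ∀ n, N ≤ n → Measurable (Q0 n) := by
    intro n hn
    exact Finset.measurable_prod _ fun i _ => (((hN n hn).1 i).measurable.comp hpm)
  have hQm : ∀ n, Measurable (Q n) := by
    intro n
    by_cases hn : N ≤ n
    · simp only [hQ, if_pos hn]
      exact hQ0m n hn
    · simp only [hQ, if_neg hn]
      exact measurable_const
  have hqm : Measurable fun o => ∏ i, F (x i) o := Finset.measurable_prod _ fun i _ => hFm _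
  -- the bound
  have hQb : ∀ n, N ≤ n → ∀ p : ℂ × ℝ, p.1 ∈ K →
      Q0 n p ^ 2 ≤ max C₀ 0 ^ (e + 2) * Mn L (hh m) φ' n p.1 ^ (e + 2) := by
    intro n hn p hp
    have h1 := (hN n hn).2 p.1 hp p.2
    have hM1 := one_le_Mn (h := hh m) (φ := φ') L n p.1
    calc Q0 n p ^ 2 = ∏ i, Berry.rWave ρ (φ n) (m n) (x i) (ofComplex p.1, p.2) ^ 2 := by
          simp only [hQ0]
          rw [Finset.prod_pow]
      _ ≤ ∏ _i : Fin (e + 2), (max C₀ 0 * Mn L (hh m) φ' n p.1) := by
          refine Finset.prod_le_prod (fun i _ => sq_nonneg _) fun i _ => ?_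
          refine (h1 i).trans ?_
          exact mul_le_mul_of_nonneg_right (le_max_left _ _) (by linarith)
      _ = _ := by
          rw [Finset.prod_const, Finset.card_univ, Fintype.card_fin, mul_pow]
  -- boundedness for each `n`
  have hMb : ∀ n, ∃ b : ℝ, ∀ z ∈ K, Mn L (hh m) φ' n z ≤ b := by
    intro n
    obtain ⟨b, hb⟩ := hK.exists_bound_of_continuousOn (hMc n).continuousOn
    exact ⟨b, fun z hz => (le_abs_self _).trans (hb z hz)⟩
  -- the mass of the local means
  have hKV' : K ⊆ V := hζV
  obtain ⟨T, hT⟩ := W.ui K hK hKV' 1 one_pos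
  have hbig := W.big K hK hKV'
  have hmass : ∃ C' : ℝ, ∀ᶠ n in atTop, ∫ p, Mn L (hh m) φ' n p.1 ∂ν ≤ C' := by
    refine ⟨1 + (max T 1 * (volume K).toReal + 1), ?_⟩
    have h1 : ∀ᶠ n in atTop, ∫ z in K, (1 - θ n z) * Mn L (hh m) φ' n z < 1 :=
      hbig.eventually_lt_const one_pos
    filter_upwards [h1, hT] with n hn1 hn2
    rw [hν, prod_fst (fun z => Mn L (hh m) φ' n z)]
    have hθc : Continuous (θ n) := (W.smθ n).continuous
    have i1 : IntegrableOn (fun z => (1 - θ n z) * Mn L (hh m) φ' n z) K :=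
      ((continuous_const.sub hθc).mul (hMc n)).continuousOn.integrableOn_compact hK
    have i2 : IntegrableOn (fun z => θ n z * Mn L (hh m) φ' n z) K :=
      (hθc.mul (hMc n)).continuousOn.integrableOn_compact hK
    have hc2 : Continuous fun z => θ n z * Mn L (hh m) φ' n z := hθc.mul (hMc n)
    have i3 : IntegrableOn (fun z => (if T < θ n z * Mn L (hh m) φ' n z
        then (θ n z * Mn L (hh m) φ' n z) ^ 2 else 0)) K := by
      refine Integrable.mono' (g := fun z => (θ n z * Mn L (hh m) φ' n z) ^ 2)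
        ((hc2.pow 2).continuousOn.integrableOn_compact hK) ?_ ?_
      · refine (Measurable.ite ?_ (hc2.pow 2).measurable measurable_const).aestronglyMeasurable
        exact measurableSet_lt measurable_const hc2.measurable
      · refine Eventually.of_forall fun z => ?_
        beta_reduce
        split_ifs
        · rw [Real.norm_of_nonneg (sq_nonneg _)]
        · rw [norm_zero]
          exact sq_nonneg _
    have e1 : ∀ z, Mn L (hh m) φ' n z
        = (1 - θ n z) * Mn L (hh m) φ' n z + θ n z * Mn L (hh m) φ' n z := fun z => by ring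
    have e2 : ∫ z in K, Mn L (hh m) φ' n z = (∫ z in K, (1 - θ n z) * Mn L (hh m) φ' n z)
        + ∫ z in K, θ n z * Mn L (hh m) φ' n z := by
      rw [← integral_add i1 i2]
      exact integral_congr_ae (Eventually.of_forall fun z => e1 z)
    rw [e2]
    have h3 : ∫ z in K, θ n z * Mn L (hh m) φ' n z
        ≤ max T 1 * (volume K).toReal + 1 := by
      have hci : IntegrableOn (fun _ : ℂ => max T 1) K := by
        rw [integrableOn_const_iff]
        exact Or.inr hK.measure_lt_top
      calc ∫ z in K, θ n z * Mn L (hh m) φ' n z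
          ≤ ∫ z in K, (max T 1 + (if T < θ n z * Mn L (hh m) φ' n z
              then (θ n z * Mn L (hh m) φ' n z) ^ 2 else 0)) := by
            refine setIntegral_mono_on i2 (hci.add i3) hKm fun z _ => ?_
            split_ifs with h4
            · rcases le_total (θ n z * Mn L (hh m) φ' n z) 1 with h5 | h5
              · have := le_max_right T 1
                have := sq_nonneg (θ n z * Mn L (hh m) φ' n z)
                linarith
              · have := le_max_right T 1
                nlinarith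
            · have := le_max_left T 1
              linarith
        _ = (∫ _ in K, max T 1) + ∫ z in K, (if T < θ n z * Mn L (hh m) φ' n z
              then (θ n z * Mn L (hh m) φ' n z) ^ 2 else 0) := integral_add hci i3
        _ ≤ max T 1 * (volume K).toReal + 1 := by
            have i4 : ∫ _ in K, (max T 1 : ℝ) = max T 1 * (volume K).toReal := by
              rw [setIntegral_const, smul_eq_mul, mul_comm]
              rfl
            rw [i4]
            linarith
    linarith
  obtain ⟨C', hC'⟩ := hmass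
  have key := h (ℂ × ℝ) ν Ω P (fun p => ζ p.1) (fun n p => θ n p.1)
    (fun n p => Mn L (hh m) φ' n p.1) Q (fun o => ∏ i, F (x i) o) (max B 0) (max C₀ 0 ^ (e + 2)) C' e
    he (hζc.measurable.comp measurable_fst)
    (fun n => (W.smθ n).continuous.measurable.comp measurable_fst)
    (fun n => (hMc n).measurable.comp measurable_fst) hQm hqm
    (fun p => ⟨hζ.nonneg _, hBz _⟩) (fun n p => ⟨W.nonneg n _, W.le_one n _⟩)
    (fun n p => one_le_Mn L n p.1)
    (fun n => by
      obtain ⟨b, hb⟩ := hMb n
      refine ⟨b, ?_⟩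
      filter_upwards [hmemK] with p hp
      exact hb p.1 hp) hC'
    (by
      filter_upwards [eventually_ge_atTop N] with n hn
      filter_upwards [hmemK] with p hp _
      simp only [hQ, if_pos hn]
      exact hQb n hn p hp)
    (by
      refine hbig.congr fun n => ?_
      rw [hν, prod_fst (fun z => (1 - θ n z) * Mn L (hh m) φ' n z)])
    (by
      intro ε hε
      obtain ⟨T', hT'⟩ := W.ui K hK hKV' ε hε
      refine ⟨T', ?_⟩
      filter_upwards [hT'] with n hn
      rw [hν, prod_fst (fun z => if T' < θ n z * Mn L (hh m) φ' n z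
        then (θ n z * Mn L (hh m) φ' n z) ^ 2 else 0)]
      exact hn)
    (by
      intro G hG hGb
      obtain ⟨b, hb⟩ := hGb
      have h1 := hF (e + 2) x (fun t => G (∏ i, t i))
        (hG.comp (continuous_finsetProd _ fun i _ => continuous_apply i)) ⟨b, fun t => hb _⟩
      refine h1.congr' ?_
      filter_upwards [eventually_ge_atTop N] with n hn
      -- the function on the surface
      set f : ℍ → ℝ := fun z => ∫ t, G (∏ i, Berry.rWave ρ (φ n) (m n) (x i) (z, t)) ∂ang with hf
      have hGm : Measurable fun p : ℍ × ℝ => G (∏ i, Berry.rWave ρ (φ n) (m n) (x i) p) :=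
        hG.measurable.comp (Finset.measurable_prod _ fun i _ => ((hN n hn).1 i).measurable)
      have hfm : Measurable f := (hGm.stronglyMeasurable.integral_prod_right').measurable
      have hfb : ∀ z, |f z| ≤ b := by
        intro z
        have h2 : ‖f z‖ ≤ b * ang.real univ :=
          norm_integral_le_of_norm_le_const (Eventually.of_forall fun t => hb _)
        simpa using h2
      have hg := geo hS
      have hfD : IntegrableOn f D (volume : Measure ℍ) := by
        have : IsFiniteMeasure ((volume : Measure ℍ).restrict D) :=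
          ⟨by rw [Measure.restrict_apply_univ]; exact hg.fin.lt_top⟩
        exact Integrable.of_bound hfm.aestronglyMeasurable b (Eventually.of_forall hfb)
      have hfi := ang_inv (Γ := Γ) (f := φ n) (fun γ hγ z => hS.eig.invariant n γ hγ z) hS.fac.inv
        (m n) x G
      obtain ⟨h3, h4⟩ := hζ.int f hfm hfD hfi
      have e1 : ∫ p, G (∏ i, Berry.rWave ρ (φ n) (m n) (x i) p) ∂(Berry.rFrameProb ρ D)
          = Berry.rAvg ρ D f := by
        have : IsProbabilityMeasure (ProbabilityTheory.cond (Berry.area ρ) D) := area_prob hg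
        unfold Berry.rFrameProb Berry.rAvg
        rw [integral_prod]
        exact Integrable.of_bound hGm.aestronglyMeasurable b (Eventually.of_forall fun p => hb _)
      rw [e1, ← h4]
      -- the left side
      have hQi : Integrable (fun p : ℂ × ℝ => ζ p.1 * G (Q n p)) ν := by
        refine Integrable.of_bound ((hζc.measurable.comp measurable_fst).mul
          (hG.measurable.comp (hQm n))).aestronglyMeasurable (max B 0 * b)
          (Eventually.of_forall fun p => ?_)
        rw [norm_mul, Real.norm_of_nonneg (hζ.nonneg _)]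
        exact mul_le_mul (hBz _) (hb _) (norm_nonneg _) (le_max_right _ _)
      rw [hν, integral_prod _ hQi]
      have e2 : ∫ z, ζ z * f (ofComplex z) = ∫ z in K, ζ z * f (ofComplex z) := by
        rw [setIntegral_eq_integral_of_forall_compl_eq_zero]
        intro z hz
        rw [hζ0 z hz, zero_mul]
      rw [e2]
      refine integral_congr_ae (Eventually.of_forall fun z => ?_)
      show ζ z * f (ofComplex z) = ∫ y, ζ z * G (Q n (z, y)) ∂ang
      rw [integral_const_mul]
      simp only [hQ, if_pos hn, hQ0, hf])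
  refine ⟨key.1, key.2.congr' ?_⟩
  filter_upwards [eventually_ge_atTop N] with n hn
  obtain ⟨b, hb⟩ := hMb n
  have hQi : Integrable (fun p : ℂ × ℝ => ζ p.1 * (θ n p.1 ^ e * Q n p)) ν := by
    refine Integrable.of_bound ((hζc.measurable.comp measurable_fst).mul
      ((((W.smθ n).continuous.measurable.comp measurable_fst).pow_const e).mul
        (hQm n))).aestronglyMeasurable
      (max B 0 * Real.sqrt (max C₀ 0 ^ (e + 2) * b ^ (e + 2))) ?_
    filter_upwards [hmemK] with p hp
    rw [norm_mul, Real.norm_of_nonneg (hζ.nonneg _)]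
    refine mul_le_mul (hBz _) ?_ (norm_nonneg _) (le_max_right _ _)
    rw [norm_mul, norm_pow, Real.norm_of_nonneg (W.nonneg n _)]
    have h1 : θ n p.1 ^ e ≤ 1 := pow_le_one₀ (W.nonneg n _) (W.le_one n _)
    have h2 : ‖Q n p‖ ≤ Real.sqrt (max C₀ 0 ^ (e + 2) * b ^ (e + 2)) := by
      refine Real.abs_le_sqrt ?_
      simp only [hQ, if_pos hn]
      refine (hQb n hn p hp).trans ?_
      have hM1 := one_le_Mn (h := hh m) (φ := φ') L n p.1
      exact mul_le_mul_of_nonneg_left (pow_le_pow_left₀ (by linarith) (hb _ hp) _) (by positivity)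
    calc θ n p.1 ^ e * ‖Q n p‖ ≤ 1 * ‖Q n p‖ := mul_le_mul_of_nonneg_right h1 (norm_nonneg _)
      _ = ‖Q n p‖ := one_mul _
      _ ≤ _ := h2
  rw [hν, integral_prod _ hQi]
  have e2 : ∫ z, ζ z * (θ n z ^ e * angProd ρ (φ n) (m n) x (ofComplex z))
      = ∫ z in K, ζ z * (θ n z ^ e * angProd ρ (φ n) (m n) x (ofComplex z)) := by
    rw [setIntegral_eq_integral_of_forall_compl_eq_zero]
    intro z hz
    rw [hζ0 z hz, zero_mul]
  rw [e2]
  refine integral_congr_ae (Eventually.of_forall fun z => ?_)
  show ∫ y, ζ z * (θ n z ^ e * Q n (z, y)) ∂ang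
    = ζ z * (θ n z ^ e * angProd ρ (φ n) (m n) x (ofComplex z))
  rw [integral_const_mul, integral_const_mul]
  simp only [hQ, if_pos hn, hQ0, angProd]

end

end BSL
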