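import Pool.Agent.BSL.St1

/-!
# WKT: the weak type estimate of the Beurling transform

The decomposition is made smooth with smooth functions `χ` supported in the squares, so no mollifier is needed.
-/

open Complex MeasureTheory Filter Topology Set
open scoped ContDiff Manifold

namespace BSL

open QE QJ U3

namespace WKT

noncomputable section

/-- the open square -/
def Uq (c : ℂ) (l : ℝ) : Set ℂ :=
  {z | c.re < z.re ∧ z.re < c.re + l ∧ c.im < z.im ∧ z.im < c.im + l}

/-- the centre of the square -/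
def ctr (c : ℂ) (l : ℝ) : ℂ := ⟨c.re + l / 2, c.im + l / 2⟩

theorem vol_Sq (c : ℂ) {l : ℝ} (hl : 0 < l) :
    (volume : Measure ℂ) (Sq c l) = ENNReal.ofReal (l ^ 2) := by
  have e : Sq c l = Complex.measurableEquivRealProd ⁻¹'
      (Set.Ico c.re (c.re + l) ×ˢ Set.Ico c.im (c.im + l)) := by
    ext z
    simp [Sq, Complex.measurableEquivRealProd_apply, and_assoc]
  rw [e, Complex.volume_preserving_equiv_real_prod.measure_preimage
    (measurableSet_Ico.prod measurableSet_Ico).nullMeasurableSet, Measure.volume_eq_prod,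
    Measure.prod_prod, Real.volume_Ico, Real.volume_Ico, ← ENNReal.ofReal_mul (by linarith)]
  congr 1
  ring

theorem vol_Uq (c : ℂ) {l : ℝ} (hl : 0 < l) :
    (volume : Measure ℂ) (Uq c l) = ENNReal.ofReal (l ^ 2) := by
  have e : Uq c l = Complex.measurableEquivRealProd ⁻¹'
      (Set.Ioo c.re (c.re + l) ×ˢ Set.Ioo c.im (c.im + l)) := by
    ext z
    simp [Uq, Complex.measurableEquivRealProd_apply, and_assoc]
  rw [e, Complex.volume_preserving_equiv_real_prod.measure_preimage
    (measurableSet_Ioo.prod measurableSet_Ioo).nullMeasurableSet, Measure.volume_eq_prod,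
    Measure.prod_prod, Real.volume_Ioo, Real.volume_Ioo, ← ENNReal.ofReal_mul (by linarith)]
  congr 1
  ring

theorem Uq_sub (c : ℂ) (l : ℝ) : Uq c l ⊆ Sq c l := fun z hz =>
  ⟨hz.1.le, hz.2.1, hz.2.2.1.le, hz.2.2.2⟩

theorem isOpen_Uq (c : ℂ) (l : ℝ) : IsOpen (Uq c l) := by
  have h1 : IsOpen {z : ℂ | c.re < z.re} := isOpen_lt continuous_const Complex.continuous_re
  have h2 : IsOpen {z : ℂ | z.re < c.re + l} := isOpen_lt Complex.continuous_re continuous_const
  have h3 : IsOpen {z : ℂ | c.im < z.im} := isOpen_lt continuous_const Complex.continuous_im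
  have h4 : IsOpen {z : ℂ | z.im < c.im + l} := isOpen_lt Complex.continuous_im continuous_const
  exact h1.inter (h2.inter (h3.inter h4))

theorem meas_Sq (c : ℂ) (l : ℝ) : MeasurableSet (Sq c l) := by
  have h1 : MeasurableSet {z : ℂ | c.re ≤ z.re} := measurableSet_le measurable_const Complex.measurable_re
  have h2 : MeasurableSet {z : ℂ | z.re < c.re + l} :=
    measurableSet_lt Complex.measurable_re measurable_const
  have h3 : MeasurableSet {z : ℂ | c.im ≤ z.im} := measurableSet_le measurable_const Complex.measurable_im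
  have h4 : MeasurableSet {z : ℂ | z.im < c.im + l} :=
    measurableSet_lt Complex.measurable_im measurable_const
  exact h1.inter (h2.inter (h3.inter h4))

theorem Sq_ball {c z : ℂ} {l : ℝ} (hz : z ∈ Sq c l) : z ∈ Metric.closedBall (ctr c l) l := by
  obtain ⟨h1, h2, h3, h4⟩ := hz
  rw [Metric.mem_closedBall, dist_eq_norm]
  refine (Complex.norm_le_abs_re_add_abs_im _).trans ?_
  have e1 : (z - ctr c l).re = z.re - c.re - l / 2 := by simp [ctr]; ring
  have e2 : (z - ctr c l).im = z.im - c.im - l / 2 := by simp [ctr]; ring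
  rw [e1, e2]
  have h5 : |z.re - c.re - l / 2| ≤ l / 2 := abs_le.2 ⟨by linarith, by linarith⟩
  have h6 : |z.im - c.im - l / 2| ≤ l / 2 := abs_le.2 ⟨by linarith, by linarith⟩
  linarith

theorem exists_chi (c : ℂ) {l δ : ℝ} (hl : 0 < l) (hδ : 0 < δ) :
    ∃ χ : ℂ → ℝ, ContDiff ℝ ∞ χ ∧ (∀ z, 0 ≤ χ z ∧ χ z ≤ 1) ∧ (∀ z, z ∉ Sq c l → χ z = 0) ∧
      ∫ z in Sq c l, (1 - χ z) ≤ δ := by
  have hU : (volume : Measure ℂ) (Uq c l) ≠ ⊤ := by rw [vol_Uq c hl]; exact ENNReal.ofReal_ne_top
  obtain ⟨K, hKU, hK, hKv⟩ := (isOpen_Uq c l).measurableSet.exists_isCompact_sdiff_lt hU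
    (ε := ENNReal.ofReal δ) (by simpa using hδ)
  obtain ⟨χ, h0, h1, h01⟩ := exists_contMDiffMap_zero_one_of_isClosed (n := (⊤ : ℕ∞)) 𝓘(ℝ, ℂ)
    (isOpen_Uq c l).isClosed_compl hK.isClosed
    (disjoint_left.2 fun z hz hz' => hz (hKU hz'))
  have hχ : ContDiff ℝ ∞ χ := χ.contMDiff.contDiff
  refine ⟨χ, hχ, fun z => ⟨(h01 z).1, (h01 z).2⟩, fun z hz => h0 (fun h => hz (Uq_sub c l h)), ?_⟩
  have hS : (volume : Measure ℂ) (Sq c l) ≠ ⊤ := by rw [vol_Sq c hl]; exact ENNReal.ofReal_ne_top
  have hE : (volume : Measure ℂ) (Sq c l \ K) ≤ ENNReal.ofReal δ := by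
    have e : Uq c l =ᵐ[volume] Sq c l := ae_eq_of_subset_of_measure_ge (Uq_sub c l)
      (by rw [vol_Sq c hl, vol_Uq c hl]) (isOpen_Uq c l).measurableSet.nullMeasurableSet hS
    have e2 : (volume : Measure ℂ) (Sq c l \ K) = volume (Uq c l \ K) :=
      measure_congr (e.symm.diff (ae_eq_refl K))
    rw [e2]
    exact hKv.le
  have hfin : IsFiniteMeasure ((volume : Measure ℂ).restrict (Sq c l)) :=
    ⟨by rw [Measure.restrict_apply_univ]; exact lt_top_iff_ne_top.2 hS⟩
  have hi : Integrable (fun z => 1 - χ z) ((volume : Measure ℂ).restrict (Sq c l)) := by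
    refine Integrable.of_bound (C := 1) (by fun_prop) (Filter.Eventually.of_forall fun z => ?_)
    rw [Real.norm_eq_abs, abs_le]
    constructor <;> linarith [(h01 z).1, (h01 z).2]
  have hi2 : Integrable (Set.indicator Kᶜ fun _ => (1 : ℝ))
      ((volume : Measure ℂ).restrict (Sq c l)) :=
    (integrable_const (1 : ℝ)).indicator hK.isClosed.measurableSet.compl
  calc ∫ z in Sq c l, (1 - χ z) ≤ ∫ z in Sq c l, Set.indicator Kᶜ (fun _ => (1 : ℝ)) z := by
        refine integral_mono hi hi2 fun z => ?_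
        by_cases hz : z ∈ K
        · rw [Set.indicator_of_notMem (by simpa using hz)]
          have : χ z = 1 := h1 hz
          simp [this]
        · rw [Set.indicator_of_mem (by simpa using hz)]
          linarith [(h01 z).1]
    _ = ((volume : Measure ℂ) (Sq c l \ K)).toReal := by
        rw [integral_indicator hK.isClosed.measurableSet.compl, setIntegral_const,
          smul_eq_mul, mul_one, Measure.real,
          Measure.restrict_apply hK.isClosed.measurableSet.compl]
        congr 2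
        rw [Set.sdiff_eq, Set.inter_comm]
    _ ≤ δ := by
        exact (ENNReal.toReal_mono ENNReal.ofReal_ne_top hE).trans
          (by rw [ENNReal.toReal_ofReal hδ.le])

theorem beu_cont {f : ℂ → ℂ} (hf : ContDiff ℝ ∞ f) (hc : HasCompactSupport f) :
    Continuous (beu f) := (contDiff_dz (contDiff_cauchy hf hc)).continuous

theorem beu_add {f g : ℂ → ℂ} (hf : ContDiff ℝ ∞ f) (hfc : HasCompactSupport f)
    (hg : ContDiff ℝ ∞ g) (hgc : HasCompactSupport g) (z : ℂ) :
    beu (fun w => f w + g w) z = beu f z + beu g z := by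
  have e : cauchy (fun w => f w + g w) = fun z => cauchy f z + cauchy g z :=
    funext (cauchy_add hf.continuous hfc hg.continuous hgc)
  have h1 : DifferentiableAt ℝ (cauchy f) z :=
    (contDiff_cauchy hf hfc).differentiable (by simp) z
  have h2 : DifferentiableAt ℝ (cauchy g) z :=
    (contDiff_cauchy hg hgc).differentiable (by simp) z
  unfold beu
  rw [e]
  unfold dz
  rw [fderiv_fun_add h1 h2]
  simp only [add_apply]
  ring

theorem beu_zero (z : ℂ) : beu (fun _ => 0) z = 0 := by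
  have e : cauchy (fun _ => (0 : ℂ)) = fun _ => 0 := by
    funext z; unfold cauchy; simp
  unfold beu
  rw [e]
  unfold dz
  simp

theorem sum_supp {k : ℕ} (b : Fin k → ℂ → ℂ) (hb : ∀ i, ContDiff ℝ ∞ (b i))
    (hc : ∀ i, HasCompactSupport (b i)) (s : Finset (Fin k)) :
    ContDiff ℝ ∞ (fun w => ∑ i ∈ s, b i w) ∧ HasCompactSupport (fun w => ∑ i ∈ s, b i w) := by
  refine ⟨ContDiff.sum fun i _ => hb i, ?_⟩
  have h1 : IsCompact (⋃ i ∈ s, tsupport (b i)) := s.isCompact_biUnion fun i _ => hc i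
  refine HasCompactSupport.intro h1 fun z hz => ?_
  refine Finset.sum_eq_zero fun i hi => ?_
  refine image_eq_zero_of_notMem_tsupport fun h => hz ?_
  exact Set.mem_biUnion (by exact_mod_cast hi) h

theorem beu_sum {k : ℕ} (b : Fin k → ℂ → ℂ) (hb : ∀ i, ContDiff ℝ ∞ (b i))
    (hc : ∀ i, HasCompactSupport (b i)) (s : Finset (Fin k)) (z : ℂ) :
    beu (fun w => ∑ i ∈ s, b i w) z = ∑ i ∈ s, beu (b i) z := by
  classical
  induction s using Finset.induction_on with
  | empty => simpa using beu_zero z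
  | insert i s hi ih =>
    rw [Finset.sum_insert hi, ← ih, ← beu_add (hb i) (hc i) (sum_supp b hb hc s).1
      (sum_supp b hb hc s).2]
    congr 1
    funext w
    rw [Finset.sum_insert hi]

/-- the smooth decomposition -/
theorem decomp (h1 : StmtCZD) (f : ℂ → ℂ) (s : ℝ) (hf : ContDiff ℝ ∞ f)
    (hc : HasCompactSupport f) (hs : 0 < s) :
    ∃ (k : ℕ) (m : Fin k → ℂ) (l : Fin k → ℝ) (b : Fin k → ℂ → ℂ) (g : ℂ → ℂ),
      (∀ i, 0 < l i) ∧ (∀ i, ContDiff ℝ ∞ (b i)) ∧
      (∀ i, tsupport (b i) ⊆ Metric.closedBall (m i) (l i)) ∧ (∀ i, ∫ z, b i z = 0) ∧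
      ContDiff ℝ ∞ g ∧ HasCompactSupport g ∧ (∀ z, f z = g z + ∑ i, b i z) ∧
      ∫ z, ‖g z‖ ^ 2 ≤ 36 * s * ∫ z, ‖f z‖ ∧ ∑ i, ∫ z, ‖b i z‖ ≤ 2 * ∫ z, ‖f z‖ ∧
      s * ∑ i, l i ^ 2 ≤ ∫ z, ‖f z‖ := by
  obtain ⟨k, c, l, hl, hd, hlo, hup, hoff⟩ := h1 f s hf hc hs
  obtain ⟨M, hM⟩ := hf.continuous.bounded_above_of_compact_support hc
  have hM0 : 0 ≤ M := (norm_nonneg _).trans (hM 0)
  have hfi : Integrable (fun z => ‖f z‖) := (hf.continuous.integrable_of_hasCompactSupport hc).norm
  set J : Fin k → ℝ := fun i => ∫ z in Sq (c i) (l i), ‖f z‖ with hJ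
  have hJ0 : ∀ i, 0 < J i := fun i => lt_of_lt_of_le (by have := hl i; positivity) (hlo i)
  set δ : Fin k → ℝ := fun i => min (l i ^ 2 / 2) (s * J i / (M ^ 2 + 1)) with hδ
  have hδ0 : ∀ i, 0 < δ i := fun i => by
    have h1 := hl i
    have h2 := hJ0 i
    exact lt_min (by positivity) (by positivity)
  choose χ sχ bχ zχ iχ using fun i => exists_chi (c i) (hl i) (hδ0 i)
  have kχ : ∀ i, HasCompactSupport (χ i) := fun i =>
    HasCompactSupport.intro (isCompact_closedBall (ctr (c i) (l i)) (l i))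
      fun z hz => zχ i z fun h => hz (Sq_ball h)
  have iiχ : ∀ i, Integrable (χ i) := fun i =>
    (sχ i).continuous.integrable_of_hasCompactSupport (kχ i)
  have hvt : ∀ i, (volume : Measure ℂ) (Sq (c i) (l i)) ≠ ⊤ := fun i => by
    rw [vol_Sq (c i) (hl i)]; exact ENNReal.ofReal_ne_top
  have hvr : ∀ i, (volume : Measure ℂ).real (Sq (c i) (l i)) = l i ^ 2 := fun i => by
    rw [Measure.real, vol_Sq (c i) (hl i), ENNReal.toReal_ofReal (sq_nonneg _)]
  have hone : ∀ i, IntegrableOn (fun _ : ℂ => (1 : ℝ)) (Sq (c i) (l i)) := fun i =>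
    integrableOn_const (hvt i)
  set X : Fin k → ℝ := fun i => ∫ z, χ i z with hX
  have hXe : ∀ i, X i = ∫ z in Sq (c i) (l i), χ i z := fun i => by
    rw [setIntegral_eq_integral_of_forall_compl_eq_zero fun z hz => zχ i z hz]
  have hXe2 : ∀ i, ∫ z in Sq (c i) (l i), (1 - χ i z) = l i ^ 2 - X i := fun i => by
    rw [integral_sub (hone i) (iiχ i).integrableOn, hXe i, setIntegral_const, hvr i]
    simp
  have hX1 : ∀ i, l i ^ 2 / 2 ≤ X i := fun i => by
    have h2 := iχ i
    rw [hXe2 i] at h2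
    have h3 : δ i ≤ l i ^ 2 / 2 := min_le_left _ _
    linarith
  have hX0 : ∀ i, 0 < X i := fun i => lt_of_lt_of_le (by have := hl i; positivity) (hX1 i)
  have hX2 : ∀ i, X i ≤ l i ^ 2 := fun i => by
    have h2 : 0 ≤ ∫ z in Sq (c i) (l i), (1 - χ i z) :=
      integral_nonneg fun z => by have := (bχ i z).2; simpa using this
    rw [hXe2 i] at h2
    linarith
  -- integral of χ f
  have sχC : ∀ i, ContDiff ℝ ∞ (fun z => (χ i z : ℂ)) := fun i =>
    Complex.ofRealCLM.contDiff.comp (sχ i)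
  have kχC : ∀ i, HasCompactSupport (fun z => (χ i z : ℂ)) := fun i =>
    (kχ i).comp_left (g := fun x : ℝ => (x : ℂ)) (by simp)
  have hprod : ∀ i, ∫ z, ‖(χ i z : ℂ) * f z‖ ≤ J i := fun i => by
    have e : ∫ z, ‖(χ i z : ℂ) * f z‖ = ∫ z in Sq (c i) (l i), ‖(χ i z : ℂ) * f z‖ := by
      rw [setIntegral_eq_integral_of_forall_compl_eq_zero]
      intro z hz
      rw [zχ i z hz]
      simp
    rw [e]
    refine setIntegral_mono_on ?_ hfi.integrableOn (meas_Sq _ _) fun z _ => ?_
    · exact (((sχC i).continuous.mul hf.continuous).integrable_of_hasCompactSupport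
        ((kχC i).mul_right)).norm.integrableOn
    · rw [norm_mul, Complex.norm_real, Real.norm_of_nonneg (bχ i z).1]
      exact mul_le_of_le_one_left (norm_nonneg _) (bχ i z).2
  set q : Fin k → ℂ := fun i => (∫ z, (χ i z : ℂ) * f z) / (X i : ℂ) with hq
  have hqX : ∀ i, ‖q i‖ * X i ≤ J i := fun i => by
    have e : ‖q i‖ * X i = ‖∫ z, (χ i z : ℂ) * f z‖ := by
      simp only [hq]
      rw [norm_div, Complex.norm_real, Real.norm_of_nonneg (hX0 i).le,
        div_mul_cancel₀ _ (hX0 i).ne']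
    rw [e]
    exact (norm_integral_le_integral_norm _).trans (hprod i)
  have hq8 : ∀ i, ‖q i‖ ≤ 8 * s := fun i => by
    have h2 := hqX i
    have h3 := hup i
    have h4 := hX1 i
    have h5 : 0 < l i ^ 2 := by have := hl i; positivity
    by_contra hcon
    push Not at hcon
    have h6 : 8 * s * (l i ^ 2 / 2) < ‖q i‖ * X i := by
      calc 8 * s * (l i ^ 2 / 2) < ‖q i‖ * (l i ^ 2 / 2) := by
            exact mul_lt_mul_of_pos_right hcon (by positivity)
        _ ≤ ‖q i‖ * X i := mul_le_mul_of_nonneg_left h4 (norm_nonneg _)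
    have h7 : J i ≤ 4 * s * l i ^ 2 := h3
    linarith
  set b : Fin k → ℂ → ℂ := fun i z => (χ i z : ℂ) * (f z - q i) with hb
  have sb : ∀ i, ContDiff ℝ ∞ (b i) := fun i => (sχC i).mul (hf.sub contDiff_const)
  have kb : ∀ i, HasCompactSupport (b i) := fun i => (kχC i).mul_right
  have zb : ∀ i z, z ∉ Sq (c i) (l i) → b i z = 0 := fun i z hz => by
    simp only [hb]
    rw [zχ i z hz]
    simp
  have hsup : ∀ i, tsupport (b i) ⊆ Metric.closedBall (ctr (c i) (l i)) (l i) := fun i => by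
    refine closure_minimal (fun z hz => ?_) Metric.isClosed_closedBall
    by_contra h
    exact hz (zb i z fun h' => h (Sq_ball h'))
  have hmean : ∀ i, ∫ z, b i z = 0 := fun i => by
    have e1 : Integrable (fun z => (χ i z : ℂ) * f z) :=
      ((sχC i).continuous.mul hf.continuous).integrable_of_hasCompactSupport ((kχC i).mul_right)
    have e2 : Integrable (fun z => (χ i z : ℂ) * q i) :=
      ((iiχ i).ofReal (𝕜 := ℂ)).mul_const _
    have e3 : ∫ z, b i z = (∫ z, (χ i z : ℂ) * f z) - ∫ z, (χ i z : ℂ) * q i := by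
      rw [← integral_sub e1 e2]
      refine integral_congr_ae (Filter.Eventually.of_forall fun z => ?_)
      simp only [hb]; ring
    have e4 : ∫ z, (χ i z : ℂ) = (X i : ℂ) := integral_ofReal
    rw [e3, integral_mul_const, e4]
    have hX' : (X i : ℂ) ≠ 0 := by exact_mod_cast (hX0 i).ne'
    simp only [hq]
    field_simp
    ring
  have hbn : ∀ i, ∫ z, ‖b i z‖ ≤ 2 * J i := fun i => by
    have e1 : Integrable (fun z => ‖(χ i z : ℂ) * f z‖) :=
      (((sχC i).continuous.mul hf.continuous).integrable_of_hasCompactSupport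
        ((kχC i).mul_right)).norm
    calc ∫ z, ‖b i z‖ ≤ ∫ z, (‖(χ i z : ℂ) * f z‖ + ‖q i‖ * χ i z) := by
          refine integral_mono ((sb i).continuous.integrable_of_hasCompactSupport (kb i)).norm
            (e1.add ((iiχ i).const_mul _)) fun z => ?_
          have e : b i z = (χ i z : ℂ) * f z - (χ i z : ℂ) * q i := by simp only [hb]; ring
          simp only []
          rw [e]
          refine (norm_sub_le _ _).trans ?_
          rw [norm_mul (χ i z : ℂ) (q i), Complex.norm_real, Real.norm_of_nonneg (bχ i z).1]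
          linarith [mul_comm (χ i z) ‖q i‖]
      _ = (∫ z, ‖(χ i z : ℂ) * f z‖) + ‖q i‖ * X i := by
          rw [integral_add e1 ((iiχ i).const_mul _), integral_const_mul]
      _ ≤ 2 * J i := by linarith [hprod i, hqX i]
  have hsumJ : ∑ i, J i ≤ ∫ z, ‖f z‖ := by
    have e : ∫ z in ⋃ i, Sq (c i) (l i), ‖f z‖ = ∑ i, J i :=
      integral_iUnion_fintype (fun i => meas_Sq _ _) (fun i j hij => hd i j hij)
        fun i => hfi.integrableOn
    rw [← e]
    exact setIntegral_le_integral hfi (Filter.Eventually.of_forall fun z => norm_nonneg _)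
  have hS := sum_supp b sb kb Finset.univ
  refine ⟨k, fun i => ctr (c i) (l i), l, b, fun z => f z - ∑ i, b i z, hl, sb, hsup, hmean,
    hf.sub hS.1, ?_, fun z => by ring, ?_, ?_, ?_⟩
  · exact hc.sub hS.2
  · have hterm0 : ∀ i z, 0 ≤ 2 * M ^ 2 * (1 - χ i z) + 2 * ‖q i‖ ^ 2 := fun i z => by
      have := (bχ i z).2
      have h2 : 0 ≤ 1 - χ i z := by linarith
      positivity
    have hind0 : ∀ i z, 0 ≤ (Sq (c i) (l i)).indicator
        (fun z => 2 * M ^ 2 * (1 - χ i z) + 2 * ‖q i‖ ^ 2) z := fun i z =>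
      Set.indicator_nonneg (fun w _ => hterm0 i w) z
    have hind : ∀ i, IntegrableOn (fun z => 2 * M ^ 2 * (1 - χ i z) + 2 * ‖q i‖ ^ 2)
        (Sq (c i) (l i)) := fun i => by
      have h2 : IntegrableOn (fun z => 1 - χ i z) (Sq (c i) (l i)) :=
        (hone i).sub (iiχ i).integrableOn
      exact (h2.const_mul _).add (integrableOn_const (hvt i))
    have hindi : ∀ i, Integrable ((Sq (c i) (l i)).indicator
        (fun z => 2 * M ^ 2 * (1 - χ i z) + 2 * ‖q i‖ ^ 2)) := fun i =>
      (integrable_indicator_iff (meas_Sq _ _)).2 (hind i)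
    have hHi : Integrable (fun z => 2 * s * ‖f z‖ + ∑ i, (Sq (c i) (l i)).indicator
        (fun z => 2 * M ^ 2 * (1 - χ i z) + 2 * ‖q i‖ ^ 2) z) :=
      (hfi.const_mul _).add (integrable_finsetSum _ fun i _ => hindi i)
    have hpt : ∀ z, ‖f z - ∑ i, b i z‖ ^ 2 ≤ 2 * s * ‖f z‖ + ∑ i, (Sq (c i) (l i)).indicator
        (fun z => 2 * M ^ 2 * (1 - χ i z) + 2 * ‖q i‖ ^ 2) z := fun z => by
      by_cases h : ∃ j, z ∈ Sq (c j) (l j)
      · obtain ⟨j, hj⟩ := h
        have e1 : ∑ i, b i z = b j z := by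
          refine Finset.sum_eq_single j (fun i _ hij => ?_) (fun h => absurd (Finset.mem_univ j) h)
          exact zb i z fun h' => (Set.disjoint_left.1 (hd i j hij)) h' hj
        have e2 : f z - b j z = (1 - χ j z : ℝ) * f z + (χ j z : ℂ) * q j := by
          simp only [hb]; push_cast; ring
        have h0 := bχ j z
        have h3 : ‖f z - b j z‖ ≤ (1 - χ j z) * ‖f z‖ + χ j z * ‖q j‖ := by
          rw [e2]
          refine (norm_add_le _ _).trans ?_
          rw [norm_mul, norm_mul, Complex.norm_real, Complex.norm_real,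
            Real.norm_of_nonneg h0.1, Real.norm_of_nonneg (by linarith)]
        have h4 : ‖f z - b j z‖ ^ 2 ≤ 2 * M ^ 2 * (1 - χ j z) + 2 * ‖q j‖ ^ 2 := by
          have h5 : ‖f z - b j z‖ ^ 2 ≤ ((1 - χ j z) * ‖f z‖ + χ j z * ‖q j‖) ^ 2 :=
            pow_le_pow_left₀ (norm_nonneg _) h3 2
          have h6 : ((1 - χ j z) * ‖f z‖ + χ j z * ‖q j‖) ^ 2 ≤
              2 * ((1 - χ j z) * ‖f z‖) ^ 2 + 2 * (χ j z * ‖q j‖) ^ 2 := by
            nlinarith [sq_nonneg ((1 - χ j z) * ‖f z‖ - χ j z * ‖q j‖)]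
          have h7 : ((1 - χ j z) * ‖f z‖) ^ 2 ≤ M ^ 2 * (1 - χ j z) := by
            rw [mul_pow]
            have h8 : ‖f z‖ ^ 2 ≤ M ^ 2 := pow_le_pow_left₀ (norm_nonneg _) (hM z) 2
            have h9 : (1 - χ j z) ^ 2 ≤ 1 - χ j z := by nlinarith [h0.1, h0.2]
            calc (1 - χ j z) ^ 2 * ‖f z‖ ^ 2 ≤ (1 - χ j z) * M ^ 2 :=
                  mul_le_mul h9 h8 (sq_nonneg _) (by linarith [h0.2])
              _ = M ^ 2 * (1 - χ j z) := by ring
          have h10 : (χ j z * ‖q j‖) ^ 2 ≤ ‖q j‖ ^ 2 := by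
            refine pow_le_pow_left₀ (mul_nonneg h0.1 (norm_nonneg _)) ?_ 2
            exact mul_le_of_le_one_left (norm_nonneg _) h0.2
          linarith
        have h11 : 2 * M ^ 2 * (1 - χ j z) + 2 * ‖q j‖ ^ 2 ≤ ∑ i, (Sq (c i) (l i)).indicator
            (fun z => 2 * M ^ 2 * (1 - χ i z) + 2 * ‖q i‖ ^ 2) z := by
          have h12 := Finset.single_le_sum (s := Finset.univ) (f := fun i => (Sq (c i) (l i)).indicator
            (fun z => 2 * M ^ 2 * (1 - χ i z) + 2 * ‖q i‖ ^ 2) z) (fun i _ => hind0 i z)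
            (Finset.mem_univ j)
          rwa [Set.indicator_of_mem hj] at h12
        rw [e1]
        have h13 : 0 ≤ 2 * s * ‖f z‖ := by positivity
        linarith
      · push Not at h
        have e1 : ∑ i, b i z = 0 := Finset.sum_eq_zero fun i _ => zb i z (h i)
        rw [e1, sub_zero]
        have h2 := hoff z h
        have h3 : 0 ≤ ∑ i, (Sq (c i) (l i)).indicator
            (fun z => 2 * M ^ 2 * (1 - χ i z) + 2 * ‖q i‖ ^ 2) z :=
          Finset.sum_nonneg fun i _ => hind0 i z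
        nlinarith [norm_nonneg (f z)]
    have hpi : Integrable (fun z => ‖f z - ∑ i, b i z‖ ^ 2) := by
      have hcs : HasCompactSupport (fun z => f z - ∑ i, b i z) := hc.sub hS.2
      refine Continuous.integrable_of_hasCompactSupport
        (((hf.sub hS.1).continuous).norm.pow 2) ?_
      exact hcs.comp_left (g := fun x : ℂ => ‖x‖ ^ 2) (by simp)
    calc ∫ z, ‖f z - ∑ i, b i z‖ ^ 2 ≤ ∫ z, (2 * s * ‖f z‖ + ∑ i, (Sq (c i) (l i)).indicator
          (fun z => 2 * M ^ 2 * (1 - χ i z) + 2 * ‖q i‖ ^ 2) z) := integral_mono hpi hHi hpt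
      _ = 2 * s * (∫ z, ‖f z‖) + ∑ i, (2 * M ^ 2 * (l i ^ 2 - X i) + 2 * ‖q i‖ ^ 2 * l i ^ 2) := by
          rw [integral_add (hfi.const_mul _) (integrable_finsetSum _ fun i _ => hindi i),
            integral_const_mul, integral_finsetSum _ fun i _ => hindi i]
          congr 1
          refine Finset.sum_congr rfl fun i _ => ?_
          rw [integral_indicator (meas_Sq _ _), integral_add, integral_const_mul, hXe2 i,
            setIntegral_const, hvr i, smul_eq_mul]
          · ring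
          · exact ((hone i).sub (iiχ i).integrableOn).const_mul _
          · exact integrableOn_const (hvt i)
      _ ≤ 2 * s * (∫ z, ‖f z‖) + ∑ i, 34 * s * J i := by
          gcongr with i _
          have h2 : M ^ 2 * (l i ^ 2 - X i) ≤ s * J i := by
            have h3 := iχ i
            rw [hXe2 i] at h3
            have h4 : δ i ≤ s * J i / (M ^ 2 + 1) := min_le_right _ _
            have h5 : l i ^ 2 - X i ≤ s * J i / (M ^ 2 + 1) := h3.trans h4
            have h6 : 0 ≤ s * J i := by have := hJ0 i; positivity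
            calc M ^ 2 * (l i ^ 2 - X i) ≤ M ^ 2 * (s * J i / (M ^ 2 + 1)) :=
                  mul_le_mul_of_nonneg_left h5 (sq_nonneg _)
              _ = (M ^ 2 / (M ^ 2 + 1)) * (s * J i) := by ring
              _ ≤ 1 * (s * J i) := by
                  refine mul_le_mul_of_nonneg_right ?_ h6
                  rw [div_le_one (by positivity)]
                  linarith
              _ = s * J i := one_mul _
          have h7 : ‖q i‖ ^ 2 * l i ^ 2 ≤ 16 * s * J i := by
            have h8 : l i ^ 2 ≤ 2 * X i := by linarith [hX1 i]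
            calc ‖q i‖ ^ 2 * l i ^ 2 = ‖q i‖ * (‖q i‖ * l i ^ 2) := by ring
              _ ≤ (8 * s) * (‖q i‖ * (2 * X i)) := by
                  refine mul_le_mul (hq8 i) ?_ (by positivity) (by positivity)
                  exact mul_le_mul_of_nonneg_left h8 (norm_nonneg _)
              _ = 16 * s * (‖q i‖ * X i) := by ring
              _ ≤ 16 * s * J i := by
                  refine mul_le_mul_of_nonneg_left (hqX i) (by positivity)
          linarith
      _ = 2 * s * (∫ z, ‖f z‖) + 34 * s * ∑ i, J i := by rw [Finset.mul_sum]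
      _ ≤ 36 * s * ∫ z, ‖f z‖ := by nlinarith [hsumJ]
  · calc ∑ i, ∫ z, ‖b i z‖ ≤ ∑ i, 2 * J i := Finset.sum_le_sum fun i _ => hbn i
      _ = 2 * ∑ i, J i := by rw [Finset.mul_sum]
      _ ≤ 2 * ∫ z, ‖f z‖ := by linarith
  · calc s * ∑ i, l i ^ 2 = ∑ i, s * l i ^ 2 := by rw [Finset.mul_sum]
      _ ≤ ∑ i, J i := Finset.sum_le_sum fun i _ => hlo i
      _ ≤ ∫ z, ‖f z‖ := hsumJ

/-- Chebyshev for squares -/
theorem cheb2 {u : ℂ → ℂ} {t : ℝ} (ht : 0 < t)
    (hi : Integrable (fun z => ‖u z‖ ^ 2)) :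
    (volume : Measure ℂ) {z | t < ‖u z‖} ≤ ENNReal.ofReal ((∫ z, ‖u z‖ ^ 2) / t ^ 2) := by
  have h1 : {z | t < ‖u z‖} ⊆ {z | ENNReal.ofReal (t ^ 2) ≤ ENNReal.ofReal (‖u z‖ ^ 2)} := by
    intro z hz
    have hz' : t < ‖u z‖ := hz
    exact ENNReal.ofReal_le_ofReal (pow_le_pow_left₀ ht.le hz'.le 2)
  have h2 := meas_ge_le_lintegral_div (μ := (volume : Measure ℂ))
    (f := fun z => ENNReal.ofReal (‖u z‖ ^ 2))
    (hi.aestronglyMeasurable.aemeasurable.ennreal_ofReal) (ε := ENNReal.ofReal (t ^ 2))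
    (ENNReal.ofReal_pos.2 (by positivity)).ne' ENNReal.ofReal_ne_top
  refine (measure_mono h1).trans (h2.trans (le_of_eq ?_))
  rw [← ofReal_integral_eq_lintegral_ofReal hi
    (Filter.Eventually.of_forall fun z => sq_nonneg _), ENNReal.ofReal_div_of_pos (by positivity)]

end

end WKT

open WKT in
theorem wKT (h1 : StmtCZD) (h2 : StmtBL2) (h3 : StmtBLK) : StmtWKT := by
  obtain ⟨C, hC, h3⟩ := h3
  refine ⟨144 + 4 * Real.pi + 4 * C, by positivity, fun f s hf hc hs => ?_⟩
  obtain ⟨k, m, l, b, g, hl, sb, tb, mb, sg, kg, hfg, hg2, hb1, hl2⟩ := decomp h1 f s hf hc hs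
  set I : ℝ := ∫ z, ‖f z‖ with hI
  have hI0 : 0 ≤ I := integral_nonneg fun z => norm_nonneg _
  have kb : ∀ i, HasCompactSupport (b i) := fun i =>
    (isCompact_closedBall _ _).of_isClosed_subset (isClosed_tsupport _) (tb i)
  have hS := sum_supp b sb kb Finset.univ
  have hbeu : ∀ z, beu f z = beu g z + ∑ i, beu (b i) z := fun z => by
    have e : f = fun w => g w + ∑ i, b i w := funext hfg
    rw [← beu_sum b sb kb Finset.univ z, ← beu_add sg kg hS.1 hS.2, ← e]
  obtain ⟨ig, lg⟩ := h2 g sg kg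
  set Ω : Set ℂ := ⋃ i, Metric.ball (m i) (2 * l i) with hΩ
  have hsub : {z | s < ‖beu f z‖} ⊆ {z | s / 2 < ‖beu g z‖} ∪ (Ω ∪
      ({z | s / 2 < ‖∑ i, beu (b i) z‖} ∩ Ωᶜ)) := by
    intro z hz
    have hz' : s < ‖beu f z‖ := hz
    by_cases h4 : s / 2 < ‖beu g z‖
    · exact Or.inl h4
    by_cases h5 : z ∈ Ω
    · exact Or.inr (Or.inl h5)
    refine Or.inr (Or.inr ⟨?_, h5⟩)
    rw [hbeu z] at hz'
    have h6 := norm_add_le (beu g z) (∑ i, beu (b i) z)
    show s / 2 < ‖∑ i, beu (b i) z‖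
    push Not at h4
    linarith
  have p1 : (volume : Measure ℂ) {z | s / 2 < ‖beu g z‖} ≤ ENNReal.ofReal (144 / s * I) := by
    refine (cheb2 (by positivity) ig).trans (ENNReal.ofReal_le_ofReal ?_)
    rw [div_le_iff₀ (by positivity)]
    calc ∫ z, ‖beu g z‖ ^ 2 ≤ 36 * s * I := lg.trans hg2
      _ = 144 / s * I * (s / 2) ^ 2 := by field_simp; ring
  have p2 : (volume : Measure ℂ) Ω ≤ ENNReal.ofReal (4 * Real.pi / s * I) := by
    calc (volume : Measure ℂ) Ω ≤ ∑ i, (volume : Measure ℂ) (Metric.ball (m i) (2 * l i)) := by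
          rw [hΩ]
          exact measure_iUnion_fintype_le _ _
      _ = ∑ i, ENNReal.ofReal (4 * Real.pi * l i ^ 2) := by
          refine Finset.sum_congr rfl fun i _ => ?_
          have := hl i
          rw [Complex.volume_ball, ← ENNReal.ofReal_pow (by positivity)]
          rw [show ((NNReal.pi : NNReal) : ENNReal) = ENNReal.ofReal Real.pi from by
            rw [← NNReal.coe_real_pi, ENNReal.ofReal_coe_nnreal]]
          rw [← ENNReal.ofReal_mul (by positivity)]
          congr 1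
          ring
      _ = ENNReal.ofReal (∑ i, 4 * Real.pi * l i ^ 2) := by
          rw [ENNReal.ofReal_sum_of_nonneg]
          intro i _
          positivity
      _ ≤ ENNReal.ofReal (4 * Real.pi / s * I) := by
          refine ENNReal.ofReal_le_ofReal ?_
          rw [← Finset.mul_sum]
          have h4 : ∑ i, l i ^ 2 ≤ I / s := by
            rw [le_div_iff₀ hs]
            linarith
          calc 4 * Real.pi * ∑ i, l i ^ 2 ≤ 4 * Real.pi * (I / s) := by gcongr
            _ = 4 * Real.pi / s * I := by ring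
  have p3 : (volume : Measure ℂ) ({z | s / 2 < ‖∑ i, beu (b i) z‖} ∩ Ωᶜ) ≤
      ENNReal.ofReal (4 * C / s * I) := by
    have hΩm : MeasurableSet Ω := (isOpen_iUnion fun i => Metric.isOpen_ball).measurableSet
    have hcont : Continuous (fun z => ∑ i, beu (b i) z) :=
      continuous_finsetSum _ fun i _ => beu_cont (sb i) (kb i)
    have h4 : (volume : Measure ℂ) ({z | s / 2 < ‖∑ i, beu (b i) z‖} ∩ Ωᶜ) ≤
        ((volume : Measure ℂ).restrict Ωᶜ)
          {z | ENNReal.ofReal (s / 2) ≤ ENNReal.ofReal ‖∑ i, beu (b i) z‖} := by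
      rw [← Measure.restrict_apply (isOpen_lt continuous_const hcont.norm).measurableSet]
      refine measure_mono fun z hz => ?_
      have hz' : s / 2 < ‖∑ i, beu (b i) z‖ := hz
      exact ENNReal.ofReal_le_ofReal hz'.le
    have h5 := meas_ge_le_lintegral_div (μ := (volume : Measure ℂ).restrict Ωᶜ)
      (f := fun z => ENNReal.ofReal ‖∑ i, beu (b i) z‖)
      (hcont.norm.measurable.ennreal_ofReal.aemeasurable) (ε := ENNReal.ofReal (s / 2))
      (ENNReal.ofReal_pos.2 (by positivity)).ne' ENNReal.ofReal_ne_top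
    have h6 : ∫⁻ z in Ωᶜ, ENNReal.ofReal ‖∑ i, beu (b i) z‖ ≤ ENNReal.ofReal (C * (2 * I)) := by
      calc ∫⁻ z in Ωᶜ, ENNReal.ofReal ‖∑ i, beu (b i) z‖
          ≤ ∫⁻ z in Ωᶜ, ∑ i, ENNReal.ofReal ‖beu (b i) z‖ := by
            refine lintegral_mono fun z => ?_
            rw [← ENNReal.ofReal_sum_of_nonneg fun i _ => norm_nonneg _]
            exact ENNReal.ofReal_le_ofReal (norm_sum_le _ _)
        _ = ∑ i, ∫⁻ z in Ωᶜ, ENNReal.ofReal ‖beu (b i) z‖ :=
            lintegral_finsetSum _ fun i _ =>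
              (beu_cont (sb i) (kb i)).norm.measurable.ennreal_ofReal
        _ ≤ ∑ i, ENNReal.ofReal (C * ∫ z, ‖b i z‖) := by
            refine Finset.sum_le_sum fun i _ => ?_
            refine le_trans ?_ (h3 (b i) (m i) (l i) (sb i) (hl i) (tb i) (mb i))
            refine lintegral_mono_set fun z hz => ?_
            have hz' : z ∉ Ω := hz
            show 2 * l i ≤ ‖z - m i‖
            by_contra hcon
            push Not at hcon
            refine hz' (Set.mem_iUnion.2 ⟨i, ?_⟩)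
            rw [Metric.mem_ball, dist_eq_norm]
            exact hcon
        _ = ENNReal.ofReal (∑ i, C * ∫ z, ‖b i z‖) := by
            rw [ENNReal.ofReal_sum_of_nonneg]
            intro i _
            exact mul_nonneg hC.le (integral_nonneg fun z => norm_nonneg _)
        _ ≤ ENNReal.ofReal (C * (2 * I)) := by
            refine ENNReal.ofReal_le_ofReal ?_
            rw [← Finset.mul_sum]
            exact mul_le_mul_of_nonneg_left hb1 hC.le
    refine h4.trans (h5.trans ?_)
    calc (∫⁻ z in Ωᶜ, ENNReal.ofReal ‖∑ i, beu (b i) z‖) / ENNReal.ofReal (s / 2)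
        ≤ ENNReal.ofReal (C * (2 * I)) / ENNReal.ofReal (s / 2) := by gcongr
      _ = ENNReal.ofReal (C * (2 * I) / (s / 2)) :=
          (ENNReal.ofReal_div_of_pos (half_pos hs)).symm
      _ = ENNReal.ofReal (4 * C / s * I) := by
          congr 1
          field_simp
          ring
  calc (volume : Measure ℂ) {z | s < ‖beu f z‖}
      ≤ volume {z | s / 2 < ‖beu g z‖} + (volume Ω +
        volume ({z | s / 2 < ‖∑ i, beu (b i) z‖} ∩ Ωᶜ)) := by
        refine (measure_mono hsub).trans ((measure_union_le _ _).trans ?_)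
        gcongr
        exact measure_union_le _ _
    _ ≤ ENNReal.ofReal (144 / s * I) + (ENNReal.ofReal (4 * Real.pi / s * I) +
        ENNReal.ofReal (4 * C / s * I)) := by gcongr
    _ = ENNReal.ofReal ((144 + 4 * Real.pi + 4 * C) / s * I) := by
        rw [← ENNReal.ofReal_add (by positivity) (by positivity),
          ← ENNReal.ofReal_add (by positivity) (by positivity)]
        congr 1
        ring

end BSL
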