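import Pool.Agent.BSL.St2
import Pool.Agent.BWM.C27

/-!
# WTS: existence of the weights
-/

open Complex MeasureTheory Filter Topology Set Metric
open scoped ContDiff

namespace BSL

open QE QJ U3 QJ.DSP

noncomputable section

namespace WTS

/-- local means on the scale `ρ h` -/
def LM (ρ h : ℝ) (g : ℂ → ℝ) (z : ℂ) : ℝ := 1 / h ^ 2 * ∫ w in closedBall z (ρ * h), g w

variable {ρ h : ℝ} {f g : ℂ → ℝ} {z : ℂ}

lemma io (hg : Continuous g) (z : ℂ) (r : ℝ) : IntegrableOn g (closedBall z r) :=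
  hg.continuousOn.integrableOn_compact (isCompact_closedBall _ _)

lemma LM_cont (hg : Continuous g) (ρ h : ℝ) : Continuous (LM ρ h g) :=
  continuous_const.mul (continuous_ball hg _)

lemma LM_nonneg (hg : ∀ w, 0 ≤ g w) : 0 ≤ LM ρ h g z :=
  mul_nonneg (by positivity) (integral_nonneg hg)

lemma LM_mono (hf : Continuous f) (hg : Continuous g) (hfg : ∀ w, f w ≤ g w) :
    LM ρ h f z ≤ LM ρ h g z :=
  mul_le_mul_of_nonneg_left (setIntegral_mono (io hf _ _) (io hg _ _) hfg) (by positivity)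

lemma LM_mono_r {ρ' : ℝ} (hh : 0 < h) (hg : Continuous g) (h0 : ∀ w, 0 ≤ g w) (hρ : ρ ≤ ρ') :
    LM ρ h g z ≤ LM ρ' h g z :=
  mul_le_mul_of_nonneg_left (setIntegral_mono_set (io hg _ _) (Eventually.of_forall h0)
    (Eventually.of_forall (closedBall_subset_closedBall (mul_le_mul_of_nonneg_right hρ hh.le))))
    (by positivity)

lemma LM_add (hf : Continuous f) (hg : Continuous g) :
    LM ρ h (fun w => f w + g w) z = LM ρ h f z + LM ρ h g z := by
  unfold LM
  rw [integral_add (io hf _ _) (io hg _ _)]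
  ring

lemma LM_smul (c : ℝ) : LM ρ h (fun w => c * g w) z = c * LM ρ h g z := by
  unfold LM
  rw [integral_const_mul]
  ring

lemma LM_const (hh : 0 < h) (hρ : 0 ≤ ρ) (a : ℝ) :
    LM ρ h (fun _ => a) z = Real.pi * ρ ^ 2 * a := by
  unfold LM
  rw [setIntegral_const, smul_eq_mul, Measure.real, vol_ball z (by positivity)]
  field_simp

/-- Jensen's inequality for the positive part -/
lemma LM_pos (hh : 0 < h) (hρ : 0 < ρ) (hg : Continuous g) (a : ℝ) :
    LM ρ h g z ≤ a + LM ρ h (fun w => max (g w - a / (Real.pi * ρ ^ 2)) 0) z := by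
  have hc : Continuous fun w => max (g w - a / (Real.pi * ρ ^ 2)) 0 :=
    (hg.sub continuous_const).max continuous_const
  have h1 : LM ρ h g z ≤ LM ρ h (fun w => a / (Real.pi * ρ ^ 2)
      + max (g w - a / (Real.pi * ρ ^ 2)) 0) z :=
    LM_mono hg (continuous_const.add hc) fun w => by
      have := le_max_left (g w - a / (Real.pi * ρ ^ 2)) 0
      linarith
  rw [LM_add continuous_const hc, LM_const hh hρ.le] at h1
  have h2 : Real.pi * ρ ^ 2 * (a / (Real.pi * ρ ^ 2)) = a := by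
    have := Real.pi_pos
    field_simp
  rw [h2] at h1
  exact h1

/-- the Cauchy-Schwarz inequality -/
lemma LM_sq (hh : 0 < h) (hρ : 0 < ρ) (hg : Continuous g) :
    LM ρ h g z ^ 2 ≤ Real.pi * ρ ^ 2 * LM ρ h (fun w => g w ^ 2) z := by
  have hπ := Real.pi_pos
  set P : ℝ := Real.pi * ρ ^ 2 with hP
  have hP0 : 0 < P := by positivity
  set t : ℝ := LM ρ h g z / P with ht
  have h1 : 0 ≤ LM ρ h (fun w => g w ^ 2 + ((-2 * t) * g w + t ^ 2)) z :=
    LM_nonneg fun w => by nlinarith [sq_nonneg (g w - t)]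
  rw [LM_add (f := fun w => g w ^ 2) (g := fun w => (-2 * t) * g w + t ^ 2) (hg.pow 2)
      ((continuous_const.mul hg).add continuous_const),
    LM_add (f := fun w => (-2 * t) * g w) (g := fun _ => t ^ 2) (continuous_const.mul hg)
      continuous_const, LM_smul, LM_const hh hρ.le, ← hP] at h1
  have h2 : LM ρ h g z = t * P := by rw [ht]; field_simp
  rw [h2] at h1 ⊢
  have h3 : t ^ 2 * P ≤ LM ρ h (fun w => g w ^ 2) z := by nlinarith
  calc (t * P) ^ 2 = P * (t ^ 2 * P) := by ring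
    _ ≤ P * LM ρ h (fun w => g w ^ 2) z := mul_le_mul_of_nonneg_left h3 hP0.le

/-- Tonelli -/
lemma LM_int {K K' : Set ℂ} (hK : IsCompact K) (hK' : IsCompact K') (hh : 0 < h) (hρ : 0 ≤ ρ)
    (hg : Continuous g) (h0 : ∀ w, 0 ≤ g w)
    (hsub : ∀ z ∈ K, ∀ v : ℂ, ‖v‖ ≤ ρ * h → z + v ∈ K') :
    ∫ z in K, LM ρ h g z ≤ Real.pi * ρ ^ 2 * ∫ w in K', g w := by
  have h1 := fub hg h0 hK hK' (by positivity : 0 ≤ ρ * h) hsub
  unfold LM
  rw [integral_const_mul]
  calc 1 / h ^ 2 * ∫ z in K, ∫ w in closedBall z (ρ * h), g w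
      ≤ 1 / h ^ 2 * (Real.pi * (ρ * h) ^ 2 * ∫ w in K', g w) :=
        mul_le_mul_of_nonneg_left h1 (by positivity)
    _ = Real.pi * ρ ^ 2 * ∫ w in K', g w := by field_simp

/-- smooth cut-offs -/
structure Ker {X : Type*} [NormedAddCommGroup X] [NormedSpace ℝ X] (L : ℝ) (κ : X → ℝ) (Λ : ℝ) :
    Prop where
  sm : ContDiff ℝ ∞ κ
  cs : HasCompactSupport κ
  nn : ∀ u, 0 ≤ κ u
  le : ∀ u, κ u ≤ 1
  one : ∀ u, ‖u‖ ≤ L → κ u = 1
  zero : ∀ u, L + 1 ≤ ‖u‖ → κ u = 0
  lip : ∀ u v, |κ u - κ v| ≤ Λ * ‖u - v‖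
  pos : 0 ≤ Λ

lemma exists_ker (X : Type*) [NormedAddCommGroup X] [NormedSpace ℝ X] [FiniteDimensional ℝ X]
    [HasContDiffBump X] {L : ℝ} (hL : 0 < L) : ∃ (κ : X → ℝ) (Λ : ℝ), Ker L κ Λ := by
  let b : ContDiffBump (0 : X) := ⟨L, L + 1, hL, by linarith⟩
  obtain ⟨C, hC⟩ := ContDiff.lipschitzWith_of_hasCompactSupport (𝕂 := ℝ) b.hasCompactSupport
    (n := ∞) b.contDiff (by simp)
  refine ⟨b, C, b.contDiff, b.hasCompactSupport, fun u => b.nonneg, fun u => b.le_one,
    fun u hu => b.one_of_mem_closedBall (by simpa using hu),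
    fun u hu => b.zero_of_le_dist (by simpa using hu), fun u v => ?_, C.2⟩
  have := hC.dist_le_mul u v
  rwa [Real.dist_eq, dist_eq_norm] at this

/-- the smooth local means -/
def mm (κ : ℂ → ℝ) (h : ℝ) (g : ℂ → ℝ) (z : ℂ) : ℝ :=
  1 / h ^ 2 * ∫ w, g w * κ (h⁻¹ • (z - w))

variable {L Λ : ℝ} {κ : ℂ → ℝ}

lemma mm_smooth (k : Ker L κ Λ) (hh : 0 < h) (hg : Continuous g) : ContDiff ℝ ∞ (mm κ h g) := by
  have h1 : ContDiff ℝ ∞ (fun w : ℂ => κ (h⁻¹ • w)) := k.sm.comp (contDiff_const_smul _)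
  have h2 : HasCompactSupport (fun w : ℂ => κ (h⁻¹ • w)) := k.cs.comp_smul (inv_ne_zero hh.ne')
  have h3 := h2.contDiff_convolution_right (ContinuousLinearMap.mul ℝ ℝ) (μ := volume)
    hg.locallyIntegrable h1
  exact contDiff_const.mul h3

lemma mm_int (k : Ker L κ Λ) (hh : 0 < h) (hg : Continuous g) (z : ℂ) :
    Integrable fun w => g w * κ (h⁻¹ • (z - w)) := by
  have h1 : Continuous fun w : ℂ => κ (h⁻¹ • (z - w)) :=
    k.sm.continuous.comp (by fun_prop)
  have h2 : HasCompactSupport (fun w : ℂ => κ (h⁻¹ • (z - w))) := by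
    have h3 : HasCompactSupport (fun w : ℂ => κ (h⁻¹ • w)) := k.cs.comp_smul (inv_ne_zero hh.ne')
    exact h3.comp_homeomorph (Homeomorph.subLeft z)
  exact (hg.mul h1).integrable_of_hasCompactSupport h2.mul_left

lemma nrm (hh : 0 < h) (v : ℂ) : ‖h⁻¹ • v‖ = ‖v‖ / h := by
  rw [norm_smul, norm_inv, Real.norm_of_nonneg hh.le]
  field_simp

lemma mm_ge (k : Ker L κ Λ) (hh : 0 < h) (hg : Continuous g) (h0 : ∀ w, 0 ≤ g w) :
    LM L h g z ≤ mm κ h g z := by
  refine mul_le_mul_of_nonneg_left ?_ (by positivity)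
  rw [← integral_indicator measurableSet_closedBall]
  refine integral_mono_of_nonneg (Eventually.of_forall fun w => indicator_nonneg (fun w _ => h0 w) _)
    (mm_int k hh hg z) (Eventually.of_forall fun w => ?_)
  by_cases hw : w ∈ closedBall z (L * h)
  · rw [indicator_of_mem hw]
    beta_reduce
    rw [k.one _ ?_, mul_one]
    rw [nrm hh, div_le_iff₀ hh, ← dist_eq_norm, dist_comm]
    exact mem_closedBall.1 hw
  · rw [indicator_of_notMem hw]
    exact mul_nonneg (h0 w) (k.nn _)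

lemma mm_le (k : Ker L κ Λ) (hh : 0 < h) (hg : Continuous g) (h0 : ∀ w, 0 ≤ g w) :
    mm κ h g z ≤ LM (L + 1) h g z := by
  refine mul_le_mul_of_nonneg_left ?_ (by positivity)
  rw [← integral_indicator measurableSet_closedBall]
  refine integral_mono_of_nonneg (Eventually.of_forall fun w => mul_nonneg (h0 w) (k.nn _))
    ((io hg _ _).integrable_indicator measurableSet_closedBall)
    (Eventually.of_forall fun w => ?_)
  beta_reduce
  by_cases hw : w ∈ closedBall z ((L + 1) * h)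
  · rw [indicator_of_mem hw]
    exact mul_le_of_le_one_right (h0 w) (k.le _)
  · rw [indicator_of_notMem hw, k.zero _ ?_, mul_zero]
    rw [nrm hh, le_div_iff₀ hh, ← dist_eq_norm, dist_comm]
    rw [mem_closedBall, not_le] at hw
    exact hw.le

lemma mm_nonneg (k : Ker L κ Λ) (h0 : ∀ w, 0 ≤ g w) : 0 ≤ mm κ h g z :=
  mul_nonneg (by positivity) (integral_nonneg fun w => mul_nonneg (h0 w) (k.nn _))

lemma mm_lip (k : Ker L κ Λ) (hh : 0 < h) (hg : Continuous g) (h0 : ∀ w, 0 ≤ g w) {z' : ℂ}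
    (hz : ‖z' - z‖ ≤ h) :
    |mm κ h g z' - mm κ h g z| ≤ Λ / h * LM (L + 2) h g z * ‖z' - z‖ := by
  have i1 := mm_int k hh hg z'
  have i2 := mm_int k hh hg z
  have h1 : mm κ h g z' - mm κ h g z = 1 / h ^ 2 * ∫ w, (g w * κ (h⁻¹ • (z' - w))
      - g w * κ (h⁻¹ • (z - w))) := by
    rw [integral_sub i1 i2]
    unfold mm
    ring
  rw [h1, abs_mul, abs_of_nonneg (by positivity : (0 : ℝ) ≤ 1 / h ^ 2)]
  have h2 : |∫ w, (g w * κ (h⁻¹ • (z' - w)) - g w * κ (h⁻¹ • (z - w)))|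
      ≤ Λ / h * ‖z' - z‖ * ∫ w in closedBall z ((L + 2) * h), g w := by
    rw [← integral_indicator measurableSet_closedBall, ← integral_const_mul]
    refine (abs_integral_le_integral_abs).trans ?_
    refine integral_mono_of_nonneg (Eventually.of_forall fun w => abs_nonneg _)
      (((io hg _ _).integrable_indicator measurableSet_closedBall).const_mul _)
      (Eventually.of_forall fun w => ?_)
    beta_reduce
    by_cases hw : w ∈ closedBall z ((L + 2) * h)
    · rw [indicator_of_mem hw, ← mul_sub, abs_mul, abs_of_nonneg (h0 w), mul_comm]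
      refine mul_le_mul_of_nonneg_right ((k.lip _ _).trans (le_of_eq ?_)) (h0 w)
      rw [← smul_sub, sub_sub_sub_cancel_right, nrm hh]
      ring
    · rw [mem_closedBall, not_le, dist_comm, dist_eq_norm] at hw
      have e1 : κ (h⁻¹ • (z - w)) = 0 := k.zero _ (by
        rw [nrm hh, le_div_iff₀ hh]
        nlinarith)
      have e2 : κ (h⁻¹ • (z' - w)) = 0 := k.zero _ (by
        rw [nrm hh, le_div_iff₀ hh]
        have e3 : ‖z - w‖ ≤ ‖z' - w‖ + ‖z' - z‖ := by
          have : z - w = (z' - w) - (z' - z) := by ring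
          rw [this]
          exact norm_sub_le _ _
        nlinarith)
      rw [e1, e2, mul_zero, sub_zero, abs_zero]
      refine mul_nonneg ?_ (indicator_nonneg (fun w _ => h0 w) _)
      have := k.pos
      positivity
  calc 1 / h ^ 2 * |∫ w, (g w * κ (h⁻¹ • (z' - w)) - g w * κ (h⁻¹ • (z - w)))|
      ≤ 1 / h ^ 2 * (Λ / h * ‖z' - z‖ * ∫ w in closedBall z ((L + 2) * h), g w) :=
        mul_le_mul_of_nonneg_left h2 (by positivity)
    _ = _ := by
        unfold LM
        ring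

/-! ### The weight -/

variable {Θ : ℝ → ℝ} {Λ' R : ℝ}

/-- the weight -/
def thw (Θ : ℝ → ℝ) (κ : ℂ → ℝ) (h R : ℝ) (g : ℂ → ℝ) (z : ℂ) : ℝ := Θ (mm κ h g z / R)

lemma wt_smooth (k : Ker L κ Λ) (t : Ker 1 Θ Λ') (hh : 0 < h) (hg : Continuous g) :
    ContDiff ℝ ∞ (thw Θ κ h R g) :=
  t.sm.comp ((mm_smooth k hh hg).div_const _)

lemma wt_one (k : Ker L κ Λ) (t : Ker 1 Θ Λ') (hR : 0 < R) (h0 : ∀ w, 0 ≤ g w)
    (hm : mm κ h g z ≤ R) : thw Θ κ h R g z = 1 := by
  refine t.one _ ?_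
  have := mm_nonneg (h := h) (z := z) k h0
  rw [Real.norm_of_nonneg (by positivity), div_le_one hR]
  exact hm

lemma wt_zero (k : Ker L κ Λ) (t : Ker 1 Θ Λ') (hR : 0 < R) (h0 : ∀ w, 0 ≤ g w)
    (hm : 2 * R ≤ mm κ h g z) : thw Θ κ h R g z = 0 := by
  refine t.zero _ ?_
  have := mm_nonneg (h := h) (z := z) k h0
  rw [Real.norm_of_nonneg (by positivity), le_div_iff₀ hR]
  linarith

lemma norm_dz_ofR {θ : ℂ → ℝ} (hθ : DifferentiableAt ℝ θ z) :
    ‖dz (fun w => (θ w : ℂ)) z‖ ≤ ‖fderiv ℝ θ z‖ := by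
  have h1 : HasFDerivAt (fun w => (θ w : ℂ)) (Complex.ofRealCLM.comp (fderiv ℝ θ z)) z :=
    Complex.ofRealCLM.hasFDerivAt.comp z hθ.hasFDerivAt
  unfold dz
  rw [h1.fderiv]
  have h2 : ∀ v : ℂ, ‖v‖ = 1 → ‖(Complex.ofRealCLM.comp (fderiv ℝ θ z)) v‖ ≤ ‖fderiv ℝ θ z‖ := by
    intro v hv
    have h3 := (fderiv ℝ θ z).le_opNorm v
    rw [hv, mul_one] at h3
    rw [ContinuousLinearMap.comp_apply, Complex.ofRealCLM_apply, Complex.norm_real]
    exact h3
  have h3 := h2 1 (by simp)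
  have h4 := h2 Complex.I (by simp)
  rw [norm_mul]
  have h5 := norm_sub_le ((Complex.ofRealCLM.comp (fderiv ℝ θ z)) 1)
    (Complex.I * (Complex.ofRealCLM.comp (fderiv ℝ θ z)) Complex.I)
  rw [norm_mul, Complex.norm_I, one_mul] at h5
  have h6 : ‖(1 / 2 : ℂ)‖ = 1 / 2 := by norm_num
  rw [h6]
  linarith

lemma wt_fderiv (k : Ker L κ Λ) (t : Ker 1 Θ Λ') (hh : 0 < h) (hR : 0 < R) (hg : Continuous g)
    (h0 : ∀ w, 0 ≤ g w) :
    ‖fderiv ℝ (thw Θ κ h R g) z‖ ≤ Λ' * Λ / (h * R) * LM (L + 2) h g z := by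
  have hΛ := k.pos
  have hΛ' := t.pos
  have hLM : 0 ≤ LM (L + 2) h g z := LM_nonneg h0
  refine norm_fderiv_le_of_lip' ℝ (by positivity) ?_
  filter_upwards [closedBall_mem_nhds z hh] with z' hz'
  rw [mem_closedBall, dist_eq_norm] at hz'
  have h1 := mm_lip k hh hg h0 hz'
  have h2 := t.lip (mm κ h g z' / R) (mm κ h g z / R)
  rw [← sub_div, Real.norm_eq_abs, abs_div, abs_of_pos hR] at h2
  rw [Real.norm_eq_abs]
  refine h2.trans ?_
  calc Λ' * (|mm κ h g z' - mm κ h g z| / R)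
      ≤ Λ' * ((Λ / h * LM (L + 2) h g z * ‖z' - z‖) / R) := by gcongr
    _ = _ := by field_simp

lemma wt_fderiv_zero (k : Ker L κ Λ) (t : Ker 1 Θ Λ') (hh : 0 < h) (hR : 0 < R) (hg : Continuous g)
    (h0 : ∀ w, 0 ≤ g w) (hne : fderiv ℝ (thw Θ κ h R g) z ≠ 0) :
    R ≤ mm κ h g z ∧ mm κ h g z ≤ 2 * R := by
  have hc : Continuous (mm κ h g) := (mm_smooth k hh hg).continuous
  constructor
  · by_contra hcon
    rw [not_le] at hcon
    apply hne
    have h1 : ∀ᶠ w in 𝓝 z, mm κ h g w < R := hc.continuousAt.eventually (gt_mem_nhds hcon)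
    have h2 : thw Θ κ h R g =ᶠ[𝓝 z] fun _ => 1 := by
      filter_upwards [h1] with w hw
      exact wt_one k t hR h0 hw.le
    rw [h2.fderiv_eq]
    exact fderiv_const_apply _
  · by_contra hcon
    rw [not_le] at hcon
    apply hne
    have h1 : ∀ᶠ w in 𝓝 z, 2 * R < mm κ h g w := hc.continuousAt.eventually (lt_mem_nhds hcon)
    have h2 : thw Θ κ h R g =ᶠ[𝓝 z] fun _ => 0 := by
      filter_upwards [h1] with w hw
      exact wt_zero k t hR h0 hw.le
    rw [h2.fderiv_eq]
    exact fderiv_const_apply _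

/-- the part above the level `R / 2` -/
def up (ρ R : ℝ) (g : ℂ → ℝ) (w : ℂ) : ℝ := max (g w - R / 2 / (Real.pi * ρ ^ 2)) 0

lemma up_cont (hg : Continuous g) (ρ R : ℝ) : Continuous (up ρ R g) :=
  (hg.sub continuous_const).max continuous_const

lemma up_nonneg (ρ R : ℝ) (g : ℂ → ℝ) (w : ℂ) : 0 ≤ up ρ R g w := le_max_right _ _

/-- (big) -/
lemma e_big (k : Ker L κ Λ) (t : Ker 1 Θ Λ') (hL : 0 < L) (hh : 0 < h) (hR : 1 ≤ R)
    (hg : Continuous g) (h0 : ∀ w, 0 ≤ g w) :
    (1 - thw Θ κ h R g z) * (1 + LM L h g z) ≤ 4 * LM (L + 1) h (up (L + 1) R g) z := by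
  have hR0 : 0 < R := by linarith
  have hQ : 0 ≤ LM (L + 1) h (up (L + 1) R g) z := LM_nonneg (up_nonneg _ _ _)
  by_cases hm : mm κ h g z ≤ R
  · rw [wt_one k t hR0 h0 hm, sub_self, zero_mul]
    linarith
  · rw [not_le] at hm
    have h1 := mm_ge (z := z) k hh hg h0
    have h2 := mm_le (z := z) k hh hg h0
    have h3 : LM (L + 1) h g z ≤ R / 2 + LM (L + 1) h (up (L + 1) R g) z :=
      LM_pos hh (by linarith) hg (R / 2)
    have h4 : 0 ≤ LM L h g z := LM_nonneg h0
    have h5 : 0 ≤ thw Θ κ h R g z := t.nn _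
    have h6 : (1 - thw Θ κ h R g z) * (1 + LM L h g z) ≤ 1 * (1 + LM L h g z) :=
      mul_le_mul_of_nonneg_right (by linarith) (by linarith)
    linarith

/-- (grad) -/
lemma e_grad (k : Ker L κ Λ) (t : Ker 1 Θ Λ') (hL : 0 < L) (hh : 0 < h) (hR : 1 ≤ R)
    (hg : Continuous g) (h0 : ∀ w, 0 ≤ g w) :
    h * (‖dz (fun w => (thw Θ κ h R g w : ℂ)) z‖ * (1 + LM L h g z) ^ 2)
      ≤ 18 * (Λ' * Λ) * (R * LM (L + 2) h (up (L + 2) R g) z) := by
  have hR0 : 0 < R := by linarith
  have hΛ := k.pos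
  have hΛ' := t.pos
  have hQ : 0 ≤ LM (L + 2) h (up (L + 2) R g) z := LM_nonneg (up_nonneg _ _ _)
  have hd := norm_dz_ofR (z := z) ((wt_smooth (R := R) k t hh hg).differentiable (by simp) z)
  by_cases hf : fderiv ℝ (thw Θ κ h R g) z = 0
  · rw [hf, norm_zero] at hd
    have : ‖dz (fun w => (thw Θ κ h R g w : ℂ)) z‖ = 0 := le_antisymm hd (norm_nonneg _)
    rw [this, zero_mul, mul_zero]
    positivity
  · obtain ⟨h1, h2⟩ := wt_fderiv_zero k t hh hR0 hg h0 hf
    have h3 := wt_fderiv (z := z) k t hh hR0 hg h0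
    have h4 := mm_ge (z := z) k hh hg h0
    have h5 := mm_le (z := z) k hh hg h0
    have h6 : LM (L + 1) h g z ≤ LM (L + 2) h g z := LM_mono_r hh hg h0 (by linarith)
    have h7 : LM (L + 2) h g z ≤ R / 2 + LM (L + 2) h (up (L + 2) R g) z :=
      LM_pos hh (by linarith) hg (R / 2)
    have h8 : LM (L + 2) h g z ≤ 2 * LM (L + 2) h (up (L + 2) R g) z := by linarith
    have h9 : 0 ≤ LM L h g z := LM_nonneg h0
    have h10 : (1 + LM L h g z) ^ 2 ≤ (3 * R) ^ 2 := pow_le_pow_left₀ (by linarith) (by linarith) 2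
    have h11 : ‖dz (fun w => (thw Θ κ h R g w : ℂ)) z‖
        ≤ Λ' * Λ / (h * R) * (2 * LM (L + 2) h (up (L + 2) R g) z) :=
      hd.trans (h3.trans (mul_le_mul_of_nonneg_left h8 (by positivity)))
    calc h * (‖dz (fun w => (thw Θ κ h R g w : ℂ)) z‖ * (1 + LM L h g z) ^ 2)
        ≤ h * ((Λ' * Λ / (h * R) * (2 * LM (L + 2) h (up (L + 2) R g) z)) * (3 * R) ^ 2) := by
          refine mul_le_mul_of_nonneg_left ?_ hh.le
          exact mul_le_mul h11 h10 (by positivity) (by positivity)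
      _ = _ := by
          field_simp
          ring

/-- (ui) -/
lemma e_ui (k : Ker L κ Λ) (t : Ker 1 Θ Λ') (hL : 0 < L) (hh : 0 < h) (hR : 1 ≤ R)
    (hg : Continuous g) (h0 : ∀ w, 0 ≤ g w) {T a : ℝ} (hT : 0 < T) :
    (if T < thw Θ κ h R g z * (1 + LM L h g z) then (thw Θ κ h R g z * (1 + LM L h g z)) ^ 2 else 0)
      ≤ 3 * (1 + 2 * (Real.pi * L ^ 2 * a) ^ 2) / T * (1 + LM L h g z)
        + (6 * (Real.pi * L ^ 2) * LM L h (fun w => max (min (g w) R - a) 0 ^ 2) z
          + 6 * (R * LM L h (fun w => max (g w - R) 0) z)) := by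
  have hR0 : 0 < R := by linarith
  have hπ := Real.pi_pos
  have c1 : Continuous fun w => min (g w) R := hg.min continuous_const
  have c2 : Continuous fun w => max (g w - R) 0 := (hg.sub continuous_const).max continuous_const
  have c3 : Continuous fun w => max (min (g w) R - a) 0 :=
    (c1.sub continuous_const).max continuous_const
  have n0 : 0 ≤ LM L h g z := LM_nonneg h0
  have n1 : 0 ≤ LM L h (fun w => min (g w) R) z := LM_nonneg fun w => le_min (h0 w) hR0.le
  have n2 : 0 ≤ LM L h (fun w => max (g w - R) 0) z := LM_nonneg fun w => le_max_right _ _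
  have n3 : 0 ≤ LM L h (fun w => max (min (g w) R - a) 0) z := LM_nonneg fun w => le_max_right _ _
  have n4 : 0 ≤ LM L h (fun w => max (min (g w) R - a) 0 ^ 2) z := LM_nonneg fun w => sq_nonneg _
  by_cases hc : T < thw Θ κ h R g z * (1 + LM L h g z)
  · rw [if_pos hc]
    have w0 : 0 ≤ thw Θ κ h R g z := t.nn _
    have w1 : thw Θ κ h R g z ≤ 1 := t.le _
    have hne : mm κ h g z < 2 * R := by
      by_contra hcon
      rw [not_lt] at hcon
      rw [wt_zero k t hR0 h0 hcon, zero_mul] at hc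
      linarith
    have h1 := mm_ge (z := z) k hh hg h0
    have e1 : LM L h g z = LM L h (fun w => min (g w) R) z + LM L h (fun w => max (g w - R) 0) z := by
      rw [← LM_add c1 c2]
      congr 1
      funext w
      rcases le_total (g w) R with hw | hw
      · rw [min_eq_left hw, max_eq_right (by linarith), add_zero]
      · rw [min_eq_right hw, max_eq_left (by linarith)]
        ring
    have e2 : LM L h (fun w => min (g w) R) z
        ≤ Real.pi * L ^ 2 * a + LM L h (fun w => max (min (g w) R - a) 0) z := by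
      rw [← LM_const (z := z) hh hL.le a, ← LM_add continuous_const c3]
      refine LM_mono c1 (continuous_const.add c3) fun w => ?_
      have := le_max_left (min (g w) R - a) 0
      linarith
    have e3 := LM_sq (z := z) hh hL c3
    set A1 := LM L h (fun w => min (g w) R) z
    set A2 := LM L h (fun w => max (g w - R) 0) z
    set A3 := LM L h (fun w => max (min (g w) R - a) 0) z
    set A4 := LM L h (fun w => max (min (g w) R - a) 0 ^ 2) z
    set M : ℝ := 1 + LM L h g z with hM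
    have hM1 : 1 ≤ M := by linarith
    have hle : thw Θ κ h R g z * M ≤ M := mul_le_of_le_one_left (by linarith) w1
    have hTM : T < M := hc.trans_le hle
    have hsq : (thw Θ κ h R g z * M) ^ 2 ≤ M ^ 2 := pow_le_pow_left₀ (by positivity) hle 2
    have hM2 : M ^ 2 ≤ 3 * (1 + A1 ^ 2 + A2 ^ 2) := by
      rw [hM, e1]
      nlinarith [sq_nonneg (A1 - 1), sq_nonneg (A2 - 1), sq_nonneg (A1 - A2)]
    have hA2 : A2 ^ 2 ≤ 2 * R * A2 := by
      have : A2 ≤ 2 * R := by linarith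
      nlinarith
    have hA1 : A1 ^ 2 ≤ 2 * (Real.pi * L ^ 2 * a) ^ 2 + 2 * (Real.pi * L ^ 2 * A4) := by
      have h2 : A1 ^ 2 ≤ (Real.pi * L ^ 2 * a + A3) ^ 2 := pow_le_pow_left₀ n1 e2 2
      nlinarith [sq_nonneg (Real.pi * L ^ 2 * a - A3)]
    have hT1 : 3 * (1 + 2 * (Real.pi * L ^ 2 * a) ^ 2)
        ≤ 3 * (1 + 2 * (Real.pi * L ^ 2 * a) ^ 2) / T * M := by
      rw [div_mul_eq_mul_div, le_div_iff₀ hT]
      exact mul_le_mul_of_nonneg_left hTM.le (by positivity)
    linarith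
  · rw [if_neg hc]
    positivity

end WTS

open WTS in
/-- WTS: existence of the weights -/
theorem t_WTS : StmtWts := by
  intro V σ h φ R hB hTr L hL1
  have hL : 0 < L := by linarith
  have hπ := Real.pi_pos
  obtain ⟨κ, Λ, k⟩ := exists_ker ℂ hL
  obtain ⟨Θ, Λ', t⟩ := exists_ker ℝ one_pos
  have hh := hB.hpos
  have hgc : ∀ n, Continuous fun w => ‖φ n w‖ ^ 2 := fun n => (hB.smφ n).continuous.norm.pow 2
  have hg0 : ∀ n w, 0 ≤ ‖φ n w‖ ^ 2 := fun n w => by positivity
  have hR1 := hTr.one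
  have hMn : ∀ n z, Mn L h φ n z = 1 + LM L (h n) (fun w => ‖φ n w‖ ^ 2) z := fun n z => rfl
  -- compact neighbourhoods
  have nbh : ∀ K, IsCompact K → K ⊆ V → ∃ K', IsCompact K' ∧ K' ⊆ V ∧ ∀ ρ : ℝ, ∀ᶠ n in atTop,
      ∀ z ∈ K, ∀ v : ℂ, ‖v‖ ≤ ρ * h n → z + v ∈ K' := by
    intro K hK hKV
    obtain ⟨δ, hδ, hδV⟩ := hK.exists_cthickening_subset_open hB.op hKV
    refine ⟨cthickening δ K, hK.cthickening, hδV, fun ρ => ?_⟩
    have h1 : Tendsto (fun n => ρ * h n) atTop (𝓝 (ρ * 0)) := hB.hlim.const_mul ρ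
    rw [mul_zero] at h1
    filter_upwards [h1.eventually (gt_mem_nhds hδ)] with n hn z hz v hv
    refine mem_cthickening_of_dist_le _ z δ K hz ?_
    rw [dist_eq_norm, add_sub_cancel_left]
    exact hv.trans hn.le
  have ic : ∀ {K : Set ℂ} {g : ℂ → ℝ}, IsCompact K → Continuous g → IntegrableOn g K :=
    fun hK hg => hg.continuousOn.integrableOn_compact hK
  -- the level sets of `Tru`
  have hup : ∀ K', IsCompact K' → K' ⊆ V → ∀ ρ : ℝ, 0 < ρ →
      Tendsto (fun n => R n * ∫ w in K', up ρ (R n) (fun w => ‖φ n w‖ ^ 2) w) atTop (𝓝 0) := by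
    intro K' hK' hKV ρ hρ
    have h1 := hTr.cut K' hK' hKV (1 / 2 / (Real.pi * ρ ^ 2)) (by positivity)
    refine h1.congr fun n => ?_
    congr 1
    refine integral_congr_ae (Eventually.of_forall fun w => ?_)
    simp only [up]
    congr 2
    ring
  refine ⟨fun n => thw Θ κ (h n) (R n) (fun w => ‖φ n w‖ ^ 2), 3, ⟨hB, fun n => ?_, fun n z => ?_,
    fun n z => ?_, fun K hK hKV => ?_, fun K hK hKV ε hε => ?_, fun K hK hKV => ?_⟩,
    fun K hK hKV => ?_⟩
  · exact wt_smooth k t (hh n) (hgc n)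
  · exact t.nn _
  · exact t.le _
  · -- big
    obtain ⟨K', hK', hKV', hs⟩ := nbh K hK hKV
    have h1 := (hup K' hK' hKV' (L + 1) (by linarith)).const_mul (4 * (Real.pi * (L + 1) ^ 2))
    rw [mul_zero] at h1
    refine squeeze_zero' (Eventually.of_forall fun n => integral_nonneg fun z => ?_) ?_ h1
    · refine mul_nonneg (sub_nonneg.2 (t.le (mm κ (h n) (fun w => ‖φ n w‖ ^ 2) z / R n))) ?_
      rw [hMn]
      have : 0 ≤ LM L (h n) (fun w => ‖φ n w‖ ^ 2) z := LM_nonneg (hg0 n)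
      linarith
    · filter_upwards [hs (L + 1)] with n hn
      have hR0 : 0 < R n := by have := hR1 n; linarith
      have h2 := LM_int hK hK' (hh n) (by linarith : (0 : ℝ) ≤ L + 1)
        (up_cont (hgc n) (L + 1) (R n)) (up_nonneg (L + 1) (R n) _) hn
      have h3 : ∫ z in K, (1 - thw Θ κ (h n) (R n) (fun w => ‖φ n w‖ ^ 2) z) * Mn L h φ n z
          ≤ ∫ z in K, 4 * LM (L + 1) (h n) (up (L + 1) (R n) (fun w => ‖φ n w‖ ^ 2)) z := by
        refine integral_mono_of_nonneg (Eventually.of_forall fun z => ?_)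
          (ic hK (continuous_const.mul (LM_cont (up_cont (hgc n) _ _) _ _)))
          (Eventually.of_forall fun z => ?_)
        · refine mul_nonneg (sub_nonneg.2 (t.le (mm κ (h n) (fun w => ‖φ n w‖ ^ 2) z / R n))) ?_
          rw [hMn]
          have : 0 ≤ LM L (h n) (fun w => ‖φ n w‖ ^ 2) z := LM_nonneg (hg0 n)
          linarith
        · exact e_big k t hL (hh n) (hR1 n) (hgc n) (hg0 n)
      rw [integral_const_mul] at h3
      have h4 : 0 ≤ ∫ w in K', up (L + 1) (R n) (fun w => ‖φ n w‖ ^ 2) w :=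
        integral_nonneg (up_nonneg _ _ _)
      have h5 : ∫ w in K', up (L + 1) (R n) (fun w => ‖φ n w‖ ^ 2) w
          ≤ R n * ∫ w in K', up (L + 1) (R n) (fun w => ‖φ n w‖ ^ 2) w :=
        le_mul_of_one_le_left h4 (hR1 n)
      calc _ ≤ _ := h3
        _ ≤ 4 * (Real.pi * (L + 1) ^ 2 * ∫ w in K', up (L + 1) (R n) (fun w => ‖φ n w‖ ^ 2) w) :=
            mul_le_mul_of_nonneg_left h2 (by norm_num)
        _ ≤ 4 * (Real.pi * (L + 1) ^ 2 * (R n * ∫ w in K', up (L + 1) (R n)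
              (fun w => ‖φ n w‖ ^ 2) w)) := by gcongr
        _ = _ := by ring
  · -- ui
    obtain ⟨K', hK', hKV', hs⟩ := nbh K hK hKV
    obtain ⟨Cb, hCb⟩ := hB.bdd K' hK' hKV'
    set P : ℝ := Real.pi * L ^ 2 with hP
    have hP0 : 0 < P := by positivity
    obtain ⟨a, ha, hua⟩ := hTr.uni K' hK' hKV' (ε / 3 / (6 * P * P)) (by positivity)
    set C0 : ℝ := (volume K).toReal + P * |Cb| with hC0
    have hC00 : 0 ≤ C0 := by positivity
    set D : ℝ := 3 * (1 + 2 * (P * a) ^ 2) with hD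
    have hD0 : 0 < D := by positivity
    have hcut := (hTr.cut K' hK' hKV' 1 one_pos).const_mul (6 * P)
    rw [mul_zero] at hcut
    set T : ℝ := 3 * D * (C0 + 1) / ε with hT
    have hT0 : 0 < T := by positivity
    refine ⟨T, ?_⟩
    filter_upwards [hs L, hCb, hua, hcut.eventually (gt_mem_nhds (by positivity : (0 : ℝ) < ε / 3))]
      with n hn hn1 hn2 hn3
    have hR0 : 0 < R n := by have := hR1 n; linarith
    have hφ := hgc n
    have cR : Continuous fun w => max (‖φ n w‖ ^ 2 - R n) 0 := (hφ.sub continuous_const).max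
      continuous_const
    have cU : Continuous fun w => max (min (‖φ n w‖ ^ 2) (R n) - a) 0 ^ 2 :=
      (((hφ.min continuous_const).sub continuous_const).max continuous_const).pow 2
    have c0 := LM_cont hφ L (h n)
    have cR' := LM_cont cR L (h n)
    have cU' := LM_cont cU L (h n)
    have q1 := LM_int hK hK' (hh n) hL.le hφ (hg0 n) hn
    have q2 := LM_int hK hK' (hh n) hL.le cR (fun w => le_max_right _ _) hn
    have q3 := LM_int hK hK' (hh n) hL.le cU (fun w => sq_nonneg _) hn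
    rw [← hP] at q1 q2 q3
    have i1 : IntegrableOn (fun z => D / T * (1 + LM L (h n) (fun w => ‖φ n w‖ ^ 2) z)) K :=
      ic hK (continuous_const.mul (continuous_const.add c0))
    have i2 : IntegrableOn (fun z => 6 * P * LM L (h n)
        (fun w => max (min (‖φ n w‖ ^ 2) (R n) - a) 0 ^ 2) z) K := ic hK (continuous_const.mul cU')
    have i3 : IntegrableOn (fun z => 6 * (R n * LM L (h n)
        (fun w => max (‖φ n w‖ ^ 2 - R n) 0) z)) K :=
      ic hK (continuous_const.mul (continuous_const.mul cR'))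
    have i4 : IntegrableOn (fun z => 6 * P * LM L (h n)
        (fun w => max (min (‖φ n w‖ ^ 2) (R n) - a) 0 ^ 2) z + 6 * (R n * LM L (h n)
        (fun w => max (‖φ n w‖ ^ 2 - R n) 0) z)) K := i2.add i3
    have q4 : ∫ z in K, (if T < thw Θ κ (h n) (R n) (fun w => ‖φ n w‖ ^ 2) z * Mn L h φ n z
        then (thw Θ κ (h n) (R n) (fun w => ‖φ n w‖ ^ 2) z * Mn L h φ n z) ^ 2 else 0)
        ≤ ∫ z in K, (D / T * (1 + LM L (h n) (fun w => ‖φ n w‖ ^ 2) z)
          + (6 * P * LM L (h n) (fun w => max (min (‖φ n w‖ ^ 2) (R n) - a) 0 ^ 2) z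
            + 6 * (R n * LM L (h n) (fun w => max (‖φ n w‖ ^ 2 - R n) 0) z))) := by
      refine integral_mono_of_nonneg (Eventually.of_forall fun z => ?_) (i1.add i4)
        (Eventually.of_forall fun z => ?_)
      · beta_reduce
        split_ifs
        · positivity
        · exact le_rfl
      · exact e_ui k t hL (hh n) (hR1 n) hφ (hg0 n) hT0
    rw [integral_add i1 i4, integral_add i2 i3, integral_const_mul, integral_const_mul,
      integral_const_mul, integral_const_mul, integral_add (ic hK continuous_const) (ic hK c0)] at q4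
    have q5 : ∫ _ in K, (1 : ℝ) = (volume K).toReal := by
      rw [setIntegral_const, smul_eq_mul, mul_one, Measure.real]
    rw [q5] at q4
    have q6 : (volume K).toReal + ∫ z in K, LM L (h n) (fun w => ‖φ n w‖ ^ 2) z ≤ C0 := by
      have : P * ∫ w in K', ‖φ n w‖ ^ 2 ≤ P * |Cb| :=
        mul_le_mul_of_nonneg_left (hn1.trans (le_abs_self _)) hP0.le
      rw [hC0]
      linarith
    have q7 : D / T * ((volume K).toReal + ∫ z in K, LM L (h n) (fun w => ‖φ n w‖ ^ 2) z)
        ≤ ε / 3 := by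
      calc D / T * ((volume K).toReal + ∫ z in K, LM L (h n) (fun w => ‖φ n w‖ ^ 2) z)
          ≤ D / T * (C0 + 1) := mul_le_mul_of_nonneg_left (by linarith) (by positivity)
        _ = ε / 3 := by
            rw [hT]
            field_simp
    have q8 : 6 * P * ∫ z in K, LM L (h n) (fun w => max (min (‖φ n w‖ ^ 2) (R n) - a) 0 ^ 2) z
        ≤ ε / 3 := by
      calc 6 * P * ∫ z in K, LM L (h n) (fun w => max (min (‖φ n w‖ ^ 2) (R n) - a) 0 ^ 2) z
          ≤ 6 * P * (P * (ε / 3 / (6 * P * P))) :=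
            mul_le_mul_of_nonneg_left (q3.trans (mul_le_mul_of_nonneg_left hn2 hP0.le))
              (by positivity)
        _ = ε / 3 := by field_simp
    have q9 : 6 * (R n * ∫ z in K, LM L (h n) (fun w => max (‖φ n w‖ ^ 2 - R n) 0) z)
        ≤ ε / 3 := by
      have e1 : ∫ w in K', max (‖φ n w‖ ^ 2 - 1 * R n) 0 = ∫ w in K', max (‖φ n w‖ ^ 2 - R n) 0 := by
        simp only [one_mul]
      rw [e1] at hn3
      calc 6 * (R n * ∫ z in K, LM L (h n) (fun w => max (‖φ n w‖ ^ 2 - R n) 0) z)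
          ≤ 6 * (R n * (P * ∫ w in K', max (‖φ n w‖ ^ 2 - R n) 0)) := by gcongr
        _ = 6 * P * (R n * ∫ w in K', max (‖φ n w‖ ^ 2 - R n) 0) := by ring
        _ ≤ ε / 3 := hn3.le
    linarith
  · -- grad
    obtain ⟨K', hK', hKV', hs⟩ := nbh K hK hKV
    have hΛ := k.pos
    have hΛ' := t.pos
    have h1 := (hup K' hK' hKV' (L + 2) (by linarith)).const_mul
      (18 * (Λ' * Λ) * (Real.pi * (L + 2) ^ 2))
    rw [mul_zero] at h1
    refine squeeze_zero' (Eventually.of_forall fun n => mul_nonneg (hh n).le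
      (integral_nonneg fun z => by positivity)) ?_ h1
    filter_upwards [hs (L + 2)] with n hn
    have hR0 : 0 < R n := by have := hR1 n; linarith
    have h2 := LM_int hK hK' (hh n) (by linarith : (0 : ℝ) ≤ L + 2)
      (up_cont (hgc n) (L + 2) (R n)) (up_nonneg (L + 2) (R n) _) hn
    have h3 : ∫ z in K, h n * (‖dz (fun w => (thw Θ κ (h n) (R n) (fun w => ‖φ n w‖ ^ 2) w : ℂ)) z‖
        * Mn L h φ n z ^ 2)
        ≤ ∫ z in K, 18 * (Λ' * Λ) * (R n * LM (L + 2) (h n)
          (up (L + 2) (R n) (fun w => ‖φ n w‖ ^ 2)) z) := by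
      refine integral_mono_of_nonneg (Eventually.of_forall fun z => ?_)
        (ic hK (continuous_const.mul (continuous_const.mul (LM_cont (up_cont (hgc n) _ _) _ _))))
        (Eventually.of_forall fun z => ?_)
      · have := hh n
        positivity
      · exact e_grad k t hL (hh n) (hR1 n) (hgc n) (hg0 n)
    rw [integral_const_mul, integral_const_mul, integral_const_mul] at h3
    calc _ ≤ _ := h3
      _ ≤ 18 * (Λ' * Λ) * (R n * (Real.pi * (L + 2) ^ 2 * ∫ w in K', up (L + 2) (R n)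
            (fun w => ‖φ n w‖ ^ 2) w)) := by gcongr
      _ = _ := by ring
  · -- the last claim
    refine Eventually.of_forall fun n z _ hne => ?_
    have hR0 : 0 < R n := by have := hR1 n; linarith
    have h1 := mm_ge (z := z) k (hh n) (hgc n) (hg0 n)
    have h2 : mm κ (h n) (fun w => ‖φ n w‖ ^ 2) z < 2 * R n := by
      by_contra hcon
      rw [not_lt] at hcon
      exact hne (wt_zero k t hR0 (hg0 n) hcon)
    rw [hMn]
    have := hR1 n
    linarith

end

end BSL
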