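import Pool.Agent.BSL.BL2
import Pool.Agent.BSL.BLK
import Pool.Agent.BSL.CZD
import Pool.Agent.BSL.WKT
import Pool.Agent.BSL.ERR
import Pool.Agent.BSL.TDC
import Pool.Agent.BSL.WTR
import Pool.Agent.BSL.MACW
import Pool.Agent.BSL.JLW
import Pool.Agent.BSL.POSW
import Pool.Agent.BSL.CUBW
import Pool.Agent.BSL.TAY
import Pool.Agent.BSL.ROTP
import Pool.Agent.BSL.TCUB
import Pool.Agent.BSL.F4W
import Pool.Agent.BSL.F3W
import Pool.Agent.BSL.WTS
import Pool.Agent.BSL.STR
import Pool.Agent.BSL.JLG
import Pool.Agent.BSL.DOM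
import Pool.Agent.BSL.UIA
import Pool.Agent.BSL.UIF

/-!
# The closed local theorems
-/

open Complex MeasureTheory Filter Topology Set

namespace BSL

theorem tdc_closed : StmtTDC := tDC bL2 (eRR bL2 (wKT cZD bL2 bLK))

theorem mac_closed : StmtMacW := macW tdc_closed

theorem pat_closed : StmtPatW := patW mac_closed

theorem pos_closed : StmtPosW := posW mac_closed

theorem cub_closed : StmtCubW := cubW mac_closed

theorem f4w_closed : StmtF4w := f4W (rOTP tAY) pat_closed

theorem f3w_closed : StmtF3w := f3W (tCUB tAY cub_closed)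

theorem uif_closed : StmtUif := t_UIF t_UIA

end BSL
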