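import Pool.Agent.BSL.St2

/-!
# CUT: a smooth function with compact support which computes the averages

A smooth version of `QE.Surf.exists_test_int`, for the averages with respect to the area of the
metric.
-/

open Complex MeasureTheory Filter Topology Set
open UpperHalfPlane hiding I
open scoped ContDiff MatrixGroups ENNReal NNReal

namespace BSL

open QE QE.NC QJ U3 NFP

noncomputable section

namespace CUT

variable {Γ : Subgroup SL(2, ℝ)} {D : Set ℍ}

/-- the sum of the translates of a smooth function is smooth -/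
theorem NN_smooth [Countable Γ] (hD : IsFundamentalDomain Γ D (volume : Measure ℍ)) {c : ℂ → ℝ}
    (hc : ContDiff ℝ ∞ c) {R : ℝ} (hR : ∀ z : ℍ, c z ≠ 0 → dist z UpperHalfPlane.I ≤ R) :
    ContDiffOn ℝ ∞ (fun w : ℂ => Surf.NN Γ (fun z : ℍ => c z) (ofComplex w)) UH := by
  intro w hw
  apply ContDiffAt.contDiffWithinAt
  obtain ⟨V, hV, hfin⟩ := Surf.locallyFinite (χ := fun z : ℍ => c z) hD hR (ofComplex w)
  have h1 : ContDiffAt ℝ ∞ (fun v => ∑ γ ∈ hfin.toFinset, c (mob (γ : SL(2, ℝ)) v)) w :=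
    ContDiffAt.sum fun γ _ => hc.contDiffAt.comp _
      ((contDiffOn_mob (γ : SL(2, ℝ))).contDiffAt (isOpen_UH.mem_nhds hw))
  refine h1.congr_of_eventuallyEq ?_
  have h2 : ∀ᶠ v in 𝓝 w, ofComplex v ∈ V :=
    (contMDiffAt_ofComplex (n := 0) hw).continuousAt.eventually_mem hV
  filter_upwards [h2] with v hv
  unfold Surf.NN
  rw [tsum_eq_sum (s := hfin.toFinset)]
  · rfl
  · intro γ hγ
    by_contra hne
    exact hγ (hfin.mem_toFinset.mpr ⟨ofComplex v, hne, hv⟩)

/-- one smooth test function on the upper half plane computes the integrals over `D` of all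
measurable invariant functions -/
theorem exists_test_gen [Countable Γ] (hD : IsFundamentalDomain Γ D (volume : Measure ℍ))
    (hK : ∃ K : Set ℍ, IsCompact K ∧ ∀ z, ∃ γ ∈ Γ, γ • z ∈ K) :
    ∃ ζ : ℂ → ℝ, Test UH (fun z => (ζ z : ℂ)) ∧
      (∀ w, 0 ≤ ζ w) ∧ ∀ F : ℍ → ℝ≥0∞, Measurable F → (∀ γ ∈ Γ, ∀ z, F (γ • z) = F z) →
        ∫⁻ w, ENNReal.ofReal (ζ w) * F (ofComplex w) = ∫⁻ z in D, F z := by
  obtain ⟨K, hKc, hcov⟩ := hK
  obtain ⟨c, hcT, hc0, hc1⟩ := exists_cutoff_nonneg isOpen_UH (hKc.image continuous_coe)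
    (by rintro _ ⟨z, -, rfl⟩; exact z.im_pos)
  have hcd : ContDiff ℝ ∞ c := Complex.reCLM.contDiff.comp hcT.smooth
  have hc : Continuous c := hcd.continuous
  have hts : tsupport c = tsupport (fun z => (c z : ℂ)) := by
    unfold tsupport
    congr 1
    ext z
    simp
  have hcs : HasCompactSupport c := by
    unfold HasCompactSupport
    rw [hts]
    exact hcT.supp
  have hcU : tsupport c ⊆ {w | 0 < w.im} := by
    rw [hts]
    exact hcT.sub
  set χ : ℍ → ℝ := fun z => c z with hχdef
  have hχc : Continuous χ := hc.comp continuous_coe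
  have hχ0 : ∀ z, 0 ≤ χ z := fun z => hc0 _
  obtain ⟨R, hχ⟩ := Surf.bounded_of_tsupport hcs hcU
  have hpos : ∀ z, 0 < Surf.NN Γ χ z := by
    intro z
    obtain ⟨γ, hγ, hz⟩ := hcov z
    have h1 : χ ((⟨γ, hγ⟩ : Γ) • z) ≤ Surf.NN Γ χ z :=
      (Surf.NN_summable hD hχ z).le_tsum _ fun δ _ => hχ0 _
    have h2 : χ ((⟨γ, hγ⟩ : Γ) • z) = 1 := hc1 _ ⟨_, hz, rfl⟩
    linarith
  have hN := Surf.NN_continuous hD hχ hχc
  set G : ℍ → ℝ := fun z => 1 / z.im ^ 2 * (1 / Surf.NN Γ χ z) with hG
  have hG0 : ∀ z, 0 ≤ G z := by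
    intro z
    have h1 := z.im_pos
    have h2 := hpos z
    simp only [hG]
    positivity
  have hGs : ContDiffOn ℝ ∞ (fun w : ℂ => G (ofComplex w)) UH := by
    have h1 : ContDiffOn ℝ ∞ (fun w : ℂ => 1 / w.im ^ 2 *
        (1 / Surf.NN Γ χ (ofComplex w))) UH := by
      refine ContDiffOn.mul ?_ ?_
      · refine ContDiffOn.div contDiffOn_const (Complex.imCLM.contDiff.contDiffOn.pow 2) ?_
        intro w hw
        exact (pow_pos (show 0 < w.im from hw) 2).ne'
      · exact ContDiffOn.div contDiffOn_const (NN_smooth hD hcd hχ) fun w _ => (hpos _).ne'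
    refine h1.congr fun w hw => ?_
    have e3 : (ofComplex w : ℍ).im = w.im := by
      rw [ofComplex_apply_of_im_pos (show 0 < w.im from hw)]; rfl
    simp only [hG, e3]
  refine ⟨fun w => c w * G (ofComplex w), ?_, fun w => mul_nonneg (hc0 w) (hG0 _), ?_⟩
  · have h1 := hcT.mul isOpen_UH (f := fun w : ℂ => ((G (ofComplex w) : ℝ) : ℂ))
      (Complex.ofRealCLM.contDiff.comp_contDiffOn hGs)
    simpa only [← Complex.ofReal_mul] using h1
  intro F hF hinv
  have hU : IsOpen {w : ℂ | 0 < w.im} := isOpen_lt continuous_const Complex.continuous_im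
  -- the quotient `χ / N` unfolds
  have hχN : Continuous fun z => χ z / Surf.NN Γ χ z := hχc.div hN fun z => (hpos z).ne'
  have hu := Surf.unfold_gen hD (χ := fun z => χ z / Surf.NN Γ χ z) (R := R) (fun z hz => hχ z (by
    intro h0; apply hz
    show χ z / Surf.NN Γ χ z = 0
    rw [show χ z = 0 from h0, zero_div])) hχN
    (fun z => div_nonneg (hχ0 z) (hpos z).le) hF hinv
  have e0 : ∀ z, Surf.NN Γ (fun z => χ z / Surf.NN Γ χ z) z = 1 := by
    intro z
    have e1 : Surf.NN Γ (fun z => χ z / Surf.NN Γ χ z) z = ∑' γ : Γ, χ (γ • z) / Surf.NN Γ χ z := by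
      refine tsum_congr fun γ => ?_
      show χ (γ • z) / Surf.NN Γ χ (γ • z) = χ (γ • z) / Surf.NN Γ χ z
      rw [Surf.NN_inv]
    rw [e1, tsum_div_const]
    exact div_self (hpos z).ne'
  have e1 : ∫⁻ z in D, ENNReal.ofReal (Surf.NN Γ (fun z => χ z / Surf.NN Γ χ z) z) * F z =
      ∫⁻ z in D, F z := by
    refine lintegral_congr fun z => ?_
    rw [e0, ENNReal.ofReal_one, one_mul]
  rw [← e1, ← hu, Surf.lintegral_uhp]
  · rw [← lintegral_indicator hU.measurableSet]
    refine lintegral_congr fun w => ?_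
    by_cases hw : 0 < w.im
    · rw [indicator_of_mem (show w ∈ {w : ℂ | 0 < w.im} from hw), ← mul_assoc,
        ← ENNReal.ofReal_mul (by positivity)]
      congr 2
      have e2 : ((ofComplex w : ℍ) : ℂ) = w := by rw [ofComplex_apply_of_im_pos hw]
      have e3 : (ofComplex w : ℍ).im = w.im := by rw [ofComplex_apply_of_im_pos hw]; rfl
      simp only [hG, hχdef, e2, e3]
      ring
    · rw [indicator_of_notMem (show w ∉ {w : ℂ | 0 < w.im} from hw)]
      have : c w = 0 := by
        by_contra h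
        exact hw (hcU (subset_tsupport c h))
      show ENNReal.ofReal (c w * G (ofComplex w)) * F (ofComplex w) = 0
      rw [this, zero_mul, ENNReal.ofReal_zero, zero_mul]
  · exact (ENNReal.measurable_ofReal.comp hχN.measurable).mul hF

/-- one smooth test function on the upper half plane computes the integrals over `D` of all
integrable invariant functions -/
theorem exists_test_int [Countable Γ] (hD : IsFundamentalDomain Γ D (volume : Measure ℍ))
    (hK : ∃ K : Set ℍ, IsCompact K ∧ ∀ z, ∃ γ ∈ Γ, γ • z ∈ K) :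
    ∃ ζ : ℂ → ℝ, Test UH (fun z => (ζ z : ℂ)) ∧
      (∀ w, 0 ≤ ζ w) ∧ ∀ f : ℍ → ℝ, Measurable f → IntegrableOn f D (volume : Measure ℍ) →
        (∀ γ ∈ Γ, ∀ z, f (γ • z) = f z) →
        Integrable (fun w => ζ w * f (ofComplex w)) ∧
        ∫ w, ζ w * f (ofComplex w) = ∫ z in D, f z := by
  obtain ⟨ζ, hT, h4, h5⟩ := exists_test_gen hD hK
  refine ⟨ζ, hT, h4, fun f hf hfi hinv => ?_⟩
  have h1 : Continuous ζ := (Complex.reCLM.contDiff.comp hT.smooth).continuous
  have hoc : Measurable (ofComplex : ℂ → ℍ) := Surf.measurable_ofComplex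
  -- nonnegative functions
  have key : ∀ g : ℍ → ℝ, Measurable g → IntegrableOn g D (volume : Measure ℍ) → (∀ z, 0 ≤ g z) →
      (∀ γ ∈ Γ, ∀ z, g (γ • z) = g z) → Integrable (fun w => ζ w * g (ofComplex w)) ∧
        ∫ w, ζ w * g (ofComplex w) = ∫ z in D, g z := by
    intro g hg hgi hg0 hginv
    have e0 : ∫⁻ w, ENNReal.ofReal (ζ w * g (ofComplex w)) = ∫⁻ z in D, ENNReal.ofReal (g z) := by
      rw [← h5 (fun z => ENNReal.ofReal (g z)) (ENNReal.measurable_ofReal.comp hg)
        (fun γ hγ z => by rw [hginv γ hγ z])]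
      refine lintegral_congr fun w => ?_
      rw [ENNReal.ofReal_mul (h4 w)]
    have hm : AEStronglyMeasurable (fun w => ζ w * g (ofComplex w)) (volume : Measure ℂ) :=
      (h1.measurable.mul (hg.comp hoc)).aestronglyMeasurable
    have hnn : ∀ w, 0 ≤ ζ w * g (ofComplex w) := fun w => mul_nonneg (h4 w) (hg0 _)
    constructor
    · refine ⟨hm, ?_⟩
      rw [hasFiniteIntegral_iff_ofReal (Eventually.of_forall hnn), e0]
      have := hgi.2
      rwa [hasFiniteIntegral_iff_ofReal (Eventually.of_forall hg0)] at this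
    · rw [integral_eq_lintegral_of_nonneg_ae (Eventually.of_forall hnn) hm,
        integral_eq_lintegral_of_nonneg_ae (Eventually.of_forall fun z => hg0 z)
          hg.aestronglyMeasurable, e0]
  obtain ⟨a1, a2⟩ := key (fun z => max (f z) 0) (hf.max measurable_const) hfi.pos_part
    (fun z => le_max_right _ _) (fun γ hγ z => by simp only [hinv γ hγ z])
  obtain ⟨b1, b2⟩ := key (fun z => max (-f z) 0) (hf.neg.max measurable_const) hfi.neg_part
    (fun z => le_max_right _ _) (fun γ hγ z => by simp only [hinv γ hγ z])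
  have e : ∀ z, f z = max (f z) 0 - max (-f z) 0 := by
    intro z
    rcases le_total 0 (f z) with h | h
    · rw [max_eq_left h, max_eq_right (by linarith)]; ring
    · rw [max_eq_right h, max_eq_left (by linarith)]; ring
  have e1 : (fun w => ζ w * f (ofComplex w)) = fun w => ζ w * max (f (ofComplex w)) 0
      - ζ w * max (-f (ofComplex w)) 0 := by
    funext w
    conv_lhs => rw [e (ofComplex w)]
    ring
  refine ⟨by rw [e1]; exact a1.sub b1, ?_⟩
  rw [e1, integral_sub a1 b1, a2, b2, ← integral_sub hfi.pos_part hfi.neg_part]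
  exact integral_congr_ae (Eventually.of_forall fun z => (e z).symm)

end CUT

open CUT in
theorem t_CUT : StmtCut := by
  intro Γ _ D ρ hDm hD hF
  obtain ⟨ζ, hT, h0, hint⟩ := exists_test_int hD hF.cpt
  have hρ : Continuous ρ := Fac.cont hF
  obtain ⟨C, hC⟩ := Berry.bdd_of_cocompact hρ hF.inv hF.cpt
  set A : ℝ := ((Berry.area ρ D).toReal)⁻¹ with hA
  have hA0 : 0 ≤ A := inv_nonneg.mpr ENNReal.toReal_nonneg
  have hexp : Continuous fun z : ℍ => Real.exp (2 * ρ z) :=
    Real.continuous_exp.comp (continuous_const.mul hρ)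
  refine ⟨fun z => ζ z * (A * Real.exp (2 * ro ρ z)), ?_, ?_, ?_⟩
  · have h1 := hT.mul isOpen_UH (f := fun w : ℂ => ((A * Real.exp (2 * ro ρ w) : ℝ) : ℂ))
      (Complex.ofRealCLM.contDiff.comp_contDiffOn
        (contDiffOn_const.mul ((contDiffOn_const.mul hF.smooth).exp)))
    simpa only [← Complex.ofReal_mul] using h1
  · intro z
    exact mul_nonneg (h0 z) (mul_nonneg hA0 (Real.exp_pos _).le)
  · intro f hf hfi hinv
    have h1 : Measurable fun z : ℍ => A * Real.exp (2 * ρ z) * f z :=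
      (measurable_const.mul hexp.measurable).mul hf
    have h2 : IntegrableOn (fun z : ℍ => A * Real.exp (2 * ρ z) * f z) D (volume : Measure ℍ) := by
      refine Integrable.bdd_mul (c := A * Real.exp (2 * C)) hfi
        (measurable_const.mul hexp.measurable).aestronglyMeasurable ?_
      refine Eventually.of_forall fun z => ?_
      rw [Real.norm_eq_abs, abs_of_nonneg (mul_nonneg hA0 (Real.exp_pos _).le)]
      refine mul_le_mul_of_nonneg_left (Real.exp_le_exp.mpr ?_) hA0
      have := (le_abs_self _).trans (hC z)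
      linarith
    have h3 : ∀ γ ∈ Γ, ∀ z, A * Real.exp (2 * ρ (γ • z)) * f (γ • z) =
        A * Real.exp (2 * ρ z) * f z := by
      intro γ hγ z
      rw [hF.inv γ hγ z, hinv γ hγ z]
    obtain ⟨h4, h5⟩ := hint _ h1 h2 h3
    have e1 : (fun w : ℂ => ζ w * (A * Real.exp (2 * ro ρ w)) * f (ofComplex w)) =
        fun w : ℂ => ζ w * (A * Real.exp (2 * ρ (ofComplex w)) * f (ofComplex w)) := by
      funext w
      unfold ro
      ring
    rw [e1]
    refine ⟨h4, ?_⟩
    rw [h5, rAvg_eq_int hDm hρ, ← hA, ← integral_const_mul]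
    refine integral_congr_ae (Eventually.of_forall fun z => ?_)
    beta_reduce
    ring

end

end BSL
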