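import Pool.Agent.BSL.St2

/-!
# Module DIA: the truncation levels
-/

set_option autoImplicit false

open MeasureTheory Filter Topology Set

namespace BSL.DIA

/-- Diagonal choice. -/
theorem diag (P : ℕ → ℕ → Prop) (h0 : ∀ n, P 0 n) (h : ∀ N, ∀ᶠ n in atTop, P N n) :
    ∃ N : ℕ → ℕ, Tendsto N atTop atTop ∧ ∀ n, P (N n) n := by
  classical
  refine ⟨fun n => Nat.findGreatest (fun N => P N n) n, ?_, ?_⟩
  · rw [tendsto_atTop]
    intro N
    filter_upwards [h N, eventually_ge_atTop N] with n h1 h2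
    exact Nat.le_findGreatest h2 h1
  · intro n
    exact Nat.findGreatest_spec (P := fun N => P N n) (Nat.zero_le n) (h0 n)

theorem trunc_cont (r : ℝ) : Continuous fun x : ℝ => min (max x 0) r := by fun_prop

theorem trunc_bdd {r : ℝ} (hr : 0 ≤ r) (x : ℝ) : |min (max x 0) r| ≤ r := by
  rw [abs_of_nonneg (le_min (le_max_right _ _) hr)]
  exact min_le_right _ _

theorem bdd_int (ν : Measure ℝ) [IsFiniteMeasure ν] {G : ℝ → ℝ} (hG : Continuous G) {C : ℝ}
    (hC : ∀ x, |G x| ≤ C) : Integrable G ν :=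
  (integrable_const C).mono' hG.aestronglyMeasurable (Eventually.of_forall fun x => by
    rw [Real.norm_eq_abs]; exact hC x)

/-- the integral of the part above `r` -/
theorem int_above (ν : Measure ℝ) [IsFiniteMeasure ν] (h0 : ∀ᵐ x ∂ν, 0 ≤ x)
    (hi : Integrable (fun x => x) ν) {r : ℝ} (hr : 0 ≤ r) :
    ∫ x, max (x - r) 0 ∂ν = ∫ x, x ∂ν - ∫ x, min (max x 0) r ∂ν := by
  rw [← integral_sub hi (bdd_int ν (trunc_cont r) (trunc_bdd hr))]
  refine integral_congr_ae ?_
  filter_upwards [h0] with x hx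
  rw [max_eq_left hx]
  rcases le_total x r with h | h
  · rw [min_eq_left h, max_eq_right (by linarith)]
    ring
  · rw [min_eq_right h, max_eq_left (by linarith)]

theorem int_above_int (ν : Measure ℝ) [IsFiniteMeasure ν] (hi : Integrable (fun x => x) ν)
    (r : ℝ) : Integrable (fun x => max (x - r) 0) ν :=
  (hi.sub (integrable_const r)).pos_part

theorem sq_min_int (ν : Measure ℝ) [IsFiniteMeasure ν] (h0 : ∀ᵐ x ∂ν, 0 ≤ x) {r : ℝ}
    (hr : 0 ≤ r) : Integrable (fun x => min x r ^ 2) ν := by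
  have h1 : Integrable (fun x => min (max x 0) r ^ 2) ν :=
    bdd_int ν (by fun_prop) (C := r ^ 2) (fun x => by
      rw [abs_pow]
      exact pow_le_pow_left₀ (abs_nonneg _) (trunc_bdd hr x) 2)
  refine h1.congr ?_
  filter_upwards [h0] with x hx
  rw [max_eq_left hx]

theorem cut_int (ν : Measure ℝ) [IsFiniteMeasure ν] (h0 : ∀ᵐ x ∂ν, 0 ≤ x) {r k : ℝ}
    (hr : 0 ≤ r) (hk : 0 ≤ k) : Integrable (fun x => max (min x r - k) 0 ^ 2) ν := by
  have h1 : Integrable (fun x => max (min (max x 0) r - k) 0 ^ 2) ν :=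
    bdd_int ν (by fun_prop) (C := r ^ 2) (fun x => by
      have h2 : 0 ≤ min (max x 0) r := le_min (le_max_right _ _) hr
      have h3 : min (max x 0) r ≤ r := min_le_right _ _
      have h4 : max (min (max x 0) r - k) 0 ≤ r := max_le (by linarith) hr
      rw [abs_of_nonneg (by positivity)]
      exact pow_le_pow_left₀ (le_max_right _ _) h4 2)
  refine h1.congr ?_
  filter_upwards [h0] with x hx
  rw [max_eq_left hx]

/-- the tails of the second moment -/
theorem tail_zero (ν : Measure ℝ) [IsFiniteMeasure ν] (h2 : Integrable (fun x => x ^ 2) ν) :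
    Tendsto (fun r : ℕ => ∫ x, (Ici (r : ℝ)).indicator (fun x => x ^ 2) x ∂ν) atTop (𝓝 0) := by
  have h := tendsto_integral_of_dominated_convergence (μ := ν)
    (F := fun (r : ℕ) x => (Ici (r : ℝ)).indicator (fun x => x ^ 2) x) (f := fun _ => (0 : ℝ))
    (fun x => x ^ 2) (fun r => (h2.indicator measurableSet_Ici).aestronglyMeasurable) h2
    (fun r => Eventually.of_forall fun x => by
      rw [Real.norm_eq_abs]
      by_cases hx : x ∈ Ici (r : ℝ)
      · rw [indicator_of_mem hx, abs_of_nonneg (sq_nonneg x)]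
      · rw [indicator_of_notMem hx, abs_zero]
        exact sq_nonneg x)
    (Eventually.of_forall fun x => by
      refine tendsto_const_nhds.congr' ?_
      obtain ⟨N, hN⟩ := exists_nat_gt x
      filter_upwards [eventually_ge_atTop N] with n hn
      rw [indicator_of_notMem]
      rw [mem_Ici, not_le]
      exact hN.trans_le (by exact_mod_cast hn))
  rwa [integral_zero] at h

/-- the squares of the parts above `k` -/
theorem above_zero (ν : Measure ℝ) [IsFiniteMeasure ν] (h0 : ∀ᵐ x ∂ν, 0 ≤ x)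
    (h2 : Integrable (fun x => x ^ 2) ν) :
    Tendsto (fun k : ℕ => ∫ x, max (x - k) 0 ^ 2 ∂ν) atTop (𝓝 0) := by
  have h := tendsto_integral_of_dominated_convergence (μ := ν)
    (F := fun (k : ℕ) x => max (x - (k : ℝ)) 0 ^ 2) (f := fun _ => (0 : ℝ))
    (fun x => x ^ 2) (fun k => (by fun_prop : Continuous fun x : ℝ =>
      max (x - (k : ℝ)) 0 ^ 2).aestronglyMeasurable) h2
    (fun k => by
      filter_upwards [h0] with x hx
      rw [Real.norm_eq_abs, abs_of_nonneg (by positivity)]
      refine pow_le_pow_left₀ (le_max_right _ _) (max_le ?_ hx) 2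
      have : (0 : ℝ) ≤ k := Nat.cast_nonneg k
      linarith)
    (Eventually.of_forall fun x => by
      refine tendsto_const_nhds.congr' ?_
      obtain ⟨N, hN⟩ := exists_nat_gt x
      filter_upwards [eventually_ge_atTop N] with n hn
      have h3 : (N : ℝ) ≤ n := by exact_mod_cast hn
      rw [max_eq_right (by linarith)]
      norm_num)
  rwa [integral_zero] at h

/-- `(r + 1)` times the first moment above `r` tends to zero -/
theorem first_zero (ν : Measure ℝ) [IsFiniteMeasure ν] (h0 : ∀ᵐ x ∂ν, 0 ≤ x)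
    (h1 : Integrable (fun x => x) ν) (h2 : Integrable (fun x => x ^ 2) ν) :
    Tendsto (fun r : ℕ => ((r : ℝ) + 1) * ∫ x, max (x - r) 0 ∂ν) atTop (𝓝 0) := by
  have h3 := (tail_zero ν h2).const_mul 2
  rw [mul_zero] at h3
  refine squeeze_zero' (Eventually.of_forall fun r => ?_) ?_ h3
  · exact mul_nonneg (by positivity) (integral_nonneg fun x => le_max_right _ _)
  · filter_upwards [eventually_ge_atTop 1] with r hr
    rw [← integral_const_mul, ← integral_const_mul]
    refine integral_mono_ae ((int_above_int ν h1 _).const_mul _)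
      ((h2.indicator measurableSet_Ici).const_mul _) ?_
    filter_upwards [h0] with x hx
    have hr' : (1 : ℝ) ≤ r := by exact_mod_cast hr
    show ((r : ℝ) + 1) * max (x - r) 0 ≤ 2 * (Ici (r : ℝ)).indicator (fun x => x ^ 2) x
    by_cases h : (r : ℝ) ≤ x
    · rw [indicator_of_mem (by exact h), max_eq_left (by linarith)]
      nlinarith
    · rw [indicator_of_notMem (by exact h), max_eq_right (by linarith)]
      simp

end BSL.DIA

namespace BSL

open BSL.DIA

theorem t_DIA : StmtDia := by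
  intro ν ν' hν hν' h0 h0' hlim hint hone hone' hsq
  have hint' : Integrable (fun x => x) ν' := by
    by_contra h
    rw [integral_undef h] at hone'
    exact zero_ne_one hone'
  set f : ℕ → ℝ := fun r => ∫ x, max (x - (r : ℝ)) 0 ∂ν' with hf
  set e : ℕ → ℝ := fun k => ∫ x, max (x - (k : ℝ)) 0 ^ 2 ∂ν' with he
  set b : ℝ := ∫ x, x ^ 2 ∂ν' with hb
  have hb0 : 0 ≤ b := integral_nonneg fun x => sq_nonneg x
  -- convergence for fixed levels
  have c1 : ∀ r : ℕ, Tendsto (fun n => ∫ x, max (x - (r : ℝ)) 0 ∂(ν n)) atTop (𝓝 (f r)) := by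
    intro r
    have hr : (0 : ℝ) ≤ r := Nat.cast_nonneg r
    have h1 := hlim (fun x => min (max x 0) (r : ℝ)) (trunc_cont _) ⟨r, trunc_bdd hr⟩
    have h2 := (tendsto_const_nhds (x := (1 : ℝ))).sub h1
    have h3 : f r = 1 - ∫ x, min (max x 0) (r : ℝ) ∂ν' := by
      simp only [hf]
      rw [int_above ν' h0' hint' hr, hone']
    rw [h3]
    refine h2.congr fun n => ?_
    rw [int_above (ν n) (h0 n) (hint n) hr, hone n]
  have c2 : ∀ r : ℕ, ∀ δ > 0, ∀ᶠ n in atTop, ∫ x, min x (r : ℝ) ^ 2 ∂(ν n) ≤ b + δ := by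
    intro r δ hδ
    have hr : (0 : ℝ) ≤ r := Nat.cast_nonneg r
    have h1 := hlim (fun x => min (max x 0) (r : ℝ) ^ 2) (by fun_prop) ⟨(r : ℝ) ^ 2, fun x => by
      rw [abs_pow]
      exact pow_le_pow_left₀ (abs_nonneg _) (trunc_bdd hr x) 2⟩
    have h2 : ∫ x, min (max x 0) (r : ℝ) ^ 2 ∂ν' ≤ b := by
      refine integral_mono_ae ?_ hsq ?_
      · refine (sq_min_int ν' h0' hr).congr ?_
        filter_upwards [h0'] with x hx
        rw [max_eq_left hx]
      · filter_upwards [h0'] with x hx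
        show min (max x 0) (r : ℝ) ^ 2 ≤ x ^ 2
        rw [max_eq_left hx]
        exact pow_le_pow_left₀ (le_min hx hr) (min_le_left _ _) 2
    have h3 : ∀ᶠ n in atTop, ∫ x, min (max x 0) (r : ℝ) ^ 2 ∂(ν n) < b + δ :=
      h1.eventually (gt_mem_nhds (by linarith))
    filter_upwards [h3] with n hn
    refine le_trans (le_of_eq ?_) hn.le
    refine integral_congr_ae ?_
    filter_upwards [h0 n] with x hx
    rw [max_eq_left hx]
  have c3 : ∀ r k : ℕ, ∀ δ > 0, ∀ᶠ n in atTop,
      ∫ x, max (min x (r : ℝ) - (k : ℝ)) 0 ^ 2 ∂(ν n) ≤ e k + δ := by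
    intro r k δ hδ
    have hr : (0 : ℝ) ≤ r := Nat.cast_nonneg r
    have hk : (0 : ℝ) ≤ k := Nat.cast_nonneg k
    have h1 := hlim (fun x => max (min (max x 0) (r : ℝ) - k) 0 ^ 2) (by fun_prop)
      ⟨(r : ℝ) ^ 2, fun x => by
        have h2 : 0 ≤ min (max x 0) (r : ℝ) := le_min (le_max_right _ _) hr
        have h3 : min (max x 0) (r : ℝ) ≤ r := min_le_right _ _
        have h4 : max (min (max x 0) (r : ℝ) - k) 0 ≤ r := max_le (by linarith) hr
        rw [abs_of_nonneg (by positivity)]
        exact pow_le_pow_left₀ (le_max_right _ _) h4 2⟩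
    have h2 : ∫ x, max (min (max x 0) (r : ℝ) - k) 0 ^ 2 ∂ν' ≤ e k := by
      refine integral_mono_ae ?_ ?_ ?_
      · refine (cut_int ν' h0' hr hk).congr ?_
        filter_upwards [h0'] with x hx
        rw [max_eq_left hx]
      · refine hsq.mono' (by fun_prop : Continuous fun x : ℝ =>
          max (x - (k : ℝ)) 0 ^ 2).aestronglyMeasurable ?_
        filter_upwards [h0'] with x hx
        rw [Real.norm_eq_abs, abs_of_nonneg (by positivity)]
        exact pow_le_pow_left₀ (le_max_right _ _) (max_le (by linarith) hx) 2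
      · filter_upwards [h0'] with x hx
        show max (min (max x 0) (r : ℝ) - k) 0 ^ 2 ≤ max (x - (k : ℝ)) 0 ^ 2
        rw [max_eq_left hx]
        refine pow_le_pow_left₀ (le_max_right _ _) (max_le_max ?_ le_rfl) 2
        have := min_le_left x (r : ℝ)
        linarith
    have h3 : ∀ᶠ n in atTop, ∫ x, max (min (max x 0) (r : ℝ) - k) 0 ^ 2 ∂(ν n) < e k + δ :=
      h1.eventually (gt_mem_nhds (by linarith))
    filter_upwards [h3] with n hn
    refine le_trans (le_of_eq ?_) hn.le
    refine integral_congr_ae ?_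
    filter_upwards [h0 n] with x hx
    rw [max_eq_left hx]
  -- the diagonal sequence
  obtain ⟨N, hN, hP⟩ := diag (fun N n => ∀ r ∈ Finset.Icc 1 N, ∀ k ∈ Finset.Icc 1 N,
    ∫ x, max (x - (r : ℝ)) 0 ∂(ν n) ≤ f r + 1 / (N : ℝ) ^ 2 ∧
    ∫ x, min x (r : ℝ) ^ 2 ∂(ν n) ≤ b + 1 / (N : ℝ) ∧
    ∫ x, max (min x (r : ℝ) - (k : ℝ)) 0 ^ 2 ∂(ν n) ≤ e k + 1 / (N : ℝ))
    (fun n r hr => by simp at hr) (fun N => by
      rcases Nat.eq_zero_or_pos N with rfl | hN
      · exact Eventually.of_forall fun n r hr => by simp at hr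
      have hN' : (0 : ℝ) < N := by exact_mod_cast hN
      rw [Finset.eventually_all]
      intro r _
      rw [Finset.eventually_all]
      intro k _
      have d1 : ∀ᶠ n in atTop, ∫ x, max (x - (r : ℝ)) 0 ∂(ν n) < f r + 1 / (N : ℝ) ^ 2 :=
        (c1 r).eventually (gt_mem_nhds (by
          have : (0 : ℝ) < 1 / (N : ℝ) ^ 2 := by positivity
          linarith))
      filter_upwards [d1, c2 r (1 / N) (by positivity), c3 r k (1 / N) (by positivity)]
        with n e1 e2 e3
      exact ⟨e1.le, e2, e3⟩)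
  have hNr : Tendsto (fun n => (N n : ℝ)) atTop atTop := tendsto_natCast_atTop_atTop.comp hN
  set R : ℕ → ℝ := fun n => Real.sqrt (max 1 (N n : ℝ)) with hR
  have hR1 : ∀ n, 1 ≤ R n := fun n => by
    simp only [hR]
    rw [Real.one_le_sqrt]
    exact le_max_left _ _
  have hRlim : Tendsto R atTop atTop :=
    Real.tendsto_sqrt_atTop.comp (tendsto_atTop_mono (fun n => le_max_right _ _) hNr)
  have hRsq : ∀ᶠ n in atTop, R n ^ 2 = N n := by
    filter_upwards [hN.eventually_ge_atTop 1] with n hn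
    simp only [hR]
    rw [Real.sq_sqrt (by positivity)]
    exact max_eq_right (by exact_mod_cast hn)
  have hinv : Tendsto (fun n => 1 / (N n : ℝ)) atTop (𝓝 0) := by
    refine (tendsto_inv_atTop_zero.comp hNr).congr fun n => ?_
    rw [Function.comp_apply, one_div]
  refine ⟨R, hR1, hRlim, ?_, ?_, ?_⟩
  · intro c hc
    set r : ℕ → ℕ := fun n => ⌊c * R n⌋₊ with hr
    have hcR : Tendsto (fun n => c * R n) atTop atTop := hRlim.const_mul_atTop hc
    have hrlim : Tendsto r atTop atTop := tendsto_nat_floor_atTop.comp hcR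
    have g1 : Tendsto (fun n => (1 / c) * ((((r n : ℕ) : ℝ) + 1) * f (r n)) + 1 / (N n : ℝ))
        atTop (𝓝 0) := by
      have := (((first_zero ν' h0' hint' hsq).comp hrlim).const_mul (1 / c)).add hinv
      rw [mul_zero, add_zero] at this
      exact this
    refine squeeze_zero' (Eventually.of_forall fun n => ?_) ?_ g1
    · exact mul_nonneg (by linarith [hR1 n]) (integral_nonneg fun x => le_max_right _ _)
    · filter_upwards [hrlim.eventually_ge_atTop 1, hRlim.eventually_ge_atTop c, hRsq,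
        hN.eventually_ge_atTop 1] with n e1 e2 e3 e4
      have hR0 : 0 < R n := by linarith [hR1 n]
      have e5 : (r n : ℝ) ≤ c * R n := Nat.floor_le (by positivity)
      have e6 : c * R n < (r n : ℝ) + 1 := Nat.lt_floor_add_one _
      have e7 : r n ≤ N n := by
        have : (r n : ℝ) ≤ (N n : ℝ) := by
          rw [← e3]
          nlinarith
        exact_mod_cast this
      obtain ⟨p1, -, -⟩ := hP n (r n) (Finset.mem_Icc.2 ⟨e1, e7⟩) 1
        (Finset.mem_Icc.2 ⟨le_rfl, e4⟩)
      have p2 : ∫ x, max (x - c * R n) 0 ∂(ν n) ≤ f (r n) + 1 / (N n : ℝ) ^ 2 := by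
        refine le_trans ?_ p1
        have := hν n
        refine integral_mono (int_above_int (ν n) (hint n) _) (int_above_int (ν n) (hint n) _) ?_
        intro x
        exact max_le_max (by linarith) le_rfl
      have hf0 : 0 ≤ f (r n) := integral_nonneg fun x => le_max_right _ _
      have hN0 : (1 : ℝ) ≤ N n := by exact_mod_cast e4
      have p3 : R n * f (r n) ≤ (1 / c) * (((r n : ℝ) + 1) * f (r n)) := by
        have : R n ≤ (1 / c) * ((r n : ℝ) + 1) := by
          rw [one_div, ← div_eq_inv_mul, le_div_iff₀ hc]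
          linarith
        calc R n * f (r n) ≤ ((1 / c) * ((r n : ℝ) + 1)) * f (r n) :=
              mul_le_mul_of_nonneg_right this hf0
          _ = _ := by ring
      have p4 : R n * (1 / (N n : ℝ) ^ 2) ≤ 1 / (N n : ℝ) := by
        have : R n ≤ N n := by
          rw [← e3]
          nlinarith [hR1 n]
        rw [mul_one_div, div_le_div_iff₀ (by positivity) (by positivity)]
        nlinarith
      calc R n * ∫ x, max (x - c * R n) 0 ∂(ν n) ≤ R n * (f (r n) + 1 / (N n : ℝ) ^ 2) :=
            mul_le_mul_of_nonneg_left p2 hR0.le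
        _ = R n * f (r n) + R n * (1 / (N n : ℝ) ^ 2) := by ring
        _ ≤ _ := add_le_add p3 p4
  · intro ε hε
    have g1 : ∀ᶠ k : ℕ in atTop, e k < ε / 2 :=
      (above_zero ν' h0' hsq).eventually (gt_mem_nhds (by linarith))
    obtain ⟨k, hk1, hk2⟩ := (g1.and (eventually_ge_atTop 1)).exists
    refine ⟨k, Nat.cast_nonneg k, ?_⟩
    filter_upwards [hN.eventually_ge_atTop k, hRsq,
      hinv.eventually (gt_mem_nhds (half_pos hε))] with n e1 e2 e3
    have e4 : 1 ≤ N n := hk2.trans e1
    have hN0 : (1 : ℝ) ≤ N n := by exact_mod_cast e4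
    obtain ⟨-, -, p1⟩ := hP n (N n) (Finset.mem_Icc.2 ⟨e4, le_rfl⟩) k
      (Finset.mem_Icc.2 ⟨hk2, e1⟩)
    have hRN : R n ≤ N n := by
      rw [← e2]
      nlinarith [hR1 n]
    have := hν n
    have hR0 : 0 ≤ R n := by linarith [hR1 n]
    refine le_trans (integral_mono (cut_int (ν n) (h0 n) hR0 (Nat.cast_nonneg k))
      (cut_int (ν n) (h0 n) (by linarith) (Nat.cast_nonneg k)) ?_) (p1.trans (by linarith))
    intro x
    refine pow_le_pow_left₀ (le_max_right _ _) (max_le_max ?_ le_rfl) 2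
    have := min_le_min_left x hRN
    linarith
  · intro C hC ε hε
    filter_upwards [hRlim.eventually_ge_atTop C, hRsq, hN.eventually_ge_atTop 1,
      hinv.eventually (gt_mem_nhds hε)] with n e1 e2 e3 e4
    obtain ⟨-, p1, -⟩ := hP n (N n) (Finset.mem_Icc.2 ⟨e3, le_rfl⟩) 1
      (Finset.mem_Icc.2 ⟨le_rfl, e3⟩)
    have hN0 : (1 : ℝ) ≤ N n := by exact_mod_cast e3
    have hR0 : 0 ≤ R n := by linarith [hR1 n]
    have hCR : C * R n ≤ N n := by
      rw [← e2]
      nlinarith
    have := hν n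
    refine le_trans (integral_mono_ae (sq_min_int (ν n) (h0 n) (by positivity))
      (sq_min_int (ν n) (h0 n) (by linarith)) ?_) (p1.trans (by linarith))
    filter_upwards [h0 n] with x hx
    exact pow_le_pow_left₀ (le_min hx (by positivity)) (min_le_min_left x hCR) 2

end BSL
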