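import Pool.Agent.BSL.St3

/-!
# Closed surfaces: the four-point function of a limit field (module FLA)
-/

set_option autoImplicit false

open Complex MeasureTheory Filter Topology Set
open UpperHalfPlane hiding I
open scoped ContDiff MatrixGroups ProbabilityTheory ENNReal

namespace BSL

open QE QE.NC QJ U3 NFP

noncomputable section

namespace FLA

variable {Γ : Subgroup SL(2, ℝ)} {D : Set ℍ} {ρ : ℍ → ℝ} {φ : ℕ → ℍ → ℝ} {m : ℕ → ℝ}

/-- a tail of a subsequence satisfies the standing hypotheses -/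
theorem exists_sur [Countable Γ]
    (hρ : ContDiffOn ℝ ∞ (fun w : ℂ => ρ (ofComplex w)) {w | 0 < w.im})
    (hρΓ : ∀ γ ∈ Γ, ∀ z, ρ (γ • z) = ρ z) (hDm : MeasurableSet D)
    (hD : IsFundamentalDomain Γ D (volume : Measure ℍ))
    (hK : ∃ K : Set ℍ, IsCompact K ∧ ∀ z, ∃ γ ∈ Γ, γ • z ∈ K) (hφ : Berry.REigenSeq Γ ρ φ m)
    (hs : ∀ n, ContDiffOn ℝ ∞ (fun w : ℂ => φ n (ofComplex w)) {w | 0 < w.im})
    (hnorm : ∀ n, Berry.rAvg ρ D (fun z => φ n z ^ 2) = 1) :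
    ∃ N : ℕ, Sur Γ D ρ (fun n => φ (n + N)) (fun n => m (n + N)) := by
  obtain ⟨N₁, hN₁⟩ := (hφ.tendsto.eventually_ge_atTop 1).exists_forall_of_atTop
  have hφ' := reig_comp hφ (tendsto_add_atTop_nat N₁)
  obtain ⟨N₂, -, hL⟩ := U3.srf Γ D ρ (fun n => φ (n + N₁)) (fun n => m (n + N₁)) hDm hD hK hρ hρΓ
    hφ' (fun n => hs _) (fun n => hnorm _)
  refine ⟨N₂ + N₁, hDm, hD, ⟨hρ, hρΓ, hK⟩, reig_comp hφ (tendsto_add_atTop_nat _), fun n => hs _,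
    fun n => hnorm _, fun n => hN₁ _ (by omega), ?_⟩
  have e : ∀ n, n + (N₂ + N₁) = n + N₂ + N₁ := fun n => by ring
  simp only [e]
  exact hL

theorem fLim_comp {Ω : Type} [MeasurableSpace Ω] {P : Measure Ω} {F : ℂ → Ω → ℝ}
    (h : FLim ρ D φ m P F) {k : ℕ → ℕ} (hk : Tendsto k atTop atTop) :
    FLim ρ D (fun n => φ (k n)) (fun n => m (k n)) P F :=
  fun r x G hG hb => (h r x G hG hb).comp hk

theorem sem_comp {μ : Measure (ℍ × S1)} (h : Semiclassical ρ φ m μ) {k : ℕ → ℕ}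
    (hk : Tendsto k atTop atTop) : Semiclassical ρ (fun n => φ (k n)) (fun n => m (k n)) μ :=
  ⟨h.fin, fun j l ζ a1 a2 a3 => (h.lim j l ζ a1 a2 a3).comp hk⟩

theorem bdd_rho (hρ : ContDiffOn ℝ ∞ (fun w : ℂ => ρ (ofComplex w)) {w | 0 < w.im})
    (hρΓ : ∀ γ ∈ Γ, ∀ z, ρ (γ • z) = ρ z)
    (hK : ∃ K : Set ℍ, IsCompact K ∧ ∀ z, ∃ γ ∈ Γ, γ • z ∈ K) : ∃ R, ∀ z, |ρ z| ≤ R :=
  Berry.bdd_of_cocompact (QE.continuous_of_smooth hρ) hρΓ hK

end FLA

open FLA in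
/-- **FLA**: the four-point function of a limit field of a closed surface. -/
theorem t_FLA (h : StmtFfl) : StmtFla := by
  intro Γ _ ρ hρ hρΓ D hDm hD hK φ m hφ hs hnorm Ω _ P _ F hFm hF hF2 hF4 k μ hk hμ
  have hφk := reig_comp hφ hk.tendsto_atTop
  obtain ⟨N, hS⟩ := exists_sur (Γ := Γ) (D := D) hρ hρΓ hDm hD hK hφk (fun n => hs _)
    (fun n => hnorm _)
  have hkN : Tendsto (fun n => k (n + N)) atTop atTop :=
    hk.tendsto_atTop.comp (tendsto_add_atTop_nat N)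
  have hF' : FLim ρ D (fun n => φ (k (n + N))) (fun n => m (k (n + N))) P F := fLim_comp hF hkN
  have hμ' : Semiclassical ρ (fun n => φ (k (n + N))) (fun n => m (k (n + N))) μ :=
    ⟨hμ.fin, fun j l ζ a1 a2 a3 => (hμ.lim j l ζ a1 a2 a3).comp (tendsto_add_atTop_nat N)⟩
  obtain ⟨s, hSem, hμs, m1, m2, m4, f4, -⟩ := h Γ D ρ _ _ hS Ω P F hFm hF' hF2 hF4 μ hμ'
  obtain ⟨R, hR⟩ := bdd_rho hρ hρΓ hK
  refine ⟨s, hSem.fin, hμs, BND.int_area hR m1, m2, fun x => ⟨BND.int_area hR (m4 x), ?_, ?_⟩⟩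
  · have := (f4 x).1
    simpa only [Fin.prod_univ_four] using this
  · have := (f4 x).2
    simpa only [Fin.prod_univ_four, fourF] using this

end

end BSL
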