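import Pool.Agent.BSL.CORE

/-!
# Quantum ergodic sequences on closed surfaces: the limit fields (module FLQ)
-/

set_option autoImplicit false

open Complex MeasureTheory Filter Topology Set
open UpperHalfPlane hiding I
open scoped ContDiff MatrixGroups ProbabilityTheory ENNReal

namespace BSL

open QE QE.NC QJ U3 NFP

noncomputable section

theorem qe_comp {ρ : ℍ → ℝ} {φ : ℕ → ℍ → ℝ} {m : ℕ → ℝ} (h : QE.QuantumErgodic ρ φ m)
    {k : ℕ → ℕ} (hk : Tendsto k atTop atTop) :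
    QE.QuantumErgodic ρ (fun n => φ (k n)) (fun n => m (k n)) :=
  fun j l ζ a1 a2 a3 => (h j l ζ a1 a2 a3).comp hk

open CORE in
/-- **FLQ**: quantum ergodic sequences on closed surfaces. -/
theorem t_FLQ (h1 : StmtFfl) (h2 : StmtNqe) (h3 : StmtQeu) : StmtFlq := by
  intro Γ _ ρ hρ hρΓ D hDm hD hK φ m hφ hs hnorm hqe Ω _ P _ F hFm hF hF2
  have key : Integrable (fun o => F 0 o ^ 4) P → 3 ≤ ∫ o, F 0 o ^ 4 ∂P ∧
      (∀ x : Fin 3 → ℂ, Integrable (fun o => ∏ i, F (x i) o) P ∧ ∫ o, ∏ i, F (x i) o ∂P = 0) ∧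
      ∀ x : Fin 4 → ℂ, Integrable (fun o => ∏ i, F (x i) o) P ∧ ∫ o, ∏ i, F (x i) o ∂P
        = Berry.waveK (x 0 - x 1) * Berry.waveK (x 2 - x 3)
          + Berry.waveK (x 0 - x 2) * Berry.waveK (x 1 - x 3)
          + Berry.waveK (x 0 - x 3) * Berry.waveK (x 1 - x 2)
          + ((∫ o, F 0 o ^ 4 ∂P) - 3) / 3 * resK x := by
    intro hF4
    obtain ⟨l, s, hl, T⟩ := exists_dat h1 hρ hρΓ hDm hD hK hφ hs hnorm hFm hF hF2 hF4
      (k := fun n => n) tendsto_id
    obtain ⟨q1, q2⟩ := h2 ρ _ _ s T.sur.fac.smooth T.sur.loc T.sem (qe_comp hqe hl)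
    have hu : ∀ᵐ z ∂((volume : Measure ℍ).restrict D), (s z) univ = 1 ∧
        ∀ k : ℤ, Even k → k ≠ 0 → cof (s z) k = 0 := by
      refine ae_D (P := fun z => (s z) univ = 1 ∧ ∀ k : ℤ, Even k → k ≠ 0 → cof (s z) k = 0) ?_
      filter_upwards [q1] with z hz
      refine ⟨?_, fun k _ hk => hz.2 k hk⟩
      have h := hz.1
      unfold ma at h
      exact (ENNReal.toReal_eq_one_iff _).1 h
    obtain ⟨-, e, f4⟩ := T.uni h3 hu
    obtain ⟨g1, g2⟩ := T.noat q2
    rw [e, mul_one] at g1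
    exact ⟨g1, g2, fun x => ⟨(T.four x).1, f4 x⟩⟩
  refine ⟨?_, fun hF4 => ⟨fun x y z => ?_, fun x => ?_⟩⟩
  · have := le_lint (P := P) ((hFm 0).pow_const 4) (fun o => by positivity) (c := 3)
      (fun hi => (key hi).1)
    simpa using this
  · have := (key hF4).2.1 ![x, y, z]
    simpa [Fin.prod_univ_three] using this
  · have := (key hF4).2.2 x
    simpa only [Fin.prod_univ_four] using this

end

end BSL
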