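import Pool.Agent.BSL.St2
import Pool.Agent.CRM.COV
import Pool.Agent.CRM.INE

/-!
# LFE: the moments of the directional measures are covariant
-/

open Complex MeasureTheory Filter Topology Set
open UpperHalfPlane hiding I
open scoped ContDiff MatrixGroups ProbabilityTheory

namespace BSL

open QE QE.NC QJ U3 NFP

noncomputable section

namespace LFE

theorem phase_pow (γ : SL(2, ℝ)) (k : ℤ) : ContDiffOn ℝ ∞ (fun z => phase γ z ^ k) UH := by
  cases k with
  | ofNat m =>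
    have := (contDiffOn_phase γ).pow m
    simpa only [Int.ofNat_eq_natCast, zpow_natCast] using this
  | negSucc m =>
    have h1 : ContDiffOn ℝ ∞ (fun z => (phase γ z ^ (m + 1))⁻¹) UH :=
      ((contDiffOn_phase γ).pow (m + 1)).inv fun z hz =>
      pow_ne_zero _ (phase_ne_zero γ hz)
    exact h1.congr fun z _ => zpow_negSucc _ _

/-- a function which is covariant against all test functions is covariant almost everywhere -/
theorem ae_of_test (γ : SL(2, ℝ)) (k : ℤ) {v : ℂ → ℂ} (hv : LocL2 UH v)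
    (key : ∀ {ζ : ℂ → ℂ}, Test UH ζ →
      ∫ z, ζ z * v z = ∫ z, ζ z * phase γ z ^ k * v (mob γ z)) :
    ∀ᵐ z ∂((volume : Measure ℂ).restrict UH), v z = phase γ z ^ k * v (mob γ z) := by
  have hU := isOpen_UH
  have hph := phase_pow γ k
  have hint : ∀ {θ : ℂ → ℂ}, Test UH θ → Integrable (fun z => θ z * v (mob γ z)) := by
    intro θ hθ
    exact hθ.int_of_intOn (Mob.integrable_comp γ hv hθ.supp hθ.sub)
  have hloc : LocallyIntegrableOn (fun z => v z - phase γ z ^ k * v (mob γ z)) UH := by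
    rw [locallyIntegrableOn_iff hU.isLocallyClosed]
    intro K hKU hK
    have h1 : IntegrableOn v K := hv.intOn hK hKU
    have h2 := (Mob.integrable_comp γ hv hK hKU).continuousOn_mul
      (hph.continuousOn.mono hKU) hK
    exact h1.sub h2
  have hae := hU.ae_eq_zero_of_integral_contDiff_smul_eq_zero (μ := volume) hloc
    fun g hg1 hg2 hg3 => by
      have hζ : Test UH (fun z => (g z : ℂ)) := by
        refine ⟨ofRealCLM.contDiff.comp hg1, hg2.comp_left ofReal_zero, ?_⟩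
        refine (closure_mono ?_).trans hg3
        intro z hz
        simp only [Function.mem_support] at hz ⊢
        intro h0; exact hz (by rw [h0, ofReal_zero])
      have h1 := key hζ
      have h2 : Integrable (fun z => (g z : ℂ) * v z) := hζ.int_LocL2 hv
      have h3 : Integrable (fun z => (g z : ℂ) * phase γ z ^ k * v (mob γ z)) :=
        hint (hζ.mul hU hph)
      have h4 := integral_sub h2 h3
      rw [h1, sub_self] at h4
      rw [← h4]
      refine integral_congr_ae (Eventually.of_forall fun z => ?_)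
      beta_reduce
      rw [Complex.real_smul]
      ring
  rw [ae_restrict_iff' hU.measurableSet]
  filter_upwards [hae] with z hz hzU
  exact sub_eq_zero.1 (hz hzU)

/-- the transposed test function -/
def tr (γ : SL(2, ℝ)) (θ : ℂ → ℂ) : ℂ → ℂ :=
  CRM.INE.pb γ⁻¹ fun z => θ z * ((‖den γ z‖ ^ 4 : ℝ) : ℂ)

theorem test_wt (γ : SL(2, ℝ)) {θ : ℂ → ℂ} (hθ : Test UH θ) :
    Test UH (fun z => θ z * ((‖den γ z‖ ^ 4 : ℝ) : ℂ)) := by
  refine hθ.mul isOpen_UH ?_
  have h1 : ContDiff ℝ ∞ fun z => ((‖den γ z‖ ^ 2) ^ 2 : ℝ) := by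
    have h2 : ContDiff ℝ ∞ fun z => (‖den γ z‖ ^ 2 : ℝ) := (contDiff_den γ).norm_sq ℝ
    exact h2.pow 2
  have h3 : (fun z => ((‖den γ z‖ ^ 4 : ℝ) : ℂ)) = fun z => (((‖den γ z‖ ^ 2) ^ 2 : ℝ) : ℂ) := by
    funext z
    rw [← pow_mul]
  rw [h3]
  exact (Complex.ofRealCLM.contDiff.comp h1).contDiffOn

theorem test_tr (γ : SL(2, ℝ)) {θ : ℂ → ℂ} (hθ : Test UH θ) : Test UH (tr γ θ) :=
  CRM.INE.test_pb γ⁻¹ (test_wt γ hθ)

theorem tr_zero (γ : SL(2, ℝ)) {θ : ℂ → ℂ} {w : ℂ}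
    (hw : w ∉ mob γ '' tsupport θ) : tr γ θ w = 0 := by
  unfold tr
  by_cases h : w ∈ UH
  · rw [CRM.INE.pb_of_mem _ _ h]
    by_cases h2 : mob γ⁻¹ w ∈ tsupport θ
    · exact absurd ⟨_, h2, mob_mob_inv γ h⟩ hw
    · rw [image_eq_zero_of_notMem_tsupport h2, zero_mul]
  · exact CRM.INE.pb_of_notMem _ _ h

theorem isCompact_im (γ : SL(2, ℝ)) {θ : ℂ → ℂ} (hθ : Test UH θ) :
    IsCompact (mob γ '' tsupport θ) :=
  IsCompact.image_of_continuousOn hθ.supp ((continuousOn_mob γ).mono hθ.sub)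

theorem im_sub (γ : SL(2, ℝ)) (θ : ℂ → ℂ) : mob γ '' tsupport θ ⊆ UH := by
  rintro _ ⟨z, _, rfl⟩
  exact mob_mem _ z

theorem tsupport_tr (γ : SL(2, ℝ)) {θ : ℂ → ℂ} (hθ : Test UH θ) :
    tsupport (tr γ θ) ⊆ mob γ '' tsupport θ := by
  refine closure_minimal ?_ (isCompact_im γ hθ).isClosed
  intro z hz
  by_contra h
  exact hz (tr_zero γ h)

/-- change of variables -/
theorem int_tr (γ : SL(2, ℝ)) {θ : ℂ → ℂ} (hθ : Test UH θ) (F : ℂ → ℂ) :
    ∫ w, tr γ θ w * F w = ∫ z, θ z * F (mob γ z) := by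
  have hl : ∫ w, tr γ θ w * F w = ∫ w in mob γ '' tsupport θ, tr γ θ w * F w := by
    rw [setIntegral_eq_integral_of_forall_compl_eq_zero]
    intro w hw
    rw [tr_zero γ hw, zero_mul]
  rw [hl, Mob.int_image γ hθ.supp hθ.sub, ← hθ.setIntegral]
  refine setIntegral_congr_fun hθ.supp.measurableSet fun z hz => ?_
  have hzU := hθ.sub hz
  have hd := den_ne_zero γ hzU
  unfold tr
  rw [CRM.INE.pb_of_mem _ _ (mob_mem γ z), mob_inv_mob γ hzU]
  have h3 : ((1 / ‖den γ z‖ ^ 4 : ℝ) : ℂ) * ((‖den γ z‖ ^ 4 : ℝ) : ℂ) = 1 := by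
    rw [← ofReal_mul]
    have : ‖den γ z‖ ≠ 0 := norm_ne_zero_iff.2 hd
    have h4 : 1 / ‖den γ z‖ ^ 4 * ‖den γ z‖ ^ 4 = 1 := by field_simp
    rw [h4, ofReal_one]
  linear_combination (θ z * F (mob γ z)) * h3

end LFE

open LFE in
theorem t_LFE (h : StmtJlg) : StmtLfe := by
  intro Γ ρ φ m s hF hU hS hφ γ hγ k
  have hJ := (h ρ φ m s hF.smooth hU hS).1
  have hφ' : ∀ γ ∈ Γ, ∀ n, ∀ z ∈ UH, ph φ n (mob γ z) = ph φ n z := by
    intro γ hγ n z _
    unfold ph
    rw [ofComplex_mob, hφ n γ hγ]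
  have hch : ∀ K : Set ℂ, IsCompact K → K ⊆ UH →
      ∃ (V F : Set ℂ) (σ : ℂ → ℝ) (φ' : ℕ → ℂ → ℂ), K ⊆ V ∧ V ⊆ F ∧ F ⊆ UH ∧ IsCompact F ∧
        Agree V UH (gr ρ) (hh m) (ph φ) σ φ' := fun K hK hKU =>
    stmtLcz UH (gr ρ) (hh m) (ph φ) isOpen_UH (CRM.INE.contDiffOn_gr hF)
      (fun z hz => CRM.INE.gr_pos ρ hz) hU K hK hKU
  have hloc : LocL2 UH (um s k) := by
    intro K hK hKU
    obtain ⟨V, F, σ, φ', hKV, -, -, -, A⟩ := hch K hK hKU
    exact (hJ V σ φ' A).loc k K hK hKV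
  have main := ae_of_test γ k hloc fun {ζ} hζ => by
    have hθ : Test UH (fun z => ζ z * phase γ z ^ k) := hζ.mul isOpen_UH (phase_pow γ k)
    have hsub : tsupport (fun z => ζ z * phase γ z ^ k) ⊆ tsupport ζ :=
      closure_mono fun z hz => by
        rw [Function.mem_support] at hz ⊢
        exact left_ne_zero_of_mul hz
    obtain ⟨V, F, σ, φ', hKV, -, -, -, A⟩ := hch (tsupport ζ ∪ mob γ '' tsupport ζ)
      (IsCompact.union hζ.supp (isCompact_im γ hζ)) (union_subset hζ.sub (im_sub γ ζ))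
    have h1 : tsupport ζ ⊆ V := subset_union_left.trans hKV
    have h2 : mob γ '' tsupport ζ ⊆ V := subset_union_right.trans hKV
    have T1 : Test V ζ := ⟨hζ.smooth, hζ.supp, h1⟩
    have T2 : Test V (tr γ fun z => ζ z * phase γ z ^ k) :=
      ⟨(test_tr γ hθ).smooth, (test_tr γ hθ).supp,
        (tsupport_tr γ hθ).trans ((image_mono hsub).trans h2)⟩
    have J := hJ V σ φ' A
    have L1 := J.lim k 0 _ T1
    have L2 := J.lim k 0 _ T2
    rw [int_tr γ hθ] at L2
    have e1 : ∫ z, ζ z * ((-1) ^ (0 : ℤ) * um s (k + 0) z) = ∫ z, ζ z * um s k z := by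
      congr 1
      funext z
      rw [zpow_zero, one_mul, add_zero]
    have e2 : ∫ z, ζ z * phase γ z ^ k * ((-1) ^ (0 : ℤ) * um s (k + 0) (mob γ z)) =
        ∫ z, ζ z * phase γ z ^ k * um s k (mob γ z) := by
      congr 1
      funext z
      rw [zpow_zero, one_mul, add_zero]
    rw [e1] at L1
    rw [e2] at L2
    refine tendsto_nhds_unique L1 (L2.congr fun n => ?_)
    rw [int_tr γ hθ]
    refine integral_congr_ae (Eventually.of_forall fun z => ?_)
    beta_reduce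
    by_cases hz : z ∈ tsupport ζ
    · have hzV := h1 hz
      have hmV : mob γ z ∈ V := h2 ⟨z, hz, rfl⟩
      have c1 := CRM.t_COV Γ ρ hF (hh m) (ph φ) V σ φ' A hφ' γ hγ k n z hzV hmV
      have c2 := CRM.t_COV Γ ρ hF (hh m) (ph φ) V σ φ' A hφ' γ hγ 0 n z hzV hmV
      rw [zpow_zero, one_mul] at c2
      rw [c1, c2]
      ring
    · rw [image_eq_zero_of_notMem_tsupport hz]
      ring
  filter_upwards [main] with z hz
  unfold um at hz
  have hI : (Complex.I : ℂ) ^ k ≠ 0 := zpow_ne_zero _ Complex.I_ne_zero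
  apply mul_left_cancel₀ hI
  rw [hz]
  ring

end

end BSL
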