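import Pool.Agent.BSL.St2
import Pool.Agent.BSL.JLG
import Pool.Agent.CRM.GLM
import Pool.Agent.BWM.C40

/-!
# The moments satisfy the transport equations (module LFT)
-/

set_option autoImplicit false

open Complex MeasureTheory Filter Topology Set
open UpperHalfPlane hiding I
open scoped ContDiff MatrixGroups ProbabilityTheory ENNReal

namespace BSL

open QE QE.NC QJ U3 NFP

noncomputable section

namespace LFT

variable {ρ : ℍ → ℝ} {φ : ℕ → ℍ → ℝ} {m : ℕ → ℝ} {s : ProbabilityTheory.Kernel ℍ S1}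

/-- integrals over `muS` -/
lemma int_muS (hρ : ContDiffOn ℝ ∞ (ro ρ) UH) (hS : Sem ρ φ m s) {V F : Set ℂ} {σ : ℂ → ℝ}
    (hσ : Continuous σ) (hVU : V ⊆ UH) (hVF : V ⊆ F)
    (hg : ∀ z ∈ V, Real.exp (2 * σ z) = gr ρ z) {ζ : ℂ → ℂ} (hζ : Test V ζ) (k : ℤ) :
    ∫ o, ζ (CRM.pS o) * CRM.uS o ^ k ∂(CRM.muS ((Berry.area ρ) ⊗ₘ s) F σ)
      = ∫ z, ζ z * um s k z := by
  rw [← JLG.moments hρ hS hVU hg hζ k]
  unfold CRM.muS
  rw [integral_withDensity_eq_integral_toReal_smul (CRM.GLM.dens_measurable hσ)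
    (ae_of_all _ fun o => ENNReal.ofReal_lt_top)]
  have h3 : ∀ o : ℍ × S1, (ENNReal.ofReal (Real.exp (-(2 * σ (CRM.pS o))))).toReal •
      (ζ (CRM.pS o) * CRM.uS o ^ k) = ζ o.1 * ((Real.exp (-(2 * σ o.1)) : ℝ) : ℂ)
        * (Complex.I * (starRingEnd ℂ) (o.2 : ℂ)) ^ k := by
    intro o
    rw [ENNReal.toReal_ofReal (Real.exp_pos _).le, Complex.real_smul]
    show ((Real.exp (-(2 * σ (o.1 : ℂ))) : ℝ) : ℂ) * (ζ (o.1 : ℂ) *
      (Complex.I * (starRingEnd ℂ) (o.2 : ℂ)) ^ k) = _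
    ring
  simp only [h3]
  refine setIntegral_eq_integral_of_forall_compl_eq_zero fun o ho => ?_
  have h4 : ζ (o.1 : ℂ) = 0 :=
    image_eq_zero_of_notMem_tsupport fun hh => ho (hVF (hζ.sub hh))
  rw [h4, zero_mul, zero_mul]

/-- integrability over a finite measure -/
lemma integrable_muS {ν : Measure (ℍ × S1)} (hν : ν univ ≠ ⊤) {V : Set ℂ} {ζ : ℂ → ℂ}
    (hζ : Test V ζ) (k : ℤ) : Integrable (fun o => ζ (CRM.pS o) * CRM.uS o ^ k) ν := by
  have : IsFiniteMeasure ν := ⟨hν.lt_top⟩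
  obtain ⟨C, hC⟩ := hζ.supp.exists_bound_of_continuous hζ.smooth.continuous
  have hc : Continuous fun o => ζ (CRM.pS o) * CRM.uS o ^ k := by
    refine (hζ.smooth.continuous.comp CRM.GLM.pS_continuous).mul ?_
    refine CRM.GLM.uS_continuous.zpow₀ k fun o => Or.inl fun h0 => ?_
    have h1 := CRM.GLM.norm_uS o
    rw [h0, norm_zero] at h1
    exact zero_ne_one h1
  refine Integrable.of_bound hc.measurable.aestronglyMeasurable C (Eventually.of_forall fun o => ?_)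
  rw [norm_mul, norm_zpow, CRM.GLM.norm_uS, one_zpow, mul_one]
  exact hC _

/-- the integrands in the plane -/
lemma pointwise {V : Set ℂ} {σ : ℂ → ℝ} (hV : IsOpen V) (hVU : V ⊆ UH)
    (hσ : ContDiff ℝ ∞ σ) (hg : ∀ z ∈ V, Real.exp (2 * σ z) = gr ρ z) {ζ : ℂ → ℂ}
    (hζ : Test V ζ) (k : ℤ) (z : ℂ) :
    (ex σ 2 z * Db σ (-k) ζ z) * um s (k + 1) z - (ex σ 2 z * D σ (-k) ζ z) * um s (k - 1) z
      = 2 * Complex.I ^ (k + 1) *
        (((aR ρ z * dz ζ z - k * dz (aR ρ) z * ζ z) * cof (s (ofComplex z)) (k - 1)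
        + (aR ρ z * dzb ζ z + k * dzb (aR ρ) z * ζ z) * cof (s (ofComplex z)) (k + 1))
          * gR ρ z) := by
  by_cases hz : z ∈ tsupport ζ
  · have hp : z ∈ V := hζ.sub hz
    have haR : ∀ z ∈ V, aR ρ z = ex σ (-1) z := fun z hz => U3.WGB.aR_eq (hVU hz) (hg z hz)
    have h1 : dz (aR ρ) z = dz (ex σ (-1)) z := dz_congr_on hV haR hp
    have h2 : dzb (aR ρ) z = dzb (ex σ (-1)) z := dzb_congr_on hV haR hp
    have h3 : ex σ 2 z = gR ρ z := by
      have h4 : gR ρ z = ((gr ρ z : ℝ) : ℂ) := rfl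
      rw [h4, ← hg _ hp]
      unfold ex
      norm_num
    have hI : Complex.I ^ (k - 1) = -Complex.I ^ (k + 1) := by
      have h4 : Complex.I ^ (k + 1) = Complex.I ^ (k - 1) * Complex.I ^ (2 : ℤ) := by
        rw [← zpow_add₀ Complex.I_ne_zero]
        congr 1
        ring
      have h5 : Complex.I ^ (2 : ℤ) = -1 := by
        have := Complex.I_sq
        exact_mod_cast this
      rw [h4, h5]
      ring
    unfold um
    rw [U3.WGB.D_form hσ hζ.smooth, U3.WGB.Db_form hσ hζ.smooth, hI, h3, haR _ hp, h1, h2]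
    ring
  · have h0 : ζ =ᶠ[𝓝 z] fun _ => 0 := notMem_tsupport_iff_eventuallyEq.mp hz
    have h1 : ζ z = 0 := h0.self_of_nhds
    have h2 : dz ζ z = 0 := by rw [dz_congr h0, dz_const]
    have h3 : dzb ζ z = 0 := by rw [dzb_congr h0, dzb_const]
    have h4 : (fun w => ex σ (-k) w * ζ w) =ᶠ[𝓝 z] fun _ => 0 := by
      filter_upwards [h0] with w hw
      rw [hw, mul_zero]
    have h5 : (fun w => ex σ (-(-k)) w * ζ w) =ᶠ[𝓝 z] fun _ => 0 := by
      filter_upwards [h0] with w hw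
      rw [hw, mul_zero]
    have hD : D σ (-k) ζ z = 0 := by
      unfold D
      rw [dz_congr h5, dz_const, mul_zero]
    have hDb : Db σ (-k) ζ z = 0 := by
      unfold Db
      rw [dzb_congr h4, dzb_const, mul_zero]
    rw [hD, hDb, h1, h2, h3]
    ring

end LFT

open LFT in
/-- **LFT**: the moments satisfy the transport equations. -/
theorem t_LFT : StmtLft := by
  intro Γ ρ φ m s hF hL hS k ζ hζ
  have hρ := hF.smooth
  obtain ⟨V, F, σ, φ', hKV, hVF, hFU, hFc, hA⟩ := stmtLcz UH (gr ρ) (hh m) (ph φ) isOpen_UH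
    (U3.WGA.contDiffOn_gr hρ) (fun z hz => U3.WGA.gr_pos hz) hL (tsupport ζ) hζ.supp hζ.sub
  have hσ := hA.loc.sm
  have hζV : Test V ζ := ⟨hζ.smooth, hζ.supp, hKV⟩
  obtain ⟨hLB, hLM⟩ := CRM.t_GLM ρ (hh m) (ph φ) ((Berry.area ρ) ⊗ₘ s) hS.sem.fin
    (semU ρ φ m _ hρ hL hS.sem) V σ φ' hA V F hA.op subset_rfl hVF hFc hFU
  have hDM := U3.dir V σ (hh m) φ' (ℍ × S1) (CRM.muS ((Berry.area ρ) ⊗ₘ s) F σ) CRM.pS CRM.uS
    hLB hLM
  have htr := hDM.transport k ζ hζV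
  have T1 : Test V (fun z => ex σ 2 z * Db σ (-k) ζ z) := by
    have h1 := Test.mul hA.op (test_Db hσ (-k) hζV) (contDiff_ex hσ 2).contDiffOn
    have h2 : (fun z => ex σ 2 z * Db σ (-k) ζ z) = fun z => Db σ (-k) ζ z * ex σ 2 z := by
      funext z
      ring
    rw [h2]
    exact h1
  have T2 : Test V (fun z => ex σ 2 z * D σ (-k) ζ z) := by
    have h1 := Test.mul hA.op (test_D hσ (-k) hζV) (contDiff_ex hσ 2).contDiffOn
    have h2 : (fun z => ex σ 2 z * D σ (-k) ζ z) = fun z => D σ (-k) ζ z * ex σ 2 z := by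
      funext z
      ring
    rw [h2]
    exact h1
  have I1 := int_muS (F := F) hρ hS hσ.continuous hA.sub hVF hA.eg T1 (k + 1)
  have I2 := int_muS (F := F) hρ hS hσ.continuous hA.sub hVF hA.eg T2 (k - 1)
  have N1 := integrable_muS hLM.fin T1 (k + 1)
  have N2 := integrable_muS hLM.fin T2 (k - 1)
  have e1 : (∫ z, (ex σ 2 z * Db σ (-k) ζ z) * um s (k + 1) z)
      - ∫ z, (ex σ 2 z * D σ (-k) ζ z) * um s (k - 1) z = 0 := by
    rw [← I1, ← I2, ← integral_sub N1 N2]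
    refine Eq.trans ?_ htr
    refine integral_congr_ae (Eventually.of_forall fun o => ?_)
    beta_reduce
    ring
  have P1 : Integrable (fun z => (ex σ 2 z * Db σ (-k) ζ z) * um s (k + 1) z) :=
    (T1.mono hA.sub).integrable_loc (JLG.loc_um hS.loc (k + 1))
  have P2 : Integrable (fun z => (ex σ 2 z * D σ (-k) ζ z) * um s (k - 1) z) :=
    (T2.mono hA.sub).integrable_loc (JLG.loc_um hS.loc (k - 1))
  rw [← integral_sub P1 P2] at e1
  simp only [pointwise hA.op hA.sub hσ hA.eg hζV k] at e1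
  rw [integral_const_mul] at e1
  exact (mul_eq_zero.mp e1).resolve_left
    (mul_ne_zero two_ne_zero (zpow_ne_zero _ Complex.I_ne_zero))

end

end BSL
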