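import Pool.Agent.BSL.St2

/-!
# The directional masses as functions on the surface (module MSD)
-/

set_option autoImplicit false

open Complex MeasureTheory Filter Topology Set
open UpperHalfPlane hiding I
open scoped ContDiff MatrixGroups ProbabilityTheory ENNReal

namespace BSL

open QE QE.NC QJ U3 NFP

noncomputable section

namespace MSD

variable {Γ : Subgroup SL(2, ℝ)} {D : Set ℍ} {ρ : ℍ → ℝ} {φ : ℕ → ℍ → ℝ} {m : ℕ → ℝ}
  {s : ProbabilityTheory.Kernel ℍ S1} {ζ : ℂ → ℝ}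

lemma geo_gen [Countable Γ] {σ : ℍ → ℝ} (h : Sur Γ D ρ φ m) (hσ : Continuous σ)
    (hσΓ : ∀ γ ∈ Γ, ∀ z, σ (γ • z) = σ z) : Berry.Geo Γ σ D :=
  ⟨h.fd, h.mD, Berry.finite_of_cocompact h.fd h.fac.cpt, hσΓ,
    Berry.bdd_of_cocompact hσ hσΓ h.fac.cpt, Berry.unif_of_cocompact hσ hσΓ h.fac.cpt⟩

lemma geo [Countable Γ] (h : Sur Γ D ρ φ m) : Berry.Geo Γ ρ D :=
  geo_gen h (NFP.STRUCT.cont_rho h.fac.smooth) h.fac.inv

lemma geo0 [Countable Γ] (h : Sur Γ D ρ φ m) : Berry.Geo Γ (fun _ => 0) D :=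
  geo_gen h continuous_const (fun _ _ _ => rfl)

lemma area0 : Berry.area (fun _ => 0) = (volume : Measure ℍ) := by
  unfold Berry.area
  simp

lemma zero_off (hζ : CutF Γ D ρ ζ) {z : ℂ} (hz : z ∉ HH) : ζ z = 0 := by
  by_contra hne
  have h1 : (ζ z : ℂ) ≠ 0 := by exact_mod_cast hne
  exact hz (hζ.test.sub (subset_tsupport _ h1))

/-- `CutF` for almost everywhere invariant functions -/
lemma cut_gen [Countable Γ] (h : Sur Γ D ρ φ m) (hζ : CutF Γ D ρ ζ) {f : ℍ → ℝ}
    (hinv : ∀ γ ∈ Γ, ∀ᵐ z : ℍ, f (γ • z) = f z)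
    (hloc : ∀ K : Set ℂ, IsCompact K → K ⊆ HH → IntegrableOn (fun w => f (ofComplex w)) K) :
    IntegrableOn f D (volume : Measure ℍ) ∧
      ∫ z, ζ z * f (ofComplex z) = Berry.rAvg ρ D f := by
  have hfm : AEMeasurable f (volume : Measure ℍ) := by
    have h1 : LocallyIntegrableOn (fun z : ℂ => f (ofComplex z)) HH := by
      rw [locallyIntegrableOn_iff isOpen_HH.isLocallyClosed]
      exact fun K hKU hK => hloc K hK hKU
    have h2 := h1.aestronglyMeasurable.aemeasurable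
    refine ⟨fun z : ℍ => h2.mk _ (z : ℂ),
      h2.measurable_mk.comp UpperHalfPlane.continuous_coe.measurable, ?_⟩
    have h3 : ∀ᵐ z ∂((volume : Measure ℂ).restrict UH), f (ofComplex z) = h2.mk _ z :=
      h2.ae_eq_mk
    filter_upwards [QE.FM.ae_H h3] with z hz
    rw [ofComplex_apply] at hz
    exact hz
  obtain ⟨f', hm', hinv', hff'⟩ := NFP.GLOB.exists_version (Γ := Γ) hfm hinv
  have hplane := NFP.GLOB.ae_plane hff'
  obtain ⟨ζ', c1, c2, c3, c4⟩ := NFP.GLOB.exists_unfold (geo0 h) continuous_const h.fac.cpt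
  have hint' : IntegrableOn (fun w => f' (ofComplex w)) (tsupport ζ') := by
    refine Integrable.congr (hloc _ c2 c3) ?_
    filter_upwards [ae_restrict_of_ae_restrict_of_subset c3 hplane] with z hz
    rw [hz]
  obtain ⟨i1, -⟩ := c4 f' hm' hinv' hint'
  rw [area0] at i1
  have i2 : IntegrableOn f D (volume : Measure ℍ) :=
    Integrable.congr i1 (ae_restrict_of_ae (hff'.mono fun z hz => hz.symm))
  obtain ⟨j1, j2⟩ := hζ.int f' hm' i1 hinv'
  refine ⟨i2, ?_⟩
  have e1 : ∫ z, ζ z * f (ofComplex z) = ∫ z, ζ z * f' (ofComplex z) := by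
    rw [← setIntegral_eq_integral_of_forall_compl_eq_zero (s := HH)
        (f := fun z => ζ z * f (ofComplex z)),
      ← setIntegral_eq_integral_of_forall_compl_eq_zero (s := HH)
        (f := fun z => ζ z * f' (ofComplex z))]
    · refine integral_congr_ae ?_
      filter_upwards [hplane] with z hz
      rw [hz]
    · intro z hz
      rw [zero_off hζ hz, zero_mul]
    · intro z hz
      rw [zero_off hζ hz, zero_mul]
  have e2 : Berry.rAvg ρ D f = Berry.rAvg ρ D f' := by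
    rw [NFP.GLOB.rAvg_eq', NFP.GLOB.rAvg_eq']
    congr 1
    refine integral_congr_ae ?_
    refine ae_restrict_of_ae ((withDensity_absolutelyContinuous _ _) ?_)
    exact hff'
  rw [e1, e2, j2]

/-! ### Invariance -/

lemma cof_inv (h2 : StmtLfe) (h : Sur Γ D ρ φ m) (hS : Sem ρ φ m s) (γ : SL(2, ℝ))
    (hγ : γ ∈ Γ) : ∀ᵐ z : ℍ, ∀ k : ℤ, cof (s z) k = phase γ z ^ k * cof (s (γ • z)) k := by
  rw [ae_all_iff]
  intro k
  filter_upwards [QE.FM.ae_H (h2 Γ ρ φ m s h.fac h.loc hS h.eig.invariant γ hγ k)] with z hz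
  have e : ofComplex (mob γ z) = γ • z := by
    unfold mob
    rw [ofComplex_apply, ofComplex_apply]
  rw [ofComplex_apply, e] at hz
  exact hz

lemma odd_ae (h1 : StmtJlg) (h : Sur Γ D ρ φ m) (hS : Sem ρ φ m s) :
    ∀ᵐ z : ℍ, ∀ k : ℤ, Odd k → cof (s z) k = 0 := by
  rw [ae_all_iff]
  intro k
  by_cases hk : Odd k
  · filter_upwards [QE.FM.ae_H ((h1 ρ φ m s h.fac.smooth h.loc hS).2 k hk)] with z hz _
    rw [ofComplex_apply] at hz
    exact hz
  · exact Eventually.of_forall fun z hz => absurd hz hk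

lemma modN_twist {u v : ℤ → ℂ} {c : ℂ} (hc : c ≠ 0) (h : ∀ k, u k = c ^ k * v k)
    (y : Fin 4 → ℂ) (N : ℕ) : modN u y N = modN v y N := by
  unfold modN
  refine Finset.sum_congr rfl fun p _ => ?_
  by_cases hp : ∑ i, p i = 0
  · rw [if_pos hp]
    simp only [one_mul]
    congr 1
    rw [Fin.sum_univ_four] at hp
    unfold GW WW
    simp only [h]
    have key : ∀ a b : ℤ, a + b = 0 → c ^ a * c ^ b = 1 := fun a b hab => by
      rw [← zpow_add₀ hc, hab, zpow_zero]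
    have k1 := key (p 0 + p 1) (p 2 + p 3) (by linarith)
    have k2 := key (p 0 + p 2) (p 1 + p 3) (by linarith)
    have k3 := key (p 0 + p 3) (p 1 + p 2) (by linarith)
    linear_combination ((-1) ^ p 0 * v (p 0 + p 1) * ((-1) ^ p 2 * v (p 2 + p 3))) * k1
      + ((-1) ^ p 0 * v (p 0 + p 2) * ((-1) ^ p 1 * v (p 1 + p 3))) * k2
      + ((-1) ^ p 0 * v (p 0 + p 3) * ((-1) ^ p 1 * v (p 1 + p 2))) * k3
  · rw [if_neg hp, zero_mul, zero_mul]

lemma mass_inv (h2 : StmtLfe) (h : Sur Γ D ρ φ m) (hS : Sem ρ φ m s) :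
    ∀ γ ∈ Γ, ∀ᵐ z : ℍ, ((s (γ • z)) univ).toReal = ((s z) univ).toReal := by
  intro γ hγ
  filter_upwards [cof_inv h2 h hS γ hγ] with z hz
  have h0 := hz 0
  rw [zpow_zero, one_mul, NFP.FOURVAR.cof_zero, NFP.FOURVAR.cof_zero] at h0
  exact_mod_cast h0.symm

lemma wick_inv (h1 : StmtJlg) (h2 : StmtLfe) (h : Sur Γ D ρ φ m) (hS : Sem ρ φ m s)
    (x : Fin 4 → ℂ) :
    ∀ γ ∈ Γ, ∀ᵐ z : ℍ, dirWick (s (γ • z)) x = dirWick (s z) x := by
  intro γ hγ
  obtain ⟨C, hC, hM⟩ := NFP.model x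
  have ho := odd_ae h1 h hS
  have ho' : ∀ᵐ z : ℍ, ∀ k : ℤ, Odd k → cof (s (γ • z)) k = 0 :=
    (measurePreserving_smul γ (volume : Measure ℍ)).quasiMeasurePreserving.ae ho
  filter_upwards [cof_inv h2 h hS γ hγ, ho, ho'] with z hz z1 z2
  have t1 := (hM (s z) (hS.fin z) z1).2.2
  have t2 := (hM (s (γ • z)) (hS.fin _) z2).2.2
  have e : modN (cof (s z)) x = modN (cof (s (γ • z))) x :=
    funext fun N => modN_twist (QE.phase_ne_zero γ z.im_pos) hz x N
  rw [e] at t1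
  exact_mod_cast tendsto_nhds_unique t2 t1

/-! ### Local integrability -/

lemma mass_sq_loc (hS : Sem ρ φ m s) {K : Set ℂ} (hK : IsCompact K) (hKU : K ⊆ HH) :
    IntegrableOn (fun w => ((s (ofComplex w)) univ).toReal ^ 2) K := by
  have h1 := (hS.loc K hK hKU).integrable_norm_pow (by norm_num)
  refine Integrable.congr h1 (Eventually.of_forall fun z => ?_)
  show ‖((ma s z : ℝ) : ℂ)‖ ^ 2 = ma s z ^ 2
  rw [Complex.norm_real, Real.norm_eq_abs, sq_abs]

lemma mass_loc (hS : Sem ρ φ m s) {K : Set ℂ} (hK : IsCompact K) (hKU : K ⊆ HH) :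
    IntegrableOn (fun w => ((s (ofComplex w)) univ).toReal) K := by
  have hf : IsFiniteMeasure ((volume : Measure ℂ).restrict K) :=
    ⟨by rw [Measure.restrict_apply_univ]; exact hK.measure_lt_top⟩
  have h1 := (hS.loc K hK hKU).integrable (by norm_num)
  exact h1.re

lemma wick_ae (h1 : StmtJlg) (h : Sur Γ D ρ φ m) (hS : Sem ρ φ m s) (x : Fin 4 → ℂ) :
    ∃ C : ℝ, 0 ≤ C ∧ ∀ᵐ z ∂((volume : Measure ℂ).restrict UH),
      |dirWick (s (ofComplex z)) x| ≤ C * ((s (ofComplex z)) univ).toReal ^ 2 ∧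
      Tendsto (fun N => modN (cof (s (ofComplex z))) x N) atTop
        (𝓝 (dirWick (s (ofComplex z)) x : ℂ)) := by
  obtain ⟨C, hC, hM⟩ := NFP.model x
  refine ⟨C, hC, ?_⟩
  filter_upwards [NFP.GLOB.ae_plane (odd_ae h1 h hS)] with z hz
  have := hM (s (ofComplex z)) (hS.fin _) hz
  exact ⟨this.2.1, this.2.2⟩

lemma wick_loc (h1 : StmtJlg) (h : Sur Γ D ρ φ m) (hS : Sem ρ φ m s) (x : Fin 4 → ℂ)
    {K : Set ℂ} (hK : IsCompact K) (hKU : K ⊆ HH) :
    IntegrableOn (fun w => dirWick (s (ofComplex w)) x) K := by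
  obtain ⟨C, hC, hae⟩ := wick_ae h1 h hS x
  have haeK := ae_restrict_of_ae_restrict_of_subset hKU hae
  have hm : AEStronglyMeasurable (fun z => (dirWick (s (ofComplex z)) x : ℂ))
      ((volume : Measure ℂ).restrict K) := by
    refine aestronglyMeasurable_of_tendsto_ae atTop
      (fun N => NFP.FOURVAR.modN_aesm (u := fun k z => cof (s (ofComplex z)) k)
        (fun k => ((NFP.STRUCT.meas_cof s k).comp
          QE.Surf.measurable_ofComplex).aestronglyMeasurable) x N) ?_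
    filter_upwards [haeK] with z hz
    exact hz.2
  have hm' : AEStronglyMeasurable (fun z => dirWick (s (ofComplex z)) x)
      ((volume : Measure ℂ).restrict K) := by
    have := Complex.continuous_re.comp_aestronglyMeasurable hm
    exact this
  refine Integrable.mono' ((mass_sq_loc hS hK hKU).const_mul C) hm' ?_
  filter_upwards [haeK] with z hz
  rw [Real.norm_eq_abs]
  exact hz.1

/-! ### The mean of the mass -/

lemma mean_one [Countable Γ] (h1 : StmtJlg) (h : Sur Γ D ρ φ m) (hS : Sem ρ φ m s)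
    (hζ : CutF Γ D ρ ζ) : ∫ z, ζ z * ((s (ofComplex z)) univ).toReal = 1 := by
  obtain ⟨V, F, σ, φ', hKV, hVF, hFU, hF, hA⟩ := stmtLcz UH (gr ρ) (hh m) (ph φ) isOpen_UH
    (U3.WGA.contDiffOn_gr h.fac.smooth) (fun z hz => U3.WGA.gr_pos hz) h.loc
    (tsupport (fun z => (ζ z : ℂ))) hζ.test.supp hζ.test.sub
  have hJ := (h1 ρ φ m s h.fac.smooth h.loc hS).1 V σ φ' hA
  have hζV : Test V (fun z => (ζ z : ℂ)) := ⟨hζ.test.smooth, hζ.test.supp, hKV⟩
  have t := hJ.lim 0 0 _ hζV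
  have e : ∀ n, ∫ z, (ζ z : ℂ) * (QJ.E σ (hh m) φ' 0 n z * QJ.E σ (hh m) φ' 0 n z)
      = ((1 : ℝ) : ℂ) := by
    intro n
    have e1 : ∫ z, (ζ z : ℂ) * (QJ.E σ (hh m) φ' 0 n z * QJ.E σ (hh m) φ' 0 n z)
        = ∫ z, ((ζ z * φ n (ofComplex z) ^ 2 : ℝ) : ℂ) := by
      refine integral_congr_ae (Eventually.of_forall fun z => ?_)
      by_cases hz : z ∈ V
      · show (ζ z : ℂ) * (φ' n z * φ' n z) = _
        rw [hA.eφ n z hz]
        unfold ph
        push_cast
        ring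
      · have h0 : ζ z = 0 := by
          by_contra hne
          have h3 : (ζ z : ℂ) ≠ 0 := by exact_mod_cast hne
          exact hz (hKV (subset_tsupport _ h3))
        show (ζ z : ℂ) * _ = ((ζ z * φ n (ofComplex z) ^ 2 : ℝ) : ℂ)
        rw [h0]
        simp
    rw [e1, integral_complex_ofReal]
    have hc : Continuous (φ n) :=
      (⟨h.eig.smooth n, h.eig.eigen n⟩ : Berry.REig ρ (φ n) (m n)).continuous
    have hc2 : Continuous fun z => φ n z ^ 2 := hc.pow 2
    have hi : ∀ γ ∈ Γ, ∀ z, φ n (γ • z) ^ 2 = φ n z ^ 2 := fun γ hγ z => by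
      rw [h.eig.invariant n γ hγ z]
    obtain ⟨C, hC⟩ := Berry.bdd_of_cocompact hc2 hi h.fac.cpt
    have hfin : IsFiniteMeasure ((volume : Measure ℍ).restrict D) :=
      ⟨by rw [Measure.restrict_apply_univ]; exact (geo h).fin.lt_top⟩
    have i3 : IntegrableOn (fun z => φ n z ^ 2) D (volume : Measure ℍ) :=
      Integrable.of_bound hc2.aestronglyMeasurable C (Eventually.of_forall fun z => by
        rw [Real.norm_eq_abs]; exact hC z)
    have e2 := (hζ.int (fun z => φ n z ^ 2) hc2.measurable i3 hi).2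
    rw [e2, h.nrm n]
  simp only [e] at t
  have t2 := tendsto_nhds_unique t tendsto_const_nhds
  have e3 : ∫ z, (ζ z : ℂ) * ((-1) ^ (0 : ℤ) * um s (0 + 0) z)
      = ∫ z, ((ζ z * ((s (ofComplex z)) univ).toReal : ℝ) : ℂ) := by
    refine integral_congr_ae (Eventually.of_forall fun z => ?_)
    show (ζ z : ℂ) * ((-1) ^ (0 : ℤ) * um s (0 + 0) z)
      = ((ζ z * ((s (ofComplex z)) univ).toReal : ℝ) : ℂ)
    unfold um
    rw [zpow_zero, one_mul, add_zero, zpow_zero, one_mul, NFP.FOURVAR.cof_zero]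
    push_cast
    ring
  rw [e3, integral_complex_ofReal] at t2
  exact_mod_cast t2

end MSD

open MSD in
/-- **MSD**: the mass of the directional measures, as an invariant function on the surface. -/
theorem t_MSD (h1 : StmtJlg) (h2 : StmtLfe) : StmtMsd := by
  intro Γ hΓ D ρ φ m s h hS ζ hζ
  obtain ⟨a1, a2⟩ := cut_gen h hζ (f := fun z => ((s z) univ).toReal ^ 2)
    (fun γ hγ => (mass_inv h2 h hS γ hγ).mono fun z hz => by
      show ((s (γ • z)) univ).toReal ^ 2 = ((s z) univ).toReal ^ 2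
      rw [hz])
    (fun K hK hKU => mass_sq_loc hS hK hKU)
  obtain ⟨b1, b2⟩ := cut_gen h hζ (f := fun z => ((s z) univ).toReal) (mass_inv h2 h hS)
    (fun K hK hKU => mass_loc hS hK hKU)
  refine ⟨a1, ?_, a2, fun x => ?_⟩
  · rw [← b2]
    exact mean_one h1 h hS hζ
  · exact cut_gen h hζ (f := fun z => dirWick (s z) x) (wick_inv h1 h2 h hS x)
      (fun K hK hKU => wick_loc h1 h hS x hK hKU)

end

end BSL
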