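import Pool.Agent.BSL.St3
import Pool.Agent.BWM.C44

/-!
# LFR, NOA: the moments of the directional measures form a family of limits (helper22)
-/

set_option autoImplicit false

open Complex MeasureTheory Filter Topology Set
open UpperHalfPlane hiding I
open scoped ContDiff MatrixGroups ProbabilityTheory ENNReal

namespace BSL

open QE QE.NC QJ U3 NFP

noncomputable section

namespace NOA

open NFP.STRUCT

lemma integrable_zpow (σ : Measure S1) [IsFiniteMeasure σ] (k : ℤ) :
    Integrable (fun w : S1 => (w : ℂ) ^ k) σ :=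
  Integrable.of_bound (cont_zpow k).measurable.aestronglyMeasurable 1
    (Eventually.of_forall fun w => (norm_zp k w).le)

lemma cof_zero (σ : Measure S1) [IsFiniteMeasure σ] : cof σ 0 = (((σ univ).toReal : ℝ) : ℂ) := by
  unfold cof
  have e : (fun w : S1 => (w : ℂ) ^ (-(0 : ℤ))) = fun _ => (1 : ℂ) := by
    funext w
    rw [neg_zero, zpow_zero]
  rw [e, integral_const]
  simp [Measure.real]

lemma conj_zp (k : ℤ) (w : S1) : (starRingEnd ℂ) ((w : ℂ) ^ k) = (w : ℂ) ^ (-k) := by
  have h1 := Complex.mul_conj ((w : ℂ) ^ k)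
  rw [Complex.normSq_eq_norm_sq, norm_zp, one_pow, ofReal_one] at h1
  rw [zpow_neg]
  exact eq_inv_of_mul_eq_one_right h1

lemma cof_neg (σ : Measure S1) (k : ℤ) : cof σ (-k) = (starRingEnd ℂ) (cof σ k) := by
  unfold cof
  rw [← integral_conj]
  refine integral_congr_ae (Eventually.of_forall fun w => ?_)
  show (w : ℂ) ^ (-(-k)) = (starRingEnd ℂ) ((w : ℂ) ^ (-k))
  rw [conj_zp]

lemma cof_pos (σ : Measure S1) [IsFiniteMeasure σ] (N : ℕ) (w : ℂ) (hw : ‖w‖ = 1) :
    0 ≤ (∑ j ∈ Finset.range N, ∑ l ∈ Finset.range N,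
      cof σ ((j : ℤ) - l) * w ^ ((j : ℤ) - l)).re := by
  have hw0 : w ≠ 0 := by
    intro h
    rw [h, norm_zero] at hw
    exact zero_ne_one hw
  have hcw : ∀ l : ℤ, (starRingEnd ℂ) (w ^ l) = w ^ (-l) := by
    intro l
    have h1 := Complex.mul_conj (w ^ l)
    rw [Complex.normSq_eq_norm_sq, norm_zpow, hw, one_zpow, one_pow, ofReal_one] at h1
    rw [zpow_neg]
    exact eq_inv_of_mul_eq_one_right h1
  have e : ∑ j ∈ Finset.range N, ∑ l ∈ Finset.range N,
      cof σ ((j : ℤ) - l) * w ^ ((j : ℤ) - l) =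
      ∫ v : S1, ((‖∑ j ∈ Finset.range N, (v : ℂ) ^ (-(j : ℤ)) * w ^ (j : ℤ)‖ ^ 2 : ℝ) : ℂ) ∂σ := by
    have h1 : ∀ v : S1,
        ((‖∑ j ∈ Finset.range N, (v : ℂ) ^ (-(j : ℤ)) * w ^ (j : ℤ)‖ ^ 2 : ℝ) : ℂ) =
        ∑ j ∈ Finset.range N, ∑ l ∈ Finset.range N,
          (v : ℂ) ^ (-((j : ℤ) - l)) * w ^ ((j : ℤ) - l) := by
      intro v
      have hv0 : (v : ℂ) ≠ 0 := by
        intro h
        have := norm_zp 1 v
        rw [zpow_one, h, norm_zero] at this
        exact zero_ne_one this
      rw [ofReal_pow, ← Complex.mul_conj', map_sum, Finset.sum_mul_sum]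
      refine Finset.sum_congr rfl fun j _ => Finset.sum_congr rfl fun l _ => ?_
      rw [map_mul, conj_zp, hcw, neg_neg, neg_sub, zpow_sub₀ hv0, zpow_sub₀ hw0, zpow_neg,
        zpow_neg]
      ring
    have h2 : ∀ j ∈ Finset.range N, Integrable (fun v : S1 => ∑ l ∈ Finset.range N,
        (v : ℂ) ^ (-((j : ℤ) - l)) * w ^ ((j : ℤ) - l)) σ := fun j _ =>
      integrable_finsetSum _ fun l _ => (integrable_zpow σ _).mul_const _
    simp only [h1]
    rw [integral_finsetSum _ h2]
    refine Finset.sum_congr rfl fun j _ => ?_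
    rw [integral_finsetSum _ fun l _ => (integrable_zpow σ _).mul_const _]
    refine Finset.sum_congr rfl fun l _ => ?_
    rw [integral_mul_const]
    rfl
  rw [e, integral_complex_ofReal, ofReal_re]
  exact integral_nonneg fun v => sq_nonneg _

end NOA

open NOA NFP.STRUCT in
theorem t_LFR (h1 : StmtJlg) (h2 : StmtLfe) (h3 : StmtLft) : StmtLfr := by
  intro Γ ρ φ m s hF hL hS hinv
  have hj := h1 ρ φ m s hF.smooth hL hS
  have hfin := hS.fin
  exact
    { meas := fun k => (meas_cof s k).comp QE.Surf.measurable_ofComplex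
      loc := by
        intro k K hK hKU
        refine (hS.loc K hK hKU).mono
          ((meas_cof s k).comp QE.Surf.measurable_ofComplex).aestronglyMeasurable ?_
        refine Eventually.of_forall fun z => ?_
        show ‖cof (s (ofComplex z)) k‖ ≤ ‖((ma s z : ℝ) : ℂ)‖
        have h0 : 0 ≤ ma s z := ENNReal.toReal_nonneg
        rw [Complex.norm_real, Real.norm_of_nonneg h0]
        exact norm_cof _ k
      real := by
        refine Eventually.of_forall fun z => ?_
        show 0 ≤ (cof (s (ofComplex z)) 0).re ∧ (cof (s (ofComplex z)) 0).im = 0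
        have := hfin (ofComplex z)
        rw [cof_zero, ofReal_re, ofReal_im]
        exact ⟨ENNReal.toReal_nonneg, rfl⟩
      bound := by
        intro k
        refine Eventually.of_forall fun z => ?_
        show ‖cof (s (ofComplex z)) k‖ ≤ (cof (s (ofComplex z)) 0).re
        have := hfin (ofComplex z)
        rw [cof_zero, ofReal_re]
        exact norm_cof _ k
      conj := fun k => Eventually.of_forall fun z => cof_neg _ k
      odd := fun k hk => hj.2 k hk
      pos := by
        intro N w hw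
        refine Eventually.of_forall fun z => ?_
        have := hfin (ofComplex z)
        exact cof_pos _ N w hw
      equiv := fun γ hγ k => h2 Γ ρ φ m s hF hL hS hinv γ hγ k
      transport := fun k ζ hζ => h3 Γ ρ φ m s hF hL hS k ζ hζ }

theorem t_NOA (h1 : StmtJlg) (h2 : StmtLfe) (h3 : StmtLft) : StmtNoa := by
  intro Γ _ D ρ φ m s hSur hcurv hS V hV ζ hζ hζ0
  have hfam := t_LFR h1 h2 h3 Γ ρ φ m s hSur.fac hSur.loc hS hSur.eig.invariant
  obtain ⟨p, -, -, -, -, -, hp⟩ := QE.NC.atoms Γ D ρ _ hSur.mD hSur.fd hSur.fac hcurv hfam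
  have hc : Continuous ζ := by
    have h4 : Continuous (fun z => (ζ z : ℂ)) := hζ.smooth.continuous
    have h5 := Complex.continuous_re.comp h4
    exact h5.congr fun z => ofReal_re _
  have hts : tsupport ζ = tsupport (fun z => (ζ z : ℂ)) := by
    unfold tsupport
    congr 1
    ext z
    simp [Function.mem_support]
  have h6 := hp ζ hc (by
    have h7 : IsCompact (tsupport (fun z => (ζ z : ℂ))) := hζ.supp
    rw [← hts] at h7
    exact h7) (by rw [hts]; exact hζ.sub.trans hV) hζ0
  refine h6.congr fun N => ?_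
  congr 1
  refine Finset.sum_congr rfl fun k _ => ?_
  refine integral_congr_ae (Eventually.of_forall fun z => ?_)
  show ζ z * ‖cof (s (ofComplex z)) k‖ ^ 2 = ζ z * ‖um s k z‖ ^ 2
  unfold um
  rw [norm_mul, norm_zpow, Complex.norm_I, one_zpow, one_mul]

end

end BSL
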