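import Pool.Agent.BSL.St3
import Pool.Agent.BSL.JLG
import Pool.Agent.CRM.QES

/-!
# Quantum ergodic sequences have uniform directional measures (module NQE)
-/

set_option autoImplicit false

open Complex MeasureTheory Filter Topology Set
open UpperHalfPlane hiding I
open scoped ContDiff MatrixGroups ProbabilityTheory ENNReal

namespace BSL

open QE QE.NC QJ U3 NFP

noncomputable section

namespace NQE

open CRM (dirS uniS)
open CRM.QES (int_uniS prob_uniS area_lt re_dirS im_dirS smooth_gR)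

/-- the constant kernel with the uniform measure on the circle -/
def s0 : ProbabilityTheory.Kernel ℍ S1 := ProbabilityTheory.Kernel.const ℍ uniS

lemma s0_apply (z : ℍ) : s0 z = uniS := ProbabilityTheory.Kernel.const_apply _ _

/-- the semiclassical measure of a quantum ergodic sequence -/
lemma qes {ρ : ℍ → ℝ} (hs : ContDiffOn ℝ ∞ (ro ρ) UH) {φ : ℕ → ℍ → ℝ} {m : ℕ → ℝ}
    (hq : QE.QuantumErgodic ρ φ m) :
    Semiclassical ρ φ m ((Berry.area ρ) ⊗ₘ s0) := by
  have hρ : Continuous ρ := SEMTWO.cont_rho hs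
  have hprod : (Berry.area ρ) ⊗ₘ s0 = (Berry.area ρ).prod uniS := Measure.compProd_const
  rw [hprod]
  have hfin : ∀ K : Set ℍ, IsCompact K → ((Berry.area ρ).prod uniS) (K ×ˢ univ) < ⊤ := by
    intro K hK
    rw [Measure.prod_prod, measure_univ, mul_one]
    exact area_lt hρ hK
  refine ⟨hfin, ?_⟩
  intro j k ζ h1 h2 h3
  have hζ : Test UH ζ := ⟨h1, h2, h3⟩
  have hζ' : Test UH (fun z => ζ z * gR ρ z) :=
    hζ.mul (isOpen_lt continuous_const Complex.continuous_im) (smooth_gR hs)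
  have h4 := hq j k _ hζ'.smooth hζ'.supp hζ'.sub
  have tr : ∀ G : ℂ → ℂ, ∫ z : ℍ, ζ z * G z ∂(Berry.area ρ)
      = ∫ z : ℂ, (ζ z * gR ρ z) * G z := by
    intro G
    rw [SEMTWO.int_area hρ (fun z => ζ z * G z)]
    rw [← setIntegral_eq_integral_of_forall_compl_eq_zero (s := UH)
      (f := fun z : ℂ => (ζ z * gR ρ z) * G z)]
    · refine setIntegral_congr_fun (measurableSet_lt measurable_const Complex.measurable_im) ?_
      intro z _
      simp only
      ring
    · intro z hz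
      rw [image_eq_zero_of_notMem_tsupport fun hh => hz (hζ.sub hh), zero_mul, zero_mul]
  have hcr : Continuous fun p : ℍ × S1 => Real.exp (ρ p.1) / p.1.im :=
    (Real.continuous_exp.comp (hρ.comp continuous_fst)).div
      (UpperHalfPlane.continuous_im.comp continuous_fst) fun p => p.1.im_pos.ne'
  have hcw : Continuous fun p : ℍ × S1 => (p.2 : ℂ) := continuous_subtype_val.comp continuous_snd
  have hG : Continuous fun p : ℍ × S1 => (((Real.exp (ρ p.1) / p.1.im * (p.2 : ℂ).re) ^ j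
          * (Real.exp (ρ p.1) / p.1.im * (p.2 : ℂ).im) ^ k : ℝ) : ℂ) :=
    continuous_ofReal.comp (((hcr.mul (continuous_re.comp hcw)).pow j).mul
        ((hcr.mul (continuous_im.comp hcw)).pow k))
  have hlim : ∫ p : ℍ × S1, ζ p.1 * (((Real.exp (ρ p.1) / p.1.im * (p.2 : ℂ).re) ^ j
          * (Real.exp (ρ p.1) / p.1.im * (p.2 : ℂ).im) ^ k : ℝ) : ℂ) ∂((Berry.area ρ).prod uniS)
      = ∫ z : ℂ, (ζ z * gR ρ z) * ((1 / (2 * Real.pi) * ∫ θ in (0 : ℝ)..(2 * Real.pi),
        (Real.exp (ρ (ofComplex z)) / z.im * Real.cos θ) ^ j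
          * (Real.exp (ρ (ofComplex z)) / z.im * Real.sin θ) ^ k : ℝ) : ℂ) := by
    rw [← tr, integral_prod _ (SEMTWO.int_mu hfin hζ hG)]
    refine integral_congr_ae (Eventually.of_forall fun z => ?_)
    simp only
    rw [integral_const_mul]
    congr 1
    rw [int_uniS (f := fun t : S1 => (((Real.exp (ρ z) / z.im * (t : ℂ).re) ^ j
          * (Real.exp (ρ z) / z.im * (t : ℂ).im) ^ k : ℝ) : ℂ))
      (hG.comp (Continuous.prodMk_right z))]
    simp only [re_dirS, im_dirS]
    rw [intervalIntegral.integral_ofReal, ← Complex.ofReal_mul, ofComplex_apply]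
    rfl
  rw [hlim]
  refine h4.congr fun n => ?_
  rw [← tr]
  refine integral_congr_ae (Eventually.of_forall fun z => ?_)
  simp only [ofComplex_apply]

lemma cof_uniS_zero : cof uniS 0 = 1 := by
  unfold cof
  simp only [neg_zero, zpow_zero]
  rw [integral_const, probReal_univ, one_smul]

lemma cof_uniS {k : ℤ} (hk : k ≠ 0) : cof uniS k = 0 := by
  unfold cof
  have hc : Continuous fun w : S1 => (w : ℂ) ^ (-k) := by
    refine continuous_subtype_val.zpow₀ (-k) fun w => Or.inl ?_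
    have h5 : ‖(w : ℂ)‖ = 1 := mem_sphere_zero_iff_norm.mp w.2
    intro h0
    rw [h0, norm_zero] at h5
    exact zero_ne_one h5
  rw [int_uniS hc]
  have hc0 : ((-k : ℤ) : ℂ) * Complex.I ≠ 0 := by
    refine mul_ne_zero ?_ Complex.I_ne_zero
    exact_mod_cast neg_ne_zero.2 hk
  have h1 : ∀ θ : ℝ, ((dirS θ : S1) : ℂ) ^ (-k) = Complex.exp (((-k : ℤ) : ℂ) * Complex.I * θ) := by
    intro θ
    show (Complex.exp (θ * Complex.I)) ^ (-k) = _
    rw [← Complex.exp_int_mul]
    congr 1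
    ring
  simp only [h1]
  rw [integral_exp_mul_complex hc0]
  have h2 : Complex.exp (((-k : ℤ) : ℂ) * Complex.I * ((2 * Real.pi : ℝ) : ℂ)) = 1 := by
    have h3 : ((-k : ℤ) : ℂ) * Complex.I * ((2 * Real.pi : ℝ) : ℂ) =
        ((-k : ℤ) : ℂ) * (2 * Real.pi * Complex.I) := by
      push_cast
      ring
    rw [h3]
    exact Complex.exp_int_mul_two_pi_mul_I (-k)
  rw [h2]
  simp

lemma ma_eq (s : ProbabilityTheory.Kernel ℍ S1) (z : ℂ) : um s 0 z = ((ma s z : ℝ) : ℂ) := by
  unfold um ma cof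
  simp only [zpow_zero, neg_zero, one_mul]
  rw [integral_const]
  simp [Measure.real]

lemma um_s0_zero (z : ℂ) : um s0 0 z = 1 := by
  unfold um
  rw [s0_apply, cof_uniS_zero, zpow_zero, one_mul]

lemma um_s0 {k : ℤ} (hk : k ≠ 0) (z : ℂ) : um s0 k z = 0 := by
  unfold um
  rw [s0_apply, cof_uniS hk, mul_zero]

lemma sem0 {ρ : ℍ → ℝ} (hs : ContDiffOn ℝ ∞ (ro ρ) UH) {φ : ℕ → ℍ → ℝ} {m : ℕ → ℝ}
    (hq : QE.QuantumErgodic ρ φ m) : Sem ρ φ m s0 := by
  refine ⟨fun z => ?_, ?_, qes hs hq⟩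
  · rw [s0_apply]
    infer_instance
  · intro K hK _
    have h1 : (fun z : ℂ => ((ma s0 z : ℝ) : ℂ)) = fun _ => 1 := by
      funext z
      rw [← ma_eq, um_s0_zero]
    rw [h1]
    have : IsFiniteMeasure ((volume : Measure ℂ).restrict K) :=
      ⟨by rw [Measure.restrict_apply_univ]; exact hK.measure_lt_top⟩
    exact memLp_const 1

end NQE

open NQE in
/-- **NQE**: quantum ergodic sequences have uniform directional measures. -/
theorem t_NQE (h : StmtJlg) : StmtNqe := by
  intro ρ φ m s hρ hL hS hq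
  have hS0 := sem0 hρ hq
  obtain ⟨h1, -⟩ := h ρ φ m s hρ hL hS
  obtain ⟨h2, -⟩ := h ρ φ m s0 hρ hL hS0
  have key : ∀ k : ℤ, ∀ᵐ z ∂((volume : Measure ℂ).restrict UH), um s k z - um s0 k z = 0 := by
    intro k
    refine ae_zero_of_test isOpen_UH (fun K hK hKU =>
      (JLG.loc_um hS.loc k K hK hKU).sub (JLG.loc_um hS0.loc k K hK hKU)) fun ζ hζ => ?_
    obtain ⟨V, F, σ, φ', hKV, hVF, hFU, hF, hA⟩ := stmtLcz UH (gr ρ) (hh m) (ph φ) isOpen_UH
      (U3.WGA.contDiffOn_gr hρ) (fun z hz => U3.WGA.gr_pos hz) hL (tsupport ζ) hζ.supp hζ.sub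
    have hζV : Test V ζ := ⟨hζ.smooth, hζ.supp, hKV⟩
    have a3 := tendsto_nhds_unique ((h1 V σ φ' hA).lim k 0 ζ hζV)
      ((h2 V σ φ' hA).lim k 0 ζ hζV)
    simp only [zpow_zero, one_mul, add_zero] at a3
    have a4 : ∫ z, ζ z * (um s k z - um s0 k z) =
        (∫ z, ζ z * um s k z) - ∫ z, ζ z * um s0 k z := by
      rw [← integral_sub (hζ.integrable_loc (JLG.loc_um hS.loc k))
        (hζ.integrable_loc (JLG.loc_um hS0.loc k))]
      refine integral_congr_ae (Eventually.of_forall fun z => ?_)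
      beta_reduce
      ring
    rw [a4, a3, sub_self]
  have k0 : ∀ᵐ z ∂((volume : Measure ℂ).restrict UH), ma s z = 1 := by
    filter_upwards [key 0] with z hz
    rw [um_s0_zero, ma_eq, sub_eq_zero] at hz
    exact_mod_cast hz
  have kk : ∀ᵐ z ∂((volume : Measure ℂ).restrict UH), ∀ k : ℤ, k ≠ 0 →
      cof (s (ofComplex z)) k = 0 := by
    rw [ae_all_iff]
    intro k
    by_cases hk : k = 0
    · exact Eventually.of_forall fun z h => absurd hk h
    · filter_upwards [key k] with z hz _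
      rw [um_s0 hk, sub_zero] at hz
      unfold um at hz
      rcases mul_eq_zero.1 hz with h3 | h3
      · have := JLG.norm_I_zpow k
        rw [h3, norm_zero] at this
        exact absurd this zero_ne_one
      · exact h3
  refine ⟨?_, ?_⟩
  · filter_upwards [k0, kk] with z h3 h4
    exact ⟨h3, h4⟩
  · intro ζ hζ _
    have hz0 : ∀ z : ℂ, z ∉ UH → ζ z = 0 := by
      intro z hz
      have h3 : ((ζ z : ℝ) : ℂ) = 0 := by
        by_contra hne
        exact hz (hζ.sub (subset_tsupport _ hne))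
      exact_mod_cast h3
    have hk0 : ∀ k : ℤ, k ≠ 0 → ∫ z, ζ z * ‖um s k z‖ ^ 2 = 0 := by
      intro k hk
      rw [ae_restrict_iff' isOpen_UH.measurableSet] at kk
      refine integral_eq_zero_of_ae ?_
      filter_upwards [kk] with z hz
      by_cases hzU : z ∈ UH
      · rw [JLG.norm_um, hz hzU k hk, norm_zero]
        simp
      · rw [hz0 z hzU, zero_mul]
        rfl
    set c : ℝ := ∫ z, ζ z * ‖um s 0 z‖ ^ 2 with hc
    have h5 : ∀ᶠ N : ℕ in atTop, c / (N : ℝ) = (1 / (N : ℝ)) * ∑ k ∈ Finset.Ioo (-(N : ℤ)) N,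
        ∫ z, ζ z * ‖um s k z‖ ^ 2 := by
      filter_upwards [eventually_ge_atTop 1] with N hN
      rw [Finset.sum_eq_single (0 : ℤ)]
      · rw [← hc]
        ring
      · intro k _ hk
        exact hk0 k hk
      · intro h6
        exact absurd (Finset.mem_Ioo.2 ⟨by omega, by omega⟩) h6
    exact Tendsto.congr' h5 (tendsto_const_div_atTop_nhds_zero_nat c)

end

end BSL
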