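import Pool.Agent.BSL.St2
import Pool.Agent.CRM.QES

/-!
# QEU: uniform directional measures imply quantum ergodicity
-/

open Complex MeasureTheory Filter Topology Set
open UpperHalfPlane hiding I
open scoped ContDiff MatrixGroups ProbabilityTheory BoundedContinuousFunction

namespace BSL

open QE QE.NC QJ U3 NFP CRM

noncomputable section

namespace QEU

/-! ### Finite measures on the circle are determined by their Fourier coefficients -/

lemma coe_ne (w : S1) : (w : ℂ) ≠ 0 := by
  have h : ‖(w : ℂ)‖ = 1 := mem_sphere_zero_iff_norm.1 w.2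
  intro h0
  rw [h0, norm_zero] at h
  exact zero_ne_one h

lemma conj_coe (w : S1) : (starRingEnd ℂ) (w : ℂ) = (w : ℂ)⁻¹ := by
  have h : ‖(w : ℂ)‖ = 1 := mem_sphere_zero_iff_norm.1 w.2
  have h1 : (w : ℂ) * (starRingEnd ℂ) (w : ℂ) = 1 := by
    rw [Complex.mul_conj, Complex.normSq_eq_norm_sq, h]
    simp
  exact eq_inv_of_mul_eq_one_right h1

lemma cont_zpow (k : ℤ) : Continuous fun w : S1 => (w : ℂ) ^ k :=
  continuous_iff_continuousAt.2 fun w =>
    (continuous_subtype_val.continuousAt).zpow₀ k (Or.inl (coe_ne w))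

/-- the monomials -/
def mon : Submonoid (S1 →ᵇ ℂ) where
  carrier := {F | ∃ k : ℤ, ∀ x, F x = (x : ℂ) ^ k}
  mul_mem' := by
    rintro F G ⟨k, hF⟩ ⟨l, hG⟩
    refine ⟨k + l, fun x => ?_⟩
    rw [BoundedContinuousFunction.mul_apply, hF, hG, zpow_add₀ (coe_ne x)]
  one_mem' := ⟨0, fun x => by simp⟩

theorem mon_star {F : S1 →ᵇ ℂ} (h : F ∈ mon) : star F ∈ mon := by
  obtain ⟨k, hF⟩ := h
  refine ⟨-k, fun x => ?_⟩
  have h1 : star F x = (starRingEnd ℂ) (F x) := rfl
  rw [h1, hF, map_zpow₀, conj_coe, inv_zpow, zpow_neg]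

/-- the algebra generated by them -/
def alg : StarSubalgebra ℂ (S1 →ᵇ ℂ) :=
  { Algebra.adjoin ℂ (mon : Set (S1 →ᵇ ℂ)) with
    star_mem' := by
      intro a ha
      have ha' : a ∈ Algebra.adjoin ℂ (mon : Set (S1 →ᵇ ℂ)) := ha
      change star a ∈ Algebra.adjoin ℂ (mon : Set (S1 →ᵇ ℂ))
      induction ha' using Algebra.adjoin_induction with
      | mem x hx => exact Algebra.subset_adjoin (mon_star hx)
      | algebraMap c =>
        rw [← algebraMap_star_comm]
        exact Subalgebra.algebraMap_mem _ _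
      | add x y hx hy h1 h2 =>
        rw [star_add]
        exact add_mem (h1 hx) (h2 hy)
      | mul x y hx hy h1 h2 =>
        rw [star_mul]
        exact mul_mem (h2 hy) (h1 hx) }

theorem mem_alg {F : S1 →ᵇ ℂ} (h : F ∈ mon) : F ∈ alg :=
  Algebra.subset_adjoin (R := ℂ) (A := S1 →ᵇ ℂ) h

/-- a finite measure on the circle is determined by its Fourier coefficients -/
theorem ext_cof {P P' : Measure S1} [IsFiniteMeasure P] [IsFiniteMeasure P']
    (h : ∀ k : ℤ, cof P k = cof P' k) : P = P' := by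
  refine ext_of_forall_mem_subalgebra_integral_eq_of_pseudoEMetric_complete_countable
    (𝕜 := ℂ) (A := alg) ?_ ?_
  · intro x y hxy
    let F : S1 →ᵇ ℂ := BoundedContinuousFunction.mkOfCompact ⟨fun x => (x : ℂ), by fun_prop⟩
    have hF : F ∈ alg := mem_alg ⟨1, fun x => by
      rw [zpow_one]
      rfl⟩
    refine ⟨_, ⟨BoundedContinuousFunction.toContinuousMapStarₐ ℂ F, ⟨F, hF, rfl⟩, rfl⟩, ?_⟩
    exact fun h => hxy (Subtype.ext h)
  · intro F hF
    have h1 : F ∈ Submodule.span ℂ (mon : Set (S1 →ᵇ ℂ)) := by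
      have h2 : F ∈ Subalgebra.toSubmodule (Algebra.adjoin ℂ (mon : Set (S1 →ᵇ ℂ))) := hF
      rwa [Algebra.adjoin_eq_span, Submonoid.closure_eq] at h2
    clear hF
    induction h1 using Submodule.span_induction with
    | mem F hF =>
      obtain ⟨k, hF⟩ := hF
      have h3 := h (-k)
      unfold cof at h3
      simp only [neg_neg] at h3
      simp only [hF]
      exact h3
    | zero => simp
    | add F G _ _ hF hG =>
      simp only [BoundedContinuousFunction.add_apply]
      rw [integral_add (F.integrable _) (G.integrable _),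
        integral_add (F.integrable _) (G.integrable _), hF, hG]
    | smul c F _ hF =>
      simp only [BoundedContinuousFunction.smul_apply, smul_eq_mul]
      rw [integral_const_mul, integral_const_mul, hF]

/-! ### The uniform measure -/

lemma int_uniS' {F : Type*} [NormedAddCommGroup F] [NormedSpace ℝ F] {f : S1 → F}
    (hf : AEStronglyMeasurable f uniS) :
    ∫ t, f t ∂uniS = (2 * Real.pi)⁻¹ • ∫ θ in (0 : ℝ)..(2 * Real.pi), f (dirS θ) := by
  unfold uniS at hf ⊢
  rw [integral_map QES.cont_dirS.measurable.aemeasurable hf, PWL.angle_int]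

lemma cof_uniS (k : ℤ) : cof uniS k = if k = 0 then 1 else 0 := by
  unfold cof
  rw [int_uniS' (cont_zpow (-k)).aestronglyMeasurable, ← PWL.angle_int]
  have h := PWL.angle_zpow k
  have e : ∀ t : ℝ, ((dirS t : S1) : ℂ) ^ (-k) = uu t ^ k := by
    intro t
    have e1 : uu t = ((dirS t : S1) : ℂ)⁻¹ := by
      show Complex.exp (-(t : ℂ) * Complex.I) = (Complex.exp (t * Complex.I))⁻¹
      rw [← Complex.exp_neg]
      congr 1
      ring
    rw [e1, inv_zpow, zpow_neg]
  simp only [e]
  exact h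

lemma dirK_uniS (y : ℂ) : NFP.dirK uniS y = Berry.waveK y := by
  unfold NFP.dirK Berry.waveK
  have hc : Continuous fun w : S1 => Real.cos (y * (starRingEnd ℂ) (w : ℂ)).re := by fun_prop
  rw [int_uniS' hc.aestronglyMeasurable, smul_eq_mul]
  congr 1
  refine intervalIntegral.integral_congr fun θ _ => ?_
  show Real.cos (y * (starRingEnd ℂ) (Complex.exp (θ * Complex.I))).re
    = Real.cos (y.re * Real.cos θ + y.im * Real.sin θ)
  congr 1
  rw [Complex.mul_re, Complex.conj_re, Complex.conj_im, Complex.exp_ofReal_mul_I_re,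
    Complex.exp_ofReal_mul_I_im]
  ring

lemma waveK_rot (θ : ℝ) (y : ℂ) : Berry.waveK (Complex.exp (θ * Complex.I) * y) = Berry.waveK y := by
  rw [Berry.waveK_eq_norm, Berry.waveK_eq_norm y, norm_mul, Complex.norm_exp_ofReal_mul_I, one_mul]

lemma dirWick_uniS (x : Fin 4 → ℂ) : dirWick uniS x
    = Berry.waveK (x 0 - x 1) * Berry.waveK (x 2 - x 3)
        + Berry.waveK (x 0 - x 2) * Berry.waveK (x 1 - x 3)
        + Berry.waveK (x 0 - x 3) * Berry.waveK (x 1 - x 2) := by
  have hpi := Real.pi_pos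
  unfold dirWick
  simp only [dirK_uniS, waveK_rot]
  rw [intervalIntegral.integral_const, sub_zero, smul_eq_mul]
  field_simp

/-! ### The directional measures are uniform almost everywhere -/

theorem ae_uni (h1 : StmtJlg) (h2 : StmtLfe) (Γ : Subgroup SL(2, ℝ)) [Countable Γ] (D : Set ℍ)
    (ρ : ℍ → ℝ) (φ : ℕ → ℍ → ℝ) (m : ℕ → ℝ) (s : ProbabilityTheory.Kernel ℍ S1)
    (hS : Sur Γ D ρ φ m) (hs : Sem ρ φ m s)
    (hae : ∀ᵐ z ∂((volume : Measure ℍ).restrict D), (s z) univ = 1 ∧
      ∀ k : ℤ, Even k → k ≠ 0 → cof (s z) k = 0) : ∀ᵐ z : ℍ, s z = uniS := by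
  have hodd : ∀ k : ℤ, Odd k → ∀ᵐ z : ℍ, cof (s z) k = 0 := by
    intro k hk
    have h3 := QE.FM.ae_H ((h1 ρ φ m s hS.fac.smooth hS.loc hs).2 k hk)
    simpa only [ofComplex_apply] using h3
  have hcov : ∀ᵐ z : ℍ, ∀ γ : Γ, ∀ k : ℤ,
      cof (s z) k = phase (γ : SL(2, ℝ)) z ^ k * cof (s (γ • z)) k := by
    rw [ae_all_iff]
    intro γ
    rw [ae_all_iff]
    intro k
    have h3 := QE.FM.ae_H (h2 Γ ρ φ m s hS.fac hS.loc hs (fun n γ hγ z => hS.eig.invariant n γ hγ z)
      γ γ.2 k)
    filter_upwards [h3] with z hz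
    have e : ofComplex (mob (γ : SL(2, ℝ)) (z : ℂ)) = γ • z := by
      unfold mob
      rw [ofComplex_apply, ofComplex_apply]
      rfl
    rw [ofComplex_apply, e] at hz
    exact hz
  have hD : ∀ᵐ z : ℍ, z ∈ D → (s z univ = 1 ∧ ∀ k : ℤ, k ≠ 0 → cof (s z) k = 0) := by
    have a1 := (ae_restrict_iff' hS.mD).1 hae
    have a2 : ∀ᵐ z : ℍ, ∀ k : ℤ, Odd k → cof (s z) k = 0 := by
      rw [ae_all_iff]
      intro k
      by_cases hk : Odd k
      · filter_upwards [hodd k hk] with z hz _ using hz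
      · exact Eventually.of_forall fun z h => absurd h hk
    filter_upwards [a1, a2] with z b1 b2 hz
    refine ⟨(b1 hz).1, fun k hk => ?_⟩
    rcases Int.even_or_odd k with h | h
    · exact (b1 hz).2 k h hk
    · exact b2 k h
  have hT : ∀ᵐ z : ℍ, ∀ γ : Γ, γ • z ∈ D →
      (s (γ • z) univ = 1 ∧ ∀ k : ℤ, k ≠ 0 → cof (s (γ • z)) k = 0) := by
    rw [ae_all_iff]
    intro γ
    exact (measurePreserving_smul γ (volume : Measure ℍ)).quasiMeasurePreserving.ae hD
  filter_upwards [hT, hS.fd.ae_covers, hcov] with z hz hγ hc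
  obtain ⟨γ, hγ⟩ := hγ
  obtain ⟨b1, b2⟩ := hz γ hγ
  have := hs.fin z
  have := hs.fin (γ • z)
  refine ext_cof fun k => ?_
  rw [hc γ k, cof_uniS]
  by_cases hk : k = 0
  · subst hk
    rw [zpow_zero, one_mul, if_pos rfl]
    unfold cof
    simp [Measure.real, b1]
  · rw [b2 k hk, mul_zero, if_neg hk]

end QEU

open QEU in
theorem t_QEU (h1 : StmtJlg) (h2 : StmtLfe) : StmtQeu := by
  intro Γ _ D ρ φ m s hS hs hae
  have hall := ae_uni h1 h2 Γ D ρ φ m s hS hs hae
  have hρ : Continuous ρ := SEMTWO.cont_rho hS.fac.smooth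
  have hac : Berry.area ρ ≪ (volume : Measure ℍ) := withDensity_absolutelyContinuous _ _
  have hallA : ∀ᵐ z ∂(Berry.area ρ), s z = uniS := hac.ae_le hall
  have hsf : ProbabilityTheory.IsSFiniteKernel s := NFP.POS.sfin s hs.fin
  have hprod : (Berry.area ρ) ⊗ₘ s = (Berry.area ρ).prod uniS := by
    rw [← Measure.compProd_const]
    refine Measure.compProd_congr ?_
    filter_upwards [hallA] with z hz
    rw [hz, ProbabilityTheory.Kernel.const_apply]
  have hsem := hs.sem
  rw [hprod] at hsem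
  constructor
  · intro j k ζ z1 z2 z3
    have hζ : Test UH ζ := ⟨z1, z2, z3⟩
    have haR : ContDiffOn ℝ ∞ (fun z => aR ρ z ^ 2) UH := by
      have h3 : ContDiffOn ℝ ∞ (fun z : ℂ => z.im * Real.exp (-(ro ρ z))) UH :=
        (Complex.imCLM.contDiff.contDiffOn).mul hS.fac.smooth.neg.exp
      exact (Complex.ofRealCLM.contDiff.comp_contDiffOn h3).pow 2
    have hζ' : Test UH (fun z => ζ z * aR ρ z ^ 2) :=
      hζ.mul (isOpen_lt continuous_const Complex.continuous_im) haR
    have h4 := hsem.lim j k _ hζ'.smooth hζ'.supp hζ'.sub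
    have tr : ∀ G : ℂ → ℂ, ∫ z : ℍ, (ζ z * aR ρ z ^ 2) * G z ∂(Berry.area ρ)
        = ∫ z : ℂ, ζ z * G z := SEMTWO.conv hρ hζ
    have hcr : Continuous fun p : ℍ × S1 => Real.exp (ρ p.1) / p.1.im :=
      (Real.continuous_exp.comp (hρ.comp continuous_fst)).div
        (UpperHalfPlane.continuous_im.comp continuous_fst) fun p => p.1.im_pos.ne'
    have hcw : Continuous fun p : ℍ × S1 => (p.2 : ℂ) := continuous_subtype_val.comp continuous_snd
    have hG : Continuous fun p : ℍ × S1 => (((Real.exp (ρ p.1) / p.1.im * (p.2 : ℂ).re) ^ j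
            * (Real.exp (ρ p.1) / p.1.im * (p.2 : ℂ).im) ^ k : ℝ) : ℂ) :=
      continuous_ofReal.comp (((hcr.mul (continuous_re.comp hcw)).pow j).mul
          ((hcr.mul (continuous_im.comp hcw)).pow k))
    have hlim : ∫ p : ℍ × S1, (ζ p.1 * aR ρ p.1 ^ 2)
        * (((Real.exp (ρ p.1) / p.1.im * (p.2 : ℂ).re) ^ j
            * (Real.exp (ρ p.1) / p.1.im * (p.2 : ℂ).im) ^ k : ℝ) : ℂ) ∂((Berry.area ρ).prod uniS)
        = ∫ z : ℂ, ζ z * ((1 / (2 * Real.pi) * ∫ θ in (0 : ℝ)..(2 * Real.pi),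
          (Real.exp (ρ (ofComplex z)) / z.im * Real.cos θ) ^ j
            * (Real.exp (ρ (ofComplex z)) / z.im * Real.sin θ) ^ k : ℝ) : ℂ) := by
      rw [← tr, integral_prod _ (SEMTWO.int_mu hsem.fin hζ' hG)]
      refine integral_congr_ae (Eventually.of_forall fun z => ?_)
      simp only
      rw [integral_const_mul]
      congr 1
      rw [QES.int_uniS (f := fun t : S1 => (((Real.exp (ρ z) / z.im * (t : ℂ).re) ^ j
            * (Real.exp (ρ z) / z.im * (t : ℂ).im) ^ k : ℝ) : ℂ))
        (hG.comp (Continuous.prodMk_right z))]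
      simp only [QES.re_dirS, QES.im_dirS]
      rw [intervalIntegral.integral_ofReal, ← Complex.ofReal_mul, ofComplex_apply]
      rfl
    rw [hlim] at h4
    refine h4.congr fun n => ?_
    rw [← tr]
    refine integral_congr_ae (Eventually.of_forall fun z => ?_)
    simp only [ofComplex_apply]
  · intro x
    have hc : ∀ᵐ z ∂(ProbabilityTheory.cond (Berry.area ρ) D), dirWick (s z) x
        = Berry.waveK (x 0 - x 1) * Berry.waveK (x 2 - x 3)
        + Berry.waveK (x 0 - x 2) * Berry.waveK (x 1 - x 3)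
        + Berry.waveK (x 0 - x 3) * Berry.waveK (x 1 - x 2) := by
      refine ProbabilityTheory.cond_absolutelyContinuous.ae_le ?_
      filter_upwards [hallA] with z hz
      rw [hz, dirWick_uniS]
    have hp : IsProbabilityMeasure (ProbabilityTheory.cond (Berry.area ρ) D) := by
      have h3 := hS.nrm 0
      unfold Berry.rAvg at h3
      have h4 : ProbabilityTheory.cond (Berry.area ρ) D ≠ 0 := by
        intro h5
        rw [h5, integral_zero_measure] at h3
        exact zero_ne_one h3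
      unfold ProbabilityTheory.cond at h4 ⊢
      have h6 : Berry.area ρ D ≠ 0 := by
        intro h7
        apply h4
        rw [Measure.restrict_eq_zero.2 h7, smul_zero]
      have h8 : Berry.area ρ D ≠ ⊤ := by
        intro h7
        apply h4
        rw [h7, ENNReal.inv_top, zero_smul]
      refine ⟨?_⟩
      rw [Measure.smul_apply, Measure.restrict_apply_univ, smul_eq_mul,
        ENNReal.inv_mul_cancel h6 h8]
    unfold Berry.rAvg
    rw [integral_congr_ae hc, integral_const, probReal_univ, one_smul]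

end

end BSL
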