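import Pool.Agent.BSL.St2

/-!
# TRG: the truncation levels on the surface, from the convergence in law
-/

set_option autoImplicit false

open Complex MeasureTheory Filter Topology Set
open UpperHalfPlane hiding I
open scoped ContDiff MatrixGroups ProbabilityTheory

namespace BSL

open QE QE.NC QJ U3 NFP

noncomputable section

namespace TRG

theorem norm_ph (φ : ℕ → ℍ → ℝ) (n : ℕ) (z : ℂ) : ‖ph φ n z‖ ^ 2 = φ n (ofComplex z) ^ 2 := by
  unfold ph
  rw [Complex.norm_real, Real.norm_eq_abs, sq_abs]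

end TRG

theorem t_TRG (h : StmtDia) : StmtTrg := by
  intro Γ _ D ρ φ m hS Ω _ P _ F hF hL h2 h4
  have hρ : Continuous ρ := QE.continuous_of_smooth hS.fac.smooth
  have hg : Berry.Geo Γ ρ D := QE.NC.geo_of hS.mD hS.fd hS.fac.cpt hρ hS.fac.inv
  have hφc : ∀ n, Continuous (φ n) := fun n => QE.continuous_of_smooth (hS.sm n)
  have hφi : ∀ n, ∀ γ ∈ Γ, ∀ z, φ n (γ • z) = φ n z := hS.eig.invariant
  have hP : IsProbabilityMeasure (ProbabilityTheory.cond (Berry.area ρ) D) := QE.NC.area_prob hg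
  set ν : ℕ → Measure ℝ := fun n =>
    (ProbabilityTheory.cond (Berry.area ρ) D).map (fun z => φ n z ^ 2) with hν
  set ν' : Measure ℝ := P.map (fun o => F 0 o ^ 2) with hν'
  have hm : ∀ n, Measurable (fun z => φ n z ^ 2) := fun n => ((hφc n).pow 2).measurable
  have hm' : Measurable (fun o => F 0 o ^ 2) := (hF 0).pow_const 2
  have e1 : ∀ G : ℝ → ℝ, Continuous G → ∀ n,
      ∫ x, G x ∂(ν n) = Berry.rAvg ρ D (fun z => G (φ n z ^ 2)) := by
    intro G hG n
    exact integral_map (hm n).aemeasurable hG.aestronglyMeasurable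
  have e2 : ∀ G : ℝ → ℝ, Continuous G → ∫ x, G x ∂ν' = ∫ o, G (F 0 o ^ 2) ∂P := by
    intro G hG
    exact integral_map hm'.aemeasurable hG.aestronglyMeasurable
  have p1 : ∀ n, IsProbabilityMeasure (ν n) := fun n =>
    Measure.isProbabilityMeasure_map (hm n).aemeasurable
  have p2 : IsProbabilityMeasure ν' := Measure.isProbabilityMeasure_map hm'.aemeasurable
  have n1 : ∀ n, ∀ᵐ x ∂(ν n), 0 ≤ x := fun n =>
    (ae_map_iff (hm n).aemeasurable measurableSet_Ici).2
      (Eventually.of_forall fun z => sq_nonneg (φ n z))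
  have n2 : ∀ᵐ x ∂ν', 0 ≤ x :=
    (ae_map_iff hm'.aemeasurable measurableSet_Ici).2
      (Eventually.of_forall fun o => sq_nonneg (F 0 o))
  have c1 : ∀ G : ℝ → ℝ, Continuous G → (∃ C, ∀ x, |G x| ≤ C) →
      Tendsto (fun n => ∫ x, G x ∂(ν n)) atTop (𝓝 (∫ x, G x ∂ν')) := by
    intro G hG hGb
    obtain ⟨C, hC⟩ := hGb
    have k1 := hL 1 (fun _ => 0) (fun t => G (t 0 ^ 2))
      (hG.comp ((continuous_apply 0).pow 2)) ⟨C, fun t => hC _⟩
    rw [e2 G hG]
    refine k1.congr fun n => ?_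
    rw [e1 G hG n, ← QE.NC.rFrame_base hg]
    refine integral_congr_ae (Eventually.of_forall fun p => ?_)
    beta_reduce
    rw [QE.NC.rWave_origin]
  have i1 : ∀ n, Integrable (fun x => x) (ν n) := by
    intro n
    have k1 := QE.NC.integrable_area hg hS.fac.cpt ((hφc n).pow 2)
      (fun γ hγ z => by
        show φ n (γ • z) ^ 2 = φ n z ^ 2
        rw [hφi n γ hγ])
    exact (integrable_map_measure continuous_id.aestronglyMeasurable (hm n).aemeasurable).2 k1
  have i2 : ∀ n, ∫ x, x ∂(ν n) = 1 := by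
    intro n
    rw [e1 (fun x => x) continuous_id n]
    exact hS.nrm n
  have i3 : ∫ x, x ∂ν' = 1 := by
    rw [e2 (fun x => x) continuous_id]
    exact h2
  have i4 : Integrable (fun x => x ^ 2) ν' := by
    refine (integrable_map_measure (continuous_id.pow 2).aestronglyMeasurable
      hm'.aemeasurable).2 ?_
    refine h4.congr (Eventually.of_forall fun o => ?_)
    show F 0 o ^ 4 = (F 0 o ^ 2) ^ 2
    ring
  obtain ⟨R, hR1, hRt, hRc, hRu, hRb⟩ := h ν ν' p1 p2 n1 n2 c1 i1 i2 i3 i4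
  refine ⟨R, ⟨hR1, hRt, ?_, ?_⟩, ?_⟩
  · intro K hK hKU c hc
    obtain ⟨C, hC0, hC⟩ := QE.loc_le hg hρ hS.fac.cpt hK hKU
    have k1 : ∀ n, ∫ z in K, max (‖ph φ n z‖ ^ 2 - c * R n) 0 ≤
        C * ∫ x, max (x - c * R n) 0 ∂(ν n) := by
      intro n
      rw [e1 (fun x => max (x - c * R n) 0) (by fun_prop) n]
      have k2 := hC (fun z => max (φ n z ^ 2 - c * R n) 0)
        ((((hφc n).pow 2).sub continuous_const).max continuous_const)
        (fun z => le_max_right _ _) (fun γ hγ z => by rw [hφi n γ hγ])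
      refine le_trans (le_of_eq ?_) k2
      refine integral_congr_ae (Eventually.of_forall fun z => ?_)
      beta_reduce
      rw [TRG.norm_ph]
    have k3 : ∀ n, 0 ≤ ∫ z in K, max (‖ph φ n z‖ ^ 2 - c * R n) 0 := fun n =>
      integral_nonneg fun z => le_max_right _ _
    have k4 := (hRc c hc).const_mul C
    rw [mul_zero] at k4
    refine squeeze_zero (fun n => mul_nonneg (zero_le_one.trans (hR1 n)) (k3 n)) (fun n => ?_) k4
    calc R n * ∫ z in K, max (‖ph φ n z‖ ^ 2 - c * R n) 0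
        ≤ R n * (C * ∫ x, max (x - c * R n) 0 ∂(ν n)) :=
          mul_le_mul_of_nonneg_left (k1 n) (zero_le_one.trans (hR1 n))
      _ = C * (R n * ∫ x, max (x - c * R n) 0 ∂(ν n)) := by ring
  · intro K hK hKU ε hε
    obtain ⟨C, hC0, hC⟩ := QE.loc_le hg hρ hS.fac.cpt hK hKU
    obtain ⟨k, hk0, hk⟩ := hRu (ε / (C + 1)) (by positivity)
    refine ⟨k, hk0, ?_⟩
    filter_upwards [hk] with n hn
    have k1 : ∫ z in K, max (min (‖ph φ n z‖ ^ 2) (R n) - k) 0 ^ 2 ≤
        C * ∫ x, max (min x (R n) - k) 0 ^ 2 ∂(ν n) := by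
      rw [e1 (fun x => max (min x (R n) - k) 0 ^ 2) (by fun_prop) n]
      have k2 := hC (fun z => max (min (φ n z ^ 2) (R n) - k) 0 ^ 2)
        ((((((hφc n).pow 2).min continuous_const).sub continuous_const).max
          continuous_const).pow 2)
        (fun z => sq_nonneg _) (fun γ hγ z => by rw [hφi n γ hγ])
      refine le_trans (le_of_eq ?_) k2
      refine integral_congr_ae (Eventually.of_forall fun z => ?_)
      beta_reduce
      rw [TRG.norm_ph]
    calc ∫ z in K, max (min (‖ph φ n z‖ ^ 2) (R n) - k) 0 ^ 2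
        ≤ C * ∫ x, max (min x (R n) - k) 0 ^ 2 ∂(ν n) := k1
      _ ≤ C * (ε / (C + 1)) := mul_le_mul_of_nonneg_left hn hC0
      _ ≤ ε := by
        rw [mul_div_assoc', div_le_iff₀ (by positivity)]
        nlinarith
  · intro C hC ε hε
    filter_upwards [hRb C hC ε hε] with n hn
    rw [e1 (fun x => min x (C * R n) ^ 2) (by fun_prop) n, e2 (fun x => x ^ 2) (by fun_prop)] at hn
    have k1 : ∫ o, (F 0 o ^ 2) ^ 2 ∂P = ∫ o, F 0 o ^ 4 ∂P :=
      integral_congr_ae (Eventually.of_forall fun o => by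
        show (F 0 o ^ 2) ^ 2 = F 0 o ^ 4
        ring)
    rw [k1] at hn
    exact hn

end

end BSL
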