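import Pool.Agent.BSL.All0
import Pool.Agent.BSL.CUT
import Pool.Agent.BSL.DIA
import Pool.Agent.BSL.TRG
import Pool.Agent.BSL.LFE
import Pool.Agent.BSL.LFT
import Pool.Agent.BSL.NOA
import Pool.Agent.BSL.MSD
import Pool.Agent.BSL.QEU
import Pool.Agent.BSL.NQE
import Pool.Agent.BSL.FFL
import Pool.Agent.BSL.FLA
import Pool.Agent.BSL.FLQ

/-!
# The closed theorems on limit fields
-/

open Complex MeasureTheory Filter Topology Set

namespace BSL

theorem trg_closed : StmtTrg := t_TRG t_DIA

theorem lfe_closed : StmtLfe := t_LFE t_JLG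

theorem lfr_closed : StmtLfr := t_LFR t_JLG lfe_closed t_LFT

theorem noa_closed : StmtNoa := t_NOA t_JLG lfe_closed t_LFT

theorem qeu_closed : StmtQeu := t_QEU t_JLG lfe_closed

theorem nqe_closed : StmtNqe := t_NQE t_JLG

theorem msd_closed : StmtMsd := t_MSD t_JLG lfe_closed

theorem ffl_closed : StmtFfl := t_FFL t_WTS t_CUT trg_closed t_STR t_JLG msd_closed t_DOM
  uif_closed f4w_closed f3w_closed wtR pos_closed

theorem fla_closed : StmtFla := t_FLA ffl_closed

theorem flq_closed : StmtFlq := t_FLQ ffl_closed nqe_closed qeu_closed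

end BSL
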