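import Pool.Agent.BSL.St5

/-!
# CNV: the Gaussian four-point function implies the law of large numbers
-/

open Complex MeasureTheory Filter Topology Set
open UpperHalfPlane hiding I
open scoped ContDiff MatrixGroups ProbabilityTheory ENNReal

namespace BSL

noncomputable section

namespace CNV

variable {Ω : Type} [MeasurableSpace Ω] {P : Measure Ω} [IsProbabilityMeasure P]

/-- the covariance of two random variables with the same mean `K` -/
theorem cov {G G' : Ω → ℝ} {K T : ℝ} (hG : Integrable G P) (hG' : Integrable G' P)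
    (h1 : ∫ o, G o ∂P = K) (h2 : ∫ o, G' o ∂P = K) (hI : Integrable (fun o => G o * G' o) P)
    (h3 : ∫ o, G o * G' o ∂P = K ^ 2 + T) :
    Integrable (fun o => (G o - K) * (G' o - K)) P ∧ ∫ o, (G o - K) * (G' o - K) ∂P = T := by
  have e : (fun o => (G o - K) * (G' o - K)) =
      fun o => G o * G' o - K * G o - K * G' o + K ^ 2 := by
    funext o
    ring
  have i1 : Integrable (fun o => G o * G' o - K * G o) P := hI.sub (hG.const_mul K)
  have i2 : Integrable (fun o => G o * G' o - K * G o - K * G' o) P := i1.sub (hG'.const_mul K)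
  rw [e]
  refine ⟨i2.add (integrable_const _), ?_⟩
  rw [integral_add i2 (integrable_const _), integral_sub i1 (hG'.const_mul K),
    integral_sub hI (hG.const_mul K), integral_const_mul, integral_const_mul, h1, h2, h3,
    integral_const]
  simp
  ring

/-- the points are far from each other -/
theorem far {L : ℝ} (hL : 0 ≤ L) {i j : ℕ} (h : i ≠ j) :
    L ≤ ‖(i : ℂ) * L - (j : ℂ) * L‖ := by
  have h1 : (i : ℂ) * L - (j : ℂ) * L = (((i : ℤ) - (j : ℤ) : ℤ) : ℂ) * (L : ℂ) := by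
    push_cast
    ring
  rw [h1, norm_mul, Complex.norm_real, Real.norm_eq_abs, abs_of_nonneg hL, Complex.norm_intCast]
  have h2 : (1 : ℝ) ≤ |(((i : ℤ) - (j : ℤ) : ℤ) : ℝ)| := by
    have h3 : (1 : ℤ) ≤ |(i : ℤ) - (j : ℤ)| := Int.one_le_abs (by omega)
    exact_mod_cast h3
  nlinarith

end CNV

open CNV in
theorem t_CNV : StmtCnv := by
  intro Ω _ P _ F hm h2 h4 a ε hε
  obtain ⟨δ, hδ0, hδ1, hδ2⟩ : ∃ δ : ℝ, 0 < δ ∧ δ ≤ 1 ∧ 2 * δ ≤ ε / 2 :=
    ⟨min 1 (ε / 4), lt_min one_pos (by linarith), min_le_left _ _, by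
      have := min_le_right 1 (ε / 4)
      linarith⟩
  obtain ⟨N, hN⟩ := Berry.waveK_vanishes δ hδ0
  obtain ⟨L, hLd⟩ : ∃ L : ℝ, L = max 0 N + ‖a‖ := ⟨_, rfl⟩
  have hL0 : 0 ≤ L := by
    have := le_max_left 0 N
    have := norm_nonneg a
    linarith
  have hLN : N + ‖a‖ ≤ L := by
    have := le_max_right 0 N
    linarith
  obtain ⟨r, hr0, hr⟩ : ∃ r : ℕ, 0 < r ∧ 2 / (r : ℝ) ≤ ε / 2 := by
    refine ⟨⌈4 / ε⌉₊ + 1, Nat.succ_pos _, ?_⟩
    have h5 : 4 / ε ≤ ((⌈4 / ε⌉₊ + 1 : ℕ) : ℝ) := by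
      push_cast
      have := Nat.le_ceil (4 / ε)
      linarith
    have h6 : 0 < 4 / ε := by positivity
    have h7 : 0 < ((⌈4 / ε⌉₊ + 1 : ℕ) : ℝ) := lt_of_lt_of_le h6 h5
    rw [div_le_iff₀ h7]
    have h8 : ε / 2 * (4 / ε) = 2 := by field_simp; norm_num
    calc (2 : ℝ) = ε / 2 * (4 / ε) := h8.symm
      _ ≤ ε / 2 * ((⌈4 / ε⌉₊ + 1 : ℕ) : ℝ) := mul_le_mul_of_nonneg_left h5 (by linarith)
  obtain ⟨x, hx⟩ : ∃ x : Fin r → ℂ, ∀ i, x i = (i : ℕ) * (L : ℂ) := ⟨fun i => (i : ℕ) * L, fun _ => rfl⟩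
  obtain ⟨G, hGd⟩ : ∃ G : Fin r → Ω → ℝ, ∀ i o, G i o = F (x i) o * F (x i + a) o :=
    ⟨fun i o => F (x i) o * F (x i + a) o, fun _ _ => rfl⟩
  have hGf : ∀ i, G i = fun o => F (x i) o * F (x i + a) o := fun i => funext (hGd i)
  have hK : ∀ i, Berry.waveK (x i - (x i + a)) = Berry.waveK a := by
    intro i
    rw [sub_add_cancel_left, Berry.waveK_neg]
  have hG1 : ∀ i, Integrable (G i) P ∧ ∫ o, G i o ∂P = Berry.waveK a := by
    intro i
    obtain ⟨h5, h6⟩ := h2 (x i) (x i + a)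
    rw [hGf i]
    exact ⟨h5, h6.trans (hK i)⟩
  obtain ⟨T, hT⟩ : ∃ T : Fin r → Fin r → ℝ, ∀ i j, T i j =
      Berry.waveK (x i - x j) * Berry.waveK (x i + a - (x j + a)) +
        Berry.waveK (x i - (x j + a)) * Berry.waveK (x i + a - x j) := ⟨fun i j =>
      Berry.waveK (x i - x j) * Berry.waveK (x i + a - (x j + a)) +
        Berry.waveK (x i - (x j + a)) * Berry.waveK (x i + a - x j), fun _ _ => rfl⟩
  have hG2 : ∀ i j, Integrable (fun o => G i o * G j o) P ∧
      ∫ o, G i o * G j o ∂P = Berry.waveK a ^ 2 + T i j := by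
    intro i j
    obtain ⟨h5, h6⟩ := h4 (x i) (x i + a) (x j) (x j + a)
    have e : (fun o => G i o * G j o) =
        fun o => F (x i) o * F (x i + a) o * F (x j) o * F (x j + a) o := by
      funext o
      rw [hGd, hGd]
      ring
    rw [e]
    refine ⟨h5, h6.trans ?_⟩
    rw [hK, hK, hT]
    ring
  have hG3 : ∀ i j, Integrable (fun o => (G i o - Berry.waveK a) * (G j o - Berry.waveK a)) P ∧
      ∫ o, (G i o - Berry.waveK a) * (G j o - Berry.waveK a) ∂P = T i j := fun i j =>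
    cov (hG1 i).1 (hG1 j).1 (hG1 i).2 (hG1 j).2 (hG2 i j).1 (hG2 i j).2
  -- the bound for `T`
  have habs : ∀ u v : ℂ, |Berry.waveK u * Berry.waveK v| ≤ 1 := by
    intro u v
    rw [abs_mul]
    have h5 := Berry.waveK_abs_le u
    have h6 := Berry.waveK_abs_le v
    have h7 := abs_nonneg (Berry.waveK u)
    have h8 := abs_nonneg (Berry.waveK v)
    nlinarith
  have hsm : ∀ u v : ℂ, N ≤ ‖u‖ → |Berry.waveK u * Berry.waveK v| ≤ δ := by
    intro u v hu
    rw [abs_mul]
    have h5 := hN u hu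
    have h6 := Berry.waveK_abs_le v
    have h7 := abs_nonneg (Berry.waveK u)
    have h8 := abs_nonneg (Berry.waveK v)
    nlinarith
  have hTb : ∀ i j, T i j ≤ (if i = j then 2 else 0) + ε / 2 := by
    intro i j
    by_cases hij : i = j
    · rw [if_pos hij, hT]
      have h5 := (abs_le.1 (habs (x i - x j) (x i + a - (x j + a)))).2
      have h6 := (abs_le.1 (habs (x i - (x j + a)) (x i + a - x j))).2
      linarith
    · rw [if_neg hij, hT]
      have hf : L ≤ ‖x i - x j‖ := by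
        rw [hx, hx]
        exact far hL0 fun h => hij (Fin.ext h)
      have hn1 : N ≤ ‖x i - x j‖ := by
        have := norm_nonneg a
        linarith
      have hn2 : N ≤ ‖x i - (x j + a)‖ := by
        have h7 : ‖x i - x j‖ ≤ ‖x i - (x j + a)‖ + ‖a‖ := by
          have h8 : x i - x j = (x i - (x j + a)) + a := by ring
          calc ‖x i - x j‖ = ‖(x i - (x j + a)) + a‖ := by rw [← h8]
            _ ≤ _ := norm_add_le _ _
        linarith
      have h5 := (abs_le.1 (hsm (x i - x j) (x i + a - (x j + a)) hn1)).2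
      have h6 := (abs_le.1 (hsm (x i - (x j + a)) (x i + a - x j) hn2)).2
      linarith
  refine ⟨r, x, hr0, ?_⟩
  have hrR : (0 : ℝ) < r := by exact_mod_cast hr0
  have e1 : ∀ o, (1 / (r : ℝ) * ∑ i, F (x i) o * F (x i + a) o - Berry.waveK a) ^ 2 =
      1 / (r : ℝ) ^ 2 * ∑ i, ∑ j, (G i o - Berry.waveK a) * (G j o - Berry.waveK a) := by
    intro o
    have h5 : ∑ i, ∑ j, (G i o - Berry.waveK a) * (G j o - Berry.waveK a) =
        (∑ i, (G i o - Berry.waveK a)) ^ 2 := by rw [sq, Finset.sum_mul_sum]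
    have h6 : ∑ i, F (x i) o * F (x i + a) o = ∑ i, G i o :=
      Finset.sum_congr rfl fun i _ => (hGd i o).symm
    rw [h5, h6, Finset.sum_sub_distrib, Finset.sum_const, Finset.card_univ, Fintype.card_fin,
      nsmul_eq_mul]
    field_simp
  rw [integral_congr_ae (Filter.Eventually.of_forall e1), integral_const_mul,
    integral_finsetSum _ fun i _ => integrable_finsetSum _ fun j _ => (hG3 i j).1]
  have e2 : ∀ i, ∫ o, ∑ j, (G i o - Berry.waveK a) * (G j o - Berry.waveK a) ∂P = ∑ j, T i j := by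
    intro i
    rw [integral_finsetSum _ fun j _ => (hG3 i j).1]
    exact Finset.sum_congr rfl fun j _ => (hG3 i j).2
  rw [Finset.sum_congr rfl fun i _ => e2 i]
  have h9 : ∑ i, ∑ j, T i j ≤ r * (2 + r * (ε / 2)) := by
    have h10 : ∀ i, ∑ j, T i j ≤ 2 + r * (ε / 2) := by
      intro i
      refine (Finset.sum_le_sum fun j _ => hTb i j).trans ?_
      rw [Finset.sum_add_distrib, Finset.sum_ite_eq, if_pos (Finset.mem_univ _), Finset.sum_const,
        Finset.card_univ, Fintype.card_fin, nsmul_eq_mul]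
    refine (Finset.sum_le_sum fun i _ => h10 i).trans ?_
    rw [Finset.sum_const, Finset.card_univ, Fintype.card_fin, nsmul_eq_mul]
  calc 1 / (r : ℝ) ^ 2 * ∑ i, ∑ j, T i j ≤ 1 / (r : ℝ) ^ 2 * (r * (2 + r * (ε / 2))) :=
        mul_le_mul_of_nonneg_left h9 (by positivity)
    _ = 2 / r + ε / 2 := by field_simp
    _ ≤ ε := by linarith

end

end BSL
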