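import Pool.Agent.BSL.St5

/-!
# ERG: the mean ergodic theorem of Alaoglu and Birkhoff for a stationary ergodic random field
-/

open Complex MeasureTheory Filter Topology Set
open UpperHalfPlane hiding I
open scoped ContDiff MatrixGroups ProbabilityTheory ENNReal

namespace BSL

open QE QE.NC QJ U3 NFP

noncomputable section

namespace ERG

open scoped RealInnerProductSpace

/-- uniqueness of the element of minimal norm -/
theorem min_unique {H : Type} [NormedAddCommGroup H] [InnerProductSpace ℝ H] {K : Set H}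
    (hK : Convex ℝ K) {v v' : H} (hv : v ∈ K) (hv' : v' ∈ K)
    (h : ‖(0 : H) - v‖ = ⨅ w : K, ‖(0 : H) - w‖) (h' : ‖(0 : H) - v'‖ = ⨅ w : K, ‖(0 : H) - w‖) :
    v = v' := by
  have h1 := (norm_eq_iInf_iff_real_inner_le_zero hK hv).1 h v' hv'
  have h2 := (norm_eq_iInf_iff_real_inner_le_zero hK hv').1 h' v hv
  have h3 : ⟪v - v', v - v'⟫ = ⟪(0 : H) - v, v' - v⟫ + ⟪(0 : H) - v', v - v'⟫ := by
    rw [zero_sub, zero_sub, inner_neg_left, inner_neg_left]
    simp only [inner_sub_left, inner_sub_right]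
    ring
  have h4 : ⟪v - v', v - v'⟫ ≤ 0 := by linarith
  have h5 : ‖v - v'‖ ^ 2 ≤ 0 := by rwa [real_inner_self_eq_norm_sq] at h4
  have h6 : ‖v - v'‖ = 0 := by
    have := norm_nonneg (v - v')
    nlinarith
  exact sub_eq_zero.1 (norm_eq_zero.1 h6)

/-- the mean ergodic theorem -/
theorem met {X : Type} [MeasurableSpace X] (μ : Measure X) [IsProbabilityMeasure μ]
    (T : ℂ → X → X) (hT : ∀ b, MeasurePreserving (T b) μ μ)
    (hTT : ∀ x b, T x ∘ T b = T (x + b)) {g : X → ℝ} (hg : MemLp g 2 μ)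
    (herg : ∀ A : Set X, MeasurableSet A → (∀ b, ∀ᵐ y ∂μ, (T b y ∈ A ↔ y ∈ A)) →
      (∀ᵐ y ∂μ, y ∈ A) ∨ (∀ᵐ y ∂μ, y ∉ A)) (ε : ℝ) (hε : 0 < ε) :
    ∃ (r : ℕ) (c : Fin r → ℝ) (x : Fin r → ℂ), ∑ i, c i = 1 ∧ (∀ i, 0 ≤ c i) ∧
      ∫ y, (∑ i, c i * g (T (x i) y) - ∫ y, g y ∂μ) ^ 2 ∂μ ≤ ε := by
  classical
  let U : ℂ → Lp ℝ 2 μ →ₗᵢ[ℝ] Lp ℝ 2 μ := fun b => Lp.compMeasurePreservingₗᵢ ℝ (T b) (hT b)
  let G : Lp ℝ 2 μ := hg.toLp g
  let e : ℂ → Lp ℝ 2 μ := fun x => U x G
  have hUe : ∀ b x, U b (e x) = e (x + b) := by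
    intro b x
    have h1 : ∀ y, U y G = (hg.comp_measurePreserving (hT y)).toLp (g ∘ T y) := fun y => rfl
    have h2 : U b (e x) = ((hg.comp_measurePreserving (hT x)).comp_measurePreserving (hT b)).toLp
        ((g ∘ T x) ∘ T b) := by
      show U b (U x G) = _
      rw [h1 x]
      rfl
    rw [h2]
    show _ = U (x + b) G
    rw [h1]
    apply MemLp.toLp_congr
    rw [Function.comp_assoc, hTT]
  set C : Set (Lp ℝ 2 μ) := closure (convexHull ℝ (Set.range e)) with hC
  have hCc : Convex ℝ C := (convex_convexHull ℝ _).closure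
  have hCn : C.Nonempty := ⟨e 0, subset_closure (subset_convexHull ℝ _ ⟨0, rfl⟩)⟩
  have hCcl : IsClosed C := isClosed_closure
  obtain ⟨v, hvC, hv⟩ := exists_norm_eq_iInf_of_complete_convex hCn hCcl.isComplete hCc 0
  have hUC : ∀ b, ∀ w ∈ C, U b w ∈ C := by
    intro b w hw
    have h1 : U b w ∈ closure (U b '' convexHull ℝ (Set.range e)) :=
      image_closure_subset_closure_image (U b).continuous ⟨w, hw, rfl⟩
    refine closure_mono ?_ h1
    have h2 : (U b) '' convexHull ℝ (Set.range e) =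
        convexHull ℝ ((U b) '' Set.range e) := (U b).toLinearMap.image_convexHull _
    rw [h2]
    apply convexHull_mono
    rintro _ ⟨_, ⟨x, rfl⟩, rfl⟩
    exact ⟨x + b, (hUe b x).symm⟩
  have hUv : ∀ b, U b v = v := by
    intro b
    refine min_unique hCc (hUC b v hvC) hvC ?_ hv
    rw [zero_sub, norm_neg, (U b).norm_map, ← norm_neg v, ← zero_sub v]
    exact hv
  -- `v` is constant
  have hfm : StronglyMeasurable (v : X → ℝ) := Lp.stronglyMeasurable v
  have hinv : ∀ b, ∀ᵐ y ∂μ, (v : X → ℝ) (T b y) = (v : X → ℝ) y := by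
    intro b
    have h1 : (U b v : X → ℝ) =ᵐ[μ] (v : X → ℝ) ∘ T b := Lp.coeFn_compMeasurePreserving v (hT b)
    rw [hUv b] at h1
    filter_upwards [h1] with y hy
    exact hy.symm
  obtain ⟨c0, hc0⟩ : ∃ c0 : ℝ, (v : X → ℝ) =ᵐ[μ] Function.const X c0 := by
    refine Filter.exists_eventuallyEq_const_of_forall_separating MeasurableSet ?_
    intro A hA
    refine herg ((v : X → ℝ) ⁻¹' A) (hfm.measurable hA) ?_
    intro b
    filter_upwards [hinv b] with y hy
    rw [Set.mem_preimage, Set.mem_preimage, hy]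
  -- the integral
  let one : Lp ℝ 2 μ := indicatorConstLp 2 MeasurableSet.univ (measure_ne_top μ _) (1 : ℝ)
  have hone : ∀ w : Lp ℝ 2 μ, ⟪one, w⟫ = ∫ y, (w : X → ℝ) y ∂μ := by
    intro w
    have := L2.inner_indicatorConstLp_one (𝕜 := ℝ) (MeasurableSet.univ : MeasurableSet (univ : Set X))
      (measure_ne_top μ _) w
    rw [this, Measure.restrict_univ]
  have hint : ∀ w ∈ C, ⟪one, w⟫ = ∫ y, g y ∂μ := by
    intro w hw
    have h1 : C ⊆ {w : Lp ℝ 2 μ | ⟪one, w⟫ = ∫ y, g y ∂μ} := by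
      apply closure_minimal
      · apply convexHull_min
        · rintro _ ⟨x, rfl⟩
          show ⟪one, e x⟫ = _
          rw [hone]
          have h2 : (e x : X → ℝ) =ᵐ[μ] (G : X → ℝ) ∘ T x := Lp.coeFn_compMeasurePreserving G (hT x)
          have h3 : (G : X → ℝ) =ᵐ[μ] g := hg.coeFn_toLp
          rw [integral_congr_ae h2]
          have h4 : ∫ y, ((G : X → ℝ) ∘ T x) y ∂μ = ∫ y, (G : X → ℝ) y ∂μ := by
            have h5 := integral_map (μ := μ) (φ := T x) (hT x).measurable.aemeasurable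
              (f := (G : X → ℝ)) (by
                rw [(hT x).map_eq]
                exact (Lp.stronglyMeasurable G).aestronglyMeasurable)
            rw [(hT x).map_eq] at h5
            exact h5.symm
          rw [h4, integral_congr_ae h3]
        · intro a ha b hb s t hs ht hst
          show ⟪one, s • a + t • b⟫ = _
          have ha' : ⟪one, a⟫ = ∫ y, g y ∂μ := ha
          have hb' : ⟪one, b⟫ = ∫ y, g y ∂μ := hb
          rw [inner_add_right, real_inner_smul_right, real_inner_smul_right, ha', hb', ← add_mul,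
            hst, one_mul]
      · exact isClosed_eq (continuous_const.inner continuous_id) continuous_const
    exact h1 hw
  have hc0K : c0 = ∫ y, g y ∂μ := by
    rw [← hint v hvC, hone, integral_congr_ae hc0]
    simp
  -- approximation
  obtain ⟨w, hwC, hw⟩ := Metric.mem_closure_iff.1 hvC (Real.sqrt ε) (Real.sqrt_pos.2 hε)
  obtain ⟨ι, iι, c, z, hc, hc1, hz, hcz⟩ := mem_convexHull_iff_exists_fintype.1 hwC
  choose x hx using hz
  let q := Fintype.equivFin ι
  refine ⟨Fintype.card ι, fun i => c (q.symm i), fun i => x (q.symm i), ?_, fun i => hc _, ?_⟩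
  · rw [← hc1]
    exact Equiv.sum_comp q.symm c
  have hsum : ∀ y, ∑ i, c (q.symm i) * g (T (x (q.symm i)) y) = ∑ j, c j * g (T (x j) y) := by
    intro y
    exact Equiv.sum_comp q.symm fun j => c j * g (T (x j) y)
  have hw1 : (w : X → ℝ) =ᵐ[μ] fun y => ∑ j, c j * g (T (x j) y) := by
    rw [← hcz]
    have h1 : ((∑ j, c j • z j : Lp ℝ 2 μ) : X → ℝ) =ᵐ[μ]
        fun y => ∑ j, ((c j • z j : Lp ℝ 2 μ) : X → ℝ) y := Lp.coeFn_fun_finsetSum Finset.univ _
    have h3 : (G : X → ℝ) =ᵐ[μ] g := hg.coeFn_toLp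
    have h2 : ∀ j, ∀ᵐ y ∂μ, ((c j • z j : Lp ℝ 2 μ) : X → ℝ) y = c j * g (T (x j) y) := by
      intro j
      rw [← hx j]
      have h4 : (e (x j) : X → ℝ) =ᵐ[μ] (G : X → ℝ) ∘ T (x j) :=
        Lp.coeFn_compMeasurePreserving G (hT (x j))
      have h5 : (G : X → ℝ) ∘ T (x j) =ᵐ[μ] g ∘ T (x j) :=
        (hT (x j)).quasiMeasurePreserving.ae_eq_comp h3
      filter_upwards [Lp.coeFn_smul (c j) (e (x j)), h4, h5] with y h6 h7 h8
      rw [h6, Pi.smul_apply, h7, h8, smul_eq_mul, Function.comp_apply]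
    filter_upwards [h1, ae_all_iff.2 h2] with y h6 h7
    rw [h6]
    exact Finset.sum_congr rfl fun j _ => h7 j
  have hwv : ∫ y, (∑ i, c (q.symm i) * g (T (x (q.symm i)) y) - ∫ y, g y ∂μ) ^ 2 ∂μ =
      ‖w - v‖ ^ 2 := by
    rw [← real_inner_self_eq_norm_sq, L2.inner_def]
    refine integral_congr_ae ?_
    filter_upwards [hw1, hc0, Lp.coeFn_sub w v] with y h1 h2 h3
    rw [h3, Pi.sub_apply, h1, h2, hsum, hc0K]
    simp only [Function.const_apply]
    simp [sq]
  rw [hwv]
  have h1 : ‖w - v‖ < Real.sqrt ε := by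
    rw [← dist_eq_norm, dist_comm]
    exact hw
  calc ‖w - v‖ ^ 2 ≤ (Real.sqrt ε) ^ 2 := pow_le_pow_left₀ (norm_nonneg _) h1.le 2
    _ = ε := Real.sq_sqrt hε.le


end ERG

open ERG in
theorem t_ERG : StmtErg := by
  intro Ω _ P _ F hF hE a hI ε hε
  let Φ : Ω → ℂ → ℝ := fun o x => F x o
  have hΦ : Measurable Φ := measurable_pi_lambda _ hF
  let T : ℂ → (ℂ → ℝ) → (ℂ → ℝ) := fun b u x => u (x + b)
  have hTm : ∀ b, Measurable (T b) := fun b => measurable_pi_lambda _ fun x => measurable_pi_apply (x + b)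
  have hμ : IsProbabilityMeasure (Measure.map Φ P) := Measure.isProbabilityMeasure_map hΦ.aemeasurable
  have hT : ∀ b, MeasurePreserving (T b) (Measure.map Φ P) (Measure.map Φ P) := by
    intro b
    refine ⟨hTm b, ?_⟩
    rw [Measure.map_map (hTm b) hΦ]
    exact hE.stat b
  have hTT : ∀ x b, T x ∘ T b = T (x + b) := by
    intro x b
    funext u y
    show u (y + x + b) = u (y + (x + b))
    rw [add_assoc]
  let g : (ℂ → ℝ) → ℝ := fun u => u 0 * u a
  have hgm : Measurable g := (measurable_pi_apply _).mul (measurable_pi_apply _)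
  have hg : MemLp g 2 (Measure.map Φ P) := by
    rw [memLp_two_iff_integrable_sq hgm.aestronglyMeasurable,
      integrable_map_measure (hgm.pow_const 2).aestronglyMeasurable hΦ.aemeasurable]
    have h1 := hI 0
    simp only [zero_add] at h1
    exact h1
  obtain ⟨r, c, x, hc1, hc0, h⟩ := met (Measure.map Φ P) T hT hTT hg (by
    intro A hA hinv
    have h1 := hE.erg A hA (fun b => ae_of_ae_map hΦ.aemeasurable (hinv b))
    have h2 : MeasurableSet (Φ ⁻¹' A) := hΦ hA
    have h3 : P (Φ ⁻¹' A) = 0 ∨ P (Φ ⁻¹' A) = 1 := h1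
    rcases h3 with h3 | h3
    · right
      refine (ae_map_iff hΦ.aemeasurable (p := fun y => y ∉ A) hA.compl).2 ?_
      rw [ae_iff]
      have e : {o | ¬ Φ o ∉ A} = Φ ⁻¹' A := by
        ext o
        exact not_not
      rw [e]
      exact h3
    · left
      refine (ae_map_iff hΦ.aemeasurable (p := fun y => y ∈ A) hA).2 ?_
      exact (prob_compl_eq_zero_iff h2).2 h3) ε hε
  refine ⟨r, c, x, hc1, hc0, ?_⟩
  have e1 : ∫ y, g y ∂(Measure.map Φ P) = ∫ o, F 0 o * F a o ∂P :=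
    integral_map hΦ.aemeasurable hgm.aestronglyMeasurable
  have hm : Measurable fun y : ℂ → ℝ => (∑ i, c i * g (T (x i) y) - ∫ o, F 0 o * F a o ∂P) ^ 2 := by
    refine Measurable.pow_const ?_ 2
    refine Measurable.sub_const ?_ _
    exact Finset.measurable_fun_sum _ fun i _ => (hgm.comp (hTm (x i))).const_mul _
  rw [e1, integral_map hΦ.aemeasurable hm.aestronglyMeasurable] at h
  refine le_trans (le_of_eq ?_) h
  refine integral_congr_ae (Eventually.of_forall fun o => ?_)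
  show (∑ i, c i * (F (x i) o * F (x i + a) o) - ∫ o, F 0 o * F a o ∂P) ^ 2 =
    (∑ i, c i * (F (0 + x i) o * F (a + x i) o) - ∫ o, F 0 o * F a o ∂P) ^ 2
  congr 3
  funext i
  rw [zero_add, add_comm a]

end

end BSL
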