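import Pool.Agent.BSL.St4
import Pool.Agent.ONE.Circ

/-!
# Statements, part 5: ergodic limit fields on all closed surfaces (Theorem E)

Every closed oriented surface of genus at least two, every metric. `s`: the directional measures,
`p = (s z) univ`, `κ = E F(0)⁴`, `r = (κ - 3 rAvg p²) / 3`. `dia s` is the sum of the squares of the
masses of the atoms of `s`. **Theorem E**: if, for one `a ≠ 0`, the constant `K(a)` is in the closed
affine hull in `L²(P)` of the variables `F(x) F(x + a)` (for instance, if `F` is ergodic), then the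
eigenfunctions are quantum ergodic and all mixed moments of `F` of order at most four are Gaussian.

Idea. `Var (∑ c_i F(x_i) F(x_i + a)) ≥ K(a)² (rAvg p² - 1) + rAvg (vark (s z) a)
+ (rAvg dia + r) (1 + K(2a)) + (2 rAvg dia + r) ∑ c_i c_j K(2 (x_i - x_j))` for `∑ c_i = 1`, and the sharp
lower bound `κ ≥ 3 rAvg p² - 3 rAvg dia` says that all the terms are nonnegative.
-/

open Complex MeasureTheory Filter Topology Set
open UpperHalfPlane hiding I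
open scoped ContDiff MatrixGroups ProbabilityTheory ENNReal

namespace BSL

open QE QE.NC QJ U3 NFP

noncomputable section

/-- the sum of the squares of the masses of the atoms -/
def dia (s : Measure S1) : ℝ := ((s.prod s) {p : S1 × S1 | p.1 = p.2}).toReal

/-- POSS: the sharp lower bound for the fourth moments with weights (local; see `posW` in
`BSL/POSW.lean`).
Proof (from `StmtPatW`). Let `UU k = ∫ ζ ‖u k‖²`, `X = (1 / N) ∑_{j < N} ‖E_j‖²`; `‖E_j‖² = (-1)^j E_j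
E_{-j}` (`conj_EB`). For a real smooth function `g` with compact support in `V` (`ζ g`, `ζ g²` are test
functions), `0 ≤ ∫ ζ θ² (X - g)² = (1 / N²) ∑_{j,k} (-1)^(j+k) E4w (j, -j, k, -k)
- (2 / N) ∑_j ∫ ζ g θ² ‖E_j‖² + ∫ ζ θ² g²`.
(1) `E4w = Gam + Yw`; `(-1)^(j+k) Gam(j, -j, k, -k) = UU 0 + (-1)^(j+k) (UU (j+k) + UU (j-k))`
(`gam_total`) `≤ UU 0 + UU (j+k) + UU (j-k)`; `Yw (j, -j, k, -k) - pat(j, -j, k, -k) Yw 0 → 0`
(`StmtPatW`) with `(-1)^(j+k) pat(j, -j, k, -k) = 1` if `j + k` is even, `1 / 3` if it is odd, of which the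
mean over `j, k < N` (`N` even) is `2 / 3`; `Yw 0 = ∫ ζ θ² φ⁴ - 3 UU 0` (`fourth_eq_w`, `Gam_zero`).
(2) `∫ ζ g ‖E_j‖² → ∫ ζ g u_0` (`JL.lim`), and `∫ |ζ g| (1 - θ²) ‖E_j‖² ≤ 2 C ∫ (1 - θ) RR → 0`
(`WtR.big`). (3) `∫ ζ θ² g² ≤ ∫ ζ g²`. So for large `n`: `0 ≤ (2 / 3) (∫ ζ θ² φ⁴ - 3 UU 0) + UU 0
+ (1 / N²) ∑ (UU (j+k) + UU (j-k)) - 2 ∫ ζ g u_0 + ∫ ζ g² + ε'`. `u_0` is real a.e. (`JL.conj_all`) and
`- 2 ∫ ζ g u_0 + ∫ ζ g² = ∫ ζ (g - u_0)² - UU 0`; choose `g` with `∫ ζ (g - u_0)² ≤ ε'`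
(`exists_test_approx`, C05:2872, for the restriction of `u_0` to `tsupport ζ`; real part). -/
def StmtPosS : Prop :=
  ∀ (V : Set ℂ) (σ : ℂ → ℝ) (h : ℕ → ℝ) (φ : ℕ → ℂ → ℂ) (θ : ℕ → ℂ → ℝ) (u : ℤ → ℂ → ℂ),
    WtR V σ h φ θ → JL V σ h φ u → ∀ ζ : ℂ → ℝ, Test V (fun z => (ζ z : ℂ)) →
    (∀ z, 0 ≤ ζ z) → ∀ N : ℕ, Even N → 0 < N → ∀ ε > 0, ∀ᶠ n in atTop,
      3 * (∫ z, ζ z * ‖u 0 z‖ ^ 2)
        - 3 / 2 * (1 / (N : ℝ) ^ 2 * ∑ j ∈ Finset.range N, ∑ k ∈ Finset.range N,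
          ((∫ z, ζ z * ‖u ((j : ℤ) + k) z‖ ^ 2) + ∫ z, ζ z * ‖u ((j : ℤ) - k) z‖ ^ 2)) - ε
        ≤ ∫ z, ζ z * (θ n z ^ 2 * (φ n z).re ^ 4)

/-- WIE: Wiener's lemma.
Proof. `cof s k = ∫ w^{-k} ds`, `‖cof s k‖² = ∫∫ (w' / w)^k ds(w) ds(w')` (Fubini). With `v = w' / w`,
`(1 / N²) ∑_{j,k<N} v^(j-k) = ‖(1/N) ∑_{j<N} v^j‖²` and `(1 / N²) ∑_{j,k<N} v^(j+k)
= ((1/N) ∑_{j<N} v^j)²`; both are bounded by one and tend to `1` if `v = 1`, to `0` if `v ≠ 1`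
(geometric sum: `|∑ v^j| ≤ 2 / |v - 1|`). Dominated convergence for the finite measure `s.prod s`.
Second claim: `(-1)^(j-k) ‖cof s (j-k)‖² = ‖cof s (j-k)‖²` as the odd coefficients vanish, and
`(1 / N²) ∑ (-1)^(j-k) v^(j-k) → 1_{v = -1}`; compare the two limits. -/
def StmtWie : Prop :=
  ∀ s : Measure S1, IsFiniteMeasure s →
    Tendsto (fun N : ℕ => 1 / (N : ℝ) ^ 2 * ∑ j ∈ Finset.range N, ∑ k ∈ Finset.range N,
      (‖cof s ((j : ℤ) + k)‖ ^ 2 + ‖cof s ((j : ℤ) - k)‖ ^ 2)) atTop (𝓝 (2 * dia s)) ∧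
    ((∀ k : ℤ, Odd k → cof s k = 0) →
      ((s.prod s) {p : S1 × S1 | p.1 = -p.2}).toReal = dia s)

/-- KAP: the sharp lower bound for the fourth moment of the limit field.
Proof (from `StmtPosS`, `StmtWie`, `StmtTrg`, `StmtCut`, `StmtWts`, `StmtUif`, `StmtDom`, `StmtWtR`,
`StmtJlg`, `StmtMsd`, `StmtLfe`). As the proof of `t_FFL` (`BSL/FFL.lean`; there `four` is
`∫ ζ θ² φ⁴ → κ`, and the part `the lower bound`), with `StmtPosS` instead of `StmtPosW`: for all even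
`N > 0`, `3 ∫ ζ ‖um s 0‖² - (3 / 2) ∫ ζ W_N ≤ κ`, where `W_N(z) = (1 / N²) ∑_{j,k<N} (‖um s (j+k) z‖²
+ ‖um s (j-k) z‖²)`. `W_N(z) → 2 dia (s (ofComplex z))` (`StmtWie`, `‖um s k z‖ = ‖cof ..‖`), and
`W_N ≤ 2 (ma s)²`, `LocL2`: dominated convergence. So
`3 ∫ ζ (ma s)² - 3 ∫ ζ dia (s (ofComplex z)) ≤ κ`. The first integral is `rAvg p²` (`StmtMsd`). The second
is `rAvg (dia (s z))`: `z ↦ dia (s z)` is measurable (a limit of measurable functions), invariant a.e.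
under every `γ ∈ Γ` (`‖cof (s z) k‖ = ‖cof (s (γ z)) k‖` a.e. by `StmtLfe`), and at most `p²`, so the
argument for a.e. invariant functions in `BSL/MSD.lean` applies. -/
def StmtKap : Prop :=
  ∀ (Γ : Subgroup SL(2, ℝ)) [Countable Γ] (D : Set ℍ) (ρ : ℍ → ℝ) (φ : ℕ → ℍ → ℝ) (m : ℕ → ℝ),
    Sur Γ D ρ φ m → ∀ (Ω : Type) [MeasurableSpace Ω] (P : Measure Ω) [IsProbabilityMeasure P]
    (F : ℂ → Ω → ℝ), (∀ x, Measurable (F x)) → FLim ρ D φ m P F → ∫ o, F 0 o ^ 2 ∂P = 1 →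
    Integrable (fun o => F 0 o ^ 4) P → ∀ s : ProbabilityTheory.Kernel ℍ S1, Sem ρ φ m s →
    IntegrableOn (fun z => dia (s z)) D (volume : Measure ℍ) ∧
    3 * Berry.rAvg ρ D (fun z => ((s z) univ).toReal ^ 2)
      - 3 * Berry.rAvg ρ D (fun z => dia (s z)) ≤ ∫ o, F 0 o ^ 4 ∂P

/-- ATM: the four-point function of a Gaussian wave at the points of a variance, and the atoms.
Proof. Let `u = x_i - x_j`, `K_s = dirK s`. The three products in `dirWick s ![x_i, x_i + a, x_j, x_j + a]`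
are (for the rotated vectors) `K_s(a)²`, `K_s(u)²`, `K_s(u - a) K_s(u + a)`. (1) The mean of `K_s(R a)²`
is `K(a)² p² + vark s a` (`ONE.mean_gk`, definition of `vark`; see `ONE.dirWick_two`).
(2) With `C(v) = ∑ c_i e^{i Re(x_i conj v)}`: `cos A cos B = (cos (A - B) + cos (A + B)) / 2` and
`∑_{i,j} c_i c_j cos (Re((x_i - x_j) conj v) - b) = cos b |C(v)|²` (the sine part is antisymmetric) give
`∑ c_i c_j (K_s(u)² + K_s(u - a) K_s(u + a)) = 1/2 ∫∫ [(1 + cos (Re a conj(w + w'))) |C(w - w')|²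
+ (1 + cos (Re a conj(w - w'))) |C(w + w')|²] ds(w) ds(w')`; the integrand is nonnegative; on `w' = w`
it is `(1 + cos (2 Re a conj w)) + 2 |C(2w)|²` (`C(0) = 1`), the same on `w' = -w`. So the left side is at
least `1/2 (∫_{w'=w} + ∫_{w'=-w})` of this (if the two sets are disjoint, which holds as `w ≠ -w` on
the circle).
(3) The mean over the rotations (Fubini) of `1 + cos (2 Re (R a conj w)) + 2 |C_R(2w)|²` is
`1 + K(2a) + 2 ∑ c_i c_j K(2 (x_i - x_j))` for every `w`; the masses of the diagonal and of the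
antidiagonal are `dia s` (`StmtWie`, second claim, `h` is used here). -/
def StmtAtm : Prop :=
  ∀ s : Measure S1, IsFiniteMeasure s → (∀ k : ℤ, Odd k → cof s k = 0) →
    ∀ (r : ℕ) (c : Fin r → ℝ) (x : Fin r → ℂ) (a : ℂ), ∑ i, c i = 1 →
      Berry.waveK a ^ 2 * (s univ).toReal ^ 2 + ONE.vark s a
        + dia s * (1 + Berry.waveK (2 * a)
          + 2 * ∑ i, ∑ j, c i * c j * Berry.waveK (2 * (x i - x j)))
      ≤ ∑ i, ∑ j, c i * c j * dirWick s ![x i, x i + a, x j, x j + a]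

/-- the hypotheses on the directional measures and `κ = E F(0)⁴`, without `NoAt` -/
structure DirE (Γ : Subgroup SL(2, ℝ)) (D : Set ℍ) (ρ : ℍ → ℝ)
    (s : ProbabilityTheory.Kernel ℍ S1) (κ : ℝ) : Prop where
  mD : MeasurableSet D
  fd : IsFundamentalDomain Γ D (volume : Measure ℍ)
  fac : Fac Γ ρ
  fin : ∀ z, IsFiniteMeasure (s z)
  fam : LimFamR Γ ρ (fun k z => cof (s (ofComplex z)) k)
  sq : IntegrableOn (fun z => ((s z) univ).toReal ^ 2) D (volume : Measure ℍ)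
  one : Berry.rAvg ρ D (fun z => ((s z) univ).toReal) = 1
  dw : ∀ x : Fin 4 → ℂ, IntegrableOn (fun z => dirWick (s z) x) D (volume : Measure ℍ)
  di : IntegrableOn (fun z => dia (s z)) D (volume : Measure ℍ)
  kap : 3 * Berry.rAvg ρ D (fun z => ((s z) univ).toReal ^ 2)
    - 3 * Berry.rAvg ρ D (fun z => dia (s z)) ≤ κ

/-- HUL: small variances.
Proof (from `StmtAtm`). Odd moments of `s z` vanish for a.e. `z ∈ D` (`LimFamR.odd`, `QE.FM.ae_H`). Let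
`r = (κ - 3 rAvg p²) / 3`, `d = rAvg dia`; `d + r ≥ 0`, `d ≥ 0`. `resK ![x_i, x_i + a, x_j, x_j + a]
= K(2u) + K(2a) + 1`, `u = x_i - x_j`. With `C₂ = ∑ c_i c_j K(2 (x_i - x_j)) ≥ 0` (`= (2π)⁻¹ ∫
|∑ c_i e^{2 i Re(x_i conj w)}|² dw`; see `BSL/FUA.lean`), the mean of `StmtAtm` gives
`∑ c_i c_j fourF ![...] ≥ K(a)² rAvg p² + rAvg (vark) + (d + r) (1 + K(2a)) + (2 d + r) C₂`
(`vark (s z) a` is integrable: `dirWick_two`). The last term is nonnegative, and so are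
`K(a)² (rAvg p² - 1)` (Cauchy-Schwarz), `vark`, and `d + r`. `1 + K(2a) > 0` (the mean of
`1 + cos (2 Re(a conj w))` is positive). Hence each of `K(a)² (rAvg p² - 1)`, `rAvg vark`,
`(d + r) (1 + K(2a))` is at most `ε`, for all `ε`. `r = -d ≤ 0` is the first claim. -/
def StmtHul : Prop :=
  ∀ (Γ : Subgroup SL(2, ℝ)) [Countable Γ] (D : Set ℍ) (ρ : ℍ → ℝ)
    (s : ProbabilityTheory.Kernel ℍ S1) (κ : ℝ), DirE Γ D ρ s κ → ∀ a : ℂ,
    (∀ ε > 0, ∃ (r : ℕ) (c : Fin r → ℝ) (x : Fin r → ℂ), ∑ i, c i = 1 ∧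
      ∑ i, ∑ j, c i * c j * fourF ρ D s κ ![x i, x i + a, x j, x j + a]
        ≤ Berry.waveK a ^ 2 + ε) →
    κ ≤ 3 * Berry.rAvg ρ D (fun z => ((s z) univ).toReal ^ 2) ∧
    Berry.waveK a ^ 2 * (Berry.rAvg ρ D (fun z => ((s z) univ).toReal ^ 2) - 1) = 0 ∧
    ∀ᵐ z ∂((volume : Measure ℍ).restrict D), ONE.vark (s z) a = 0

/-- UNV (helper78: `ONE.cof_of_vark`, `ONE.bes_two`, the downward propagation of the proof of
`StmtTst`): one circle, no sign of the curvature.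
Proof. `vark (s z) a = 0` a.e. on `D`, so a.e. on the half plane (invariance). For large `k`,
`Fk (2k) |a| ≠ 0`, so `u_{2k} = 0` a.e. (`cof_of_vark`). `u_{l+2} = 0` implies `u_l = 0` for even `l > 0`
(transport, `aR^l u_l` is antiholomorphic, of negative weight). So `u_k = 0` a.e. for all even
`k ≠ 0`. For `l = 0`: `u_2 = 0` implies that `u_0` is antiholomorphic, real and invariant, hence constant,
and the constant is one by `rAvg p = 1`. -/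
def StmtUnv : Prop :=
  ∀ (Γ : Subgroup SL(2, ℝ)) [Countable Γ] (D : Set ℍ) (ρ : ℍ → ℝ)
    (s : ProbabilityTheory.Kernel ℍ S1) (κ : ℝ), DirE Γ D ρ s κ → ∀ a : ℂ, a ≠ 0 →
    (∀ᵐ z ∂((volume : Measure ℍ).restrict D), ONE.vark (s z) a = 0) → Unif D s

/-- the constant `K(a)` is in the closed affine hull of the variables `F(x) F(x + a)` -/
def Hull {Ω : Type} [MeasurableSpace Ω] (P : Measure Ω) (F : ℂ → Ω → ℝ) (a : ℂ) : Prop :=
  ∀ ε > 0, ∃ (r : ℕ) (c : Fin r → ℝ) (x : Fin r → ℂ), ∑ i, c i = 1 ∧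
    ∫ o, (∑ i, c i * (F (x i) o * F (x i + a) o) - Berry.waveK a) ^ 2 ∂P ≤ ε

/-- the constant `K(a)` is a limit in the mean square of means of the variables `F(x) F(x + a)` -/
def Means {Ω : Type} [MeasurableSpace Ω] (P : Measure Ω) (F : ℂ → Ω → ℝ) (a : ℂ) : Prop :=
  ∀ ε > 0, ∃ (r : ℕ) (x : Fin r → ℂ), 0 < r ∧
    ∫ o, (1 / (r : ℝ) * ∑ i, F (x i) o * F (x i + a) o - Berry.waveK a) ^ 2 ∂P ≤ ε

/-- the law of the field `F` is invariant and ergodic under translations -/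
structure Ergo {Ω : Type} [MeasurableSpace Ω] (P : Measure Ω) (F : ℂ → Ω → ℝ) : Prop where
  stat : ∀ a : ℂ, Measure.map (fun o x => F (x + a) o) P = Measure.map (fun o x => F x o) P
  erg : ∀ A : Set (ℂ → ℝ), MeasurableSet A →
    (∀ a : ℂ, ∀ᵐ o ∂P, ((fun x => F (x + a) o) ∈ A ↔ (fun x => F x o) ∈ A)) →
    P {o | (fun x => F x o) ∈ A} = 0 ∨ P {o | (fun x => F x o) ∈ A} = 1

/-- ERG: the mean ergodic theorem (Alaoglu and Birkhoff).
Proof. Let `μ` be the law of `F` on `ℂ → ℝ` (product `σ`-algebra), `T_b` the shift `ω ↦ ω(· + b)`,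
which preserves `μ`, and `g(ω) = ω(0) ω(a)`, `g ∘ T_x ∈ L²(μ)` by hypothesis. The closed convex hull `C`
of `{g ∘ T_x}` in `L²(μ)` has a unique element `g₀` of minimal norm
(`exists_norm_eq_iInf_of_complete_convex`, `norm_eq_iInf_iff_real_inner_le_zero`); `f ↦ f ∘ T_b` is an
isometry which maps `C` to `C`, so `g₀ ∘ T_b = g₀` a.e. for every `b`. For every `c` the set `{g₀ > c}`
(for a measurable representative) satisfies the hypothesis of `erg`, so it has probability zero or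
one, and `g₀` is constant a.e. (`ae_eq_const_of_...`: as for `Ergodic`). The integral is the same for
all elements of `C`, so the constant is `∫ g dμ = E F(0) F(a)`. An element of the convex hull near `g₀` is
a finite convex combination. -/
def StmtErg : Prop :=
  ∀ (Ω : Type) [MeasurableSpace Ω] (P : Measure Ω) [IsProbabilityMeasure P] (F : ℂ → Ω → ℝ),
    (∀ x, Measurable (F x)) → Ergo P F → ∀ a : ℂ,
    (∀ x, Integrable (fun o => (F x o * F (x + a) o) ^ 2) P) →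
    ∀ ε > 0, ∃ (r : ℕ) (c : Fin r → ℝ) (x : Fin r → ℂ), ∑ i, c i = 1 ∧ (∀ i, 0 ≤ c i) ∧
      ∫ o, (∑ i, c i * (F (x i) o * F (x i + a) o) - ∫ o, F 0 o * F a o ∂P) ^ 2 ∂P ≤ ε

/-- CNV: Gaussian four-point function implies the law of large numbers.
Proof. Take `x_i = i L` (`i < r`). The integral is `(1 / r²) ∑_{i,j} (E[F(x_i) F(x_i + a) F(x_j) F(x_j + a)]
- K(a)²) = (1 / r²) ∑_{i,j} (K(u)² + K(u - a) K(u + a))`, `u = x_i - x_j` (expand the square; `E F(x_i)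
F(x_i + a) = K(a)`); the diagonal terms contribute at most `2 / r`, the others are small for large `L`
(`Berry.waveK_vanishes`). -/
def StmtCnv : Prop :=
  ∀ (Ω : Type) [MeasurableSpace Ω] (P : Measure Ω) [IsProbabilityMeasure P] (F : ℂ → Ω → ℝ),
    (∀ x, Measurable (F x)) →
    (∀ x y : ℂ, Integrable (fun o => F x o * F y o) P ∧
      ∫ o, F x o * F y o ∂P = Berry.waveK (x - y)) →
    (∀ x₁ x₂ x₃ x₄ : ℂ, Integrable (fun o => F x₁ o * F x₂ o * F x₃ o * F x₄ o) P ∧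
      ∫ o, F x₁ o * F x₂ o * F x₃ o * F x₄ o ∂P
        = Berry.waveK (x₁ - x₂) * Berry.waveK (x₃ - x₄)
          + Berry.waveK (x₁ - x₃) * Berry.waveK (x₂ - x₄)
          + Berry.waveK (x₁ - x₄) * Berry.waveK (x₂ - x₃)) → ∀ a : ℂ, Means P F a

/-- FLE: **Theorem E**, all closed surfaces of genus at least two.
Proof. (1) ⇒ (2): `StmtCnv` with `StmtOrd`. (2) ⇒ (3): `c_i = 1 / r`, `a = 1`. (3) ⇒ (4): for every
subsequence there is a further one with the data of `CORE.exists_dat`; `StmtLfr`, `StmtKap` give `DirE`;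
`E (∑ c_i F(x_i) F(x_i + a) - K(a))² = ∑ c_i c_j fourF ![...] - K(a)²` (`StmtOrd`); `StmtHul`, `StmtUnv`:
`Unif`, `κ ≤ 3 rAvg p² = 3`; `CORE.Dat.uni`: quantum ergodic along the subsequence, hence
(`tendsto_of_subseq_tendsto`) for the sequence; `κ ≥ 3` by `StmtFlq`. (4) ⇒ (1): `StmtFlq`. Last claim:
`StmtErg` for `a = 1` (`E F(0) F(1) = K(1)` by `StmtOrd`) gives (3). -/
def StmtFle : Prop :=
  ∀ (Γ : Subgroup SL(2, ℝ)) [Countable Γ] (ρ : ℍ → ℝ),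
    ContDiffOn ℝ ∞ (fun w : ℂ => ρ (ofComplex w)) {w | 0 < w.im} →
    (∀ γ ∈ Γ, ∀ z, ρ (γ • z) = ρ z) →
    ∀ D : Set ℍ, MeasurableSet D → IsFundamentalDomain Γ D (volume : Measure ℍ) →
    (∃ K : Set ℍ, IsCompact K ∧ ∀ z, ∃ γ ∈ Γ, γ • z ∈ K) →
    ∀ (φ : ℕ → ℍ → ℝ) (m : ℕ → ℝ), Berry.REigenSeq Γ ρ φ m →
    (∀ n, ContDiffOn ℝ ∞ (fun w : ℂ => φ n (ofComplex w)) {w | 0 < w.im}) →
    (∀ n, Berry.rAvg ρ D (fun z => φ n z ^ 2) = 1) →
    ∀ (Ω : Type) [MeasurableSpace Ω] (P : Measure Ω) [IsProbabilityMeasure P] (F : ℂ → Ω → ℝ),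
    (∀ x, Measurable (F x)) → FLim ρ D φ m P F → ∫ o, F 0 o ^ 2 ∂P = 1 →
    Integrable (fun o => F 0 o ^ 4) P →
    (∀ x : ℂ, Integrable (F x) P ∧ ∫ o, F x o ∂P = 0) ∧
    (∀ x y : ℂ, Integrable (fun o => F x o * F y o) P ∧
      ∫ o, F x o * F y o ∂P = Berry.waveK (x - y)) ∧
    (∀ x₁ x₂ x₃ x₄ : ℂ, Integrable (fun o => F x₁ o * F x₂ o * F x₃ o * F x₄ o) P) ∧
    List.TFAE [
      (∀ x₁ x₂ x₃ : ℂ, ∫ o, F x₁ o * F x₂ o * F x₃ o ∂P = 0) ∧
        ∀ x₁ x₂ x₃ x₄ : ℂ, ∫ o, F x₁ o * F x₂ o * F x₃ o * F x₄ o ∂P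
          = Berry.waveK (x₁ - x₂) * Berry.waveK (x₃ - x₄)
            + Berry.waveK (x₁ - x₃) * Berry.waveK (x₂ - x₄)
            + Berry.waveK (x₁ - x₄) * Berry.waveK (x₂ - x₃),
      ∀ a : ℂ, Means P F a,
      ∃ a : ℂ, a ≠ 0 ∧ Hull P F a,
      QE.QuantumErgodic ρ φ m ∧ ∫ o, F 0 o ^ 4 ∂P = 3] ∧
    (Ergo P F → QE.QuantumErgodic ρ φ m ∧ ∫ o, F 0 o ^ 4 ∂P = 3)

end

end BSL
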