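import Pool.Agent.BSL.CORE
import Pool.Agent.BSL.FLQ
import Pool.Agent.BSL.St5

/-!
# Theorem E: ergodic limit fields on closed surfaces (module FLE)
-/

set_option autoImplicit false

open Complex MeasureTheory Filter Topology Set
open UpperHalfPlane hiding I
open scoped ContDiff MatrixGroups ProbabilityTheory ENNReal

namespace BSL

open QE QE.NC QJ U3 NFP

noncomputable section

namespace FLE

lemma expand2 {r : ℕ} (c f : Fin r → ℝ) : (∑ i, c i * f i) ^ 2
    = ∑ i, ∑ j, c i * c j * (f i * f j) := by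
  rw [sq, Finset.sum_mul_sum]
  refine Finset.sum_congr rfl fun i _ => Finset.sum_congr rfl fun j _ => by ring

/-- the variance of an affine combination -/
lemma var_eq {Ω : Type} [MeasurableSpace Ω] {P : Measure Ω} [IsProbabilityMeasure P]
    {F : ℂ → Ω → ℝ} {G : (Fin 4 → ℂ) → ℝ}
    (h2 : ∀ x y : ℂ, Integrable (fun o => F x o * F y o) P ∧
      ∫ o, F x o * F y o ∂P = Berry.waveK (x - y))
    (h4 : ∀ x₁ x₂ x₃ x₄ : ℂ, Integrable (fun o => F x₁ o * F x₂ o * F x₃ o * F x₄ o) P ∧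
      ∫ o, F x₁ o * F x₂ o * F x₃ o * F x₄ o ∂P = G ![x₁, x₂, x₃, x₄])
    {r : ℕ} (c : Fin r → ℝ) (x : Fin r → ℂ) (a : ℂ) (hc : ∑ i, c i = 1) :
    ∫ o, (∑ i, c i * (F (x i) o * F (x i + a) o) - Berry.waveK a) ^ 2 ∂P
      = ∑ i, ∑ j, c i * c j * G ![x i, x i + a, x j, x j + a] - Berry.waveK a ^ 2 := by
  have e1 : ∀ o, (∑ i, c i * (F (x i) o * F (x i + a) o) - Berry.waveK a) ^ 2
      = (∑ i, ∑ j, c i * c j * (F (x i) o * F (x i + a) o * F (x j) o * F (x j + a) o))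
        - 2 * Berry.waveK a * (∑ i, c i * (F (x i) o * F (x i + a) o)) + Berry.waveK a ^ 2 := by
    intro o
    have h := expand2 c (fun i => F (x i) o * F (x i + a) o)
    have h' : (∑ i, ∑ j, c i * c j * (F (x i) o * F (x i + a) o * F (x j) o * F (x j + a) o))
        = ∑ i, ∑ j, c i * c j * ((F (x i) o * F (x i + a) o) * (F (x j) o * F (x j + a) o)) :=
      Finset.sum_congr rfl fun i _ => Finset.sum_congr rfl fun j _ => by ring
    rw [h', ← h]
    ring
  have i1 : Integrable (fun o => ∑ i, ∑ j, c i * c j * (F (x i) o * F (x i + a) o * F (x j) o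
      * F (x j + a) o)) P :=
    integrable_finsetSum _ fun i _ => integrable_finsetSum _ fun j _ => (h4 _ _ _ _).1.const_mul _
  have i2 : Integrable (fun o => ∑ i, c i * (F (x i) o * F (x i + a) o)) P :=
    integrable_finsetSum _ fun i _ => (h2 _ _).1.const_mul _
  have i3 : Integrable (fun o => 2 * Berry.waveK a * (∑ i, c i * (F (x i) o * F (x i + a) o))) P :=
    i2.const_mul _
  have i4 : Integrable (fun o => (∑ i, ∑ j, c i * c j * (F (x i) o * F (x i + a) o * F (x j) o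
      * F (x j + a) o)) - 2 * Berry.waveK a * (∑ i, c i * (F (x i) o * F (x i + a) o))) P :=
    i1.sub i3
  simp only [e1]
  rw [integral_add i4 (integrable_const _), integral_sub i1 i3, integral_const_mul,
    integral_finsetSum _ fun i _ => integrable_finsetSum _ fun j _ => (h4 _ _ _ _).1.const_mul _,
    integral_finsetSum _ fun i _ => (h2 _ _).1.const_mul _]
  have e2 : ∑ i, ∫ o, c i * (F (x i) o * F (x i + a) o) ∂P = Berry.waveK a := by
    have : ∀ i, ∫ o, c i * (F (x i) o * F (x i + a) o) ∂P = c i * Berry.waveK a := by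
      intro i
      rw [integral_const_mul, (h2 _ _).2]
      have : x i - (x i + a) = -a := by ring
      rw [this, Berry.waveK_neg]
    simp only [this]
    rw [← Finset.sum_mul, hc, one_mul]
  have e3 : ∑ i, ∫ o, ∑ j, c i * c j * (F (x i) o * F (x i + a) o * F (x j) o * F (x j + a) o) ∂P
      = ∑ i, ∑ j, c i * c j * G ![x i, x i + a, x j, x j + a] := by
    refine Finset.sum_congr rfl fun i _ => ?_
    rw [integral_finsetSum _ fun j _ => (h4 _ _ _ _).1.const_mul _]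
    refine Finset.sum_congr rfl fun j _ => ?_
    rw [integral_const_mul, (h4 _ _ _ _).2]
  rw [e2, e3]
  simp only [integral_const, probReal_univ, smul_eq_mul, one_mul]
  ring

lemma hull_of_means {Ω : Type} [MeasurableSpace Ω] {P : Measure Ω} {F : ℂ → Ω → ℝ} {a : ℂ}
    (h : Means P F a) : Hull P F a := by
  intro ε hε
  obtain ⟨r, x, hr, h1⟩ := h ε hε
  have hr' : (r : ℝ) ≠ 0 := by exact_mod_cast hr.ne'
  refine ⟨r, fun _ => 1 / (r : ℝ), x, ?_, ?_⟩
  · rw [Finset.sum_const, Finset.card_univ, Fintype.card_fin, nsmul_eq_mul]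
    field_simp
  · refine le_trans (le_of_eq ?_) h1
    refine integral_congr_ae (Eventually.of_forall fun o => ?_)
    beta_reduce
    rw [Finset.mul_sum]

end FLE

open CORE FLE in
/-- **FLE**: Theorem E. -/
theorem t_FLE (h1 : StmtFfl) (h2 : StmtLfr) (h3 : StmtKap) (h4 : StmtHul) (h5 : StmtUnv)
    (h6 : StmtQeu) (h7 : StmtOrd) (h8 : StmtErg) (h9 : StmtCnv) (h10 : StmtFlq) : StmtFle := by
  intro Γ _ ρ hρ hρΓ D hDm hD hK φ m hφ hs hnorm Ω _ P _ F hFm hF hF2 hF4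
  have hfac : Fac Γ ρ := ⟨hρ, hρΓ, hK⟩
  set κ := ∫ o, F 0 o ^ 4 ∂P with hκ
  -- the data
  have dat : ∀ k : ℕ → ℕ, Tendsto k atTop atTop →
      ∃ (l : ℕ → ℕ) (s : ProbabilityTheory.Kernel ℍ S1), Tendsto l atTop atTop ∧
        Dat Γ D ρ (fun n => φ (k (l n))) (fun n => m (k (l n))) P F s ∧ DirE Γ D ρ s κ := by
    intro k hk
    obtain ⟨l, s, hl, T⟩ := exists_dat h1 hρ hρΓ hDm hD hK hφ hs hnorm hFm hF hF2 hF4 hk
    obtain ⟨g1, g2⟩ := h3 Γ D ρ _ _ T.sur Ω P F hFm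
      (FLA.fLim_comp (k := fun n => k (l n)) hF (hk.comp hl)) hF2 hF4 s T.sem
    exact ⟨l, s, hl, T, ⟨hDm, hD, hfac, T.sem.fin, h2 Γ ρ _ _ s hfac T.sur.loc T.sem
      (fun n => T.sur.eig.invariant n), T.sq, T.one, T.dw, g1, g2⟩⟩
  obtain ⟨l₀, s₀, hl₀, T₀, d₀⟩ := dat (fun n => n) tendsto_id
  obtain ⟨o1, o2⟩ := h7 Γ D ρ _ _ T₀.sur Ω P F hFm (FLA.fLim_comp hF hl₀) hF2 hF4
  have f4i : ∀ a b c d : ℂ, Integrable (fun o => F a o * F b o * F c o * F d o) P := by
    intro a b c d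
    have := (T₀.four ![a, b, c, d]).1
    simpa [Fin.prod_univ_four] using this
  have f4 : ∀ {k : ℕ → ℕ} {s : ProbabilityTheory.Kernel ℍ S1},
      Dat Γ D ρ (fun n => φ (k n)) (fun n => m (k n)) P F s → ∀ a b c d : ℂ,
      ∫ o, F a o * F b o * F c o * F d o ∂P = fourF ρ D s κ ![a, b, c, d] := by
    intro k s T a b c d
    have := (T.four ![a, b, c, d]).2
    simpa [Fin.prod_univ_four] using this
  -- the main step
  have main : (∃ a : ℂ, a ≠ 0 ∧ Hull P F a) → QE.QuantumErgodic ρ φ m ∧ κ = 3 := by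
    rintro ⟨a, ha, hH⟩
    have uni : ∀ {k : ℕ → ℕ} {s : ProbabilityTheory.Kernel ℍ S1},
        Dat Γ D ρ (fun n => φ (k n)) (fun n => m (k n)) P F s → DirE Γ D ρ s κ →
        Unif D s ∧ κ ≤ 3 * Berry.rAvg ρ D (fun z => ((s z) univ).toReal ^ 2) := by
      intro k s T d
      obtain ⟨u1, -, u3⟩ := h4 Γ D ρ s κ d a (fun ε hε => by
        obtain ⟨r, c, x, hc, hle⟩ := hH ε hε
        refine ⟨r, c, x, hc, ?_⟩
        rw [var_eq (G := fourF ρ D s κ) o2 (fun x₁ x₂ x₃ x₄ => ⟨f4i _ _ _ _, f4 T _ _ _ _⟩) c x a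
          hc] at hle
        linarith)
      exact ⟨h5 Γ D ρ s κ d a ha u3, u1⟩
    have hQ : QE.QuantumErgodic ρ φ m := by
      intro i j ζ a1 a2 a3
      refine tendsto_of_subseq_tendsto fun ns hns => ?_
      obtain ⟨l, s, hl, T, d⟩ := dat ns hns
      exact ⟨l, (T.uni h6 (uni (k := fun n => ns (l n)) T d).1).1 i j ζ a1 a2 a3⟩
    refine ⟨hQ, le_antisymm ?_ ?_⟩
    · obtain ⟨u1, u2⟩ := uni (k := fun n => l₀ n) T₀ d₀
      have := (T₀.uni h6 u1).2.1
      rw [this] at u2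
      linarith
    · have := (h10 Γ ρ hρ hρΓ D hDm hD hK φ m hφ hs hnorm hQ Ω P F hFm hF hF2).1
      rw [← ofReal_integral_eq_lintegral_ofReal hF4 (Eventually.of_forall fun o => by positivity)]
        at this
      have h3' : ENNReal.ofReal 3 ≤ ENNReal.ofReal (∫ o, F 0 o ^ 4 ∂P) := by
        simpa using this
      exact (ENNReal.ofReal_le_ofReal_iff (integral_nonneg fun o => by positivity)).1 h3'
  refine ⟨o1, o2, f4i, ?_, fun hE => main ⟨1, one_ne_zero, fun ε hε => ?_⟩⟩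
  · tfae_have 1 → 2 := by
      rintro ⟨-, h⟩ a
      exact h9 Ω P F hFm o2 (fun x₁ x₂ x₃ x₄ => ⟨f4i _ _ _ _, h _ _ _ _⟩) a
    tfae_have 2 → 3 := fun h => ⟨1, one_ne_zero, hull_of_means (h 1)⟩
    tfae_have 3 → 4 := main
    tfae_have 4 → 1 := by
      rintro ⟨hQ, h3⟩
      obtain ⟨q1, q2⟩ := (h10 Γ ρ hρ hρΓ D hDm hD hK φ m hφ hs hnorm hQ Ω P F hFm hF hF2).2 hF4
      refine ⟨fun x₁ x₂ x₃ => (q1 x₁ x₂ x₃).2, fun x₁ x₂ x₃ x₄ => ?_⟩
      have := (q2 ![x₁, x₂, x₃, x₄]).2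
      rw [← hκ, h3] at this
      simpa using this
    tfae_finish
  · obtain ⟨r, c, x, hc, -, hle⟩ := h8 Ω P F hFm hE 1 (fun x => by
      refine (f4i x (x + 1) x (x + 1)).congr (Eventually.of_forall fun o => ?_)
      beta_reduce
      ring) ε hε
    refine ⟨r, c, x, hc, ?_⟩
    have e : ∫ o, F 0 o * F 1 o ∂P = Berry.waveK 1 := by
      rw [(o2 0 1).2, zero_sub, Berry.waveK_neg]
    rw [e] at hle
    exact hle

end

end BSL
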