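import Pool.Agent.BSL.St5
import Pool.Agent.ONE.Avg

/-!
HUL: small variances.
-/

open Complex MeasureTheory Filter Topology Set
open UpperHalfPlane hiding I
open scoped ContDiff MatrixGroups ProbabilityTheory

namespace BSL

open QE QE.NC QJ U3 NFP

noncomputable section

namespace HUL

lemma C2_nonneg {r : ℕ} (c : Fin r → ℝ) (x : Fin r → ℂ) :
    0 ≤ ∑ i, ∑ j, c i * c j * Berry.waveK (2 * (x i - x j)) := by
  have hpi := Real.pi_pos
  set φ : Fin r → ℝ → ℝ := fun i θ => 2 * ((x i).re * Real.cos θ + (x i).im * Real.sin θ) with hφ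
  have hc : ∀ i, Continuous (φ i) := fun i => by simp only [hφ]; fun_prop
  have e : ∀ i j, Berry.waveK (2 * (x i - x j)) = (2 * Real.pi)⁻¹ *
      ∫ θ in (0 : ℝ)..(2 * Real.pi), Real.cos (φ i θ - φ j θ) := by
    intro i j
    unfold Berry.waveK
    congr 1
    refine intervalIntegral.integral_congr fun θ _ => ?_
    simp only [hφ]
    congr 1
    have h2 : (2 * (x i - x j)).re = 2 * ((x i).re - (x j).re) := by simp
    have h3 : (2 * (x i - x j)).im = 2 * ((x i).im - (x j).im) := by simp
    rw [h2, h3]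
    ring
  have h1 : ∑ i, ∑ j, c i * c j * Berry.waveK (2 * (x i - x j)) = (2 * Real.pi)⁻¹ *
      ∫ θ in (0 : ℝ)..(2 * Real.pi), ∑ i, ∑ j, c i * c j * Real.cos (φ i θ - φ j θ) := by
    have hg : ∀ i j, Continuous fun θ => c i * c j * Real.cos (φ i θ - φ j θ) := fun i j =>
      continuous_const.mul (Real.continuous_cos.comp ((hc i).sub (hc j)))
    rw [intervalIntegral.integral_finsetSum fun i _ =>
      (continuous_finsetSum _ fun j _ => hg i j).intervalIntegrable _ _, Finset.mul_sum]
    refine Finset.sum_congr rfl fun i _ => ?_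
    rw [intervalIntegral.integral_finsetSum fun j _ => (hg i j).intervalIntegrable _ _,
      Finset.mul_sum]
    refine Finset.sum_congr rfl fun j _ => ?_
    rw [intervalIntegral.integral_const_mul, e]
    ring
  rw [h1]
  refine mul_nonneg (by positivity)
    (intervalIntegral.integral_nonneg (by positivity) fun θ _ => ?_)
  have h4 : ∑ i, ∑ j, c i * c j * Real.cos (φ i θ - φ j θ)
      = (∑ i, c i * Real.cos (φ i θ)) ^ 2 + (∑ i, c i * Real.sin (φ i θ)) ^ 2 := by
    rw [sq, sq, Finset.sum_mul_sum, Finset.sum_mul_sum, ← Finset.sum_add_distrib]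
    refine Finset.sum_congr rfl fun i _ => ?_
    rw [← Finset.sum_add_distrib]
    refine Finset.sum_congr rfl fun j _ => ?_
    rw [Real.cos_sub]
    ring
  rw [h4]
  positivity

lemma one_add_pos (y : ℂ) : 0 < 1 + Berry.waveK y := by
  have hpi := Real.pi_pos
  have hc : Continuous fun θ : ℝ => Real.cos (‖y‖ * Real.cos θ) := by fun_prop
  have h1 : 1 + Berry.waveK y = (2 * Real.pi)⁻¹ * ∫ θ in (0 : ℝ)..(2 * Real.pi),
      (1 + Real.cos (‖y‖ * Real.cos θ)) := by
    rw [intervalIntegral.integral_add (continuous_const.intervalIntegrable _ _)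
      (hc.intervalIntegrable _ _), intervalIntegral.integral_const, mul_add,
      Berry.waveK_eq_norm, smul_eq_mul, mul_one, sub_zero, inv_mul_cancel₀ (by positivity)]
  rw [h1]
  refine mul_pos (by positivity) (intervalIntegral.integral_pos (by positivity)
    (continuous_const.add hc).continuousOn (fun θ _ => ?_) ⟨Real.pi / 2, ⟨by positivity, by linarith⟩, ?_⟩)
  · have := Real.neg_one_le_cos (‖y‖ * Real.cos θ)
    linarith
  · rw [Real.cos_pi_div_two, mul_zero, Real.cos_zero]
    norm_num

lemma resK_pair (p q a : ℂ) : resK ![p, p + a, q, q + a] =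
    Berry.waveK (2 * (p - q)) + Berry.waveK (2 * a) + 1 := by
  unfold resK
  simp only [Matrix.cons_val_zero, Matrix.cons_val_one, Matrix.cons_val]
  have e1 : p + (p + a) - q - (q + a) = 2 * (p - q) := by ring
  have e2 : p + q - (p + a) - (q + a) = -(2 * a) := by ring
  have e3 : p + (q + a) - (p + a) - q = 0 := by ring
  rw [e1, e2, e3, Berry.waveK_neg, Berry.waveK_zero]

lemma ae_cond {ρ : ℍ → ℝ} {D : Set ℍ} {P : ℍ → Prop} (h : ∀ᵐ z ∂(volume : Measure ℍ), P z) :
    ∀ᵐ z ∂(ProbabilityTheory.cond (Berry.area ρ) D), P z := by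
  have h1 : (ProbabilityTheory.cond (Berry.area ρ) D) ≪ (volume : Measure ℍ) :=
    (ProbabilityTheory.cond_absolutelyContinuous).trans (withDensity_absolutelyContinuous _ _)
  exact h1.ae_le h

/-- the odd moments vanish -/
lemma odd_zero {Γ : Subgroup SL(2, ℝ)} {ρ : ℍ → ℝ} {s : ProbabilityTheory.Kernel ℍ S1}
    (hf : LimFamR Γ ρ (fun k z => cof (s (ofComplex z)) k)) :
    ∀ᵐ z ∂(volume : Measure ℍ), ∀ k : ℤ, Odd k → cof (s z) k = 0 := by
  rw [ae_all_iff]
  intro k
  by_cases hk : Odd k
  · have h1 := QE.FM.ae_H (hf.odd k hk)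
    filter_upwards [h1] with z hz _
    rw [ofComplex_apply] at hz
    exact hz
  · exact Eventually.of_forall fun z hk' => absurd hk' hk

end HUL

theorem t_HUL (h : StmtAtm) : StmtHul := by
  intro Γ _ D ρ s κ hE a hyp
  have hg : Berry.Geo Γ ρ D :=
    geo_of hE.mD hE.fd hE.fac.cpt (continuous_of_smooth hE.fac.smooth) hE.fac.inv
  have hP := ONE.prob_nu hg
  have js2 := ONE.int_nu hg hE.sq
  have js1 := ONE.int_mass js2
  have jd := ONE.int_nu hg hE.di
  have hfin := hE.fin
  have jw : ∀ x : Fin 4 → ℂ, Integrable (fun z => dirWick (s z) x)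
      (ProbabilityTheory.cond (Berry.area ρ) D) := fun x => ONE.int_nu hg (hE.dw x)
  have hvark : Integrable (fun z => ONE.vark (s z) a)
      (ProbabilityTheory.cond (Berry.area ρ) D) := by
    have h1 := ((jw ![0, 0, -a, -a]).sub (js2.const_mul (1 + 2 * Berry.waveK a ^ 2))).div_const 2
    refine h1.congr (Eventually.of_forall fun z => ?_)
    have := hfin z
    simp only [Pi.sub_apply]
    rw [ONE.dirWick_two, zero_sub, neg_neg]
    ring
  have hone := hE.one
  have hkap := hE.kap
  unfold Berry.rAvg at hone hkap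
  set ν := ProbabilityTheory.cond (Berry.area ρ) D with hν
  set S := ∫ z, ((s z) univ).toReal ^ 2 ∂ν with hS
  set d := ∫ z, dia (s z) ∂ν with hd
  set V := ∫ z, ONE.vark (s z) a ∂ν with hV
  set K1 := Berry.waveK a with hK1
  set K2 := Berry.waveK (2 * a) with hK2
  set rr := (κ - 3 * S) / 3 with hrr
  have hd0 : 0 ≤ d := integral_nonneg fun z => ENNReal.toReal_nonneg
  have hV0 : 0 ≤ V := integral_nonneg fun z => ONE.vark_nonneg _ _
  have hdr : 0 ≤ d + rr := by
    rw [hrr]
    linarith
  have hS1 : 1 ≤ S := by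
    have h1 := (ONE.eq_case (A := 1) (B := 1) (R := 1) (κ := 3 * S) js1 js2 hone
      (integrable_const (0 : ℝ)) (fun _ => le_rfl) zero_le_one one_pos one_pos le_rfl).1
    rw [← hS] at h1
    simp only [integral_zero, mul_zero, sub_self, zero_div, zero_mul, add_zero, one_mul] at h1
    exact h1
  have hpos : 0 < 1 + K2 := HUL.one_add_pos _
  -- the lower bound
  have low : ∀ (r : ℕ) (c : Fin r → ℝ) (x : Fin r → ℂ), ∑ i, c i = 1 →
      K1 ^ 2 * S + V + (d + rr) * (1 + K2)
        ≤ ∑ i, ∑ j, c i * c j * fourF ρ D s κ ![x i, x i + a, x j, x j + a] := by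
    intro r c x hc
    set C2 := ∑ i, ∑ j, c i * c j * Berry.waveK (2 * (x i - x j)) with hC2
    have hC0 : 0 ≤ C2 := HUL.C2_nonneg c x
    have hres : ∑ i, ∑ j, c i * c j * resK ![x i, x i + a, x j, x j + a] = C2 + (K2 + 1) := by
      have h1 : ∀ i j, c i * c j * resK ![x i, x i + a, x j, x j + a]
          = c i * c j * Berry.waveK (2 * (x i - x j)) + c i * c j * (K2 + 1) := by
        intro i j
        rw [HUL.resK_pair]
        ring
      simp only [h1, Finset.sum_add_distrib]
      rw [← hC2]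
      congr 1
      have h2 : ∑ i, ∑ j, c i * c j * (K2 + 1) = (∑ i, c i) * (∑ j, c j) * (K2 + 1) := by
        rw [Finset.sum_mul_sum, Finset.sum_mul]
        refine Finset.sum_congr rfl fun i _ => ?_
        rw [Finset.sum_mul]
      rw [h2, hc]
      ring
    have hsum : ∑ i, ∑ j, c i * c j * fourF ρ D s κ ![x i, x i + a, x j, x j + a]
        = (∫ z, ∑ i, ∑ j, c i * c j * dirWick (s z) ![x i, x i + a, x j, x j + a] ∂ν)
          + rr * (C2 + (K2 + 1)) := by
      rw [integral_finsetSum _ fun i _ => integrable_finsetSum _ fun j _ =>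
        (jw ![x i, x i + a, x j, x j + a]).const_mul (c i * c j)]
      rw [← hres, Finset.mul_sum, ← Finset.sum_add_distrib]
      refine Finset.sum_congr rfl fun i _ => ?_
      rw [integral_finsetSum _ fun j _ =>
        (jw ![x i, x i + a, x j, x j + a]).const_mul (c i * c j)]
      rw [Finset.mul_sum, ← Finset.sum_add_distrib]
      refine Finset.sum_congr rfl fun j _ => ?_
      rw [integral_const_mul]
      have h3 : fourF ρ D s κ ![x i, x i + a, x j, x j + a]
          = (∫ z, dirWick (s z) ![x i, x i + a, x j, x j + a] ∂ν)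
            + rr * resK ![x i, x i + a, x j, x j + a] := rfl
      rw [h3]
      ring
    have hlow : K1 ^ 2 * S + V + d * (1 + K2 + 2 * C2)
        ≤ ∫ z, ∑ i, ∑ j, c i * c j * dirWick (s z) ![x i, x i + a, x j, x j + a] ∂ν := by
      have h4 : K1 ^ 2 * S + V + d * (1 + K2 + 2 * C2)
          = ∫ z, (K1 ^ 2 * ((s z) univ).toReal ^ 2 + ONE.vark (s z) a
            + dia (s z) * (1 + K2 + 2 * C2)) ∂ν := by
        have j1 : Integrable (fun z => K1 ^ 2 * ((s z) univ).toReal ^ 2) ν := js2.const_mul _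
        have j2 : Integrable (fun z => K1 ^ 2 * ((s z) univ).toReal ^ 2 + ONE.vark (s z) a) ν :=
          j1.add hvark
        have j3 : Integrable (fun z => dia (s z) * (1 + K2 + 2 * C2)) ν := jd.mul_const _
        rw [integral_add j2 j3, integral_add j1 hvark, integral_const_mul, integral_mul_const]
      rw [h4]
      refine integral_mono_ae (((js2.const_mul _).add hvark).add (jd.mul_const _))
        (integrable_finsetSum _ fun i _ => integrable_finsetSum _ fun j _ =>
          (jw ![x i, x i + a, x j, x j + a]).const_mul (c i * c j)) ?_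
      filter_upwards [HUL.ae_cond (ρ := ρ) (D := D) (HUL.odd_zero hE.fam)] with z hz
      exact h (s z) (hfin z) hz r c x a hc
    rw [hsum]
    have h5 : 0 ≤ (2 * d + rr) * C2 := mul_nonneg (by linarith) hC0
    nlinarith
  have hT : K1 ^ 2 * S + V + (d + rr) * (1 + K2) ≤ K1 ^ 2 := by
    refine le_of_forall_pos_le_add fun ε hε => ?_
    obtain ⟨r, c, x, hc, hle⟩ := hyp ε hε
    exact (low r c x hc).trans hle
  have t1 : 0 ≤ K1 ^ 2 * (S - 1) := mul_nonneg (sq_nonneg _) (by linarith)
  have t3 : 0 ≤ (d + rr) * (1 + K2) := mul_nonneg hdr hpos.le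
  have hT' : K1 ^ 2 * (S - 1) + V + (d + rr) * (1 + K2) ≤ 0 := by linarith
  have z1 : K1 ^ 2 * (S - 1) = 0 := by linarith
  have z2 : V = 0 := by linarith
  have z3 : (d + rr) * (1 + K2) = 0 := by linarith
  refine ⟨?_, z1, ?_⟩
  · rcases mul_eq_zero.1 z3 with h6 | h6
    · have h7 : κ ≤ 3 * S := by
        rw [hrr] at h6
        linarith
      exact h7
    · exact absurd h6 hpos.ne'
  · refine ONE.ae_nu hg ?_
    have h8 := (integral_eq_zero_iff_of_nonneg (fun z => ONE.vark_nonneg _ _) hvark).1 z2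
    filter_upwards [h8] with z hz
    exact hz

end

end BSL
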