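import Pool.Agent.BSL.St5
import Pool.Agent.BSL.FFL
import Pool.Agent.BSL.MSD

/-!
# The sharp lower bound for the fourth moment of the limit field (module KAP)
-/

set_option autoImplicit false

open Complex MeasureTheory Filter Topology Set
open UpperHalfPlane hiding I
open scoped ContDiff MatrixGroups ProbabilityTheory ENNReal

namespace BSL

open QE QE.NC QJ U3 NFP

noncomputable section

namespace KAP

/-- the mean of the squares of the moments -/
def WN (s : Measure S1) (N : ℕ) : ℝ :=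
  1 / (N : ℝ) ^ 2 * ∑ j ∈ Finset.range N, ∑ k ∈ Finset.range N,
    (‖cof s ((j : ℤ) + k)‖ ^ 2 + ‖cof s ((j : ℤ) - k)‖ ^ 2)

lemma WN_nonneg (s : Measure S1) (N : ℕ) : 0 ≤ WN s N := by
  unfold WN
  refine mul_nonneg (by positivity) (Finset.sum_nonneg fun j _ => Finset.sum_nonneg fun k _ => ?_)
  positivity

lemma WN_le (s : Measure S1) (N : ℕ) : WN s N ≤ 2 * (s univ).toReal ^ 2 := by
  unfold WN
  have h1 : ∑ j ∈ Finset.range N, ∑ k ∈ Finset.range N,
      (‖cof s ((j : ℤ) + k)‖ ^ 2 + ‖cof s ((j : ℤ) - k)‖ ^ 2)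
      ≤ ∑ _j ∈ Finset.range N, ∑ _k ∈ Finset.range N, 2 * (s univ).toReal ^ 2 := by
    refine Finset.sum_le_sum fun j _ => Finset.sum_le_sum fun k _ => ?_
    have a1 := pow_le_pow_left₀ (norm_nonneg _) (NFP.STRUCT.norm_cof s ((j : ℤ) + k)) 2
    have a2 := pow_le_pow_left₀ (norm_nonneg _) (NFP.STRUCT.norm_cof s ((j : ℤ) - k)) 2
    linarith
  simp only [Finset.sum_const, Finset.card_range, nsmul_eq_mul] at h1
  rcases Nat.eq_zero_or_pos N with rfl | hN
  · simp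
  · have hN' : (0 : ℝ) < (N : ℝ) := by exact_mod_cast hN
    calc _ ≤ 1 / (N : ℝ) ^ 2 * ((N : ℝ) * ((N : ℝ) * (2 * (s univ).toReal ^ 2))) :=
          mul_le_mul_of_nonneg_left h1 (by positivity)
      _ = 2 * (s univ).toReal ^ 2 := by
          field_simp

lemma WN_lim (hW : StmtWie) (s : Measure S1) [IsFiniteMeasure s] :
    Tendsto (WN s) atTop (𝓝 (2 * dia s)) := (hW s inferInstance).1

lemma WN_congr {s t : Measure S1} {c : ℂ} (hc : ‖c‖ = 1) (h : ∀ k : ℤ, cof s k = c ^ k * cof t k)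
    (N : ℕ) : WN s N = WN t N := by
  unfold WN
  have e : ∀ k : ℤ, ‖cof s k‖ = ‖cof t k‖ := by
    intro k
    rw [h k, norm_mul, norm_zpow, hc, one_zpow, one_mul]
  simp only [e]

variable {Γ : Subgroup SL(2, ℝ)} {D : Set ℍ} {ρ : ℍ → ℝ} {φ : ℕ → ℍ → ℝ} {m : ℕ → ℝ}
  {s : ProbabilityTheory.Kernel ℍ S1} {ζ : ℂ → ℝ}

lemma dia_inv (hW : StmtWie) (h2 : StmtLfe) (h : Sur Γ D ρ φ m) (hS : Sem ρ φ m s) :
    ∀ γ ∈ Γ, ∀ᵐ z : ℍ, dia (s (γ • z)) = dia (s z) := by
  intro γ hγ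
  filter_upwards [MSD.cof_inv h2 h hS γ hγ] with z hz
  have f1 : IsFiniteMeasure (s z) := hS.fin z
  have f2 : IsFiniteMeasure (s (γ • z)) := hS.fin _
  have t1 := WN_lim hW (s z)
  have t2 := WN_lim hW (s (γ • z))
  have e : WN (s z) = WN (s (γ • z)) :=
    funext fun N => WN_congr (QE.FM.norm_phase γ z) hz N
  rw [e] at t1
  have := tendsto_nhds_unique t1 t2
  linarith

lemma meas_WN (s : ProbabilityTheory.Kernel ℍ S1) (N : ℕ) :
    Measurable fun z : ℂ => WN (s (ofComplex z)) N := by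
  unfold WN
  refine Measurable.const_mul ?_ _
  refine Finset.measurable_sum _ fun j _ => Finset.measurable_sum _ fun k _ => ?_
  exact ((((NFP.STRUCT.meas_cof s _).comp QE.Surf.measurable_ofComplex).norm).pow_const 2).add
    ((((NFP.STRUCT.meas_cof s _).comp QE.Surf.measurable_ofComplex).norm).pow_const 2)

lemma meas_dia (hW : StmtWie) (hS : Sem ρ φ m s) :
    Measurable fun z : ℂ => 2 * dia (s (ofComplex z)) := by
  refine measurable_of_tendsto_metrizable (fun N => meas_WN s N) ?_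
  rw [tendsto_pi_nhds]
  intro z
  have f1 : IsFiniteMeasure (s (ofComplex z)) := hS.fin _
  exact WN_lim hW (s (ofComplex z))

lemma dia_nonneg (s : Measure S1) : 0 ≤ dia s := ENNReal.toReal_nonneg

lemma dia_le (hW : StmtWie) (s : Measure S1) [IsFiniteMeasure s] :
    dia s ≤ (s univ).toReal ^ 2 := by
  have := le_of_tendsto' (WN_lim hW s) (fun N => WN_le s N)
  linarith

lemma dia_loc (hW : StmtWie) (hS : Sem ρ φ m s) {K : Set ℂ} (hK : IsCompact K) (hKU : K ⊆ HH) :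
    IntegrableOn (fun w => dia (s (ofComplex w))) K := by
  have hm : Measurable fun z : ℂ => dia (s (ofComplex z)) := by
    have h3 := (meas_dia hW hS).const_mul (1 / 2)
    have e : (fun z : ℂ => 1 / 2 * (2 * dia (s (ofComplex z))))
        = fun z : ℂ => dia (s (ofComplex z)) := by
      funext z
      ring
    rwa [e] at h3
  refine Integrable.mono' (MSD.mass_sq_loc hS hK hKU) hm.aestronglyMeasurable ?_
  refine Eventually.of_forall fun z => ?_
  have f1 : IsFiniteMeasure (s (ofComplex z)) := hS.fin _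
  rw [Real.norm_eq_abs, abs_of_nonneg (dia_nonneg _)]
  exact dia_le hW _

lemma norm_um (s : ProbabilityTheory.Kernel ℍ S1) (k : ℤ) (z : ℂ) :
    ‖um s k z‖ = ‖cof (s (ofComplex z)) k‖ := by
  unfold um
  rw [norm_mul, norm_zpow, Complex.norm_I, one_zpow, one_mul]

lemma cont_zeta (hζ : CutF Γ D ρ ζ) : Continuous ζ := by
  have := Complex.continuous_re.comp hζ.test.smooth.continuous
  exact this

lemma zint (hζ : CutF Γ D ρ ζ) {g : ℂ → ℝ}
    (hg : IntegrableOn g (tsupport (fun z => (ζ z : ℂ)))) : Integrable (fun z => ζ z * g z) := by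
  obtain ⟨C, hC⟩ := hζ.test.supp.exists_bound_of_continuous hζ.test.smooth.continuous
  have h0 : ∀ z, z ∉ tsupport (fun z => (ζ z : ℂ)) → ζ z = 0 := by
    intro z hz
    by_contra hne
    have h3 : (ζ z : ℂ) ≠ 0 := by exact_mod_cast hne
    exact hz (subset_tsupport (fun z => (ζ z : ℂ)) h3)
  have h1 : IntegrableOn (fun z => ζ z * g z) (tsupport (fun z => (ζ z : ℂ))) := by
    refine Integrable.bdd_mul (c := C) hg (cont_zeta hζ).aestronglyMeasurable ?_
    refine Eventually.of_forall fun z => ?_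
    have := hC z
    rwa [Complex.norm_real] at this
  refine (integrableOn_iff_integrable_of_support_subset ?_).1 h1
  intro z hz
  by_contra hne
  exact hz (by simp only [h0 z hne, zero_mul])

/-- the sum of the integrals is the integral of the sum -/
lemma sum_int (hS : Sem ρ φ m s) (hζ : CutF Γ D ρ ζ) (N : ℕ) :
    1 / (N : ℝ) ^ 2 * ∑ j ∈ Finset.range N, ∑ k ∈ Finset.range N,
      ((∫ z, ζ z * ‖um s ((j : ℤ) + k) z‖ ^ 2) + ∫ z, ζ z * ‖um s ((j : ℤ) - k) z‖ ^ 2)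
      = ∫ z, ζ z * WN (s (ofComplex z)) N := by
  have hK : IsCompact (tsupport (fun z => (ζ z : ℂ))) := hζ.test.supp
  have hi : ∀ k : ℤ, Integrable (fun z => ζ z * ‖um s k z‖ ^ 2) := by
    intro k
    refine zint hζ ?_
    have hm : Measurable fun z : ℂ => ‖um s k z‖ ^ 2 := by
      simp only [norm_um]
      exact ((((NFP.STRUCT.meas_cof s _).comp QE.Surf.measurable_ofComplex).norm).pow_const 2)
    refine Integrable.mono' (MSD.mass_sq_loc hS hK hζ.test.sub) hm.aestronglyMeasurable ?_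
    refine Eventually.of_forall fun z => ?_
    rw [Real.norm_eq_abs, abs_of_nonneg (by positivity), norm_um]
    exact pow_le_pow_left₀ (norm_nonneg _) (NFP.STRUCT.norm_cof _ k) 2
  have e1 : ∀ j k : ℕ, (∫ z, ζ z * ‖um s ((j : ℤ) + k) z‖ ^ 2)
      + ∫ z, ζ z * ‖um s ((j : ℤ) - k) z‖ ^ 2
      = ∫ z, (ζ z * ‖um s ((j : ℤ) + k) z‖ ^ 2 + ζ z * ‖um s ((j : ℤ) - k) z‖ ^ 2) := by
    intro j k
    rw [integral_add (hi _) (hi _)]
  simp only [e1]
  have hij : ∀ j k : ℕ, Integrable (fun z => ζ z * ‖um s ((j : ℤ) + k) z‖ ^ 2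
      + ζ z * ‖um s ((j : ℤ) - k) z‖ ^ 2) := fun j k => (hi _).add (hi _)
  have e2 : ∀ j : ℕ, ∑ k ∈ Finset.range N,
      ∫ z, (ζ z * ‖um s ((j : ℤ) + k) z‖ ^ 2 + ζ z * ‖um s ((j : ℤ) - k) z‖ ^ 2)
      = ∫ z, ∑ k ∈ Finset.range N,
        (ζ z * ‖um s ((j : ℤ) + k) z‖ ^ 2 + ζ z * ‖um s ((j : ℤ) - k) z‖ ^ 2) := by
    intro j
    rw [integral_finsetSum _ fun k _ => hij j k]
  simp only [e2]
  rw [← integral_finsetSum _ fun j _ => integrable_finsetSum _ fun k _ => hij j k,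
    ← integral_const_mul]
  refine integral_congr_ae (Eventually.of_forall fun z => ?_)
  beta_reduce
  unfold WN
  simp only [norm_um, Finset.mul_sum]
  refine Finset.sum_congr rfl fun j _ => Finset.sum_congr rfl fun k _ => ?_
  ring

lemma lim_int (hW : StmtWie) (hS : Sem ρ φ m s) (hζ : CutF Γ D ρ ζ) :
    Tendsto (fun N : ℕ => ∫ z, ζ z * WN (s (ofComplex z)) N) atTop
      (𝓝 (∫ z, ζ z * (2 * dia (s (ofComplex z))))) := by
  have hK : IsCompact (tsupport (fun z => (ζ z : ℂ))) := hζ.test.supp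
  refine tendsto_integral_of_dominated_convergence
    (fun z => ζ z * (2 * ((s (ofComplex z)) univ).toReal ^ 2)) (fun N => ?_) ?_ (fun N => ?_) ?_
  · exact ((cont_zeta hζ).measurable.mul (meas_WN s N)).aestronglyMeasurable
  · exact zint hζ ((MSD.mass_sq_loc hS hK hζ.test.sub).const_mul 2)
  · refine Eventually.of_forall fun z => ?_
    rw [norm_mul, Real.norm_eq_abs, Real.norm_eq_abs, abs_of_nonneg (hζ.nonneg z),
      abs_of_nonneg (WN_nonneg _ _)]
    exact mul_le_mul_of_nonneg_left (WN_le _ _) (hζ.nonneg z)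
  · refine Eventually.of_forall fun z => ?_
    have f1 : IsFiniteMeasure (s (ofComplex z)) := hS.fin _
    exact (WN_lim hW (s (ofComplex z))).const_mul _

end KAP

open KAP FFL in
/-- **KAP**: the sharp lower bound for the fourth moment of the limit field. -/
theorem t_KAP (h1 : StmtPosS) (h2 : StmtWie) (h3 : StmtTrg) (h4 : StmtCut) (h5 : StmtWts)
    (h6 : StmtUif) (h7 : StmtDom) (h8 : StmtWtR) (h9 : StmtJlg) (h10 : StmtMsd) (h11 : StmtLfe) :
    StmtKap := by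
  intro Γ _ D ρ φ m hS Ω _ P _ F hFm hF hF2 hF4 s hSem
  obtain ⟨R, hT, -⟩ := h3 Γ D ρ φ m hS Ω P F hFm hF hF2 hF4
  obtain ⟨ζ, hζ⟩ := h4 Γ D ρ hS.mD hS.fd hS.fac
  set K : Set ℂ := tsupport (fun z => (ζ z : ℂ)) with hKdef
  have hK : IsCompact K := hζ.test.supp
  obtain ⟨V, F', σ, φ', hKV, -, -, -, hA⟩ := stmtLcz UH (gr ρ) (hh m) (ph φ) isOpen_UH
    (U3.WGA.contDiffOn_gr hS.fac.smooth) (fun z hz => U3.WGA.gr_pos hz) hS.loc K hK hζ.test.sub
  obtain ⟨hJ, hodd⟩ := h9 ρ φ m s hS.fac.smooth hS.loc hSem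
  have hJV := hJ V σ φ' hA
  obtain ⟨m1, m2, m3, m4⟩ := h10 Γ D ρ φ m s hS hSem ζ hζ
  have hTV : Tru V φ' R := tru_agree hT hA
  have hζV : Test V (fun z => (ζ z : ℂ)) := ⟨hζ.test.smooth, hζ.test.supp, hKV⟩
  have hζ0 : ∀ z, z ∉ V → ζ z = 0 := by
    intro z hz
    have h1 : ((ζ z : ℝ) : ℂ) = 0 := by
      by_contra hne
      exact hz (hKV (subset_tsupport (fun z => (ζ z : ℂ)) hne))
    exact_mod_cast h1
  set κ : ℝ := ∫ o, F 0 o ^ 4 ∂P with hκ
  obtain ⟨d1, d2⟩ := MSD.cut_gen hS hζ (f := fun z => dia (s z)) (dia_inv h2 h11 hS hSem)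
    (fun K hK hKU => dia_loc h2 hSem hK hKU)
  refine ⟨d1, ?_⟩
  obtain ⟨L₃, hL₃, hd0⟩ := h7 Γ D ρ φ m hS V σ φ' hA K hK hKV 4 (fun _ => 0)
  obtain ⟨θ, C, W, -⟩ := h5 V σ (hh m) φ' R hA.loc hTV L₃ hL₃
  have hL : 0 < L₃ := lt_of_lt_of_le one_pos hL₃
  -- the weighted fourth moments
  have u0 : Tendsto (fun n => ∫ z, ζ z * (θ n z ^ 2 * φ n (ofComplex z) ^ 4)) atTop (𝓝 κ) := by
    have u := (h6 Γ D ρ φ m hS Ω P F hFm hF ζ hζ V σ φ' hA hKV 2 (Or.inr rfl)
      (fun _ : Fin 4 => (0 : ℂ)) L₃ θ hL W (hd0 L₃ le_rfl)).2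
    have e1 : ∫ o, ∏ _i : Fin (2 + 2), F 0 o ∂P = κ := by
      rw [hκ]
      refine integral_congr_ae (Eventually.of_forall fun o => ?_)
      simp
    rw [e1] at u
    refine u.congr fun n => ?_
    refine integral_congr_ae (Eventually.of_forall fun z => ?_)
    beta_reduce
    rw [← angProd_zero ρ (φ n) (m n) (ofComplex z)]
  have e1 : ∫ z, ζ z * ‖um s 0 z‖ ^ 2 = Berry.rAvg ρ D (fun z => ((s z) univ).toReal ^ 2) := by
    rw [← m3]
    refine integral_congr_ae (Eventually.of_forall fun z => ?_)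
    beta_reduce
    rw [um_zero, Complex.norm_real, Real.norm_eq_abs, sq_abs]
  have e2 : ∀ n, ∫ z, ζ z * (θ n z ^ 2 * (φ' n z).re ^ 4)
      = ∫ z, ζ z * (θ n z ^ 2 * φ n (ofComplex z) ^ 4) := by
    intro n
    refine integral_congr_ae (Eventually.of_forall fun z => ?_)
    beta_reduce
    by_cases hz : z ∈ V
    · rw [hA.eφ n z hz]
      rfl
    · rw [hζ0 z hz, zero_mul, zero_mul]
  -- the bound for every even `N`
  have key : ∀ N : ℕ, Even N → 0 < N →
      3 * Berry.rAvg ρ D (fun z => ((s z) univ).toReal ^ 2)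
        - 3 / 2 * ∫ z, ζ z * WN (s (ofComplex z)) N ≤ κ := by
    intro N hNe hN
    refine le_of_forall_pos_le_add fun ε hε => ?_
    have u1 := h1 V σ (hh m) φ' θ (um s) (h8 V σ (hh m) φ' L₃ θ hL W) hJV ζ hζV hζ.nonneg
      N hNe hN ε hε
    rw [e1, sum_int hSem hζ N] at u1
    simp only [e2] at u1
    have := ge_of_tendsto u0 u1
    linarith
  have t1 : Tendsto (fun n : ℕ => 3 * Berry.rAvg ρ D (fun z => ((s z) univ).toReal ^ 2)
      - 3 / 2 * ∫ z, ζ z * WN (s (ofComplex z)) (2 * (n + 1))) atTop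
      (𝓝 (3 * Berry.rAvg ρ D (fun z => ((s z) univ).toReal ^ 2)
        - 3 / 2 * ∫ z, ζ z * (2 * dia (s (ofComplex z))))) := by
    refine Tendsto.const_sub _ (Tendsto.const_mul _ ?_)
    refine (lim_int h2 hSem hζ).comp ?_
    refine tendsto_atTop_mono (fun n => ?_) tendsto_id
    show n ≤ 2 * (n + 1)
    omega
  have t2 := le_of_tendsto' t1 fun n => key (2 * (n + 1)) (even_two_mul _) (by omega)
  have e3 : ∫ z, ζ z * (2 * dia (s (ofComplex z))) = 2 * Berry.rAvg ρ D (fun z => dia (s z)) := by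
    rw [← d2, ← integral_const_mul]
    refine integral_congr_ae (Eventually.of_forall fun z => ?_)
    beta_reduce
    ring
  rw [e3] at t2
  linarith

end

end BSL
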