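import Pool.Agent.BSL.St5
import Pool.Agent.BSL.POSW
import Pool.Agent.BSL.MACW

/-!
# The sharp lower bound for the fourth moments with weights (module POSS)
-/

set_option autoImplicit false

open Complex MeasureTheory Filter Topology Set
open scoped ContDiff

namespace BSL

open QE hiding E jet P
open QJ U3

noncomputable section

namespace POSS

variable {V : Set ℂ} {σ : ℂ → ℝ} {h : ℕ → ℝ} {φ : ℕ → ℂ → ℂ} {θ : ℕ → ℂ → ℝ} {u : ℤ → ℂ → ℂ}
  {ζ g : ℂ → ℝ}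

/-! ### Signs -/

lemma sg_sq (j : ℤ) : (-1 : ℂ) ^ j * (-1 : ℂ) ^ j = 1 := by
  rcases Int.even_or_odd j with hj | hj
  · rw [hj.neg_one_zpow]; norm_num
  · rw [hj.neg_one_zpow]; norm_num

lemma sg_neg (j : ℤ) : (-1 : ℂ) ^ (-j) = (-1 : ℂ) ^ j := by
  rcases Int.even_or_odd j with hj | hj
  · rw [hj.neg_one_zpow, hj.neg.neg_one_zpow]
  · rw [hj.neg_one_zpow, hj.neg.neg_one_zpow]

/-- the coefficient -/
def cw (j k : ℕ) : ℝ := if (j + k) % 2 = 0 then 1 else 1 / 3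

lemma sum_cw (j M : ℕ) : ∑ k ∈ Finset.range (2 * M), cw j k = 4 / 3 * M := by
  induction M with
  | zero => simp
  | succ M ih =>
    rw [show 2 * (M + 1) = 2 * M + 1 + 1 by ring, Finset.sum_range_succ, Finset.sum_range_succ, ih]
    have : cw j (2 * M) + cw j (2 * M + 1) = 4 / 3 := by
      unfold cw
      rcases Nat.even_or_odd j with hj | hj
      · have h0 := Nat.even_iff.1 hj
        rw [if_pos (by omega), if_neg (by omega)]
        norm_num
      · have h0 := Nat.odd_iff.1 hj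
        rw [if_neg (by omega), if_pos (by omega)]
        norm_num
    push_cast
    linarith

lemma pat_cw (j k : ℕ) : (-1 : ℂ) ^ (j : ℤ) * (-1 : ℂ) ^ (k : ℤ) * pat j (-j) k (-k) = (cw j k : ℂ) := by
  unfold pat cw
  by_cases hjk : (j + k) % 2 = 0
  · rw [if_pos (by omega), if_pos hjk, ← zpow_add₀ (by norm_num)]
    have he : Even ((j : ℤ) + k) := by
      rw [Int.even_iff]; omega
    rw [he.neg_one_zpow]
    simp
  · rw [if_neg (by omega), if_neg hjk, ← zpow_add₀ (by norm_num)]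
    have he : Odd ((j : ℤ) + k) := by
      rw [Int.odd_iff]; omega
    rw [he.neg_one_zpow]
    push_cast
    norm_num

/-! ### The second and fourth order integrals -/

lemma normE (L : LocB V σ h φ) (j : ℤ) (n : ℕ) (z : ℂ) :
    ((‖E σ h φ j n z‖ ^ 2 : ℝ) : ℂ) = (-1 : ℂ) ^ j * (E σ h φ j n z * E σ h φ (-j) n z) := by
  have h1 := conj_EB L j n z
  rw [← Complex.normSq_eq_norm_sq, ← mul_conj, h1]
  ring

lemma I4_eq (W : WtR V σ h φ θ) (j k : ℤ) (n : ℕ) :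
    ((∫ z, ζ z * (θ n z ^ 2 * (‖E σ h φ j n z‖ ^ 2 * ‖E σ h φ k n z‖ ^ 2)) : ℝ) : ℂ)
      = (-1 : ℂ) ^ j * (-1 : ℂ) ^ k * E4w σ h φ θ (fun z => (ζ z : ℂ)) n j (-j) k (-k) := by
  have e0 : ((∫ z, ζ z * (θ n z ^ 2 * (‖E σ h φ j n z‖ ^ 2 * ‖E σ h φ k n z‖ ^ 2)) : ℝ) : ℂ)
      = ∫ z, ((ζ z * (θ n z ^ 2 * (‖E σ h φ j n z‖ ^ 2 * ‖E σ h φ k n z‖ ^ 2)) : ℝ) : ℂ) :=
    integral_ofReal.symm
  rw [e0]
  unfold E4w
  rw [← integral_const_mul]
  refine integral_congr_ae (Filter.Eventually.of_forall fun z => ?_)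
  beta_reduce
  rw [ofReal_mul, ofReal_mul, ofReal_mul, normE W.toLocB, normE W.toLocB]
  push_cast
  ring

lemma gam_eq (W : WtR V σ h φ θ) (J : JL V σ h φ u) (hT : Test V (fun z => (ζ z : ℂ)))
    (j k : ℕ) : (-1 : ℂ) ^ (j : ℤ) * (-1 : ℂ) ^ (k : ℤ) *
      Gam u (fun z => (ζ z : ℂ)) j (-j) k (-k)
      = ((QE.UU u ζ 0 + (-1) ^ (j + k) * (QE.UU u ζ ((j : ℤ) + k)
        + QE.UU u ζ ((j : ℤ) - k)) : ℝ) : ℂ) := by
  rw [gam_total W.toLocB J hT _ _ _ _ (by ring), sg_neg]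
  have e1 := sg_sq (j : ℤ)
  have e2 := sg_sq (k : ℤ)
  have e3 : ((j : ℤ) + -(j : ℤ)) = 0 := by ring
  have e4 : ((j : ℤ) + -(k : ℤ)) = (j : ℤ) - k := by ring
  rw [e3, e4]
  push_cast
  rw [pow_add, ← zpow_natCast (-1 : ℂ) j, ← zpow_natCast (-1 : ℂ) k]
  linear_combination ((-1 : ℂ) ^ (k : ℤ) * (-1 : ℂ) ^ (k : ℤ) * (QE.UU u ζ 0 : ℂ)
    + (-1 : ℂ) ^ (j : ℤ) * (-1 : ℂ) ^ (k : ℤ) * ((QE.UU u ζ ((j : ℤ) + k) : ℂ)
      + (QE.UU u ζ ((j : ℤ) - k) : ℂ))) * e1 + (QE.UU u ζ 0 : ℂ) * e2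

/-- the limits of the fourth order integrals -/
lemma lim4 (hP : StmtPatW) (W : WtR V σ h φ θ) (J : JL V σ h φ u)
    (hT : Test V (fun z => (ζ z : ℂ))) (j k : ℕ) :
    Tendsto (fun n => (∫ z, ζ z * (θ n z ^ 2 * (‖E σ h φ j n z‖ ^ 2 * ‖E σ h φ k n z‖ ^ 2)))
      - (QE.UU u ζ 0 + (-1) ^ (j + k) * (QE.UU u ζ ((j : ℤ) + k) + QE.UU u ζ ((j : ℤ) - k))
        + cw j k * ((∫ z, ζ z * (θ n z ^ 2 * (φ n z).re ^ 4)) - 3 * QE.UU u ζ 0))) atTop
      (𝓝 0) := by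
  have h1 := (hP V σ h φ θ u W J _ hT j (-j) k (-k) (by ring)).const_mul
    ((-1 : ℂ) ^ (j : ℤ) * (-1 : ℂ) ^ (k : ℤ))
  rw [mul_zero] at h1
  have h2 := (Complex.continuous_re.tendsto _).comp h1
  rw [Complex.zero_re] at h2
  refine h2.congr fun n => ?_
  have hc' := J.conj_all W.toLocB
  have h5 : Yw σ h φ θ u (fun z => (ζ z : ℂ)) n 0 0 0 0
      = ((((∫ z, ζ z * (θ n z ^ 2 * (φ n z).re ^ 4)) - 3 * QE.UU u ζ 0 : ℝ)) : ℂ) := by
    unfold Yw
    rw [fourth_eq_w W, Gam_zero W.op J.loc hc' hT, ofReal_sub]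
  have h6 : (-1 : ℂ) ^ (j : ℤ) * (-1 : ℂ) ^ (k : ℤ) *
      (Yw σ h φ θ u (fun z => (ζ z : ℂ)) n j (-j) k (-k)
        - pat j (-j) k (-k) * Yw σ h φ θ u (fun z => (ζ z : ℂ)) n 0 0 0 0)
      = (((∫ z, ζ z * (θ n z ^ 2 * (‖E σ h φ j n z‖ ^ 2 * ‖E σ h φ k n z‖ ^ 2)))
      - (QE.UU u ζ 0 + (-1) ^ (j + k) * (QE.UU u ζ ((j : ℤ) + k) + QE.UU u ζ ((j : ℤ) - k))
        + cw j k * ((∫ z, ζ z * (θ n z ^ 2 * (φ n z).re ^ 4)) - 3 * QE.UU u ζ 0)) : ℝ) : ℂ) := by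
    have e1 := I4_eq (ζ := ζ) W j k n
    have e2 := gam_eq W J hT j k
    have e3 := pat_cw j k
    rw [ofReal_sub, e1, h5]
    unfold Yw
    rw [ofReal_add, ofReal_mul (cw j k), ← e2, ← e3]
    ring
  show ((-1 : ℂ) ^ (j : ℤ) * (-1 : ℂ) ^ (k : ℤ) *
      (Yw σ h φ θ u (fun z => (ζ z : ℂ)) n j (-j) k (-k)
        - pat j (-j) k (-k) * Yw σ h φ θ u (fun z => (ζ z : ℂ)) n 0 0 0 0)).re = _
  rw [h6, ofReal_re]

lemma test_real {χ : ℂ → ℝ} (hχ : Test V (fun z => (χ z : ℂ))) : Continuous χ := by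
  have h1 := Complex.continuous_re.comp hχ.smooth.continuous
  exact h1

/-- the limits of the second order integrals -/
lemma lim2 (W : WtR V σ h φ θ) (J : JL V σ h φ u) {χ : ℂ → ℝ}
    (hχ : Test V (fun z => (χ z : ℂ))) (j : ℕ) :
    Tendsto (fun n => ∫ z, χ z * (θ n z ^ 2 * ‖E σ h φ j n z‖ ^ 2)) atTop
      (𝓝 (∫ z, χ z * (u 0 z).re)) := by
  have L := W.toLocB
  -- without the weights
  have t1 : Tendsto (fun n => ∫ z, χ z * ‖E σ h φ j n z‖ ^ 2) atTop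
      (𝓝 (∫ z, χ z * (u 0 z).re)) := by
    have h1 := (J.lim j (-j) _ hχ).const_mul ((-1 : ℂ) ^ (j : ℤ))
    have h2 := (Complex.continuous_re.tendsto _).comp h1
    have e1 : ((-1 : ℂ) ^ (j : ℤ) * ∫ z, (χ z : ℂ) * ((-1) ^ (-(j : ℤ)) * u ((j : ℤ) + -j) z)).re
        = ∫ z, χ z * (u 0 z).re := by
      rw [← integral_const_mul]
      have e2 : ∫ z, (-1 : ℂ) ^ (j : ℤ) * ((χ z : ℂ) * ((-1) ^ (-(j : ℤ)) * u ((j : ℤ) + -j) z))
          = ∫ z, (χ z : ℂ) * u 0 z := by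
        refine integral_congr_ae (Filter.Eventually.of_forall fun z => ?_)
        beta_reduce
        rw [sg_neg, add_neg_cancel]
        linear_combination ((χ z : ℂ) * u 0 z) * sg_sq (j : ℤ)
      rw [e2]
      have hi : Integrable (fun z => (χ z : ℂ) * u 0 z) := hχ.int_LocL2 (J.loc 0)
      have e3 : (∫ z, (χ z : ℂ) * u 0 z).re = ∫ z, ((χ z : ℂ) * u 0 z).re := (integral_re hi).symm
      rw [e3]
      refine integral_congr_ae (Filter.Eventually.of_forall fun z => ?_)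
      beta_reduce
      rw [re_ofReal_mul]
    rw [e1] at h2
    refine h2.congr fun n => ?_
    show ((-1 : ℂ) ^ (j : ℤ) * ∫ z, (χ z : ℂ) * (E σ h φ j n z * E σ h φ (-j) n z)).re = _
    have e4 : (-1 : ℂ) ^ (j : ℤ) * ∫ z, (χ z : ℂ) * (E σ h φ j n z * E σ h φ (-j) n z)
        = ((∫ z, χ z * ‖E σ h φ j n z‖ ^ 2 : ℝ) : ℂ) := by
      rw [← integral_const_mul]
      have e0 : ((∫ z, χ z * ‖E σ h φ j n z‖ ^ 2 : ℝ) : ℂ)
          = ∫ z, ((χ z * ‖E σ h φ j n z‖ ^ 2 : ℝ) : ℂ) := integral_ofReal.symm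
      rw [e0]
      refine integral_congr_ae (Filter.Eventually.of_forall fun z => ?_)
      beta_reduce
      rw [ofReal_mul, normE L]
      ring
    rw [e4, ofReal_re]
  -- the weights
  have dE := fun i : ℤ => (stmtJetC V σ h φ L i).1
  have hD := (dE j).mul W.op (dE (-j))
  have t2 := (MACW.cut W hD.smooth hD.bq hχ).const_mul 2
  rw [mul_zero] at t2
  have hcE : ∀ n, Continuous fun z => ‖E σ h φ j n z‖ ^ 2 := fun n =>
    (smE L j n).continuous.norm.pow 2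
  have hcθ : ∀ n, Continuous (θ n) := fun n => (W.smθ n).continuous
  have hcχ := test_real hχ
  have hs : HasCompactSupport χ := by
    have h1 := hχ.supp
    unfold HasCompactSupport at h1 ⊢
    rwa [Test.tsupport_eq] at h1
  have t3 : Tendsto (fun n => (∫ z, χ z * ‖E σ h φ j n z‖ ^ 2)
      - ∫ z, χ z * (θ n z ^ 2 * ‖E σ h φ j n z‖ ^ 2)) atTop (𝓝 0) := by
    refine squeeze_zero_norm (fun n => ?_) t2
    have i1 : Integrable (fun z => χ z * ‖E σ h φ j n z‖ ^ 2) :=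
      (hcχ.mul (hcE n)).integrable_of_hasCompactSupport hs.mul_right
    have i2 : Integrable (fun z => χ z * (θ n z ^ 2 * ‖E σ h φ j n z‖ ^ 2)) :=
      (hcχ.mul (((hcθ n).pow 2).mul (hcE n))).integrable_of_hasCompactSupport hs.mul_right
    rw [← integral_sub i1 i2, ← integral_const_mul]
    refine norm_integral_le_of_norm_le ?_ (Filter.Eventually.of_forall fun z => ?_)
    · refine Integrable.const_mul ?_ 2
      refine Continuous.integrable_of_hasCompactSupport ?_ ?_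
      · exact (continuous_const.sub (hcθ n)).mul
          (hχ.smooth.continuous.mul (hD.smooth n).continuous).norm
      · exact HasCompactSupport.mul_left (hχ.supp.mul_right (f' := fun z =>
          E σ h φ j n z * E σ h φ (-j) n z)).norm
    · have e1 : ‖(χ z : ℂ) * (E σ h φ j n z * E σ h φ (-j) n z)‖ = |χ z| * ‖E σ h φ j n z‖ ^ 2 := by
        have h1 : ‖E σ h φ j n z * E σ h φ (-j) n z‖ = ‖E σ h φ j n z‖ ^ 2 := by
          have h2 := congrArg norm (normE L j n z)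
          rw [norm_mul, Complex.norm_real, norm_zpow, norm_neg, norm_one, one_zpow, one_mul,
            Real.norm_of_nonneg (by positivity)] at h2
          exact h2.symm
        rw [norm_mul, h1, Complex.norm_real, Real.norm_eq_abs]
      rw [e1, Real.norm_eq_abs]
      have e2 : χ z * ‖E σ h φ j n z‖ ^ 2 - χ z * (θ n z ^ 2 * ‖E σ h φ j n z‖ ^ 2)
          = (χ z * ‖E σ h φ j n z‖ ^ 2) * (1 - θ n z ^ 2) := by ring
      have h3 := W.nonneg n z
      have h4 := W.le_one n z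
      have h5 : 0 ≤ 1 - θ n z ^ 2 := by nlinarith
      have h6 : 1 - θ n z ^ 2 ≤ 2 * (1 - θ n z) := by nlinarith
      rw [e2, abs_mul, abs_mul, abs_of_nonneg h5, abs_of_nonneg (sq_nonneg ‖E σ h φ j n z‖)]
      calc |χ z| * ‖E σ h φ j n z‖ ^ 2 * (1 - θ n z ^ 2)
          ≤ |χ z| * ‖E σ h φ j n z‖ ^ 2 * (2 * (1 - θ n z)) :=
            mul_le_mul_of_nonneg_left h6 (by positivity)
        _ = 2 * ((1 - θ n z) * (|χ z| * ‖E σ h φ j n z‖ ^ 2)) := by ring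
  have t4 := t1.sub t3
  rw [sub_zero] at t4
  refine t4.congr fun n => ?_
  ring

/-! ### Positivity -/

/-- the expansion of the square -/
lemma sq_nonneg_exp (W : WtR V σ h φ θ) (hT : Test V (fun z => (ζ z : ℂ)))
    (hζ0 : ∀ z, 0 ≤ ζ z) (hg : Continuous g) (N n : ℕ) :
    0 ≤ (∑ j ∈ Finset.range N, ∑ k ∈ Finset.range N,
        ∫ z, ζ z * (θ n z ^ 2 * (‖E σ h φ j n z‖ ^ 2 * ‖E σ h φ k n z‖ ^ 2)))
      - 2 * N * (∑ j ∈ Finset.range N, ∫ z, (ζ z * g z) * (θ n z ^ 2 * ‖E σ h φ j n z‖ ^ 2))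
      + N ^ 2 * ∫ z, ζ z * g z ^ 2 := by
  have L := W.toLocB
  have hcE : ∀ j : ℕ, Continuous fun z => ‖E σ h φ j n z‖ ^ 2 := fun j =>
    (smE L j n).continuous.norm.pow 2
  have hcθ : Continuous (θ n) := (W.smθ n).continuous
  have hcζ := test_real hT
  have hs : HasCompactSupport ζ := by
    have h1 := hT.supp
    unfold HasCompactSupport at h1 ⊢
    rwa [Test.tsupport_eq] at h1
  have i4 : ∀ j k : ℕ, Integrable (fun z => ζ z * (θ n z ^ 2 * (‖E σ h φ j n z‖ ^ 2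
      * ‖E σ h φ k n z‖ ^ 2))) := fun j k =>
    (hcζ.mul ((hcθ.pow 2).mul ((hcE j).mul (hcE k)))).integrable_of_hasCompactSupport hs.mul_right
  have i2 : ∀ j : ℕ, Integrable (fun z => (ζ z * g z) * (θ n z ^ 2 * ‖E σ h φ j n z‖ ^ 2)) :=
    fun j => ((hcζ.mul hg).mul ((hcθ.pow 2).mul (hcE j))).integrable_of_hasCompactSupport
      hs.mul_right.mul_right
  have i0 : Integrable (fun z => ζ z * g z ^ 2) :=
    (hcζ.mul (hg.pow 2)).integrable_of_hasCompactSupport hs.mul_right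
  have e4 : (∑ j ∈ Finset.range N, ∑ k ∈ Finset.range N,
        ∫ z, ζ z * (θ n z ^ 2 * (‖E σ h φ j n z‖ ^ 2 * ‖E σ h φ k n z‖ ^ 2)))
      = ∫ z, ∑ j ∈ Finset.range N, ∑ k ∈ Finset.range N,
        ζ z * (θ n z ^ 2 * (‖E σ h φ j n z‖ ^ 2 * ‖E σ h φ k n z‖ ^ 2)) := by
    rw [integral_finsetSum _ fun j _ => integrable_finsetSum _ fun k _ => i4 j k]
    refine Finset.sum_congr rfl fun j _ => ?_
    rw [integral_finsetSum _ fun k _ => i4 j k]
  have e2 : (∑ j ∈ Finset.range N, ∫ z, (ζ z * g z) * (θ n z ^ 2 * ‖E σ h φ j n z‖ ^ 2))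
      = ∫ z, ∑ j ∈ Finset.range N, (ζ z * g z) * (θ n z ^ 2 * ‖E σ h φ j n z‖ ^ 2) := by
    rw [integral_finsetSum _ fun j _ => i2 j]
  have I4 : Integrable (fun z => ∑ j ∈ Finset.range N, ∑ k ∈ Finset.range N,
      ζ z * (θ n z ^ 2 * (‖E σ h φ j n z‖ ^ 2 * ‖E σ h φ k n z‖ ^ 2))) :=
    integrable_finsetSum _ fun j _ => integrable_finsetSum _ fun k _ => i4 j k
  have I2 : Integrable (fun z => ∑ j ∈ Finset.range N,
      (ζ z * g z) * (θ n z ^ 2 * ‖E σ h φ j n z‖ ^ 2)) :=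
    integrable_finsetSum _ fun j _ => i2 j
  have I3 : Integrable (fun z => (∑ j ∈ Finset.range N, ∑ k ∈ Finset.range N,
      ζ z * (θ n z ^ 2 * (‖E σ h φ j n z‖ ^ 2 * ‖E σ h φ k n z‖ ^ 2)))
      - 2 * (N : ℝ) * ∑ j ∈ Finset.range N,
        (ζ z * g z) * (θ n z ^ 2 * ‖E σ h φ j n z‖ ^ 2)) := I4.sub (I2.const_mul _)
  rw [e4, e2, ← integral_const_mul, ← integral_const_mul,
    ← integral_sub I4 (I2.const_mul _), ← integral_add I3 (i0.const_mul _)]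
  refine integral_nonneg fun z => ?_
  show (0 : ℝ) ≤ (∑ j ∈ Finset.range N, ∑ k ∈ Finset.range N,
      ζ z * (θ n z ^ 2 * (‖E σ h φ j n z‖ ^ 2 * ‖E σ h φ k n z‖ ^ 2)))
      - 2 * N * (∑ j ∈ Finset.range N, (ζ z * g z) * (θ n z ^ 2 * ‖E σ h φ j n z‖ ^ 2))
      + N ^ 2 * (ζ z * g z ^ 2)
  set a : ℝ := ∑ j ∈ Finset.range N, ‖E σ h φ j n z‖ ^ 2 with ha
  have f4 : (∑ j ∈ Finset.range N, ∑ k ∈ Finset.range N,
      ζ z * (θ n z ^ 2 * (‖E σ h φ j n z‖ ^ 2 * ‖E σ h φ k n z‖ ^ 2)))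
      = ζ z * (θ n z ^ 2 * a ^ 2) := by
    simp only [← Finset.mul_sum]
    rw [← Finset.sum_mul, ← ha]
    ring
  have f2 : (∑ j ∈ Finset.range N, (ζ z * g z) * (θ n z ^ 2 * ‖E σ h φ j n z‖ ^ 2))
      = ζ z * g z * (θ n z ^ 2 * a) := by
    rw [← Finset.mul_sum, ← Finset.mul_sum]
  rw [f4, f2]
  have h3 := W.nonneg n z
  have h4 := W.le_one n z
  have h5 : 0 ≤ 1 - θ n z ^ 2 := by nlinarith
  have h6 : 0 ≤ ζ z := hζ0 z
  have e : ζ z * (θ n z ^ 2 * a ^ 2) - 2 * N * (ζ z * g z * (θ n z ^ 2 * a))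
      + N ^ 2 * (ζ z * g z ^ 2)
      = ζ z * θ n z ^ 2 * (a - N * g z) ^ 2 + ζ z * (1 - θ n z ^ 2) * (N * g z) ^ 2 := by ring
  rw [e]
  positivity

/-- approximation of the density by a test function -/
lemma exists_g (W : WtR V σ h φ θ) (J : JL V σ h φ u) (hT : Test V (fun z => (ζ z : ℂ)))
    (hζ0 : ∀ z, 0 ≤ ζ z) {δ : ℝ} (hδ : 0 < δ) :
    ∃ g : ℂ → ℝ, Test V (fun z => (g z : ℂ)) ∧ ∫ z, ζ z * (g z - (u 0 z).re) ^ 2 ≤ δ := by
  obtain ⟨B, hB⟩ := hT.smooth.continuous.bounded_above_of_compact_support hT.supp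
  have hB0 : 0 ≤ B := (norm_nonneg _).trans (hB 0)
  have hK : IsCompact (tsupport fun z => (ζ z : ℂ)) := hT.supp
  set K := tsupport fun z => (ζ z : ℂ) with hKdef
  have hL : MemLp (K.indicator (u 0)) 2 (volume : Measure ℂ) :=
    (memLp_indicator_iff_restrict (isClosed_tsupport _).measurableSet).2 (J.loc 0 K hK hT.sub)
  obtain ⟨L', -, -, -, hη⟩ := exists_test_approx W.op hL hK hT.sub
    (fun z hz => indicator_of_notMem hz _)
  obtain ⟨η, hη1, -, hη2⟩ := hη (δ / (B + 1)) (by positivity)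
  refine ⟨fun z => (η z).re, hη1.re, ?_⟩
  have hd : MemLp (fun z => K.indicator (u 0) z - η z) 2 (volume : Measure ℂ) :=
    hL.sub (hη1.smooth.continuous.memLp_of_hasCompactSupport hη1.supp)
  have hle : ∫ z, ζ z * ((η z).re - (u 0 z).re) ^ 2
      ≤ ∫ z, B * ‖K.indicator (u 0) z - η z‖ ^ 2 := by
    refine integral_mono_of_nonneg (Filter.Eventually.of_forall fun z =>
      mul_nonneg (hζ0 z) (sq_nonneg _)) ((MemLp.sqInt hd).const_mul B)
      (Filter.Eventually.of_forall fun z => ?_)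
    beta_reduce
    by_cases hz : z ∈ K
    · rw [indicator_of_mem hz]
      have h1 : ζ z ≤ B := by
        have := hB z
        rw [Complex.norm_real, Real.norm_eq_abs] at this
        exact (le_abs_self _).trans this
      have h2 : ((η z).re - (u 0 z).re) ^ 2 ≤ ‖u 0 z - η z‖ ^ 2 := by
        have h3 := Complex.abs_re_le_norm (u 0 z - η z)
        rw [Complex.sub_re] at h3
        have h4 : ((η z).re - (u 0 z).re) ^ 2 = |(u 0 z).re - (η z).re| ^ 2 := by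
          rw [sq_abs]; ring
        rw [h4]
        exact pow_le_pow_left₀ (abs_nonneg _) h3 2
      exact mul_le_mul h1 h2 (sq_nonneg _) hB0
    · have h0 : ζ z = 0 := by
        have : (ζ z : ℂ) = 0 := image_eq_zero_of_notMem_tsupport (f := fun z => (ζ z : ℂ)) hz
        exact_mod_cast this
      rw [h0, zero_mul]
      positivity
  refine hle.trans ?_
  rw [integral_const_mul]
  calc B * ∫ z, ‖K.indicator (u 0) z - η z‖ ^ 2 ≤ B * (δ / (B + 1)) := by gcongr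
    _ ≤ δ := by
      rw [mul_div_assoc', div_le_iff₀ (by positivity)]
      nlinarith

end POSS

open POSS in
/-- **POSS**: the sharp lower bound for the fourth moments with weights -/
theorem t_POSS (hP : StmtPatW) : StmtPosS := by
  intro V σ h φ θ u W J ζ hT hζ0 N hNe hN0 ε hε
  have L := W.toLocB
  obtain ⟨M, hM⟩ := hNe
  have hM2 : N = 2 * M := by omega
  have hNr : (0 : ℝ) < N := by exact_mod_cast hN0
  obtain ⟨g, hg, hgδ⟩ := exists_g W J hT hζ0 (δ := ε / 3) (by positivity)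
  have hcg := test_real hg
  have hcζ := test_real hT
  -- the test function `ζ g`
  have hζg : Test V (fun z => ((ζ z * g z : ℝ) : ℂ)) := by
    have h1 := test_mul hT hg.smooth
    have e : (fun z => ((ζ z * g z : ℝ) : ℂ)) = fun z => (ζ z : ℂ) * (g z : ℂ) := by
      funext z; push_cast; rfl
    rw [e]
    exact h1
  -- the limits
  set S : ℝ := ∑ j ∈ Finset.range N, ∑ k ∈ Finset.range N,
    (QE.UU u ζ ((j : ℤ) + k) + QE.UU u ζ ((j : ℤ) - k)) with hS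
  have l4 := tendsto_finsetSum (Finset.range N) fun j (_ : j ∈ Finset.range N) =>
    tendsto_finsetSum (Finset.range N) fun k (_ : k ∈ Finset.range N) => lim4 hP W J hT j k
  have l2 := tendsto_finsetSum (Finset.range N) fun j (_ : j ∈ Finset.range N) => lim2 W J hζg j
  simp only [Finset.sum_const_zero] at l4
  rw [Finset.sum_const, Finset.card_range, nsmul_eq_mul] at l2
  set U1 : ℝ := ∫ z, (ζ z * g z) * (u 0 z).re with hU1
  have l5 := l4.sub ((l2.sub_const ((N : ℝ) * U1)).const_mul (2 * (N : ℝ)))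
  rw [sub_self, mul_zero, sub_zero] at l5
  have hev := (Metric.tendsto_nhds.mp l5) (N ^ 2 * (ε / 3)) (by positivity)
  filter_upwards [hev] with n hn
  rw [dist_zero_right, Real.norm_eq_abs] at hn
  have h0 := (le_abs_self _).trans hn.le
  have hpos := sq_nonneg_exp W hT hζ0 hcg N n
  set F4 : ℝ := ∫ z, ζ z * (θ n z ^ 2 * (φ n z).re ^ 4) with hF4
  set Q : ℝ := QE.UU u ζ 0 with hQ
  set A : ℝ := ∑ j ∈ Finset.range N, ∑ k ∈ Finset.range N,
    ∫ z, ζ z * (θ n z ^ 2 * (‖E σ h φ j n z‖ ^ 2 * ‖E σ h φ k n z‖ ^ 2)) with hA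
  set B : ℝ := ∑ j ∈ Finset.range N, ∫ z, (ζ z * g z) * (θ n z ^ 2 * ‖E σ h φ j n z‖ ^ 2) with hB
  set G2 : ℝ := ∫ z, ζ z * g z ^ 2 with hG2
  -- the sum of the main terms
  have hmain : ∑ j ∈ Finset.range N, ∑ k ∈ Finset.range N,
      (Q + (-1) ^ (j + k) * (QE.UU u ζ ((j : ℤ) + k) + QE.UU u ζ ((j : ℤ) - k))
        + cw j k * (F4 - 3 * Q)) ≤ N ^ 2 * Q + S + 2 / 3 * N ^ 2 * (F4 - 3 * Q) := by
    have e1 : ∑ j ∈ Finset.range N, ∑ k ∈ Finset.range N,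
      (Q + (-1) ^ (j + k) * (QE.UU u ζ ((j : ℤ) + k) + QE.UU u ζ ((j : ℤ) - k))
        + cw j k * (F4 - 3 * Q)) = (∑ j ∈ Finset.range N, ∑ k ∈ Finset.range N,
      (Q + (-1) ^ (j + k) * (QE.UU u ζ ((j : ℤ) + k) + QE.UU u ζ ((j : ℤ) - k))))
        + (∑ j ∈ Finset.range N, ∑ k ∈ Finset.range N, cw j k) * (F4 - 3 * Q) := by
      simp only [Finset.sum_add_distrib, Finset.sum_mul]
    have e2 : (∑ j ∈ Finset.range N, ∑ k ∈ Finset.range N, cw j k) = 2 / 3 * (N : ℝ) ^ 2 := by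
      rw [hM2]
      simp only [sum_cw, Finset.sum_const, Finset.card_range, nsmul_eq_mul]
      push_cast
      ring
    have e3 : (∑ j ∈ Finset.range N, ∑ k ∈ Finset.range N,
      (Q + (-1) ^ (j + k) * (QE.UU u ζ ((j : ℤ) + k) + QE.UU u ζ ((j : ℤ) - k))))
        ≤ ∑ j ∈ Finset.range N, ∑ k ∈ Finset.range N,
      (Q + (QE.UU u ζ ((j : ℤ) + k) + QE.UU u ζ ((j : ℤ) - k))) := by
      refine Finset.sum_le_sum fun j _ => Finset.sum_le_sum fun k _ => ?_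
      have h1 : 0 ≤ QE.UU u ζ ((j : ℤ) + k) + QE.UU u ζ ((j : ℤ) - k) :=
        add_nonneg (QE.UU_nonneg hζ0 _) (QE.UU_nonneg hζ0 _)
      have h2 : ((-1 : ℝ)) ^ (j + k) ≤ 1 := by
        rcases Nat.even_or_odd (j + k) with h | h
        · rw [h.neg_one_pow]
        · rw [h.neg_one_pow]; norm_num
      nlinarith
    have e4 : ∑ j ∈ Finset.range N, ∑ k ∈ Finset.range N,
      (Q + (QE.UU u ζ ((j : ℤ) + k) + QE.UU u ζ ((j : ℤ) - k))) = N ^ 2 * Q + S := by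
      rw [hS]
      simp only [Finset.sum_add_distrib, Finset.sum_const, Finset.card_range, nsmul_eq_mul]
      ring
    rw [e1, e2]
    linarith
  -- the error term
  have hsplit : ∑ j ∈ Finset.range N, ∑ k ∈ Finset.range N,
      ((∫ z, ζ z * (θ n z ^ 2 * (‖E σ h φ j n z‖ ^ 2 * ‖E σ h φ k n z‖ ^ 2)))
      - (Q + (-1) ^ (j + k) * (QE.UU u ζ ((j : ℤ) + k) + QE.UU u ζ ((j : ℤ) - k))
        + cw j k * (F4 - 3 * Q))) = A - ∑ j ∈ Finset.range N, ∑ k ∈ Finset.range N,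
      (Q + (-1) ^ (j + k) * (QE.UU u ζ ((j : ℤ) + k) + QE.UU u ζ ((j : ℤ) - k))
        + cw j k * (F4 - 3 * Q)) := by
    rw [hA]
    simp only [Finset.sum_sub_distrib]
  rw [hsplit] at h0
  -- the completion of the square
  have hsq : G2 - 2 * U1 + Q ≤ ε / 3 := by
    have hc' := J.conj_all L
    have hs : HasCompactSupport ζ := by
      have h1 := hT.supp
      unfold HasCompactSupport at h1 ⊢
      rwa [Test.tsupport_eq] at h1
    have i0 : Integrable (fun z => ζ z * g z ^ 2) :=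
      (hcζ.mul (hcg.pow 2)).integrable_of_hasCompactSupport hs.mul_right
    have i1 : Integrable (fun z => (ζ z * g z) * (u 0 z).re) := by
      have h1 : Integrable (fun z => ((ζ z * g z : ℝ) : ℂ) * u 0 z) := hζg.int_LocL2 (J.loc 0)
      have h2 := h1.re
      refine h2.congr (Filter.Eventually.of_forall fun z => ?_)
      show (((ζ z * g z : ℝ) : ℂ) * u 0 z).re = _
      rw [re_ofReal_mul]
    have i2 : Integrable (fun z => ζ z * ‖u 0 z‖ ^ 2) := hT.int_sq (J.loc 0)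
    have e1 : G2 - 2 * U1 + Q = ∫ z, ζ z * (g z - (u 0 z).re) ^ 2 := by
      rw [hG2, hU1, hQ]
      unfold QE.UU
      have i3 : Integrable (fun z => ζ z * g z ^ 2 - 2 * ((ζ z * g z) * (u 0 z).re)) :=
        i0.sub (i1.const_mul 2)
      rw [← integral_const_mul, ← integral_sub i0 (i1.const_mul 2), ← integral_add i3 i2]
      have hre : ∀ᵐ z ∂((volume : Measure ℂ).restrict V), ‖u 0 z‖ ^ 2 = (u 0 z).re ^ 2 := by
        filter_upwards [hc'] with z hz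
        have h1 := hz 0
        rw [neg_zero] at h1
        have h2 : (((u 0 z).re : ℝ) : ℂ) = u 0 z := conj_eq_iff_re.1 h1.symm
        rw [← h2, Complex.norm_real, Real.norm_eq_abs, sq_abs, ofReal_re]
      rw [ae_restrict_iff' W.op.measurableSet] at hre
      refine integral_congr_ae ?_
      filter_upwards [hre] with z hz
      show ζ z * g z ^ 2 - 2 * ((ζ z * g z) * (u 0 z).re) + ζ z * ‖u 0 z‖ ^ 2
        = ζ z * (g z - (u 0 z).re) ^ 2
      by_cases hzV : z ∈ V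
      · rw [hz hzV]
        ring
      · rw [off_real hT hzV]
        ring
    rw [e1]
    exact hgδ
  have hgoal : 3 * Q - 3 / 2 * (1 / (N : ℝ) ^ 2 * S) - ε ≤ F4 := by
    have hN2 : (0 : ℝ) < (N : ℝ) ^ 2 := by positivity
    have h7 : 0 ≤ N ^ 2 * Q + S + 2 / 3 * N ^ 2 * (F4 - 3 * Q) + N ^ 2 * (ε / 3)
        - 2 * N * (N * U1) + N ^ 2 * G2 := by
      nlinarith [hpos, h0, hmain]
    have h8 : 0 ≤ (N : ℝ) ^ 2 * (Q + 1 / (N : ℝ) ^ 2 * S + 2 / 3 * (F4 - 3 * Q) + ε / 3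
        - 2 * U1 + G2) := by
      have e : (N : ℝ) ^ 2 * (Q + 1 / (N : ℝ) ^ 2 * S + 2 / 3 * (F4 - 3 * Q) + ε / 3
        - 2 * U1 + G2) = N ^ 2 * Q + S + 2 / 3 * N ^ 2 * (F4 - 3 * Q) + N ^ 2 * (ε / 3)
        - 2 * N * (N * U1) + N ^ 2 * G2 := by
        field_simp
      rw [e]
      exact h7
    have h9 := nonneg_of_mul_nonneg_right h8 hN2
    linarith
  exact hgoal

end

end BSL
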