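import Pool.Agent.BSL.St5
import Pool.Agent.ONE.Avg
import Pool.Agent.ONE.Fin

/-!
UNV: one circle, no sign of the curvature. If the covariance function of the directional measures
is rotation invariant on one circle `|x| = |a|`, `a ≠ 0`, the directional measures are uniform (up
to odd moments).
-/

open Complex MeasureTheory Filter Topology Set
open UpperHalfPlane hiding I
open scoped ContDiff MatrixGroups ProbabilityTheory

namespace BSL

open QE QE.NC QJ U3 NFP

noncomputable section

namespace UNV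

variable {Γ : Subgroup SL(2, ℝ)} {D : Set ℍ} {ρ : ℍ → ℝ} {s : ProbabilityTheory.Kernel ℍ S1}
  {κ : ℝ}

/-- moments which vanish on the fundamental domain vanish on the half plane -/
lemma ae_all [Countable Γ] (H : DirE Γ D ρ s κ) (k : ℤ)
    (h : ∀ᵐ z ∂((volume : Measure ℍ).restrict D), cof (s z) k = 0) : ∀ᵐ z : ℍ, cof (s z) k = 0 := by
  refine ONE.ae_of_D H.fd (fun γ hγ => ?_) ((ae_restrict_iff' H.mD).1 h)
  have h1 := QE.FM.ae_H (H.fam.equiv γ hγ k)
  filter_upwards [h1] with z hz h2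
  rw [mob_coe, ofComplex_apply, ofComplex_apply, h2, mul_zero] at hz
  exact hz

/-- the moments of index `2 n`, `n ≥ 1`, vanish if infinitely many of them vanish -/
lemma all_pos [Countable Γ] (H : DirE Γ D ρ s κ)
    (hinf : ∀ N : ℕ, ∃ k : ℕ, N ≤ k ∧
      ∀ᵐ z ∂((volume : Measure ℍ).restrict D), cof (s z) ((2 * k : ℕ) : ℤ) = 0) :
    ∀ n : ℕ, 1 ≤ n → ∀ᵐ z ∂((volume : Measure ℂ).restrict UH),
      cof (s (ofComplex z)) ((2 * n : ℕ) : ℤ) = 0 := by
  intro n hn
  obtain ⟨K, hK, hKz⟩ := hinf n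
  have h0 : ∀ᵐ z ∂((volume : Measure ℂ).restrict UH),
      cof (s (ofComplex z)) ((2 * K : ℕ) : ℤ) = 0 := by
    refine ae_UH ?_
    filter_upwards [ae_all H _ hKz] with z hz
    rw [ofComplex_apply]
    exact hz
  have h1 : ∀ d : ℕ, n + d ≤ K → d ≤ K - n → ∀ᵐ z ∂((volume : Measure ℂ).restrict UH),
      cof (s (ofComplex z)) ((2 * (K - d) : ℕ) : ℤ) = 0 := by
    intro d
    induction d with
    | zero => intro _ _; exact h0
    | succ d ih =>
      intro hd1 hd2
      have h2 := ih (by omega) (by omega)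
      refine ONE.down (u := fun k z => cof (s (ofComplex z)) k) H.fac H.fam.loc
        H.fam.transport H.fam.equiv (l := 2 * (K - (d + 1))) (by omega) ?_
      have e : ((2 * (K - (d + 1)) : ℕ) : ℤ) + 2 = ((2 * (K - d) : ℕ) : ℤ) := by omega
      rw [e]
      exact h2
  have h3 := h1 (K - n) (by omega) le_rfl
  have e : K - (K - n) = n := by omega
  rwa [e] at h3

/-- all even moments of index different from zero -/
lemma all_even (H1 : ∀ n : ℕ, 1 ≤ n → ∀ᵐ z ∂((volume : Measure ℂ).restrict UH),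
      cof (s (ofComplex z)) ((2 * n : ℕ) : ℤ) = 0) :
    ∀ᵐ z : ℍ, ∀ k : ℤ, Even k → k ≠ 0 → cof (s z) k = 0 := by
  filter_upwards [ae_all_iff.2 fun n : ℕ => ((ae_all_iff.2 fun hn : 1 ≤ n =>
    QE.FM.ae_H (H1 n hn)))] with z hz k hk hk0
  obtain ⟨m, -, hm1, hm2⟩ := ONE.cof_nat (s z) hk
  refine hm2 ?_
  have := hz m (hm1 hk0)
  rwa [ofComplex_apply] at this

/-- a holomorphic function on the half plane with real values is constant -/
lemma real_const {f : ℂ → ℂ} (hf : DifferentiableOn ℂ f UH) (hr : ∀ z ∈ UH, (f z).im = 0) :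
    ∃ c : ℂ, ∀ z ∈ UH, f z = c := by
  have hconv : Convex ℝ UH := by
    have : UH = (fun z : ℂ => z.im) ⁻¹' Set.Ioi 0 := rfl
    rw [this]
    exact (convex_Ioi 0).is_linear_preimage Complex.imLm.isLinear
  rcases (hf.analyticOnNhd isOpen_UH).is_constant_or_isOpen hconv.isPreconnected with h | h
  · exact h
  exfalso
  have h1 := h UH Subset.rfl isOpen_UH
  have hI : Complex.I ∈ UH := by
    show 0 < Complex.I.im
    simp
  have h2 : f Complex.I ∈ f '' UH := ⟨_, hI, rfl⟩
  obtain ⟨ε, hε, hb⟩ := Metric.isOpen_iff.1 h1 _ h2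
  have h3 : f Complex.I + ((ε / 2 : ℝ) : ℂ) * Complex.I ∈ Metric.ball (f Complex.I) ε := by
    rw [Metric.mem_ball, dist_eq_norm, add_sub_cancel_left, norm_mul, Complex.norm_I, mul_one,
      Complex.norm_real, Real.norm_of_nonneg (by positivity)]
    linarith
  obtain ⟨w, hw, hwe⟩ := hb h3
  have h4 := hr w hw
  rw [hwe, Complex.add_im, hr _ hI] at h4
  simp at h4
  exact hε.ne' h4

/-- if the moment of index two vanishes, the mass is one -/
lemma mass_one [Countable Γ] (H : DirE Γ D ρ s κ)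
    (h2 : ∀ᵐ z ∂((volume : Measure ℂ).restrict UH), cof (s (ofComplex z)) 2 = 0) :
    ∀ᵐ z : ℍ, ((s z) univ).toReal = 1 := by
  obtain ⟨f, hf, hfu⟩ := ONE.exists_hol (u := fun k z => cof (s (ofComplex z)) k) (l := 0)
    H.fac.smooth H.fam.loc H.fam.transport (by
      filter_upwards [h2] with z hz
      simpa using hz)
  have hfu' : ∀ᵐ z ∂((volume : Measure ℂ).restrict UH),
      f z = (((s (ofComplex z)) univ).toReal : ℂ) := by
    filter_upwards [hfu] with z hz
    rw [← hz]
    have hfin := H.fin (ofComplex z)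
    have e : cof (s (ofComplex z)) ((0 : ℕ) : ℤ) = (((s (ofComplex z)) univ).toReal : ℂ) := by
      unfold cof
      simp [Measure.real]
    rw [e, pow_zero, one_mul, Complex.conj_ofReal]
  -- real values
  have him : ∀ z ∈ UH, (f z).im = 0 := by
    have h3 : ∀ᵐ z ∂((volume : Measure ℂ).restrict UH), (f z).im = 0 := by
      filter_upwards [hfu'] with z hz
      rw [hz, Complex.ofReal_im]
    have h4 := Measure.eqOn_open_of_ae_eq (f := fun z => (f z).im) (g := fun _ => (0 : ℝ)) h3
      isOpen_UH (Complex.continuous_im.comp_continuousOn hf.continuousOn) continuousOn_const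
    exact fun z hz => h4 hz
  obtain ⟨c, hc⟩ := real_const hf him
  have hc1 : ∀ᵐ z : ℍ, ((s z) univ).toReal = c.re := by
    filter_upwards [QE.FM.ae_H hfu'] with z hz
    rw [hc _ z.im_pos, ofComplex_apply] at hz
    rw [hz, Complex.ofReal_re]
  -- the constant
  have hg : Berry.Geo Γ ρ D :=
    geo_of H.mD H.fd H.fac.cpt (continuous_of_smooth H.fac.smooth) H.fac.inv
  have hP := ONE.prob_nu hg
  have e1 : Berry.rAvg ρ D (fun z => ((s z) univ).toReal) = c.re := by
    unfold Berry.rAvg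
    have h5 : ∀ᵐ z ∂(ProbabilityTheory.cond (Berry.area ρ) D), ((s z) univ).toReal = c.re := by
      unfold ProbabilityTheory.cond
      refine Measure.ae_smul_measure (ae_restrict_of_ae ?_) _
      exact (withDensity_absolutelyContinuous (volume : Measure ℍ) _).ae_le hc1
    rw [integral_congr_ae h5]
    simp
  rw [H.one] at e1
  filter_upwards [hc1] with z hz
  rw [hz, ← e1]

end UNV

theorem t_UNV : StmtUnv := by
  intro Γ _ D ρ s κ H a ha hv
  have hinf : ∀ N : ℕ, ∃ k : ℕ, N ≤ k ∧
      ∀ᵐ z ∂((volume : Measure ℍ).restrict D), cof (s z) ((2 * k : ℕ) : ℤ) = 0 := by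
    intro N
    obtain ⟨K, hK⟩ := exists_nat_ge ((‖a‖ / 2) ^ 2)
    refine ⟨max N (K + 1), le_max_left _ _, ?_⟩
    have h1 : 1 ≤ max N (K + 1) := le_trans (by omega) (le_max_right _ _)
    filter_upwards [hv] with z hz
    have hfz := H.fin z
    refine ONE.cof_of_vark (s z) ha hz _ h1 ?_
    refine ONE.bes_ne _ (norm_pos_iff.2 ha) ?_
    have h2 : ((K + 1 : ℕ) : ℝ) ≤ ((max N (K + 1) : ℕ) : ℝ) := by
      exact_mod_cast le_max_right N (K + 1)
    push_cast at h2 ⊢
    nlinarith [sq_nonneg (‖a‖ / 2)]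
  have hpos := UNV.all_pos H hinf
  have h4 := UNV.all_even hpos
  have h5 := UNV.mass_one H (by
    have := hpos 1 le_rfl
    simpa using this)
  filter_upwards [ae_restrict_of_ae h4, ae_restrict_of_ae h5] with z hz1 hz2
  refine ⟨?_, hz1⟩
  have hfz := H.fin z
  have h6 := ENNReal.ofReal_toReal (measure_ne_top (s z) univ)
  rw [hz2, ENNReal.ofReal_one] at h6
  exact h6.symm

end

end BSL
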