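import Pool.Agent.BSL.St5

/-!
# WIE: Wiener's lemma for measures on the circle
-/

set_option autoImplicit false

open Complex MeasureTheory Filter Topology Set

namespace BSL

namespace WIE

open NFP

noncomputable section

/-- the mean of the first `N` powers -/
def AN (N : ℕ) (u : ℂ) : ℂ := 1 / (N : ℂ) * ∑ j ∈ Finset.range N, u ^ j

lemma AN_one {N : ℕ} (hN : N ≠ 0) : AN N 1 = 1 := by
  have : (N : ℂ) ≠ 0 := by exact_mod_cast hN
  simp [AN, this]

lemma AN_norm (N : ℕ) {u : ℂ} (hu : ‖u‖ = 1) : ‖AN N u‖ ≤ 1 := by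
  unfold AN
  rw [norm_mul, norm_div, norm_one, Complex.norm_natCast]
  have h1 : ‖∑ j ∈ Finset.range N, u ^ j‖ ≤ N := by
    refine (norm_sum_le _ _).trans ?_
    simp [hu]
  rcases Nat.eq_zero_or_pos N with h | h
  · subst h
    simp
  · have h2 : (0 : ℝ) < N := by exact_mod_cast h
    rw [div_mul_eq_mul_div, one_mul, div_le_one h2]
    exact h1

lemma AN_tendsto_one : Tendsto (fun N : ℕ => AN N 1) atTop (𝓝 1) := by
  refine tendsto_const_nhds.congr' ?_
  filter_upwards [eventually_ne_atTop 0] with N hN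
  rw [AN_one hN]

lemma AN_tendsto_zero {u : ℂ} (hu : ‖u‖ = 1) (h1 : u ≠ 1) :
    Tendsto (fun N : ℕ => AN N u) atTop (𝓝 0) := by
  have hd : 0 < ‖u - 1‖ := norm_pos_iff.2 (sub_ne_zero.2 h1)
  have h2 : Tendsto (fun N : ℕ => (2 / ‖u - 1‖) * (1 / (N : ℝ))) atTop (𝓝 0) := by
    have := (tendsto_one_div_atTop_nhds_zero_nat (𝕜 := ℝ)).const_mul (2 / ‖u - 1‖)
    rwa [mul_zero] at this
  refine squeeze_zero_norm (fun N => ?_) h2
  unfold AN
  rw [norm_mul, norm_div, norm_one, Complex.norm_natCast, mul_comm]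
  refine mul_le_mul_of_nonneg_right ?_ (by positivity)
  rw [geom_sum_eq h1, norm_div, div_le_div_iff_of_pos_right hd]
  refine (norm_sub_le _ _).trans ?_
  rw [norm_pow, hu, one_pow, norm_one]
  norm_num

section gen

variable {α : Type*} [MeasurableSpace α] (μ : Measure α) [IsFiniteMeasure μ]
  {v w : α → ℂ}

lemma AN_meas (N : ℕ) (hv : Measurable v) : Measurable (fun p => AN N (v p)) := by
  unfold AN
  exact (Finset.measurable_sum _ fun j _ => hv.pow_const j).const_mul _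

lemma lim_gen (hv : Measurable v) (hw : Measurable w) (h1 : ∀ p, ‖v p‖ = 1)
    (h2 : ∀ p, ‖w p‖ = 1) (h3 : ∀ p, w p = 1 ↔ v p = 1) :
    Tendsto (fun N : ℕ => ∫ p, AN N (v p) * AN N (w p) ∂μ) atTop
      (𝓝 (((μ {p | v p = 1}).toReal : ℝ) : ℂ)) := by
  have hs : MeasurableSet {p | v p = 1} := hv (measurableSet_singleton 1)
  have e : (((μ {p | v p = 1}).toReal : ℝ) : ℂ) =
      ∫ p, ({p | v p = 1}).indicator (fun _ => (1 : ℂ)) p ∂μ := by
    rw [integral_indicator hs, integral_const]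
    simp [Measure.real]
  rw [e]
  refine tendsto_integral_of_dominated_convergence (fun _ => (1 : ℝ)) (fun N => ?_)
    (integrable_const _) (fun N => Eventually.of_forall fun p => ?_)
    (Eventually.of_forall fun p => ?_)
  · exact ((AN_meas N hv).mul (AN_meas N hw)).aestronglyMeasurable
  · rw [norm_mul]
    exact mul_le_one₀ (AN_norm N (h1 p)) (norm_nonneg _) (AN_norm N (h2 p))
  · by_cases hp : v p = 1
    · rw [indicator_of_mem (show p ∈ {p | v p = 1} from hp), hp, (h3 p).2 hp]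
      simpa using AN_tendsto_one.mul AN_tendsto_one
    · rw [indicator_of_notMem (show p ∉ {p | v p = 1} from hp)]
      have := (AN_tendsto_zero (h1 p) hp).mul
        (AN_tendsto_zero (h2 p) (fun h => hp ((h3 p).1 h)))
      simpa using this

lemma int_AN (N : ℕ) (hv : Measurable v) (hw : Measurable w) (h1 : ∀ p, ‖v p‖ = 1)
    (h2 : ∀ p, ‖w p‖ = 1) :
    ∫ p, AN N (v p) * AN N (w p) ∂μ = 1 / (N : ℂ) ^ 2 * ∑ j ∈ Finset.range N,
      ∑ k ∈ Finset.range N, ∫ p, v p ^ j * w p ^ k ∂μ := by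
  have hint : ∀ j k : ℕ, Integrable (fun p => v p ^ j * w p ^ k) μ := by
    intro j k
    refine Integrable.of_bound ((hv.pow_const j).mul (hw.pow_const k)).aestronglyMeasurable 1
      (Eventually.of_forall fun p => ?_)
    rw [norm_mul, norm_pow, norm_pow, h1, h2]
    simp
  have e : ∀ p, AN N (v p) * AN N (w p) = 1 / (N : ℂ) ^ 2 * ∑ j ∈ Finset.range N,
      ∑ k ∈ Finset.range N, v p ^ j * w p ^ k := by
    intro p
    unfold AN
    rw [← Finset.sum_mul_sum]
    ring
  simp_rw [e]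
  rw [integral_const_mul, integral_finsetSum _ fun j _ => integrable_finsetSum _ fun k _ =>
    hint j k]
  congr 1
  refine Finset.sum_congr rfl fun j _ => ?_
  rw [integral_finsetSum _ fun k _ => hint j k]

end gen

/-- the quotient of the coordinates -/
def vv (p : S1 × S1) : ℂ := (p.1 : ℂ)⁻¹ * (p.2 : ℂ)

lemma nS (w : S1) : ‖(w : ℂ)‖ = 1 := mem_sphere_zero_iff_norm.1 w.2

lemma neS (w : S1) : (w : ℂ) ≠ 0 := by
  intro h
  have := nS w
  rw [h, norm_zero] at this
  exact zero_ne_one this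

lemma vv_norm (p : S1 × S1) : ‖vv p‖ = 1 := by
  rw [vv, norm_mul, norm_inv, nS, nS]
  norm_num

lemma vv_ne (p : S1 × S1) : vv p ≠ 0 := by
  intro h
  have := vv_norm p
  rw [h, norm_zero] at this
  exact zero_ne_one this

lemma vv_meas : Measurable vv := by
  unfold vv
  exact (measurable_subtype_coe.comp measurable_fst).inv.mul
    (measurable_subtype_coe.comp measurable_snd)

lemma vv_one (p : S1 × S1) : vv p = 1 ↔ p.1 = p.2 := by
  unfold vv
  rw [inv_mul_eq_one₀ (neS p.1)]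
  exact ⟨fun h => Subtype.ext h, fun h => congrArg Subtype.val h⟩

lemma vv_neg (p : S1 × S1) : -vv p = 1 ↔ p.1 = -p.2 := by
  unfold vv
  rw [← mul_neg, inv_mul_eq_one₀ (neS p.1)]
  constructor
  · intro h
    apply Subtype.ext
    simpa using h
  · intro h
    rw [h]
    simp

lemma int_vv (s : Measure S1) [IsFiniteMeasure s] (k : ℤ) :
    ∫ p, vv p ^ k ∂(s.prod s) = ((‖cof s k‖ ^ 2 : ℝ) : ℂ) := by
  have e : ∀ p : S1 × S1, vv p ^ k = (p.1 : ℂ) ^ (-k) * (p.2 : ℂ) ^ (-(-k)) := by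
    intro p
    rw [vv, mul_zpow, inv_zpow, zpow_neg, neg_neg]
  simp_rw [e]
  rw [integral_prod_mul (fun w : S1 => (w : ℂ) ^ (-k)) (fun w : S1 => (w : ℂ) ^ (-(-k)))]
  change cof s k * cof s (-k) = _
  rw [ONE.cof_neg, Complex.mul_conj, Complex.normSq_eq_norm_sq]

/-- the limits of the two double sums -/
lemma lim_minus (s : Measure S1) [IsFiniteMeasure s] :
    Tendsto (fun N : ℕ => 1 / (N : ℂ) ^ 2 * ∑ j ∈ Finset.range N, ∑ k ∈ Finset.range N,
      ((‖cof s ((j : ℤ) - k)‖ ^ 2 : ℝ) : ℂ)) atTop (𝓝 ((dia s : ℝ) : ℂ)) := by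
  have h := lim_gen (s.prod s) (v := vv) (w := fun p => (vv p)⁻¹) vv_meas vv_meas.inv vv_norm
    (fun p => by rw [norm_inv, vv_norm, inv_one]) (fun p => by rw [inv_eq_one])
  have e1 : {p : S1 × S1 | vv p = 1} = {p : S1 × S1 | p.1 = p.2} := by
    ext p
    exact vv_one p
  rw [e1] at h
  refine h.congr fun N => ?_
  rw [int_AN (s.prod s) (v := vv) (w := fun p => (vv p)⁻¹) N vv_meas vv_meas.inv vv_norm
    (fun p => by rw [norm_inv, vv_norm, inv_one])]
  congr 1
  refine Finset.sum_congr rfl fun j _ => Finset.sum_congr rfl fun k _ => ?_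
  rw [← int_vv]
  refine integral_congr_ae (Eventually.of_forall fun p => ?_)
  beta_reduce
  rw [zpow_sub₀ (vv_ne p), zpow_natCast, zpow_natCast, inv_pow, div_eq_mul_inv]

lemma lim_plus (s : Measure S1) [IsFiniteMeasure s] :
    Tendsto (fun N : ℕ => 1 / (N : ℂ) ^ 2 * ∑ j ∈ Finset.range N, ∑ k ∈ Finset.range N,
      ((‖cof s ((j : ℤ) + k)‖ ^ 2 : ℝ) : ℂ)) atTop (𝓝 ((dia s : ℝ) : ℂ)) := by
  have h := lim_gen (s.prod s) (v := vv) (w := vv) vv_meas vv_meas vv_norm vv_norm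
    (fun p => Iff.rfl)
  have e1 : {p : S1 × S1 | vv p = 1} = {p : S1 × S1 | p.1 = p.2} := by
    ext p
    exact vv_one p
  rw [e1] at h
  refine h.congr fun N => ?_
  rw [int_AN (s.prod s) N vv_meas vv_meas vv_norm vv_norm]
  congr 1
  refine Finset.sum_congr rfl fun j _ => Finset.sum_congr rfl fun k _ => ?_
  rw [← int_vv]
  refine integral_congr_ae (Eventually.of_forall fun p => ?_)
  beta_reduce
  rw [zpow_add₀ (vv_ne p), zpow_natCast, zpow_natCast]

lemma lim_anti (s : Measure S1) [IsFiniteMeasure s] :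
    Tendsto (fun N : ℕ => 1 / (N : ℂ) ^ 2 * ∑ j ∈ Finset.range N, ∑ k ∈ Finset.range N,
      (-1 : ℂ) ^ ((j : ℤ) - k) * ((‖cof s ((j : ℤ) - k)‖ ^ 2 : ℝ) : ℂ)) atTop
      (𝓝 ((((s.prod s) {p : S1 × S1 | p.1 = -p.2}).toReal : ℝ) : ℂ)) := by
  have hn : ∀ p, ‖-vv p‖ = 1 := fun p => by rw [norm_neg, vv_norm]
  have hn' : ∀ p, ‖(-vv p)⁻¹‖ = 1 := fun p => by rw [norm_inv, hn, inv_one]
  have h := lim_gen (s.prod s) (v := fun p => -vv p) (w := fun p => (-vv p)⁻¹) vv_meas.neg
    vv_meas.neg.inv hn hn' (fun p => by rw [inv_eq_one])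
  have e1 : {p : S1 × S1 | -vv p = 1} = {p : S1 × S1 | p.1 = -p.2} := by
    ext p
    exact vv_neg p
  rw [e1] at h
  refine h.congr fun N => ?_
  rw [int_AN (s.prod s) (v := fun p => -vv p) (w := fun p => (-vv p)⁻¹) N vv_meas.neg
    vv_meas.neg.inv hn hn']
  congr 1
  refine Finset.sum_congr rfl fun j _ => Finset.sum_congr rfl fun k _ => ?_
  rw [← int_vv, ← integral_const_mul]
  refine integral_congr_ae (Eventually.of_forall fun p => ?_)
  beta_reduce
  rw [← mul_zpow, neg_one_mul, zpow_sub₀ (neg_ne_zero.2 (vv_ne p)), zpow_natCast, zpow_natCast,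
    inv_pow, div_eq_mul_inv]

end

end WIE

open WIE NFP in
/-- BSL_WIE -/
theorem t_WIE : StmtWie := by
  intro s hs
  refine ⟨?_, fun hodd => ?_⟩
  · have h := (lim_plus s).add (lim_minus s)
    have h2 := (Complex.continuous_re.tendsto _).comp h
    have e : (((dia s : ℝ) : ℂ) + ((dia s : ℝ) : ℂ)).re = 2 * dia s := by
      rw [← Complex.ofReal_add, Complex.ofReal_re, two_mul]
    rw [e] at h2
    refine h2.congr fun N => ?_
    rw [Function.comp_apply, ← mul_add, ← Finset.sum_add_distrib]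
    simp_rw [← Finset.sum_add_distrib, ← Complex.ofReal_add, ← Complex.ofReal_sum]
    rw [← Complex.ofReal_natCast, ← Complex.ofReal_pow, ← Complex.ofReal_one,
      ← Complex.ofReal_div, ← Complex.ofReal_mul, Complex.ofReal_re]
  · have h := lim_anti s
    have h2 := lim_minus s
    have h3 : Tendsto (fun N : ℕ => 1 / (N : ℂ) ^ 2 * ∑ j ∈ Finset.range N,
        ∑ k ∈ Finset.range N, ((‖cof s ((j : ℤ) - k)‖ ^ 2 : ℝ) : ℂ)) atTop
        (𝓝 ((((s.prod s) {p : S1 × S1 | p.1 = -p.2}).toReal : ℝ) : ℂ)) := by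
      refine h.congr fun N => ?_
      congr 1
      refine Finset.sum_congr rfl fun j _ => Finset.sum_congr rfl fun k _ => ?_
      rcases Int.even_or_odd ((j : ℤ) - k) with h4 | h4
      · rw [h4.neg_one_zpow, one_mul]
      · rw [hodd _ h4]
        simp
    exact_mod_cast tendsto_nhds_unique h3 h2

end BSL
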