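import Pool.Agent.BSL.All1
import Pool.Agent.BSL.ORD
import Pool.Agent.BSL.POSS
import Pool.Agent.BSL.WIE
import Pool.Agent.BSL.KAP
import Pool.Agent.BSL.ATM
import Pool.Agent.BSL.HUL
import Pool.Agent.BSL.ERG
import Pool.Agent.BSL.CNV
import Pool.Agent.BSL.UNV
import Pool.Agent.BSL.FLE

/-!
# Theorem E
-/

open Complex MeasureTheory Filter Topology Set

namespace BSL

theorem poss_closed : StmtPosS := t_POSS pat_closed

theorem kap_closed : StmtKap := t_KAP poss_closed t_WIE trg_closed t_CUT t_WTS uif_closed t_DOM wtR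
  t_JLG msd_closed lfe_closed

theorem hul_closed : StmtHul := t_HUL (t_ATM t_WIE)

/-- **Theorem E** -/
theorem fle_closed : StmtFle :=
  t_FLE ffl_closed lfr_closed kap_closed hul_closed t_UNV qeu_closed
    (t_ORD t_WTS t_CUT trg_closed t_DOM t_UIA) t_ERG t_CNV flq_closed

end BSL
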