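import Pool.Agent.BSL.St1

/-!
# BL2: the Beurling transform is a contraction of `L²`
-/

set_option autoImplicit false

open Complex MeasureTheory Filter Topology Set
open scoped ContDiff

namespace BSL

open QE QJ U3

noncomputable section

namespace BL2

/-! ### Decay -/

theorem cauchy_eq (g : ℂ → ℂ) (z : ℂ) : cauchy g z = ∫ w, ck (z - w) * g w := by
  unfold cauchy
  rw [← integral_sub_left_eq_self (fun w => ck w * g (z - w)) volume z]
  simp only [sub_sub_cancel]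

theorem norm_ck (w : ℂ) : ‖ck w‖ = (Real.pi * ‖w‖)⁻¹ := by
  unfold ck
  rw [norm_inv, norm_mul, Complex.norm_real, Real.norm_of_nonneg Real.pi_pos.le]

theorem half_le {z w : ℂ} {r : ℝ} (hw : ‖w‖ ≤ r) (hz : 2 * r ≤ ‖z‖) : ‖z‖ / 2 ≤ ‖z - w‖ := by
  have h := norm_sub_norm_le z w
  linarith

theorem integrable_conv {g : ℂ → ℂ} (hg : Continuous g) (hc : HasCompactSupport g) (z : ℂ) :
    Integrable fun w => ck (z - w) * g w := by
  have h := (convExists hg hc z).comp_sub_left z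
  simpa only [sub_sub_cancel] using h

theorem supp_ball {g : ℂ → ℂ} (hc : HasCompactSupport g) :
    ∃ r : ℝ, 1 ≤ r ∧ ∀ w, g w ≠ 0 → ‖w‖ ≤ r := by
  obtain ⟨r, hr⟩ := hc.isBounded.subset_closedBall 0
  refine ⟨max 1 r, le_max_left _ _, fun w hw => ?_⟩
  have h1 : w ∈ tsupport g := subset_tsupport g hw
  have h2 := hr h1
  rw [mem_closedBall_zero_iff] at h2
  exact h2.trans (le_max_right _ _)

theorem decay1 {g : ℂ → ℂ} (hg : Continuous g) (hc : HasCompactSupport g) :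
    ∃ A R : ℝ, 1 ≤ R ∧ ∀ z : ℂ, R ≤ ‖z‖ → ‖cauchy g z‖ ≤ A / ‖z‖ ^ 1 := by
  obtain ⟨r, hr, hs⟩ := supp_ball hc
  have hi : Integrable g := hg.integrable_of_hasCompactSupport hc
  refine ⟨2 / Real.pi * ∫ w, ‖g w‖, 2 * r, by linarith, fun z hz => ?_⟩
  have hz0 : 0 < ‖z‖ := by linarith
  have hpi := Real.pi_pos
  rw [cauchy_eq]
  refine (norm_integral_le_of_norm_le (g := fun w => (2 / (Real.pi * ‖z‖)) * ‖g w‖)
    (hi.norm.const_mul _) (Eventually.of_forall fun w => ?_)).trans ?_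
  · by_cases hw : g w = 0
    · simp [hw]
    · have h1 := half_le (hs w hw) hz
      have hzw : 0 < ‖z - w‖ := by linarith
      rw [norm_mul, norm_ck]
      refine mul_le_mul_of_nonneg_right ?_ (norm_nonneg _)
      rw [inv_eq_one_div, div_le_div_iff₀ (by positivity) (by positivity)]
      have h2 := mul_le_mul_of_nonneg_left h1 hpi.le
      linarith
  · rw [integral_const_mul, pow_one]
    apply le_of_eq
    field_simp

theorem decay2 {g : ℂ → ℂ} (hg : Continuous g) (hc : HasCompactSupport g) (h0 : ∫ w, g w = 0) :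
    ∃ A R : ℝ, 1 ≤ R ∧ ∀ z : ℂ, R ≤ ‖z‖ → ‖cauchy g z‖ ≤ A / ‖z‖ ^ 2 := by
  obtain ⟨r, hr, hs⟩ := supp_ball hc
  have hi : Integrable g := hg.integrable_of_hasCompactSupport hc
  refine ⟨2 * r / Real.pi * ∫ w, ‖g w‖, 2 * r, by linarith, fun z hz => ?_⟩
  have hz0 : 0 < ‖z‖ := by linarith
  have hpi := Real.pi_pos
  have e : cauchy g z = ∫ w, (ck (z - w) - ck z) * g w := by
    have h1 : (fun w => (ck (z - w) - ck z) * g w) =
        fun w => ck (z - w) * g w - ck z * g w := by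
      funext w
      ring
    rw [h1, integral_sub (integrable_conv hg hc z) (hi.const_mul _), integral_const_mul, h0,
      mul_zero, sub_zero, cauchy_eq]
  rw [e]
  refine (norm_integral_le_of_norm_le (g := fun w => (2 * r / (Real.pi * ‖z‖ ^ 2)) * ‖g w‖)
    (hi.norm.const_mul _) (Eventually.of_forall fun w => ?_)).trans ?_
  · by_cases hw : g w = 0
    · simp [hw]
    · have h1 := half_le (hs w hw) hz
      have h2 := hs w hw
      rw [norm_mul]
      refine mul_le_mul_of_nonneg_right ?_ (norm_nonneg _)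
      have hzw : 0 < ‖z - w‖ := by linarith
      have hz' : z ≠ 0 := norm_pos_iff.1 hz0
      have hzw' : z - w ≠ 0 := norm_pos_iff.1 hzw
      have hp : (Real.pi : ℂ) ≠ 0 := by exact_mod_cast hpi.ne'
      have e2 : ck (z - w) - ck z = w * ((Real.pi : ℂ) * (z - w) * z)⁻¹ := by
        unfold ck
        field_simp
        ring
      rw [e2, norm_mul, norm_inv, norm_mul, norm_mul, Complex.norm_real,
        Real.norm_of_nonneg hpi.le, ← div_eq_mul_inv,
        div_le_div_iff₀ (by positivity) (by positivity)]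
      have h3 : ‖w‖ * (Real.pi * ‖z‖ ^ 2) ≤ r * (Real.pi * ‖z‖ ^ 2) :=
        mul_le_mul_of_nonneg_right h2 (by positivity)
      have h4 : ‖z‖ * (‖z‖ / 2) ≤ ‖z‖ * ‖z - w‖ := mul_le_mul_of_nonneg_left h1 hz0.le
      have h5 : 2 * r * Real.pi * (‖z‖ * (‖z‖ / 2)) ≤ 2 * r * Real.pi * (‖z‖ * ‖z - w‖) :=
        mul_le_mul_of_nonneg_left h4 (by positivity)
      linarith
  · rw [integral_const_mul]
    apply le_of_eq
    field_simp

theorem glob {F : ℂ → ℂ} (hF : Continuous F) (k : ℕ)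
    (h : ∃ A R : ℝ, 1 ≤ R ∧ ∀ z : ℂ, R ≤ ‖z‖ → ‖F z‖ ≤ A / ‖z‖ ^ k) :
    ∃ C : ℝ, 0 ≤ C ∧ ∀ z, ‖F z‖ ≤ C * ((1 + ‖z‖) ^ k)⁻¹ := by
  obtain ⟨A, R, hR, hA⟩ := h
  obtain ⟨M, hM⟩ := (isCompact_closedBall (0 : ℂ) R).exists_bound_of_continuousOn hF.continuousOn
  refine ⟨max (|M| * (1 + R) ^ k) (|A| * 2 ^ k), by positivity, fun z => ?_⟩
  have h1 : 0 < 1 + ‖z‖ := by positivity
  rw [← div_eq_mul_inv, le_div_iff₀ (by positivity)]
  rcases le_total ‖z‖ R with hz | hz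
  · refine le_trans ?_ (le_max_left _ _)
    have h2 := (hM z (mem_closedBall_zero_iff.2 hz)).trans (le_abs_self M)
    exact mul_le_mul h2 (pow_le_pow_left₀ h1.le (by linarith) k) (by positivity) (abs_nonneg M)
  · refine le_trans ?_ (le_max_right _ _)
    have hz0 : 0 < ‖z‖ := by linarith
    have h2 : ‖F z‖ ≤ |A| / ‖z‖ ^ k :=
      (hA z hz).trans (div_le_div_of_nonneg_right (le_abs_self A) (by positivity))
    have h3 : (1 + ‖z‖) ^ k ≤ 2 ^ k * ‖z‖ ^ k := by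
      rw [← mul_pow]
      exact pow_le_pow_left₀ h1.le (by linarith) k
    calc ‖F z‖ * (1 + ‖z‖) ^ k ≤ |A| / ‖z‖ ^ k * (2 ^ k * ‖z‖ ^ k) :=
          mul_le_mul h2 h3 (by positivity) (by positivity)
      _ = |A| * 2 ^ k := by field_simp

theorem integrable_decay {F : ℂ → ℂ} (hF : Continuous F) {k : ℕ} (hk : 3 ≤ k) {C : ℝ}
    (h : ∀ z, ‖F z‖ ≤ C * ((1 + ‖z‖) ^ k)⁻¹) : Integrable F := by
  have h1 : Integrable fun z : ℂ => (1 + ‖z‖) ^ (-(k : ℝ)) := by
    refine integrable_one_add_norm ?_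
    rw [Complex.finrank_real_complex]
    have : (3 : ℝ) ≤ k := by exact_mod_cast hk
    push_cast
    linarith
  refine (h1.const_mul C).mono' hF.aestronglyMeasurable (Eventually.of_forall fun z => ?_)
  rw [Real.rpow_neg (by positivity), Real.rpow_natCast]
  exact h z

/-! ### Cut-off functions -/

theorem fderiv_scale {χ : ℂ → ℂ} (hχ : Differentiable ℝ χ) (c : ℝ) (z v : ℂ) :
    fderiv ℝ (fun z => χ (c • z)) z v = c • fderiv ℝ χ (c • z) v := by
  have h1 : HasFDerivAt (fun z : ℂ => c • z) (c • ContinuousLinearMap.id ℝ ℂ) z :=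
    (hasFDerivAt_id z).const_smul c
  have h2 := ((hχ (c • z)).hasFDerivAt.comp z h1).fderiv
  have h3 : (fun z => χ (c • z)) = χ ∘ fun z : ℂ => c • z := rfl
  rw [h3, h2]
  simp

theorem dz_scale {χ : ℂ → ℂ} (hχ : Differentiable ℝ χ) (c : ℝ) (z : ℂ) :
    dz (fun z => χ (c • z)) z = c * dz χ (c • z) := by
  unfold dz
  rw [fderiv_scale hχ, fderiv_scale hχ]
  simp only [Complex.real_smul]
  ring

theorem dzb_scale {χ : ℂ → ℂ} (hχ : Differentiable ℝ χ) (c : ℝ) (z : ℂ) :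
    dzb (fun z => χ (c • z)) z = c * dzb χ (c • z) := by
  unfold dzb
  rw [fderiv_scale hχ, fderiv_scale hχ]
  simp only [Complex.real_smul]
  ring

/-- smooth cut-off functions -/
theorem exists_cut : ∃ (χ : ℕ → ℂ → ℂ) (B : ℝ), 0 ≤ B ∧ (∀ n, Test univ (χ n)) ∧
    (∀ n z, ‖χ n z‖ ≤ B) ∧ (∀ n z, ‖QE.dz (χ n) z‖ ≤ ((n : ℝ) + 1)⁻¹ * B) ∧
    (∀ n z, ‖QE.dzb (χ n) z‖ ≤ ((n : ℝ) + 1)⁻¹ * B) ∧
    ∀ z, Tendsto (fun n => χ n z) atTop (𝓝 1) := by
  let φ : ContDiffBump (0 : ℂ) := ⟨1, 2, one_pos, one_lt_two⟩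
  let χ : ℂ → ℂ := fun z => ((φ z : ℝ) : ℂ)
  have hχ : ContDiff ℝ ∞ χ := Complex.ofRealCLM.contDiff.comp φ.contDiff
  have hχc : HasCompactSupport χ := φ.hasCompactSupport.comp_left (g := fun x : ℝ => (x : ℂ)) (by simp)
  obtain ⟨B0, hB0⟩ := hχ.continuous.bounded_above_of_compact_support hχc
  obtain ⟨B1, hB1⟩ := (contDiff_dz hχ).continuous.bounded_above_of_compact_support hχc.dz
  obtain ⟨B2, hB2⟩ := (contDiff_dzb hχ).continuous.bounded_above_of_compact_support hχc.dzb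
  have hd : Differentiable ℝ χ := hχ.differentiable (by simp)
  have hc : ∀ n : ℕ, (0 : ℝ) < ((n : ℝ) + 1)⁻¹ := fun n => by positivity
  refine ⟨fun n z => χ ((((n : ℝ) + 1)⁻¹) • z), max |B0| (max |B1| |B2|), by positivity,
    fun n => ⟨?_, ?_, subset_univ _⟩, fun n z => ?_, fun n z => ?_, fun n z => ?_, fun z => ?_⟩
  · exact hχ.comp (contDiff_const_smul (((n : ℝ) + 1)⁻¹))
  · exact hχc.comp_homeomorph (Homeomorph.smulOfNeZero (((n : ℝ) + 1)⁻¹) (hc n).ne')
  · exact (hB0 _).trans ((le_abs_self _).trans (le_max_left _ _))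
  · rw [dz_scale hd, norm_mul, Complex.norm_real, Real.norm_of_nonneg (hc n).le]
    exact mul_le_mul_of_nonneg_left ((hB1 _).trans ((le_abs_self _).trans
      ((le_max_left _ _).trans (le_max_right _ _)))) (hc n).le
  · rw [dzb_scale hd, norm_mul, Complex.norm_real, Real.norm_of_nonneg (hc n).le]
    exact mul_le_mul_of_nonneg_left ((hB2 _).trans ((le_abs_self _).trans
      ((le_max_right _ _).trans (le_max_right _ _)))) (hc n).le
  · have h1 : Tendsto (fun n : ℕ => (((n : ℝ) + 1)⁻¹) • z) atTop (𝓝 ((0 : ℝ) • z)) := by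
      refine Tendsto.smul_const ?_ z
      have := tendsto_one_div_add_atTop_nhds_zero_nat (𝕜 := ℝ)
      simpa only [one_div] using this
    rw [zero_smul] at h1
    have h2 := (hχ.continuous.tendsto 0).comp h1
    have h3 : χ 0 = 1 := by
      show ((φ 0 : ℝ) : ℂ) = 1
      rw [φ.one_of_mem_closedBall (by simp [φ])]
      simp
    rw [h3] at h2
    exact h2

/-! ### The identity -/

theorem parts {χ u : ℂ → ℂ} (hχ : Test univ χ) (hu : ContDiff ℝ ∞ u) :
    (∫ z, χ z * ((‖QE.dz u z‖ ^ 2 : ℝ) : ℂ)) - ∫ z, χ z * ((‖QE.dzb u z‖ ^ 2 : ℝ) : ℂ) =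
      (∫ z, QE.dz χ z * (QE.dzb u z * (starRingEnd ℂ) (u z))) -
        ∫ z, QE.dzb χ z * (QE.dz u z * (starRingEnd ℂ) (u z)) := by
  have hd : Differentiable ℝ u := hu.differentiable (by simp)
  have huc : ContDiff ℝ ∞ fun z => (starRingEnd ℂ) (u z) := conjCLE.contDiff.comp hu
  have hdc : Differentiable ℝ fun z => (starRingEnd ℂ) (u z) := huc.differentiable (by simp)
  have h1 := integral_mul_dzb isOpen_univ hχ
    (f := fun z => QE.dz u z * (starRingEnd ℂ) (u z)) ((contDiff_dz hu).mul huc).contDiffOn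
  have h2 := integral_mul_dz isOpen_univ hχ
    (f := fun z => QE.dzb u z * (starRingEnd ℂ) (u z)) ((contDiff_dzb hu).mul huc).contDiffOn
  have e1 : ∀ z, QE.dzb (fun z => QE.dz u z * (starRingEnd ℂ) (u z)) z =
      QE.dzb (QE.dz u) z * (starRingEnd ℂ) (u z) + ((‖QE.dz u z‖ ^ 2 : ℝ) : ℂ) := by
    intro z
    rw [dzb_mul ((contDiff_dz hu).differentiable (by simp) z) (hdc z), dzb_conj (hd z),
      Complex.mul_conj, Complex.normSq_eq_norm_sq]
  have e2 : ∀ z, QE.dz (fun z => QE.dzb u z * (starRingEnd ℂ) (u z)) z =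
      QE.dzb (QE.dz u) z * (starRingEnd ℂ) (u z) + ((‖QE.dzb u z‖ ^ 2 : ℝ) : ℂ) := by
    intro z
    rw [dz_mul ((contDiff_dzb hu).differentiable (by simp) z) (hdc z), dz_conj (hd z),
      Complex.mul_conj, Complex.normSq_eq_norm_sq, dz_dzb_comm (hu.contDiffAt.of_le (WithTop.coe_le_coe.2 le_top))]
  have c0 : Continuous fun z => QE.dzb (QE.dz u) z * (starRingEnd ℂ) (u z) :=
    (contDiff_dzb (contDiff_dz hu)).continuous.mul huc.continuous
  have c1 : Continuous fun z => ((‖QE.dz u z‖ ^ 2 : ℝ) : ℂ) :=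
    Complex.continuous_ofReal.comp ((contDiff_dz hu).continuous.norm.pow 2)
  have c2 : Continuous fun z => ((‖QE.dzb u z‖ ^ 2 : ℝ) : ℂ) :=
    Complex.continuous_ofReal.comp ((contDiff_dzb hu).continuous.norm.pow 2)
  simp only [e1, mul_add] at h1
  simp only [e2, mul_add] at h2
  rw [integral_add (hχ.integrable_mul isOpen_univ c0.continuousOn)
    (hχ.integrable_mul isOpen_univ c1.continuousOn)] at h1
  rw [integral_add (hχ.integrable_mul isOpen_univ c0.continuousOn)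
    (hχ.integrable_mul isOpen_univ c2.continuousOn)] at h2
  linear_combination h1 - h2

theorem small {g : ℂ → ℂ} (hg : Integrable g) {d : ℕ → ℂ → ℂ} {B : ℝ}
    (hd : ∀ n z, ‖d n z‖ ≤ ((n : ℝ) + 1)⁻¹ * B) :
    Tendsto (fun n => ∫ z, d n z * g z) atTop (𝓝 0) := by
  have h1 : Tendsto (fun n : ℕ => ((n : ℝ) + 1)⁻¹ * (B * ∫ z, ‖g z‖)) atTop (𝓝 0) := by
    have h2 := (tendsto_one_div_add_atTop_nhds_zero_nat (𝕜 := ℝ)).mul_const (B * ∫ z, ‖g z‖)
    simpa only [one_div, zero_mul] using h2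
  refine squeeze_zero_norm (fun n => ?_) h1
  refine (norm_integral_le_of_norm_le (g := fun z => (((n : ℝ) + 1)⁻¹ * B) * ‖g z‖)
    (hg.norm.const_mul _) (Eventually.of_forall fun z => ?_)).trans ?_
  · rw [norm_mul]
    exact mul_le_mul_of_nonneg_right (hd n z) (norm_nonneg _)
  · rw [integral_const_mul, mul_assoc]

theorem big {g : ℂ → ℂ} (hg : Integrable g) {χ : ℕ → ℂ → ℂ} {B : ℝ}
    (hχ : ∀ n, Test univ (χ n)) (hB : ∀ n z, ‖χ n z‖ ≤ B)
    (h1 : ∀ z, Tendsto (fun n => χ n z) atTop (𝓝 1)) :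
    Tendsto (fun n => ∫ z, χ n z * g z) atTop (𝓝 (∫ z, g z)) := by
  refine tendsto_integral_of_dominated_convergence (fun z => B * ‖g z‖)
    (fun n => (hχ n).smooth.continuous.aestronglyMeasurable.mul hg.aestronglyMeasurable)
    (hg.norm.const_mul B) (fun n => Eventually.of_forall fun z => ?_)
    (Eventually.of_forall fun z => ?_)
  · rw [norm_mul]
    exact mul_le_mul_of_nonneg_right (hB n z) (norm_nonneg _)
  · have h2 := (h1 z).mul_const (g z)
    rwa [one_mul] at h2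

end BL2

open BL2 in
theorem bL2 : StmtBL2 := by
  intro f hf hc
  have hu : ContDiff ℝ ∞ (cauchy f) := contDiff_cauchy hf hc
  have hub : ∀ z, QE.dzb (cauchy f) z = f z := fun z => dzb_cauchy hf hc z
  have hdz : QE.dz (cauchy f) = cauchy (QE.dz f) := funext fun z => dz_cauchy hf hc z
  obtain ⟨C1, hC1, h1⟩ := glob hu.continuous 1 (decay1 hf.continuous hc)
  obtain ⟨C2, hC2, h2⟩ := glob (F := cauchy (QE.dz f)) (by rw [← hdz]; exact (contDiff_dz hu).continuous) 2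
    (decay2 (contDiff_dz hf).continuous hc.dz (integral_dz_eq_zero hf hc))
  rw [← hdz] at h2
  have i1 : Integrable fun z => ((‖QE.dz (cauchy f) z‖ ^ 2 : ℝ) : ℂ) := by
    refine integrable_decay (C := C2 * C2) (k := 4)
      (Complex.continuous_ofReal.comp ((contDiff_dz hu).continuous.norm.pow 2)) (by norm_num)
      fun z => ?_
    rw [Complex.norm_real, Real.norm_of_nonneg (by positivity)]
    calc ‖QE.dz (cauchy f) z‖ ^ 2 ≤ (C2 * ((1 + ‖z‖) ^ 2)⁻¹) ^ 2 :=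
          pow_le_pow_left₀ (norm_nonneg _) (h2 z) 2
      _ = C2 * C2 * ((1 + ‖z‖) ^ 4)⁻¹ := by
          rw [mul_pow, inv_pow, ← pow_mul]
          ring
  have i2 : Integrable fun z => QE.dz (cauchy f) z * (starRingEnd ℂ) (cauchy f z) := by
    refine integrable_decay (C := C2 * C1) (k := 3)
      ((contDiff_dz hu).continuous.mul (conjCLE.continuous.comp hu.continuous)) le_rfl
      fun z => ?_
    rw [norm_mul, RCLike.norm_conj]
    calc ‖QE.dz (cauchy f) z‖ * ‖cauchy f z‖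
        ≤ (C2 * ((1 + ‖z‖) ^ 2)⁻¹) * (C1 * ((1 + ‖z‖) ^ 1)⁻¹) :=
          mul_le_mul (h2 z) (h1 z) (norm_nonneg _) (by positivity)
      _ = C2 * C1 * ((1 + ‖z‖) ^ 3)⁻¹ := by
          rw [show (1 + ‖z‖) ^ 3 = (1 + ‖z‖) ^ 2 * (1 + ‖z‖) ^ 1 by ring, mul_inv]
          ring
  have i3 : Integrable fun z => QE.dzb (cauchy f) z * (starRingEnd ℂ) (cauchy f z) := by
    simp only [hub]
    exact (hf.continuous.mul (conjCLE.continuous.comp hu.continuous)).integrable_of_hasCompactSupport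
      hc.mul_right
  have i4 : Integrable fun z => ((‖QE.dzb (cauchy f) z‖ ^ 2 : ℝ) : ℂ) := by
    simp only [hub]
    have hcs : HasCompactSupport ((fun x : ℂ => ((‖x‖ ^ 2 : ℝ) : ℂ)) ∘ f) :=
      hc.comp_left (by simp)
    have hcc : Continuous ((fun x : ℂ => ((‖x‖ ^ 2 : ℝ) : ℂ)) ∘ f) :=
      Complex.continuous_ofReal.comp (hf.continuous.norm.pow 2)
    exact hcc.integrable_of_hasCompactSupport hcs
  obtain ⟨χ, B, hB0, hχ, hχB, hχ1, hχ2, hlim⟩ := exists_cut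
  have l1 := (big i1 hχ hχB hlim).sub (big i4 hχ hχB hlim)
  have l2 := (small i3 hχ1).sub (small i2 hχ2)
  have l3 : (∫ z, ((‖QE.dz (cauchy f) z‖ ^ 2 : ℝ) : ℂ)) -
      ∫ z, ((‖QE.dzb (cauchy f) z‖ ^ 2 : ℝ) : ℂ) = 0 - 0 :=
    tendsto_nhds_unique (l1.congr fun n => parts (hχ n) hu) l2
  have i5 : Integrable fun z => ‖beu f z‖ ^ 2 := by
    refine i1.norm.congr (Eventually.of_forall fun z => ?_)
    show ‖((‖QE.dz (cauchy f) z‖ ^ 2 : ℝ) : ℂ)‖ = ‖QE.dz (cauchy f) z‖ ^ 2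
    rw [Complex.norm_real, Real.norm_of_nonneg (by positivity)]
  refine ⟨i5, le_of_eq ?_⟩
  have l4 : ((∫ z, ‖beu f z‖ ^ 2 : ℝ) : ℂ) = ((∫ z, ‖f z‖ ^ 2 : ℝ) : ℂ) := by
    rw [← integral_complex_ofReal, ← integral_complex_ofReal]
    simp only [hub, sub_zero] at l3
    exact sub_eq_zero.1 l3
  exact_mod_cast l4

end

end BSL
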