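import Pool.Agent.BSL.FLA

/-!
# Subsequences with a semiclassical measure (used by FLN and FLQ)
-/

set_option autoImplicit false

open Complex MeasureTheory Filter Topology Set
open UpperHalfPlane hiding I
open scoped ContDiff MatrixGroups ProbabilityTheory ENNReal

namespace BSL

open QE QE.NC QJ U3 NFP

noncomputable section

namespace CORE

variable {Γ : Subgroup SL(2, ℝ)} {D : Set ℍ} {ρ : ℍ → ℝ} {φ : ℕ → ℍ → ℝ} {m : ℕ → ℝ}

theorem ae_cond {P : ℍ → Prop} (h : ∀ᵐ z ∂((volume : Measure ℍ).restrict D), P z) :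
    ∀ᵐ z ∂(ProbabilityTheory.cond (Berry.area ρ) D), P z := by
  unfold ProbabilityTheory.cond
  refine Measure.ae_smul_measure ?_ _
  have hac : (Berry.area ρ).restrict D ≪ (volume : Measure ℍ).restrict D := by
    refine Measure.AbsolutelyContinuous.restrict ?_ D
    unfold Berry.area
    exact withDensity_absolutelyContinuous _ _
  exact hac.ae_le h

theorem rAvg_congr {f g : ℍ → ℝ} (h : ∀ᵐ z ∂((volume : Measure ℍ).restrict D), f z = g z) :
    Berry.rAvg ρ D f = Berry.rAvg ρ D g := by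
  unfold Berry.rAvg
  exact integral_congr_ae (ae_cond h)

/-- the data of a subsequence with a semiclassical measure -/
structure Dat (Γ : Subgroup SL(2, ℝ)) (D : Set ℍ) (ρ : ℍ → ℝ) (φ : ℕ → ℍ → ℝ) (m : ℕ → ℝ)
    {Ω : Type} [MeasurableSpace Ω] (P : Measure Ω) (F : ℂ → Ω → ℝ)
    (s : ProbabilityTheory.Kernel ℍ S1) : Prop where
  sur : Sur Γ D ρ φ m
  sem : Sem ρ φ m s
  sq : IntegrableOn (fun z => ((s z) univ).toReal ^ 2) D (volume : Measure ℍ)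
  one : Berry.rAvg ρ D (fun z => ((s z) univ).toReal) = 1
  dw : ∀ x : Fin 4 → ℂ, IntegrableOn (fun z => dirWick (s z) x) D (volume : Measure ℍ)
  four : ∀ x : Fin 4 → ℂ, Integrable (fun o => ∏ i, F (x i) o) P ∧
    ∫ o, ∏ i, F (x i) o ∂P = fourF ρ D s (∫ o, F 0 o ^ 4 ∂P) x
  noat : NoAt UH (um s) →
    3 * Berry.rAvg ρ D (fun z => ((s z) univ).toReal ^ 2) ≤ ∫ o, F 0 o ^ 4 ∂P ∧
    ∀ x : Fin 3 → ℂ, Integrable (fun o => ∏ i, F (x i) o) P ∧ ∫ o, ∏ i, F (x i) o ∂P = 0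

theorem exists_dat (h : StmtFfl) [Countable Γ]
    (hρ : ContDiffOn ℝ ∞ (fun w : ℂ => ρ (ofComplex w)) {w | 0 < w.im})
    (hρΓ : ∀ γ ∈ Γ, ∀ z, ρ (γ • z) = ρ z) (hDm : MeasurableSet D)
    (hD : IsFundamentalDomain Γ D (volume : Measure ℍ))
    (hK : ∃ K : Set ℍ, IsCompact K ∧ ∀ z, ∃ γ ∈ Γ, γ • z ∈ K) (hφ : Berry.REigenSeq Γ ρ φ m)
    (hs : ∀ n, ContDiffOn ℝ ∞ (fun w : ℂ => φ n (ofComplex w)) {w | 0 < w.im})
    (hnorm : ∀ n, Berry.rAvg ρ D (fun z => φ n z ^ 2) = 1) {Ω : Type} [MeasurableSpace Ω]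
    {P : Measure Ω} [IsProbabilityMeasure P] {F : ℂ → Ω → ℝ} (hFm : ∀ x, Measurable (F x))
    (hF : FLim ρ D φ m P F) (hF2 : ∫ o, F 0 o ^ 2 ∂P = 1) (hF4 : Integrable (fun o => F 0 o ^ 4) P)
    {k : ℕ → ℕ} (hk : Tendsto k atTop atTop) :
    ∃ (l : ℕ → ℕ) (s : ProbabilityTheory.Kernel ℍ S1), Tendsto l atTop atTop ∧
      Dat Γ D ρ (fun n => φ (k (l n))) (fun n => m (k (l n))) P F s := by
  obtain ⟨j, μ, hj, hμ⟩ := NFP.exist_closed Γ ρ D (fun n => φ (k n)) (fun n => m (k n))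
    inferInstance ⟨hρ, hρΓ, hK⟩ hDm hD (reig_comp hφ hk) (fun n => hs _) (fun n => hnorm _)
  have hkj : Tendsto (fun n => k (j n)) atTop atTop := hk.comp hj.tendsto_atTop
  obtain ⟨N, hS⟩ := FLA.exists_sur (Γ := Γ) (D := D) hρ hρΓ hDm hD hK (reig_comp hφ hkj)
    (fun n => hs _) (fun n => hnorm _)
  have hN : Tendsto (fun n : ℕ => n + N) atTop atTop := tendsto_add_atTop_nat N
  have hF' : FLim ρ D (fun n => φ (k (j (n + N)))) (fun n => m (k (j (n + N)))) P F :=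
    FLA.fLim_comp hF (hkj.comp hN)
  have hμ' : Semiclassical ρ (fun n => φ (k (j (n + N)))) (fun n => m (k (j (n + N)))) μ :=
    ⟨hμ.fin, fun i l ζ a1 a2 a3 => (hμ.lim i l ζ a1 a2 a3).comp hN⟩
  obtain ⟨s, hSem, -, m1, m2, m4, f4, f3⟩ := h Γ D ρ _ _ hS Ω P F hFm hF' hF2 hF4 μ hμ'
  exact ⟨fun n => j (n + N), s, hj.tendsto_atTop.comp hN, hS, hSem, m1, m2, m4, f4, f3⟩

/-- the uniform directional measures -/
theorem Dat.uni (h : StmtQeu) [Countable Γ] {Ω : Type} [MeasurableSpace Ω]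
    {P : Measure Ω} {F : ℂ → Ω → ℝ} {s : ProbabilityTheory.Kernel ℍ S1}
    (T : Dat Γ D ρ φ m P F s)
    (hu : ∀ᵐ z ∂((volume : Measure ℍ).restrict D), (s z) univ = 1 ∧
      ∀ k : ℤ, Even k → k ≠ 0 → cof (s z) k = 0) :
    QE.QuantumErgodic ρ φ m ∧ Berry.rAvg ρ D (fun z => ((s z) univ).toReal ^ 2) = 1 ∧
    ∀ x : Fin 4 → ℂ, ∫ o, ∏ i, F (x i) o ∂P
      = Berry.waveK (x 0 - x 1) * Berry.waveK (x 2 - x 3)
        + Berry.waveK (x 0 - x 2) * Berry.waveK (x 1 - x 3)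
        + Berry.waveK (x 0 - x 3) * Berry.waveK (x 1 - x 2)
        + ((∫ o, F 0 o ^ 4 ∂P) - 3) / 3 * resK x := by
  obtain ⟨q1, q2⟩ := h Γ D ρ φ m s T.sur T.sem hu
  have e : Berry.rAvg ρ D (fun z => ((s z) univ).toReal ^ 2) = 1 := by
    refine (rAvg_congr ?_).trans T.one
    filter_upwards [hu] with z hz
    rw [hz.1]
    simp
  refine ⟨q1, e, fun x => ?_⟩
  rw [(T.four x).2]
  unfold fourF
  rw [q2 x, e, mul_one]

/-- from the half plane to the fundamental domain -/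
theorem ae_D {P : ℍ → Prop} (h : ∀ᵐ z ∂((volume : Measure ℂ).restrict UH), P (ofComplex z)) :
    ∀ᵐ z ∂((volume : Measure ℍ).restrict D), P z := by
  refine ae_restrict_of_ae ?_
  filter_upwards [QE.FM.ae_H h] with z hz
  rwa [ofComplex_apply] at hz

/-- the fourth moment in `[0, ∞]` -/
theorem le_lint {Ω : Type} [MeasurableSpace Ω] {P : Measure Ω} [IsProbabilityMeasure P]
    {f : Ω → ℝ} (hf : Measurable f) (h0 : ∀ o, 0 ≤ f o) {c : ℝ}
    (h : Integrable f P → c ≤ ∫ o, f o ∂P) :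
    ENNReal.ofReal c ≤ ∫⁻ o, ENNReal.ofReal (f o) ∂P := by
  by_cases hi : Integrable f P
  · rw [← ofReal_integral_eq_lintegral_ofReal hi (Eventually.of_forall h0)]
    exact ENNReal.ofReal_le_ofReal (h hi)
  · have : ∫⁻ o, ENNReal.ofReal (f o) ∂P = ⊤ := by
      by_contra hne
      exact hi ((lintegral_ofReal_ne_top_iff_integrable hf.aestronglyMeasurable
        (Eventually.of_forall h0)).1 hne)
    rw [this]
    exact le_top

end CORE

end

end BSL
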