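import Pool.Agent.BSL.St2
import Pool.Agent.BSL.PTWC

/-!
DOM: the local waves are bounded by the local mean square (helper71).
-/

open Complex MeasureTheory Filter Topology Set
open UpperHalfPlane hiding I
open scoped ContDiff MatrixGroups ProbabilityTheory

namespace BSL

open QE QE.NC QJ U3 NFP

noncomputable section

namespace DOM

lemma sq_le_RR (h : ℕ → ℝ) (φ : ℕ → ℂ → ℂ) (n : ℕ) (z : ℂ) : ‖φ n z‖ ^ 2 ≤ RR h φ 0 n z := by
  unfold RR W
  simp

/-- the displacements are bounded -/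
lemma norm_frXi_le {h : ℕ → ℝ} {e : ℂ → ℝ} {x : ℂ} {n : ℕ} {θ : ℝ} {z : ℂ} {X E : ℝ}
    (hh : 0 ≤ h n) (hx : ‖x‖ ≤ X) (he : |e z| ≤ E) (hs : h n * X * E ≤ 1 / 2) :
    ‖frXi h e x n θ z‖ ≤ 2 * X := by
  unfold frXi
  have hX : 0 ≤ X := (norm_nonneg x).trans hx
  have h1 : ‖(h n : ℂ) * x * uu θ * Real.sin θ * e z‖ ≤ 1 / 2 := by
    rw [norm_mul]
    have h2 := norm_c_le hh x θ
    have h3 : ‖((e z : ℝ) : ℂ)‖ ≤ E := by
      rw [Complex.norm_real]; exact he
    calc ‖(h n : ℂ) * x * uu θ * Real.sin θ‖ * ‖((e z : ℝ) : ℂ)‖ ≤ (h n * ‖x‖) * E := by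
          apply mul_le_mul h2 h3 (norm_nonneg _) (by positivity)
      _ ≤ (h n * X) * E := by
          have hE : 0 ≤ E := (abs_nonneg _).trans he
          gcongr
      _ ≤ 1 / 2 := hs
  have h4 : 1 / 2 ≤ ‖1 + (h n : ℂ) * x * uu θ * Real.sin θ * e z‖ := by
    have := norm_sub_le_norm_add (1 : ℂ) ((h n : ℂ) * x * uu θ * Real.sin θ * e z)
    rw [norm_one] at this
    linarith
  rw [norm_div, norm_mul, norm_pow, norm_uu, one_pow, mul_one, div_le_iff₀ (by linarith)]
  nlinarith

end DOM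

open DOM in
/-- DOM: the local waves are bounded by the local mean square -/
theorem t_DOM : StmtDom := by
  intro Γ D ρ φ m S V σ φ' A K hK hKV r x
  have hVU : V ⊆ UH := A.sub
  -- bounds on `K`
  have cρ : ContinuousOn (ro ρ) K := S.fac.smooth.continuousOn.mono (hKV.trans hVU)
  have ce : ContinuousOn (fun z => Real.exp (-ρ (ofComplex z))) K :=
    Real.continuous_exp.comp_continuousOn cρ.neg
  obtain ⟨E₀, hE₀⟩ := hK.exists_bound_of_continuousOn ce
  obtain ⟨Y₀, hY₀⟩ := hK.exists_bound_of_continuousOn (f := fun z : ℂ => z.im)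
    Complex.continuous_im.continuousOn
  set E : ℝ := max E₀ 0 with hEdef
  set Y : ℝ := max Y₀ 0 with hYdef
  have hE0 : 0 ≤ E := le_max_right _ _
  have hY0 : 0 ≤ Y := le_max_right _ _
  have hE : ∀ z ∈ K, |Real.exp (-ρ (ofComplex z))| ≤ E := fun z hz =>
    (hE₀ z hz).trans (le_max_left _ _)
  have hY : ∀ z ∈ K, |z.im| ≤ Y := fun z hz => (hY₀ z hz).trans (le_max_left _ _)
  set X : ℝ := ∑ i, ‖x i‖ with hXdef
  have hX0 : 0 ≤ X := Finset.sum_nonneg fun i _ => norm_nonneg _
  have hX : ∀ i, ‖x i‖ ≤ X := fun i =>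
    Finset.single_le_sum (f := fun i => ‖x i‖) (fun j _ => norm_nonneg _) (Finset.mem_univ i)
  set B : ℝ := Y * E * (2 * X) with hBdef
  have hB0 : 0 ≤ B := by positivity
  obtain ⟨δ, hδ, hδV⟩ := hK.exists_cthickening_subset_open A.op hKV
  have hK₁ : IsCompact (Metric.cthickening δ K) := hK.cthickening
  obtain ⟨C, hC, hPT⟩ := ptwC stmtSup A.loc hK₁ hδV 0 one_pos
  refine ⟨B + 1, by linarith, fun L hL => ⟨C, ?_⟩⟩
  have hpos : ∀ n, 0 < hh m n := A.loc.hpos
  have hlim : Tendsto (hh m) atTop (𝓝 0) := A.loc.hlim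
  have l1 : Tendsto (fun n => hh m n * X * E) atTop (𝓝 0) := by
    have := (hlim.mul_const X).mul_const E
    simpa using this
  have l2 : Tendsto (fun n => hh m n * B) atTop (𝓝 0) := by
    have := hlim.mul_const B
    simpa using this
  filter_upwards [hPT, l1.eventually (gt_mem_nhds (show (0 : ℝ) < 1 / 2 by norm_num)),
    l2.eventually (gt_mem_nhds hδ)] with n n1 n2 n3 z hz t i
  have hzU : 0 < z.im := hVU (hKV hz)
  have hmp : 0 < m n := lt_of_lt_of_le one_pos (S.one n)
  have hlt : ‖x i / ((m n * Real.exp (ρ (ofComplex z)) : ℝ) : ℂ)‖ < 1 := by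
    rw [norm_div, Complex.norm_real, Real.norm_of_nonneg (by positivity), div_lt_one (by positivity)]
    have e1 : 1 / m n * X * E ≤ 1 / 2 := n2.le
    have e2 : Real.exp (-ρ (ofComplex z)) ≤ E := (le_abs_self _).trans (hE z hz)
    have e3 : 1 / m n * ‖x i‖ * Real.exp (-ρ (ofComplex z)) ≤ 1 / 2 := by
      refine le_trans ?_ e1
      have := hX i
      gcongr
    rw [Real.exp_neg] at e3
    have e4 : ‖x i‖ / (m n * Real.exp (ρ (ofComplex z))) < 1 := by
      have : ‖x i‖ / (m n * Real.exp (ρ (ofComplex z)))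
          = 1 / m n * ‖x i‖ * (Real.exp (ρ (ofComplex z)))⁻¹ := by
        field_simp
      rw [this]
      linarith
    rwa [div_lt_one (by positivity)] at e4
  have ew := rWave_eq_disp (φ := φ n) hmp (x i) t hzU hlt (h := hh m) (n := n) rfl
    (a := fun w => (w.im : ℂ) * (Real.exp (-ρ (ofComplex w)) : ℂ)) rfl
  have hfr := norm_frXi_le (h := hh m) (e := fun w => Real.exp (-ρ (ofComplex w))) (x := x i)
    (n := n) (θ := t) (z := z) (hpos n).le (hX i) (hE z hz) n2.le
  rw [ew]
  set w : ℂ := z + (hh m n : ℂ) * ((z.im : ℂ) * (Real.exp (-ρ (ofComplex z)) : ℂ))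
    * frXi (hh m) (fun w => Real.exp (-ρ (ofComplex w))) (x i) n t z with hw
  have hd : dist w z ≤ hh m n * B := by
    rw [dist_eq_norm, hw, add_sub_cancel_left, norm_mul, norm_mul, norm_mul, Complex.norm_real,
      Complex.norm_real, Complex.norm_real, Real.norm_of_nonneg (hpos n).le, mul_assoc]
    refine mul_le_mul_of_nonneg_left ?_ (hpos n).le
    rw [hBdef]
    refine mul_le_mul (mul_le_mul (hY z hz) (hE z hz) (norm_nonneg _) hY0) hfr (norm_nonneg _)
      (by positivity)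
  have hwK : w ∈ Metric.cthickening δ K :=
    Metric.mem_cthickening_of_dist_le w z δ K hz (hd.trans n3.le)
  have hwV : w ∈ V := hδV hwK
  have e1 : φ n (ofComplex w) ^ 2 = ‖φ' n w‖ ^ 2 := by
    rw [A.eφ n w hwV]
    unfold ph
    rw [Complex.norm_real, Real.norm_eq_abs, sq_abs]
  rw [e1]
  calc ‖φ' n w‖ ^ 2 ≤ RR (hh m) φ' 0 n w := sq_le_RR _ _ _ _
    _ ≤ C * (1 + 1 / hh m n ^ 2 * ∫ u in Metric.closedBall w (1 * hh m n), ‖φ' n u‖ ^ 2) :=
        n1 w hwK
    _ ≤ C * Mn L (hh m) φ' n z := by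
        unfold Mn
        refine mul_le_mul_of_nonneg_left ?_ hC
        refine add_le_add le_rfl (mul_le_mul_of_nonneg_left ?_ (by positivity))
        have hsub : Metric.closedBall w (1 * hh m n) ⊆ Metric.closedBall z (L * hh m n) := by
          intro u hu
          rw [Metric.mem_closedBall] at hu ⊢
          have := dist_triangle u w z
          have h5 : (B + 1) * hh m n ≤ L * hh m n := mul_le_mul_of_nonneg_right hL (hpos n).le
          nlinarith
        refine setIntegral_mono_set ?_ (Filter.Eventually.of_forall fun u => ?_) hsub.eventuallyLE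
        · exact ((A.loc.smφ n).continuous.norm.pow 2).continuousOn.integrableOn_compact
            (isCompact_closedBall _ _)
        · show 0 ≤ ‖φ' n u‖ ^ 2
          positivity

end

end BSL
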