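import Pool.Agent.BSL.St2

/-!
# DRC: a directional measure of which the covariance function is constant on a small circle is uniform
-/

set_option autoImplicit false

open Complex MeasureTheory Filter Topology Set
open scoped Nat

namespace BSL.DRC

noncomputable section

/-- the exponential integrals -/
theorem int_exp (m : ℤ) : ∫ t in (0 : ℝ)..(2 * Real.pi), cexp ((m : ℂ) * t * I) =
    if m = 0 then 2 * (Real.pi : ℂ) else 0 := by
  split_ifs with hm
  · subst hm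
    simp
  · have hc : (m : ℂ) * I ≠ 0 := mul_ne_zero (Int.cast_ne_zero.2 hm) I_ne_zero
    have h1 := integral_exp_mul_complex (a := 0) (b := 2 * Real.pi) hc
    have h2 : ∀ t : ℝ, cexp ((m : ℂ) * t * I) = cexp ((m : ℂ) * I * t) := by
      intro t
      congr 1
      ring
    simp only [h2]
    rw [h1]
    have h3 : (m : ℂ) * I * ((2 * Real.pi : ℝ) : ℂ) = (m : ℂ) * (2 * Real.pi * I) := by
      push_cast
      ring
    rw [h3, Complex.exp_int_mul_two_pi_mul_I]
    simp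

theorem exp_series (x : ℂ) : HasSum (fun n : ℕ => x ^ n / (n ! : ℂ)) (cexp x) := by
  rw [Complex.exp_eq_exp_ℂ]
  exact NormedSpace.expSeries_div_hasSum_exp x

theorem exp_series_norm (x : ℂ) : Summable fun n : ℕ => ‖x ^ n / (n ! : ℂ)‖ := by
  have h : ∀ n : ℕ, ‖x ^ n / (n ! : ℂ)‖ = ‖x‖ ^ n / n ! := by
    intro n
    rw [norm_div, norm_pow, Complex.norm_natCast]
  simp only [h]
  exact Real.summable_pow_div_factorial ‖x‖

theorem prod_summable (x y : ℂ) :
    Summable fun p : ℕ × ℕ => x ^ p.1 / (p.1 ! : ℂ) * (y ^ p.2 / (p.2 ! : ℂ)) := by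
  have h := summable_mul_of_summable_norm (exp_series_norm x) (exp_series_norm y)
  exact h

theorem prod_hasSum (x y : ℂ) :
    HasSum (fun p : ℕ × ℕ => x ^ p.1 / (p.1 ! : ℂ) * (y ^ p.2 / (p.2 ! : ℂ))) (cexp x * cexp y) := by
  have hs := summable_mul_of_summable_norm (exp_series_norm x) (exp_series_norm y)
  have h := (exp_series x).mul (exp_series y) hs
  exact h

/-- the coefficients of the double series -/
def cf (z : ℂ) (p : ℕ × ℕ) : ℂ :=
  (I * z / 2) ^ p.1 / (p.1 ! : ℂ) * ((I * (starRingEnd ℂ) z / 2) ^ p.2 / (p.2 ! : ℂ))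

theorem cf_norm (z : ℂ) : Summable fun p : ℕ × ℕ => ‖cf z p‖ :=
  (summable_mul_of_summable_norm (exp_series_norm (I * z / 2))
    (exp_series_norm (I * (starRingEnd ℂ) z / 2))).norm

theorem re_eq (z : ℂ) (t : ℝ) : (((cexp (t * I) * z).re : ℝ) : ℂ) =
    (cexp (t * I) * z + cexp (-(t * I)) * (starRingEnd ℂ) z) / 2 := by
  rw [Complex.re_eq_add_conj, map_mul, ← Complex.exp_conj]
  congr 3
  simp

theorem exp_step (p q k : ℕ) (t : ℝ) : cexp ((((p : ℤ) - q - k : ℤ) : ℂ) * t * I) =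
    cexp (t * I) ^ p * cexp (-(t * I)) ^ q * cexp (-(k * t * I)) := by
  rw [← Complex.exp_nat_mul, ← Complex.exp_nat_mul, ← Complex.exp_add, ← Complex.exp_add]
  congr 1
  push_cast
  ring

theorem prod_F (z : ℂ) (t : ℝ) : cexp (I * z / 2 * cexp (t * I)) *
    cexp (I * (starRingEnd ℂ) z / 2 * cexp (-(t * I))) =
    cexp (I * ((cexp (t * I) * z).re : ℂ)) := by
  rw [← Complex.exp_add, re_eq]
  congr 1
  ring

theorem term_F (z : ℂ) (k : ℕ) (t : ℝ) (p : ℕ × ℕ) :
    cf z p * cexp ((((p.1 : ℤ) - p.2 - k : ℤ) : ℂ) * t * I) =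
      (I * z / 2 * cexp (t * I)) ^ p.1 / (p.1 ! : ℂ) *
        ((I * (starRingEnd ℂ) z / 2 * cexp (-(t * I))) ^ p.2 / (p.2 ! : ℂ)) *
          cexp (-(k * t * I)) := by
  rw [exp_step, cf, mul_pow, mul_pow]
  ring

theorem sum_F (z : ℂ) (k : ℕ) (t : ℝ) :
    HasSum (fun p : ℕ × ℕ => cf z p * cexp ((((p.1 : ℤ) - p.2 - k : ℤ) : ℂ) * t * I))
    (cexp (I * ((cexp (t * I) * z).re : ℂ)) * cexp (-(k * t * I))) := by
  have h3 := (prod_hasSum (I * z / 2 * cexp (t * I))
    (I * (starRingEnd ℂ) z / 2 * cexp (-(t * I)))).mul_right (cexp (-(k * t * I)))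
  rw [prod_F] at h3
  have h5 := funext (term_F z k t)
  rw [h5]
  exact h3

/-- the coefficients -/
theorem int_F (z : ℂ) (k : ℕ) :
    HasSum (fun p : ℕ × ℕ => cf z p * (if (p.1 : ℤ) - p.2 - k = 0 then 2 * (Real.pi : ℂ) else 0))
    (∫ t in (0 : ℝ)..(2 * Real.pi), cexp (I * ((cexp (t * I) * z).re : ℂ)) *
      cexp (-(k * t * I))) := by
  have h := intervalIntegral.hasSum_integral_of_dominated_convergence
    (μ := volume) (a := 0) (b := 2 * Real.pi)
    (F := fun (p : ℕ × ℕ) (t : ℝ) => cf z p * cexp ((((p.1 : ℤ) - p.2 - k : ℤ) : ℂ) * t * I))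
    (f := fun t : ℝ => cexp (I * ((cexp (t * I) * z).re : ℂ)) * cexp (-(k * t * I)))
    (fun p _ => ‖cf z p‖) ?_ ?_ ?_ ?_ ?_
  · have h6 : (fun p : ℕ × ℕ => ∫ t in (0 : ℝ)..(2 * Real.pi),
        cf z p * cexp ((((p.1 : ℤ) - p.2 - k : ℤ) : ℂ) * t * I)) = fun p : ℕ × ℕ =>
        cf z p * (if (p.1 : ℤ) - p.2 - k = 0 then 2 * (Real.pi : ℂ) else 0) := by
      funext p
      rw [intervalIntegral.integral_const_mul, int_exp]
    rw [← h6]
    exact h
  · intro p
    exact (Continuous.aestronglyMeasurable (by fun_prop))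
  · intro p
    refine Filter.Eventually.of_forall fun t _ => ?_
    rw [norm_mul]
    have h1 : ‖cexp ((((p.1 : ℤ) - p.2 - k : ℤ) : ℂ) * t * I)‖ = 1 := by
      have h2 : (((p.1 : ℤ) - p.2 - k : ℤ) : ℂ) * t * I =
          (((((p.1 : ℤ) - p.2 - k : ℤ) : ℝ) * t : ℝ) : ℂ) * I := by push_cast; ring
      rw [h2, Complex.norm_exp_ofReal_mul_I]
    rw [h1, mul_one]
  · exact Filter.Eventually.of_forall fun t _ => cf_norm z
  · exact intervalIntegrable_const
  · exact Filter.Eventually.of_forall fun t _ => sum_F z k t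

/-- the entire function with `J_k(r) = (r/2)^k E_k(r²/4)` -/
def EE (k : ℕ) (y : ℝ) : ℝ := ∑' q : ℕ, (-1) ^ q * (y ^ q / ((q ! : ℝ) * ((q + k)! : ℝ)))

theorem EE_bd (k : ℕ) {y : ℝ} (hy : 0 ≤ y) (q : ℕ) :
    y ^ q / ((q ! : ℝ) * ((q + k)! : ℝ)) ≤ y ^ q / (q ! : ℝ) := by
  have h1 : (0 : ℝ) < (q ! : ℝ) := by exact_mod_cast Nat.factorial_pos q
  have h2 : (1 : ℝ) ≤ ((q + k)! : ℝ) := by exact_mod_cast Nat.factorial_pos (q + k)
  refine div_le_div_of_nonneg_left (pow_nonneg hy q) h1 ?_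
  exact le_mul_of_one_le_right h1.le h2

theorem EE_nn (k : ℕ) {y : ℝ} (hy : 0 ≤ y) (q : ℕ) :
    0 ≤ y ^ q / ((q ! : ℝ) * ((q + k)! : ℝ)) := by positivity

theorem EE_hasSum (k : ℕ) {y : ℝ} (hy : 0 ≤ y) :
    HasSum (fun q : ℕ => (-1) ^ q * (y ^ q / ((q ! : ℝ) * ((q + k)! : ℝ)))) (EE k y) := by
  refine Summable.hasSum (Summable.of_norm_bounded (Real.summable_pow_div_factorial y) ?_)
  intro q
  rw [norm_mul, norm_pow, norm_neg, norm_one, one_pow, one_mul, Real.norm_of_nonneg (EE_nn k hy q)]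
  exact EE_bd k hy q

theorem EE_pos {k : ℕ} (hk : 2 ≤ k) {y : ℝ} (hy : 0 < y) (hy' : y ≤ 9 / 4) : 0 < EE k y := by
  have h1 := (EE_hasSum k hy.le).tendsto_sum_nat
  have hk' : (2 : ℝ) ≤ k := by exact_mod_cast hk
  have hanti : Antitone fun q : ℕ => y ^ q / ((q ! : ℝ) * ((q + k)! : ℝ)) := by
    refine antitone_nat_of_succ_le fun q => ?_
    have e1 : y ^ (q + 1) / (((q + 1)! : ℝ) * ((q + 1 + k)! : ℝ)) =
        y ^ q / ((q ! : ℝ) * ((q + k)! : ℝ)) * (y / ((q + 1 : ℝ) * (q + k + 1))) := by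
      rw [Nat.factorial_succ, show q + 1 + k = (q + k) + 1 by ring, Nat.factorial_succ (q + k)]
      push_cast
      have a1 : (q ! : ℝ) ≠ 0 := by positivity
      have a2 : ((q + k)! : ℝ) ≠ 0 := by positivity
      have a3 : (q + 1 : ℝ) ≠ 0 := by positivity
      have a4 : (q + k + 1 : ℝ) ≠ 0 := by positivity
      field_simp
      exact pow_succ y q
    change y ^ (q + 1) / (((q + 1)! : ℝ) * ((q + 1 + k)! : ℝ)) ≤ _
    rw [e1]
    refine mul_le_of_le_one_right (EE_nn k hy.le q) ?_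
    rw [div_le_one (by positivity)]
    have hq : (0 : ℝ) ≤ q := Nat.cast_nonneg q
    nlinarith
  have h2 := Antitone.alternating_series_le_tendsto h1 hanti 1
  have h3 : ∑ i ∈ Finset.range (2 * 1), (-1 : ℝ) ^ i * (y ^ i / ((i ! : ℝ) * ((i + k)! : ℝ))) =
      1 / (k ! : ℝ) * (1 - y / (k + 1)) := by
    rw [mul_one, Finset.sum_range_succ, Finset.sum_range_one]
    rw [Nat.factorial_one, Nat.factorial_zero, show 1 + k = k + 1 by ring, Nat.factorial_succ,
      zero_add]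
    push_cast
    have a2 : (k ! : ℝ) ≠ 0 := by positivity
    have a4 : (k + 1 : ℝ) ≠ 0 := by positivity
    field_simp
    ring
  rw [h3] at h2
  refine lt_of_lt_of_le ?_ h2
  have h4 : y / (k + 1) < 1 := by
    rw [div_lt_one (by positivity)]
    linarith
  have h5 : (0 : ℝ) < (k ! : ℝ) := by positivity
  have h6 : 0 < 1 - y / (k + 1 : ℝ) := by linarith
  positivity

/-- the integral over the rotations of a plane wave -/
theorem int_wave (z : ℂ) (k : ℕ) :
    ∫ t in (0 : ℝ)..(2 * Real.pi), cexp (I * ((cexp (t * I) * z).re : ℂ)) *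
      cexp (-(k * t * I)) =
      2 * Real.pi * (I * z / 2) ^ k * ((EE k (‖z‖ ^ 2 / 4) : ℝ) : ℂ) := by
  have h1 := int_F z k
  have hinj : Function.Injective fun q : ℕ => ((q + k, q) : ℕ × ℕ) := fun a b h =>
    (Prod.mk.inj h).2
  have h2 := (hinj.hasSum_iff (f := fun p : ℕ × ℕ => cf z p *
    (if (p.1 : ℤ) - p.2 - k = 0 then 2 * (Real.pi : ℂ) else 0)) (by
      rintro ⟨p, q⟩ hpq
      change cf z (p, q) * (if (p : ℤ) - q - k = 0 then 2 * (Real.pi : ℂ) else 0) = 0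
      rw [if_neg, mul_zero]
      intro h
      apply hpq
      refine ⟨q, ?_⟩
      change ((q + k, q) : ℕ × ℕ) = (p, q)
      congr 1
      omega)).2 h1
  have h3 := ((EE_hasSum k (y := ‖z‖ ^ 2 / 4) (by positivity)).mapL Complex.ofRealCLM).mul_left
    (2 * (Real.pi : ℂ) * (I * z / 2) ^ k)
  refine h2.unique ?_
  have h4 : ((fun p : ℕ × ℕ => cf z p *
      (if (p.1 : ℤ) - p.2 - k = 0 then 2 * (Real.pi : ℂ) else 0)) ∘ fun q : ℕ =>
        ((q + k, q) : ℕ × ℕ)) = fun q : ℕ => 2 * (Real.pi : ℂ) * (I * z / 2) ^ k *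
        Complex.ofRealCLM ((-1) ^ q * ((‖z‖ ^ 2 / 4) ^ q / ((q ! : ℝ) * ((q + k)! : ℝ)))) := by
    funext q
    change cf z (q + k, q) * (if ((q + k : ℕ) : ℤ) - (q : ℕ) - k = 0 then
      2 * (Real.pi : ℂ) else 0) = _
    rw [if_pos (by push_cast; ring), cf, Complex.ofRealCLM_apply]
    push_cast
    have e1 : (z * (starRingEnd ℂ) z) = ((‖z‖ : ℂ)) ^ 2 := Complex.mul_conj' z
    have e2 : (I * z / 2) ^ q * (I * (starRingEnd ℂ) z / 2) ^ q =
        (-1) ^ q * ((‖z‖ : ℂ) ^ 2 / 4) ^ q := by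
      rw [← mul_pow, ← mul_pow]
      congr 1
      rw [← e1]
      linear_combination (z * (starRingEnd ℂ) z / 4) * I_sq
    have a1 : (q ! : ℂ) ≠ 0 := by exact_mod_cast (Nat.factorial_pos q).ne'
    have a2 : ((q + k)! : ℂ) ≠ 0 := by exact_mod_cast (Nat.factorial_pos (q + k)).ne'
    calc (I * z / 2) ^ (q + k) / ((q + k)! : ℂ) *
        ((I * (starRingEnd ℂ) z / 2) ^ q / (q ! : ℂ)) * (2 * (Real.pi : ℂ)) =
        2 * Real.pi * (I * z / 2) ^ k * (((I * z / 2) ^ q * (I * (starRingEnd ℂ) z / 2) ^ q) /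
          ((q ! : ℂ) * ((q + k)! : ℂ))) := by
          rw [pow_add]
          field_simp
      _ = _ := by
          rw [e2]
          ring
  rw [h4]
  exact h3

/-- the cosine wave -/
theorem int_cos (z : ℂ) {k : ℕ} (hk : Even k) :
    ∫ t in (0 : ℝ)..(2 * Real.pi), ((Real.cos (cexp (t * I) * z).re : ℝ) : ℂ) *
      cexp (-(k * t * I)) =
      2 * Real.pi * (I * z / 2) ^ k * ((EE k (‖z‖ ^ 2 / 4) : ℝ) : ℂ) := by
  have h1 := int_wave z k
  have h2 := int_wave (-z) k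
  rw [norm_neg] at h2
  have h3 : (I * -z / 2) ^ k = (I * z / 2) ^ k := by
    rw [show I * -z / 2 = -(I * z / 2) by ring, hk.neg_pow]
  rw [h3] at h2
  have h4 : ∀ t : ℝ, ((Real.cos (cexp (t * I) * z).re : ℝ) : ℂ) * cexp (-(k * t * I)) =
      (1 / 2 : ℂ) * (cexp (I * ((cexp (t * I) * z).re : ℂ)) * cexp (-(k * t * I))) +
      (1 / 2 : ℂ) * (cexp (I * ((cexp (t * I) * -z).re : ℂ)) * cexp (-(k * t * I))) := by
    intro t
    rw [Complex.ofReal_cos, Complex.cos, mul_neg, Complex.neg_re, Complex.ofReal_neg]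
    have e1 : ((cexp (t * I) * z).re : ℂ) * I = I * ((cexp (t * I) * z).re : ℂ) := mul_comm _ _
    have e2 : -((cexp (t * I) * z).re : ℂ) * I = I * -((cexp (t * I) * z).re : ℂ) := mul_comm _ _
    rw [e1, e2]
    ring
  have hi : ∀ y : ℂ, IntervalIntegrable (fun t : ℝ => (1 / 2 : ℂ) *
      (cexp (I * ((cexp (t * I) * y).re : ℂ)) * cexp (-(k * t * I)))) volume 0
      (2 * Real.pi) := fun y => Continuous.intervalIntegrable (by fun_prop) _ _
  rw [intervalIntegral.integral_congr fun t _ => h4 t, intervalIntegral.integral_add (hi z) (hi (-z)),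
    intervalIntegral.integral_const_mul, intervalIntegral.integral_const_mul, h1, h2]
  ring

theorem conj_S1 (w : NFP.S1) : (starRingEnd ℂ) (w : ℂ) = (w : ℂ)⁻¹ := by
  have h1 : ‖(w : ℂ)‖ = 1 := mem_sphere_zero_iff_norm.1 w.2
  rw [Complex.inv_def, Complex.normSq_eq_norm_sq, h1]
  simp

/-- the positive coefficients -/
theorem pos_coef (s : Measure NFP.S1) [IsFiniteMeasure s] {a : ℂ} (h0 : 0 < ‖a‖) (h3 : ‖a‖ ≤ 3)
    (c : ℝ) (hK : ∀ t : ℝ, NFP.dirK s (cexp (t * I) * a) = c) {k : ℕ} (hk : Even k)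
    (hk2 : 2 ≤ k) : NFP.cof s k = 0 := by
  have hk0 : k ≠ 0 := by omega
  -- the Fourier coefficient of the constant
  have h1 : ∫ t in (0 : ℝ)..(2 * Real.pi), ((NFP.dirK s (cexp (t * I) * a) : ℝ) : ℂ) *
      cexp (-(k * t * I)) = 0 := by
    simp only [hK]
    rw [intervalIntegral.integral_const_mul]
    have h2 : ∀ t : ℝ, cexp (-(k * t * I)) = cexp (((-(k : ℤ) : ℤ) : ℂ) * t * I) := by
      intro t
      congr 1
      push_cast
      ring
    simp only [h2]
    rw [int_exp, if_neg (by omega), mul_zero]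
  have h2 : ∀ t : ℝ, ((NFP.dirK s (cexp (t * I) * a) : ℝ) : ℂ) * cexp (-(k * t * I)) =
      ∫ w : NFP.S1, ((Real.cos (cexp (t * I) * (a * (starRingEnd ℂ) (w : ℂ))).re : ℝ) : ℂ) *
        cexp (-(k * t * I)) ∂s := by
    intro t
    rw [MeasureTheory.integral_mul_const, integral_complex_ofReal, NFP.dirK]
    simp only [mul_assoc]
  simp only [h2] at h1
  rw [intervalIntegral_integral_swap] at h1
  · have h4 : ∀ w : NFP.S1, ∫ t in (0 : ℝ)..(2 * Real.pi),
        ((Real.cos (cexp (t * I) * (a * (starRingEnd ℂ) (w : ℂ))).re : ℝ) : ℂ) *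
          cexp (-(k * t * I)) =
        2 * Real.pi * (I * a / 2) ^ k * ((EE k (‖a‖ ^ 2 / 4) : ℝ) : ℂ) *
          (w : ℂ) ^ (-(k : ℤ)) := by
      intro w
      rw [int_cos _ hk, norm_mul, RCLike.norm_conj, mem_sphere_zero_iff_norm.1 w.2, mul_one,
        conj_S1, zpow_neg, zpow_natCast, ← inv_pow]
      rw [show I * (a * (w : ℂ)⁻¹) / 2 = I * a / 2 * (w : ℂ)⁻¹ by ring, mul_pow]
      ring
    simp only [h4] at h1
    rw [MeasureTheory.integral_const_mul] at h1
    have hE : EE k (‖a‖ ^ 2 / 4) ≠ 0 := (EE_pos hk2 (by positivity) (by nlinarith)).ne'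
    have ha : a ≠ 0 := norm_pos_iff.1 h0
    have hc : 2 * Real.pi * (I * a / 2) ^ k * ((EE k (‖a‖ ^ 2 / 4) : ℝ) : ℂ) ≠ 0 := by
      refine mul_ne_zero (mul_ne_zero (mul_ne_zero two_ne_zero ?_) (pow_ne_zero _ ?_)) ?_
      · exact_mod_cast Real.pi_ne_zero
      · exact div_ne_zero (mul_ne_zero I_ne_zero ha) two_ne_zero
      · exact_mod_cast hE
    exact (mul_eq_zero.1 h1).resolve_left hc
  · have hf : IsFiniteMeasure ((volume : Measure ℝ).restrict (Set.uIoc (0 : ℝ) (2 * Real.pi))) := by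
      rw [Set.uIoc_of_le (by positivity)]
      infer_instance
    refine Integrable.of_bound (C := 1) ?_ ?_
    · refine Continuous.aestronglyMeasurable ?_
      unfold Function.uncurry
      have c1 : Continuous fun p : ℝ × NFP.S1 => ((p.2 : ℂ)) := by fun_prop
      fun_prop
    · refine Filter.Eventually.of_forall fun p => ?_
      obtain ⟨t, w⟩ := p
      change ‖((Real.cos (cexp (t * I) * (a * (starRingEnd ℂ) (w : ℂ))).re : ℝ) : ℂ) *
        cexp (-(k * t * I))‖ ≤ 1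
      have h5 : -((k : ℂ) * t * I) = ((-(k * t) : ℝ) : ℂ) * I := by push_cast; ring
      rw [norm_mul, h5, Complex.norm_exp_ofReal_mul_I, mul_one, Complex.norm_real]
      exact Real.abs_cos_le_one _

theorem cof_neg (s : Measure NFP.S1) (k : ℤ) :
    NFP.cof s (-k) = (starRingEnd ℂ) (NFP.cof s k) := by
  rw [NFP.cof, NFP.cof, ← integral_conj]
  refine integral_congr_ae (Filter.Eventually.of_forall fun w => ?_)
  change (w : ℂ) ^ (- -k) = (starRingEnd ℂ) ((w : ℂ) ^ (-k))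
  rw [map_zpow₀, conj_S1, inv_zpow, ← zpow_neg]

end

end BSL.DRC

namespace BSL

/-- DRC. -/
theorem t_DRC : StmtDrc := by
  intro s a hs _ h0 h3 hK k hk hk0
  obtain ⟨n, rfl | rfl⟩ := k.eq_nat_or_neg
  · have hn : Even n := (Int.even_coe_nat n).1 hk
    have hn0 : n ≠ 0 := by
      rintro rfl
      exact hk0 rfl
    have hn2 : 2 ≤ n := by
      obtain ⟨r, rfl⟩ := hn
      omega
    exact DRC.pos_coef s h0 h3 (Berry.waveK a) hK hn hn2
  · have hn : Even n := (Int.even_coe_nat n).1 (even_neg.1 hk)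
    have hn0 : n ≠ 0 := by
      rintro rfl
      exact hk0 rfl
    have hn2 : 2 ≤ n := by
      obtain ⟨r, rfl⟩ := hn
      omega
    have h1 := DRC.pos_coef s h0 h3 (Berry.waveK a) hK hn hn2
    have h2 := DRC.cof_neg s n
    rw [h1, map_zero] at h2
    exact h2

end BSL
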