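import Pool.Agent.BWM.C40

/-!
# Benjamini-Schramm limits of eigenfunctions on surfaces of negative curvature: definitions

Theorem B of MP_4fa179_mp (notes 2816 and 2824 of the team database): every limit `F` of the local
waves of normalised eigenfunctions on a closed surface of negative curvature, with `E F(0)² = 1`, has
`E F(0)⁴ ≥ 3`. No bound for the fourth moments of the eigenfunctions is assumed.
-/

open Complex MeasureTheory Filter Topology Set
open scoped ContDiff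

namespace BSL

open QE QJ U3

noncomputable section

/-! ### Harmonic analysis -/

/-- the half open square with the corner `c` and the side `l` -/
def Sq (c : ℂ) (l : ℝ) : Set ℂ :=
  {z | c.re ≤ z.re ∧ z.re < c.re + l ∧ c.im ≤ z.im ∧ z.im < c.im + l}

/-- the Beurling transform of a smooth function with compact support -/
def beu (f : ℂ → ℂ) (z : ℂ) : ℂ := dz (cauchy f) z

/-- the squares of the functions `uₙ` are uniformly integrable -/
def UIs (u : ℕ → ℂ → ℂ) : Prop :=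
  ∀ ε > 0, ∃ T : ℝ, ∀ᶠ n in atTop, ∫ z, (if T < ‖u n z‖ then ‖u n z‖ ^ 2 else 0) ≤ ε

/-- what the truncated div-curl lemma needs of a sequence of currents `Aₙ dz + Bₙ dz̄` with
`∂̄ A + ∂ B = G`, and of the weights `θₙ`; `a` and `b` are the weak limits -/
structure Cur (K : Set ℂ) (θ : ℕ → ℂ → ℝ) (A B G : ℕ → ℂ → ℂ) (a b : ℂ → ℂ) : Prop where
  sA : ∀ n, ContDiff ℝ ∞ (A n)
  sB : ∀ n, ContDiff ℝ ∞ (B n)
  sG : ∀ n, ContDiff ℝ ∞ (G n)
  kA : ∀ n, tsupport (A n) ⊆ K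
  kB : ∀ n, tsupport (B n) ⊆ K
  kG : ∀ n, tsupport (G n) ⊆ K
  eq : ∀ n z, dzb (A n) z + dz (B n) z = G n z
  tA : Tendsto (fun n => ∫ z, (1 - θ n z) * ‖A n z‖) atTop (𝓝 0)
  tB : Tendsto (fun n => ∫ z, (1 - θ n z) * ‖B n z‖) atTop (𝓝 0)
  tG : Tendsto (fun n => ∫ z, (1 - θ n z) * ‖G n z‖) atTop (𝓝 0)
  uA : UIs fun n z => (θ n z : ℂ) * A n z
  uB : UIs fun n z => (θ n z : ℂ) * B n z
  uG : UIs fun n z => (θ n z : ℂ) * G n z
  la : MemLp a 2 (volume : Measure ℂ)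
  lb : MemLp b 2 (volume : Measure ℂ)
  wA : ∀ η : ℂ → ℂ, ContDiff ℝ ∞ η → HasCompactSupport η →
    Tendsto (fun n => ∫ z, η z * A n z) atTop (𝓝 (∫ z, η z * a z))
  wB : ∀ η : ℂ → ℂ, ContDiff ℝ ∞ η → HasCompactSupport η →
    Tendsto (fun n => ∫ z, η z * B n z) atTop (𝓝 (∫ z, η z * b z))
  wG : ∃ g : ℂ → ℂ, ∀ η : ℂ → ℂ, ContDiff ℝ ∞ η → HasCompactSupport η →
    Tendsto (fun n => ∫ z, η z * G n z) atTop (𝓝 (∫ z, η z * g z))

end

end BSL
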