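import Pool.Agent.BWM.C17
import Pool.Agent.BWM.C18

/-!
# Theorem B, the local theory with weights: definitions (helper67, helper2)

`φₙ` are eigenfunctions on the open set `V` (`U3.LocB`), `θₙ` are smooth weights with values in
`[0, 1]`, which cut off the places where the local mean square of `φₙ` is large.
-/

open Complex MeasureTheory Filter Topology Set
open scoped ContDiff

namespace BSL

open QE QJ U3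

noncomputable section

/-- the local mean square on the scale `L h` -/
def Mn (L : ℝ) (h : ℕ → ℝ) (φ : ℕ → ℂ → ℂ) (n : ℕ) (z : ℂ) : ℝ :=
  1 + 1 / h n ^ 2 * ∫ w in Metric.closedBall z (L * h n), ‖φ n w‖ ^ 2

/-- `θₙ` are weights for the eigenfunctions `φₙ`: they cut off a negligible part of the mass, the
squares of `θₙ` times the local mean squares are uniformly integrable, and the gradient of `θₙ` is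
small at the scale `h` -/
structure Wt (V : Set ℂ) (σ : ℂ → ℝ) (h : ℕ → ℝ) (φ : ℕ → ℂ → ℂ) (L : ℝ) (θ : ℕ → ℂ → ℝ) : Prop
    extends LocB V σ h φ where
  smθ : ∀ n, ContDiff ℝ ∞ (θ n)
  nonneg : ∀ n z, 0 ≤ θ n z
  le_one : ∀ n z, θ n z ≤ 1
  big : ∀ K, IsCompact K → K ⊆ V →
    Tendsto (fun n => ∫ z in K, (1 - θ n z) * Mn L h φ n z) atTop (𝓝 0)
  ui : ∀ K, IsCompact K → K ⊆ V → ∀ ε > 0, ∃ T : ℝ, ∀ᶠ n in atTop,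
    ∫ z in K, (if T < θ n z * Mn L h φ n z then (θ n z * Mn L h φ n z) ^ 2 else 0) ≤ ε
  grad : ∀ K, IsCompact K → K ⊆ V →
    Tendsto (fun n => h n * ∫ z in K, ‖dz (fun w => (θ n w : ℂ)) z‖ * Mn L h φ n z ^ 2) atTop (𝓝 0)

/-- the same in terms of the jets: the form used in the local theory (a consequence of `Wt` for every
`L > 0`) -/
structure WtR (V : Set ℂ) (σ : ℂ → ℝ) (h : ℕ → ℝ) (φ : ℕ → ℂ → ℂ) (θ : ℕ → ℂ → ℝ) : Prop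
    extends LocB V σ h φ where
  smθ : ∀ n, ContDiff ℝ ∞ (θ n)
  nonneg : ∀ n z, 0 ≤ θ n z
  le_one : ∀ n z, θ n z ≤ 1
  big : ∀ K, IsCompact K → K ⊆ V → ∀ N : ℕ,
    Tendsto (fun n => ∫ z in K, (1 - θ n z) * RR h φ N n z) atTop (𝓝 0)
  ui : ∀ K, IsCompact K → K ⊆ V → ∀ N : ℕ, ∀ ε > 0, ∃ T : ℝ, ∀ᶠ n in atTop,
    ∫ z in K, (if T < θ n z * RR h φ N n z then (θ n z * RR h φ N n z) ^ 2 else 0) ≤ ε
  grad : ∀ K, IsCompact K → K ⊆ V → ∀ N : ℕ,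
    Tendsto (fun n => h n * ∫ z in K, ‖dz (fun w => (θ n w : ℂ)) z‖ * RR h φ N n z ^ 2) atTop (𝓝 0)

/-- the products of two jets converge weakly to the functions `(-1)^m u_{j+m}` -/
structure JL (V : Set ℂ) (σ : ℂ → ℝ) (h : ℕ → ℝ) (φ : ℕ → ℂ → ℂ) (u : ℤ → ℂ → ℂ) : Prop where
  loc : ∀ k, LocL2 V (u k)
  lim : ∀ (j m : ℤ) (ζ : ℂ → ℂ), Test V ζ →
    Tendsto (fun n => ∫ z, ζ z * (E σ h φ j n z * E σ h φ m n z)) atTop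
      (𝓝 (∫ z, ζ z * ((-1) ^ m * u (j + m) z)))

/-- the four-jet integrals with weights -/
def E4w (σ : ℂ → ℝ) (h : ℕ → ℝ) (φ : ℕ → ℂ → ℂ) (θ : ℕ → ℂ → ℝ) (ζ : ℂ → ℂ) (n : ℕ)
    (a b c d : ℤ) : ℂ :=
  ∫ z, ζ z * ((θ n z : ℂ) ^ 2 * (E σ h φ a n z * E σ h φ b n z * (E σ h φ c n z * E σ h φ d n z)))

/-- the three-jet integrals with weights -/
def E3w (σ : ℂ → ℝ) (h : ℕ → ℝ) (φ : ℕ → ℂ → ℂ) (θ : ℕ → ℂ → ℝ) (ζ : ℂ → ℂ) (n : ℕ)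
    (a b c : ℤ) : ℂ :=
  ∫ z, ζ z * ((θ n z : ℂ) * (E σ h φ a n z * E σ h φ b n z * E σ h φ c n z))

/-- the four-jet integrals minus the integrals of the Wick sums -/
def Yw (σ : ℂ → ℝ) (h : ℕ → ℝ) (φ : ℕ → ℂ → ℂ) (θ : ℕ → ℂ → ℝ) (u : ℤ → ℂ → ℂ) (ζ : ℂ → ℂ)
    (n : ℕ) (a b c d : ℤ) : ℂ := E4w σ h φ θ ζ n a b c d - Gam u ζ a b c d

/-- no directional atoms, in the mean -/
def NoAt (V : Set ℂ) (u : ℤ → ℂ → ℂ) : Prop :=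
  ∀ ζ : ℂ → ℝ, Test V (fun z => (ζ z : ℂ)) → (∀ z, 0 ≤ ζ z) →
    Tendsto (fun N : ℕ => (1 / (N : ℝ)) * ∑ k ∈ Finset.Ioo (-(N : ℤ)) N,
      ∫ z, ζ z * ‖u k z‖ ^ 2) atTop (𝓝 0)

/-! ### Statements -/

/-- WTR: from local means to jets -/
def StmtWtR : Prop :=
  ∀ (V : Set ℂ) (σ : ℂ → ℝ) (h : ℕ → ℝ) (φ : ℕ → ℂ → ℂ) (L : ℝ) (θ : ℕ → ℂ → ℝ), 0 < L →
    Wt V σ h φ L θ → WtR V σ h φ θ

/-- MACW: the currents -/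
def StmtMacW : Prop :=
  ∀ (V : Set ℂ) (σ : ℂ → ℝ) (h : ℕ → ℝ) (φ : ℕ → ℂ → ℂ) (θ : ℕ → ℂ → ℝ) (u : ℤ → ℂ → ℂ),
    WtR V σ h φ θ → JL V σ h φ u → ∀ ζ : ℂ → ℂ, Test V ζ → ∀ a b c d : ℤ,
    Tendsto (fun n => Yw σ h φ θ u ζ n (a + 1) (b + 1) c d - Yw σ h φ θ u ζ n a b (c + 1) (d + 1))
      atTop (𝓝 0)

/-- IBPW: integration by parts -/
def StmtIbpW : Prop :=
  ∀ (V : Set ℂ) (σ : ℂ → ℝ) (h : ℕ → ℝ) (φ : ℕ → ℂ → ℂ) (θ : ℕ → ℂ → ℝ),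
    WtR V σ h φ θ → ∀ ζ : ℂ → ℂ, Test V ζ →
    (∀ a b c d : ℤ, Tendsto (fun n => E4w σ h φ θ ζ n (a + 1) b c d + E4w σ h φ θ ζ n a (b + 1) c d
      + E4w σ h φ θ ζ n a b (c + 1) d + E4w σ h φ θ ζ n a b c (d + 1)) atTop (𝓝 0)) ∧
    (∀ a b c : ℤ, Tendsto (fun n => E3w σ h φ θ ζ n (a + 1) b c + E3w σ h φ θ ζ n a (b + 1) c
      + E3w σ h φ θ ζ n a b (c + 1)) atTop (𝓝 0)) ∧
    (∀ a b c : ℤ, Tendsto (fun n => E3w σ h φ θ ζ n (a - 1) b c + E3w σ h φ θ ζ n a (b - 1) c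
      + E3w σ h φ θ ζ n a b (c - 1)) atTop (𝓝 0))

/-- PATW: the four-jet integrals of total index zero -/
def StmtPatW : Prop :=
  ∀ (V : Set ℂ) (σ : ℂ → ℝ) (h : ℕ → ℝ) (φ : ℕ → ℂ → ℂ) (θ : ℕ → ℂ → ℝ) (u : ℤ → ℂ → ℂ),
    WtR V σ h φ θ → JL V σ h φ u → ∀ ζ : ℂ → ℂ, Test V ζ → ∀ a b c d : ℤ, a + b + c + d = 0 →
    Tendsto (fun n => Yw σ h φ θ u ζ n a b c d - pat a b c d * Yw σ h φ θ u ζ n 0 0 0 0) atTop (𝓝 0)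

/-- POSW: the lower bound for the fourth moments with weights -/
def StmtPosW : Prop :=
  ∀ (V : Set ℂ) (σ : ℂ → ℝ) (h : ℕ → ℝ) (φ : ℕ → ℂ → ℂ) (θ : ℕ → ℂ → ℝ) (u : ℤ → ℂ → ℂ),
    WtR V σ h φ θ → JL V σ h φ u → NoAt V u → ∀ ζ : ℂ → ℝ, Test V (fun z => (ζ z : ℂ)) →
    (∀ z, 0 ≤ ζ z) → ∀ ε > 0, ∀ᶠ n in atTop,
      3 * (∫ z, ζ z * ‖u 0 z‖ ^ 2) - ε ≤ ∫ z, ζ z * (θ n z ^ 2 * (φ n z).re ^ 4)

/-- the sum over the indices of total zero in a fourth moment of a linear combination of jets -/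
def Sum4 (σ : ℂ → ℝ) (h : ℕ → ℝ) (φ : ℕ → ℂ → ℂ) (θ : ℕ → ℂ → ℝ) (ζ : ℂ → ℂ) (I : Finset ℤ)
    (t : ℤ → ℂ) (n : ℕ) : ℂ :=
  ∑ a ∈ I, ∑ b ∈ I, ∑ c ∈ I, ∑ d ∈ I, if a + b + c + d = 0 then
    (t a * t b * t c * t d) * E4w σ h φ θ ζ n a b c d else 0

/-- the second moment of a linear combination of jets (divided by the one of the function) -/
def tau (I : Finset ℤ) (t : ℤ → ℂ) : ℂ := ∑ a ∈ I, ∑ b ∈ I, if a + b = 0 then (-1) ^ a * (t a * t b) else 0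

/-- LINW: the fourth moments of linear combinations of jets -/
def StmtLinW : Prop :=
  ∀ (V : Set ℂ) (σ : ℂ → ℝ) (h : ℕ → ℝ) (φ : ℕ → ℂ → ℂ) (θ : ℕ → ℂ → ℝ) (u : ℤ → ℂ → ℂ),
    WtR V σ h φ θ → JL V σ h φ u → NoAt V u → ∀ ζ : ℂ → ℝ, Test V (fun z => (ζ z : ℂ)) →
    (∀ z, 0 ≤ ζ z) → ∀ (N : ℕ) (t : ℤ → ℂ), (∀ j, t (-j) = (-1) ^ j * (starRingEnd ℂ) (t j)) →
    ∀ ε > 0, ∀ᶠ n in atTop,
      ‖tau (Finset.Icc (-(N : ℤ)) N) t‖ ^ 2 * (∫ z, ζ z * (θ n z ^ 2 * (φ n z).re ^ 4)) - ε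
        ≤ (Sum4 σ h φ θ (fun z => (ζ z : ℂ)) (Finset.Icc (-(N : ℤ)) N) t n).re

/-- CUBW: the three-jet integrals with weights tend to zero -/
def StmtCubW : Prop :=
  ∀ (V : Set ℂ) (σ : ℂ → ℝ) (h : ℕ → ℝ) (φ : ℕ → ℂ → ℂ) (θ : ℕ → ℂ → ℝ) (u : ℤ → ℂ → ℂ),
    WtR V σ h φ θ → JL V σ h φ u → NoAt V u → ∀ ζ : ℂ → ℂ, Test V ζ → ∀ a b c : ℤ, a + b + c = 0 →
      Tendsto (fun n => E3w σ h φ θ ζ n a b c) atTop (𝓝 0)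

end

end BSL
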