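import Pool.Agent.ONE.Fin
import Pool.Agent.BSL.All

/-!
# Order four on closed surfaces of negative curvature: moments and limit fields

Let `Γ ⊂ SL(2, ℝ)` be countable with compact quotient `Γ \ ℍ` (fundamental domain `D`), with a metric
`e^{2ρ} (dx² + dy²) / y²` of negative curvature `- e^{-2ρ} (1 + y² Δ ρ)`. Let `φₙ` be real smooth
`Γ`-invariant Laplace eigenfunctions of this metric, normalised in `L²`, with eigenvalues `mₙ² → ∞`.
Let `Fₙ(x)` be `φₙ` near a uniform random point, in a uniform random frame, at distances `x / mₙ`, and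
`K = J₀(|x|)` the covariance function of the random monochromatic wave. At order four the Gaussian
values are minimal, and they are attained only by quantum ergodic sequences:

* (A) for the moments of `Fₙ`. For every linear statistic `Tₙ = ∑ cᵢ Fₙ(xᵢ)`, with
  `τ² = ∑ cᵢ cⱼ K(xᵢ - xⱼ)`, and all continuous `Γ`-invariant functions `w > 0` and `g`,
  `liminf (avg (w g²) E (w Tₙ⁴) - 3 τ⁴ (avg (w g φₙ²))²) ≥ 0`; the same for `Fₙ(x)² Fₙ(y)²` with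
  `1 + 2 K(x - y)²`. If equality holds in the limit for one `Tₙ` with at least two points, or for one
  pair `x ≠ y` (`w = g = 1`), then the sequence is quantum ergodic and all mixed moments of order at
  most four converge to those of the random monochromatic wave, and conversely.
* (B) for the moments of every limit in law `F` of the `Fₙ` (finite-dimensional distributions) with
  `E F(0)² = 1`, without bounds for the moments of `φₙ`.
-/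

open MeasureTheory UpperHalfPlane MatrixGroups Berry Filter Topology
open scoped ContDiff

theorem BSL.result_AB
    (Γ : Subgroup SL(2, ℝ)) [Countable Γ] (ρ : ℍ → ℝ)
    (hρ : ContDiffOn ℝ ∞ (fun w : ℂ => ρ (ofComplex w)) {w | 0 < w.im})
    (hρΓ : ∀ γ ∈ Γ, ∀ z, ρ (γ • z) = ρ z)
    (hneg : ∀ z : ℍ, 0 < 1 + z.im ^ 2 * Laplacian.laplacian (fun w : ℂ => ρ (ofComplex w)) z)
    (D : Set ℍ) (hDm : MeasurableSet D) (hD : IsFundamentalDomain Γ D (volume : Measure ℍ))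
    (hK : ∃ K : Set ℍ, IsCompact K ∧ ∀ z, ∃ γ ∈ Γ, γ • z ∈ K)
    (φ : ℕ → ℍ → ℝ) (m : ℕ → ℝ) (hφ : REigenSeq Γ ρ φ m)
    (hs : ∀ n, ContDiffOn ℝ ∞ (fun w : ℂ => φ n (ofComplex w)) {w | 0 < w.im})
    (hn : ∀ n, rAvg ρ D (fun z => φ n z ^ 2) = 1) :
    -- (A) the moments of the local waves
    ((∀ w g : ℍ → ℝ, Continuous w → (∀ z, 0 < w z) → (∀ γ ∈ Γ, ∀ z, w (γ • z) = w z) →
      Continuous g → (∀ γ ∈ Γ, ∀ z, g (γ • z) = g z) →
      (∀ (r : ℕ) (c : Fin r → ℝ) (x : Fin r → ℂ), ∀ ε > 0, ∀ᶠ n in atTop,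
        3 * (∑ i, ∑ j, c i * c j * waveK (x i - x j)) ^ 2
            * rAvg ρ D (fun z => w z * g z * φ n z ^ 2) ^ 2 - ε
          ≤ rAvg ρ D (fun z => w z * g z ^ 2)
            * ∫ p, w p.1 * (∑ i, c i * rWave ρ (φ n) (m n) (x i) p) ^ 4 ∂(rFrameProb ρ D)) ∧
      ∀ x y : ℂ, ∀ ε > 0, ∀ᶠ n in atTop,
        (1 + 2 * waveK (x - y) ^ 2) * rAvg ρ D (fun z => w z * g z * φ n z ^ 2) ^ 2 - ε
          ≤ rAvg ρ D (fun z => w z * g z ^ 2)
            * ∫ p, w p.1 * (rWave ρ (φ n) (m n) x p ^ 2 * rWave ρ (φ n) (m n) y p ^ 2)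
              ∂(rFrameProb ρ D)) ∧
    ∀ (r : ℕ) (c : Fin r → ℝ) (x : Fin r → ℂ), Function.Injective x →
      (∃ i j, i ≠ j ∧ c i ≠ 0 ∧ c j ≠ 0) → ∀ y z : ℂ, y ≠ z → List.TFAE [
        Tendsto (fun n => ∫ p, (∑ i, c i * rWave ρ (φ n) (m n) (x i) p) ^ 4 ∂(rFrameProb ρ D))
          atTop (𝓝 (3 * (∑ i, ∑ j, c i * c j * waveK (x i - x j)) ^ 2)),
        Tendsto (fun n => ∫ p, rWave ρ (φ n) (m n) y p ^ 2 * rWave ρ (φ n) (m n) z p ^ 2
          ∂(rFrameProb ρ D)) atTop (𝓝 (1 + 2 * waveK (y - z) ^ 2)),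
        QE.QuantumErgodic ρ φ m ∧ Tendsto (fun n => rAvg ρ D fun z => φ n z ^ 4) atTop (𝓝 3),
        RGaussUpToFour ρ D φ m,
        RLocalGauss ρ φ m]) ∧
    -- (B) the moments of the limit fields
    ∀ (Ω : Type) [MeasurableSpace Ω] (P : Measure Ω) [IsProbabilityMeasure P] (F : ℂ → Ω → ℝ),
      (∀ x, Measurable (F x)) →
      (∀ (r : ℕ) (x : Fin r → ℂ) (G : (Fin r → ℝ) → ℝ), Continuous G → (∃ C, ∀ t, |G t| ≤ C) →
        Tendsto (fun n => ∫ p, G (fun i => rWave ρ (φ n) (m n) (x i) p) ∂(rFrameProb ρ D))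
          atTop (𝓝 (∫ o, G (fun i => F (x i) o) ∂P))) →
      ∫ o, F 0 o ^ 2 ∂P = 1 →
      3 ≤ ∫⁻ o, ENNReal.ofReal (F 0 o ^ 4) ∂P ∧
      (Integrable (fun o => F 0 o ^ 4) P →
        (∀ x : ℂ, Integrable (F x) P ∧ ∫ o, F x o ∂P = 0) ∧
        (∀ x y : ℂ, Integrable (fun o => F x o * F y o) P ∧
          ∫ o, F x o * F y o ∂P = waveK (x - y)) ∧
        (∀ x y z : ℂ, Integrable (fun o => F x o * F y o * F z o) P ∧
          ∫ o, F x o * F y o * F z o ∂P = 0) ∧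
        (∀ (r : ℕ) (c : Fin r → ℝ) (x : Fin r → ℂ),
          Integrable (fun o => (∑ i, c i * F (x i) o) ^ 4) P ∧
          3 * (∑ i, ∑ j, c i * c j * waveK (x i - x j)) ^ 2
            ≤ ∫ o, (∑ i, c i * F (x i) o) ^ 4 ∂P) ∧
        (∀ x y : ℂ, Integrable (fun o => F x o ^ 2 * F y o ^ 2) P ∧
          1 + 2 * waveK (x - y) ^ 2 ≤ ∫ o, F x o ^ 2 * F y o ^ 2 ∂P) ∧
        (∀ w : ℍ → ℝ, Continuous w → (∀ γ ∈ Γ, ∀ z, w (γ • z) = w z) → ∀ ε > 0,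
          ∀ᶠ n in atTop, (rAvg ρ D (fun z => w z * φ n z ^ 2) - rAvg ρ D w) ^ 2
            ≤ ((∫ o, F 0 o ^ 4 ∂P) - 3) / 3
              * (rAvg ρ D (fun z => w z ^ 2) - rAvg ρ D w ^ 2) + ε) ∧
        ((∃ x y : ℂ, x ≠ y ∧ ∫ o, F x o ^ 2 * F y o ^ 2 ∂P = 1 + 2 * waveK (x - y) ^ 2) ∨
          (∃ (r : ℕ) (c : Fin r → ℝ) (x : Fin r → ℂ), Function.Injective x ∧
            (∃ i j, i ≠ j ∧ c i ≠ 0 ∧ c j ≠ 0) ∧ ∫ o, (∑ i, c i * F (x i) o) ^ 4 ∂P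
              = 3 * (∑ i, ∑ j, c i * c j * waveK (x i - x j)) ^ 2) →
          QE.QuantumErgodic ρ φ m ∧
          ∀ x₁ x₂ x₃ x₄ : ℂ, ∫ o, F x₁ o * F x₂ o * F x₃ o * F x₄ o ∂P
            = waveK (x₁ - x₂) * waveK (x₃ - x₄) + waveK (x₁ - x₃) * waveK (x₂ - x₄)
              + waveK (x₁ - x₄) * waveK (x₂ - x₃))) := by
  have H : ONE.Hyp Γ ρ D φ m := ⟨⟨hρ, hρΓ, hK⟩, hneg, hDm, hD, hφ, hs, hn⟩
  have hF := QE.NC.final Γ ρ hρ hρΓ hneg D hDm hD hK φ m hφ hs hn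
  exact ⟨⟨fun w g hw hw0 hwi hg hgi => ⟨hF w g hw hw0 hwi hg hgi,
      fun x y ε hε => ONE.corr_lower H hw hw0 hwi hg hgi x y hε⟩,
    fun r c x hx hc y z hyz => ONE.tfae_final H hx hc hyz⟩,
    fun Ω _ P _ F hFm hlaw hF2 => BSL.flm_closed Γ ρ hρ hρΓ hneg D hDm hD hK φ m hφ hs hn Ω P F
      hFm hlaw hF2⟩
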