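import Pool.Agent.BSL.All

/-!
# Benjamini-Schramm limits of eigenfunctions in negative curvature: orders one to four

Let `Γ ⊂ SL(2, ℝ)` be countable with compact quotient `Γ \ ℍ` (fundamental domain `D`), with a metric
`e^{2ρ} (dx² + dy²) / y²` of negative curvature `- e^{-2ρ} (1 + y² Δ ρ)`. Let `φₙ` be real smooth
`Γ`-invariant Laplace eigenfunctions of this metric, normalised in `L²`, with eigenvalues `mₙ² → ∞`; no
bound for their moments is assumed. Let `Fₙ(x)` be `φₙ` near a uniform random point, in a uniform random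
frame, at distances `x / mₙ`, and `K = J₀(|x|)` the covariance function of the random monochromatic wave.
Let the random field `F` be a limit in law of `Fₙ` (finite-dimensional distributions) with
`E F(0)² = 1`. Then `E F(0)⁴ ≥ 3` (it may be infinite), and if it is finite:

* the moments of `F` of orders one, two and three are those of the random monochromatic wave;
* `E T⁴ ≥ 3 τ⁴` for all `T = ∑ cᵢ F(xᵢ)`, `τ² = ∑ cᵢ cⱼ K(xᵢ - xⱼ)`, and `E F(x)² F(y)² ≥ 1 + 2 K(x - y)²`,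
  the Gaussian values;
* `limsup (avg (w φₙ²) - avg w)² ≤ (E F(0)⁴ - 3) / 3 * (avg w² - (avg w)²)` for continuous `w`;
* if `E F(x)² F(y)² = 1 + 2 K(x - y)²` for one pair `x ≠ y`, or `E T⁴ = 3 τ⁴` for one `T` with distinct
  points and at least two coefficients `cᵢ ≠ 0`, then the sequence `φₙ` is quantum ergodic and all
  mixed moments of order four of `F` are those of the random monochromatic wave.
-/

open MeasureTheory UpperHalfPlane MatrixGroups Berry Filter Topology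
open scoped ContDiff

theorem BSL.result_B
    (Γ : Subgroup SL(2, ℝ)) [Countable Γ] (ρ : ℍ → ℝ)
    (hρ : ContDiffOn ℝ ∞ (fun w : ℂ => ρ (ofComplex w)) {w | 0 < w.im})
    (hρΓ : ∀ γ ∈ Γ, ∀ z, ρ (γ • z) = ρ z)
    (hneg : ∀ z : ℍ, 0 < 1 + z.im ^ 2 * Laplacian.laplacian (fun w : ℂ => ρ (ofComplex w)) z)
    (D : Set ℍ) (hDm : MeasurableSet D) (hD : IsFundamentalDomain Γ D (volume : Measure ℍ))
    (hK : ∃ K : Set ℍ, IsCompact K ∧ ∀ z, ∃ γ ∈ Γ, γ • z ∈ K)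
    (φ : ℕ → ℍ → ℝ) (m : ℕ → ℝ) (hφ : REigenSeq Γ ρ φ m)
    (hs : ∀ n, ContDiffOn ℝ ∞ (fun w : ℂ => φ n (ofComplex w)) {w | 0 < w.im})
    (hn : ∀ n, rAvg ρ D (fun z => φ n z ^ 2) = 1)
    (Ω : Type) [MeasurableSpace Ω] (P : Measure Ω) [IsProbabilityMeasure P] (F : ℂ → Ω → ℝ)
    (hF : ∀ x, Measurable (F x))
    (hlaw : ∀ (r : ℕ) (x : Fin r → ℂ) (G : (Fin r → ℝ) → ℝ), Continuous G →
      (∃ C, ∀ t, |G t| ≤ C) →
      Tendsto (fun n => ∫ p, G (fun i => rWave ρ (φ n) (m n) (x i) p) ∂(rFrameProb ρ D))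
        atTop (𝓝 (∫ o, G (fun i => F (x i) o) ∂P)))
    (h2 : ∫ o, F 0 o ^ 2 ∂P = 1) :
    3 ≤ ∫⁻ o, ENNReal.ofReal (F 0 o ^ 4) ∂P ∧
    (Integrable (fun o => F 0 o ^ 4) P →
      (∀ x : ℂ, Integrable (F x) P ∧ ∫ o, F x o ∂P = 0) ∧
      (∀ x y : ℂ, Integrable (fun o => F x o * F y o) P ∧
        ∫ o, F x o * F y o ∂P = waveK (x - y)) ∧
      (∀ x y z : ℂ, Integrable (fun o => F x o * F y o * F z o) P ∧
        ∫ o, F x o * F y o * F z o ∂P = 0) ∧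
      (∀ (r : ℕ) (c : Fin r → ℝ) (x : Fin r → ℂ),
        Integrable (fun o => (∑ i, c i * F (x i) o) ^ 4) P ∧
        3 * (∑ i, ∑ j, c i * c j * waveK (x i - x j)) ^ 2
          ≤ ∫ o, (∑ i, c i * F (x i) o) ^ 4 ∂P) ∧
      (∀ x y : ℂ, Integrable (fun o => F x o ^ 2 * F y o ^ 2) P ∧
        1 + 2 * waveK (x - y) ^ 2 ≤ ∫ o, F x o ^ 2 * F y o ^ 2 ∂P) ∧
      (∀ w : ℍ → ℝ, Continuous w → (∀ γ ∈ Γ, ∀ z, w (γ • z) = w z) → ∀ ε > 0,
        ∀ᶠ n in atTop, (rAvg ρ D (fun z => w z * φ n z ^ 2) - rAvg ρ D w) ^ 2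
          ≤ ((∫ o, F 0 o ^ 4 ∂P) - 3) / 3
            * (rAvg ρ D (fun z => w z ^ 2) - rAvg ρ D w ^ 2) + ε) ∧
      ((∃ x y : ℂ, x ≠ y ∧ ∫ o, F x o ^ 2 * F y o ^ 2 ∂P = 1 + 2 * waveK (x - y) ^ 2) ∨
        (∃ (r : ℕ) (c : Fin r → ℝ) (x : Fin r → ℂ), Function.Injective x ∧
          (∃ i j, i ≠ j ∧ c i ≠ 0 ∧ c j ≠ 0) ∧ ∫ o, (∑ i, c i * F (x i) o) ^ 4 ∂P
            = 3 * (∑ i, ∑ j, c i * c j * waveK (x i - x j)) ^ 2) →
        QE.QuantumErgodic ρ φ m ∧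
        ∀ x₁ x₂ x₃ x₄ : ℂ, ∫ o, F x₁ o * F x₂ o * F x₃ o * F x₄ o ∂P
          = waveK (x₁ - x₂) * waveK (x₃ - x₄) + waveK (x₁ - x₃) * waveK (x₂ - x₄)
            + waveK (x₁ - x₄) * waveK (x₂ - x₃))) :=
  BSL.flm_closed Γ ρ hρ hρΓ hneg D hDm hD hK φ m hφ hs hn Ω P F hF hlaw h2
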