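import Pool.Agent.BSL.AllE

/-!
# Ergodic Benjamini-Schramm limits are Gaussian up to order four

Let `Γ ⊂ SL(2, ℝ)` be countable with compact quotient `Γ \ ℍ` (fundamental domain `D`), with any metric
`e^{2ρ} (dx² + dy²) / y²`. Let `φₙ` be real smooth `Γ`-invariant Laplace eigenfunctions of this metric,
normalised in `L²`, with eigenvalues `mₙ² → ∞`; no bound for their moments is assumed. Let `Fₙ(x)` be `φₙ`
near a uniform random point, in a uniform random frame, at distances `x / mₙ`, and `K = J₀(|x|)` the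
covariance function of the random monochromatic wave. Let the random field `F` be a limit in law of `Fₙ`
(finite-dimensional distributions) with `E F(0)² = 1` and `E F(0)⁴ < ∞`. Then the mixed moments of `F` of
orders one and two are `0` and `K(x - y)`, and the following are equivalent.

* The mixed moments of `F` of orders three and four are those of the random monochromatic wave.
* For every `a`, the constant `K(a)` is a limit in the mean square of means of finitely many variables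
  `F(x) F(x + a)`.
* For one `a ≠ 0`, the constant `K(a)` is in the closed affine hull in `L²(P)` of the variables
  `F(x) F(x + a)`.
* The sequence `φₙ` is quantum ergodic and `E F(0)⁴ = 3`.

They hold if the law of `F` is invariant and ergodic under translations.
-/

open MeasureTheory UpperHalfPlane MatrixGroups Berry Filter Topology
open scoped ContDiff

theorem BSL.result_E
    (Γ : Subgroup SL(2, ℝ)) [Countable Γ] (ρ : ℍ → ℝ)
    (hρ : ContDiffOn ℝ ∞ (fun w : ℂ => ρ (ofComplex w)) {w | 0 < w.im})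
    (hρΓ : ∀ γ ∈ Γ, ∀ z, ρ (γ • z) = ρ z)
    (D : Set ℍ) (hDm : MeasurableSet D) (hD : IsFundamentalDomain Γ D (volume : Measure ℍ))
    (hK : ∃ K : Set ℍ, IsCompact K ∧ ∀ z, ∃ γ ∈ Γ, γ • z ∈ K)
    (φ : ℕ → ℍ → ℝ) (m : ℕ → ℝ) (hφ : REigenSeq Γ ρ φ m)
    (hs : ∀ n, ContDiffOn ℝ ∞ (fun w : ℂ => φ n (ofComplex w)) {w | 0 < w.im})
    (hn : ∀ n, rAvg ρ D (fun z => φ n z ^ 2) = 1)
    (Ω : Type) [MeasurableSpace Ω] (P : Measure Ω) [IsProbabilityMeasure P] (F : ℂ → Ω → ℝ)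
    (hF : ∀ x, Measurable (F x))
    (hlaw : ∀ (r : ℕ) (x : Fin r → ℂ) (G : (Fin r → ℝ) → ℝ), Continuous G →
      (∃ C, ∀ t, |G t| ≤ C) →
      Tendsto (fun n => ∫ p, G (fun i => rWave ρ (φ n) (m n) (x i) p) ∂(rFrameProb ρ D))
        atTop (𝓝 (∫ o, G (fun i => F (x i) o) ∂P)))
    (h2 : ∫ o, F 0 o ^ 2 ∂P = 1) (h4 : Integrable (fun o => F 0 o ^ 4) P) :
    (∀ x : ℂ, Integrable (F x) P ∧ ∫ o, F x o ∂P = 0) ∧
    (∀ x y : ℂ, Integrable (fun o => F x o * F y o) P ∧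
      ∫ o, F x o * F y o ∂P = waveK (x - y)) ∧
    (∀ x₁ x₂ x₃ x₄ : ℂ, Integrable (fun o => F x₁ o * F x₂ o * F x₃ o * F x₄ o) P) ∧
    List.TFAE [
      (∀ x₁ x₂ x₃ : ℂ, ∫ o, F x₁ o * F x₂ o * F x₃ o ∂P = 0) ∧
        ∀ x₁ x₂ x₃ x₄ : ℂ, ∫ o, F x₁ o * F x₂ o * F x₃ o * F x₄ o ∂P
          = waveK (x₁ - x₂) * waveK (x₃ - x₄) + waveK (x₁ - x₃) * waveK (x₂ - x₄)
            + waveK (x₁ - x₄) * waveK (x₂ - x₃),
      ∀ a : ℂ, ∀ ε > 0, ∃ (r : ℕ) (x : Fin r → ℂ), 0 < r ∧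
        ∫ o, (1 / (r : ℝ) * ∑ i, F (x i) o * F (x i + a) o - waveK a) ^ 2 ∂P ≤ ε,
      ∃ a : ℂ, a ≠ 0 ∧ ∀ ε > 0, ∃ (r : ℕ) (c : Fin r → ℝ) (x : Fin r → ℂ), ∑ i, c i = 1 ∧
        ∫ o, (∑ i, c i * (F (x i) o * F (x i + a) o) - waveK a) ^ 2 ∂P ≤ ε,
      QE.QuantumErgodic ρ φ m ∧ ∫ o, F 0 o ^ 4 ∂P = 3] ∧
    (BSL.Ergo P F → QE.QuantumErgodic ρ φ m ∧ ∫ o, F 0 o ^ 4 ∂P = 3) :=
  BSL.fle_closed Γ ρ hρ hρΓ D hDm hD hK φ m hφ hs hn Ω P F hF hlaw h2 h4
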