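import Pool.Agent.BSL.DefsL
import Pool.Agent.BWM.C40

/-!
# Theorem B, local theory: integration by parts with weights (helper67)
-/

open Complex MeasureTheory Filter Topology Set
open scoped ContDiff

namespace BSL

open QE QJ U3

noncomputable section

variable {V : Set ℂ} {σ : ℂ → ℝ} {h : ℕ → ℝ} {φ : ℕ → ℂ → ℂ} {θ : ℕ → ℂ → ℝ}

/-- a real weight with small gradient -/
structure Wg (V : Set ℂ) (h : ℕ → ℝ) (φ : ℕ → ℂ → ℂ) (w : ℕ → ℂ → ℝ) : Prop where
  sm : ∀ n, ContDiff ℝ ∞ (w n)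
  nonneg : ∀ n z, 0 ≤ w n z
  le_one : ∀ n z, w n z ≤ 1
  grad : ∀ K, IsCompact K → K ⊆ V → ∀ N : ℕ,
    Tendsto (fun n => h n * ∫ z in K, ‖dz (fun x => (w n x : ℂ)) z‖ * RR h φ N n z ^ 2) atTop (𝓝 0)

lemma contDiff_ofR {w : ℂ → ℝ} (hw : ContDiff ℝ ∞ w) : ContDiff ℝ ∞ (fun x => (w x : ℂ)) :=
  Complex.ofRealCLM.contDiff.comp hw

lemma dzb_real {w : ℂ → ℝ} (hw : ContDiff ℝ ∞ w) (z : ℂ) :
    dzb (fun x => (w x : ℂ)) z = (starRingEnd ℂ) (dz (fun x => (w x : ℂ)) z) := by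
  have h1 := dzb_conj (cd_at (contDiff_ofR hw) z)
  simpa using h1

lemma norm_dzb_real {w : ℂ → ℝ} (hw : ContDiff ℝ ∞ w) (z : ℂ) :
    ‖dzb (fun x => (w x : ℂ)) z‖ = ‖dz (fun x => (w x : ℂ)) z‖ := by
  rw [dzb_real hw, RCLike.norm_conj]

lemma WtR.wg (W : WtR V σ h φ θ) : Wg V h φ θ := ⟨W.smθ, W.nonneg, W.le_one, W.grad⟩

lemma WtR.wg2 (W : WtR V σ h φ θ) : Wg V h φ (fun n z => θ n z ^ 2) := by
  refine ⟨fun n => (W.smθ n).pow 2, fun n z => sq_nonneg _, fun n z => ?_, fun K hK hKV N => ?_⟩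
  · exact pow_le_one₀ (W.nonneg n z) (W.le_one n z)
  · have h1 := (W.grad K hK hKV N).const_mul 2
    rw [mul_zero] at h1
    refine squeeze_zero (fun n => ?_) (fun n => ?_) h1
    · exact mul_nonneg (W.hpos n).le (integral_nonneg fun z => by positivity)
    · have hc := contDiff_ofR (W.smθ n)
      have hc2 := contDiff_ofR ((W.smθ n).pow 2)
      have e : ∀ z, dz (fun x => ((θ n x ^ 2 : ℝ) : ℂ)) z
          = 2 * (θ n z : ℂ) * dz (fun x => (θ n x : ℂ)) z := by
        intro z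
        have e1 : (fun x => ((θ n x ^ 2 : ℝ) : ℂ)) = fun x => (θ n x : ℂ) * (θ n x : ℂ) := by
          funext x; push_cast; ring
        rw [e1, dz_mul (cd_at hc z) (cd_at hc z)]
        ring
      have hR := continuous_RR (h := h) W.smφ N n
      have i1 : IntegrableOn (fun z => ‖dz (fun x => ((θ n x ^ 2 : ℝ) : ℂ)) z‖ * RR h φ N n z ^ 2) K :=
        (((contDiff_dz hc2).continuous.norm.mul (hR.pow 2))).continuousOn.integrableOn_compact hK
      have i2 : IntegrableOn (fun z => 2 * (‖dz (fun x => (θ n x : ℂ)) z‖ * RR h φ N n z ^ 2)) K :=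
        (continuous_const.mul
          ((contDiff_dz hc).continuous.norm.mul (hR.pow 2))).continuousOn.integrableOn_compact hK
      calc h n * ∫ z in K, ‖dz (fun x => ((θ n x ^ 2 : ℝ) : ℂ)) z‖ * RR h φ N n z ^ 2
          ≤ h n * ∫ z in K, 2 * (‖dz (fun x => (θ n x : ℂ)) z‖ * RR h φ N n z ^ 2) := by
            refine mul_le_mul_of_nonneg_left (integral_mono i1 i2 fun z => ?_) (W.hpos n).le
            beta_reduce
            rw [e z, norm_mul, norm_mul, Complex.norm_real, Real.norm_of_nonneg (W.nonneg n z)]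
            have := W.le_one n z
            have h0 : 0 ≤ ‖dz (fun x => (θ n x : ℂ)) z‖ * RR h φ N n z ^ 2 := by positivity
            have : ‖(2 : ℂ)‖ = 2 := by norm_num
            rw [this]
            nlinarith
        _ = 2 * (h n * ∫ z in K, ‖dz (fun x => (θ n x : ℂ)) z‖ * RR h φ N n z ^ 2) := by
            rw [integral_const_mul]; ring

/-- the term with the gradient of the weight -/
lemma Wg.lim (hpos : ∀ n, 0 < h n) (smφ : ∀ n, ContDiff ℝ ∞ (φ n)) {w : ℕ → ℂ → ℝ}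
    (W : Wg V h φ w) {u g : ℕ → ℂ → ℂ}
    (hu : Dom V h φ 4 u) (hgc : ∀ n, Continuous (g n))
    (hg : ∀ n z, ‖g n z‖ = ‖dz (fun x => (w n x : ℂ)) z‖) {ζ : ℂ → ℂ} (hζ : Test V ζ) :
    Tendsto (fun n => ∫ z, ζ z * ((h n : ℂ) * (g n z * u n z))) atTop (𝓝 0) := by
  obtain ⟨M, hM⟩ := IBPA.norm_int_le hζ
  obtain ⟨N, C, hC⟩ := hu.bq (tsupport ζ) hζ.supp hζ.sub
  have h1 := (W.grad (tsupport ζ) hζ.supp hζ.sub N).const_mul (|M| * √|C|)
  rw [mul_zero] at h1
  refine squeeze_zero_norm' ?_ h1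
  filter_upwards [hC] with n hn
  have hK : IsCompact (tsupport ζ) := hζ.supp
  have hcf : Continuous fun z => (h n : ℂ) * (g n z * u n z) :=
    continuous_const.mul ((hgc n).mul (hu.smooth n).continuous)
  have hR := continuous_RR (h := h) smφ N n
  have hcw := contDiff_ofR (W.sm n)
  refine (hM _ hcf).trans ?_
  have i1 : IntegrableOn (fun z => ‖(h n : ℂ) * (g n z * u n z)‖) (tsupport ζ) :=
    hcf.norm.continuousOn.integrableOn_compact hK
  have i2 : IntegrableOn (fun z => (√|C| * h n) * (‖dz (fun x => (w n x : ℂ)) z‖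
      * RR h φ N n z ^ 2)) (tsupport ζ) :=
    (continuous_const.mul
      ((contDiff_dz hcw).continuous.norm.mul (hR.pow 2))).continuousOn.integrableOn_compact hK
  have hle : ∫ z in tsupport ζ, ‖(h n : ℂ) * (g n z * u n z)‖
      ≤ ∫ z in tsupport ζ, (√|C| * h n) * (‖dz (fun x => (w n x : ℂ)) z‖ * RR h φ N n z ^ 2) := by
    refine setIntegral_mono_on i1 i2 hK.measurableSet fun z hz => ?_
    rw [norm_mul, norm_mul, Complex.norm_real, Real.norm_of_nonneg (hpos n).le, hg]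
    have hR1 := one_le_RR h φ N n z
    have hu1 : ‖u n z‖ ≤ √|C| * RR h φ N n z ^ 2 := by
      have e1 : ‖u n z‖ ^ 2 ≤ |C| * RR h φ N n z ^ 4 :=
        (hn z hz).trans (mul_le_mul_of_nonneg_right (le_abs_self C) (by positivity))
      have e2 : ‖u n z‖ ≤ √(|C| * RR h φ N n z ^ 4) := Real.le_sqrt_of_sq_le e1
      refine e2.trans (le_of_eq ?_)
      rw [Real.sqrt_mul (abs_nonneg C), show RR h φ N n z ^ 4 = (RR h φ N n z ^ 2) ^ 2 by ring,
        Real.sqrt_sq (by positivity)]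
    calc h n * (‖dz (fun x => (w n x : ℂ)) z‖ * ‖u n z‖)
        ≤ h n * (‖dz (fun x => (w n x : ℂ)) z‖ * (√|C| * RR h φ N n z ^ 2)) := by
          have := (hpos n).le
          gcongr
      _ = _ := by ring
  have hM1 : M * ∫ z in tsupport ζ, ‖(h n : ℂ) * (g n z * u n z)‖
      ≤ |M| * ∫ z in tsupport ζ, ‖(h n : ℂ) * (g n z * u n z)‖ :=
    mul_le_mul_of_nonneg_right (le_abs_self M) (integral_nonneg fun z => norm_nonneg _)
  refine hM1.trans ((mul_le_mul_of_nonneg_left hle (abs_nonneg M)).trans (le_of_eq ?_))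
  rw [integral_const_mul]
  ring

/-- a weight times a dominated function -/
lemma Wg.hz {w : ℕ → ℂ → ℝ} (hpos : ∀ n, 0 < h n) (W : Wg V h φ w) {u : ℕ → ℂ → ℂ}
    (hs : ∀ n, ContDiff ℝ ∞ (u n)) (hu : HZ V h u) : HZ V h (fun n z => (w n z : ℂ) * u n z) := by
  intro K hK hKV
  refine squeeze_zero (fun n => ?_) (fun n => ?_) (hu K hK hKV)
  · exact mul_nonneg (hpos n).le (integral_nonneg fun z => norm_nonneg _)
  · refine mul_le_mul_of_nonneg_left ?_ (hpos n).le
    refine integral_mono ?_ ?_ fun z => ?_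
    · exact ((contDiff_ofR (W.sm n)).mul (hs n)).continuous.norm.continuousOn.integrableOn_compact hK
    · exact (hs n).continuous.norm.continuousOn.integrableOn_compact hK
    · beta_reduce
      rw [norm_mul, Complex.norm_real, Real.norm_of_nonneg (W.nonneg n z)]
      exact mul_le_of_le_one_left (norm_nonneg _) (W.le_one n z)

lemma int_lin {f g k : ℂ → ℂ} (c : ℂ) (hf : Integrable f) (hg : Integrable g) (hk : Integrable k) :
    ∫ z, (f z - c * g z - k z) = (∫ z, f z) - c * (∫ z, g z) - ∫ z, k z := by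
  have h1 : Integrable (fun z => f z - c * g z) := hf.sub (hg.const_mul c)
  rw [integral_sub h1 hk, integral_sub hf (hg.const_mul c), integral_const_mul]

lemma int_lin' {f g k : ℂ → ℂ} (c : ℂ) (hf : Integrable f) (hg : Integrable g) (hk : Integrable k) :
    ∫ z, (c * g z - f z + k z) = c * (∫ z, g z) - (∫ z, f z) + ∫ z, k z := by
  have h1 : Integrable (fun z => c * g z - f z) := (hg.const_mul c).sub hf
  rw [integral_add h1 hk, integral_sub (hg.const_mul c) hf, integral_const_mul]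

/-- the raising step with a weight -/
lemma up_w (L : LocB V σ h φ) {w : ℕ → ℂ → ℝ} (W : Wg V h φ w) {ζ : ℂ → ℂ} (hζ : Test V ζ) (k : ℤ)
    {u B S : ℕ → ℂ → ℂ} (hu : Dom V h φ 4 u) (hB : Dom V h φ 4 B) (_hS : ∀ n, ContDiff ℝ ∞ (S n))
    (he : ∀ n, ∀ z ∈ V, (h n : ℂ) * D σ k (u n) z = S n z + (h n : ℂ) ^ 2 * B n z) :
    Tendsto (fun n => ∫ z, ζ z * ((w n z : ℂ) * S n z)) atTop (𝓝 0) := by
  have hG := groA V σ h φ L
  have hSm := sml V σ h φ L
  have hcw : ∀ n, ContDiff ℝ ∞ (fun z => (w n z : ℂ)) := fun n => contDiff_ofR (W.sm n)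
  have swu : ∀ n, ContDiff ℝ ∞ (fun z => (w n z : ℂ) * u n z) := fun n => (hcw n).mul (hu.smooth n)
  have zu := W.hz L.hpos hu.smooth (IFOB.hlim4 stmtIntA L hG hSm hu)
  have zB := W.hz L.hpos hB.smooth (IFOB.hlim4 stmtIntA L hG hSm hB)
  have i1 := (stmtIbpA V σ h (fun n z => (w n z : ℂ) * u n z) k L.op L.sm L.hpos swu zu ζ hζ).1
  have swB : ∀ n, ContDiff ℝ ∞ (fun z => (w n z : ℂ) * B n z) := fun n => (hcw n).mul (hB.smooth n)
  have i2 := (IFOB.hlimC L).mul (IFOB.lim_test L.hpos swB zB hζ)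
  have hex : ContDiff ℝ ∞ (fun z => 2 * ex σ (-1) z) := contDiff_const.mul (contDiff_ex L.sm _)
  have i3 := W.lim L.hpos L.smφ hu (g := fun n => dz (fun x => (w n x : ℂ)))
    (fun n => (contDiff_dz (hcw n)).continuous) (fun n z => rfl) (test_mul hζ hex)
  have i4 := (i1.sub i2).sub i3
  rw [mul_zero, sub_zero, sub_zero] at i4
  refine i4.congr fun n => ?_
  have k0 : Integrable (fun z => ζ z * ((h n : ℂ) * D σ k (fun z => (w n z : ℂ) * u n z) z)) :=
    hζ.integrable_mul L.op (contDiff_const.mul (contDiff_D L.sm k (swu n))).continuous.continuousOn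
  have k1 : Integrable (fun z => ζ z * ((w n z : ℂ) * B n z)) :=
    hζ.integrable_mul L.op (swB n).continuous.continuousOn
  have k2 : Integrable (fun z => (ζ z * (2 * ex σ (-1) z)) * ((h n : ℂ)
      * (dz (fun x => (w n x : ℂ)) z * u n z))) :=
    (test_mul hζ hex).integrable_mul L.op (contDiff_const.mul
      ((contDiff_dz (hcw n)).mul (hu.smooth n))).continuous.continuousOn
  have e : ∀ z, ζ z * ((w n z : ℂ) * S n z)
      = ζ z * ((h n : ℂ) * D σ k (fun z => (w n z : ℂ) * u n z) z)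
        - (h n : ℂ) ^ 2 * (ζ z * ((w n z : ℂ) * B n z))
        - (ζ z * (2 * ex σ (-1) z)) * ((h n : ℂ) * (dz (fun x => (w n x : ℂ)) z * u n z)) := by
    intro z
    by_cases hz : z ∈ V
    · have d1 := D_mul L.sm 0 k (cd_at (hcw n) z) (cd_at (hu.smooth n) z)
      rw [zero_add] at d1
      have d2 := D_eq L.sm 0 (cd_at (hcw n) z)
      rw [d1, d2]
      push_cast
      linear_combination -(ζ z * (w n z : ℂ)) * he n z hz
    · rw [IFOB.zero_off hζ hz]; ring
  simp only [e]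
  rw [int_lin _ k0 k1 k2]
  ring

/-- the lowering step with a weight -/
lemma down_w (L : LocB V σ h φ) {w : ℕ → ℂ → ℝ} (W : Wg V h φ w) {ζ : ℂ → ℂ} (hζ : Test V ζ) (k : ℤ)
    {u B S : ℕ → ℂ → ℂ} (hu : Dom V h φ 4 u) (hB : Dom V h φ 4 B) (_hS : ∀ n, ContDiff ℝ ∞ (S n))
    (he : ∀ n, ∀ z ∈ V, (h n : ℂ) * Db σ k (u n) z = - S n z + (h n : ℂ) ^ 2 * B n z) :
    Tendsto (fun n => ∫ z, ζ z * ((w n z : ℂ) * S n z)) atTop (𝓝 0) := by
  have hG := groA V σ h φ L
  have hSm := sml V σ h φ L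
  have hcw : ∀ n, ContDiff ℝ ∞ (fun z => (w n z : ℂ)) := fun n => contDiff_ofR (W.sm n)
  have swu : ∀ n, ContDiff ℝ ∞ (fun z => (w n z : ℂ) * u n z) := fun n => (hcw n).mul (hu.smooth n)
  have zu := W.hz L.hpos hu.smooth (IFOB.hlim4 stmtIntA L hG hSm hu)
  have zB := W.hz L.hpos hB.smooth (IFOB.hlim4 stmtIntA L hG hSm hB)
  have i1 := (stmtIbpA V σ h (fun n z => (w n z : ℂ) * u n z) k L.op L.sm L.hpos swu zu ζ hζ).2
  have swB : ∀ n, ContDiff ℝ ∞ (fun z => (w n z : ℂ) * B n z) := fun n => (hcw n).mul (hB.smooth n)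
  have i2 := (IFOB.hlimC L).mul (IFOB.lim_test L.hpos swB zB hζ)
  have hex : ContDiff ℝ ∞ (fun z => 2 * ex σ (-1) z) := contDiff_const.mul (contDiff_ex L.sm _)
  have i3 := W.lim L.hpos L.smφ hu (g := fun n => dzb (fun x => (w n x : ℂ)))
    (fun n => (contDiff_dzb (hcw n)).continuous) (fun n z => norm_dzb_real (W.sm n) z)
    (test_mul hζ hex)
  have i4 := (i2.sub i1).add i3
  rw [mul_zero, sub_zero, add_zero] at i4
  refine i4.congr fun n => ?_
  have k0 : Integrable (fun z => ζ z * ((h n : ℂ) * Db σ k (fun z => (w n z : ℂ) * u n z) z)) :=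
    hζ.integrable_mul L.op (contDiff_const.mul (contDiff_Db L.sm k (swu n))).continuous.continuousOn
  have k1 : Integrable (fun z => ζ z * ((w n z : ℂ) * B n z)) :=
    hζ.integrable_mul L.op (swB n).continuous.continuousOn
  have k2 : Integrable (fun z => (ζ z * (2 * ex σ (-1) z)) * ((h n : ℂ)
      * (dzb (fun x => (w n x : ℂ)) z * u n z))) :=
    (test_mul hζ hex).integrable_mul L.op (contDiff_const.mul
      ((contDiff_dzb (hcw n)).mul (hu.smooth n))).continuous.continuousOn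
  have e : ∀ z, ζ z * ((w n z : ℂ) * S n z)
      = (h n : ℂ) ^ 2 * (ζ z * ((w n z : ℂ) * B n z))
        - ζ z * ((h n : ℂ) * Db σ k (fun z => (w n z : ℂ) * u n z) z)
        + (ζ z * (2 * ex σ (-1) z)) * ((h n : ℂ) * (dzb (fun x => (w n x : ℂ)) z * u n z)) := by
    intro z
    by_cases hz : z ∈ V
    · have d1 := Db_mul L.sm 0 k (cd_at (hcw n) z) (cd_at (hu.smooth n) z)
      rw [zero_add] at d1
      have d2 := Db_eq L.sm 0 (cd_at (hcw n) z)
      rw [d1, d2]
      push_cast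
      linear_combination (ζ z * (w n z : ℂ)) * he n z hz
    · rw [IFOB.zero_off hζ hz]; ring
  simp only [e]
  rw [int_lin' _ k0 k1 k2]
  ring

lemma four_w (L : LocB V σ h φ) (W : Wg V h φ (fun n z => θ n z ^ 2)) {ζ : ℂ → ℂ} (hζ : Test V ζ)
    (a b c d : ℤ) : Tendsto (fun n => E4w σ h φ θ ζ n (a + 1) b c d
      + E4w σ h φ θ ζ n a (b + 1) c d + E4w σ h φ θ ζ n a b (c + 1) d
      + E4w σ h φ θ ζ n a b c (d + 1)) atTop (𝓝 0) := by
  have hσ := L.sm
  obtain ⟨da, ⟨A1, hA1, h1⟩, -⟩ := stmtJetC V σ h φ L a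
  obtain ⟨db, ⟨A2, hA2, h2⟩, -⟩ := stmtJetC V σ h φ L b
  obtain ⟨dc, ⟨A3, hA3, h3⟩, -⟩ := stmtJetC V σ h φ L c
  obtain ⟨dd, ⟨A4, hA4, h4⟩, -⟩ := stmtJetC V σ h φ L d
  have da1 := (stmtJetC V σ h φ L (a + 1)).1
  have db1 := (stmtJetC V σ h φ L (b + 1)).1
  have dc1 := (stmtJetC V σ h φ L (c + 1)).1
  have dd1 := (stmtJetC V σ h φ L (d + 1)).1
  have hV := L.op
  have pr : ∀ {u v w x : ℕ → ℂ → ℂ}, Dom V h φ 1 u → Dom V h φ 1 v → Dom V h φ 1 w →
      Dom V h φ 1 x → Dom V h φ 4 (fun n z => u n z * v n z * (w n z * x n z)) := by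
    intro u v w x hu hv hw hx
    exact (hu.mul hV hv).mul hV (hw.mul hV hx)
  have du := pr da db dc dd
  have q1 := pr da1 db dc dd
  have q2 := pr da db1 dc dd
  have q3 := pr da db dc1 dd
  have q4 := pr da db dc dd1
  have hB := (((pr hA1 db dc dd).add hV (pr da hA2 dc dd)).add hV (pr da db hA3 dd)).add hV
    (pr da db dc hA4)
  have hS := ((q1.add hV q2).add hV q3).add hV q4
  have key := up_w L W hζ (a + b + (c + d)) du hB hS.smooth ?_
  · refine key.congr fun n => ?_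
    have hcw : ContDiff ℝ ∞ (fun z => (θ n z : ℂ) ^ 2) := by
      have := contDiff_ofR (W.sm n)
      simpa using this
    have kk : ∀ {f : ℕ → ℂ → ℂ}, Dom V h φ 4 f →
        Integrable (fun z => ζ z * ((θ n z : ℂ) ^ 2 * f n z)) := fun hf =>
      hζ.integrable_mul hV (hcw.mul (hf.smooth n)).continuous.continuousOn
    have k1 := kk q1
    have k2 := kk q2
    have k3 := kk q3
    have k4 := kk q4
    beta_reduce at k1 k2 k3 k4
    unfold E4w
    exact IFOB.add_four k1 k2 k3 k4 fun z => by push_cast; ring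
  · intro n z hz
    have sa := cd_at (da.smooth n) z
    have sb := cd_at (db.smooth n) z
    have sc := cd_at (dc.smooth n) z
    have sd := cd_at (dd.smooth n) z
    have m1 := D_mul hσ a b sa sb
    have m2 := D_mul hσ c d sc sd
    have m3 := D_mul hσ (a + b) (c + d) (sa.fun_mul sb) (sc.fun_mul sd)
    rw [m3, m2, m1]
    linear_combination (E σ h φ b n z * E σ h φ c n z * E σ h φ d n z) * h1 n z hz
      + (E σ h φ a n z * E σ h φ c n z * E σ h φ d n z) * h2 n z hz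
      + (E σ h φ a n z * E σ h φ b n z * E σ h φ d n z) * h3 n z hz
      + (E σ h φ a n z * E σ h φ b n z * E σ h φ c n z) * h4 n z hz

lemma three_up_w (L : LocB V σ h φ) (W : Wg V h φ θ) {ζ : ℂ → ℂ} (hζ : Test V ζ)
    (a b c : ℤ) : Tendsto (fun n => E3w σ h φ θ ζ n (a + 1) b c
      + E3w σ h φ θ ζ n a (b + 1) c + E3w σ h φ θ ζ n a b (c + 1)) atTop (𝓝 0) := by
  have hσ := L.sm
  obtain ⟨da, ⟨A1, hA1, h1⟩, -⟩ := stmtJetC V σ h φ L a
  obtain ⟨db, ⟨A2, hA2, h2⟩, -⟩ := stmtJetC V σ h φ L b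
  obtain ⟨dc, ⟨A3, hA3, h3⟩, -⟩ := stmtJetC V σ h φ L c
  have da1 := (stmtJetC V σ h φ L (a + 1)).1
  have db1 := (stmtJetC V σ h φ L (b + 1)).1
  have dc1 := (stmtJetC V σ h φ L (c + 1)).1
  have hV := L.op
  have pr : ∀ {u v w : ℕ → ℂ → ℂ}, Dom V h φ 1 u → Dom V h φ 1 v → Dom V h φ 1 w →
      Dom V h φ 4 (fun n z => u n z * v n z * w n z) := by
    intro u v w hu hv hw
    exact ((hu.mul hV hv).mul hV hw).mono (by norm_num)
  have du := pr da db dc
  have q1 := pr da1 db dc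
  have q2 := pr da db1 dc
  have q3 := pr da db dc1
  have hB := ((pr hA1 db dc).add hV (pr da hA2 dc)).add hV (pr da db hA3)
  have hS := (q1.add hV q2).add hV q3
  have key := up_w L W hζ (a + b + c) du hB hS.smooth ?_
  · refine key.congr fun n => ?_
    have hcw : ContDiff ℝ ∞ (fun z => (θ n z : ℂ)) := contDiff_ofR (W.sm n)
    have kk : ∀ {f : ℕ → ℂ → ℂ}, Dom V h φ 4 f →
        Integrable (fun z => ζ z * ((θ n z : ℂ) * f n z)) := fun hf =>
      hζ.integrable_mul hV (hcw.mul (hf.smooth n)).continuous.continuousOn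
    have k1 := kk q1
    have k2 := kk q2
    have k3 := kk q3
    beta_reduce at k1 k2 k3
    unfold E3w
    exact IFOB.add_three k1 k2 k3 fun z => by ring
  · intro n z hz
    have sa := cd_at (da.smooth n) z
    have sb := cd_at (db.smooth n) z
    have sc := cd_at (dc.smooth n) z
    have m1 := D_mul hσ a b sa sb
    have m2 := D_mul hσ (a + b) c (sa.fun_mul sb) sc
    rw [m2, m1]
    linear_combination (E σ h φ b n z * E σ h φ c n z) * h1 n z hz
      + (E σ h φ a n z * E σ h φ c n z) * h2 n z hz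
      + (E σ h φ a n z * E σ h φ b n z) * h3 n z hz

lemma three_down_w (L : LocB V σ h φ) (W : Wg V h φ θ) {ζ : ℂ → ℂ} (hζ : Test V ζ)
    (a b c : ℤ) : Tendsto (fun n => E3w σ h φ θ ζ n (a - 1) b c
      + E3w σ h φ θ ζ n a (b - 1) c + E3w σ h φ θ ζ n a b (c - 1)) atTop (𝓝 0) := by
  have hσ := L.sm
  obtain ⟨da, -, ⟨A1, hA1, h1⟩⟩ := stmtJetC V σ h φ L a
  obtain ⟨db, -, ⟨A2, hA2, h2⟩⟩ := stmtJetC V σ h φ L b
  obtain ⟨dc, -, ⟨A3, hA3, h3⟩⟩ := stmtJetC V σ h φ L c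
  have da1 := (stmtJetC V σ h φ L (a - 1)).1
  have db1 := (stmtJetC V σ h φ L (b - 1)).1
  have dc1 := (stmtJetC V σ h φ L (c - 1)).1
  have hV := L.op
  have pr : ∀ {u v w : ℕ → ℂ → ℂ}, Dom V h φ 1 u → Dom V h φ 1 v → Dom V h φ 1 w →
      Dom V h φ 4 (fun n z => u n z * v n z * w n z) := by
    intro u v w hu hv hw
    exact ((hu.mul hV hv).mul hV hw).mono (by norm_num)
  have du := pr da db dc
  have q1 := pr da1 db dc
  have q2 := pr da db1 dc
  have q3 := pr da db dc1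
  have hB := ((pr hA1 db dc).add hV (pr da hA2 dc)).add hV (pr da db hA3)
  have hS := (q1.add hV q2).add hV q3
  have key := down_w L W hζ (a + b + c) du hB hS.smooth ?_
  · refine key.congr fun n => ?_
    have hcw : ContDiff ℝ ∞ (fun z => (θ n z : ℂ)) := contDiff_ofR (W.sm n)
    have kk : ∀ {f : ℕ → ℂ → ℂ}, Dom V h φ 4 f →
        Integrable (fun z => ζ z * ((θ n z : ℂ) * f n z)) := fun hf =>
      hζ.integrable_mul hV (hcw.mul (hf.smooth n)).continuous.continuousOn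
    have k1 := kk q1
    have k2 := kk q2
    have k3 := kk q3
    beta_reduce at k1 k2 k3
    unfold E3w
    exact IFOB.add_three k1 k2 k3 fun z => by ring
  · intro n z hz
    have sa := cd_at (da.smooth n) z
    have sb := cd_at (db.smooth n) z
    have sc := cd_at (dc.smooth n) z
    have m1 := Db_mul hσ a b sa sb
    have m2 := Db_mul hσ (a + b) c (sa.fun_mul sb) sc
    rw [m2, m1]
    linear_combination (E σ h φ b n z * E σ h φ c n z) * h1 n z hz
      + (E σ h φ a n z * E σ h φ c n z) * h2 n z hz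
      + (E σ h φ a n z * E σ h φ b n z) * h3 n z hz

/-- IBPW: integration by parts with weights -/
theorem ibpW : StmtIbpW := by
  intro V σ h φ θ W ζ hζ
  exact ⟨four_w W.toLocB W.wg2 hζ, three_up_w W.toLocB W.wg hζ, three_down_w W.toLocB W.wg hζ⟩

end

end BSL
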