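import Pool.Agent.BSL.DefsL
import Pool.Agent.BWM.C43

/-!
# Theorem B: linear statistics of the local waves and four-point functions, with weights (helper70)

The local wave at the point `z` in the frame of angle `t` takes at `x` the value
`φₙ(z + h e^{-σ(z)} ξ)`, `ξ → e^{-2it} x`. The statements of this file pass from the jets at `z`
(`PATW`, `POSW`, `LINW`) to the values at finitely many points, and from weights to truncations.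
-/

open Complex MeasureTheory Filter Topology Set
open scoped ContDiff

namespace BSL

open QE QJ U3

noncomputable section

/-- the displaced point -/
def dp (σ : ℂ → ℝ) (h : ℕ → ℝ) (n : ℕ) (z y : ℂ) : ℂ := z + h n * (ex σ (-1) z * y)

/-- the linear statistic `∑ cᵢ φ(z + h e^{-σ(z)} ξᵢ)` -/
def Tw (σ : ℂ → ℝ) (h : ℕ → ℝ) (φ : ℕ → ℂ → ℂ) {r : ℕ} (c : Fin r → ℝ)
    (ξ : Fin r → ℕ → ℝ → ℂ → ℂ) (n : ℕ) (t : ℝ) (z : ℂ) : ℝ :=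
  ∑ i, c i * (φ n (dp σ h n z (ξ i n t z))).re

/-- displacements which are asymptotic to the rotations of `x` -/
structure Dis (K : Set ℂ) (x : ℂ) (ξ : ℕ → ℝ → ℂ → ℂ) : Prop where
  lim : ∀ ε > 0, ∀ᶠ n in atTop, ∀ t, ∀ z ∈ K, ‖ξ n t z - uu t ^ 2 * x‖ ≤ ε
  cont : ∀ᶠ n in atTop, ContinuousOn (fun p : ℝ × ℂ => ξ n p.1 p.2) (univ ×ˢ K)

/-- the rotation averages of products of values at four points, with weights -/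
def rotW (σ : ℂ → ℝ) (h : ℕ → ℝ) (φ : ℕ → ℂ → ℂ) (θ : ℕ → ℂ → ℝ) (ζ : ℂ → ℂ) {r : ℕ}
    (ξ : Fin r → ℕ → ℝ → ℂ → ℂ) (q : Fin 4 → Fin r) (n : ℕ) : ℂ :=
  ∫ t, (∫ z, ζ z * ((θ n z : ℂ) ^ 2 * ∏ i, φ n (dp σ h n z (ξ (q i) n t z)))) ∂ang

/-- the coefficient of `E_j` in the Taylor polynomial of order `N` of `φ(z + h e^{-σ(z)} y)` -/
def kap1 (N : ℕ) (j : ℤ) (y : ℂ) : ℂ := (-I) ^ j * CN N j y

/-- the Taylor polynomial of order `N` in terms of the covariant jets -/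
def TayE (σ : ℂ → ℝ) (h : ℕ → ℝ) (φ : ℕ → ℂ → ℂ) (N n : ℕ) (z y : ℂ) : ℂ :=
  ∑ j ∈ Finset.Icc (-(N : ℤ)) N, kap1 N j y * E σ h φ j n z

/-- the Taylor polynomial of order `N` of `φ(z + h v)` in terms of the mixed derivatives -/
def TayW (h : ℕ → ℝ) (φ : ℕ → ℂ → ℂ) (N n : ℕ) (z v : ℂ) : ℂ :=
  ∑ k ∈ Finset.range (N + 1), (k.factorial : ℂ)⁻¹ * ∑ a ∈ Finset.range (k + 1),
    (k.choose a : ℂ) * (v ^ a * (starRingEnd ℂ) v ^ (k - a) * W h φ a (k - a) n z)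

/-! ### Statements -/

/-- GRW: the growth of the rescaled derivatives in terms of their order.
Proof. Let `κ₀ = ∫ kap`, `K' = cthickening δ K ⊆ V`, `B` a bound of `ex σ 2` on `K'`. Call a sequence
`v` *good* if `Dom V h φ 1 v` and there is `A` with `Dom V h φ 1 A` and
`hLap h v n z = - (1/4) ex σ 2 z * v n z + h n * A n z` for `z ∈ V`. `φ` is good (`A = 0`), and if `v` is
good then so are `h dz v` and `h dzb v` (`hLap h (h dz v) = h dz (hLap h v)`, Leibniz, the lemmas on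
`Dom` in `C17`); so `W h φ a b` is good. Step: let `v` be good and suppose that for all large `n`, all
`z ∈ K` and all `w` with `‖w - z‖ ≤ (r + d) h` one has `‖v n w‖ ≤ M √Mn`, where `M > 0`,
`r + d + 1 ≤ L`. Then `‖h dz v n w‖ ≤ (κ / d) M √Mn` for `‖w - z‖ ≤ r h`, and the same for `dzb`, with
`κ = κ₀ (2 + B)`: `scale_bound` (C01) on the scale `d h` gives
`d ‖h dz v(w)‖ ≤ ∫ kap(u) (‖v(w + d h u)‖ + d² ‖hLap h v (w + d h u)‖) du`, and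
`‖hLap h v‖ ≤ B ‖v‖ + h ‖A‖`, `‖A n w'‖ ≤ C √Mn` by `ptwC` (balls of radius `h` around `w'`, contained
in the ball of radius `L h` around `z`); `h C → 0` is at most `M` for large `n`. For `dzb` pass to the
conjugate, as in `PTW.PB.ellb`. Base: `ptwC` with `N = 0`. Induction on `k`. -/
def StmtGrw : Prop :=
  ∀ (V : Set ℂ) (σ : ℂ → ℝ) (h : ℕ → ℝ) (φ : ℕ → ℂ → ℂ), LocB V σ h φ → ∀ K, IsCompact K → K ⊆ V →
    ∃ κ : ℝ, 1 ≤ κ ∧ ∀ (r d L : ℝ), 0 ≤ r → 0 < d → d ≤ 1 → ∀ k : ℕ, r + k * d + 1 ≤ L →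
      ∀ᶠ n in atTop, ∀ z ∈ K, ∀ w, ‖w - z‖ ≤ r * h n → ∀ a b : ℕ, a + b = k →
        ‖W h φ a b n w‖ ≤ κ * (κ / d) ^ k * √(Mn L h φ n z)

/-- TAW: Taylor's formula at the scale `h`, with a remainder small compared with the local mean
square on the scale `L h`.
Proof (from GRW). `dirK k v f = ∑ a, choose k a * v^a conj v^(k-a) dz^a dzb^(k-a) f` (induction, `dir_eq`);
`taylor_dir` for `f = φ n` and the vector `h v`; `dirK (N+1)` at the points `z + t h v` is, by GRW with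
`r = R`, `k = N + 1`, `d = S / (N + 1)` (`S ≥ 1` to be chosen, `N + 1 ≥ S`), `L = R + S + 1`, at most
`(2R)^(N+1) κ (κ (N+1) / S)^(N+1) √Mn`; the remainder is at most
`(2 R κ / S)^(N+1) κ (N+1)^(N+1) / N! √Mn`, and `(N+1)^(N+1) / N! = (N+1) (N+1)^(N+1) / (N+1)!
≤ (N+1) exp (N+1)` (`Real.pow_div_factorial_le_exp`); choose `S = 2 R κ e² + 1`. -/
def StmtTaw : Prop :=
  ∀ (V : Set ℂ) (σ : ℂ → ℝ) (h : ℕ → ℝ) (φ : ℕ → ℂ → ℂ), LocB V σ h φ → ∀ K, IsCompact K → K ⊆ V →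
    ∀ R : ℝ, ∃ L : ℝ, 0 < L ∧ ∀ ε > 0, ∃ N₀ : ℕ, ∀ N ≥ N₀, ∀ᶠ n in atTop, ∀ z ∈ K, ∀ v : ℂ, ‖v‖ ≤ R →
      z + h n * v ∈ V ∧ ‖φ n (z + h n * v) - TayW h φ N n z v‖ ≤ ε * √(Mn L h φ n z)

/-- TAC: the Taylor polynomials in terms of the covariant jets.
Proof. `StmtJetW` (proved: `QJ`/`U3`, see `U3.AllA` in C40) for each pair `a, b ≤ N`:
`ex σ (-(a+b)) z * W h φ a b n z = 2^{-(a+b)} (-1)^b E (a - b) + h A`, `A` dominated, so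
`‖h A‖ ≤ C h √RR ≤ C' h √Mn` (`ptwC`). With `v = ex σ (-1) z * y` the polynomial `TayW` is
`∑ k ≤ N, 1/k! ∑ a ≤ k, choose k a (y/2)^a (- conj y/2)^(k-a) E (2 a - k) + O(h) √Mn`, and
`(-I)^(2a-k) cc k (2a-k) y = choose k a (y/2)^a (- conj y / 2)^(k-a)`, `cc k j y = 0` for other `j`
(induction on `k`). -/
def StmtTac : Prop :=
  ∀ (V : Set ℂ) (σ : ℂ → ℝ) (h : ℕ → ℝ) (φ : ℕ → ℂ → ℂ), LocB V σ h φ → ∀ K, IsCompact K → K ⊆ V →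
    ∀ (R L : ℝ), 0 < L → ∀ N : ℕ, ∀ ε > 0, ∀ᶠ n in atTop, ∀ z ∈ K, ∀ y : ℂ, ‖y‖ ≤ R →
      ‖TayW h φ N n z (ex σ (-1) z * y) - TayE σ h φ N n z y‖ ≤ ε * √(Mn L h φ n z)

/-- TAY: Taylor's formula in terms of the covariant jets (from TAW with the bound
`R * sup_K ‖ex σ (-1)‖`, and TAC) -/
def StmtTay : Prop :=
  ∀ (V : Set ℂ) (σ : ℂ → ℝ) (h : ℕ → ℝ) (φ : ℕ → ℂ → ℂ), LocB V σ h φ → ∀ K, IsCompact K → K ⊆ V →
    ∀ R : ℝ, ∃ L : ℝ, 0 < L ∧ ∀ ε > 0, ∃ N₀ : ℕ, ∀ N ≥ N₀, ∀ᶠ n in atTop, ∀ z ∈ K, ∀ y : ℂ, ‖y‖ ≤ R →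
      dp σ h n z y ∈ V ∧ ‖φ n (dp σ h n z y) - TayE σ h φ N n z y‖ ≤ ε * √(Mn L h φ n z)

/-- ROTP: the rotation averages of the products of the values at four points, in terms of the jets.
Proof (from TAY; `Mn` is monotone in `L`). `L₀` is that of TAY for the bound `R + 1`, increased to at
least `1`. By TAY with
`ε = 1` and `ptwC`, `‖φ n (dp ..)‖ ≤ C √Mn` (`N` fixed there); by TAY with a small `ε'` and `N ≥ N₀` also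
`‖TayE N‖ ≤ (C + 1) √Mn`, where `TayE` is taken at `ξ n t z`; replacing `ξ n t z` by `uu t ^ 2 * x` in
`TayE N` costs `o(1) √Mn` (`CN N j` is continuous, hence uniformly continuous on the ball of radius
`R + 1`, `N` fixed). The difference of the products is at most `ε'' Mn²` (telescope), and
`∫ ‖ζ‖ θ² Mn² ≤ C''` by `Wt.ui` (`∫_K (θ Mn)² ≤ T² |K| + 1`). Then
`TayE N n z (uu t ^ 2 * x) = ∑ (uu t ^ 2) ^ j kap1 N j x E_j` (`CN_rot`), and the average over `t` of the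
product keeps the total index zero (`ang_zpow_mul`), as in `Setup.rot_expand` (C13). -/
def StmtRotp : Prop :=
  ∀ (V : Set ℂ) (σ : ℂ → ℝ) (h : ℕ → ℝ) (φ : ℕ → ℂ → ℂ), LocB V σ h φ → ∀ K, IsCompact K → K ⊆ V →
    ∀ R : ℝ, ∃ L₀ : ℝ, 0 < L₀ ∧ ∀ L ≥ L₀, ∀ θ : ℕ → ℂ → ℝ, Wt V σ h φ L θ →
      ∀ (x : Fin 4 → ℂ) (ξ : Fin 4 → ℕ → ℝ → ℂ → ℂ), (∀ i, ‖x i‖ ≤ R) → (∀ i, Dis K (x i) (ξ i)) →
      ∀ ζ : ℂ → ℂ, Test V ζ → tsupport ζ ⊆ K → ∀ ε > 0, ∃ N₀ : ℕ, ∀ N ≥ N₀, ∀ᶠ n in atTop,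
        ‖rotW σ h φ θ ζ ξ id n
          - ∑ p ∈ Fintype.piFinset (fun _ : Fin 4 => Finset.Icc (-(N : ℤ)) N),
            (∏ i, kap1 N (p i) (x i)) * ((if ∑ i, p i = 0 then 1 else 0)
              * E4w σ h φ θ ζ n (p 0) (p 1) (p 2) (p 3))‖ ≤ ε

/-- ROTS: the same for linear statistics: the sum over the indices of total zero.
Proof (from ROTP). Multilinear expansion as in `Setup.rot_jets` (C43, `lin_expand`, `sum_pi4`); the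
coefficients are `(-I)^j * tN c x N j`. -/
def StmtRots : Prop :=
  ∀ (V : Set ℂ) (σ : ℂ → ℝ) (h : ℕ → ℝ) (φ : ℕ → ℂ → ℂ), LocB V σ h φ → ∀ K, IsCompact K → K ⊆ V →
    ∀ R : ℝ, ∃ L₀ : ℝ, 0 < L₀ ∧ ∀ L ≥ L₀, ∀ θ : ℕ → ℂ → ℝ, Wt V σ h φ L θ →
      ∀ (r : ℕ) (c : Fin r → ℝ) (x : Fin r → ℂ) (ξ : Fin r → ℕ → ℝ → ℂ → ℂ), (∀ i, ‖x i‖ ≤ R) →
      (∀ i, Dis K (x i) (ξ i)) → ∀ ζ : ℂ → ℝ, Test V (fun z => (ζ z : ℂ)) → tsupport ζ ⊆ K →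
      ∀ ε > 0, ∃ N₀ : ℕ, ∀ N ≥ N₀, ∀ᶠ n in atTop,
        |(∫ t, (∫ z, ζ z * (θ n z ^ 2 * Tw σ h φ c ξ n t z ^ 4)) ∂ang)
          - (Sum4 σ h φ θ (fun z => (ζ z : ℂ)) (Finset.Icc (-(N : ℤ)) N)
            (fun j => (-I) ^ j * tN c x N j) n).re| ≤ ε

/-- TLOW: **the lower bound for the fourth moments of linear statistics, with weights**.
Proof (from ROTS, LINW, POSW). `tau I (fun j => (-I)^j t j) = cS I t 0`, which tends to `statVar c x`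
(`tendsto_cS0`) for `t = tN c x N`; `(-I)^(-j) tN (-j) = (-1)^j conj ((-I)^j tN j)` (`tN_conj`);
`∫ ζ θ² φ⁴` is bounded (`Wt.ui`, `ptwC`) and at least `3 ∫ ζ |u₀|² - ε` (POSW). Choose `N` with
`|‖tau‖² - statVar²|` small. -/
def StmtTlow : Prop :=
  ∀ (V : Set ℂ) (σ : ℂ → ℝ) (h : ℕ → ℝ) (φ : ℕ → ℂ → ℂ), LocB V σ h φ → ∀ K, IsCompact K → K ⊆ V →
    ∀ R : ℝ, ∃ L₀ : ℝ, 0 < L₀ ∧ ∀ L ≥ L₀, ∀ θ : ℕ → ℂ → ℝ, Wt V σ h φ L θ → ∀ u : ℤ → ℂ → ℂ, JL V σ h φ u →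
      NoAt V u → ∀ (r : ℕ) (c : Fin r → ℝ) (x : Fin r → ℂ) (ξ : Fin r → ℕ → ℝ → ℂ → ℂ),
      (∀ i, ‖x i‖ ≤ R) → (∀ i, Dis K (x i) (ξ i)) → ∀ ζ : ℂ → ℝ, Test V (fun z => (ζ z : ℂ)) →
      (∀ z, 0 ≤ ζ z) → tsupport ζ ⊆ K → ∀ ε > 0, ∀ᶠ n in atTop,
        statVar c x ^ 2 * (3 * ∫ z, ζ z * ‖u 0 z‖ ^ 2) - ε
          ≤ ∫ t, (∫ z, ζ z * (θ n z ^ 2 * Tw σ h φ c ξ n t z ^ 4)) ∂ang

/-- TRUN: from weights to truncations.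
Proof. `|Tw| ≤ C √Mn` on `K` for large `n` (TAY and `ptwC`, `C` depends on `c` and `R`). For `R' > 0`:
`θ² Tw⁴ ≤ min (Tw², R')² + 1_{Tw² > R'} C⁴ (θ Mn)²`, and
`1_{Mn > R'/C²} (θ Mn)² ≤ (θ Mn)² 1_{θ Mn > T} + T² 1_{Mn > R'/C²}`; the first has a small integral
over `K` for `T` large (`Wt.ui`), the second at most `T² C² / R' ∫_K Mn`, and `∫_K Mn ≤ C'` for large `n`
(Tonelli, `DSP.fub` (C27), and `LocB.bdd`). So `R'` large. -/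
def StmtTrun : Prop :=
  ∀ (V : Set ℂ) (σ : ℂ → ℝ) (h : ℕ → ℝ) (φ : ℕ → ℂ → ℂ), LocB V σ h φ → ∀ K, IsCompact K → K ⊆ V →
    ∀ R : ℝ, ∃ L₀ : ℝ, 0 < L₀ ∧ ∀ L ≥ L₀, ∀ θ : ℕ → ℂ → ℝ, Wt V σ h φ L θ →
      ∀ (r : ℕ) (c : Fin r → ℝ) (x : Fin r → ℂ) (ξ : Fin r → ℕ → ℝ → ℂ → ℂ), (∀ i, ‖x i‖ ≤ R) →
      (∀ i, Dis K (x i) (ξ i)) → ∀ ζ : ℂ → ℝ, Test V (fun z => (ζ z : ℂ)) → (∀ z, 0 ≤ ζ z) →
      tsupport ζ ⊆ K → ∀ ε > 0, ∃ R' : ℝ, 0 < R' ∧ ∀ᶠ n in atTop,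
        (∫ t, (∫ z, ζ z * (θ n z ^ 2 * Tw σ h φ c ξ n t z ^ 4)) ∂ang) - ε
          ≤ ∫ t, (∫ z, ζ z * min (Tw σ h φ c ξ n t z ^ 2) R' ^ 2) ∂ang

/-- TCUB: the rotation averages of the products of the values at three points, with weights.
Proof (from TAY, CUBW). As ROTP with three factors and the weight `θ` (instead of `θ²`):
`∫_K θ Mn^(3/2) ≤ (∫_K θ² Mn²)^(1/2) (∫_K Mn)^(1/2)` is bounded. -/
def StmtTcub : Prop :=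
  ∀ (V : Set ℂ) (σ : ℂ → ℝ) (h : ℕ → ℝ) (φ : ℕ → ℂ → ℂ), LocB V σ h φ → ∀ K, IsCompact K → K ⊆ V →
    ∀ R : ℝ, ∃ L₀ : ℝ, 0 < L₀ ∧ ∀ L ≥ L₀, ∀ θ : ℕ → ℂ → ℝ, Wt V σ h φ L θ →
      ∀ u : ℤ → ℂ → ℂ, JL V σ h φ u → NoAt V u →
      ∀ (x : Fin 3 → ℂ) (ξ : Fin 3 → ℕ → ℝ → ℂ → ℂ), (∀ i, ‖x i‖ ≤ R) → (∀ i, Dis K (x i) (ξ i)) →
      ∀ ζ : ℂ → ℂ, Test V ζ → tsupport ζ ⊆ K →
        Tendsto (fun n => ∫ t, (∫ z, ζ z * ((θ n z : ℂ)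
          * ∏ i, φ n (dp σ h n z (ξ i n t z)))) ∂ang) atTop (𝓝 0)

/-- TLOC: **the local theorem for linear statistics**: the truncated fourth moments are at least the
Gaussian ones. No weights and no bounds for fourth moments appear; the weights are required to exist
for each radius `L` (module WTS). Proof: TLOW and TRUN with the larger of the two radii `L₀` and one
and the same weight. -/
def StmtTloc : Prop :=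
  ∀ (V : Set ℂ) (σ : ℂ → ℝ) (h : ℕ → ℝ) (φ : ℕ → ℂ → ℂ), LocB V σ h φ →
    (∀ L : ℝ, 0 < L → ∃ θ : ℕ → ℂ → ℝ, Wt V σ h φ L θ) → ∀ u : ℤ → ℂ → ℂ, JL V σ h φ u → NoAt V u →
      ∀ K, IsCompact K → K ⊆ V →
      ∀ (r : ℕ) (c : Fin r → ℝ) (x : Fin r → ℂ) (ξ : Fin r → ℕ → ℝ → ℂ → ℂ),
      (∀ i, Dis K (x i) (ξ i)) → ∀ ζ : ℂ → ℝ, Test V (fun z => (ζ z : ℂ)) →
      (∀ z, 0 ≤ ζ z) → tsupport ζ ⊆ K → ∀ ε > 0, ∃ R' : ℝ, 0 < R' ∧ ∀ᶠ n in atTop,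
        statVar c x ^ 2 * (3 * ∫ z, ζ z * ‖u 0 z‖ ^ 2) - ε
          ≤ ∫ t, (∫ z, ζ z * min (Tw σ h φ c ξ n t z ^ 2) R' ^ 2) ∂ang

end

end BSL
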