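import Pool.Agent.BSL.St2
import Pool.Agent.BSL.StmtsT

/-!
# The local waves as values at displaced points

The passage from `Berry.rWave` to the functions `φ'` of a chart, for weights which depend on `n`.
-/

open Complex MeasureTheory Filter Topology Set
open UpperHalfPlane hiding I
open scoped ContDiff MatrixGroups ProbabilityTheory

namespace BSL

open QE QE.NC QJ U3 NFP

noncomputable section

namespace PTF

variable {ρ : ℍ → ℝ} {φ : ℕ → ℍ → ℝ} {m : ℕ → ℝ} {V : Set ℂ} {σ : ℂ → ℝ} {φ' : ℕ → ℂ → ℂ}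

lemma a_eq (A : Agree V UH (gr ρ) (hh m) (ph φ) σ φ') {z : ℂ} (hz : z ∈ V) :
    ex σ (-1) z = (z.im : ℂ) * (Real.exp (-ρ (ofComplex z)) : ℂ) := by
  have h := JCONV.aR_eq (A.sub hz) (A.eg z hz)
  rw [← h]
  unfold aR ro
  push_cast
  rfl

lemma em_smooth (hρ : ContDiffOn ℝ ∞ (ro ρ) UH) : ContDiffOn ℝ ∞ (em ρ) HH :=
  Real.contDiff_exp.comp_contDiffOn (ContDiffOn.neg hρ)

/-- the frames give displacements -/
lemma disp' (hρ : ContDiffOn ℝ ∞ (ro ρ) UH) (A : Agree V UH (gr ρ) (hh m) (ph φ) σ φ')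
    {K : Set ℂ} (hK : IsCompact K) (hKV : K ⊆ V) (x : ℂ) :
    Disp (hh m) (ex σ (-1)) K 2 x (frXi (hh m) (em ρ) x) := by
  have hKU : K ⊆ HH := hKV.trans A.sub
  have heS := em_smooth hρ
  have haS : ContDiffOn ℝ ∞ (ex σ (-1)) HH := (contDiff_ex A.loc.sm (-1)).contDiffOn
  obtain ⟨M, hM⟩ := hK.exists_bound_of_continuousOn (heS.continuousOn.mono hKU)
  obtain ⟨L, hLip⟩ := lip_of_smooth isOpen_HH haS hK hKU
  exact disp_frame A.loc.hpos A.loc.hlim hLip (b := fun z => z.im) (fun z _ w _ => by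
    have := Complex.abs_im_le_norm (z - w)
    rwa [Complex.sub_im] at this) (fun z hz => a_eq A (hKV hz))
    (heS.continuousOn.mono hKU) hM x

lemma dis (hρ : ContDiffOn ℝ ∞ (ro ρ) UH) (A : Agree V UH (gr ρ) (hh m) (ph φ) σ φ')
    {K : Set ℂ} (hK : IsCompact K) (hKV : K ⊆ V) (x : ℂ) :
    Dis K x (frXi (hh m) (em ρ) x) := by
  have h := disp' hρ A hK hKV x
  refine ⟨fun ε hε => ?_, h.cont⟩
  filter_upwards [h.lim ε hε] with n hn t z hz
  have := hn t z hz
  rwa [show (2 : ℤ) = ((2 : ℕ) : ℤ) from rfl, zpow_natCast] at this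

/-- the averages of the products of the local waves, with weights -/
lemma ang_eq (hρ : ContDiffOn ℝ ∞ (ro ρ) UH) (A : Agree V UH (gr ρ) (hh m) (ph φ) σ φ')
    {K : Set ℂ} (hK : IsCompact K) (hKV : K ⊆ V) {r : ℕ} (x : Fin r → ℂ) :
    ∀ᶠ n in atTop, ∀ wg : ℂ → ℝ, Continuous wg → (∀ z, z ∉ K → wg z = 0) →
      ((∫ z, wg z * angProd ρ (φ n) (m n) x (ofComplex z) : ℝ) : ℂ)
        = ∫ t, (∫ z, (wg z : ℂ) * ∏ i, φ' n (dp σ (hh m) n z
            (frXi (hh m) (em ρ) (x i) n t z))) ∂ang := by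
  have hKU : K ⊆ HH := hKV.trans A.sub
  have hpos : ∀ n, 0 < hh m n := A.loc.hpos
  have hlim : Tendsto (hh m) atTop (𝓝 0) := A.loc.hlim
  have hmpos : ∀ n, 0 < m n := fun n => one_div_pos.1 (hpos n)
  have heS := em_smooth hρ
  have haC : Continuous (ex σ (-1)) := (contDiff_ex A.loc.sm (-1)).continuous
  obtain ⟨A₀, hA₀⟩ := hK.exists_bound_of_continuousOn (f := ex σ (-1)) haC.continuousOn
  obtain ⟨M, hM⟩ := hK.exists_bound_of_continuousOn (heS.continuousOn.mono hKU)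
  set A' := |A₀| with hA'
  set M' := |M| with hM'
  have hA2 : ∀ z ∈ K, ‖ex σ (-1) z‖ ≤ A' := fun z hz => (hA₀ z hz).trans (le_abs_self A₀)
  have hM2 : ∀ z ∈ K, |em ρ z| ≤ M' := fun z hz => (hM z hz).trans (le_abs_self M)
  have hA0 : 0 ≤ A' := abs_nonneg _
  have hM0 : 0 ≤ M' := abs_nonneg _
  set X : ℝ := ∑ i, ‖x i‖ with hX
  have hX0 : 0 ≤ X := Finset.sum_nonneg fun _ _ => norm_nonneg _
  have hxX : ∀ i, ‖x i‖ ≤ X := fun i =>
    Finset.single_le_sum (f := fun i => ‖x i‖) (fun _ _ => norm_nonneg _) (Finset.mem_univ i)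
  obtain ⟨δ, hδ, hδV⟩ := hK.exists_cthickening_subset_open A.op hKV
  have hcont : ∀ᶠ n in atTop, ∀ i, ContinuousOn
      (fun p : ℝ × ℂ => frXi (hh m) (em ρ) (x i) n p.1 p.2) (univ ×ˢ K) :=
    eventually_all.2 fun i => (disp' hρ A hK hKV (x i)).cont
  have hlim2 : ∀ᶠ n in atTop, ∀ i, ∀ t, ∀ z ∈ K,
      ‖frXi (hh m) (em ρ) (x i) n t z - uu t ^ 2 * x i‖ ≤ 1 :=
    eventually_all.2 fun i => (dis hρ A hK hKV (x i)).lim 1 one_pos
  have hsmall : ∀ᶠ n in atTop, hh m n * (X * M') < 1 := by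
    have := hlim.mul_const (X * M')
    rw [zero_mul] at this
    exact this.eventually_lt_const (by norm_num)
  have hsmall2 : ∀ᶠ n in atTop, hh m n * (A' * (X + 1)) < δ := by
    have := hlim.mul_const (A' * (X + 1))
    rw [zero_mul] at this
    exact this.eventually_lt_const hδ
  filter_upwards [hcont, hlim2, hsmall, hsmall2] with n n1 n2 n3 n4 wg hgc hg0
  have hn := (hpos n).le
  -- the displaced points stay in `V`
  have hmem : ∀ i t, ∀ z ∈ K, dp σ (hh m) n z (frXi (hh m) (em ρ) (x i) n t z) ∈ V := by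
    intro i t z hz
    refine hδV (Metric.mem_cthickening_of_dist_le _ z δ K hz ?_)
    unfold dp
    rw [dist_eq_norm, add_sub_cancel_left, norm_mul, norm_mul, Complex.norm_real,
      Real.norm_of_nonneg hn]
    have h1 : ‖frXi (hh m) (em ρ) (x i) n t z‖ ≤ X + 1 := by
      have e2 : frXi (hh m) (em ρ) (x i) n t z
          = (frXi (hh m) (em ρ) (x i) n t z - uu t ^ 2 * x i) + uu t ^ 2 * x i := by ring
      rw [e2]
      refine (norm_add_le _ _).trans ?_
      rw [norm_mul (uu t ^ 2), norm_pow, norm_uu, one_pow, one_mul]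
      have := n2 i t z hz
      have := hxX i
      linarith
    calc hh m n * (‖ex σ (-1) z‖ * ‖frXi (hh m) (em ρ) (x i) n t z‖)
        ≤ hh m n * (A' * (X + 1)) := by
          have := hA2 z hz
          gcongr
      _ ≤ δ := n4.le
  -- the values
  have hval : ∀ i t, ∀ z ∈ K, (Berry.rWave ρ (φ n) (m n) (x i) (ofComplex z, t) : ℂ)
      = φ' n (dp σ (hh m) n z (frXi (hh m) (em ρ) (x i) n t z)) := fun i t z hz => by
    have hx1 : ‖x i / ((m n * Real.exp (ρ (ofComplex z)) : ℝ) : ℂ)‖ < 1 := by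
      have e1 : x i / ((m n * Real.exp (ρ (ofComplex z)) : ℝ) : ℂ)
          = x i * ((hh m n * em ρ z : ℝ) : ℂ) := by
        have e2 : (hh m n * em ρ z : ℝ) = (m n * Real.exp (ρ (ofComplex z)))⁻¹ := by
          simp only [hh, QE.em]
          rw [Real.exp_neg, mul_inv, one_div]
        rw [e2, Complex.ofReal_inv, div_eq_mul_inv]
      rw [e1, norm_mul, Complex.norm_real, Real.norm_eq_abs, abs_mul, abs_of_pos (hpos n)]
      have e3 := hM2 z hz
      have e4 := hxX i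
      calc ‖x i‖ * (hh m n * |em ρ z|) ≤ X * (hh m n * M') := by gcongr
        _ = hh m n * (X * M') := by ring
        _ < 1 := n3
    have h1 := rWave_eq_disp (hmpos n) (x i) t (hKU hz) hx1 (n := n) (h := hh m) rfl
      (a := ex σ (-1)) (a_eq A (hKV hz)) (φ := φ n)
    rw [h1, A.eφ n _ (hmem i t z hz)]
    unfold ph dp QE.em
    rw [mul_assoc]
  -- Fubini
  set H : ℝ × ℂ → ℂ := fun p => (wg p.2 : ℂ) * ∏ i, φ' n (dp σ (hh m) n p.2
    (frXi (hh m) (em ρ) (x i) n p.1 p.2)) with hH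
  have cφ : Continuous (φ' n) := (A.loc.smφ n).continuous
  have cH : ContinuousOn H (univ ×ˢ K) := by
    refine (Complex.continuous_ofReal.comp (hgc.comp continuous_snd)).continuousOn.mul
      (continuousOn_finsetProd _ fun i _ => ?_)
    refine cφ.comp_continuousOn ?_
    unfold dp
    exact continuousOn_snd.add (continuousOn_const.mul
      ((haC.comp continuous_snd).continuousOn.mul (n1 i)))
  have hset : ∀ f : ℂ → ℝ, ∫ z, wg z * f z = ∫ z in K, wg z * f z := by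
    intro f
    rw [setIntegral_eq_integral_of_forall_compl_eq_zero]
    intro z hz
    rw [hg0 z hz, zero_mul]
  have hset' : ∀ f : ℂ → ℂ, ∫ z, (wg z : ℂ) * f z = ∫ z in K, (wg z : ℂ) * f z := by
    intro f
    rw [setIntegral_eq_integral_of_forall_compl_eq_zero]
    intro z hz
    rw [hg0 z hz]; simp
  have e0 := integral_integral_swap (f := fun t z => H (t, z)) (int_ang hK cH)
  have e1 : ∫ t, (∫ z, (wg z : ℂ) * ∏ i, φ' n (dp σ (hh m) n z
      (frXi (hh m) (em ρ) (x i) n t z))) ∂ang = ∫ t, (∫ z in K, H (t, z)) ∂ang := by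
    congr 1
    funext t
    rw [hset']
  rw [e1, e0, hset]
  refine (integral_ofReal (𝕜 := ℂ) (μ := volume.restrict K) (f := fun z : ℂ => wg z
    * angProd ρ (φ n) (m n) x (ofComplex z))).symm.trans ?_
  refine setIntegral_congr_fun hK.measurableSet fun z hz => ?_
  change ((wg z * angProd ρ (φ n) (m n) x (ofComplex z) : ℝ) : ℂ) = ∫ t, H (t, z) ∂ang
  rw [Complex.ofReal_mul]
  have e2 : ((angProd ρ (φ n) (m n) x (ofComplex z) : ℝ) : ℂ)
      = ∫ t, ∏ i, φ' n (dp σ (hh m) n z (frXi (hh m) (em ρ) (x i) n t z)) ∂ang := by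
    unfold angProd
    refine (integral_ofReal (𝕜 := ℂ) (μ := ang) (f := fun θ : ℝ => ∏ i,
      Berry.rWave ρ (φ n) (m n) (x i) (ofComplex z, θ))).symm.trans ?_
    congr 1
    funext θ
    change ((∏ i, Berry.rWave ρ (φ n) (m n) (x i) (ofComplex z, θ) : ℝ) : ℂ) = _
    rw [Complex.ofReal_prod]
    refine Finset.prod_congr rfl fun i _ => ?_
    rw [hval i θ z hz]
  rw [e2, ← integral_const_mul]

end PTF

end

end BSL
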