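import Pool.Agent.BSL.StmtsT
import Pool.Agent.BSL.WTR
import Pool.Agent.BWM.C27

/-!
# ROTG: rotation averages of products of values at `r` points, with a weight (helper67)
-/

open Complex MeasureTheory Filter Topology Set
open scoped ContDiff

namespace BSL

open QE QJ U3

noncomputable section

namespace ROTG

variable {V : Set ℂ} {σ : ℂ → ℝ} {h : ℕ → ℝ} {φ : ℕ → ℂ → ℂ}

lemma Mn_mono (L : LocB V σ h φ) {a b : ℝ} (hab : a ≤ b) (n : ℕ) (z : ℂ) :
    Mn a h φ n z ≤ Mn b h φ n z := by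
  unfold Mn
  have h1 : ∫ w in Metric.closedBall z (a * h n), ‖φ n w‖ ^ 2
      ≤ ∫ w in Metric.closedBall z (b * h n), ‖φ n w‖ ^ 2 :=
    setIntegral_mono_set (((L.smφ n).continuous.norm.pow 2).continuousOn.integrableOn_compact
      (isCompact_closedBall _ _)) (Filter.Eventually.of_forall fun w => by positivity)
      (Filter.Eventually.of_forall (Metric.closedBall_subset_closedBall
        (mul_le_mul_of_nonneg_right hab (L.hpos n).le)))
  have h2 := mul_le_mul_of_nonneg_left h1 (by positivity : (0 : ℝ) ≤ 1 / h n ^ 2)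
  linarith

/-- the jets are bounded by the square roots of the local mean squares -/
lemma E_bound (L : LocB V σ h φ) {K : Set ℂ} (hK : IsCompact K) (hKV : K ⊆ V) {c : ℝ} (hc : 0 < c)
    (j : ℤ) : ∃ C : ℝ, 0 ≤ C ∧ ∀ᶠ n in atTop, ∀ z ∈ K, ‖E σ h φ j n z‖ ≤ C * √(Mn c h φ n z) := by
  obtain ⟨N, C, hn⟩ := (stmtJetC V σ h φ L j).1.bq K hK hKV
  obtain ⟨C', hC', hn'⟩ := ptwC stmtSup L hK hKV N hc
  refine ⟨√(|C| * C'), Real.sqrt_nonneg _, ?_⟩
  filter_upwards [hn, hn'] with n h1 h2 z hz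
  rw [← Real.sqrt_mul (by positivity)]
  refine Real.le_sqrt_of_sq_le ?_
  have h3 := h1 z hz
  have h4 : RR h φ N n z ≤ C' * Mn c h φ n z := h2 z hz
  rw [pow_one] at h3
  have h5 := RR_pos h φ N n z
  calc ‖E σ h φ j n z‖ ^ 2 ≤ C * RR h φ N n z := h3
    _ ≤ |C| * RR h φ N n z := mul_le_mul_of_nonneg_right (le_abs_self C) h5.le
    _ ≤ |C| * (C' * Mn c h φ n z) := mul_le_mul_of_nonneg_left h4 (abs_nonneg C)
    _ = _ := by ring

lemma kap1_rot (N : ℕ) {u : ℂ} (hu : ‖u‖ = 1) (j : ℤ) (y : ℂ) :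
    kap1 N j (u * y) = u ^ j * kap1 N j y := by
  unfold kap1
  rw [CN_rot N hu]
  ring

lemma continuous_kap1 (N : ℕ) (j : ℤ) : Continuous (kap1 N j) :=
  continuous_const.mul (continuous_CN N j)

/-- the Taylor polynomials are bounded by the square roots of the local mean squares -/
lemma Tay_bound (L : LocB V σ h φ) {K : Set ℂ} (hK : IsCompact K) (hKV : K ⊆ V) {c : ℝ} (hc : 0 < c)
    (N : ℕ) (R : ℝ) : ∃ C : ℝ, 0 ≤ C ∧ ∀ᶠ n in atTop, ∀ z ∈ K, ∀ y : ℂ, ‖y‖ ≤ R →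
      ‖TayE σ h φ N n z y‖ ≤ C * √(Mn c h φ n z) := by
  choose C hC hE using fun j => E_bound L hK hKV hc j
  have hB : ∀ j : ℤ, ∃ B : ℝ, 0 ≤ B ∧ ∀ y : ℂ, ‖y‖ ≤ R → ‖kap1 N j y‖ ≤ B := by
    intro j
    obtain ⟨B, hB⟩ := (isCompact_closedBall (0 : ℂ) R).exists_bound_of_continuousOn
      (continuous_kap1 N j).continuousOn
    exact ⟨|B|, abs_nonneg _, fun y hy => (hB y (by simpa using hy)).trans (le_abs_self B)⟩
  choose B hB0 hB using hB
  refine ⟨∑ j ∈ Finset.Icc (-(N : ℤ)) N, B j * C j,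
    Finset.sum_nonneg fun j _ => mul_nonneg (hB0 j) (hC j), ?_⟩
  have hall : ∀ᶠ n in atTop, ∀ j ∈ Finset.Icc (-(N : ℤ)) N, ∀ z ∈ K,
      ‖E σ h φ j n z‖ ≤ C j * √(Mn c h φ n z) :=
    (Filter.eventually_all_finset _).2 fun j _ => hE j
  filter_upwards [hall] with n hn z hz y hy
  unfold TayE
  rw [Finset.sum_mul]
  refine (norm_sum_le _ _).trans (Finset.sum_le_sum fun j hj => ?_)
  rw [norm_mul, mul_assoc]
  exact mul_le_mul (hB j y hy) (hn j hj z hz) (norm_nonneg _) (hB0 j)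

/-- the difference of two products -/
lemma prod_scaled {r : ℕ} (a c : Fin r → ℂ) {A δ Q : ℝ} (hQ : 0 < Q) (hA : 1 ≤ A) (hδ : 0 ≤ δ)
    (ha : ∀ i, ‖a i‖ ≤ A * Q) (hc : ∀ i, ‖c i‖ ≤ A * Q) (hd : ∀ i, ‖a i - c i‖ ≤ δ * Q) :
    ‖∏ i, a i - ∏ i, c i‖ ≤ r * (δ * A ^ r) * Q ^ r := by
  have hQc : (Q : ℂ) ≠ 0 := by exact_mod_cast hQ.ne'
  have hn : ∀ v : ℂ, ‖(Q : ℂ)⁻¹ * v‖ = ‖v‖ / Q := fun v => by
    rw [norm_mul, norm_inv, Complex.norm_real, Real.norm_of_nonneg hQ.le]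
    field_simp
  obtain ⟨h1, -⟩ := QJ.PTS.prod_diff Finset.univ (fun i => (Q : ℂ)⁻¹ * a i)
    (fun i => (Q : ℂ)⁻¹ * c i) hA hδ (fun i => by rw [hn, div_le_iff₀ hQ]; exact ha i)
    (fun i => by rw [hn, div_le_iff₀ hQ]; exact hc i)
    (fun i => by rw [← mul_sub, hn, div_le_iff₀ hQ]; exact hd i)
  rw [Finset.prod_mul_distrib, Finset.prod_mul_distrib, Finset.prod_const, Finset.card_univ,
    Fintype.card_fin, ← mul_sub, norm_mul, norm_pow, norm_inv, Complex.norm_real,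
    Real.norm_of_nonneg hQ.le] at h1
  have h2 : ‖∏ i, a i - ∏ i, c i‖ = Q ^ r * (Q⁻¹ ^ r * ‖∏ i, a i - ∏ i, c i‖) := by
    rw [← mul_assoc, ← mul_pow, mul_inv_cancel₀ hQ.ne', one_pow, one_mul]
  rw [h2]
  calc Q ^ r * (Q⁻¹ ^ r * ‖∏ i, a i - ∏ i, c i‖) ≤ Q ^ r * (r * (δ * A ^ r)) :=
        mul_le_mul_of_nonneg_left h1 (by positivity)
    _ = _ := by ring

/-- the rotation average of the products of the Taylor polynomials -/
theorem rot_expand (L : LocB V σ h φ) {K : Set ℂ} (hK : IsCompact K) {k : ℕ}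
    (y : Fin k → ℂ) {g : ℂ → ℂ} (hg : ContinuousOn g K) (N n : ℕ) :
    ∫ t, (∫ z in K, g z * ∏ i, TayE σ h φ N n z (uu t ^ 2 * y i)) ∂ang
      = ∑ p ∈ Fintype.piFinset (fun _ : Fin k => Finset.Icc (-(N : ℤ)) N),
        (∏ i, kap1 N (p i) (y i)) * ((if ∑ i, p i = 0 then 1 else 0)
          * ∫ z in K, g z * ∏ i, E σ h φ (p i) n z) := by
  set s := Fintype.piFinset (fun _ : Fin k => Finset.Icc (-(N : ℤ)) N) with hs
  have hE : ∀ p : Fin k → ℤ, IntegrableOn (fun z => g z * ∏ i, E σ h φ (p i) n z) K := by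
    intro p
    refine ContinuousOn.integrableOn_compact hK ?_
    exact hg.mul (continuousOn_finsetProd _ fun i _ =>
      ((stmtJetC V σ h φ L (p i)).1.smooth n).continuous.continuousOn)
  have e1 : ∀ t : ℝ, ∫ z in K, g z * ∏ i, TayE σ h φ N n z (uu t ^ 2 * y i)
      = ∑ p ∈ s, ((uu t ^ (2 : ℤ)) ^ (∑ i, p i)) * ((∏ i, kap1 N (p i) (y i))
          * ∫ z in K, g z * ∏ i, E σ h φ (p i) n z) := by
    intro t
    have hu : ‖uu t ^ (2 : ℤ)‖ = 1 := by rw [norm_zpow, norm_uu, one_zpow]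
    have hu0 : uu t ^ (2 : ℤ) ≠ 0 := zpow_ne_zero _ (uu_ne t)
    have hz2 : uu t ^ 2 = uu t ^ (2 : ℤ) := (zpow_ofNat _ 2).symm
    have e2 : ∀ z, g z * ∏ i, TayE σ h φ N n z (uu t ^ 2 * y i)
        = ∑ p ∈ s, ((uu t ^ (2 : ℤ)) ^ (∑ i, p i) * ∏ i, kap1 N (p i) (y i))
          * (g z * ∏ i, E σ h φ (p i) n z) := by
      intro z
      have e3 : ∏ i, TayE σ h φ N n z (uu t ^ 2 * y i) = ∑ p ∈ s,
          ∏ i, ((uu t ^ (2 : ℤ)) ^ (p i) * kap1 N (p i) (y i) * E σ h φ (p i) n z) := by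
        rw [hs, ← Finset.prod_univ_sum (fun _ : Fin k => Finset.Icc (-(N : ℤ)) N)
          (fun i j => (uu t ^ (2 : ℤ)) ^ j * kap1 N j (y i) * E σ h φ j n z)]
        refine Finset.prod_congr rfl fun i _ => ?_
        unfold TayE
        exact Finset.sum_congr rfl fun j _ => by rw [hz2, kap1_rot N hu]
      rw [e3, Finset.mul_sum]
      refine Finset.sum_congr rfl fun p _ => ?_
      rw [Finset.prod_mul_distrib, Finset.prod_mul_distrib]
      have e4 : ∏ i, (uu t ^ (2 : ℤ)) ^ (p i) = (uu t ^ (2 : ℤ)) ^ (∑ i, p i) := by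
        induction (Finset.univ : Finset (Fin k)) using Finset.induction_on with
        | empty => simp
        | insert i t hi ih => rw [Finset.prod_insert hi, Finset.sum_insert hi, zpow_add₀ hu0, ih]
      rw [e4]
      ring
    simp only [e2]
    rw [integral_finsetSum _ fun p _ => (hE p).const_mul _]
    refine Finset.sum_congr rfl fun p _ => ?_
    rw [integral_const_mul]
    ring
  simp only [e1]
  rw [integral_finsetSum]
  · refine Finset.sum_congr rfl fun p _ => ?_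
    rw [integral_mul_const, ang_zpow_mul (by norm_num : (2 : ℤ) ≠ 0)]
    ring
  · intro p _
    refine Integrable.mul_const ?_ _
    simp only [← zpow_mul]
    refine Integrable.of_bound (continuous_uu_zpow _).aestronglyMeasurable 1
      (Filter.Eventually.of_forall fun t => ?_)
    rw [norm_zpow, norm_uu, one_zpow]

/-- the coefficients at displacements -/
lemma kap1_dis {K : Set ℂ} {x : ℂ} {ξ : ℕ → ℝ → ℂ → ℂ} (hξ : Dis K x ξ) (N : ℕ) (j : ℤ) {ε : ℝ}
    (hε : 0 < ε) : ∀ᶠ n in atTop, ∀ t, ∀ z ∈ K,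
      ‖kap1 N j (ξ n t z) - kap1 N j (uu t ^ 2 * x)‖ ≤ ε := by
  have h1 := (isCompact_closedBall (0 : ℂ) (‖x‖ + 1)).uniformContinuousOn_of_continuous
    (continuous_kap1 N j).continuousOn
  rw [Metric.uniformContinuousOn_iff] at h1
  obtain ⟨δ, hδ, h2⟩ := h1 ε hε
  filter_upwards [hξ.lim (min (δ / 2) 1) (by positivity)] with n hn t z hz
  have h3 := hn t z hz
  have h4 : ‖uu t ^ 2 * x‖ = ‖x‖ := by rw [norm_mul, norm_pow, norm_uu, one_pow, one_mul]
  have h5 : ‖ξ n t z‖ ≤ ‖x‖ + 1 := by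
    have h6 : ξ n t z = (ξ n t z - uu t ^ 2 * x) + uu t ^ 2 * x := by ring
    rw [h6]
    refine (norm_add_le _ _).trans ?_
    have := h3.trans (min_le_right _ _)
    rw [h4]
    linarith
  have h6 := h2 (ξ n t z) (by simpa using h5) (uu t ^ 2 * x) (by
    rw [mem_closedBall_zero_iff, h4]; linarith) (by
    rw [dist_eq_norm]
    have := h3.trans (min_le_left _ _)
    linarith)
  rw [dist_eq_norm] at h6
  exact h6.le

/-- the local mean squares have bounded integrals -/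
lemma Mn_bdd (L : LocB V σ h φ) {K : Set ℂ} (hK : IsCompact K) (hKV : K ⊆ V) {c : ℝ} (hc : 0 ≤ c) :
    ∃ C : ℝ, ∀ᶠ n in atTop, ∫ z in K, Mn c h φ n z ≤ C := by
  obtain ⟨δ, hδ, hδV⟩ := hK.exists_cthickening_subset_open L.op hKV
  obtain ⟨Cb, hCb⟩ := L.bdd _ hK.cthickening hδV
  have h1 : Tendsto (fun n => c * h n) atTop (𝓝 (c * 0)) := L.hlim.const_mul c
  rw [mul_zero] at h1
  refine ⟨(volume K).toReal + Real.pi * c ^ 2 * |Cb|, ?_⟩
  filter_upwards [hCb, h1.eventually (gt_mem_nhds hδ)] with n hn hn'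
  have hh := L.hpos n
  have hf : Continuous fun w => ‖φ n w‖ ^ 2 := (L.smφ n).continuous.norm.pow 2
  have h2 := QJ.DSP.fub hf (fun w => by positivity) hK hK.cthickening
    (by positivity : 0 ≤ c * h n) (fun z hz v hv => by
      refine Metric.mem_cthickening_of_dist_le _ z δ K hz ?_
      rw [dist_eq_norm, add_sub_cancel_left]
      exact hv.trans hn'.le)
  have hc1 : Continuous fun z => ∫ w in Metric.closedBall z (c * h n), ‖φ n w‖ ^ 2 :=
    QJ.DSP.continuous_ball hf _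
  have i1 : IntegrableOn (fun _ : ℂ => (1 : ℝ)) K := integrableOn_const hK.measure_lt_top.ne
  have i2 : IntegrableOn (fun z => 1 / h n ^ 2 * ∫ w in Metric.closedBall z (c * h n),
      ‖φ n w‖ ^ 2) K := (continuous_const.mul hc1).continuousOn.integrableOn_compact hK
  have e1 : ∫ z in K, Mn c h φ n z = (∫ _ in K, (1 : ℝ)) + ∫ z in K, 1 / h n ^ 2
      * ∫ w in Metric.closedBall z (c * h n), ‖φ n w‖ ^ 2 := integral_add i1 i2
  rw [e1, integral_const_mul, setIntegral_const, smul_eq_mul, mul_one, Measure.real]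
  have h3 : 1 / h n ^ 2 * ∫ z in K, ∫ w in Metric.closedBall z (c * h n), ‖φ n w‖ ^ 2
      ≤ Real.pi * c ^ 2 * |Cb| := by
    calc 1 / h n ^ 2 * ∫ z in K, ∫ w in Metric.closedBall z (c * h n), ‖φ n w‖ ^ 2
        ≤ 1 / h n ^ 2 * (Real.pi * (c * h n) ^ 2 * |Cb|) :=
          mul_le_mul_of_nonneg_left (h2.trans (mul_le_mul_of_nonneg_left
            (hn.trans (le_abs_self Cb)) (by positivity))) (by positivity)
      _ = _ := by field_simp
  exact add_le_add le_rfl h3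

/-- the squares of the weighted local mean squares have bounded integrals -/
lemma ui_bdd {c : ℝ} {θ : ℕ → ℂ → ℝ} (W : Wt V σ h φ c θ) {K : Set ℂ} (hK : IsCompact K)
    (hKV : K ⊆ V) : ∃ C : ℝ, ∀ᶠ n in atTop, ∫ z in K, (θ n z * Mn c h φ n z) ^ 2 ≤ C := by
  obtain ⟨T, hT⟩ := W.ui K hK hKV 1 one_pos
  refine ⟨(volume K).toReal * T ^ 2 + 1, ?_⟩
  filter_upwards [hT] with n hn
  have hc : Continuous fun z => θ n z * Mn c h φ n z :=
    (W.smθ n).continuous.mul (continuous_Mn (fun n => (W.smφ n).continuous) c n)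
  have i1 : IntegrableOn (fun z => (θ n z * Mn c h φ n z) ^ 2) K :=
    (hc.pow 2).continuousOn.integrableOn_compact hK
  have i2 : IntegrableOn (fun z => if T < θ n z * Mn c h φ n z
      then (θ n z * Mn c h φ n z) ^ 2 else 0) K := by
    refine Integrable.mono i1 ?_ (Filter.Eventually.of_forall fun z => ?_)
    · exact (Measurable.ite (measurableSet_lt measurable_const hc.measurable)
        (hc.measurable.pow_const 2) measurable_const).aestronglyMeasurable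
    · split_ifs
      · exact le_rfl
      · rw [norm_zero]; exact norm_nonneg _
  have i3 : IntegrableOn (fun _ : ℂ => T ^ 2) K := integrableOn_const hK.measure_lt_top.ne
  have h1 : ∫ z in K, (θ n z * Mn c h φ n z) ^ 2 ≤ ∫ z in K, (T ^ 2 + if T < θ n z * Mn c h φ n z
      then (θ n z * Mn c h φ n z) ^ 2 else 0) := by
    refine integral_mono i1 (i3.add i2) fun z => ?_
    beta_reduce
    have h0 : 0 ≤ θ n z * Mn c h φ n z :=
      mul_nonneg (W.nonneg n z) (zero_le_one.trans (one_le_Mn c n z))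
    split_ifs with hcc
    · have := sq_nonneg T
      linarith
    · rw [add_zero]
      exact pow_le_pow_left₀ h0 (not_lt.1 hcc) 2
  rw [integral_add i3 i2, setIntegral_const, smul_eq_mul, Measure.real] at h1
  linarith

end ROTG

open ROTG in
/-- **ROTG**: the rotation averages of products of `r` values, with a weight -/
theorem rotg (hT : StmtTay) {V : Set ℂ} {σ : ℂ → ℝ} {h : ℕ → ℝ} {φ : ℕ → ℂ → ℂ}
    (L : LocB V σ h φ) {K : Set ℂ} (hK : IsCompact K) (hKV : K ⊆ V) (R : ℝ) :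
    ∃ L₀ : ℝ, 0 < L₀ ∧ ∀ Lr ≥ L₀, ∀ (r : ℕ) (w : ℕ → ℂ → ℝ), (∀ n, Continuous (w n)) →
      (∀ n z, 0 ≤ w n z) →
      (∃ C : ℝ, ∀ᶠ n in atTop, ∫ z in K, w n z * √(Mn Lr h φ n z) ^ r ≤ C) →
      ∀ (x : Fin r → ℂ) (ξ : Fin r → ℕ → ℝ → ℂ → ℂ), (∀ i, ‖x i‖ ≤ R) →
      (∀ i, Dis K (x i) (ξ i)) → ∀ ζ : ℂ → ℂ, Continuous ζ → tsupport ζ ⊆ K → ∀ ε > 0,
      ∃ N₀ : ℕ, ∀ N ≥ N₀, ∀ᶠ n in atTop,
        ‖(∫ t, (∫ z, ζ z * ((w n z : ℂ) * ∏ i, φ n (dp σ h n z (ξ i n t z)))) ∂ang)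
          - ∑ p ∈ Fintype.piFinset (fun _ : Fin r => Finset.Icc (-(N : ℤ)) N),
            (∏ i, kap1 N (p i) (x i)) * ((if ∑ i, p i = 0 then 1 else 0)
              * ∫ z, ζ z * ((w n z : ℂ) * ∏ i, E σ h φ (p i) n z))‖ ≤ ε := by
  obtain ⟨L₀, hL₀, hTay⟩ := hT V σ h φ L K hK hKV (R + 1)
  refine ⟨L₀, hL₀, fun Lr hLr r w hwc hw0 hwb x ξ hx hξ ζ hζ hζK ε hε => ?_⟩
  have hLr0 : 0 < Lr := hL₀.trans_le hLr
  obtain ⟨Cw, hCw⟩ := hwb
  obtain ⟨N₁, hN₁⟩ := hTay 1 one_pos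
  obtain ⟨C₁, hC₁, hTb⟩ := Tay_bound L hK hKV hLr0 N₁ (R + 1)
  obtain ⟨Z₀, hZ₀⟩ := hK.exists_bound_of_continuousOn hζ.continuousOn
  set Z : ℝ := |Z₀| with hZ
  have hZ0 : 0 ≤ Z := abs_nonneg _
  have hZb : ∀ z ∈ K, ‖ζ z‖ ≤ Z := fun z hz => (hZ₀ z hz).trans (le_abs_self _)
  set A : ℝ := C₁ + 3 with hA
  have hA1 : 1 ≤ A := by linarith
  set B : ℝ := Z * (r * A ^ r) * |Cw| with hB
  have hB0 : 0 ≤ B := by positivity
  set ε₁ : ℝ := min 1 (ε / (2 * (B + 1))) with hε₁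
  have hε₁0 : 0 < ε₁ := by positivity
  have hε₁1 : ε₁ ≤ 1 := min_le_left _ _
  have hε₁2 : 2 * ε₁ * B ≤ ε := by
    have h1 : ε₁ ≤ ε / (2 * (B + 1)) := min_le_right _ _
    have h2 : 2 * ε₁ * (B + 1) ≤ ε := by
      rw [le_div_iff₀ (by positivity)] at h1
      linarith
    nlinarith
  obtain ⟨N₀, hN₀⟩ := hTay ε₁ hε₁0
  refine ⟨N₀, fun N hN => ?_⟩
  choose C hC hE using fun j => E_bound L hK hKV hLr0 j
  set D : ℝ := ∑ j ∈ Finset.Icc (-(N : ℤ)) N, C j with hD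
  have hD0 : 0 ≤ D := Finset.sum_nonneg fun j _ => hC j
  have hallE : ∀ᶠ n in atTop, ∀ j ∈ Finset.Icc (-(N : ℤ)) N, ∀ z ∈ K,
      ‖E σ h φ j n z‖ ≤ C j * √(Mn Lr h φ n z) :=
    (Filter.eventually_all_finset _).2 fun j _ => hE j
  have hallk : ∀ᶠ n in atTop, ∀ i, ∀ j ∈ Finset.Icc (-(N : ℤ)) N, ∀ t, ∀ z ∈ K,
      ‖kap1 N j (ξ i n t z) - kap1 N j (uu t ^ 2 * x i)‖ ≤ ε₁ / (D + 1) :=
    Filter.eventually_all.2 fun i => (Filter.eventually_all_finset _).2 fun j _ =>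
      kap1_dis (hξ i) N j (by positivity)
  have hallξ : ∀ᶠ n in atTop, ∀ i, ∀ t, ∀ z ∈ K, ‖ξ i n t z - uu t ^ 2 * x i‖ ≤ 1 :=
    Filter.eventually_all.2 fun i => (hξ i).lim 1 one_pos
  have hallc : ∀ᶠ n in atTop, ∀ i, ContinuousOn (fun p : ℝ × ℂ => ξ i n p.1 p.2) (univ ×ˢ K) :=
    Filter.eventually_all.2 fun i => (hξ i).cont
  filter_upwards [hN₁ N₁ le_rfl, hN₀ N hN, hTb, hallE, hallk, hallξ, hallc, hCw]
    with n n1 n2 n3 n4 n5 n6 n7 n8
  have hφc : Continuous (φ n) := (L.smφ n).continuous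
  have hux : ∀ (t : ℝ) i, ‖uu t ^ 2 * x i‖ = ‖x i‖ := fun t i => by
    rw [norm_mul, norm_pow, norm_uu, one_pow, one_mul]
  have hξR : ∀ i, ∀ t, ∀ z ∈ K, ‖ξ i n t z‖ ≤ R + 1 := by
    intro i t z hz
    have h6 : ξ i n t z = (ξ i n t z - uu t ^ 2 * x i) + uu t ^ 2 * x i := by ring
    rw [h6]
    refine (norm_add_le _ _).trans ?_
    rw [hux]
    have := n6 i t z hz
    have := hx i
    linarith
  -- the functions
  have ca : ∀ i, ContinuousOn (fun p : ℝ × ℂ => φ n (dp σ h n p.2 (ξ i n p.1 p.2)))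
      (univ ×ˢ K) := by
    intro i
    refine hφc.comp_continuousOn ?_
    unfold dp
    exact continuousOn_snd.add (continuousOn_const.mul
      (((contDiff_ex L.sm (-1)).continuous.comp continuous_snd).continuousOn.mul (n7 i)))
  have cc : ∀ i, ContinuousOn (fun p : ℝ × ℂ => TayE σ h φ N n p.2 (uu p.1 ^ 2 * x i))
      (univ ×ˢ K) := by
    intro i
    unfold TayE
    refine Continuous.continuousOn (continuous_finsetSum _ fun j _ => ?_)
    refine ((continuous_kap1 N j).comp (((continuous_uu.comp continuous_fst).pow 2).mul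
      continuous_const)).mul ?_
    exact ((stmtJetC V σ h φ L j).1.smooth n).continuous.comp continuous_snd
  set H₁ : ℝ × ℂ → ℂ := fun p => ζ p.2 * ((w n p.2 : ℂ)
    * ∏ i, φ n (dp σ h n p.2 (ξ i n p.1 p.2))) with hH₁
  set H₂ : ℝ × ℂ → ℂ := fun p => ζ p.2 * ((w n p.2 : ℂ)
    * ∏ i, TayE σ h φ N n p.2 (uu p.1 ^ 2 * x i)) with hH₂
  have cw : Continuous fun p : ℝ × ℂ => (w n p.2 : ℂ) :=
    Complex.continuous_ofReal.comp ((hwc n).comp continuous_snd)
  have cζ : Continuous fun p : ℝ × ℂ => ζ p.2 := hζ.comp continuous_snd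
  have cH₁ : ContinuousOn H₁ (univ ×ˢ K) :=
    cζ.continuousOn.mul (cw.continuousOn.mul (continuousOn_finsetProd _ fun i _ => ca i))
  have cH₂ : ContinuousOn H₂ (univ ×ˢ K) :=
    cζ.continuousOn.mul (cw.continuousOn.mul (continuousOn_finsetProd _ fun i _ => cc i))
  -- integrals over K
  have hset : ∀ f : ℂ → ℂ, ∫ z, ζ z * f z = ∫ z in K, ζ z * f z := by
    intro f
    rw [setIntegral_eq_integral_of_forall_compl_eq_zero]
    intro z hz
    rw [image_eq_zero_of_notMem_tsupport fun hh => hz (hζK hh), zero_mul]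
  have e1 : ∫ t, (∫ z, ζ z * ((w n z : ℂ) * ∏ i, φ n (dp σ h n z (ξ i n t z)))) ∂ang
      = ∫ t, (∫ z in K, H₁ (t, z)) ∂ang := by
    congr 1
    funext t
    exact hset _
  have e2 : ∑ p ∈ Fintype.piFinset (fun _ : Fin r => Finset.Icc (-(N : ℤ)) N),
      (∏ i, kap1 N (p i) (x i)) * ((if ∑ i, p i = 0 then 1 else 0)
        * ∫ z, ζ z * ((w n z : ℂ) * ∏ i, E σ h φ (p i) n z))
      = ∫ t, (∫ z in K, H₂ (t, z)) ∂ang := by
    have h1 := rot_expand L hK x (g := fun z => ζ z * (w n z : ℂ))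
      (hζ.mul (Complex.continuous_ofReal.comp (hwc n))).continuousOn N n
    have h2 : ∫ t, (∫ z in K, H₂ (t, z)) ∂ang = ∫ t, (∫ z in K, ζ z * (w n z : ℂ)
        * ∏ i, TayE σ h φ N n z (uu t ^ 2 * x i)) ∂ang := by
      congr 1
      funext t
      congr 1
      funext z
      simp only [hH₂]
      ring
    rw [h2, h1]
    refine Finset.sum_congr rfl fun p _ => ?_
    rw [hset]
    congr 2
    congr 1
    funext z
    ring
  rw [e1, e2, ← integral_sub (int_ang_left hK cH₁) (int_ang_left hK cH₂)]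
  have hMc : Continuous (Mn Lr h φ n) := continuous_Mn (fun n => (L.smφ n).continuous) Lr n
  have hint : IntegrableOn (fun z => w n z * √(Mn Lr h φ n z) ^ r) K :=
    ((hwc n).mul (hMc.sqrt.pow r)).continuousOn.integrableOn_compact hK
  have hin : ∀ t, ‖(∫ z in K, H₁ (t, z)) - ∫ z in K, H₂ (t, z)‖ ≤ ε := by
    intro t
    rw [← integral_sub ((sec_cont cH₁ t).integrableOn_compact hK)
      ((sec_cont cH₂ t).integrableOn_compact hK)]
    have hpt : ∀ z ∈ K, ‖H₁ (t, z) - H₂ (t, z)‖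
        ≤ Z * (r * (2 * ε₁ * A ^ r)) * (w n z * √(Mn Lr h φ n z) ^ r) := by
      intro z hz
      set Q := √(Mn Lr h φ n z) with hQ
      have hM1 : 1 ≤ Mn Lr h φ n z := one_le_Mn Lr n z
      have hQ1 : 1 ≤ Q := Real.one_le_sqrt.2 hM1
      have hQ0 : 0 < Q := by linarith
      have hQm : √(Mn L₀ h φ n z) ≤ Q := Real.sqrt_le_sqrt (Mn_mono L hLr n z)
      have b1 : ∀ i, ‖φ n (dp σ h n z (ξ i n t z))‖ ≤ (C₁ + 1) * Q := by
        intro i
        have h1 := (n1 z hz _ (hξR i t z hz)).2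
        have h2 := n3 z hz _ (hξR i t z hz)
        have h3 : φ n (dp σ h n z (ξ i n t z)) = (φ n (dp σ h n z (ξ i n t z))
          - TayE σ h φ N₁ n z (ξ i n t z)) + TayE σ h φ N₁ n z (ξ i n t z) := by ring
        rw [h3]
        refine (norm_add_le _ _).trans ?_
        linarith
      have b2 : ∀ i, ‖φ n (dp σ h n z (ξ i n t z)) - TayE σ h φ N n z (ξ i n t z)‖ ≤ ε₁ * Q := by
        intro i
        exact (n2 z hz _ (hξR i t z hz)).2.trans (mul_le_mul_of_nonneg_left hQm hε₁0.le)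
      have b3 : ∀ i, ‖TayE σ h φ N n z (ξ i n t z) - TayE σ h φ N n z (uu t ^ 2 * x i)‖
          ≤ ε₁ * Q := by
        intro i
        unfold TayE
        rw [← Finset.sum_sub_distrib]
        have h1 : ∀ j ∈ Finset.Icc (-(N : ℤ)) N, ‖kap1 N j (ξ i n t z) * E σ h φ j n z
            - kap1 N j (uu t ^ 2 * x i) * E σ h φ j n z‖ ≤ ε₁ / (D + 1) * (C j * Q) := by
          intro j hj
          rw [← sub_mul, norm_mul]
          exact mul_le_mul (n5 i j hj t z hz) (n4 j hj z hz) (norm_nonneg _) (by positivity)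
        calc _ ≤ ∑ j ∈ Finset.Icc (-(N : ℤ)) N, ε₁ / (D + 1) * (C j * Q) :=
              (norm_sum_le _ _).trans (Finset.sum_le_sum h1)
          _ = ε₁ / (D + 1) * (D * Q) := by rw [← Finset.mul_sum, ← Finset.sum_mul]
          _ = ε₁ * Q * (D / (D + 1)) := by ring
          _ ≤ ε₁ * Q * 1 := by
              refine mul_le_mul_of_nonneg_left ?_ (by positivity)
              rw [div_le_one (by positivity)]
              linarith
          _ = ε₁ * Q := mul_one _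
      have b4 : ∀ i, ‖φ n (dp σ h n z (ξ i n t z)) - TayE σ h φ N n z (uu t ^ 2 * x i)‖
          ≤ 2 * ε₁ * Q := by
        intro i
        have h1 := b2 i
        have h2 := b3 i
        have h3 : φ n (dp σ h n z (ξ i n t z)) - TayE σ h φ N n z (uu t ^ 2 * x i)
            = (φ n (dp σ h n z (ξ i n t z)) - TayE σ h φ N n z (ξ i n t z))
              + (TayE σ h φ N n z (ξ i n t z) - TayE σ h φ N n z (uu t ^ 2 * x i)) := by ring
        rw [h3]
        refine (norm_add_le _ _).trans ?_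
        linarith
      have hεQ : ε₁ * Q ≤ Q := by
        have := mul_le_mul_of_nonneg_right hε₁1 hQ0.le
        linarith
      have b5 : ∀ i, ‖φ n (dp σ h n z (ξ i n t z))‖ ≤ A * Q := by
        intro i
        refine (b1 i).trans (mul_le_mul_of_nonneg_right ?_ hQ0.le)
        rw [hA]
        linarith
      have b6 : ∀ i, ‖TayE σ h φ N n z (uu t ^ 2 * x i)‖ ≤ A * Q := by
        intro i
        have h3 : TayE σ h φ N n z (uu t ^ 2 * x i) = φ n (dp σ h n z (ξ i n t z))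
            - (φ n (dp σ h n z (ξ i n t z)) - TayE σ h φ N n z (uu t ^ 2 * x i)) := by ring
        rw [h3]
        refine (norm_sub_le _ _).trans ?_
        have := b1 i
        have := b4 i
        rw [hA]
        linarith
      have b7 := prod_scaled (fun i => φ n (dp σ h n z (ξ i n t z)))
        (fun i => TayE σ h φ N n z (uu t ^ 2 * x i)) hQ0 hA1 (by positivity) b5 b6 b4
      have e3 : H₁ (t, z) - H₂ (t, z) = ζ z * ((w n z : ℂ)
          * (∏ i, φ n (dp σ h n z (ξ i n t z)) - ∏ i, TayE σ h φ N n z (uu t ^ 2 * x i))) := by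
        simp only [hH₁, hH₂]
        ring
      rw [e3, norm_mul, norm_mul, Complex.norm_real, Real.norm_of_nonneg (hw0 n z)]
      have hw := hw0 n z
      calc ‖ζ z‖ * (w n z * ‖∏ i, φ n (dp σ h n z (ξ i n t z))
            - ∏ i, TayE σ h φ N n z (uu t ^ 2 * x i)‖)
          ≤ Z * (w n z * (r * (2 * ε₁ * A ^ r) * Q ^ r)) := by
            refine mul_le_mul (hZb z hz) (mul_le_mul_of_nonneg_left b7 hw) ?_ hZ0
            exact mul_nonneg hw (norm_nonneg _)
        _ = _ := by ring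
    calc ‖∫ z in K, (H₁ (t, z) - H₂ (t, z))‖
        ≤ ∫ z in K, Z * (r * (2 * ε₁ * A ^ r)) * (w n z * √(Mn Lr h φ n z) ^ r) :=
          norm_integral_le_of_norm_le (hint.const_mul _)
            ((ae_restrict_iff' hK.measurableSet).2 (Filter.Eventually.of_forall hpt))
      _ = Z * (r * (2 * ε₁ * A ^ r)) * ∫ z in K, w n z * √(Mn Lr h φ n z) ^ r :=
          integral_const_mul _ _
      _ ≤ Z * (r * (2 * ε₁ * A ^ r)) * |Cw| :=
          mul_le_mul_of_nonneg_left (n8.trans (le_abs_self Cw)) (by positivity)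
      _ = 2 * ε₁ * B := by rw [hB]; ring
      _ ≤ ε := hε₁2
  have hfin := norm_integral_le_of_norm_le_const (μ := ang) (Filter.Eventually.of_forall hin)
  simpa using hfin

end

end BSL
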