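import Pool.Agent.BSL.StmtsT

/-!
# ROTS: the rotation averages of the fourth powers of linear statistics, with weights (helper12)
-/

open Complex MeasureTheory Filter Topology Set
open scoped ContDiff

namespace BSL

open QE QJ U3

noncomputable section

namespace ROTS

variable {V K : Set ℂ} {σ : ℂ → ℝ} {h : ℕ → ℝ} {φ : ℕ → ℂ → ℂ} {θ : ℕ → ℂ → ℝ} {ζ : ℂ → ℂ} {r : ℕ}

/-- the integrand is continuous on the strip -/
lemma cont_prod (hL : LocB V σ h φ) (hθ : ∀ n, ContDiff ℝ ∞ (θ n)) (hζ : Continuous ζ) {n : ℕ}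
    {ξ : Fin r → ℕ → ℝ → ℂ → ℂ}
    (hξ : ∀ i, ContinuousOn (fun p : ℝ × ℂ => ξ i n p.1 p.2) (univ ×ˢ K)) (q : Fin 4 → Fin r) :
    ContinuousOn (fun p : ℝ × ℂ => ζ p.2 * ((θ n p.2 : ℂ) ^ 2
      * ∏ i, φ n (dp σ h n p.2 (ξ (q i) n p.1 p.2)))) (univ ×ˢ K) := by
  have c1 : Continuous (fun p : ℝ × ℂ => ζ p.2) := hζ.comp continuous_snd
  have c2 : Continuous (fun p : ℝ × ℂ => ((θ n p.2 : ℝ) : ℂ)) :=
    continuous_ofReal.comp ((hθ n).continuous.comp continuous_snd)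
  have c3 : Continuous (fun p : ℝ × ℂ => ex σ (-1) p.2) :=
    (contDiff_ex hL.sm (-1)).continuous.comp continuous_snd
  have c4 : ∀ i, ContinuousOn (fun p : ℝ × ℂ => φ n (dp σ h n p.2 (ξ i n p.1 p.2)))
      (univ ×ˢ K) := by
    intro i
    refine (hL.smφ n).continuous.comp_continuousOn ?_
    unfold dp
    exact continuous_snd.continuousOn.add
      (continuousOn_const.mul (c3.continuousOn.mul (hξ i)))
  refine c1.continuousOn.mul ((c2.continuousOn.pow 2).mul ?_)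
  exact continuousOn_finset_prod _ fun i _ => c4 (q i)

/-- the multilinear expansion of the fourth power of the linear statistic -/
lemma Tw_pow (hL : LocB V σ h φ) (c : Fin r → ℝ) (ξ : Fin r → ℕ → ℝ → ℂ → ℂ) (n : ℕ) (t : ℝ)
    (z : ℂ) : ((Tw σ h φ c ξ n t z : ℝ) : ℂ) ^ 4
      = ∑ q : Fin 4 → Fin r, (∏ j, (c (q j) : ℂ)) * ∏ j, φ n (dp σ h n z (ξ (q j) n t z)) := by
  have hre : ∀ w, (((φ n w).re : ℝ) : ℂ) = φ n w := fun w => by
    have := hL.real n w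
    exact Complex.conj_eq_iff_re.1 this
  have e : ((Tw σ h φ c ξ n t z : ℝ) : ℂ) = ∑ i, (c i : ℂ) * φ n (dp σ h n z (ξ i n t z)) := by
    unfold Tw
    rw [ofReal_sum]
    refine Finset.sum_congr rfl fun i _ => ?_
    rw [ofReal_mul, hre]
  rw [e]
  have e2 : (∑ i, (c i : ℂ) * φ n (dp σ h n z (ξ i n t z))) ^ 4
      = ∏ _j : Fin 4, ∑ i, (c i : ℂ) * φ n (dp σ h n z (ξ i n t z)) := by
    rw [Finset.prod_const, Finset.card_univ, Fintype.card_fin]
  rw [e2, Finset.prod_univ_sum, Fintype.piFinset_univ]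
  exact Finset.sum_congr rfl fun q _ => Finset.prod_mul_distrib

/-- the rotation average of the fourth power as a sum of rotation averages of products -/
lemma avg_eq (hL : LocB V σ h φ) (hθ : ∀ n, ContDiff ℝ ∞ (θ n)) (hK : IsCompact K) {ζ : ℂ → ℝ}
    (hζ : Test V (fun z => (ζ z : ℂ))) (hζK : tsupport ζ ⊆ K) (c : Fin r → ℝ) {n : ℕ}
    {ξ : Fin r → ℕ → ℝ → ℂ → ℂ}
    (hξ : ∀ i, ContinuousOn (fun p : ℝ × ℂ => ξ i n p.1 p.2) (univ ×ˢ K)) :
    ((∫ t, (∫ z, ζ z * (θ n z ^ 2 * Tw σ h φ c ξ n t z ^ 4)) ∂ang : ℝ) : ℂ)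
      = ∑ q : Fin 4 → Fin r, (∏ j, (c (q j) : ℂ)) * rotW σ h φ θ (fun z => (ζ z : ℂ)) ξ q n := by
  have hset : ∀ f : ℂ → ℂ, ∫ z, (ζ z : ℂ) * f z = ∫ z in K, (ζ z : ℂ) * f z := by
    intro f
    rw [setIntegral_eq_integral_of_forall_compl_eq_zero]
    intro z hz
    rw [image_eq_zero_of_notMem_tsupport (fun hz' => hz (hζK hz')), ofReal_zero, zero_mul]
  have hc := fun q => cont_prod hL hθ hζ.smooth.continuous hξ q
  have hint : ∀ (q : Fin 4 → Fin r) (t : ℝ), Integrable (fun z => (ζ z : ℂ) * ((θ n z : ℂ) ^ 2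
      * ∏ i, φ n (dp σ h n z (ξ (q i) n t z)))) (volume.restrict K) := by
    intro q t
    have h1 : ContinuousOn (fun z : ℂ => (ζ z : ℂ) * ((θ n z : ℂ) ^ 2
        * ∏ i, φ n (dp σ h n z (ξ (q i) n t z)))) K := by
      have := (hc q).comp (f := fun z : ℂ => (t, z)) (s := K) (by fun_prop)
        (fun z hz => ⟨mem_univ _, hz⟩)
      exact this
    exact h1.integrableOn_compact hK
  rw [← integral_complex_ofReal]
  have e1 : ∀ t, (((∫ z, ζ z * (θ n z ^ 2 * Tw σ h φ c ξ n t z ^ 4)) : ℝ) : ℂ)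
      = ∑ q : Fin 4 → Fin r, (∏ j, (c (q j) : ℂ)) * ∫ z in K, (ζ z : ℂ) * ((θ n z : ℂ) ^ 2
        * ∏ i, φ n (dp σ h n z (ξ (q i) n t z))) := by
    intro t
    rw [← integral_complex_ofReal]
    have e2 : ∀ z, (((ζ z * (θ n z ^ 2 * Tw σ h φ c ξ n t z ^ 4)) : ℝ) : ℂ)
        = (ζ z : ℂ) * ((θ n z : ℂ) ^ 2 * ((Tw σ h φ c ξ n t z : ℝ) : ℂ) ^ 4) := by
      intro z; push_cast; ring
    simp only [e2]
    rw [hset (fun z => (θ n z : ℂ) ^ 2 * ((Tw σ h φ c ξ n t z : ℝ) : ℂ) ^ 4)]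
    have e3 : ∀ z, (ζ z : ℂ) * ((θ n z : ℂ) ^ 2 * ((Tw σ h φ c ξ n t z : ℝ) : ℂ) ^ 4)
        = ∑ q : Fin 4 → Fin r, (∏ j, (c (q j) : ℂ)) * ((ζ z : ℂ) * ((θ n z : ℂ) ^ 2
          * ∏ i, φ n (dp σ h n z (ξ (q i) n t z)))) := by
      intro z
      rw [Tw_pow hL, Finset.mul_sum, Finset.mul_sum]
      refine Finset.sum_congr rfl fun q _ => ?_
      ring
    simp only [e3]
    rw [integral_finset_sum _ fun q _ => (hint q t).const_mul _]
    exact Finset.sum_congr rfl fun q _ => integral_const_mul _ _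
  simp only [e1]
  have hint2 : ∀ q : Fin 4 → Fin r, Integrable (fun t => ∫ z in K, (ζ z : ℂ) * ((θ n z : ℂ) ^ 2
        * ∏ i, φ n (dp σ h n z (ξ (q i) n t z)))) ang := fun q => int_ang_left hK (hc q)
  rw [integral_finset_sum _ fun q _ => (hint2 q).const_mul _]
  refine Finset.sum_congr rfl fun q _ => ?_
  rw [integral_const_mul]
  unfold rotW
  simp only [hset]

end ROTS

theorem rOTS (h1 : StmtRotp) : StmtRots := by
  intro V σ h φ hL K hK hKV R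
  obtain ⟨L₀, hL₀, H⟩ := h1 V σ h φ hL K hK hKV R
  refine ⟨L₀, hL₀, fun L hLL θ hW r c x ξ hx hξ ζ hζ hζK ε hε => ?_⟩
  set A : ℝ := ∑ q : Fin 4 → Fin r, ‖∏ j, (c (q j) : ℂ)‖ with hA
  have hA0 : 0 ≤ A := Finset.sum_nonneg fun q _ => norm_nonneg _
  have hε' : 0 < ε / (A + 1) := by positivity
  have hsup : tsupport (fun z => (ζ z : ℂ)) ⊆ K := by
    refine (closure_mono ?_).trans hζK
    intro z hz
    rw [Function.mem_support] at hz ⊢
    intro h0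
    exact hz (by rw [h0, ofReal_zero])
  have h2 : ∀ q : Fin 4 → Fin r, ∃ N₀ : ℕ, ∀ N ≥ N₀, ∀ᶠ n in atTop,
      ‖rotW σ h φ θ (fun z => (ζ z : ℂ)) ξ q n
        - ∑ p ∈ Fintype.piFinset (fun _ : Fin 4 => Finset.Icc (-(N : ℤ)) N),
          (∏ i, kap1 N (p i) (x (q i))) * ((if ∑ i, p i = 0 then 1 else 0)
            * E4w σ h φ θ (fun z => (ζ z : ℂ)) n (p 0) (p 1) (p 2) (p 3))‖ ≤ ε / (A + 1) :=
    fun q => H L hLL θ hW (fun i => x (q i)) (fun i => ξ (q i)) (fun i => hx (q i))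
      (fun i => hξ (q i)) _ hζ hsup _ hε'
  choose N₀ hN₀ using h2
  refine ⟨∑ q, N₀ q, fun N hN => ?_⟩
  have hNq : ∀ q, N₀ q ≤ N := fun q =>
    (Finset.single_le_sum (f := N₀) (fun _ _ => Nat.zero_le _) (Finset.mem_univ q)).trans hN
  filter_upwards [eventually_all.2 fun q => hN₀ q N (hNq q),
    eventually_all.2 fun i => (hξ i).cont] with n hn hcn
  have e0 := ROTS.avg_eq (σ := σ) (h := h) (φ := φ) (θ := θ) hL hW.smθ hK hζ hζK c hcn
  have e1 : Sum4 σ h φ θ (fun z => (ζ z : ℂ)) (Finset.Icc (-(N : ℤ)) N)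
      (fun j => (-I) ^ j * tN c x N j) n
      = ∑ q : Fin 4 → Fin r, (∏ j, (c (q j) : ℂ))
        * ∑ p ∈ Fintype.piFinset (fun _ : Fin 4 => Finset.Icc (-(N : ℤ)) N),
          (∏ i, kap1 N (p i) (x (q i))) * ((if ∑ i, p i = 0 then 1 else 0)
            * E4w σ h φ θ (fun z => (ζ z : ℂ)) n (p 0) (p 1) (p 2) (p 3)) := by
    rw [← lin_expand 4 (Finset.Icc (-(N : ℤ)) N) (fun i => (c i : ℂ)) (fun j i => kap1 N j (x i))
      (fun p => (if ∑ i, p i = 0 then 1 else 0)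
        * E4w σ h φ θ (fun z => (ζ z : ℂ)) n (p 0) (p 1) (p 2) (p 3))]
    unfold Sum4
    rw [← sum_pi4 (Finset.Icc (-(N : ℤ)) N) (fun a b c' d => if a + b + c' + d = 0 then
      (((-I) ^ a * tN c x N a) * ((-I) ^ b * tN c x N b) * ((-I) ^ c' * tN c x N c')
        * ((-I) ^ d * tN c x N d)) * E4w σ h φ θ (fun z => (ζ z : ℂ)) n a b c' d else 0)]
    refine Finset.sum_congr rfl fun p _ => ?_
    rw [Fin.prod_univ_four, Fin.sum_univ_four]
    have e3 : ∀ j : ℤ, ∑ i, (c i : ℂ) * kap1 N j (x i) = (-I) ^ j * tN c x N j := by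
      intro j
      unfold tN kap1
      rw [Finset.mul_sum]
      exact Finset.sum_congr rfl fun i _ => by ring
    simp only [e3]
    by_cases hp : p 0 + p 1 + p 2 + p 3 = 0
    · simp only [if_pos hp, one_mul]
    · simp only [if_neg hp, mul_zero, zero_mul]
  have e2 : ‖((∫ t, (∫ z, ζ z * (θ n z ^ 2 * Tw σ h φ c ξ n t z ^ 4)) ∂ang : ℝ) : ℂ)
      - Sum4 σ h φ θ (fun z => (ζ z : ℂ)) (Finset.Icc (-(N : ℤ)) N)
        (fun j => (-I) ^ j * tN c x N j) n‖ ≤ ε := by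
    rw [e0, e1, ← Finset.sum_sub_distrib]
    calc _ ≤ ∑ q : Fin 4 → Fin r, ‖∏ j, (c (q j) : ℂ)‖ * (ε / (A + 1)) := by
          refine (norm_sum_le _ _).trans (Finset.sum_le_sum fun q _ => ?_)
          rw [← mul_sub, norm_mul]
          exact mul_le_mul_of_nonneg_left (hn q) (norm_nonneg _)
      _ = A / (A + 1) * ε := by rw [← Finset.sum_mul, ← hA]; ring
      _ ≤ 1 * ε := by
          gcongr
          exact (div_le_one (by positivity)).2 (by linarith)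
      _ = ε := one_mul ε
  have e4 := (Complex.abs_re_le_norm _).trans e2
  rwa [Complex.sub_re, ofReal_re] at e4

end

end BSL
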