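import Pool.Agent.BSL.DefsL
import Pool.Agent.NFP.All

/-!
# Statements, part 2: weights, densities, and the passage to the limit field

`Γ`, `D`, `ρ`, `φ`, `m` as in the hand-ins on closed surfaces; `h = 1 / m`. Each step is a `Prop`; a
module proves one of them, possibly from others taken as hypotheses. The proofs are given in the doc
strings. `C` are constants which do not depend on `n`.
-/

open Complex MeasureTheory Filter Topology Set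
open UpperHalfPlane hiding I
open scoped ContDiff MatrixGroups ProbabilityTheory

namespace BSL

open QE QE.NC QJ U3 NFP

noncomputable section

/-! ### Definitions -/

/-- truncation levels `Rₙ → ∞` for `φₙ²`: the part above `c Rₙ` is small even after multiplication by
`Rₙ`, and the squares of `min (φₙ²) Rₙ` are uniformly integrable -/
structure Tru (U : Set ℂ) (φ : ℕ → ℂ → ℂ) (R : ℕ → ℝ) : Prop where
  one : ∀ n, 1 ≤ R n
  lim : Tendsto R atTop atTop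
  cut : ∀ K, IsCompact K → K ⊆ U → ∀ c > 0,
    Tendsto (fun n => R n * ∫ z in K, max (‖φ n z‖ ^ 2 - c * R n) 0) atTop (𝓝 0)
  uni : ∀ K, IsCompact K → K ⊆ U → ∀ ε > 0, ∃ k : ℝ, 0 ≤ k ∧ ∀ᶠ n in atTop,
    ∫ z in K, max (min (‖φ n z‖ ^ 2) (R n) - k) 0 ^ 2 ≤ ε

/-- the scale -/
def hh (m : ℕ → ℝ) (n : ℕ) : ℝ := 1 / m n

/-- the functions on the plane -/
def ph (φ : ℕ → ℍ → ℝ) (n : ℕ) (z : ℂ) : ℂ := (φ n (ofComplex z) : ℂ)

/-- the standing hypotheses on the surface and the sequence -/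
structure Sur (Γ : Subgroup SL(2, ℝ)) (D : Set ℍ) (ρ : ℍ → ℝ) (φ : ℕ → ℍ → ℝ) (m : ℕ → ℝ) :
    Prop where
  mD : MeasurableSet D
  fd : IsFundamentalDomain Γ D (volume : Measure ℍ)
  fac : Fac Γ ρ
  eig : Berry.REigenSeq Γ ρ φ m
  sm : ∀ n, ContDiffOn ℝ ∞ (fun w : ℂ => φ n (ofComplex w)) {w | 0 < w.im}
  nrm : ∀ n, Berry.rAvg ρ D (fun z => φ n z ^ 2) = 1
  one : ∀ n, 1 ≤ m n
  loc : LocU UH (gr ρ) (hh m) (ph φ)

/-- the mass of the directional measures, as a function on the plane -/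
def ma (s : ProbabilityTheory.Kernel ℍ S1) (z : ℂ) : ℝ := ((s (ofComplex z)) univ).toReal

/-- the moments of the directional measures, in the convention of the jets -/
def um (s : ProbabilityTheory.Kernel ℍ S1) (k : ℤ) (z : ℂ) : ℂ :=
  Complex.I ^ k * cof (s (ofComplex z)) k

/-- the semiclassical measure of the sequence is `(area ρ) ⊗ₘ s`, with a locally square integrable
density -/
structure Sem (ρ : ℍ → ℝ) (φ : ℕ → ℍ → ℝ) (m : ℕ → ℝ) (s : ProbabilityTheory.Kernel ℍ S1) :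
    Prop where
  fin : ∀ z, IsFiniteMeasure (s z)
  loc : LocL2 UH (fun z => (ma s z : ℂ))
  sem : Semiclassical ρ φ m ((Berry.area ρ) ⊗ₘ s)

/-- a smooth function with compact support which computes the averages of the invariant functions -/
structure CutF (Γ : Subgroup SL(2, ℝ)) (D : Set ℍ) (ρ : ℍ → ℝ) (ζ : ℂ → ℝ) : Prop where
  test : Test UH (fun z => (ζ z : ℂ))
  nonneg : ∀ z, 0 ≤ ζ z
  int : ∀ f : ℍ → ℝ, Measurable f → IntegrableOn f D (volume : Measure ℍ) →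
    (∀ γ ∈ Γ, ∀ z, f (γ • z) = f z) → Integrable (fun z => ζ z * f (ofComplex z)) ∧
      ∫ z, ζ z * f (ofComplex z) = Berry.rAvg ρ D f

/-- the random field `F` is the limit in law (of the finite dimensional distributions) of the local
waves -/
def FLim (ρ : ℍ → ℝ) (D : Set ℍ) (φ : ℕ → ℍ → ℝ) (m : ℕ → ℝ) {Ω : Type} [MeasurableSpace Ω]
    (P : Measure Ω) (F : ℂ → Ω → ℝ) : Prop :=
  ∀ (r : ℕ) (x : Fin r → ℂ) (G : (Fin r → ℝ) → ℝ), Continuous G → (∃ C, ∀ t, |G t| ≤ C) →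
    Tendsto (fun n => ∫ p, G (fun i => Berry.rWave ρ (φ n) (m n) (x i) p) ∂(Berry.rFrameProb ρ D))
      atTop (𝓝 (∫ o, G (fun i => F (x i) o) ∂P))

/-- the four-point function of the limit, in terms of the directional measures `s` and of
`κ = E F(0)⁴` -/
def fourF (ρ : ℍ → ℝ) (D : Set ℍ) (s : ProbabilityTheory.Kernel ℍ S1) (κ : ℝ) (x : Fin 4 → ℂ) : ℝ :=
  Berry.rAvg ρ D (fun z => dirWick (s z) x)
    + (κ - 3 * Berry.rAvg ρ D (fun z => ((s z) univ).toReal ^ 2)) / 3 * resK x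

/-! ### A. Weights -/

/-- WTS: existence of the weights.
Proof. Let `κ : ℂ → ℝ` be smooth, `0 ≤ κ ≤ 1`, `κ = 1` on `closedBall 0 L`, `κ = 0` outside
`closedBall 0 (L + 1)`, `c = ∫ κ > 0`, `mₙ(z) = 1 / (c h²) ∫ κ((z - w) / h) ‖φₙ w‖² dw` (smooth in `z`,
a mean of `‖φₙ‖²`). `Θ : ℝ → [0, 1]` smooth, `1` on `t ≤ 1`, `0` on `t ≥ 2`; `θₙ = Θ (mₙ / Rₙ)`.
`M = Mn L h φ n ≤ 1 + c mₙ`. Let `K ⊆ V` be compact and `K' = cthickening r K ⊆ V`; for large `n`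
all the balls are in `K'`. Tonelli: for continuous `g ≥ 0` the integral over `K` of its mean (with the
kernel `κ`) is at most `∫_{K'} g`. Jensen: the mean `m` of `f` satisfies `(m - a)₊ ≤ mean of (f - a)₊`
and `((m - a)₊)² ≤ mean of ((f - a)₊)²` (Cauchy-Schwarz).
(big) `∫_K (1 - θ) M ≤ ∫_{K, m ≥ R} (1 + c m) ≤ (1 + c) ∫_{K, m ≥ R} m` (`R ≥ 1`)
`≤ 2 (1 + c) ∫_K (m - R / 2)₊ ≤ 2 (1 + c) ∫_{K'} (‖φ‖² - R / 2)₊ → 0` (`Tru.cut`).
(ui) `m = m₁ + m₂`, the means of `min (‖φ‖²) R` and of `(‖φ‖² - R)₊`. Where `θ ≠ 0`, `m ≤ 2 R`, and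
`M² ≤ 2 + 4 c² (m₁² + m₂²)`; `∫_{K, m ≤ 2 R} m₂² ≤ 2 R ∫_K m₂ ≤ 2 R ∫_{K'} (‖φ‖² - R)₊ → 0`;
`m₁² ≤ 2 k² + 2 ((m₁ - k)₊)²` and `∫_K ((m₁ - k)₊)² ≤ ∫_{K'} ((min (‖φ‖²) R - k)₊)² ≤ ε` for the `k` of
`Tru.uni`. If `θ M > T` then `m > (T - 1) / c`, a set of measure at most `C / (T - 1)` in `K`
(`LocB.bdd`). So the integral of `(θ M)²` over `{θ M > T}` is at most
`(2 + 8 c² k²) C / (T - 1) + 8 c² ε + o(1)`.
(grad) `h ‖∇ mₙ‖ ≤ C m'`, where `m'` is the mean with a kernel `κ'` which is `1` on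
`closedBall 0 (L + 1)`, so `m ≤ C m'` and `h ‖dz θ‖ ≤ C m' / R` on `{R ≤ m ≤ 2 R}`, zero elsewhere. Hence
`h ∫_K ‖dz θ‖ M² ≤ C R ∫_{K, m ≥ R} m' ≤ C R ∫_{K, m' ≥ R / C} m' ≤ 2 C R ∫_K (m' - R / (2 C))₊
≤ 2 C R ∫_{K'} (‖φ‖² - R / (2 C))₊ → 0` (`Tru.cut`).
(last claim) `θ ≠ 0` implies `m ≤ 2 R`, `M ≤ 1 + 2 c R ≤ (1 + 2 c) R`. -/
def StmtWts : Prop :=
  ∀ (V : Set ℂ) (σ : ℂ → ℝ) (h : ℕ → ℝ) (φ : ℕ → ℂ → ℂ) (R : ℕ → ℝ), LocB V σ h φ → Tru V φ R →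
    ∀ L : ℝ, 1 ≤ L → ∃ (θ : ℕ → ℂ → ℝ) (C : ℝ), Wt V σ h φ L θ ∧
      ∀ K, IsCompact K → K ⊆ V → ∀ᶠ n in atTop, ∀ z ∈ K, θ n z ≠ 0 → Mn L h φ n z ≤ C * R n

/-- CUT: existence of the function which computes the averages.
Proof. As `QE.Surf.exists_test_int` (C21:415) and `exists_test_gen` (C21:93), `exists_test` (C13:2430),
with a smooth cut-off `χ` instead of a continuous one (`QE.exists_cutoff_nonneg`): the sum
`NN Γ χ z = ∑_γ χ(γ z)` is locally finite (see `NN_continuous`), hence smooth as a function of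
`z ∈ UH` (`ContDiffOn`), positive, and `ζ(z) = χ(z) e^{2ρ(z)} / ((Im z)² NN(z) area(D))` (smooth on
`UH`, zero outside the support of `χ`) is smooth with compact support. `exists_test_int` gives the
identity for `f e^{2ρ}`, where `rAvg ρ D f = (area ρ D)⁻¹ ∫_D f e^{2ρ}`. -/
def StmtCut : Prop :=
  ∀ (Γ : Subgroup SL(2, ℝ)) [Countable Γ] (D : Set ℍ) (ρ : ℍ → ℝ), MeasurableSet D →
    IsFundamentalDomain Γ D (volume : Measure ℍ) → Fac Γ ρ → ∃ ζ : ℂ → ℝ, CutF Γ D ρ ζ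

/-- DIA: the truncation levels (probability).
Proof. Put `f r = ∫ max (x - r) 0 dν'`, `e k = ∫ max (x - k) 0 ^ 2 dν'`, `b = ∫ x² dν'`. For fixed
natural numbers `r, k ≥ 1`, as `n → ∞`: `∫ max (x - r) 0 dνₙ = 1 - ∫ min x r dνₙ → 1 - ∫ min x r dν'
= f r`; `∫ (min x r)² dνₙ → ∫ (min x r)² dν' ≤ b`;
`∫ max (min x r - k) 0 ^ 2 dνₙ → ∫ max (min x r - k) 0 ^ 2 dν' ≤ e k` (all are integrals of bounded
continuous functions of `x ≥ 0`; use `min (max x 0) r`). Let `N n` be the largest natural number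
`N ≤ n` such that for all `1 ≤ r, k ≤ N`: `∫ max (x - r) 0 dνₙ ≤ f r + 1 / N²`,
`∫ (min x r)² dνₙ ≤ b + 1 / N`, `∫ max (min x r - k) 0 ^ 2 dνₙ ≤ e k + 1 / N` (and `N n = 1` if there is
none); `N n → ∞`. Let `R n = √(N n)`. (1) Let `c > 0`; for large `n`, with `r = ⌊c R n⌋`,
`1 ≤ r ≤ N n`, so `R ∫ max (x - c R) 0 dνₙ ≤ R (f r + 1 / N²) ≤ ((r + 1) / c) f r + R / N² → 0`, because
`(r + 1) max (x - r) 0 ≤ 2 x² 1_{x ≥ r}` for `r ≥ 1` and `∫ x² 1_{x ≥ r} dν' → 0` as `r → ∞` (dominated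
convergence). (2) `max (min x R - k) 0 ≤ max (min x N - k) 0`, and `e k → 0` as `k → ∞`.
(3) `C R ≤ N` for large `n`, `min x (C R) ≤ min x N`. -/
def StmtDia : Prop :=
  ∀ (ν : ℕ → Measure ℝ) (ν' : Measure ℝ), (∀ n, IsProbabilityMeasure (ν n)) →
    IsProbabilityMeasure ν' → (∀ n, ∀ᵐ x ∂(ν n), 0 ≤ x) → (∀ᵐ x ∂ν', 0 ≤ x) →
    (∀ G : ℝ → ℝ, Continuous G → (∃ C, ∀ x, |G x| ≤ C) →
      Tendsto (fun n => ∫ x, G x ∂(ν n)) atTop (𝓝 (∫ x, G x ∂ν'))) →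
    (∀ n, Integrable (fun x => x) (ν n)) → (∀ n, ∫ x, x ∂(ν n) = 1) → ∫ x, x ∂ν' = 1 →
    Integrable (fun x => x ^ 2) ν' →
    ∃ R : ℕ → ℝ, (∀ n, 1 ≤ R n) ∧ Tendsto R atTop atTop ∧
      (∀ c > 0, Tendsto (fun n => R n * ∫ x, max (x - c * R n) 0 ∂(ν n)) atTop (𝓝 0)) ∧
      (∀ ε > 0, ∃ k : ℝ, 0 ≤ k ∧ ∀ᶠ n in atTop,
        ∫ x, max (min x (R n) - k) 0 ^ 2 ∂(ν n) ≤ ε) ∧
      ∀ C > 0, ∀ ε > 0, ∀ᶠ n in atTop, ∫ x, min x (C * R n) ^ 2 ∂(ν n) ≤ (∫ x, x ^ 2 ∂ν') + ε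

/-- TRG: the truncation levels (on the surface), from the convergence in law.
Proof (from `StmtDia`). `νₙ`, `ν'`: the laws of `φₙ(z)²` for the probability measure
`cond (area ρ) D` and of `F(0)²`. `rWave ρ φ m 0 (z, θ) = φ z` (`Berry.rWave_origin` or C44:32), so
`FLim` for `r = 1`, `x = 0` and `G(t) = g(t²)` gives the convergence
(`∫ G(φₙ) d(rFrameProb) = rAvg` : C44 `rFrame_base`). For a compact `K ⊆ UH` there is `C` with
`∫_K f(ofComplex z) dz ≤ C rAvg ρ D f` for all continuous invariant `f ≥ 0` (`loc_le`, C13:3150, see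
also `bdd_of_rAvg`, C44:289). -/
def StmtTrg : Prop :=
  ∀ (Γ : Subgroup SL(2, ℝ)) [Countable Γ] (D : Set ℍ) (ρ : ℍ → ℝ) (φ : ℕ → ℍ → ℝ) (m : ℕ → ℝ),
    Sur Γ D ρ φ m → ∀ (Ω : Type) [MeasurableSpace Ω] (P : Measure Ω) [IsProbabilityMeasure P]
    (F : ℂ → Ω → ℝ), (∀ x, Measurable (F x)) → FLim ρ D φ m P F → ∫ o, F 0 o ^ 2 ∂P = 1 →
    Integrable (fun o => F 0 o ^ 4) P →
    ∃ R : ℕ → ℝ, Tru UH (ph φ) R ∧ ∀ C > 0, ∀ ε > 0, ∀ᶠ n in atTop,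
      Berry.rAvg ρ D (fun z => min (φ n z ^ 2) (C * R n) ^ 2) ≤ (∫ o, F 0 o ^ 4 ∂P) + ε

/-! ### B. The semiclassical measure has a density -/

/-- STR: the density.
Proof. `fₙ(z) = min (‖φₙ z‖²) (R n)` is continuous on `UH` and bounded in `L²` on compact sets
(`Tru.uni`: `fₙ² ≤ 2 k² + 2 ((fₙ - k)₊)²`). So there are a subsequence and `u` measurable,
`LocL2 UH u`, with `∫ ζ fₙ → ∫ ζ u` for all test functions (weak compactness; see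
`QE.exists_limits`, C43:818, `exists_wlim`, or `Setup.exists...`; if only available for smooth
sequences use the Banach-Alaoglu type lemma it is based on). `∫ ζ (‖φₙ‖² - fₙ) → 0` (`Tru.cut`), so
`∫ ζ u = lim ∫ ζ φₙ² = ∫ ζ(p) (Im z)² e^{-2ρ(z)} dμ` for `μ` (`Semiclassical.lim` with `j = k = 0` for
`ζ (Im z)² e^{-2ρ}`, or `NFP.semU`, C: `StmtSemU`). `u ≥ 0` a.e. because `fₙ ≥ 0`. Then `NFP.marg`
(`StmtMarg`) for the first marginal of `μ` and `NFP.ker` (`StmtKer`), exactly as in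
`NFP/Struct.lean`, lines 235-297. -/
def StmtStr : Prop :=
  ∀ (ρ : ℍ → ℝ) (φ : ℕ → ℍ → ℝ) (m : ℕ → ℝ) (μ : Measure (ℍ × S1)) (R : ℕ → ℝ),
    ContDiffOn ℝ ∞ (ro ρ) UH → LocU UH (gr ρ) (hh m) (ph φ) → Tru UH (ph φ) R →
    Semiclassical ρ φ m μ → ∃ s : ProbabilityTheory.Kernel ℍ S1, Sem ρ φ m s ∧
      μ = (Berry.area ρ) ⊗ₘ s

/-- JLG: the limits of the products of two jets.
Proof. `NFP.semU` (`StmtSemU`) for `μ = (area ρ) ⊗ₘ s`, and (as `cof_comp`, `integral_plane` in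
`NFP/Struct.lean`, with `e^{-2σ} = (Im z)² e^{-2ρ}` on `V`):
`∫ ζ(p) e^{-2σ(p)} (I conj w)^k dμ = ∫ ζ(z) I^k (∫ conj(w)^k ds_z) dz = ∫ ζ um s k`, as
`cof s k = ∫ w^{-k} ds`. `LocL2`: `|um s k| ≤ ma s`. Odd `k`: the limit for `(j, l) = (k, 0)` and
`(0, k)` is the same, so `∫ ζ um s k = (-1)^k ∫ ζ um s k` for all test functions
(`QE.ae_zero_of_test`; `U3.stmtLcz` gives a chart which contains a given compact set). -/
def StmtJlg : Prop :=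
  ∀ (ρ : ℍ → ℝ) (φ : ℕ → ℍ → ℝ) (m : ℕ → ℝ) (s : ProbabilityTheory.Kernel ℍ S1),
    ContDiffOn ℝ ∞ (ro ρ) UH → LocU UH (gr ρ) (hh m) (ph φ) → Sem ρ φ m s →
    (∀ (V : Set ℂ) (σ : ℂ → ℝ) (φ' : ℕ → ℂ → ℂ), Agree V UH (gr ρ) (hh m) (ph φ) σ φ' →
      JL V σ (hh m) φ' (um s)) ∧
    ∀ k : ℤ, Odd k → ∀ᵐ z ∂(volume.restrict UH), cof (s (ofComplex z)) k = 0

/-- LFE: the moments are covariant.
Proof (from `StmtJlg`, `CRM.StmtCov` (proved: `CRM.t_COV`)). Let `ζ` be a test function on `UH`,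
`γ ∈ Γ`, `ζ'(z) = ζ(γz) phase γ z ^ (-k)` (zero outside `UH`), also a test function. `U3.stmtLcz` for
`K = tsupport ζ ∪ tsupport ζ'` gives `V, σ, φ'`. The function `φ'² ...`: for `Q(z) = E_k E_0 (z)`,
`Q(z) = phase γ z ^ k Q(γz)` when `z, γz ∈ V`, and `e^{2σ(z)} dx dy` is invariant under `γ`, so
`∫ e^{2σ} ζ' Q = ∫ e^{2σ} ζ Q` (change of variables as in `CRM/INE.lean`). In the limit
`∫ gr ρ ζ' u_k = ∫ gr ρ ζ u_k` for `u_k = um s k`, and the same change of variables on the left gives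
`∫ gr ρ(z) ζ(γz) phase^(-k) u_k(z) = ∫ gr ρ ζ(γz) u_k(γz)`; so `u_k(z) = phase γ z ^ k u_k(γz)` a.e.
Compare `limit_equiv`, C44:975 and C18:1692. -/
def StmtLfe : Prop :=
  ∀ (Γ : Subgroup SL(2, ℝ)) (ρ : ℍ → ℝ) (φ : ℕ → ℍ → ℝ) (m : ℕ → ℝ)
    (s : ProbabilityTheory.Kernel ℍ S1), Fac Γ ρ → LocU UH (gr ρ) (hh m) (ph φ) → Sem ρ φ m s →
    (∀ n, ∀ γ ∈ Γ, ∀ z, φ n (γ • z) = φ n z) →
    ∀ γ ∈ Γ, ∀ k : ℤ, ∀ᵐ z ∂((volume : Measure ℂ).restrict UH),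
      cof (s (ofComplex z)) k = phase γ z ^ k * cof (s (ofComplex (mob γ z))) k

/-- LFT: the moments satisfy the transport equations.
Proof. Let `ζ` be a test function; `U3.stmtLcz` gives a chart `V, F, σ, φ'` with `tsupport ζ ⊆ V`.
`CRM.t_GLM` (`StmtGlm`) and `NFP.semU` give `LimM V σ h φ' (muS μ F σ) pS uS` for
`μ = (area ρ) ⊗ₘ s`, and `U3.StmtDir` (proved) gives `DirM`, in particular `transport` for all `k` and
all test functions on `V`: `∫ e^{2σ(p)} (Db σ (-k) ψ(p) u^(k+1) - D σ (-k) ψ(p) u^(k-1)) d(muS) = 0`.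
By `D σ k f = 2 e^{(k-1)σ} dz (e^{-kσ} f)`, `Db σ k f = 2 e^{(-k-1)σ} dzb (e^{kσ} f)`, `aR ρ = e^{-σ}`
and `gR ρ = e^{2σ}` on `V`: `D σ (-k) ψ = 2 e^{-(k+1)σ} dz (e^{kσ} ψ) = 2 (aR dz ψ - k (dz aR) ψ)`
[`dz e^{kσ} = k e^{kσ} dz σ`, `dz aR = -e^{-σ} dz σ`] and `Db σ (-k) ψ = 2 e^{(k-1)σ} dzb (e^{-kσ} ψ)
= 2 (aR dzb ψ + k (dzb aR) ψ)`. With `u^(k±1) = I^(k±1) conj(w)^(k±1)` and
`∫ ψ(p) conj(w)^j d(muS) = ∫ ψ(z) cof (s z) j dz` the identity becomes the claim (`I^(k+1) = - I^(k-1)`).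
Alternatively `U3.StmtWgb` (C23). -/
def StmtLft : Prop :=
  ∀ (Γ : Subgroup SL(2, ℝ)) (ρ : ℍ → ℝ) (φ : ℕ → ℍ → ℝ) (m : ℕ → ℝ)
    (s : ProbabilityTheory.Kernel ℍ S1), Fac Γ ρ → LocU UH (gr ρ) (hh m) (ph φ) → Sem ρ φ m s →
    ∀ k : ℤ, ∀ ζ : ℂ → ℂ, Test UH ζ →
      ∫ z, ((aR ρ z * dz ζ z - k * dz (aR ρ) z * ζ z) * cof (s (ofComplex z)) (k - 1)
        + (aR ρ z * dzb ζ z + k * dzb (aR ρ) z * ζ z) * cof (s (ofComplex z)) (k + 1)) * gR ρ z = 0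

/-- NOA: no directional atoms in negative curvature.
Proof (from `StmtJlg`, `StmtLfe`, `StmtLft`). `LimFamR Γ ρ (fun k z => cof (s (ofComplex z)) k)`:
measurability `NFP.STRUCT.meas_cof`; `loc`, `bound`: `NFP.STRUCT.norm_cof`; `real`: `cof s 0` is the
mass; `conj`: conjugate of `w^(-k)`, `|w| = 1`; `pos`: `∑_{j,l<N} cof(j-l) w^(j-l)
= ∫ |∑_{j<N} (w conj v)^j|² ds(v) ≥ 0`; `odd`, `equiv`, `transport` from the three statements. Then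
`QE.NC.atoms` (`StmtAtoms`), and `‖um s k z‖ = ‖cof (s (ofComplex z)) k‖`. -/
def StmtNoa : Prop :=
  ∀ (Γ : Subgroup SL(2, ℝ)) [Countable Γ] (D : Set ℍ) (ρ : ℍ → ℝ) (φ : ℕ → ℍ → ℝ) (m : ℕ → ℝ)
    (s : ProbabilityTheory.Kernel ℍ S1), Sur Γ D ρ φ m → (∀ z, 0 < lapR ρ z) → Sem ρ φ m s →
    ∀ V : Set ℂ, V ⊆ UH → NoAt V (um s)

/-- MSD: the mass of the directional measures, as an invariant function on the surface.
Proof (from `StmtLfe` for `k = 0`). `z ↦ ((s z) univ).toReal` is measurable, and invariant a.e. under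
every `γ ∈ Γ`. `CutF` holds for a.e. invariant functions as well (replace `f` by an invariant version:
`f₀(z) = f(γz)` for the `γ` with `γz ∈ D`, or `limsup`; or use that `p` is a.e. equal to the invariant
function `p` of `StmtAtoms`; or prove it from `CutF.int` applied to the `Γ`-invariant function
`g = (∑_γ χ(γz) f(γz)) / ∑_γ χ(γz)`...). Simplest: the sets `N_γ` where `f(γz) ≠ f(z)` are null, `Γ` is
countable, `N = ⋃ N_γ`, and `f₀ = f` off the `Γ`-saturation of `N` (a null set), `0` on it, is invariant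
everywhere, measurable and equal to `f` a.e. Square integrability on `D`: `LocL2` and the local
finiteness (`ζ` of `CutF`: `∫_D f₀² ~ ∫ ζ f₀²`, by monotone truncation `min (f₀²) k`). For `dirWick`:
a.e. invariance from `StmtLfe` for all `k` and `NFP.model` (`StmtModel`: `dirWick (s z) x` is the limit of
`modN (cof (s z)) x N`, a sum over indices of total zero, in which the phases cancel; the odd moments
vanish by `StmtJlg`), bound `|dirWick| ≤ C p²` from `StmtModel`. Mean one: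
`rAvg p = ∫ ζ ma s = lim ∫ ζ φₙ² = lim rAvg φₙ² = 1` (`StmtJlg` for `j = l = 0` or `Semiclassical.lim`,
`U3.stmtLcz`). -/
def StmtMsd : Prop :=
  ∀ (Γ : Subgroup SL(2, ℝ)) [Countable Γ] (D : Set ℍ) (ρ : ℍ → ℝ) (φ : ℕ → ℍ → ℝ) (m : ℕ → ℝ)
    (s : ProbabilityTheory.Kernel ℍ S1), Sur Γ D ρ φ m → Sem ρ φ m s → ∀ ζ : ℂ → ℝ, CutF Γ D ρ ζ →
    IntegrableOn (fun z => ((s z) univ).toReal ^ 2) D (volume : Measure ℍ) ∧
    Berry.rAvg ρ D (fun z => ((s z) univ).toReal) = 1 ∧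
    (∫ z, ζ z * ma s z ^ 2) = Berry.rAvg ρ D (fun z => ((s z) univ).toReal ^ 2) ∧
    ∀ x : Fin 4 → ℂ, IntegrableOn (fun z => dirWick (s z) x) D (volume : Measure ℍ) ∧
      (∫ z, ζ z * dirWick (s (ofComplex z)) x) = Berry.rAvg ρ D (fun z => dirWick (s z) x)

/-! ### C. Passage to the limit field -/

/-- UIA: uniform integrability and convergence in law.
Proof. Let `χ_k(t) = max (-k) (min t k)`. `∫ ζ θ^e Q = ∫ ζ χ_k(Q) - ∫ ζ (1 - θ^e) χ_k(Q)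
+ ∫ ζ θ^e (Q - χ_k(Q))`. The first term tends to `∫ χ_k(q)`; the second is at most
`2 B k ∫ (1 - θ) M → 0`. The third: `|Q - χ_k(Q)| ≤ |Q| 1_{|Q| > k}`, and `|Q| ≤ √C M^{(e+2)/2}`, so
`M > c_k` there with `c_k → ∞` as `k → ∞`. For `e = 2`: `θ² |Q| ≤ √C (θ M)²`,
`∫_{M > c} (θ M)² ≤ ε + T² ν(M > c) ≤ ε + T² C' / c`. For `e = 1`:
`∫_{M > c} θ |Q| ≤ √C ∫_{M > c} (θ M) M^{1/2} ≤ √C (∫_{M > c} (θ M)²)^{1/2} (∫ M)^{1/2}`. So the third term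
is small, uniformly in large `n`, when `k` is large. Hence `lim_n ∫ ζ θ^e Q_n` and `lim_k ∫ χ_k(q)` exist
(Cauchy) and agree. The same argument with `|Q|`, `|q|`, gives that `∫ min |q| k` is bounded, so `q` is
integrable (monotone convergence) and `∫ χ_k(q) → ∫ q` (dominated convergence). -/
def StmtUia : Prop :=
  ∀ (X : Type) [MeasurableSpace X] (ν : Measure X) [IsFiniteMeasure ν] (Ω : Type)
    [MeasurableSpace Ω] (P : Measure Ω) [IsProbabilityMeasure P] (ζ : X → ℝ) (θ M Q : ℕ → X → ℝ)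
    (q : Ω → ℝ) (B C C' : ℝ) (e : ℕ), (e = 1 ∨ e = 2) → Measurable ζ → (∀ n, Measurable (θ n)) →
    (∀ n, Measurable (M n)) → (∀ n, Measurable (Q n)) → Measurable q →
    (∀ x, 0 ≤ ζ x ∧ ζ x ≤ B) → (∀ n x, 0 ≤ θ n x ∧ θ n x ≤ 1) → (∀ n x, 1 ≤ M n x) →
    (∀ n, ∃ b : ℝ, ∀ᵐ x ∂ν, M n x ≤ b) → (∀ᶠ n in atTop, ∫ x, M n x ∂ν ≤ C') →
    (∀ᶠ n in atTop, ∀ᵐ x ∂ν, ζ x ≠ 0 → Q n x ^ 2 ≤ C * M n x ^ (e + 2)) →
    Tendsto (fun n => ∫ x, (1 - θ n x) * M n x ∂ν) atTop (𝓝 0) →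
    (∀ ε > 0, ∃ T : ℝ, ∀ᶠ n in atTop,
      ∫ x, (if T < θ n x * M n x then (θ n x * M n x) ^ 2 else 0) ∂ν ≤ ε) →
    (∀ G : ℝ → ℝ, Continuous G → (∃ b, ∀ t, |G t| ≤ b) →
      Tendsto (fun n => ∫ x, ζ x * G (Q n x) ∂ν) atTop (𝓝 (∫ o, G (q o) ∂P))) →
    Integrable q P ∧ Tendsto (fun n => ∫ x, ζ x * (θ n x ^ e * Q n x) ∂ν) atTop (𝓝 (∫ o, q o ∂P))

/-- DOM: the local waves are bounded by the local mean square.
Proof. For `z ∈ K` the point `frame (z, ϑ) • (i + x / (m e^{ρ}))` is at distance at most `C_x h` of `z`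
for large `n` (C13: `W.disp`, `Disp`, or directly); `‖φ w‖² ≤ RR h φ' 0 n w ≤ C (1 + h⁻²
∫_{closedBall w h} ‖φ'‖²)` for `w` in a compact neighbourhood of `K` in `V` (`BSL.ptwC` with `c = 1`), and
`closedBall w h ⊆ closedBall z ((C_x + 1) h)`. `L₀ = C_x + 1`. -/
def StmtDom : Prop :=
  ∀ (Γ : Subgroup SL(2, ℝ)) (D : Set ℍ) (ρ : ℍ → ℝ) (φ : ℕ → ℍ → ℝ) (m : ℕ → ℝ), Sur Γ D ρ φ m →
    ∀ (V : Set ℂ) (σ : ℂ → ℝ) (φ' : ℕ → ℂ → ℂ), Agree V UH (gr ρ) (hh m) (ph φ) σ φ' →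
    ∀ K, IsCompact K → K ⊆ V → ∀ (r : ℕ) (x : Fin r → ℂ), ∃ L₀ : ℝ, 1 ≤ L₀ ∧ ∀ L, L₀ ≤ L →
      ∃ C : ℝ, ∀ᶠ n in atTop, ∀ z ∈ K, ∀ (t : ℝ) (i : Fin r),
        Berry.rWave ρ (φ n) (m n) (x i) (ofComplex z, t) ^ 2 ≤ C * Mn L (hh m) φ' n z

/-- UIF: convergence of the weighted means of products of values to the moments of `F`.
Proof (from `StmtUia`). `X = ℂ × ℝ`, `ν = (volume.restrict K).prod ang`, `K = tsupport ζ`,
`Q n (z, t) = ∏ᵢ rWave (xᵢ) (ofComplex z, t)` (cut off to `z ∈ K`), `q = ∏ᵢ F (xᵢ)`. The law: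
`∫ ζ(z) G(Q n (z, t)) = rAvg ρ D (z ↦ ∫ G(∏ rWave (xᵢ) (z, t)) d ang) = ∫ G(∏ rWave) d(rFrameProb)`
by `CutF.int` (the inner integral is an invariant function of `z`: as `angProd_inv`, C13:3199, with `G`)
and Fubini (`ang` is the measure `cond volume (Ioc 0 (2π))` of `rFrameProb`), and `FLim` with the function
`t ↦ G(∏ᵢ tᵢ)`. `Q² ≤ C M^(e+2)` from the domination. Continuity of the waves for large `n`:
`rWave_continuous`, `angProd_continuous` (C13:3217-3240). -/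
def StmtUif : Prop :=
  ∀ (Γ : Subgroup SL(2, ℝ)) [Countable Γ] (D : Set ℍ) (ρ : ℍ → ℝ) (φ : ℕ → ℍ → ℝ) (m : ℕ → ℝ),
    Sur Γ D ρ φ m → ∀ (Ω : Type) [MeasurableSpace Ω] (P : Measure Ω) [IsProbabilityMeasure P]
    (F : ℂ → Ω → ℝ), (∀ x, Measurable (F x)) → FLim ρ D φ m P F → ∀ ζ : ℂ → ℝ, CutF Γ D ρ ζ →
    ∀ (V : Set ℂ) (σ : ℂ → ℝ) (φ' : ℕ → ℂ → ℂ), Agree V UH (gr ρ) (hh m) (ph φ) σ φ' →
    tsupport (fun z => (ζ z : ℂ)) ⊆ V → ∀ (e : ℕ), (e = 1 ∨ e = 2) → ∀ (x : Fin (e + 2) → ℂ)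
    (L : ℝ) (θ : ℕ → ℂ → ℝ), 0 < L → Wt V σ (hh m) φ' L θ →
    (∃ C : ℝ, ∀ᶠ n in atTop, ∀ z ∈ tsupport (fun z => (ζ z : ℂ)), ∀ (t : ℝ) (i : Fin (e + 2)),
      Berry.rWave ρ (φ n) (m n) (x i) (ofComplex z, t) ^ 2 ≤ C * Mn L (hh m) φ' n z) →
    Integrable (fun o => ∏ i, F (x i) o) P ∧
    Tendsto (fun n => ∫ z, ζ z * (θ n z ^ e * angProd ρ (φ n) (m n) x (ofComplex z))) atTop
      (𝓝 (∫ o, ∏ i, F (x i) o ∂P))

/-! ### D. Local formulas at points, with weights (sub-architect: helper70) -/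

/-- F4W: the local four-point formula with weights -/
def StmtF4w : Prop :=
  ∀ (Γ : Subgroup SL(2, ℝ)) (D : Set ℍ) (ρ : ℍ → ℝ) (φ : ℕ → ℍ → ℝ) (m : ℕ → ℝ)
    (s : ProbabilityTheory.Kernel ℍ S1), Sur Γ D ρ φ m → (∀ z, IsFiniteMeasure (s z)) →
    ∀ (V : Set ℂ) (σ : ℂ → ℝ) (φ' : ℕ → ℂ → ℂ), Agree V UH (gr ρ) (hh m) (ph φ) σ φ' →
    JL V σ (hh m) φ' (um s) →
    (∀ k : ℤ, Odd k → ∀ᵐ z ∂(volume.restrict UH), cof (s (ofComplex z)) k = 0) →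
    ∀ ζ : ℂ → ℝ, Test V (fun z => (ζ z : ℂ)) → ∀ x : Fin 4 → ℂ, ∃ L₀ : ℝ, 1 ≤ L₀ ∧ ∀ L, L₀ ≤ L →
    ∀ θ : ℕ → ℂ → ℝ, Wt V σ (hh m) φ' L θ →
      Tendsto (fun n => (∫ z, ζ z * (θ n z ^ 2 * angProd ρ (φ n) (m n) x (ofComplex z)))
        - ((∫ z, ζ z * dirWick (s (ofComplex z)) x)
          + ((∫ z, ζ z * (θ n z ^ 2 * φ n (ofComplex z) ^ 4)) - 3 * ∫ z, ζ z * ma s z ^ 2) / 3
            * resK x)) atTop (𝓝 0)

/-- F3W: the local three-point formula with weights -/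
def StmtF3w : Prop :=
  ∀ (Γ : Subgroup SL(2, ℝ)) (D : Set ℍ) (ρ : ℍ → ℝ) (φ : ℕ → ℍ → ℝ) (m : ℕ → ℝ)
    (s : ProbabilityTheory.Kernel ℍ S1), Sur Γ D ρ φ m → (∀ z, IsFiniteMeasure (s z)) →
    ∀ (V : Set ℂ) (σ : ℂ → ℝ) (φ' : ℕ → ℂ → ℂ), Agree V UH (gr ρ) (hh m) (ph φ) σ φ' →
    JL V σ (hh m) φ' (um s) → NoAt V (um s) →
    ∀ ζ : ℂ → ℝ, Test V (fun z => (ζ z : ℂ)) → ∀ x : Fin 3 → ℂ, ∃ L₀ : ℝ, 1 ≤ L₀ ∧ ∀ L, L₀ ≤ L →
    ∀ θ : ℕ → ℂ → ℝ, Wt V σ (hh m) φ' L θ →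
      Tendsto (fun n => ∫ z, ζ z * (θ n z * angProd ρ (φ n) (m n) x (ofComplex z))) atTop
        (𝓝 0)

/-! ### E. The theorems for the limit field -/

/-- FFL: the four- and three-point functions of the limit field.
Proof (from all the statements above, `StmtWtR`, `StmtPosW`). The sequence has a subsequence with a
semiclassical measure (`NFP.exist_closed`; all hypotheses pass to subsequences: `Sur`, `FLim`), so the
statement is for sequences with `Semiclassical ρ φ m μ`. `StmtTrg` gives `R`; `StmtStr`: `s`;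
`StmtCut`: `ζ`; `U3.stmtLcz` for `tsupport ζ`: a chart; `StmtJlg`: `JL`; `NoAt` is a hypothesis.
Four points `x`: let `L` be at least the `L₀` of `StmtF4w` and of `StmtDom` for `x` and for `0`; `θ` from
`StmtWts` (`Agree.loc` is `LocB`; `Tru UH` gives `Tru V φ'` on `V`). `StmtUif` for `x` and for `(0,0,0,0)`
(`angProd` at zero is `φ⁴`, `rWave_origin`), `e = 2`: the left sides in `StmtF4w` converge to
`E ∏ F(xᵢ)` and `∫ ζ θ² φ⁴ → E F(0)⁴`. With `StmtMsd`: the formula. `κ ≥ 3 rAvg p²`: `StmtPosW` (with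
`StmtWtR`; `(φ' n z).re = φ n`, `‖um s 0‖ = ma s`) in the limit. Three points: the same with `e = 1` and
`StmtF3w`. -/
def StmtFfl : Prop :=
  ∀ (Γ : Subgroup SL(2, ℝ)) [Countable Γ] (D : Set ℍ) (ρ : ℍ → ℝ) (φ : ℕ → ℍ → ℝ) (m : ℕ → ℝ),
    Sur Γ D ρ φ m → ∀ (Ω : Type) [MeasurableSpace Ω] (P : Measure Ω) [IsProbabilityMeasure P]
    (F : ℂ → Ω → ℝ), (∀ x, Measurable (F x)) → FLim ρ D φ m P F → ∫ o, F 0 o ^ 2 ∂P = 1 →
    Integrable (fun o => F 0 o ^ 4) P → ∀ μ : Measure (ℍ × S1), Semiclassical ρ φ m μ →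
    ∃ s : ProbabilityTheory.Kernel ℍ S1, Sem ρ φ m s ∧ μ = (Berry.area ρ) ⊗ₘ s ∧
      IntegrableOn (fun z => ((s z) univ).toReal ^ 2) D (volume : Measure ℍ) ∧
      Berry.rAvg ρ D (fun z => ((s z) univ).toReal) = 1 ∧
      (∀ x : Fin 4 → ℂ, IntegrableOn (fun z => dirWick (s z) x) D (volume : Measure ℍ)) ∧
      (∀ x : Fin 4 → ℂ, Integrable (fun o => ∏ i, F (x i) o) P ∧
        ∫ o, ∏ i, F (x i) o ∂P = fourF ρ D s (∫ o, F 0 o ^ 4 ∂P) x) ∧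
      (NoAt UH (um s) →
        3 * Berry.rAvg ρ D (fun z => ((s z) univ).toReal ^ 2) ≤ ∫ o, F 0 o ^ 4 ∂P ∧
        ∀ x : Fin 3 → ℂ, Integrable (fun o => ∏ i, F (x i) o) P ∧ ∫ o, ∏ i, F (x i) o ∂P = 0)

/-- FUA: linear statistics.
Proof. `K = waveK = J_0`. `dirWick (s z) x = (2π)⁻¹ ∫ (K_s(R(x₀-x₁)) K_s(R(x₂-x₃)) + ...) dR` and
`(2π)⁻¹ ∫ K_s(R x) dR = p K(x)`, `p = (s z) univ` (Fubini).
`∑ c_i c_j c_k c_l dirWick (s z) (x_i, x_j, x_k, x_l) = 3 (2π)⁻¹ ∫ V(R)² dR ≥ 3 ((2π)⁻¹ ∫ V(R) dR)²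
= 3 p² τ⁴`, `V(R) = ∑ c_i c_j K_s(R(x_i - x_j)) ≥ 0`, `τ² = ∑ c_i c_j K(x_i - x_j)` (Cauchy-Schwarz).
`∑ c c c c resK(x_i, x_j, x_k, x_l) = 3 (2π)⁻¹ ∫ |∑ c_i e^{i x_i · w}|⁴ dw ≥ 0` (each of the three terms).
The means: `rAvg p² ≥ 1` (Cauchy-Schwarz, `rAvg p = 1`) and `κ ≥ 3 rAvg p²`. -/
def StmtFua : Prop :=
  ∀ (Γ : Subgroup SL(2, ℝ)) [Countable Γ] (D : Set ℍ) (ρ : ℍ → ℝ)
    (s : ProbabilityTheory.Kernel ℍ S1) (κ : ℝ), MeasurableSet D →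
    IsFundamentalDomain Γ D (volume : Measure ℍ) → Fac Γ ρ → (∀ z, IsFiniteMeasure (s z)) →
    IntegrableOn (fun z => ((s z) univ).toReal ^ 2) D (volume : Measure ℍ) →
    Berry.rAvg ρ D (fun z => ((s z) univ).toReal) = 1 →
    (∀ x : Fin 4 → ℂ, IntegrableOn (fun z => dirWick (s z) x) D (volume : Measure ℍ)) →
    3 * Berry.rAvg ρ D (fun z => ((s z) univ).toReal ^ 2) ≤ κ →
    ∀ (r : ℕ) (c : Fin r → ℝ) (x : Fin r → ℂ),
      3 * (∑ i, ∑ j, c i * c j * Berry.waveK (x i - x j)) ^ 2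
        ≤ ∑ i, ∑ j, ∑ k, ∑ l, c i * c j * c k * c l * fourF ρ D s κ ![x i, x j, x k, x l]

/-- FUB: the pairs of squares.
Proof. `x = (0, 0, a, a)`: `dirWick = (2π)⁻¹ ∫ (p² + 2 K_s(R a)²) dR ≥ p² + 2 p² K(a)²` (Cauchy-Schwarz,
`(2π)⁻¹ ∫ K_s(R a) dR = p K(a)`), `resK = 2 + K(2a) ≥ 1`; `rAvg p² ≥ 1`, `κ ≥ 3 rAvg p²`.
Equality forces `κ = 3 rAvg p²` (as `resK ≥ 1`), `rAvg p² = 1`, hence `p = 1` a.e., and
`K_s(R a) = K(a)` for all `R`, for a.e. `z` (the integrand is continuous in `R`). -/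
def StmtFub : Prop :=
  ∀ (Γ : Subgroup SL(2, ℝ)) [Countable Γ] (D : Set ℍ) (ρ : ℍ → ℝ)
    (s : ProbabilityTheory.Kernel ℍ S1) (κ : ℝ), MeasurableSet D →
    IsFundamentalDomain Γ D (volume : Measure ℍ) → Fac Γ ρ → (∀ z, IsFiniteMeasure (s z)) →
    IntegrableOn (fun z => ((s z) univ).toReal ^ 2) D (volume : Measure ℍ) →
    Berry.rAvg ρ D (fun z => ((s z) univ).toReal) = 1 →
    (∀ x : Fin 4 → ℂ, IntegrableOn (fun z => dirWick (s z) x) D (volume : Measure ℍ)) →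
    3 * Berry.rAvg ρ D (fun z => ((s z) univ).toReal ^ 2) ≤ κ →
    (∀ a : ℂ, 1 + 2 * Berry.waveK a ^ 2 ≤ fourF ρ D s κ ![0, 0, a, a]) ∧
    ∀ a : ℂ, fourF ρ D s κ ![0, 0, a, a] = 1 + 2 * Berry.waveK a ^ 2 →
      κ = 3 ∧ ∀ᵐ z ∂((volume : Measure ℍ).restrict D), (s z) univ = 1 ∧
        ∀ t : ℝ, dirK (s z) (Complex.exp (t * Complex.I) * a) = Berry.waveK a

/-- DRC: a directional measure of which the covariance function is constant on a small circle is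
uniform.
Proof. `K_s(R_t a) = ∫ cos (Re (a e^{it} conj w)) ds(w)`; for `a = r > 0` real (rotate) this is
`∑_k i^k J_k(r) e^{ikt} (...)` for even `k` (Jacobi-Anger, `Berry`/`QEV`: the coefficients of
`cos (r cos u)` are `(-1)^(k/2) J_k(r)` for even `k`, zero for odd `k`), so its `k`-th Fourier coefficient
in `t` is `(-1)^(k/2) J_k(r) cof s (∓k)`, and `J_k(r) ≠ 0` for `0 < r ≤ 3`, `k ≥ 2` even:
`J_k(r) = (r/2)^k / k! (1 - (r/2)² / (k+1) + ...)`, an alternating series with decreasing terms as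
`(r/2)² ≤ 9/4 < k + 1`. Or directly: the Fourier coefficient
`(2π)⁻¹ ∫ cos (r cos u) e^{-iku} du = (-1)^(k/2) (2π)⁻¹ ∫ ...`, and
`J_k(r) = (r/2)^k / (√π Γ(k + 1/2)) ∫_{-1}^{1} cos (r t) (1 - t²)^{k - 1/2} dt > 0`. -/
def StmtDrc : Prop :=
  ∀ (s : Measure S1) (a : ℂ), IsFiniteMeasure s → s univ = 1 → 0 < ‖a‖ → ‖a‖ ≤ 3 →
    (∀ t : ℝ, dirK s (Complex.exp (t * Complex.I) * a) = Berry.waveK a) →
    ∀ k : ℤ, Even k → k ≠ 0 → cof s k = 0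

/-- QEU: if the directional measures are uniform a.e., the sequence is quantum ergodic, and the
four-point function is the one of the random wave.
Proof. `s` has only odd and zero moments a.e.; the odd ones vanish by `StmtJlg`; so for a.e. `z` the
measure `s z` has the moments of the uniform probability measure, hence equals it
(`NFP`/`CRN` have this), and the semiclassical measure is the normalised Liouville measure:
`QE.QuantumErgodic` is `Semiclassical.lim` written out (`NFP.Semiclassical` and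
`QE.QuantumErgodic`: compare `CRN`, `QES.lean`, `QEI.lean` in `Pool/Agent/CRM`). -/
def StmtQeu : Prop :=
  ∀ (Γ : Subgroup SL(2, ℝ)) [Countable Γ] (D : Set ℍ) (ρ : ℍ → ℝ) (φ : ℕ → ℍ → ℝ) (m : ℕ → ℝ)
    (s : ProbabilityTheory.Kernel ℍ S1), Sur Γ D ρ φ m → Sem ρ φ m s →
    (∀ᵐ z ∂((volume : Measure ℍ).restrict D), (s z) univ = 1 ∧
      ∀ k : ℤ, Even k → k ≠ 0 → cof (s z) k = 0) →
    QE.QuantumErgodic ρ φ m ∧ ∀ x : Fin 4 → ℂ, Berry.rAvg ρ D (fun z => dirWick (s z) x)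
      = Berry.waveK (x 0 - x 1) * Berry.waveK (x 2 - x 3)
        + Berry.waveK (x 0 - x 2) * Berry.waveK (x 1 - x 3)
        + Berry.waveK (x 0 - x 3) * Berry.waveK (x 1 - x 2)

end

end BSL
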