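import Pool.Agent.BSL.St2

/-!
# Statements, part 3: quantum ergodic sequences, negative curvature, and the theorems

See `St2.lean` for the definitions.
-/

open Complex MeasureTheory Filter Topology Set
open UpperHalfPlane hiding I
open scoped ContDiff MatrixGroups ProbabilityTheory ENNReal

namespace BSL

open QE QE.NC QJ U3 NFP

noncomputable section

/-- LFR: the moments of the directional measures form a family of limits (`QE.NC.LimFamR`); no sign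
of the curvature is needed.
Proof (from `StmtJlg`, `StmtLfe`, `StmtLft`): see the first part of the proof of `StmtNoa`. -/
def StmtLfr : Prop :=
  ∀ (Γ : Subgroup SL(2, ℝ)) (ρ : ℍ → ℝ) (φ : ℕ → ℍ → ℝ) (m : ℕ → ℝ)
    (s : ProbabilityTheory.Kernel ℍ S1), Fac Γ ρ → LocU UH (gr ρ) (hh m) (ph φ) → Sem ρ φ m s →
    (∀ n, ∀ γ ∈ Γ, ∀ z, φ n (γ • z) = φ n z) → LimFamR Γ ρ (fun k z => cof (s (ofComplex z)) k)

/-- NQE: quantum ergodic sequences.
Proof (from `StmtJlg`). Let `s₀` be the constant kernel with value the uniform probability measure on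
the circle (`CRM/QES.lean`, `CRM/QEI.lean`: the semiclassical measure of a quantum ergodic sequence is
`(area ρ) ⊗ₘ s₀`; otherwise: `QuantumErgodic` is the definition of `Semiclassical` for this measure, the
circle average being the integral over `s₀`, except for the area factor `e^{2ρ} / y²`, which is absorbed
in the test function). So `Sem ρ φ m s₀`, and `StmtJlg` for `s` and for `s₀` gives
`∫ ζ um s k = ∫ ζ um s₀ k` for all test functions on charts (`U3.stmtLcz`: all test functions on `UH`), so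
`um s k = um s₀ k` a.e. (`QE.ae_zero_of_test`); `cof s₀ 0 = 1`, `cof s₀ k = 0` for `k ≠ 0`. `NoAt`: all
terms with `k ≠ 0` vanish, `(1 / N) ∫ ζ → 0`. -/
def StmtNqe : Prop :=
  ∀ (ρ : ℍ → ℝ) (φ : ℕ → ℍ → ℝ) (m : ℕ → ℝ) (s : ProbabilityTheory.Kernel ℍ S1),
    ContDiffOn ℝ ∞ (ro ρ) UH → LocU UH (gr ρ) (hh m) (ph φ) → Sem ρ φ m s →
    QE.QuantumErgodic ρ φ m →
    (∀ᵐ z ∂(volume.restrict UH), ma s z = 1 ∧ ∀ k : ℤ, k ≠ 0 → cof (s (ofComplex z)) k = 0) ∧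
    NoAt UH (um s)

/-- FLA: all closed surfaces: the four-point function of a limit field with finite fourth moment.
Proof (from `StmtFfl`). `U3.stmtSrf` gives a shift `n ↦ n + N` (enlarge `N` so that `m ≥ 1`) with
`LocU`, hence `Sur` for the shifted subsequence; `FLim` and `Semiclassical` pass to subsequences.
`x = ![x 0, ...]`: `Fin.prod_univ_four`. -/
def StmtFla : Prop :=
  ∀ (Γ : Subgroup SL(2, ℝ)) [Countable Γ] (ρ : ℍ → ℝ),
    ContDiffOn ℝ ∞ (fun w : ℂ => ρ (ofComplex w)) {w | 0 < w.im} →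
    (∀ γ ∈ Γ, ∀ z, ρ (γ • z) = ρ z) →
    ∀ D : Set ℍ, MeasurableSet D → IsFundamentalDomain Γ D (volume : Measure ℍ) →
    (∃ K : Set ℍ, IsCompact K ∧ ∀ z, ∃ γ ∈ Γ, γ • z ∈ K) →
    ∀ (φ : ℕ → ℍ → ℝ) (m : ℕ → ℝ), Berry.REigenSeq Γ ρ φ m →
    (∀ n, ContDiffOn ℝ ∞ (fun w : ℂ => φ n (ofComplex w)) {w | 0 < w.im}) →
    (∀ n, Berry.rAvg ρ D (fun z => φ n z ^ 2) = 1) →
    ∀ (Ω : Type) [MeasurableSpace Ω] (P : Measure Ω) [IsProbabilityMeasure P] (F : ℂ → Ω → ℝ),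
    (∀ x, Measurable (F x)) → FLim ρ D φ m P F → ∫ o, F 0 o ^ 2 ∂P = 1 →
    Integrable (fun o => F 0 o ^ 4) P → ∀ (k : ℕ → ℕ) (μ : Measure (ℍ × S1)), StrictMono k →
    Semiclassical ρ (fun n => φ (k n)) (fun n => m (k n)) μ →
    ∃ s : ProbabilityTheory.Kernel ℍ S1, (∀ z, IsFiniteMeasure (s z)) ∧
      μ = (Berry.area ρ) ⊗ₘ s ∧
      IntegrableOn (fun z => ((s z) univ).toReal ^ 2) D (Berry.area ρ) ∧
      Berry.rAvg ρ D (fun z => ((s z) univ).toReal) = 1 ∧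
      ∀ x : Fin 4 → ℂ, IntegrableOn (fun z => dirWick (s z) x) D (Berry.area ρ) ∧
        Integrable (fun o => F (x 0) o * F (x 1) o * F (x 2) o * F (x 3) o) P ∧
        ∫ o, F (x 0) o * F (x 1) o * F (x 2) o * F (x 3) o ∂P
          = Berry.rAvg ρ D (fun z => dirWick (s z) x)
            + ((∫ o, F 0 o ^ 4 ∂P) - 3 * Berry.rAvg ρ D (fun z => ((s z) univ).toReal ^ 2)) / 3
              * resK x

/-- FLN: **Theorem B**, negative curvature.
Proof (from `StmtFfl`, `StmtNoa`, `StmtFua`, `StmtFub`, `StmtDrc` or the stronger theorem of helper78,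
`StmtQeu`, `NFP.exist_closed`, `U3.stmtSrf`). (1) If `E F(0)⁴ = ∞` trivial. Otherwise pass to a
subsequence with a semiclassical measure (`NFP.exist_closed`) and to a shift with `Sur`; `StmtFfl`,
`NoAt` from `StmtNoa`: `E F(0)⁴ ≥ 3 rAvg p² ≥ 3 (rAvg p)² = 3`. (2) three points: `StmtFfl`. (3) expand
the fourth power, `StmtFua`. (4) `∏ F` at `(x, x, y, y)`; `fourF` at `(x, x, y, y)` is `fourF` at
`(0, 0, y - x, y - x)` (the definitions of `dirWick` and `resK` involve only differences), `StmtFub`.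
(5) equality: for every subsequence with a semiclassical measure the second part of `StmtFub` gives that
the directional measures are uniform (`StmtDrc` ...), so every subsequence has a further subsequence
which is quantum ergodic (`StmtQeu`); `QuantumErgodic` is a statement of convergence of sequences, hence
holds for the whole sequence (`tendsto_of_subseq_tendsto`). The four-point function: `StmtQeu`, `κ = 3`,
`rAvg p² = 1`. -/
def StmtFln : Prop :=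
  ∀ (Γ : Subgroup SL(2, ℝ)) [Countable Γ] (ρ : ℍ → ℝ),
    ContDiffOn ℝ ∞ (fun w : ℂ => ρ (ofComplex w)) {w | 0 < w.im} →
    (∀ γ ∈ Γ, ∀ z, ρ (γ • z) = ρ z) →
    (∀ z : ℍ, 0 < 1 + z.im ^ 2 * Laplacian.laplacian (fun w : ℂ => ρ (ofComplex w)) z) →
    ∀ D : Set ℍ, MeasurableSet D → IsFundamentalDomain Γ D (volume : Measure ℍ) →
    (∃ K : Set ℍ, IsCompact K ∧ ∀ z, ∃ γ ∈ Γ, γ • z ∈ K) →
    ∀ (φ : ℕ → ℍ → ℝ) (m : ℕ → ℝ), Berry.REigenSeq Γ ρ φ m →
    (∀ n, ContDiffOn ℝ ∞ (fun w : ℂ => φ n (ofComplex w)) {w | 0 < w.im}) →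
    (∀ n, Berry.rAvg ρ D (fun z => φ n z ^ 2) = 1) →
    ∀ (Ω : Type) [MeasurableSpace Ω] (P : Measure Ω) [IsProbabilityMeasure P] (F : ℂ → Ω → ℝ),
    (∀ x, Measurable (F x)) → FLim ρ D φ m P F → ∫ o, F 0 o ^ 2 ∂P = 1 →
    3 ≤ ∫⁻ o, ENNReal.ofReal (F 0 o ^ 4) ∂P ∧
    (Integrable (fun o => F 0 o ^ 4) P →
      (∀ (r : ℕ) (c : Fin r → ℝ) (x : Fin r → ℂ),
        Integrable (fun o => (∑ i, c i * F (x i) o) ^ 4) P ∧
        3 * (∑ i, ∑ j, c i * c j * Berry.waveK (x i - x j)) ^ 2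
          ≤ ∫ o, (∑ i, c i * F (x i) o) ^ 4 ∂P) ∧
      (∀ x y z : ℂ, Integrable (fun o => F x o * F y o * F z o) P ∧
        ∫ o, F x o * F y o * F z o ∂P = 0) ∧
      (∀ x y : ℂ, 1 + 2 * Berry.waveK (x - y) ^ 2 ≤ ∫ o, F x o ^ 2 * F y o ^ 2 ∂P) ∧
      ∀ x y : ℂ, x ≠ y → ∫ o, F x o ^ 2 * F y o ^ 2 ∂P = 1 + 2 * Berry.waveK (x - y) ^ 2 →
        QE.QuantumErgodic ρ φ m ∧
        ∀ x₁ x₂ x₃ x₄ : ℂ, ∫ o, F x₁ o * F x₂ o * F x₃ o * F x₄ o ∂P
          = Berry.waveK (x₁ - x₂) * Berry.waveK (x₃ - x₄)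
            + Berry.waveK (x₁ - x₃) * Berry.waveK (x₂ - x₄)
            + Berry.waveK (x₁ - x₄) * Berry.waveK (x₂ - x₃))

/-- FLQ: quantum ergodic sequences on closed surfaces (no assumption on the curvature).
Proof: as `StmtFln`, with `StmtNqe` instead of `StmtNoa`. -/
def StmtFlq : Prop :=
  ∀ (Γ : Subgroup SL(2, ℝ)) [Countable Γ] (ρ : ℍ → ℝ),
    ContDiffOn ℝ ∞ (fun w : ℂ => ρ (ofComplex w)) {w | 0 < w.im} →
    (∀ γ ∈ Γ, ∀ z, ρ (γ • z) = ρ z) →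
    ∀ D : Set ℍ, MeasurableSet D → IsFundamentalDomain Γ D (volume : Measure ℍ) →
    (∃ K : Set ℍ, IsCompact K ∧ ∀ z, ∃ γ ∈ Γ, γ • z ∈ K) →
    ∀ (φ : ℕ → ℍ → ℝ) (m : ℕ → ℝ), Berry.REigenSeq Γ ρ φ m →
    (∀ n, ContDiffOn ℝ ∞ (fun w : ℂ => φ n (ofComplex w)) {w | 0 < w.im}) →
    (∀ n, Berry.rAvg ρ D (fun z => φ n z ^ 2) = 1) → QE.QuantumErgodic ρ φ m →
    ∀ (Ω : Type) [MeasurableSpace Ω] (P : Measure Ω) [IsProbabilityMeasure P] (F : ℂ → Ω → ℝ),
    (∀ x, Measurable (F x)) → FLim ρ D φ m P F → ∫ o, F 0 o ^ 2 ∂P = 1 →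
    3 ≤ ∫⁻ o, ENNReal.ofReal (F 0 o ^ 4) ∂P ∧
    (Integrable (fun o => F 0 o ^ 4) P →
      (∀ x y z : ℂ, Integrable (fun o => F x o * F y o * F z o) P ∧
        ∫ o, F x o * F y o * F z o ∂P = 0) ∧
      ∀ x : Fin 4 → ℂ, Integrable (fun o => F (x 0) o * F (x 1) o * F (x 2) o * F (x 3) o) P ∧
        ∫ o, F (x 0) o * F (x 1) o * F (x 2) o * F (x 3) o ∂P
          = Berry.waveK (x 0 - x 1) * Berry.waveK (x 2 - x 3)
            + Berry.waveK (x 0 - x 2) * Berry.waveK (x 1 - x 3)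
            + Berry.waveK (x 0 - x 3) * Berry.waveK (x 1 - x 2)
            + ((∫ o, F 0 o ^ 4 ∂P) - 3) / 3 * resK x)

end

end BSL
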