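import Pool.Agent.BSL.StmtsT
import Pool.Agent.BWM.C33

/-!
# TAW: Taylor's formula at the scale `h` (helper70)
-/

open Complex MeasureTheory Filter Topology Set
open scoped ContDiff

namespace BSL

open U3 QJ QE

noncomputable section

namespace TAW

variable {V : Set ℂ} {σ : ℂ → ℝ} {h : ℕ → ℝ} {φ : ℕ → ℂ → ℂ}

/-- the iterated directional derivatives in terms of the Wirtinger derivatives -/
lemma dirK_eq {f : ℂ → ℂ} (hf : ContDiff ℝ ∞ f) (v : ℂ) (k : ℕ) : ∀ z, dirK k v f z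
    = ∑ a ∈ Finset.range (k + 1), (k.choose a : ℂ)
      * (v ^ a * (starRingEnd ℂ) v ^ (k - a) * dz^[a] (dzb^[k - a] f) z) := by
  induction k with
  | zero => intro z; simp [dirK]
  | succ k ih =>
    intro z
    have e0 : dirK k v f = fun w => ∑ a ∈ Finset.range (k + 1), (k.choose a : ℂ)
      * (v ^ a * (starRingEnd ℂ) v ^ (k - a) * dz^[a] (dzb^[k - a] f) w) := funext ih
    have hs : ∀ a, ContDiff ℝ ∞ (dz^[a] (dzb^[k - a] f)) := fun a =>
      contDiff_iter_dz (contDiff_iter_dzb hf (k - a)) a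
    have hd : ∀ a, DifferentiableAt ℝ (dz^[a] (dzb^[k - a] f)) z := fun a => cd_at (hs a) z
    have e1 : dirK (k + 1) v f z = ∑ a ∈ Finset.range (k + 1), (k.choose a : ℂ)
      * (v ^ a * (starRingEnd ℂ) v ^ (k - a) * fderiv ℝ (dz^[a] (dzb^[k - a] f)) z v) := by
      show fderiv ℝ (dirK k v f) z v = _
      rw [e0, fderiv_fun_sum fun a _ => ((hd a).const_mul _).const_mul _]
      rw [sum_apply]
      refine Finset.sum_congr rfl fun a _ => ?_
      rw [fderiv_const_mul ((hd a).const_mul _), fderiv_const_mul (hd a)]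
      simp only [smul_apply, smul_eq_mul]
    have e2 : ∀ a ∈ Finset.range (k + 1), (k.choose a : ℂ)
        * (v ^ a * (starRingEnd ℂ) v ^ (k - a) * fderiv ℝ (dz^[a] (dzb^[k - a] f)) z v)
        = (k.choose a : ℂ) * (v ^ a * (starRingEnd ℂ) v ^ (k + 1 - a)
            * dz^[a] (dzb^[k + 1 - a] f) z)
          + (k.choose a : ℂ) * (v ^ (a + 1) * (starRingEnd ℂ) v ^ (k - a)
            * dz^[a + 1] (dzb^[k - a] f) z) := by
      intro a ha
      have ha' : a ≤ k := by rw [Finset.mem_range] at ha; omega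
      have e3 : k + 1 - a = (k - a) + 1 := by omega
      rw [dir_eq, e3, dzb_iter_dz (contDiff_iter_dzb hf (k - a)), Function.iterate_succ_apply' dzb,
        Function.iterate_succ_apply' dz]
      ring
    rw [e1, Finset.sum_congr rfl e2, Finset.sum_add_distrib]
    exact (Finset.sum_choose_succ_mul (fun a b => v ^ a * (starRingEnd ℂ) v ^ b
      * dz^[a] (dzb^[b] f) z) k).symm

/-- the rescaled directional derivatives -/
lemma dirK_h (L : LocB V σ h φ) (n k : ℕ) (v z : ℂ) : dirK k ((h n : ℂ) * v) (φ n) z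
    = ∑ a ∈ Finset.range (k + 1), (k.choose a : ℂ)
      * (v ^ a * (starRingEnd ℂ) v ^ (k - a) * W h φ a (k - a) n z) := by
  rw [dirK_eq (L.smφ n)]
  refine Finset.sum_congr rfl fun a ha => ?_
  have ha' : a ≤ k := by rw [Finset.mem_range] at ha; omega
  unfold W
  rw [map_mul, conj_ofReal, mul_pow, mul_pow, pow_add]
  ring

lemma dirK_bound (L : LocB V σ h φ) {n k : ℕ} {v z : ℂ} {R G : ℝ} (hv : ‖v‖ ≤ R)
    (hG : ∀ a b : ℕ, a + b = k → ‖W h φ a b n z‖ ≤ G) :
    ‖dirK k ((h n : ℂ) * v) (φ n) z‖ ≤ (2 * R) ^ k * G := by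
  have hR : 0 ≤ R := (norm_nonneg v).trans hv
  have hG0 : 0 ≤ G := (norm_nonneg _).trans (hG 0 k (by omega))
  rw [dirK_h L]
  calc ‖∑ a ∈ Finset.range (k + 1), (k.choose a : ℂ)
      * (v ^ a * (starRingEnd ℂ) v ^ (k - a) * W h φ a (k - a) n z)‖
      ≤ ∑ a ∈ Finset.range (k + 1), (k.choose a : ℝ) * (R ^ k * G) := by
        refine (norm_sum_le _ _).trans (Finset.sum_le_sum fun a ha => ?_)
        have ha' : a ≤ k := by rw [Finset.mem_range] at ha; omega
        rw [norm_mul, norm_mul, norm_mul, norm_pow, norm_pow, RCLike.norm_conj, ← pow_add,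
          Complex.norm_natCast]
        have e1 : a + (k - a) = k := by omega
        rw [e1]
        have h1 : ‖v‖ ^ k ≤ R ^ k := pow_le_pow_left₀ (norm_nonneg _) hv k
        have h2 := hG a (k - a) e1
        gcongr
    _ = (2 * R) ^ k * G := by
        rw [← Finset.sum_mul]
        have h1 : ∑ a ∈ Finset.range (k + 1), (k.choose a : ℝ) = 2 ^ k := by
          exact_mod_cast Nat.sum_range_choose k
        rw [h1, mul_pow]
        ring

lemma tayW_eq (L : LocB V σ h φ) (N n : ℕ) (z v : ℂ) : TayW h φ N n z v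
    = ∑ k ∈ Finset.range (N + 1), ((k.factorial : ℝ)⁻¹ : ℝ) • dirK k ((h n : ℂ) * v) (φ n) z := by
  unfold TayW
  refine Finset.sum_congr rfl fun k _ => ?_
  rw [dirK_h L, Complex.real_smul]
  push_cast
  rfl

/-- the numerical estimate -/
lemma numer {R κ S : ℝ} (hR : 0 ≤ R) (hκ : 1 ≤ κ) (hS : 2 * R * κ * Real.exp 2 + 1 ≤ S) (N : ℕ) :
    ((N.factorial : ℝ))⁻¹ * ((2 * R) ^ (N + 1) * (κ * (κ / (S / (N + 1))) ^ (N + 1)))
      ≤ κ * (((N : ℝ) + 1) * Real.exp (-((N : ℝ) + 1))) := by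
  have hκ0 : 0 < κ := by linarith
  have he : 0 < Real.exp 2 := Real.exp_pos 2
  have hS0 : 0 < S := by
    have : 0 ≤ 2 * R * κ * Real.exp 2 := by positivity
    linarith
  have hN : (0 : ℝ) < N + 1 := by positivity
  have h1 : (2 * R) ^ (N + 1) * (κ * (κ / (S / (N + 1))) ^ (N + 1))
      = κ * ((2 * R * κ / S) ^ (N + 1) * ((N : ℝ) + 1) ^ (N + 1)) := by
    have e1 : κ / (S / (N + 1)) = κ / S * (N + 1) := by field_simp
    rw [e1, mul_pow (κ / S), ← mul_pow (2 * R * κ / S)]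
    have e2 : (2 * R) ^ (N + 1) * (κ * ((κ / S) ^ (N + 1) * ((N : ℝ) + 1) ^ (N + 1)))
        = κ * (((2 * R) ^ (N + 1) * (κ / S) ^ (N + 1)) * ((N : ℝ) + 1) ^ (N + 1)) := by ring
    rw [e2, ← mul_pow, ← mul_pow]
    congr 3
    ring
  have h2 : 2 * R * κ / S ≤ Real.exp (-2) := by
    rw [Real.exp_neg, div_le_iff₀ hS0, ← div_eq_inv_mul, le_div_iff₀ he]
    linarith
  have h3 : (2 * R * κ / S) ^ (N + 1) ≤ Real.exp (-(2 * ((N : ℝ) + 1))) := by
    calc (2 * R * κ / S) ^ (N + 1) ≤ Real.exp (-2) ^ (N + 1) :=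
          pow_le_pow_left₀ (by positivity) h2 _
      _ = _ := by rw [← Real.exp_nat_mul]; congr 1; push_cast; ring
  have h4 : ((N.factorial : ℝ))⁻¹ * ((N : ℝ) + 1) ^ (N + 1)
      ≤ ((N : ℝ) + 1) * Real.exp ((N : ℝ) + 1) := by
    have h5 := Real.pow_div_factorial_le_exp ((N : ℝ) + 1) hN.le (N + 1)
    have e : ((N : ℝ) + 1) ^ (N + 1) / ((N + 1).factorial : ℝ)
        = (((N.factorial : ℝ))⁻¹ * ((N : ℝ) + 1) ^ (N + 1)) / (N + 1) := by
      rw [Nat.factorial_succ]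
      push_cast
      have : (N.factorial : ℝ) ≠ 0 := by positivity
      field_simp
    rw [e, div_le_iff₀ hN] at h5
    linarith
  rw [h1]
  calc ((N.factorial : ℝ))⁻¹ * (κ * ((2 * R * κ / S) ^ (N + 1) * ((N : ℝ) + 1) ^ (N + 1)))
      = κ * ((2 * R * κ / S) ^ (N + 1) * (((N.factorial : ℝ))⁻¹ * ((N : ℝ) + 1) ^ (N + 1))) := by
        ring
    _ ≤ κ * (Real.exp (-(2 * ((N : ℝ) + 1))) * (((N : ℝ) + 1) * Real.exp ((N : ℝ) + 1))) := by
        gcongr
    _ = κ * (((N : ℝ) + 1) * (Real.exp (-(2 * ((N : ℝ) + 1))) * Real.exp ((N : ℝ) + 1))) := by ring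
    _ = _ := by
        rw [← Real.exp_add]
        congr 3
        ring

lemma numer_lim (κ : ℝ) : Tendsto (fun N : ℕ => κ * (((N : ℝ) + 1) * Real.exp (-((N : ℝ) + 1))))
    atTop (𝓝 0) := by
  have h1 : Tendsto (fun N : ℕ => (N : ℝ) + 1) atTop atTop :=
    tendsto_atTop_add_const_right _ _ tendsto_natCast_atTop_atTop
  have h2 := (Real.tendsto_pow_mul_exp_neg_atTop_nhds_zero 1).comp h1
  have h3 := h2.const_mul κ
  rw [mul_zero] at h3
  refine h3.congr fun N => ?_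
  simp

end TAW

open TAW in
/-- TAW: Taylor's formula at the scale `h` -/
theorem tAW (h1 : StmtGrw) : StmtTaw := by
  intro V σ h φ L K hK hKV R₀
  set R := max R₀ 0 with hR
  have hR0 : 0 ≤ R := le_max_right _ _
  obtain ⟨κ, hκ, hg⟩ := h1 V σ h φ L K hK hKV
  set S := 2 * R * κ * Real.exp 2 + 1 with hS
  have hκ0 : 0 < κ := by linarith
  have hS0 : 0 < S := by
    have : 0 ≤ 2 * R * κ * Real.exp 2 := by positivity
    linarith
  obtain ⟨δ, hδ, hδV⟩ := hK.exists_cthickening_subset_open L.op hKV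
  refine ⟨R + S + 1, by positivity, fun ε hε => ?_⟩
  obtain ⟨N₁, hN₁⟩ := (((numer_lim κ).eventually_lt_const hε)).exists_forall_of_atTop
  obtain ⟨N₂, hN₂⟩ := exists_nat_ge S
  refine ⟨max N₁ N₂, fun N hN => ?_⟩
  have hNS : S ≤ N := hN₂.trans (by exact_mod_cast (le_max_right _ _).trans hN)
  have hNε := hN₁ N ((le_max_left _ _).trans hN)
  have hN0 : (0 : ℝ) < N + 1 := by positivity
  have hd : 0 < S / (N + 1) := by positivity
  have hd1 : S / (N + 1) ≤ 1 := by rw [div_le_one hN0]; linarith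
  have hsum : R + ((N + 1 : ℕ) : ℝ) * (S / (N + 1)) + 1 ≤ R + S + 1 := by
    have : ((N + 1 : ℕ) : ℝ) * (S / (N + 1)) = S := by push_cast; field_simp
    rw [this]
  have hsm : ∀ᶠ n in atTop, R * h n ≤ δ := by
    have h0 := L.hlim.const_mul R
    rw [mul_zero] at h0
    exact (h0.eventually_lt_const hδ).mono fun n hn => hn.le
  filter_upwards [hg R (S / (N + 1)) (R + S + 1) hR0 hd hd1 (N + 1) hsum, hsm] with n hn hn2 z hz v hv
  have hv' : ‖v‖ ≤ R := hv.trans (le_max_left _ _)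
  have hh := L.hpos n
  have hnear : ∀ t ∈ Icc (0 : ℝ) 1, ‖(z + t • ((h n : ℂ) * v)) - z‖ ≤ R * h n := by
    intro t ht
    rw [add_sub_cancel_left, norm_smul, norm_mul, Complex.norm_real, Real.norm_of_nonneg hh.le,
      Real.norm_of_nonneg ht.1]
    calc t * (h n * ‖v‖) ≤ 1 * (h n * R) := by
          have := ht.2
          gcongr
      _ = R * h n := by ring
  have hin : ∀ t ∈ Icc (0 : ℝ) 1, z + t • ((h n : ℂ) * v) ∈ V := by
    intro t ht
    refine hδV (Metric.mem_cthickening_of_dist_le _ z δ K hz ?_)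
    rw [dist_eq_norm]
    exact (hnear t ht).trans hn2
  refine ⟨by simpa using hin 1 (by simp), ?_⟩
  have ht := taylor_dir L.op (L.smφ n).contDiffOn hin N
  rw [tayW_eq L, ht, add_sub_cancel_left, norm_smul, norm_inv, Real.norm_natCast]
  set M := √(Mn (R + S + 1) h φ n z) with hM
  have hM0 : 0 ≤ M := Real.sqrt_nonneg _
  set G := κ * (κ / (S / (N + 1))) ^ (N + 1) * M with hG
  have hint : ‖∫ t in (0 : ℝ)..1, (1 - t) ^ N • dirK (N + 1) ((h n : ℂ) * v) (φ n)
      (z + t • ((h n : ℂ) * v))‖ ≤ ((2 * R) ^ (N + 1) * G) * |1 - 0| := by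
    refine intervalIntegral.norm_integral_le_of_norm_le_const fun t ht => ?_
    rw [uIoc_of_le zero_le_one] at ht
    have ht' : t ∈ Icc (0 : ℝ) 1 := ⟨ht.1.le, ht.2⟩
    have h5 := dirK_bound L (n := n) (k := N + 1) (v := v) (z := z + t • ((h n : ℂ) * v)) hv'
      (G := G) fun a b hab => hn z hz _ (hnear t ht') a b hab
    rw [norm_smul, norm_pow, Real.norm_of_nonneg (by linarith [ht.2])]
    have h6 : (1 - t) ^ N ≤ 1 := pow_le_one₀ (by linarith [ht.2]) (by linarith [ht.1])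
    calc (1 - t) ^ N * ‖dirK (N + 1) ((h n : ℂ) * v) (φ n) (z + t • ((h n : ℂ) * v))‖
        ≤ 1 * ((2 * R) ^ (N + 1) * G) := mul_le_mul h6 h5 (norm_nonneg _) zero_le_one
      _ = _ := one_mul _
  rw [sub_zero, abs_one, mul_one] at hint
  have h7 := numer hR0 hκ (le_refl S) N
  calc (N.factorial : ℝ)⁻¹ * ‖∫ t in (0 : ℝ)..1, (1 - t) ^ N • dirK (N + 1) ((h n : ℂ) * v) (φ n)
          (z + t • ((h n : ℂ) * v))‖
      ≤ (N.factorial : ℝ)⁻¹ * ((2 * R) ^ (N + 1) * G) := by gcongr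
    _ = ((N.factorial : ℝ)⁻¹ * ((2 * R) ^ (N + 1) * (κ * (κ / (S / (N + 1))) ^ (N + 1)))) * M := by
        rw [hG]; ring
    _ ≤ ε * M := mul_le_mul_of_nonneg_right (h7.trans hNε.le) hM0

end

end BSL
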